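import Mathlib

section

set_option autoImplicit false
set_option linter.dupNamespace false

open MeasureTheory Set Metric
open scoped InnerProductSpace ENNReal

namespace Pool.Agent.MP_4f0ed6_gt.U

noncomputable section

/-- Lebesgue measure on the disc of radius 16 -/
def mu : Measure ℂ := volume.restrict (ball (0 : ℂ) 16)

instance muFin : IsFiniteMeasure mu :=
  isFiniteMeasure_restrict.2 measure_ball_lt_top.ne

/-- `n` copies of the disc of radius 16 -/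
def nu (n : ℕ) : Measure (Fin n × ℂ) := (Measure.count : Measure (Fin n)).prod mu

instance nuFin (n : ℕ) : IsFiniteMeasure (nu n) := by
  unfold nu; infer_instance

abbrev L2 (n : ℕ) := Lp ℝ 2 (nu n)
abbrev LI (n : ℕ) := Lp ℝ ⊤ (nu n)
abbrev Op (n : ℕ) := L2 n →L[ℝ] L2 n
abbrev Nd (n m : ℕ) := Fin n ⊕ Fin m
abbrev St (n : ℕ) := Option (Fin n) × Fin n

variable {n m : ℕ}

/-- multiplication by a bounded function -/
def mul : LI n →L[ℝ] Op n := (ContinuousLinearMap.mul ℝ ℝ).holderL (nu n) ⊤ 2 2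

/-- the inner product as a bilinear map -/
def ipL (E : Type) [NormedAddCommGroup E] [InnerProductSpace ℝ E] : E →L[ℝ] E →L[ℝ] ℝ :=
  innerSL ℝ

theorem msb (c : Fin n) (t : ℝ) : MeasurableSet (({c} : Set (Fin n)) ×ˢ ball (0 : ℂ) t) :=
  (measurableSet_singleton c).prod measurableSet_ball

/-- indicator of the disc of radius `t` in chart `c` -/
def ind (c : Fin n) (t : ℝ) : LI n := indicatorConstLp ⊤ (msb c t) (measure_ne_top _ _) (1 : ℝ)
def one (c : Fin n) : L2 n := indicatorConstLp 2 (msb c 1) (measure_ne_top _ _) (1 : ℝ)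
def ct (c : Fin n) (t : ℝ) : Op n := mul (ind c t)
def pr (c : Fin n) : Op n := ct c 3
def cel (S : Finset (Fin n)) : LI n := ∑ c ∈ S, ind c 3
def prS (S : Finset (Fin n)) : Op n := mul (cel S)
def Wt (t : ℝ) (Ω : Finset (Fin n)) : LI n := t • cel Ωᶜ
def WZ (cb : ℝ) (Z : Finset (Fin n)) : LI n := ∑ z ∈ Z, (ind z 3 - cb • ind z 10)

def Bd (W : LI n) (K : ℝ) : Prop := ∀ᵐ y ∂nu n, W y ≤ K
def On (A : Set (Fin n)) (x : L2 n) : Prop := ∀ᵐ y ∂nu n, y.1 ∉ A → x y = 0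
def Pp (A : Op n) : Prop := ∀ x, 0 ≤ x → 0 ≤ A x
def Le (A B : Op n) : Prop := ∀ x, 0 ≤ x → A x ≤ B x
def Sy (A : Op n) : Prop := ∀ x y, ⟪A x, y⟫_ℝ = ⟪x, A y⟫_ℝ

/-- dual reverse Cauchy-Schwarz -/
def DR (A : Op n) (CR : ℝ) (c : Fin n) (g : L2 n) : Prop :=
  0 ≤ g ∧ pr c g = g ∧ ∀ x, 0 ≤ x → ‖pr c (A x)‖ ≤ CR * ⟪g, A x⟫_ℝ

/-- `b` is reached from `a` in `j` steps -/
def near {N : Type} (adj : N → N → Prop) : ℕ → N → N → Prop
  | 0, a, b => a = b
  | j + 1, a, b => ∃ x, near adj j a x ∧ adj x b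

structure Gr {N : Type} (adj : N → N → Prop) (Δ : ℕ) : Prop where
  refl : ∀ a, adj a a
  symm : ∀ a b, adj a b → adj b a
  deg : ∀ a, {b | adj a b}.ncard ≤ Δ

open Classical in
def bd (adj : Nd n m → Nd n m → Prop) (A : Set (Nd n m)) : Finset (Fin n) :=
  Finset.univ.filter fun c => (∃ a, a ∈ A ∧ adj (.inl c) a) ∧ ∃ a, a ∉ A ∧ adj (.inl c) a

open Classical in
def bl (adj : Nd n m → Nd n m → Prop) (j : ℕ) (u : Fin n) : Finset (Fin n) :=
  Finset.univ.filter fun c => near adj j (.inl u) (.inl c)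

def Ub (adj : Nd n m → Nd n m → Prop) (C : Finset (Fin n)) (r : ℕ) (u : Fin n) : Finset (Fin n) :=
  if u ∈ C then bl adj r u ∩ C else ∅

def Zx {M : ℕ} (ξ : Fin n → Fin (M + 1)) : Finset (Fin n) := Finset.univ.filter fun z => ξ z = 0

/-- block data -/
structure Bk (n : ℕ) where
  B : Op n
  C : Finset (Fin n)
  U : Fin n → Finset (Fin n)
  p : ℝ
  H : Fin n → Op n

namespace Bk

def q (β : Bk n) (c : Fin n) : ℝ := 1 - β.p * ((Finset.univ.filter fun u => c ∈ β.U u).card : ℝ)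

def w (β : Bk n) : Bool → Option (Fin n) → Fin n → ℝ
  | false, none, _ => 1
  | false, some _, _ => 0
  | true, none, c => β.q c
  | true, some u, c => if c ∈ β.U u then β.p else 0

def op (β : Bk n) : Option (Fin n) → Op n
  | none => β.B
  | some u => β.H u

def S (β : Bk n) (τ : Bool) : Op n := ∑ c, ∑ o, β.w τ o c • (pr c * β.op o)

def Th (β : Bk n) : Op n := β.B * β.S true * β.B

def XS (β : Bk n) : List Bool → List (St n) → Fin n → Op n
  | τ :: l, x :: σ, c => β.w τ x.1 c • (pr c * β.op x.1 * XS β l σ x.2)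
  | [], _, c => pr c
  | _ :: _, [], c => pr c

def pk (β : Bk n) (k : Fin n → Fin n → ℝ) : List Bool → List (St n) → Fin n → ℝ
  | τ :: l, x :: σ, c => β.w τ x.1 c * k c x.2 * pk β k l σ x.2
  | [], _, _ => 1
  | _ :: _, [], _ => 1

def hat (β : Bk n) (E : Op n) : Bk n where
  B := E * β.B * E
  C := β.C
  U := β.U
  p := β.p
  H := fun u => Ring.inverse (1 - prS (β.U u) * (E * β.B * E) * prS (β.U u)) *
    (prS (β.U u) * (E * β.B * E) * (1 - prS (β.U u)))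

structure Ok (β : Bk n) : Prop where
  sym : Sy β.B
  psd : ∀ x, 0 ≤ ⟪β.B x, x⟫_ℝ
  pos : Pp β.B
  cut : prS β.C * β.B = β.B
  cut' : β.B * prS β.C = β.B
  sub : ∀ u, β.U u ⊆ β.C
  p0 : 0 ≤ β.p
  q0 : ∀ c, 0 ≤ β.q c
  con : ∀ u, ∃ θ : ℝ, θ < 1 ∧ ∀ x, prS (β.U u) x = x → ⟪β.B x, x⟫_ℝ ≤ θ * ‖x‖ ^ 2
  res : ∀ u, prS (β.U u) * β.H u =
    prS (β.U u) * β.B * (1 - prS (β.U u)) + prS (β.U u) * β.B * prS (β.U u) * β.H u

end Bk

/-- sum over all lists of a given length -/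
def sumS {α M : Type} [Fintype α] [AddCommMonoid M] : ℕ → (List α → M) → M
  | 0, f => f []
  | k + 1, f => ∑ x, sumS k fun l => f (x :: l)

def Sh (rel : Fin n → Fin n → Prop) : Fin n → List (St n) → Prop
  | _, [] => True
  | c, x :: σ => rel c x.2 ∧ Sh rel x.2 σ

def pt : ℕ → List Bool
  | 0 => [true]
  | j + 1 => true :: false :: false :: pt j

def pat (j : ℕ) : List Bool := false :: pt j

/-- a finite family of functions, each living in a cell -/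
structure Fm (n : ℕ) where
  N : ℕ
  e : Fin N → L2 n
  c : Fin N → Fin n

def Fm.E (φ : Fm n) : Op n := ∑ ω, (ipL (L2 n) (φ.e ω)).smulRight (φ.e ω)

structure Fm.Ok (φ : Fm n) (C : Finset (Fin n)) : Prop where
  on : Orthonormal ℝ φ.e
  nn : ∀ ω, 0 ≤ φ.e ω
  cl : ∀ ω, pr (φ.c ω) (φ.e ω) = φ.e ω
  mem : ∀ ω, φ.c ω ∈ C

structure Cst where
  Δ : ℕ
  κ0 : ℝ
  Cf : ℝ
  Cl : ℝ
  CR : ℝ → ℝ

structure Cst.Ok (k : Cst) : Prop where
  h1 : 1 ≤ k.Δ
  h2 : 0 ≤ k.κ0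
  h3 : 0 < k.Cf
  h4 : 0 < k.Cl
  h5 : ∀ K, 0 < k.CR K

def Cst.cb (k : Cst) (K : ℝ) : ℝ := 1 / (2 * k.CR K)

/-- the abstract problem -/
structure Pb (n m : ℕ) (H : Type) [NormedAddCommGroup H] [InnerProductSpace ℝ H] where
  R : H →L[ℝ] L2 n
  Qb : H →L[ℝ] H →L[ℝ] ℝ
  adj : Nd n m → Nd n m → Prop
  Ps : Set (Nd n m) → Prop
  Kr : Submodule ℝ H

namespace Pb

variable {H : Type} [NormedAddCommGroup H] [InnerProductSpace ℝ H]

def q (P : Pb n m H) (W : LI n) : H →L[ℝ] H →L[ℝ] ℝ :=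
  P.Qb + (ipL (L2 n)).bilinearComp ((mul W).comp P.R) P.R

def Co (P : Pb n m H) (W : LI n) : Prop := IsCoercive (P.q W)

def Good (P : Pb n m H) (k : Cst) (Z0 : Finset (Fin n)) (R : ℕ) : Prop :=
  ∀ (Ω A : Finset (Fin n)) (ρ : ℕ), Ω ⊆ Z0ᶜ → A ⊆ Z0ᶜ → (∀ c ∈ Ω, ∃ u ∈ A, c ∈ bl P.adj ρ u) →
    A.card * (2 * ρ + 3) ≤ R → ∀ t, k.κ0 + 1 ≤ t → P.Co (Wt t Ω)

variable [CompleteSpace H]

open Classical in
def sol (P : Pb n m H) (W : LI n) : L2 n →L[ℝ] H :=
  if h : IsCoercive (P.q W) then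
    (h.continuousLinearEquivOfBilin.symm : H →L[ℝ] H).comp (ContinuousLinearMap.adjoint P.R)
  else 0

def G (P : Pb n m H) (W : LI n) : Op n := P.R.comp (P.sol W)

def psn (P : Pb n m H) (W : LI n) (c : Fin n) : L2 n :=
  ‖ct c 10 (P.G W (one c))‖⁻¹ • P.G W (one c)

def bk (P : Pb n m H) (κ : ℝ) (W : LI n) (C : Finset (Fin n)) (U : Fin n → Finset (Fin n))
    (p : ℝ) : Bk n where
  B := κ • (prS C * P.G W * prS C)
  C := C
  U := U
  p := p
  H := fun u => κ • (prS C * P.G (W - κ • cel (U u)) * (prS C - prS (U u)))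

def bz (P : Pb n m H) (k : Cst) (κ : ℝ) (Z0 : Finset (Fin n)) (r : ℕ) (Z : Finset (Fin n)) :
    Bk n :=
  P.bk κ (Wt κ ∅ + WZ (k.cb (κ + 2)) Z0 + WZ (k.cb (κ + 2)) Z) Z0ᶜ (Ub P.adj Z0ᶜ r)
    ((k.Δ : ℝ) ^ r)⁻¹

def rel (P : Pb n m H) (Z0 : Finset (Fin n)) (ℓ : ℕ) (c c' : Fin n) : Prop :=
  c' ∈ Z0ᶜ ∧ c' ∈ bl P.adj ℓ c

def Rev (P : Pb n m H) (CR : ℝ → ℝ) : Prop :=
  ∀ (K : ℝ) (W W' : LI n), 0 ≤ K → P.Co W → P.Co W' → Bd W K → Bd W' K →
    ∀ x y, 0 ≤ x → 0 ≤ y → ∀ c,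
      ‖ct c 10 (P.G W x)‖ * ‖ct c 10 (P.G W' y)‖ ≤ CR K * ⟪ct c 1 (P.G W x), P.G W' y⟫_ℝ

def Flux (P : Pb n m H) (Cf : ℝ) : Prop :=
  ∀ (K : ℝ) (W : LI n), 0 ≤ K → P.Co W → Bd W K → ∀ (A : Set (Nd n m)) (x y : L2 n),
    0 ≤ x → 0 ≤ y → On {c | ∀ a, P.adj (.inl c) a → a ∈ A} x →
    On {c | ∀ a, P.adj (.inl c) a → a ∉ A} y →
    ⟪x, P.G W y⟫_ℝ ≤ Cf * √(1 + K) * ∑ c ∈ bd P.adj A, ⟪pr c (P.G W x), P.G W y⟫_ℝ

def Ims (P : Pb n m H) (κ0 : ℝ) : Prop :=
  ∀ cl : Nd n m → Nd n m, (∀ l, P.Ps (cl ⁻¹' {l})) → ∀ Ω : Finset (Fin n),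
    (∀ c ∈ Ω, ∀ a, P.adj (.inl c) a → cl a = cl (.inl c)) → (∃ c, c ∉ Ω) →
    ∀ t, κ0 + 1 ≤ t → P.Co (Wt t Ω)

def Loc (P : Pb n m H) (Cl : ℝ) : Prop :=
  ∀ f ∈ P.Kr, ∀ (c : Fin n) (t : ℝ), 0 ≤ t → ∃ w, pr c (P.R w) = pr c (P.R f) ∧
    P.q (Wt t ∅) w w ≤ Cl * (1 + t) * ‖ct c 10 (P.R f)‖ ^ 2

structure Ax (P : Pb n m H) (k : Cst) : Prop where
  ok : k.Ok
  gr : Gr P.adj k.Δ
  ne : Nonempty (Fin n)
  sym : ∀ u v, P.Qb u v = P.Qb v u
  pos : ∀ W, P.Co W → Pp (P.G W)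
  rev : P.Rev k.CR
  flux : P.Flux k.Cf
  ims : P.Ims k.κ0
  mono : ∀ A B, A ⊆ B → P.Ps B → P.Ps A
  single : ∀ a, P.Ps {a}
  two : ∀ A B, (∀ a ∈ A, ∀ b ∈ B, ¬ P.adj a b) → P.Ps A ∨ P.Ps B
  fin : FiniteDimensional ℝ P.Kr
  ker : ∀ f ∈ P.Kr, ∀ v, P.Qb f v = 0
  loc : P.Loc k.Cl
  nz : ∀ c, ∃ u, ⟪one c, P.R u⟫_ℝ ≠ 0

end Pb

end

end Pool.Agent.MP_4f0ed6_gt.U

end

section

set_option autoImplicit false
set_option linter.dupNamespace false

open MeasureTheory Set Metric Filter Topology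
open scoped ContDiff ENNReal

namespace Pool.Agent.MP_4f0ed6_gt.U

noncomputable section

def dx (u : ℂ → ℝ) (y : ℂ) : ℝ := fderiv ℝ u y 1
def dy (u : ℂ → ℝ) (y : ℂ) : ℝ := fderiv ℝ u y Complex.I
def lp (u : ℂ → ℝ) (y : ℂ) : ℝ := dx (dx u) y + dy (dy u) y

/-- smooth nonnegative functions that converge to `g` together with their gradients -/
structure Apx (u : ℕ → ℂ → ℝ) (g gx gy : ℂ → ℝ) : Prop where
  sm : ∀ k, ContDiff ℝ ∞ (u k)
  nn : ∀ k y, 0 ≤ u k y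
  m0 : MemLp g 2 mu
  m1 : MemLp gx 2 mu
  m2 : MemLp gy 2 mu
  c0 : Tendsto (fun k => eLpNorm (u k - g) 2 mu) atTop (𝓝 0)
  c1 : Tendsto (fun k => eLpNorm (dx (u k) - gx) 2 mu) atTop (𝓝 0)
  c2 : Tendsto (fun k => eLpNorm (dy (u k) - gy) 2 mu) atTop (𝓝 0)
  ae : ∀ᵐ y ∂mu, Tendsto (fun k => u k y) atTop (𝓝 (g y))

/-- nonnegative weak supersolutions of `-Δ + K` on the disc of radius 16 -/
structure Sup (K : ℝ) (g gx gy : ℂ → ℝ) : Prop where
  apx : ∃ u, Apx u g gx gy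
  sup : ∀ η : ℂ → ℝ, ContDiff ℝ ∞ η → tsupport η ⊆ ball 0 16 → (∀ y, 0 ≤ η y) →
    0 ≤ ∫ y, (gx y * dx η y + gy y * dy η y + K * (g y * η y)) ∂mu

end

end Pool.Agent.MP_4f0ed6_gt.U

end

section

set_option autoImplicit false
set_option linter.dupNamespace false

open MeasureTheory Set Metric Filter Topology
open scoped ContDiff ENNReal

namespace Pool.Agent.MP_4f0ed6_gt.U

variable {u v η : ℂ → ℝ} {y : ℂ}

theorem BL1_add (hu : DifferentiableAt ℝ u y) (hv : DifferentiableAt ℝ v y) (e : ℂ) :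
    fderiv ℝ (fun y => u y + v y) y e = fderiv ℝ u y e + fderiv ℝ v y e := by
  rw [fderiv_fun_add hu hv]
  rfl

theorem BL1_mul (hu : DifferentiableAt ℝ u y) (hv : DifferentiableAt ℝ v y) (e : ℂ) :
    fderiv ℝ (fun y => u y * v y) y e = fderiv ℝ u y e * v y + u y * fderiv ℝ v y e := by
  rw [fderiv_fun_mul hu hv]
  simp only [add_apply, smul_apply, smul_eq_mul]
  ring

theorem BL1_comp {φ : ℝ → ℝ} {a : ℝ} (hφ : HasDerivAt φ a (u y)) (hu : DifferentiableAt ℝ u y)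
    (e : ℂ) : fderiv ℝ (fun y => φ (u y)) y e = a * fderiv ℝ u y e := by
  have h := (hφ.comp_hasFDerivAt y hu.hasFDerivAt).fderiv
  exact congrArg (fun L : ℂ →L[ℝ] ℝ => L e) h

theorem BL1_affine (w : ℂ) (ρ : ℝ) (hu : DifferentiableAt ℝ u (w + ρ * y)) (e : ℂ) :
    fderiv ℝ (fun y => u (w + ρ * y)) y e = ρ * fderiv ℝ u (w + ρ * y) e := by
  have h1 : HasFDerivAt (fun y : ℂ => w + ρ * y) (ρ • ContinuousLinearMap.id ℝ ℂ) y :=
    ((hasFDerivAt_id y).const_smul ρ).const_add w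
  have h := (hu.hasFDerivAt.comp y h1).fderiv
  refine (congrArg (fun L : ℂ →L[ℝ] ℝ => L e) h).trans ?_
  simp only [ContinuousLinearMap.comp_apply, smul_apply,
    ContinuousLinearMap.id_apply, map_smul, smul_eq_mul]

theorem BL1_cd (hu : ContDiff ℝ ∞ u) (e : ℂ) : ContDiff ℝ ∞ fun y => fderiv ℝ u y e :=
  (contDiff_infty_iff_fderiv.1 hu).2.clm_apply contDiff_const

theorem BL1_ibp (hu : ContDiff ℝ ∞ u) (hη : ContDiff ℝ ∞ η) (hc : HasCompactSupport η) (e : ℂ) :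
    ∫ y, fderiv ℝ u y e * η y = -∫ y, u y * fderiv ℝ η y e := by
  rw [integral_mul_fderiv_eq_neg_fderiv_mul_of_integrable, neg_neg]
  · exact ((BL1_cd hu e).continuous.mul hη.continuous).integrable_of_hasCompactSupport hc.mul_left
  · exact (hu.continuous.mul (BL1_cd hη e).continuous).integrable_of_hasCompactSupport
      (hc.fderiv_apply ℝ e).mul_left
  · exact (hu.continuous.mul hη.continuous).integrable_of_hasCompactSupport hc.mul_left
  · exact fun x _ => (contDiff_infty_iff_fderiv.1 hu).1 x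
  · exact fun x _ => (contDiff_infty_iff_fderiv.1 hη).1 x

theorem BL1_emb (w : ℂ) {ρ : ℝ} (h : 0 < ρ) : MeasurableEmbedding fun y : ℂ => w + ρ * y :=
  (measurableEmbedding_addLeft w).comp
    (measurableEmbedding_mulLeft₀ (Complex.ofReal_ne_zero.2 h.ne'))

theorem BL1_map (w : ℂ) {ρ : ℝ} (h : 0 < ρ) (t : ℝ) :
    (volume : Measure ℂ).restrict (ball w (t * ρ)) = ENNReal.ofReal (ρ ^ 2) •
      Measure.map (fun y : ℂ => w + ρ * y) (volume.restrict (ball 0 t)) := by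
  have e1 : (fun y : ℂ => w + ρ * y) ⁻¹' ball w (t * ρ) = ball 0 t := by
    ext y
    simp only [mem_preimage, mem_ball, dist_self_add_left, dist_zero_right, norm_mul,
      Complex.norm_real, Real.norm_of_nonneg h.le]
    rw [mul_comm ρ, mul_lt_mul_iff_left₀ h]
  have e2 : Measure.map (fun y : ℂ => w + ρ * y) volume =
      ENNReal.ofReal ((ρ ^ 2)⁻¹) • (volume : Measure ℂ) := by
    have e3 : (fun y : ℂ => w + ρ * y) = (fun y => w + y) ∘ fun y : ℂ => ρ • y := rfl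
    rw [e3, ← Measure.map_map (measurable_const_add w) (measurable_const_smul ρ),
      Measure.map_addHaar_smul _ h.ne', Measure.map_smul, map_add_left_eq_self,
      Complex.finrank_real_complex, abs_of_pos (by positivity)]
  rw [← e1, ← (BL1_emb w h).restrict_map, e2, Measure.restrict_smul, smul_smul,
    ← ENNReal.ofReal_mul (by positivity), mul_inv_cancel₀ (by positivity), ENNReal.ofReal_one,
    one_smul]

theorem dx_add (hu : DifferentiableAt ℝ u y) (hv : DifferentiableAt ℝ v y) :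
    dx (fun y => u y + v y) y = dx u y + dx v y := BL1_add hu hv _
theorem dy_add (hu : DifferentiableAt ℝ u y) (hv : DifferentiableAt ℝ v y) :
    dy (fun y => u y + v y) y = dy u y + dy v y := BL1_add hu hv _
theorem dx_mul (hu : DifferentiableAt ℝ u y) (hv : DifferentiableAt ℝ v y) :
    dx (fun y => u y * v y) y = dx u y * v y + u y * dx v y := BL1_mul hu hv _
theorem dy_mul (hu : DifferentiableAt ℝ u y) (hv : DifferentiableAt ℝ v y) :
    dy (fun y => u y * v y) y = dy u y * v y + u y * dy v y := BL1_mul hu hv _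
theorem dx_comp {φ : ℝ → ℝ} {a : ℝ} (hφ : HasDerivAt φ a (u y)) (hu : DifferentiableAt ℝ u y) :
    dx (fun y => φ (u y)) y = a * dx u y := BL1_comp hφ hu _
theorem dy_comp {φ : ℝ → ℝ} {a : ℝ} (hφ : HasDerivAt φ a (u y)) (hu : DifferentiableAt ℝ u y) :
    dy (fun y => φ (u y)) y = a * dy u y := BL1_comp hφ hu _
theorem dx_affine (w : ℂ) (ρ : ℝ) (hu : DifferentiableAt ℝ u (w + ρ * y)) :
    dx (fun y => u (w + ρ * y)) y = ρ * dx u (w + ρ * y) := BL1_affine w ρ hu _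
theorem dy_affine (w : ℂ) (ρ : ℝ) (hu : DifferentiableAt ℝ u (w + ρ * y)) :
    dy (fun y => u (w + ρ * y)) y = ρ * dy u (w + ρ * y) := BL1_affine w ρ hu _
theorem contDiff_dx (hu : ContDiff ℝ ∞ u) : ContDiff ℝ ∞ (dx u) := BL1_cd hu _
theorem contDiff_dy (hu : ContDiff ℝ ∞ u) : ContDiff ℝ ∞ (dy u) := BL1_cd hu _
theorem dx_congr (h : u =ᶠ[𝓝 y] v) : dx u y = dx v y := by
  rw [dx, dx, h.fderiv_eq]
theorem dy_congr (h : u =ᶠ[𝓝 y] v) : dy u y = dy v y := by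
  rw [dy, dy, h.fderiv_eq]
theorem dx_eq_zero (h : y ∉ tsupport u) : dx u y = 0 := by
  rw [dx, fderiv_of_notMem_tsupport ℝ h]
  rfl
theorem dy_eq_zero (h : y ∉ tsupport u) : dy u y = 0 := by
  rw [dy, fderiv_of_notMem_tsupport ℝ h]
  rfl
theorem tsupport_dx (u : ℂ → ℝ) : tsupport (dx u) ⊆ tsupport u :=
  tsupport_fderiv_apply_subset ℝ 1
theorem tsupport_dy (u : ℂ → ℝ) : tsupport (dy u) ⊆ tsupport u :=
  tsupport_fderiv_apply_subset ℝ Complex.I
theorem norm_fderiv_sq (u : ℂ → ℝ) (y : ℂ) : ‖fderiv ℝ u y‖ ^ 2 = dx u y ^ 2 + dy u y ^ 2 := by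
  rw [Complex.orthonormalBasisOneI.norm_dual, Fin.sum_univ_two, Complex.coe_orthonormalBasisOneI]
  rfl
theorem ibp_x (hu : ContDiff ℝ ∞ u) (hη : ContDiff ℝ ∞ η) (hc : HasCompactSupport η) :
    ∫ y, dx u y * η y = -∫ y, u y * dx η y := BL1_ibp hu hη hc _
theorem ibp_y (hu : ContDiff ℝ ∞ u) (hη : ContDiff ℝ ∞ η) (hc : HasCompactSupport η) :
    ∫ y, dy u y * η y = -∫ y, u y * dy η y := BL1_ibp hu hη hc _
theorem exists_cut {a b : ℝ} (ha : 0 < a) (hab : a < b) : ∃ ζ : ℂ → ℝ, ContDiff ℝ ∞ ζ ∧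
    (∀ y, 0 ≤ ζ y) ∧ (∀ y, ζ y ≤ 1) ∧ (∀ y, ‖y‖ ≤ a → ζ y = 1) ∧ tsupport ζ ⊆ ball 0 b ∧
    ∃ M : ℝ, ∀ y, dx ζ y ^ 2 + dy ζ y ^ 2 ≤ M := by
  let f : ContDiffBump (0 : ℂ) := ⟨a, (a + b) / 2, ha, by linarith⟩
  have hf : ContDiff ℝ ∞ f := f.contDiff
  refine ⟨f, hf, fun _ => f.nonneg, fun _ => f.le_one,
    fun y hy => f.one_of_mem_closedBall (mem_closedBall_zero_iff.2 hy), ?_, ?_⟩
  · rw [f.tsupport_eq]
    exact closedBall_subset_ball (show (a + b) / 2 < b by linarith)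
  · obtain ⟨C, hC⟩ := (contDiff_infty_iff_fderiv.1 hf).2.continuous.bounded_above_of_compact_support
      (f.hasCompactSupport.fderiv ℝ)
    refine ⟨C ^ 2, fun y => ?_⟩
    rw [← norm_fderiv_sq]
    exact pow_le_pow_left₀ (norm_nonneg _) (hC y) 2
theorem integral_mu_of_support {f : ℂ → ℝ} (h : ∀ y, y ∉ ball (0 : ℂ) 16 → f y = 0) :
    ∫ y, f y ∂mu = ∫ y, f y := setIntegral_eq_integral_of_forall_compl_eq_zero h
theorem mu_restrict {A : Set ℂ} (hm : MeasurableSet A) (h : A ⊆ ball (0 : ℂ) 16) :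
    mu.restrict A = volume.restrict A := by
  rw [mu, Measure.restrict_restrict hm, inter_eq_left.2 h]
theorem BL1_mem {p : ℝ≥0∞} (hu : ContinuousOn u (closedBall 0 16)) : MemLp u p mu := by
  obtain ⟨C, hC⟩ := (isCompact_closedBall (0 : ℂ) 16).exists_bound_of_continuousOn hu
  exact MemLp.of_bound ((hu.mono ball_subset_closedBall).aestronglyMeasurable measurableSet_ball) C
    ((ae_restrict_mem measurableSet_ball).mono fun y hy => hC y (ball_subset_closedBall hy))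
theorem memLp_mu {p : ℝ≥0∞} (hu : Continuous u) : MemLp u p mu := BL1_mem hu.continuousOn
theorem memLp_mu' {p : ℝ≥0∞} (hu : ContinuousOn u (closedBall 0 16)) : MemLp u p mu :=
  BL1_mem hu
theorem real_ball (w : ℂ) {ρ : ℝ} (h : 0 ≤ ρ) : volume.real (ball w ρ) = Real.pi * ρ ^ 2 := by
  rw [Measure.real, Complex.volume_ball, ENNReal.toReal_mul, ENNReal.toReal_pow,
    ENNReal.toReal_ofReal h, ENNReal.coe_toReal, NNReal.coe_real_pi, mul_comm]
theorem setIntegral_affine (w : ℂ) {ρ : ℝ} (h : 0 < ρ) (t : ℝ) (f : ℂ → ℝ) :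
    ∫ x in ball w (t * ρ), f x = ρ ^ 2 * ∫ y in ball 0 t, f (w + ρ * y) := by
  rw [BL1_map w h t, integral_smul_measure, (BL1_emb w h).integral_map,
    ENNReal.toReal_ofReal (by positivity), smul_eq_mul]
theorem setLIntegral_affine (w : ℂ) {ρ : ℝ} (h : 0 < ρ) (t : ℝ) (f : ℂ → ℝ≥0∞) :
    ∫⁻ x in ball w (t * ρ), f x = ENNReal.ofReal (ρ ^ 2) * ∫⁻ y in ball 0 t, f (w + ρ * y) := by
  rw [BL1_map w h t, lintegral_smul_measure, (BL1_emb w h).lintegral_map, smul_eq_mul]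
/-- Cauchy-Schwarz -/
theorem integral_cs {α : Type} [MeasurableSpace α] {μ : Measure α} {f g : α → ℝ}
    (hf : MemLp f 2 μ) (hg : MemLp g 2 μ) :
    |∫ y, f y * g y ∂μ| ≤ √(∫ y, f y ^ 2 ∂μ) * √(∫ y, g y ^ 2 ∂μ) := by
  have e : ∀ {f g : α → ℝ} (hf : MemLp f 2 μ) (hg : MemLp g 2 μ),
      inner ℝ (hf.toLp f) (hg.toLp g) = ∫ y, f y * g y ∂μ := by
    intro f g hf hg
    rw [L2.inner_def]
    refine integral_congr_ae ?_
    filter_upwards [hf.coeFn_toLp, hg.coeFn_toLp] with y h1 h2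
    rw [h1, h2]
    exact mul_comm _ _
  have h := abs_real_inner_le_norm (hf.toLp f) (hg.toLp g)
  rw [norm_eq_sqrt_real_inner, norm_eq_sqrt_real_inner, e, e, e] at h
  simpa only [sq] using h

end Pool.Agent.MP_4f0ed6_gt.U

end

section

set_option autoImplicit false
set_option linter.dupNamespace false

open MeasureTheory Set Metric
open scoped InnerProductSpace ENNReal

namespace Pool.Agent.MP_4f0ed6_gt.U

variable {n m : ℕ}

theorem mul_ae (W : LI n) (x : L2 n) : ∀ᵐ y ∂nu n, mul W x y = W y * x y := by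
  have := (ContinuousLinearMap.mul ℝ ℝ).coeFn_holder (r := 2) W x
  filter_upwards [this] with y hy
  exact hy

theorem BT1a_mem (c : Fin n) (t : ℝ) (y : Fin n × ℂ) :
    y ∈ (({c} : Set (Fin n)) ×ˢ ball (0 : ℂ) t) ↔ (y.1 = c ∧ ‖y.2‖ < t) := by
  simp [Set.mem_prod]

theorem ind_ae (c : Fin n) (t : ℝ) :
    ∀ᵐ y ∂nu n, ind c t y = if y.1 = c ∧ ‖y.2‖ < t then 1 else 0 := by
  have := indicatorConstLp_coeFn (p := ⊤) (hs := msb c t) (hμs := measure_ne_top (nu n) _)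
    (c := (1 : ℝ))
  filter_upwards [this] with y hy
  unfold ind
  rw [hy]
  by_cases h : y.1 = c ∧ ‖y.2‖ < t
  · rw [if_pos h, Set.indicator_of_mem ((BT1a_mem c t y).2 h)]
  · rw [if_neg h, Set.indicator_of_notMem (fun h' => h ((BT1a_mem c t y).1 h'))]

theorem one_ae (c : Fin n) :
    ∀ᵐ y ∂nu n, one c y = if y.1 = c ∧ ‖y.2‖ < 1 then 1 else 0 := by
  have := indicatorConstLp_coeFn (p := 2) (hs := msb c 1) (hμs := measure_ne_top (nu n) _)
    (c := (1 : ℝ))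
  filter_upwards [this] with y hy
  unfold one
  rw [hy]
  by_cases h : y.1 = c ∧ ‖y.2‖ < 1
  · rw [if_pos h, Set.indicator_of_mem ((BT1a_mem c 1 y).2 h)]
  · rw [if_neg h, Set.indicator_of_notMem (fun h' => h ((BT1a_mem c 1 y).1 h'))]

theorem BT1a_all (t : ℝ) :
    ∀ᵐ y ∂nu n, ∀ c : Fin n, ind c t y = if y.1 = c ∧ ‖y.2‖ < t then 1 else 0 :=
  ae_all_iff.2 fun c => ind_ae c t

theorem cel_ae (S : Finset (Fin n)) :
    ∀ᵐ y ∂nu n, cel S y = if y.1 ∈ S ∧ ‖y.2‖ < 3 then 1 else 0 := by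
  have := Lp.coeFn_fun_finsetSum S (fun c => ind c 3)
  filter_upwards [this, BT1a_all (n := n) 3] with y hy hc
  unfold cel
  rw [hy]
  simp only [hc]
  by_cases h3 : ‖y.2‖ < 3
  · simp [h3]
  · simp [h3]

theorem BT1a_inner (x y : L2 n) : ⟪x, y⟫_ℝ = ∫ a, x a * y a ∂nu n := by
  rw [L2.inner_def]
  refine integral_congr_ae (Filter.Eventually.of_forall fun a => ?_)
  simp [mul_comm]

theorem BT1a_int (x y : L2 n) : Integrable (fun a => x a * y a) (nu n) := by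
  have := L2.integrable_inner (𝕜 := ℝ) x y
  refine this.congr (Filter.Eventually.of_forall fun a => ?_)
  simp [mul_comm]

theorem mul_sy (W : LI n) : Sy (mul W) := by
  intro x y
  rw [BT1a_inner, BT1a_inner]
  refine integral_congr_ae ?_
  filter_upwards [mul_ae W x, mul_ae W y] with a h1 h2
  rw [h1, h2]; ring

theorem norm_mul_le' (W : LI n) : ‖mul W‖ ≤ ‖W‖ := by
  have h1 : ‖(mul : LI n →L[ℝ] Op n)‖ ≤ 1 :=
    (ContinuousLinearMap.mul ℝ ℝ).norm_holderL_le.trans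
      (ContinuousLinearMap.opNorm_mul_le ℝ ℝ)
  calc ‖mul W‖ ≤ ‖(mul : LI n →L[ℝ] Op n)‖ * ‖W‖ := ContinuousLinearMap.le_opNorm _ _
    _ ≤ 1 * ‖W‖ := by gcongr
    _ = ‖W‖ := one_mul _

theorem mul_mul_comm (W W' : LI n) : mul W * mul W' = mul W' * mul W := by
  ext x : 1
  refine Lp.ext ?_
  filter_upwards [mul_ae W (mul W' x), mul_ae W' x, mul_ae W' (mul W x), mul_ae W x]
    with a h1 h2 h3 h4
  simp only [mul_apply_eq_comp]
  rw [h1, h2, h3, h4]; ring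

theorem BT1a_nn {p : ℝ≥0∞} {x : Lp ℝ p (nu n)} : 0 ≤ x ↔ ∀ᵐ a ∂nu n, 0 ≤ x a :=
  (Lp.coeFn_nonneg x).symm

theorem BT1a_le {p : ℝ≥0∞} {x y : Lp ℝ p (nu n)} : x ≤ y ↔ ∀ᵐ a ∂nu n, x a ≤ y a :=
  (Lp.coeFn_le x y).symm

theorem mul_pp {W : LI n} (h : 0 ≤ W) : Pp (mul W) := by
  intro x hx
  rw [BT1a_nn] at *
  filter_upwards [mul_ae W x, h, hx] with a h1 h2 h3
  rw [h1]; exact mul_nonneg h2 h3

theorem mul_le {W W' : LI n} (h : W ≤ W') : Le (mul W) (mul W') := by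
  intro x hx
  rw [BT1a_nn] at hx
  rw [BT1a_le] at *
  filter_upwards [mul_ae W x, mul_ae W' x, h, hx] with a h1 h1' h2 h3
  rw [h1, h1']; exact mul_le_mul_of_nonneg_right h2 h3

theorem inner_nn {x y : L2 n} (hx : 0 ≤ x) (hy : 0 ≤ y) : 0 ≤ ⟪x, y⟫_ℝ := by
  rw [BT1a_inner]
  rw [BT1a_nn] at hx hy
  refine integral_nonneg_of_ae ?_
  filter_upwards [hx, hy] with a h1 h2
  exact mul_nonneg h1 h2

theorem inner_mono_right {x y z : L2 n} (hx : 0 ≤ x) (h : y ≤ z) : ⟪x, y⟫_ℝ ≤ ⟪x, z⟫_ℝ := by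
  have := inner_nn hx (sub_nonneg.2 h)
  rw [inner_sub_right] at this
  linarith

theorem inner_mono_left {x y z : L2 n} (hx : 0 ≤ x) (h : y ≤ z) : ⟪y, x⟫_ℝ ≤ ⟪z, x⟫_ℝ := by
  rw [real_inner_comm x y, real_inner_comm x z]
  exact inner_mono_right hx h

theorem le_of_inner {x y : L2 n} (h : ∀ z, 0 ≤ z → ⟪z, x⟫_ℝ ≤ ⟪z, y⟫_ℝ) : x ≤ y := by
  set z := Lp.posPart (x - y) with hz
  have hza : ∀ᵐ a ∂nu n, z a = max (x a - y a) 0 := by
    filter_upwards [Lp.coeFn_posPart (x - y), Lp.coeFn_sub x y] with a h1 h2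
    rw [hz, h1, h2]; rfl
  have hz0 : 0 ≤ z := by
    rw [BT1a_nn]
    filter_upwards [hza] with a h1
    rw [h1]; exact le_max_right _ _
  have h1 : ⟪z, x - y⟫_ℝ ≤ 0 := by
    rw [inner_sub_right]; linarith [h z hz0]
  have h2 : ⟪z, x - y⟫_ℝ = ⟪z, z⟫_ℝ := by
    rw [BT1a_inner, BT1a_inner]
    refine integral_congr_ae ?_
    filter_upwards [hza, Lp.coeFn_sub x y] with a h1 h2
    rw [h1, h2]
    show max (x a - y a) 0 * (x a - y a) = _
    rcases le_total (x a - y a) 0 with h3 | h3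
    · rw [max_eq_right h3]; ring
    · rw [max_eq_left h3]
  have h3 : z = 0 := by
    rw [h2] at h1
    exact inner_self_eq_zero.1 (le_antisymm h1 real_inner_self_nonneg)
  rw [BT1a_le]
  rw [h3] at hza
  filter_upwards [hza, Lp.coeFn_zero ℝ 2 (nu n)] with a h1 h2
  rw [h2] at h1
  have : x a - y a ≤ max (x a - y a) 0 := le_max_left _ _
  rw [← h1] at this
  simpa using this

theorem norm_mono {x y : L2 n} (hx : 0 ≤ x) (h : x ≤ y) : ‖x‖ ≤ ‖y‖ := by
  refine HasSolidNorm.solid ?_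
  rw [abs_of_nonneg hx, abs_of_nonneg (hx.trans h)]
  exact h

theorem BT1a_smul_nn {p : ℝ≥0∞} {x : Lp ℝ p (nu n)} {a : ℝ} (ha : 0 ≤ a) (hx : 0 ≤ x) :
    0 ≤ a • x := by
  rw [BT1a_nn] at *
  filter_upwards [hx, Lp.coeFn_smul a x] with y h1 h2
  rw [h2]; exact mul_nonneg ha h1

theorem smul_nn {x : L2 n} {a : ℝ} (ha : 0 ≤ a) (hx : 0 ≤ x) : 0 ≤ a • x := BT1a_smul_nn ha hx

theorem smul_mono {x y : L2 n} {a : ℝ} (ha : 0 ≤ a) (h : x ≤ y) : a • x ≤ a • y := by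
  have := smul_nn ha (sub_nonneg.2 h)
  rw [smul_sub] at this
  exact sub_nonneg.1 this

theorem smul_mono' {x : L2 n} {a b : ℝ} (hx : 0 ≤ x) (h : a ≤ b) : a • x ≤ b • x := by
  have := smul_nn (sub_nonneg.2 h) hx
  rw [sub_smul] at this
  exact sub_nonneg.1 this

theorem smul_nn' {W : LI n} {a : ℝ} (ha : 0 ≤ a) (hx : 0 ≤ W) : 0 ≤ a • W := BT1a_smul_nn ha hx

theorem inner_mul_self_le {W W' : LI n} (h : W ≤ W') (x : L2 n) :
    ⟪mul W x, x⟫_ℝ ≤ ⟪mul W' x, x⟫_ℝ := by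
  rw [BT1a_inner, BT1a_inner]
  refine integral_mono_ae (BT1a_int _ _) (BT1a_int _ _) ?_
  rw [BT1a_le] at h
  filter_upwards [mul_ae W x, mul_ae W' x, h] with a h1 h2 h3
  rw [h1, h2, mul_assoc, mul_assoc]
  exact mul_le_mul_of_nonneg_right h3 (mul_self_nonneg _)

theorem ct_ct (c : Fin n) (s t : ℝ) : ct c s * ct c t = ct c (min s t) := by
  ext x : 1
  refine Lp.ext ?_
  filter_upwards [mul_ae (ind c s) (mul (ind c t) x), mul_ae (ind c t) x,
    mul_ae (ind c (min s t)) x, ind_ae c s, ind_ae c t, ind_ae c (min s t)]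
    with a h1 h2 h3 h4 h5 h6
  simp only [mul_apply_eq_comp, ct]
  rw [h1, h2, h3, h4, h5, h6]
  by_cases e1 : a.1 = c <;> by_cases e2 : ‖a.2‖ < s <;> by_cases e3 : ‖a.2‖ < t <;>
    simp [e1, e2, e3]

theorem ct_ct_ne {c c' : Fin n} (h : c ≠ c') (s t : ℝ) : ct c s * ct c' t = 0 := by
  ext x : 1
  refine Lp.ext ?_
  filter_upwards [mul_ae (ind c s) (mul (ind c' t) x), mul_ae (ind c' t) x,
    ind_ae c s, ind_ae c' t, Lp.coeFn_zero ℝ 2 (nu n)]
    with a h1 h2 h4 h5 h6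
  simp only [mul_apply_eq_comp, ct, zero_apply]
  rw [h1, h2, h4, h5, h6]
  by_cases e1 : a.1 = c
  · have e2 : ¬ a.1 = c' := fun e => h (e1.symm.trans e)
    simp [e2]
  · simp [e1]

theorem prS_eq_sum (S : Finset (Fin n)) : prS S = ∑ c ∈ S, pr c := by
  unfold prS cel pr ct
  rw [map_sum]

theorem pr_pr (c c' : Fin n) : pr c * pr c' = if c = c' then pr c else 0 := by
  split_ifs with h
  · subst h
    unfold pr
    rw [ct_ct, min_self]
  · exact ct_ct_ne h 3 3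

theorem pr_prS (c : Fin n) (S : Finset (Fin n)) : pr c * prS S = if c ∈ S then pr c else 0 := by
  rw [prS_eq_sum, Finset.mul_sum]
  simp only [pr_pr]
  rw [Finset.sum_ite_eq]

theorem prS_pr (c : Fin n) (S : Finset (Fin n)) : prS S * pr c = if c ∈ S then pr c else 0 := by
  rw [← pr_prS]
  exact mul_mul_comm _ _

theorem prS_mul (S T : Finset (Fin n)) : prS S * prS T = prS (S ∩ T) := by
  rw [prS_eq_sum S, Finset.sum_mul, prS_eq_sum (S ∩ T)]
  simp only [pr_prS]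
  rw [← Finset.sum_filter, Finset.filter_mem_eq_inter]

theorem prS_empty : prS (∅ : Finset (Fin n)) = 0 := by
  rw [prS_eq_sum, Finset.sum_empty]

theorem cel_sdiff {S T : Finset (Fin n)} (h : S ⊆ T) : cel T - cel S = cel (T \ S) := by
  unfold cel
  rw [← Finset.sum_sdiff h, add_sub_cancel_right]

theorem prS_sdiff {S T : Finset (Fin n)} (h : S ⊆ T) : prS T - prS S = prS (T \ S) := by
  unfold prS
  rw [← map_sub, cel_sdiff h]

theorem ind_nn (c : Fin n) (t : ℝ) : 0 ≤ ind c t := by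
  rw [BT1a_nn]
  filter_upwards [ind_ae c t] with a h
  rw [h]; split_ifs <;> norm_num

theorem ind_mono (c : Fin n) {s t : ℝ} (h : s ≤ t) : ind c s ≤ ind c t := by
  rw [BT1a_le]
  filter_upwards [ind_ae c s, ind_ae c t] with a h1 h2
  rw [h1, h2]
  by_cases e : a.1 = c ∧ ‖a.2‖ < s
  · rw [if_pos e, if_pos ⟨e.1, e.2.trans_le h⟩]
  · rw [if_neg e]; split_ifs <;> norm_num

theorem cel_nn (S : Finset (Fin n)) : 0 ≤ cel S :=
  Finset.sum_nonneg fun c _ => ind_nn c 3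

theorem cel_mono {S T : Finset (Fin n)} (h : S ⊆ T) : cel S ≤ cel T := by
  rw [← sub_nonneg, cel_sdiff h]
  exact cel_nn _

theorem Wt_eq (t : ℝ) (U : Finset (Fin n)) : Wt t U = Wt t ∅ - t • cel U := by
  unfold Wt
  rw [← smul_sub, Finset.compl_empty, cel_sdiff (Finset.subset_univ U), Finset.compl_eq_univ_sdiff]

theorem Wt_sub (t : ℝ) {U Ω : Finset (Fin n)} (h : U ⊆ Ω) :
    Wt t U - Wt t Ω = t • cel (Ω \ U) := by
  rw [Wt_eq t U, Wt_eq t Ω, ← cel_sdiff h, smul_sub]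
  abel

theorem Wt_mono {s t : ℝ} (hst : s ≤ t) (hs : 0 ≤ s) {U Ω : Finset (Fin n)} (h : U ⊆ Ω) :
    Wt s Ω ≤ Wt t U := by
  have h1 : Wt s Ω ≤ Wt s U := by
    rw [← sub_nonneg, Wt_sub s h]
    exact smul_nn' hs (cel_nn _)
  refine h1.trans ?_
  unfold Wt
  rw [← sub_nonneg, ← sub_smul]
  exact smul_nn' (sub_nonneg.2 hst) (cel_nn _)

theorem bd_Wt {t : ℝ} (ht : 0 ≤ t) (Ω : Finset (Fin n)) : Bd (Wt t Ω) t := by
  unfold Bd Wt
  filter_upwards [Lp.coeFn_smul t (cel Ωᶜ), cel_ae Ωᶜ] with a h1 h2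
  rw [h1, Pi.smul_apply, h2, smul_eq_mul]
  split_ifs
  · rw [mul_one]
  · rw [mul_zero]; exact ht

theorem Bd.mono {W W' : LI n} {K K' : ℝ} (h : Bd W K) (hW : W' ≤ W) (hK : K ≤ K') :
    Bd W' K' := by
  unfold Bd at *
  rw [BT1a_le] at hW
  filter_upwards [h, hW] with a h1 h2
  exact h2.trans (h1.trans hK)

theorem Bd.add_WZ {W : LI n} {K cb s : ℝ} (h : Bd W K) (hcb : 0 ≤ cb) (hs : 0 ≤ s) (hs1 : s ≤ 1)
    (Z : Finset (Fin n)) : Bd (W + s • WZ cb Z) (K + 1) := by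
  have h1 : WZ cb Z ≤ cel Z := by
    unfold WZ cel
    refine Finset.sum_le_sum fun z _ => ?_
    exact sub_le_self _ (smul_nn' hcb (ind_nn z 10))
  rw [BT1a_le] at h1
  unfold Bd at *
  filter_upwards [h, h1, cel_ae Z, Lp.coeFn_add W (s • WZ cb Z), Lp.coeFn_smul s (WZ cb Z)]
    with a e1 e2 e3 e4 e5
  rw [e4, Pi.add_apply, e5, Pi.smul_apply, smul_eq_mul]
  have e6 : WZ cb Z a ≤ 1 := by
    refine e2.trans ?_
    rw [e3]; split_ifs <;> norm_num
  have e7 : s * WZ cb Z a ≤ s * 1 := mul_le_mul_of_nonneg_left e6 hs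
  linarith

theorem inner_mul_WZ (cb : ℝ) (Z : Finset (Fin n)) (x y : L2 n) :
    ⟪mul (WZ cb Z) x, y⟫_ℝ = ∑ z ∈ Z, (⟪pr z x, y⟫_ℝ - cb * ⟪ct z 10 x, y⟫_ℝ) := by
  unfold WZ
  rw [map_sum, sum_apply, sum_inner]
  refine Finset.sum_congr rfl fun z _ => ?_
  rw [map_sub, map_smul, sub_apply, smul_apply,
    inner_sub_left, real_inner_smul_left]
  rfl

theorem inner_mul_Wt (t : ℝ) (Ω : Finset (Fin n)) (x y : L2 n) :
    ⟪mul (Wt t Ω) x, y⟫_ℝ = t * ∑ z ∈ Ωᶜ, ⟪pr z x, y⟫_ℝ := by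
  unfold Wt
  rw [map_smul, smul_apply, real_inner_smul_left]
  congr 1
  have := prS_eq_sum Ωᶜ
  unfold prS at this
  rw [this, sum_apply, sum_inner]

end Pool.Agent.MP_4f0ed6_gt.U

end

section

set_option autoImplicit false
set_option linter.dupNamespace false

open MeasureTheory Set Metric
open scoped InnerProductSpace ENNReal

namespace Pool.Agent.MP_4f0ed6_gt.U

variable {n m : ℕ}

theorem BT1_self {A : Op n} (hs : Sy A) (hA : A * A = A) (x : L2 n) :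
    ⟪A x, x⟫_ℝ = ‖A x‖ ^ 2 := by
  have h : A (A x) = A x := by rw [← mul_apply_eq_comp, hA]
  rw [← real_inner_self_eq_norm_sq, ← hs (A x) x, h]

theorem BT1_norm {A : Op n} (hs : Sy A) (hA : A * A = A) (x : L2 n) : ‖A x‖ ≤ ‖x‖ := by
  have h1 := BT1_self hs hA x
  have h2 := real_inner_le_norm (A x) x
  rcases (norm_nonneg (A x)).eq_or_lt with h | h
  · rw [← h]; exact norm_nonneg _
  · nlinarith

theorem BT1_ct (c : Fin n) (t : ℝ) : ct c t * ct c t = ct c t := by rw [ct_ct, min_self]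

theorem BT1_prS (S : Finset (Fin n)) : prS S * prS S = prS S := by
  rw [prS_mul, Finset.inter_self]

theorem norm_ct_le (c : Fin n) (t : ℝ) (x : L2 n) : ‖ct c t x‖ ≤ ‖x‖ :=
  BT1_norm (mul_sy _) (BT1_ct c t) x
theorem inner_ct_self (c : Fin n) (t : ℝ) (x : L2 n) : ⟪ct c t x, x⟫_ℝ = ‖ct c t x‖ ^ 2 :=
  BT1_self (mul_sy _) (BT1_ct c t) x
theorem inner_ct (c : Fin n) (t : ℝ) (x y : L2 n) :
    ⟪ct c t x, y⟫_ℝ = ⟪ct c t x, ct c t y⟫_ℝ := by
  have h : ct c t (ct c t x) = ct c t x := by rw [← mul_apply_eq_comp, BT1_ct]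
  have hs : Sy (ct c t) := mul_sy _
  rw [← hs (ct c t x) y, h]
theorem norm_prS_le (S : Finset (Fin n)) (x : L2 n) : ‖prS S x‖ ≤ ‖x‖ :=
  BT1_norm (mul_sy _) (BT1_prS S) x
theorem inner_prS_self (S : Finset (Fin n)) (x : L2 n) :
    ⟪prS S x, x⟫_ℝ = ‖prS S x‖ ^ 2 :=
  BT1_self (mul_sy _) (BT1_prS S) x
theorem ct_pp (c : Fin n) (t : ℝ) : Pp (ct c t) := mul_pp (ind_nn c t)
theorem prS_pp (S : Finset (Fin n)) : Pp (prS S) := mul_pp (cel_nn S)
theorem ct_le (c : Fin n) (t : ℝ) {x : L2 n} (hx : 0 ≤ x) : ct c t x ≤ x := by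
  rw [BT1a_nn] at hx
  rw [BT1a_le]
  filter_upwards [mul_ae (ind c t) x, ind_ae c t, hx] with a h1 h2 h3
  unfold ct
  rw [h1, h2]
  split_ifs
  · rw [one_mul]
  · rw [zero_mul]; exact h3
theorem prS_le (S : Finset (Fin n)) {x : L2 n} (hx : 0 ≤ x) : prS S x ≤ x := by
  rw [BT1a_nn] at hx
  rw [BT1a_le]
  filter_upwards [mul_ae (cel S) x, cel_ae S, hx] with a h1 h2 h3
  unfold prS
  rw [h1, h2]
  split_ifs
  · rw [one_mul]
  · rw [zero_mul]; exact h3
theorem one_sub_prS_pp (S : Finset (Fin n)) : Pp (1 - prS S) := by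
  intro x hx
  show 0 ≤ x - prS S x
  exact sub_nonneg.2 (prS_le S hx)
theorem Pp.mono {A : Op n} (h : Pp A) {x y : L2 n} (hxy : x ≤ y) : A x ≤ A y := by
  have := h (y - x) (sub_nonneg.2 hxy)
  rw [map_sub] at this
  exact sub_nonneg.1 this
theorem Pp.mul {A B : Op n} (hA : Pp A) (hB : Pp B) : Pp (A * B) :=
  fun x hx => hA _ (hB x hx)
theorem Pp.add {A B : Op n} (hA : Pp A) (hB : Pp B) : Pp (A + B) :=
  fun x hx => add_nonneg (hA x hx) (hB x hx)
theorem Pp.smul {A : Op n} {a : ℝ} (ha : 0 ≤ a) (hA : Pp A) : Pp (a • A) :=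
  fun x hx => smul_nn ha (hA x hx)
theorem Pp.adj {A : Op n} (hA : Pp A) : Pp (ContinuousLinearMap.adjoint A) := by
  intro x hx
  refine le_of_inner fun z hz => ?_
  rw [inner_zero_right, ContinuousLinearMap.adjoint_inner_right]
  exact inner_nn (hA z hz) hx
theorem Le.mul {A A' B B' : Op n} (h : Le A A') (h' : Le B B') (hA : Pp A') (hB : Pp B) :
    Le (A * B) (A' * B') :=
  fun x hx => (h _ (hB x hx)).trans (hA.mono (h' x hx))
theorem Le.smul {A A' : Op n} {a : ℝ} (ha : 0 ≤ a) (h : Le A A') : Le (a • A) (a • A') :=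
  fun x hx => smul_mono ha (h x hx)
theorem Le.trans {A B C : Op n} (h : Le A B) (h' : Le B C) : Le A C :=
  fun x hx => (h x hx).trans (h' x hx)
theorem opnorm_le_of_Le {A B : Op n} (hA : Pp A) (h : Le A B) : ‖A‖ ≤ ‖B‖ := by
  refine ContinuousLinearMap.opNorm_le_bound _ (norm_nonneg _) fun x => ?_
  have h1 : A x ≤ A |x| := hA.mono (le_abs_self x)
  have h2 : -(A x) ≤ A |x| := by
    rw [← map_neg]
    exact hA.mono (neg_le_abs x)
  have h3 : |A x| ≤ B |x| := (abs_le'.2 ⟨h1, h2⟩).trans (h _ (abs_nonneg x))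
  calc ‖A x‖ = ‖|A x|‖ := (norm_abs_eq_norm _).symm
    _ ≤ ‖B |x|‖ := norm_mono (abs_nonneg _) h3
    _ ≤ ‖B‖ * ‖|x|‖ := B.le_opNorm _
    _ = ‖B‖ * ‖x‖ := by rw [norm_abs_eq_norm]
theorem on_ct (c : Fin n) (t : ℝ) (x : L2 n) : On {c} (ct c t x) := by
  unfold On ct
  filter_upwards [mul_ae (ind c t) x, ind_ae c t] with a h1 h2 h3
  rw [h1, h2, if_neg (fun h => h3 h.1), zero_mul]
theorem on_prS (S : Finset (Fin n)) (x : L2 n) : On (S : Set (Fin n)) (prS S x) := by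
  unfold On prS
  filter_upwards [mul_ae (cel S) x, cel_ae S] with a h1 h2 h3
  rw [h1, h2, if_neg (fun h => h3 h.1), zero_mul]
theorem On.mono {A A' : Set (Fin n)} {x : L2 n} (h : On A x) (hA : A ⊆ A') : On A' x := by
  unfold On at *
  filter_upwards [h] with a h1 h2
  exact h1 fun h3 => h2 (hA h3)
theorem one_nn (c : Fin n) : 0 ≤ one c := by
  rw [BT1a_nn]
  filter_upwards [one_ae c] with a h
  rw [h]; split_ifs <;> norm_num
theorem ct_one (c : Fin n) {t : ℝ} (ht : 1 ≤ t) : ct c t (one c) = one c := by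
  refine Lp.ext ?_
  filter_upwards [mul_ae (ind c t) (one c), ind_ae c t, one_ae c] with a h1 h2 h3
  unfold ct
  rw [h1, h2, h3]
  by_cases e : a.1 = c ∧ ‖a.2‖ < 1
  · rw [if_pos e, if_pos ⟨e.1, e.2.trans_le ht⟩, one_mul]
  · rw [if_neg e, mul_zero]

namespace Fm
variable {φ : Fm n} {C : Finset (Fin n)}
theorem E_apply (φ : Fm n) (x : L2 n) : φ.E x = ∑ ω, ⟪φ.e ω, x⟫_ℝ • φ.e ω := by
  unfold Fm.E
  rw [sum_apply]
  rfl
theorem E_sy (φ : Fm n) : Sy φ.E := by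
  intro x y
  rw [E_apply, E_apply, sum_inner, inner_sum]
  refine Finset.sum_congr rfl fun ω _ => ?_
  rw [real_inner_smul_left, real_inner_smul_right, real_inner_comm (φ.e ω) x, mul_comm]
theorem E_e (h : φ.Ok C) (ω : Fin φ.N) : φ.E (φ.e ω) = φ.e ω := by
  rw [E_apply]
  have := orthonormal_iff_ite.1 h.on
  simp only [this, ite_smul, one_smul, zero_smul]
  rw [Finset.sum_ite_eq']
  simp
theorem E_E (h : φ.Ok C) : φ.E * φ.E = φ.E := by
  ext x : 1
  rw [mul_apply_eq_comp]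
  conv_lhs => rw [E_apply φ x, map_sum]
  simp only [map_smul, E_e h]
  rw [E_apply]
theorem E_pp (h : φ.Ok C) : Pp φ.E := by
  intro x hx
  rw [E_apply]
  exact Finset.sum_nonneg fun ω _ => smul_nn (inner_nn (h.nn ω) hx) (h.nn ω)
theorem norm_E_le (h : φ.Ok C) (x : L2 n) : ‖φ.E x‖ ≤ ‖x‖ :=
  BT1_norm (E_sy φ) (E_E h) x
theorem pr_e (h : φ.Ok C) (c : Fin n) (ω : Fin φ.N) :
    pr c (φ.e ω) = if φ.c ω = c then φ.e ω else 0 := by
  split_ifs with e
  · rw [← e]; exact h.cl ω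
  · rw [← h.cl ω, ← mul_apply_eq_comp, pr_pr, if_neg (fun e' => e e'.symm)]
    rfl
theorem E_pr (h : φ.Ok C) (c : Fin n) : φ.E * pr c = pr c * φ.E := by
  ext x : 1
  rw [mul_apply_eq_comp, mul_apply_eq_comp, E_apply, E_apply, map_sum]
  refine Finset.sum_congr rfl fun ω _ => ?_
  have hs : Sy (pr c) := mul_sy _
  rw [map_smul, ← hs, pr_e h]
  split_ifs
  · rfl
  · rw [inner_zero_left, zero_smul, smul_zero]
theorem E_prS (h : φ.Ok C) (U : Finset (Fin n)) : φ.E * prS U = prS U * φ.E := by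
  rw [prS_eq_sum, Finset.mul_sum, Finset.sum_mul]
  exact Finset.sum_congr rfl fun c _ => E_pr h c
theorem prS_E (h : φ.Ok C) {U : Finset (Fin n)} (hU : C ⊆ U) : prS U * φ.E = φ.E := by
  ext x : 1
  rw [mul_apply_eq_comp, E_apply, map_sum]
  refine Finset.sum_congr rfl fun ω _ => ?_
  rw [map_smul]
  congr 1
  rw [← h.cl ω, ← mul_apply_eq_comp, prS_pr, if_pos (hU (h.mem ω))]
end Fm

end Pool.Agent.MP_4f0ed6_gt.U

end

section

set_option autoImplicit false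
set_option linter.dupNamespace false

open MeasureTheory Set Metric
open scoped InnerProductSpace ENNReal

namespace Pool.Agent.MP_4f0ed6_gt.U

namespace Pb

variable {n m : ℕ} {H : Type} [NormedAddCommGroup H] [InnerProductSpace ℝ H]
  {P : Pb n m H} {W W' : LI n}

theorem q_apply (P : Pb n m H) (W : LI n) (u v : H) :
    P.q W u v = P.Qb u v + ⟪mul W (P.R u), P.R v⟫_ℝ := rfl
theorem q_add (P : Pb n m H) (W W' : LI n) (u v : H) :
    P.q (W + W') u v = P.q W u v + ⟪mul W' (P.R u), P.R v⟫_ℝ := by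
  rw [q_apply, q_apply, map_add, _root_.add_apply, inner_add_left, add_assoc]
theorem q_symm (hs : ∀ u v, P.Qb u v = P.Qb v u) (W : LI n) (u v : H) :
    P.q W u v = P.q W v u := by
  rw [q_apply, q_apply, hs u v, mul_sy W, real_inner_comm]
theorem Co.mono (h : P.Co W) (hW : W ≤ W') : P.Co W' := by
  obtain ⟨C, hC, h⟩ := h
  refine ⟨C, hC, fun u => (h u).trans ?_⟩
  rw [q_apply, q_apply]
  exact add_le_add le_rfl (inner_mul_self_le hW _)
theorem Co.nn (h : P.Co W) (u : H) : 0 ≤ P.q W u u := by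
  obtain ⟨C, hC, h⟩ := h
  exact le_trans (by positivity) (h u)
theorem Co.eq_zero (h : P.Co W) {u : H} (hu : P.q W u u ≤ 0) : u = 0 := by
  obtain ⟨C, hC, h⟩ := h
  by_contra h0
  have h1 : 0 < ‖u‖ := norm_pos_iff.2 h0
  have h2 : 0 < C * ‖u‖ * ‖u‖ := by positivity
  linarith [h u]
theorem Co.of_half (h : P.Co W) {a : ℝ} (ha : 0 < a) (h' : ∀ u, a * P.q W u u ≤ P.q W' u u) :
    P.Co W' := by
  obtain ⟨C, hC, h⟩ := h
  refine ⟨a * C, mul_pos ha hC, fun u => le_trans ?_ (h' u)⟩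
  rw [mul_assoc a, mul_assoc a]
  exact mul_le_mul_of_nonneg_left (h u) ha.le

variable [CompleteSpace H]

theorem G_apply (P : Pb n m H) (W : LI n) (x : L2 n) : P.G W x = P.R (P.sol W x) := rfl
theorem Co.sol_spec (h : P.Co W) (x : L2 n) (v : H) :
    P.q W (P.sol W x) v = ⟪x, P.R v⟫_ℝ := by
  have h' : IsCoercive (P.q W) := h
  rw [← h'.continuousLinearEquivOfBilin_apply, ← ContinuousLinearMap.adjoint_inner_left]
  congr 1
  unfold sol
  rw [dif_pos h']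
  simp
theorem Co.sol_unique (h : P.Co W) {x : L2 n} {a : H} (ha : ∀ v, P.q W a v = ⟪x, P.R v⟫_ℝ) :
    P.sol W x = a := by
  rw [← sub_eq_zero]
  refine h.eq_zero (le_of_eq ?_)
  rw [map_sub (P.q W), _root_.sub_apply, h.sol_spec, ha, sub_self]
theorem Co.G_sy (hs : ∀ u v, P.Qb u v = P.Qb v u) (h : P.Co W) : Sy (P.G W) := by
  intro x y
  rw [real_inner_comm, G_apply, G_apply, ← h.sol_spec, ← h.sol_spec, q_symm hs]
theorem Co.G_energy (h : P.Co W) (x : L2 n) :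
    ⟪P.G W x, x⟫_ℝ = P.q W (P.sol W x) (P.sol W x) := by
  rw [h.sol_spec, real_inner_comm, G_apply]
theorem Co.G_psd (h : P.Co W) (x : L2 n) : 0 ≤ ⟪P.G W x, x⟫_ℝ := by
  rw [h.G_energy]
  exact h.nn _
/-- resolvent identity -/
theorem Co.res (h : P.Co W) (h' : P.Co W') :
    P.G W = P.G W' + P.G W * mul (W' - W) * P.G W' := by
  ext1 x
  have e : P.sol W (x - mul (W' - W) (P.G W' x)) = P.sol W' x := by
    refine h.sol_unique fun v => ?_
    have h1 := q_add P W (W' - W) (P.sol W' x) v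
    rw [add_sub_cancel, h'.sol_spec] at h1
    rw [inner_sub_left, h1, G_apply]
    ring
  have e2 : P.G W (x - mul (W' - W) (P.G W' x)) = P.G W' x := congrArg P.R e
  rw [map_sub] at e2
  exact sub_eq_iff_eq_add.1 e2
theorem Co.res' (h : P.Co W) (h' : P.Co W') :
    P.G W = P.G W' + P.G W' * mul (W' - W) * P.G W := by
  have e := h'.res h
  rw [← neg_sub W' W, map_neg, mul_neg, neg_mul] at e
  exact (eq_add_neg_iff_add_eq.1 e).symm
theorem Co.res_inner (hs : ∀ u v, P.Qb u v = P.Qb v u) (h : P.Co W) (h' : P.Co W') (x y : L2 n) :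
    ⟪x, P.G W y⟫_ℝ - ⟪x, P.G W' y⟫_ℝ = ⟪mul (W' - W) (P.G W x), P.G W' y⟫_ℝ := by
  have e : P.G W y = P.G W' y + P.G W (mul (W' - W) (P.G W' y)) :=
    congrArg (fun A : Op n => A y) (h.res h')
  rw [mul_sy, h.G_sy hs, e, inner_add_right]
  ring
/-- variational inequality -/
theorem Co.var (hs : ∀ u v, P.Qb u v = P.Qb v u) (h : P.Co W) (x : L2 n) (u : H) :
    2 * ⟪x, P.R u⟫_ℝ - P.q W u u ≤ ⟪P.G W x, x⟫_ℝ := by
  have h0 := h.nn (P.sol W x - u)
  rw [map_sub (P.q W), _root_.sub_apply, map_sub, map_sub, q_symm hs W u (P.sol W x),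
    h.sol_spec x u] at h0
  rw [h.G_energy]
  linarith
theorem Co.G_mono (hp : ∀ W, P.Co W → Pp (P.G W)) (h : P.Co W) (hW : W ≤ W') :
    Le (P.G W') (P.G W) := by
  intro x hx
  have h' := h.mono hW
  have e : P.G W x = P.G W' x + P.G W (mul (W' - W) (P.G W' x)) :=
    congrArg (fun A : Op n => A x) (h.res h')
  rw [e]
  exact le_add_of_nonneg_right (hp W h _ (mul_pp (sub_nonneg.2 hW) _ (hp W' h' x hx)))
theorem Co.q_lower (hs : ∀ u v, P.Qb u v = P.Qb v u) (h : P.Co W) {N : ℝ} (hN : ‖P.G W‖ ≤ N)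
    (u : H) : ‖P.R u‖ ^ 2 ≤ N * P.q W u u := by
  have hN0 : 0 ≤ N := (norm_nonneg _).trans hN
  have key : ∀ s : ℝ, 0 ≤ N * ‖P.R u‖ ^ 2 * (s * s) + -(2 * ‖P.R u‖ ^ 2) * s + P.q W u u := by
    intro s
    have h1 := h.var hs (s • P.R u) u
    have h2 : ⟪P.G W (s • P.R u), s • P.R u⟫_ℝ ≤ N * ‖s • P.R u‖ * ‖s • P.R u‖ :=
      (real_inner_le_norm _ _).trans
        (mul_le_mul_of_nonneg_right ((P.G W).le_of_opNorm_le hN _) (norm_nonneg _))
    have h3 : N * ‖s • P.R u‖ * ‖s • P.R u‖ = N * ‖P.R u‖ ^ 2 * (s * s) := by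
      rw [norm_smul, Real.norm_eq_abs, ← abs_mul_abs_self s]
      ring
    rw [real_inner_smul_left, real_inner_self_eq_norm_sq] at h1
    linarith
  have hd := discrim_le_zero key
  unfold discrim at hd
  rcases (sq_nonneg ‖P.R u‖).eq_or_lt with h0 | h0
  · rw [← h0]
    exact mul_nonneg hN0 (h.nn u)
  · refine le_of_mul_le_mul_left ?_ h0
    nlinarith
theorem FA_cut (h : P.Co W) {t : ℝ} (ht : 0 < t) (U : Finset (Fin n)) {x : L2 n}
    (hx : prS U x = x) :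
    ⟪P.G (W + t • cel U) x, x⟫_ℝ = P.q W (P.sol (W + t • cel U) x) (P.sol (W + t • cel U) x) +
      t * ‖prS U (P.G (W + t • cel U) x)‖ ^ 2 ∧
    ⟪P.G (W + t • cel U) x, x⟫_ℝ ≤ ‖prS U (P.G (W + t • cel U) x)‖ * ‖x‖ := by
  have h' : P.Co (W + t • cel U) := h.mono (le_add_of_nonneg_right (smul_nn' ht.le (cel_nn U)))
  constructor
  · rw [h'.G_energy, q_add, map_smul, _root_.smul_apply, real_inner_smul_left,
      ← inner_prS_self]
    rfl
  · have e : ⟪prS U (P.G (W + t • cel U) x), x⟫_ℝ = ⟪P.G (W + t • cel U) x, prS U x⟫_ℝ :=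
      mul_sy (cel U) _ _
    rw [hx] at e
    rw [← e]
    exact real_inner_le_norm _ _
theorem Co.cut_le (h : P.Co W) {t : ℝ} (ht : 0 < t) (U : Finset (Fin n)) {x : L2 n}
    (hx : prS U x = x) : t * ‖prS U (P.G (W + t • cel U) x)‖ ≤ ‖x‖ := by
  obtain ⟨h1, h2⟩ := FA_cut h ht U hx
  have h3 := h.nn (P.sol (W + t • cel U) x)
  rcases (norm_nonneg (prS U (P.G (W + t • cel U) x))).eq_or_lt with h0 | h0
  · rw [← h0, mul_zero]
    exact norm_nonneg _
  · refine le_of_mul_le_mul_left ?_ h0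
    nlinarith
theorem Co.cut_lt (h : P.Co W) {t : ℝ} (ht : 0 < t) (U : Finset (Fin n)) :
    ∃ θ : ℝ, θ < 1 ∧ ∀ x, prS U x = x →
      t * ⟪P.G (W + t • cel U) x, x⟫_ℝ ≤ θ * ‖x‖ ^ 2 := by
  obtain ⟨C, hC, hc⟩ := id h
  have hR : 0 < ‖P.R‖ ^ 2 + 1 := by positivity
  obtain ⟨ε, hε, hεC⟩ : ∃ ε : ℝ, 0 < ε ∧ ε * ‖P.R‖ ^ 2 ≤ C := by
    refine ⟨C / (‖P.R‖ ^ 2 + 1), by positivity, ?_⟩
    rw [div_mul_eq_mul_div, div_le_iff₀ hR]
    nlinarith
  have htε : 0 < t + ε := by positivity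
  refine ⟨t / (t + ε), (div_lt_one htε).2 (by linarith), fun x hx => ?_⟩
  obtain ⟨h1, h2⟩ := FA_cut h ht U hx
  have h3 := hc (P.sol (W + t • cel U) x)
  have h4 : ‖prS U (P.G (W + t • cel U) x)‖ ≤ ‖P.R‖ * ‖P.sol (W + t • cel U) x‖ :=
    (norm_prS_le U _).trans (P.R.le_opNorm _)
  have h6 := norm_nonneg (prS U (P.G (W + t • cel U) x))
  generalize ‖prS U (P.G (W + t • cel U) x)‖ = b at h1 h2 h4 h6
  generalize ‖P.sol (W + t • cel U) x‖ = a at h3 h4
  have h5 : b ^ 2 ≤ (‖P.R‖ * a) ^ 2 := pow_le_pow_left₀ h6 h4 2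
  have h7 : ε * b ^ 2 ≤ C * a * a := by
    calc ε * b ^ 2 ≤ ε * (‖P.R‖ * a) ^ 2 := mul_le_mul_of_nonneg_left h5 hε.le
      _ = ε * ‖P.R‖ ^ 2 * (a * a) := by ring
      _ ≤ C * (a * a) := mul_le_mul_of_nonneg_right hεC (mul_self_nonneg a)
      _ = C * a * a := by ring
  have h8 : (t + ε) * b ≤ ‖x‖ := by
    rcases h6.eq_or_lt with h0 | h0
    · rw [← h0, mul_zero]
      exact norm_nonneg _
    · refine le_of_mul_le_mul_left ?_ h0
      nlinarith
  have h9 : b ≤ ‖x‖ / (t + ε) := by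
    rw [le_div_iff₀ htε]
    linarith
  calc t * ⟪P.G (W + t • cel U) x, x⟫_ℝ ≤ t * (‖x‖ / (t + ε) * ‖x‖) :=
        mul_le_mul_of_nonneg_left (h2.trans (mul_le_mul_of_nonneg_right h9 (norm_nonneg _))) ht.le
    _ = t / (t + ε) * ‖x‖ ^ 2 := by ring
theorem Co.G_pos (h : P.Co W) {x : L2 n} (hx : ∃ u, ⟪x, P.R u⟫_ℝ ≠ 0) :
    0 < ⟪P.G W x, x⟫_ℝ := by
  obtain ⟨u, hu⟩ := hx
  by_contra h0
  rw [h.G_energy, not_lt] at h0
  apply hu
  rw [← h.sol_spec, h.eq_zero h0, map_zero, _root_.zero_apply]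
/-- the supersolution made from `one c` absorbs the lowered potential -/
theorem Co.absorb (hp : ∀ W, P.Co W → Pp (P.G W)) (h : P.Co W) (hW : W ≤ W') {x : L2 n}
    (hx : 0 ≤ x) : P.G W' (mul (W' - W) (P.G W x)) ≤ P.G W x := by
  have h' := h.mono hW
  have e : P.G W x = P.G W' x + P.G W' (mul (W' - W) (P.G W x)) :=
    congrArg (fun A : Op n => A x) (h.res' h')
  exact (le_add_of_nonneg_left (hp W' h' x hx)).trans e.ge

end Pb

end Pool.Agent.MP_4f0ed6_gt.U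

end

section

set_option autoImplicit false
set_option linter.dupNamespace false

open MeasureTheory Set Metric Filter Topology
open scoped InnerProductSpace ENNReal

namespace Pool.Agent.MP_4f0ed6_gt.U

section S
variable {α M M' : Type} [Fintype α] [AddCommMonoid M] [AddCommMonoid M']

theorem sumS_congr (k : ℕ) {f g : List α → M} (h : ∀ l, l.length = k → f l = g l) :
    sumS k f = sumS k g := by
  induction k generalizing f g with
  | zero => exact h [] rfl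
  | succ k ih =>
    exact Finset.sum_congr rfl fun x _ => ih fun l hl => h _ (congrArg Nat.succ hl)
theorem sumS_add (k : ℕ) (f g : List α → M) :
    sumS k (fun l => f l + g l) = sumS k f + sumS k g := by
  induction k generalizing f g with
  | zero => rfl
  | succ k ih =>
    exact (Finset.sum_congr rfl fun x _ => ih _ _).trans Finset.sum_add_distrib
theorem sumS_zero (k : ℕ) : sumS k (fun _ : List α => (0 : M)) = 0 := by
  induction k with
  | zero => rfl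
  | succ k ih => exact Finset.sum_eq_zero fun x _ => ih
theorem sumS_map (k : ℕ) (φ : M →+ M') (f : List α → M) :
    φ (sumS k f) = sumS k fun l => φ (f l) := by
  induction k generalizing f with
  | zero => rfl
  | succ k ih => exact (map_sum φ _ _).trans (Finset.sum_congr rfl fun x _ => ih _)
theorem sumS_sum {ι : Type} (s : Finset ι) (k : ℕ) (f : ι → List α → M) :
    sumS k (fun l => ∑ i ∈ s, f i l) = ∑ i ∈ s, sumS k (f i) := by
  induction k generalizing f with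
  | zero => rfl
  | succ k ih =>
    exact (Finset.sum_congr rfl fun x _ => ih fun i l => f i (x :: l)).trans Finset.sum_comm
theorem sumS_mul (k : ℕ) (a : ℝ) (f : List α → ℝ) :
    sumS k (fun l => a * f l) = a * sumS k f :=
  (sumS_map k (AddMonoidHom.mulLeft a) f).symm
theorem sumS_le (k : ℕ) {f g : List α → ℝ} (h : ∀ l, l.length = k → f l ≤ g l) :
    sumS k f ≤ sumS k g := by
  induction k generalizing f g with
  | zero => exact h [] rfl
  | succ k ih =>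
    exact Finset.sum_le_sum fun x _ => ih fun l hl => h _ (congrArg Nat.succ hl)
theorem sumS_nn (k : ℕ) {f : List α → ℝ} (h : ∀ l, l.length = k → 0 ≤ f l) :
    0 ≤ sumS k f :=
  (sumS_zero k).symm.trans_le (sumS_le k h)
theorem sumS_tendsto {ι : Type} {F : Filter ι} (k : ℕ) {f : ι → List α → ℝ} {g : List α → ℝ}
    (h : ∀ l, l.length = k → Tendsto (fun i => f i l) F (𝓝 (g l))) :
    Tendsto (fun i => sumS k (f i)) F (𝓝 (sumS k g)) := by
  induction k generalizing f g with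
  | zero => exact h [] rfl
  | succ k ih =>
    exact tendsto_finsetSum _ fun x _ => ih (f := fun i l => f i (x :: l))
      fun l hl => h _ (congrArg Nat.succ hl)
end S

theorem pat_length (j : ℕ) : (pat j).length = 3 * j + 2 := by
  induction j with
  | zero => rfl
  | succ j ih =>
    simp only [pat, pt, List.length_cons] at ih ⊢
    omega
theorem pat_count (j : ℕ) : (pat j).count true = j + 1 := by
  induction j with
  | zero => rfl
  | succ j ih => simpa [pat, pt] using ih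

section G
variable {N : Type} {adj : N → N → Prop} {Δ : ℕ}
theorem near_one {a b : N} : near adj 1 a b ↔ adj a b :=
  ⟨fun ⟨_, (h : a = _), h'⟩ => h ▸ h', fun h => ⟨a, rfl, h⟩⟩
theorem near_add {i j : ℕ} {a b c : N} (h : near adj i a b) (h' : near adj j b c) :
    near adj (i + j) a c := by
  induction j generalizing c with
  | zero => exact (show b = c from h') ▸ h
  | succ j ih =>
    obtain ⟨x, h1, h2⟩ := h'
    exact ⟨x, ih h1, h2⟩
theorem near_split {i j : ℕ} {a c : N} (h : near adj (i + j) a c) :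
    ∃ b, near adj i a b ∧ near adj j b c := by
  induction j generalizing c with
  | zero => exact ⟨c, h, rfl⟩
  | succ j ih =>
    obtain ⟨x, h1, h2⟩ := h
    obtain ⟨b, h3, h4⟩ := ih h1
    exact ⟨b, h3, x, h4, h2⟩
theorem Gr.near_refl (g : Gr adj Δ) (j : ℕ) (a : N) : near adj j a a := by
  induction j with
  | zero => rfl
  | succ j ih => exact ⟨a, ih, g.refl a⟩
theorem Gr.near_mono (g : Gr adj Δ) {i j : ℕ} (hij : i ≤ j) {a b : N} (h : near adj i a b) :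
    near adj j a b := by
  obtain ⟨d, rfl⟩ := Nat.exists_eq_add_of_le hij
  exact near_add h (g.near_refl d b)
theorem Gr.near_symm (g : Gr adj Δ) {j : ℕ} {a b : N} (h : near adj j a b) :
    near adj j b a := by
  induction j generalizing b with
  | zero => exact (show a = b from h).symm
  | succ j ih =>
    obtain ⟨x, h1, h2⟩ := h
    rw [add_comm]
    exact near_add (near_one.2 (g.symm _ _ h2)) (ih h1)
theorem Gr.ncard_near [Finite N] (g : Gr adj Δ) (j : ℕ) (a : N) :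
    {b | near adj j a b}.ncard ≤ Δ ^ j := by
  induction j with
  | zero =>
    have e : {b | near adj 0 a b} = {a} := Set.ext fun b => eq_comm
    rw [e, ncard_singleton, pow_zero]
  | succ j ih =>
    have hf := toFinite {b | near adj j a b}
    have e : {b | near adj (j + 1) a b} = ⋃ x ∈ hf.toFinset, {b | adj x b} := by
      ext b
      simp only [mem_iUnion, Finite.mem_toFinset, exists_prop]
      rfl
    rw [e, pow_succ]
    refine (hf.toFinset.set_ncard_biUnion_le _).trans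
      ((Finset.sum_le_card_nsmul _ _ Δ fun x _ => g.deg x).trans ?_)
    rw [← ncard_eq_toFinset_card _ hf]
    exact Nat.mul_le_mul_right _ ih
end G

variable {n m : ℕ} {adj : Nd n m → Nd n m → Prop} {Δ : ℕ}

theorem mem_bl {j : ℕ} {u c : Fin n} : c ∈ bl adj j u ↔ near adj j (.inl u) (.inl c) := by
  simp [bl]
theorem mem_bd {A : Set (Nd n m)} {c : Fin n} : c ∈ bd adj A ↔
    (∃ a, a ∈ A ∧ adj (.inl c) a) ∧ ∃ a, a ∉ A ∧ adj (.inl c) a := by
  simp only [bd, Finset.mem_filter, Finset.mem_univ, true_and]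
theorem Gr.card_bl (g : Gr adj Δ) (j : ℕ) (u : Fin n) : (bl adj j u).card ≤ Δ ^ j := by
  rw [← ncard_coe_finset]
  exact (ncard_le_ncard_of_injOn Sum.inl (fun c hc => mem_bl.1 hc)
    Sum.inl_injective.injOn (toFinite _)).trans (g.ncard_near j (.inl u))
theorem Gr.card_Ub (g : Gr adj Δ) (C : Finset (Fin n)) (r : ℕ) (c : Fin n) :
    (Finset.univ.filter fun u => c ∈ Ub adj C r u).card ≤ Δ ^ r := by
  refine (Finset.card_le_card fun u hu => ?_).trans (g.card_bl r c)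
  have h := (Finset.mem_filter.1 hu).2
  unfold Ub at h
  split_ifs at h
  · exact mem_bl.2 (g.near_symm (mem_bl.1 (Finset.mem_inter.1 h).1))
  · simp at h
/-- the boundary cells of the ball of radius `j + 1` are at distance `j + 1` or `j + 2` -/
theorem Gr.bd_ball (g : Gr adj Δ) {j : ℕ} {u c : Fin n}
    (h : c ∈ bd adj {a | near adj (j + 1) (.inl u) a}) :
    near adj (j + 2) (.inl u) (.inl c) ∧ ¬ near adj j (.inl u) (.inl c) := by
  obtain ⟨⟨a, h1, h2⟩, b, h3, h4⟩ := mem_bd.1 h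
  exact ⟨⟨a, h1, g.symm _ _ h2⟩, fun h5 => h3 ⟨_, h5, h4⟩⟩
theorem Bk.sum_w (β : Bk n) (τ : Bool) (c : Fin n) : ∑ o, β.w τ o c = 1 := by
  rw [Fintype.sum_option]
  cases τ
  · simp [Bk.w]
  · simp only [Bk.w, Bk.q]
    rw [← Finset.sum_filter, Finset.sum_const, nsmul_eq_mul]
    ring
theorem Bk.w_nn (β : Bk n) (hp : 0 ≤ β.p) (hq : ∀ c, 0 ≤ β.q c) (τ : Bool) (o : Option (Fin n))
    (c : Fin n) : 0 ≤ β.w τ o c := by
  cases τ <;> cases o <;> simp only [Bk.w]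
  · exact zero_le_one
  · exact le_rfl
  · exact hq c
  · split_ifs
    · exact hp
    · exact le_rfl
/-- averaging over the random set -/
theorem sum_Zx_mem {M : ℕ} (z : Fin n) (f : Finset (Fin n) → ℝ)
    (hf : ∀ Z, f (insert z Z) = f (Z.erase z)) :
    ((M : ℝ) + 1) * ∑ ξ : Fin n → Fin (M + 1), (if z ∈ Zx ξ then f (Zx ξ) else 0) =
      ∑ ξ : Fin n → Fin (M + 1), f (Zx ξ) := by
  have h1 : ∀ Z, f Z = f (Z.erase z) := fun Z => by
    by_cases h : z ∈ Z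
    · rw [← hf, Finset.insert_eq_of_mem h]
    · rw [Finset.erase_eq_of_notMem h]
  let e := (Equiv.funSplitAt z (Fin (M + 1))).symm
  have h2 : ∀ b η, z ∈ Zx (e (b, η)) ↔ b = 0 := fun b η => by simp [Zx, e]
  have h3 : ∀ b η, f (Zx (e (b, η))) = f (Zx (e (0, η))) := fun b η => by
    rw [h1, h1 (Zx (e (0, η)))]
    refine congrArg f (Finset.ext fun y => ?_)
    by_cases h : y = z
    · simp [h]
    · simp [Zx, e, h]
  rw [← e.sum_comp, ← e.sum_comp, Fintype.sum_prod_type, Fintype.sum_prod_type]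
  simp only [h2, h3]
  rw [Finset.sum_comm]
  simp
theorem sum_card_Zx (n M : ℕ) : ((M : ℝ) + 1) * ∑ ξ : Fin n → Fin (M + 1), ((Zx ξ).card : ℝ) =
    n * (Fintype.card (Fin n → Fin (M + 1)) : ℝ) := by
  have h1 : ∀ ξ : Fin n → Fin (M + 1), ((Zx ξ).card : ℝ) = ∑ z, if z ∈ Zx ξ then 1 else 0 :=
    fun ξ => by simp
  simp only [h1]
  rw [Finset.sum_comm, Finset.mul_sum,
    Finset.sum_congr rfl fun z _ => sum_Zx_mem z (fun _ => 1) fun _ => rfl]
  simp

end Pool.Agent.MP_4f0ed6_gt.U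

end

section

set_option autoImplicit false
set_option linter.dupNamespace false
set_option linter.unusedVariables false

open UpperHalfPlane MeasureTheory Set Metric Filter Topology
open scoped MatrixGroups ContDiff InnerProductSpace ENNReal

namespace Pool.Agent.MP_4f0ed6_gt.U

variable {n : ℕ}

theorem B3_emb (c : Fin n) : MeasurableEmbedding (Prod.mk c : ℂ → Fin n × ℂ) :=
  measurableEmbedding_prodMk_left c

theorem B3_nu : nu n = Measure.sum fun c : Fin n => Measure.map (Prod.mk c) mu := by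
  unfold nu Measure.count
  rw [Measure.prod_sum_left]
  congr 1
  funext c
  exact Measure.dirac_prod c

theorem B3_nu' : nu n = ∑ c : Fin n, Measure.map (Prod.mk c) mu := by
  rw [B3_nu, Measure.sum_fintype]

theorem B3_le (c : Fin n) : Measure.map (Prod.mk c) mu ≤ nu n := by
  rw [B3_nu]
  exact Measure.le_sum (fun c : Fin n => Measure.map (Prod.mk c) mu) c

theorem ae_slice {p : Fin n × ℂ → Prop} (h : ∀ᵐ y ∂nu n, p y) (c : Fin n) :
    ∀ᵐ y ∂mu, p (c, y) :=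
  (B3_emb c).ae_map_iff.1 (ae_mono (B3_le c) h)
theorem ae_of_slice {p : Fin n × ℂ → Prop} (h : ∀ c, ∀ᵐ y ∂mu, p (c, y)) :
    ∀ᵐ y ∂nu n, p y := by
  rw [B3_nu, Measure.ae_sum_iff]
  exact fun c => (B3_emb c).ae_map_iff.2 (h c)
theorem ae_ball : ∀ᵐ y ∂nu n, ‖y.2‖ < 16 := by
  refine ae_of_slice fun c => ?_
  filter_upwards [ae_restrict_mem (μ := (volume : Measure ℂ))
    (measurableSet_ball (x := (0 : ℂ)) (ε := 16))] with y hy
  exact mem_ball_zero_iff.1 hy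
theorem aesm_of_slice {f : Fin n × ℂ → ℝ}
    (h : ∀ c, AEStronglyMeasurable (fun y => f (c, y)) mu) : AEStronglyMeasurable f (nu n) := by
  rw [B3_nu, aestronglyMeasurable_sum_measure_iff]
  exact fun c => (B3_emb c).aestronglyMeasurable_map_iff.2 (h c)
theorem memLp_of_slice {f : Fin n × ℂ → ℝ} (h : ∀ c, MemLp (fun y => f (c, y)) 2 mu) :
    MemLp f 2 (nu n) := by
  rw [memLp_two_iff_integrable_sq (aesm_of_slice fun c => (h c).1), B3_nu',
    integrable_finsetSum_measure]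
  exact fun c _ => (B3_emb c).integrable_map_iff.2
    ((memLp_two_iff_integrable_sq (h c).1).1 (h c))
theorem memLp_slice (x : L2 n) (c : Fin n) : MemLp (fun y => x (c, y)) 2 mu :=
  (B3_emb c).memLp_map_measure_iff.1 ((Lp.memLp x).mono_measure (B3_le c))
theorem integral_nu {f : Fin n × ℂ → ℝ} (h : Integrable f (nu n)) :
    ∫ y, f y ∂nu n = ∑ c, ∫ y, f (c, y) ∂mu := by
  have h1 : ∀ c ∈ (Finset.univ : Finset (Fin n)), Integrable f (Measure.map (Prod.mk c) mu) :=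
    fun c _ => h.mono_measure (B3_le c)
  rw [B3_nu', integral_finsetSum_measure h1]
  exact Finset.sum_congr rfl fun c _ => (B3_emb c).integral_map f
theorem B3_eLp (f : Fin n × ℂ → ℝ) (c : Fin n) :
    eLpNorm (fun y => f (c, y)) 2 mu ≤ eLpNorm f 2 (nu n) :=
  le_trans (le_of_eq ((B3_emb c).eLpNorm_map_measure (g := f)).symm)
    (eLpNorm_mono_measure f (B3_le c))
theorem eLpNorm_slice_le {f : Fin n × ℂ → ℝ} (h : AEStronglyMeasurable f (nu n)) (c : Fin n) :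
    eLpNorm (fun y => f (c, y)) 2 mu ≤ eLpNorm f 2 (nu n) := B3_eLp f c
theorem inner_eq_sum (x y : L2 n) : ⟪x, y⟫_ℝ = ∑ c, ∫ z, x (c, z) * y (c, z) ∂mu := by
  rw [BT1a_inner, integral_nu (BT1a_int x y)]
theorem norm_sq_eq_sum (x : L2 n) : ‖x‖ ^ 2 = ∑ c, ∫ z, x (c, z) ^ 2 ∂mu := by
  rw [← real_inner_self_eq_norm_sq, inner_eq_sum]
  simp only [sq]
theorem inner_mul_eq_sum (W : LI n) (x y : L2 n) :
    ⟪mul W x, y⟫_ℝ = ∑ c, ∫ z, W (c, z) * (x (c, z) * y (c, z)) ∂mu := by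
  rw [inner_eq_sum]
  refine Finset.sum_congr rfl fun c _ => integral_congr_ae ?_
  filter_upwards [ae_slice (mul_ae W x) c] with z hz
  rw [hz, mul_assoc]
theorem inner_mul_le_sum {W : LI n} {K : ℝ} (hW : Bd W K) {x y : L2 n} (hx : 0 ≤ x)
    (hy : 0 ≤ y) : ⟪mul W x, y⟫_ℝ ≤ K * ⟪x, y⟫_ℝ := by
  rw [BT1a_inner, BT1a_inner, ← integral_const_mul]
  rw [BT1a_nn] at hx hy
  refine integral_mono_ae (BT1a_int _ _) ((BT1a_int _ _).const_mul K) ?_
  filter_upwards [mul_ae W x, hW, hx, hy] with a h1 h2 h3 h4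
  rw [h1, mul_assoc]
  exact mul_le_mul_of_nonneg_right h2 (mul_nonneg h3 h4)
theorem B3_cut (c : Fin n) {t : ℝ} (ht : t ≤ 16) (w f : Fin n × ℂ → ℝ)
    (hw : ∀ᵐ y ∂nu n, w y = if y.1 = c ∧ ‖y.2‖ < t then 1 else 0) :
    ∑ c', ∫ z, w (c', z) * f (c', z) ∂mu = ∫ z in ball (0 : ℂ) t, f (c, z) := by
  rw [Finset.sum_eq_single c]
  · rw [← mu_restrict measurableSet_ball (ball_subset_ball ht),
      ← integral_indicator measurableSet_ball]
    refine integral_congr_ae ?_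
    filter_upwards [ae_slice hw c] with z hz
    rw [hz]
    by_cases h : ‖z‖ < t
    · rw [if_pos ⟨rfl, h⟩, one_mul, indicator_of_mem (mem_ball_zero_iff.2 h)]
    · rw [if_neg fun h' => h h'.2, zero_mul,
        indicator_of_notMem fun h' => h (mem_ball_zero_iff.1 h')]
  · intro c' _ hc
    refine integral_eq_zero_of_ae ?_
    filter_upwards [ae_slice hw c'] with z hz
    rw [hz, if_neg fun h' => hc h'.1, zero_mul]
    rfl
  · exact fun h => absurd (Finset.mem_univ c) h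
theorem inner_ct_eq (c : Fin n) {t : ℝ} (ht : t ≤ 16) (x y : L2 n) :
    ⟪ct c t x, y⟫_ℝ = ∫ z in ball (0 : ℂ) t, x (c, z) * y (c, z) := by
  unfold ct
  rw [inner_mul_eq_sum]
  exact B3_cut c ht (ind c t) (fun a => x a * y a) (ind_ae c t)
theorem norm_ct_eq (c : Fin n) {t : ℝ} (ht : t ≤ 16) (x : L2 n) :
    ‖ct c t x‖ = √(∫ z in ball (0 : ℂ) t, x (c, z) ^ 2) := by
  have h := inner_ct_self c t x
  rw [inner_ct_eq c ht] at h
  simp only [sq]
  rw [h, Real.sqrt_sq (norm_nonneg _)]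
theorem inner_one_eq (c : Fin n) (x : L2 n) :
    ⟪one c, x⟫_ℝ = ∫ z in ball (0 : ℂ) 1, x (c, z) := by
  rw [inner_eq_sum]
  exact B3_cut c (by norm_num) (one c) x (one_ae c)
theorem exists_bd (W : LI n) : ∃ K : ℝ, 0 ≤ K ∧ Bd W K := by
  refine ⟨(eLpNormEssSup W (nu n)).toReal, ENNReal.toReal_nonneg, ?_⟩
  have h : eLpNormEssSup W (nu n) ≠ ⊤ := by
    rw [← eLpNorm_exponent_top]
    exact Lp.eLpNorm_ne_top W
  unfold Bd
  filter_upwards [ae_le_eLpNormEssSup (f := W) (μ := nu n)] with y hy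
  have h2 := ENNReal.toReal_mono h hy
  rw [toReal_enorm] at h2
  exact (le_abs_self _).trans h2
theorem tendsto_slice {x : ℕ → L2 n} {a : L2 n} (h : Tendsto x atTop (𝓝 a)) (c : Fin n)
    {f : ℕ → ℂ → ℝ} (hf : ∀ k, ∀ᵐ y ∂mu, x k (c, y) = f k y) :
    Tendsto (fun k => eLpNorm (f k - fun y => a (c, y)) 2 mu) atTop (𝓝 0) := by
  rw [Lp.tendsto_Lp_iff_tendsto_eLpNorm'] at h
  refine tendsto_of_tendsto_of_tendsto_of_le_of_le tendsto_const_nhds h (fun _ => zero_le)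
    fun k => le_trans (le_of_eq (eLpNorm_congr_ae ?_)) (B3_eLp (⇑(x k) - ⇑a) c)
  filter_upwards [hf k] with y hy
  rw [Pi.sub_apply, Pi.sub_apply, hy]
theorem B3_ip {μ : Measure ℂ} {f g : ℂ → ℝ} (hf : MemLp f 2 μ) (hg : MemLp g 2 μ) :
    ⟪hf.toLp f, hg.toLp g⟫_ℝ = ∫ y, f y * g y ∂μ := by
  rw [L2.inner_def]
  refine integral_congr_ae ?_
  filter_upwards [hf.coeFn_toLp, hg.coeFn_toLp] with y h1 h2
  rw [h1, h2]
  simp [mul_comm]
/-- products of slices converge -/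
theorem tendsto_int_mul {A : Set ℂ} (hA : MeasurableSet A) (hA' : A ⊆ ball 0 16)
    {f g : ℕ → ℂ → ℝ} {f' g' : ℂ → ℝ} (hf : ∀ k, MemLp (f k) 2 mu) (hg : ∀ k, MemLp (g k) 2 mu)
    (hf' : MemLp f' 2 mu) (hg' : MemLp g' 2 mu)
    (h1 : Tendsto (fun k => eLpNorm (f k - f') 2 mu) atTop (𝓝 0))
    (h2 : Tendsto (fun k => eLpNorm (g k - g') 2 mu) atTop (𝓝 0)) :
    Tendsto (fun k => ∫ y in A, f k y * g k y) atTop (𝓝 (∫ y in A, f' y * g' y)) := by
  rw [← mu_restrict hA hA']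
  have t1 := (Lp.tendsto_Lp_iff_tendsto_eLpNorm'' f (fun k => (hf k).restrict A) f'
    (hf'.restrict A)).2 (tendsto_of_tendsto_of_tendsto_of_le_of_le tendsto_const_nhds h1
      (fun _ => zero_le) fun k => eLpNorm_mono_measure _ Measure.restrict_le_self)
  have t2 := (Lp.tendsto_Lp_iff_tendsto_eLpNorm'' g (fun k => (hg k).restrict A) g'
    (hg'.restrict A)).2 (tendsto_of_tendsto_of_tendsto_of_le_of_le tendsto_const_nhds h2
      (fun _ => zero_le) fun k => eLpNorm_mono_measure _ Measure.restrict_le_self)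
  have t3 := t1.inner (𝕜 := ℝ) t2
  simpa only [B3_ip] using t3

end Pool.Agent.MP_4f0ed6_gt.U

end
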