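import Pool.Agent.MP_4f0ed6_gt.U.Defs
import Pool.Agent.Mg.F4f0ed6a.G84f80a

section

set_option autoImplicit false
set_option linter.dupNamespace false

open UpperHalfPlane MeasureTheory Set Metric
open scoped MatrixGroups ContDiff InnerProductSpace

namespace Pool.Agent.MP_4f0ed6_gt.U

noncomputable section

/-- a group, a fundamental domain and a potential -/
structure Sf where
  Γ : Subgroup SL(2, ℝ)
  F : Set ℍ
  V : ℍ → ℝ

/-- smooth invariant functions -/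
def SI (Γ : Subgroup SL(2, ℝ)) : Submodule ℝ (ℍ → ℝ) where
  carrier := {u | Sm u ∧ Inv Γ u}
  add_mem' := fun {u v} hu hv => ⟨ContDiffOn.add hu.1 hv.1, fun γ hγ z => by
    simp only [Pi.add_apply, hu.2 γ hγ z, hv.2 γ hγ z]⟩
  zero_mem' := ⟨contDiffOn_const, fun _ _ _ => rfl⟩
  smul_mem' := fun c {u} hu => ⟨ContDiffOn.const_smul c hu.1, fun γ hγ z => by
    simp only [Pi.smul_apply, hu.2 γ hγ z]⟩

def Sf.Q (X : Sf) (u v : ℍ → ℝ) : ℝ := ∫ z in X.F, (en u v z - X.V z * (u z * v z))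

def Sf.Psd (X : Sf) (O : Set ℍ) : Prop := ∀ u ∈ SI X.Γ, tsupport u ⊆ O → 0 ≤ X.Q u u

structure Sf.Ok (X : Sf) : Prop where
  cl : Closed X.Γ X.F
  Vm : X.V ∈ SI X.Γ
  Vp : ∀ z, 0 < X.V z
  ray : ∀ u ∈ SI X.Γ, ∫ z in X.F, u z * X.V z = 0 → 0 ≤ X.Q u u

def orb (Γ : Subgroup SL(2, ℝ)) (A : Set ℍ) : Set ℍ := {w | ∃ γ ∈ Γ, γ • w ∈ A}

def Emb (Γ : Subgroup SL(2, ℝ)) (A : Set ℍ) : Prop := ∀ γ ∈ Γ, ∀ w ∈ A, γ • w ∈ A → γ = 1

def InvS (Γ : Subgroup SL(2, ℝ)) (A : Set ℍ) : Prop := ∀ γ ∈ Γ, ∀ w ∈ A, γ • w ∈ A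

/-- periodisation -/
def per (Γ : Subgroup SL(2, ℝ)) (η : ℍ → ℝ) (w : ℍ) : ℝ := ∑ᶠ γ : Γ, η ((γ : SL(2, ℝ)) • w)

/-- the chart with centre `z` and relative scale `s` -/
def ch (z : ℍ) (s : ℝ) (y : ℂ) : ℍ := ofComplex ((z : ℂ) + ((s * z.im : ℝ) : ℂ) * y)

def Dk (z : ℍ) (s t : ℝ) : Set ℍ := {w | ‖(w : ℂ) - (z : ℂ)‖ < t * (s * z.im)}

def push (z : ℍ) (s : ℝ) (η : ℂ → ℝ) (w : ℍ) : ℝ :=
  η (((w : ℂ) - (z : ℂ)) / ((s * z.im : ℝ) : ℂ))

/-- cells and tubes -/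
structure Cov (n m : ℕ) where
  z : Fin n → ℍ
  s : Fin n → ℝ
  tb : Fin m → Set ℍ

namespace Cov

variable {n m : ℕ}

def pt (K : Cov n m) (c : Fin n) (y : ℂ) : ℍ := ch (K.z c) (K.s c) y
def D (K : Cov n m) (c : Fin n) (t : ℝ) : Set ℍ := Dk (K.z c) (K.s c) t

def O (K : Cov n m) (Γ : Subgroup SL(2, ℝ)) : Nd n m → Set ℍ
  | .inl c => orb Γ (K.D c 20)
  | .inr t => K.tb t

def Adj (K : Cov n m) (Γ : Subgroup SL(2, ℝ)) (a b : Nd n m) : Prop :=
  a = b ∨ (K.O Γ a ∩ K.O Γ b).Nonempty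

structure Ok (K : Cov n m) (X : Sf) (Δ : ℕ) : Prop where
  s0 : ∀ c, 0 < K.s c
  s1 : ∀ c, K.s c ≤ 1 / 40
  emb : ∀ c, Emb X.Γ (K.D c 20)
  op : ∀ t, IsOpen (K.tb t)
  inv : ∀ t, InvS X.Γ (K.tb t)
  dj : ∀ t t', t ≠ t' → Disjoint (K.tb t) (K.tb t')
  cov : ∀ w, (∃ c, w ∈ orb X.Γ (K.D c 1)) ∨ ∃ t, w ∈ K.tb t
  psd : ∀ a, X.Psd (K.O X.Γ a)
  deg : ∀ a, {b | K.Adj X.Γ a b}.ncard ≤ Δ
  cmp : ∀ c c', K.Adj X.Γ (.inl c) (.inl c') → K.s c ≤ 2 * K.s c'

end Cov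

/-- the Hilbert space `H` is the completion of the smooth invariant functions -/
structure Rp0 (X : Sf) {H : Type} [NormedAddCommGroup H] [InnerProductSpace ℝ H]
    (j : SI X.Γ →ₗ[ℝ] H) : Prop where
  dense : DenseRange j
  nrm : ∀ u : SI X.Γ, ‖j u‖ ^ 2 = ∫ z in X.F, (en u.1 u.1 z + u.1 z ^ 2)

structure Rp1 (X : Sf) {n m : ℕ} (K : Cov n m) {H : Type} [NormedAddCommGroup H]
    [InnerProductSpace ℝ H] (j : SI X.Γ →ₗ[ℝ] H) (R Rx Ry : H →L[ℝ] L2 n) : Prop where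
  hR : ∀ u : SI X.Γ, ∀ᵐ y ∂nu n, R (j u) y = u.1 (K.pt y.1 y.2)
  hx : ∀ u : SI X.Γ, ∀ᵐ y ∂nu n, Rx (j u) y = dx (fun y' => u.1 (K.pt y.1 y')) y.2
  hy : ∀ u : SI X.Γ, ∀ᵐ y ∂nu n, Ry (j u) y = dy (fun y' => u.1 (K.pt y.1 y')) y.2

structure Rep (X : Sf) {n m : ℕ} (K : Cov n m) {H : Type} [NormedAddCommGroup H]
    [InnerProductSpace ℝ H] (P : Pb n m H) (j : SI X.Γ →ₗ[ℝ] H) (Rx Ry : H →L[ℝ] L2 n) :
    Prop where
  r0 : Rp0 X j
  r1 : Rp1 X K j P.R Rx Ry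
  hQ : ∀ u v : SI X.Γ, P.Qb (j u) (j v) = X.Q u.1 v.1
  sym : ∀ u v, P.Qb u v = P.Qb v u
  adj : P.adj = K.Adj X.Γ
  ps : ∀ A, P.Ps A ↔ X.Psd (⋃ a ∈ A, K.O X.Γ a)

/-- the smallest displacement, capped at `e` -/
def io (Γ : Subgroup SL(2, ℝ)) (e : ℝ) (w : ℍ) : ℝ :=
  sInf (insert e {d | ∃ γ ∈ Γ, γ ≠ 1 ∧ d = dist (γ • w) w})

def Mg (Γ : Subgroup SL(2, ℝ)) (e : ℝ) : Prop :=
  ∀ w : ℍ, ∀ α ∈ Γ, ∀ β ∈ Γ, dist (α • w) w < 2 * e → dist (β • w) w < 2 * e → α * β = β * α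

def Sep (Γ : Subgroup SL(2, ℝ)) (σ : ℍ → ℝ) (A : Finset ℍ) : Prop :=
  ∀ x ∈ A, ∀ y ∈ A, x ≠ y → ∀ γ ∈ Γ, min (σ x) (σ y) / 2 ≤ dist (γ • x) y

/-- a hyperbolic element in normal form -/
structure Tb where
  γ : SL(2, ℝ)
  g : SL(2, ℝ)
  lam : ℝ

namespace Tb

def sg (τ : Tb) (w : ℍ) : ℝ := (τ.g • w).re / (τ.g • w).im
def dp (τ : Tb) (w : ℍ) : ℝ := dist (τ.γ • w) w
def str (τ : Tb) (Γ : Subgroup SL(2, ℝ)) (a b : ℝ) : Set ℍ :=
  orb Γ {w | a < τ.sg w ∧ τ.sg w < b}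
def T (τ : Tb) (Γ : Subgroup SL(2, ℝ)) (e : ℝ) : Set ℍ := orb Γ {w | τ.dp w < e}

structure NF (τ : Tb) : Prop where
  lam1 : 1 < τ.lam
  nf : ∀ w : ℍ, ((τ.g • τ.γ • w : ℍ) : ℂ) = (τ.lam : ℂ) * ((τ.g • w : ℍ) : ℂ)

structure Ok (τ : Tb) (Γ : Subgroup SL(2, ℝ)) : Prop where
  nf : τ.NF
  mem : τ.γ ∈ Γ
  cen : ∀ β ∈ Γ, β * τ.γ = τ.γ * β → ∃ k : ℤ, β = τ.γ ^ k

end Tb

end

end Pool.Agent.MP_4f0ed6_gt.U

end

section

set_option autoImplicit false
set_option linter.dupNamespace false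

open UpperHalfPlane MeasureTheory Set Metric Filter Topology Laplacian
open scoped MatrixGroups ContDiff InnerProductSpace ENNReal

namespace Pool.Agent.MP_4f0ed6_gt.U

variable {u v u' v' : ℍ → ℝ} {w : ℍ}

theorem en_eq (u v : ℍ → ℝ) (w : ℍ) :
    en u v w = w.im ^ 2 * (dx (lift u) w * dx (lift v) w + dy (lift u) w * dy (lift v) w) := rfl
theorem lift_coe (u : ℍ → ℝ) (w : ℍ) : lift u w = u w := by
  rw [lift, ofComplex_apply]

theorem B1_nhds (w : ℍ) : {y : ℂ | 0 < y.im} ∈ 𝓝 (w : ℂ) :=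
  isOpen_upperHalfPlaneSet.mem_nhds w.im_pos

theorem Sm.contDiffAt (hu : Sm u) (w : ℍ) : ContDiffAt ℝ ∞ (lift u) w :=
  ContDiffOn.contDiffAt hu (B1_nhds w)
theorem Sm.of_contDiffAt (h : ∀ w : ℍ, ContDiffAt ℝ ∞ (lift u) w) : Sm u :=
  fun y hy => (h ⟨y, hy⟩).contDiffWithinAt

theorem B1_tend (w : ℍ) : Tendsto ofComplex (𝓝 (w : ℂ)) (𝓝 w) := by
  rw [← isOpenEmbedding_coe.map_nhds_eq, tendsto_map'_iff]
  have : (ofComplex ∘ UpperHalfPlane.coe : ℍ → ℍ) = id := funext fun z => ofComplex_apply z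
  rw [this]
  exact tendsto_id

theorem lift_congr (h : u =ᶠ[𝓝 w] v) : lift u =ᶠ[𝓝 (w : ℂ)] lift v :=
  (B1_tend w).eventually h
theorem Sm.of_local (h : ∀ w, ∃ v, Sm v ∧ u =ᶠ[𝓝 w] v) : Sm u :=
  Sm.of_contDiffAt fun w => by
    obtain ⟨v, hv, e⟩ := h w
    exact (hv.contDiffAt w).congr_of_eventuallyEq (lift_congr e)
theorem Sm.of_coe {f : ℂ → ℝ} (hf : ContDiffOn ℝ ∞ f {y : ℂ | 0 < y.im}) :
    Sm (fun w : ℍ => f w) :=
  ContDiffOn.congr hf fun y hy => by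
    rw [lift, ofComplex_apply_of_im_pos hy]
theorem Sm.continuous (hu : Sm u) : Continuous u := by
  have e : u = fun w : ℍ => lift u w := funext fun w => (lift_coe u w).symm
  rw [e]
  exact continuous_iff_continuousAt.2 fun w =>
    ContinuousAt.comp (f := UpperHalfPlane.coe) (hu.contDiffAt w).continuousAt
      continuous_coe.continuousAt
theorem Sm.const (a : ℝ) : Sm (fun _ => a) := contDiffOn_const
theorem Sm.add (hu : Sm u) (hv : Sm v) : Sm (fun w => u w + v w) := ContDiffOn.add hu hv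
theorem Sm.sub (hu : Sm u) (hv : Sm v) : Sm (fun w => u w - v w) := ContDiffOn.sub hu hv
theorem Sm.mul (hu : Sm u) (hv : Sm v) : Sm (fun w => u w * v w) := ContDiffOn.mul hu hv
theorem Sm.sum {ι : Type} {s : Finset ι} {f : ι → ℍ → ℝ} (h : ∀ i ∈ s, Sm (f i)) :
    Sm (fun w => ∑ i ∈ s, f i w) :=
  ContDiffOn.sum (f := fun i => lift (f i)) h
theorem Sm.prod {ι : Type} {s : Finset ι} {f : ι → ℍ → ℝ} (h : ∀ i ∈ s, Sm (f i)) :
    Sm (fun w => ∏ i ∈ s, f i w) :=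
  contDiffOn_prod (f := fun i => lift (f i)) h
theorem Sm.comp (hu : Sm u) {φ : ℝ → ℝ} (hφ : ∀ w, ContDiffAt ℝ ∞ φ (u w)) :
    Sm (fun w => φ (u w)) :=
  Sm.of_contDiffAt fun w =>
    ContDiffAt.comp (g := φ) (f := lift u) (w : ℂ) (by rw [lift_coe]; exact hφ w) (hu.contDiffAt w)

/-- the action read in the plane -/
noncomputable def B1_m (γ : SL(2, ℝ)) (y : ℂ) : ℂ := ((γ • ofComplex y : ℍ) : ℂ)

theorem B1_m_coe (γ : SL(2, ℝ)) (w : ℍ) : B1_m γ w = ((γ • w : ℍ) : ℂ) := by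
  rw [B1_m, ofComplex_apply]

theorem B1_lift_act (u : ℍ → ℝ) (γ : SL(2, ℝ)) :
    lift (fun w => u (γ • w)) = lift u ∘ B1_m γ := by
  funext y
  rw [Function.comp_apply, B1_m, lift_coe]
  rfl

theorem B1_det (γ : SL(2, ℝ)) :
    ((Matrix.SpecialLinearGroup.mapGL ℝ γ : GL (Fin 2) ℝ)).val.det = 1 := by
  simp

theorem B1_an (γ : SL(2, ℝ)) (w : ℍ) : AnalyticAt ℂ (B1_m γ) w :=
  analyticAt_smul (g := Matrix.SpecialLinearGroup.mapGL ℝ γ) (by rw [B1_det]; exact one_pos) w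

theorem B1_der (γ : SL(2, ℝ)) (w : ℍ) : ∃ c : ℂ, HasDerivAt (B1_m γ) c w ∧
    (γ • w).im ^ 2 = w.im ^ 2 * (c.re ^ 2 + c.im ^ 2) := by
  have h := (hasStrictDerivAt_smul (g := Matrix.SpecialLinearGroup.mapGL ℝ γ)
    (by rw [B1_det]; exact one_pos) w).hasDerivAt
  refine ⟨_, h, ?_⟩
  have h2 := im_smul_eq_div_normSq (Matrix.SpecialLinearGroup.mapGL ℝ γ) w
  have h3 : ((Matrix.SpecialLinearGroup.mapGL ℝ γ : GL (Fin 2) ℝ)).det.val = 1 := by simp
  rw [h3, abs_one, one_mul] at h2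
  have h4 : ∀ c : ℂ, c.re ^ 2 + c.im ^ 2 = Complex.normSq c := fun c => by
    rw [Complex.normSq_apply]; ring
  rw [h4, B1_det, map_div₀, map_pow]
  change ((Matrix.SpecialLinearGroup.mapGL ℝ γ : GL (Fin 2) ℝ) • w).im ^ 2 = _
  rw [h2, div_pow]
  simp [div_eq_mul_inv]

theorem Sm.smul_act (hu : Sm u) (γ : SL(2, ℝ)) : Sm (fun w => u (γ • w)) :=
  Sm.of_contDiffAt fun w => by
    rw [B1_lift_act]
    refine ContDiffAt.comp (w : ℂ) ?_ ((B1_an γ w).contDiffAt.restrict_scalars ℝ)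
    rw [B1_m_coe]
    exact hu.contDiffAt _
theorem mem_SI {Γ : Subgroup SL(2, ℝ)} : u ∈ SI Γ ↔ Sm u ∧ Inv Γ u := Iff.rfl
theorem SI_mul {Γ : Subgroup SL(2, ℝ)} (hu : u ∈ SI Γ) (hv : v ∈ SI Γ) :
    (fun w => u w * v w) ∈ SI Γ :=
  ⟨Sm.mul hu.1 hv.1, fun γ hγ z => by
    simp only [hu.2 γ hγ z, hv.2 γ hγ z]⟩
theorem SI_const (Γ : Subgroup SL(2, ℝ)) (a : ℝ) : (fun _ : ℍ => a) ∈ SI Γ :=
  ⟨Sm.const a, fun _ _ _ => rfl⟩
theorem SI_comp {Γ : Subgroup SL(2, ℝ)} (hu : u ∈ SI Γ) {φ : ℝ → ℝ}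
    (hφ : ∀ w, ContDiffAt ℝ ∞ φ (u w)) : (fun w => φ (u w)) ∈ SI Γ :=
  ⟨Sm.comp hu.1 hφ, fun γ hγ z => by
    simp only [hu.2 γ hγ z]⟩

theorem B1_diff (hu : Sm u) (w : ℍ) : DifferentiableAt ℝ (lift u) w :=
  (hu.contDiffAt w).differentiableAt (by simp)

theorem en_comm (u v : ℍ → ℝ) (w : ℍ) : en u v w = en v u w := by
  rw [en_eq, en_eq]; ring
theorem en_nn (u : ℍ → ℝ) (w : ℍ) : 0 ≤ en u u w := by
  rw [en_eq]
  exact mul_nonneg (sq_nonneg _) (add_nonneg (mul_self_nonneg _) (mul_self_nonneg _))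
theorem en_cs (u v : ℍ → ℝ) (w : ℍ) : |en u v w| ≤ √(en u u w) * √(en v v w) := by
  rw [← Real.sqrt_mul (en_nn u w)]
  refine Real.abs_le_sqrt ?_
  rw [en_eq, en_eq, en_eq]
  nlinarith [mul_nonneg (sq_nonneg (w.im ^ 2))
    (sq_nonneg (dx (lift u) w * dy (lift v) w - dy (lift u) w * dx (lift v) w))]
theorem en_congr (h : u =ᶠ[𝓝 w] u') (h' : v =ᶠ[𝓝 w] v') : en u v w = en u' v' w := by
  rw [en_eq, en_eq, dx_congr (lift_congr h), dx_congr (lift_congr h'), dy_congr (lift_congr h),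
    dy_congr (lift_congr h')]
theorem en_const (a : ℝ) (v : ℍ → ℝ) (w : ℍ) : en (fun _ => a) v w = 0 := by
  have e : lift (fun _ => a) = fun _ => a := rfl
  simp [en, e]
theorem en_eq_zero (h : w ∉ tsupport u) (v : ℍ → ℝ) : en u v w = 0 := by
  rw [en_congr (u' := fun _ => 0) (notMem_tsupport_iff_eventuallyEq.1 h) EventuallyEq.rfl,
    en_const]
theorem en_add (hu : Sm u) (hu' : Sm u') (v : ℍ → ℝ) (w : ℍ) :
    en (fun w => u w + u' w) v w = en u v w + en u' v w := by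
  have e : lift (fun w => u w + u' w) = fun y => lift u y + lift u' y := rfl
  rw [en_eq, en_eq, en_eq, e, dx_add (B1_diff hu w) (B1_diff hu' w),
    dy_add (B1_diff hu w) (B1_diff hu' w)]
  ring
theorem en_mul (hu : Sm u) (hu' : Sm u') (v : ℍ → ℝ) (w : ℍ) :
    en (fun w => u w * u' w) v w = u w * en u' v w + u' w * en u v w := by
  have e : lift (fun w => u w * u' w) = fun y => lift u y * lift u' y := rfl
  rw [en_eq, en_eq, en_eq, e, dx_mul (B1_diff hu w) (B1_diff hu' w),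
    dy_mul (B1_diff hu w) (B1_diff hu' w), lift_coe, lift_coe]
  ring
theorem en_smul (a : ℝ) (hu : Sm u) (v : ℍ → ℝ) (w : ℍ) :
    en (fun w => a * u w) v w = a * en u v w := by
  rw [en_mul (Sm.const a) hu, en_const, mul_zero, add_zero]
theorem en_sum {ι : Type} {s : Finset ι} {f : ι → ℍ → ℝ} (h : ∀ i ∈ s, Sm (f i)) (v : ℍ → ℝ)
    (w : ℍ) : en (fun w => ∑ i ∈ s, f i w) v w = ∑ i ∈ s, en (f i) v w := by
  classical
  induction s using Finset.induction_on with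
  | empty => simpa using en_const 0 v w
  | insert a s ha ih =>
    have h1 : ∀ i ∈ s, Sm (f i) := fun i hi => h i (Finset.mem_insert_of_mem hi)
    simp only [Finset.sum_insert ha]
    rw [en_add (h a (Finset.mem_insert_self a s)) (Sm.sum h1), ih h1]
theorem en_comp (hu : Sm u) {φ : ℝ → ℝ} {a : ℝ} (hφ : HasDerivAt φ a (u w)) (v : ℍ → ℝ) :
    en (fun w => φ (u w)) v w = a * en u v w := by
  have e : lift (fun w => φ (u w)) = fun y => φ (lift u y) := rfl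
  have h1 : HasDerivAt φ a (lift u w) := by rw [lift_coe]; exact hφ
  rw [en_eq, en_eq, e, dx_comp h1 (B1_diff hu w), dy_comp h1 (B1_diff hu w)]
  ring

theorem B1_two (u v : ℍ → ℝ) (w : ℍ) (a b : ℝ) :
    2 * (a * b * en u v w) ≤ a ^ 2 * en u u w + b ^ 2 * en v v w := by
  rw [en_eq, en_eq, en_eq]
  nlinarith [mul_nonneg (sq_nonneg w.im) (sq_nonneg (a * dx (lift u) w - b * dx (lift v) w)),
    mul_nonneg (sq_nonneg w.im) (sq_nonneg (a * dy (lift u) w - b * dy (lift v) w))]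

theorem en_add_le (hu : Sm u) (hv : Sm v) (w : ℍ) :
    en (fun w => u w + v w) (fun w => u w + v w) w ≤ 2 * en u u w + 2 * en v v w := by
  rw [en_add hu hv, en_comm u, en_comm v, en_add hu hv, en_add hu hv, en_comm v u]
  nlinarith [B1_two u v w 1 1]
theorem en_mul_le (hu : Sm u) (hv : Sm v) (w : ℍ) :
    en (fun w => u w * v w) (fun w => u w * v w) w ≤
      2 * u w ^ 2 * en v v w + 2 * v w ^ 2 * en u u w := by
  rw [en_mul hu hv, en_comm u, en_comm v, en_mul hu hv, en_mul hu hv, en_comm v u]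
  nlinarith [B1_two u v w (v w) (u w)]
theorem en_sum_le {ι : Type} {s : Finset ι} {f : ι → ℍ → ℝ} (h : ∀ i ∈ s, Sm (f i)) (w : ℍ) :
    en (fun w => ∑ i ∈ s, f i w) (fun w => ∑ i ∈ s, f i w) w ≤
      s.card * ∑ i ∈ s, en (f i) (f i) w := by
  have e : en (fun w => ∑ i ∈ s, f i w) (fun w => ∑ i ∈ s, f i w) w =
      ∑ i ∈ s, ∑ j ∈ s, en (f i) (f j) w := by
    rw [en_sum h]
    refine Finset.sum_congr rfl fun i _ => ?_
    rw [en_comm, en_sum h]
    exact Finset.sum_congr rfl fun j _ => en_comm _ _ _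
  have h2 : ∑ i ∈ s, ∑ j ∈ s, en (f i) (f j) w ≤
      ∑ i ∈ s, ∑ j ∈ s, (en (f i) (f i) w / 2 + en (f j) (f j) w / 2) :=
    Finset.sum_le_sum fun i _ => Finset.sum_le_sum fun j _ => by
      nlinarith [B1_two (f i) (f j) w 1 1]
  rw [e]
  refine h2.trans (le_of_eq ?_)
  simp only [Finset.sum_add_distrib, Finset.sum_const, nsmul_eq_mul, ← Finset.mul_sum,
    ← Finset.sum_div]
  ring

theorem B1_chain (hu : Sm u) (γ : SL(2, ℝ)) (w : ℍ) {c : ℂ} (hc : HasDerivAt (B1_m γ) c w)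
    (e : ℂ) : fderiv ℝ (lift (fun w => u (γ • w))) w e =
      (e * c).re * dx (lift u) (γ • w : ℍ) + (e * c).im * dy (lift u) (γ • w : ℍ) := by
  have h1 : HasFDerivAt (lift u) (fderiv ℝ (lift u) (γ • w : ℍ)) (B1_m γ w) := by
    rw [B1_m_coe]; exact (B1_diff hu _).hasFDerivAt
  have h2 := (h1.comp (w : ℂ) (hc.hasFDerivAt.restrictScalars ℝ)).fderiv
  rw [B1_lift_act, h2]
  have h3 : e * c = (e * c).re • (1 : ℂ) + (e * c).im • Complex.I := by
    simp [Complex.ext_iff]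
  change fderiv ℝ (lift u) (γ • w : ℍ) (e • c) = _
  rw [smul_eq_mul]
  conv_lhs => rw [h3]
  rw [map_add, map_smul, map_smul]
  rfl

/-- conformal invariance -/
theorem en_act (hu : Sm u) (hv : Sm v) (γ : SL(2, ℝ)) (w : ℍ) :
    en (fun w => u (γ • w)) (fun w => v (γ • w)) w = en u v (γ • w) := by
  obtain ⟨c, hc, hi⟩ := B1_der γ w
  rw [en, en_eq, B1_chain hu γ w hc, B1_chain hu γ w hc, B1_chain hv γ w hc, B1_chain hv γ w hc,
    hi]
  simp only [one_mul, Complex.mul_re, Complex.mul_im, Complex.I_re, Complex.I_im, zero_mul,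
    zero_sub, zero_add]
  ring
theorem en_inv {Γ : Subgroup SL(2, ℝ)} (hu : u ∈ SI Γ) (hv : v ∈ SI Γ) : Inv Γ (en u v) := by
  intro γ hγ z
  rw [← en_act hu.1 hv.1, show (fun w => u (γ • w)) = u from funext (hu.2 γ hγ),
    show (fun w => v (γ • w)) = v from funext (hv.2 γ hγ)]

theorem B1_fd (hu : Sm u) (w : ℍ) : ContDiffAt ℝ ∞ (fderiv ℝ (lift u)) w :=
  (hu.contDiffAt w).fderiv_right (by simp)

theorem B1_cont (hu : Sm u) (e : ℂ) : Continuous fun w : ℍ => fderiv ℝ (lift u) w e :=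
  continuous_iff_continuousAt.2 fun w =>
    ContinuousAt.comp (f := UpperHalfPlane.coe) (g := fun y => fderiv ℝ (lift u) y e)
      ((B1_fd hu w).continuousAt.clm_apply continuousAt_const) continuous_coe.continuousAt

theorem continuous_en (hu : Sm u) (hv : Sm v) : Continuous (en u v) :=
  (continuous_im.pow 2).mul (((B1_cont hu 1).mul (B1_cont hv 1)).add
    ((B1_cont hu Complex.I).mul (B1_cont hv Complex.I)))
theorem lap_eq (hu : Sm u) (w : ℍ) : lap u w = -(w.im ^ 2 * lp (lift u) w) := by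
  have h : ∀ e : ℂ, fderiv ℝ (fun y => fderiv ℝ (lift u) y e) w e =
      iteratedFDeriv ℝ 2 (lift u) w ![e, e] := fun e => by
    rw [iteratedFDeriv_two_apply,
      fderiv_clm_apply ((B1_fd hu w).differentiableAt (by simp)) (differentiableAt_const e)]
    simp
  rw [lap, InnerProductSpace.laplacian_eq_iteratedFDeriv_complexPlane]
  simp only [← h]
  rfl

end Pool.Agent.MP_4f0ed6_gt.U

end

section

set_option autoImplicit false
set_option linter.dupNamespace false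

open UpperHalfPlane MeasureTheory Set Metric Filter Topology
open scoped MatrixGroups ContDiff InnerProductSpace ENNReal

namespace Pool.Agent.MP_4f0ed6_gt.U

variable {Γ : Subgroup SL(2, ℝ)} {F A B : Set ℍ} {h η a : ℍ → ℝ} {w : ℍ}

theorem B2_inv (Γ : Subgroup SL(2, ℝ)) : SMulInvariantMeasure Γ ℍ volume :=
  ⟨fun c _ hs => SMulInvariantMeasure.measure_preimage_smul
    (Matrix.SpecialLinearGroup.mapGL ℝ (c : SL(2, ℝ))) hs⟩

theorem B2_cont (γ : SL(2, ℝ)) : Continuous fun w : ℍ => γ • w := continuous_const_smul γ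

theorem B2_meas (Γ : Subgroup SL(2, ℝ)) : MeasurableConstSMul Γ ℍ :=
  ⟨fun c => (B2_cont c).measurable⟩

theorem Closed.countable (H : Closed Γ F) : Countable Γ := by
  have := H.disc
  have : SecondCountableTopology (Matrix (Fin 2) (Fin 2) ℝ) :=
    inferInstanceAs (SecondCountableTopology (Fin 2 → Fin 2 → ℝ))
  have : SecondCountableTopology SL(2, ℝ) :=
    Matrix.SpecialLinearGroup.isClosedEmbedding_val.isEmbedding.secondCountableTopology
  exact TopologicalSpace.separableSpace_iff_countable.1 inferInstance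
theorem Closed.finite (H : Closed Γ F) (hA : IsCompact A) (hB : IsCompact B) :
    {γ : Γ | ∃ w ∈ A, (γ : SL(2, ℝ)) • w ∈ B}.Finite := by
  have := H.disc
  exact (finite_disjoint_inter_image (Γ := Γ) hA hB).subset
    fun γ ⟨w, h1, h2⟩ => ⟨_, ⟨w, h1, rfl⟩, h2⟩
theorem Closed.free (H : Closed Γ F) {γ : SL(2, ℝ)} (hγ : γ ∈ Γ) (hw : γ • w = w) : γ = 1 := by
  by_contra hne
  have h1 := H.hyp γ hγ hne
  have h2 : ((γ • w : ℍ) : ℂ) = w := by rw [hw]
  have hd : (γ 1 0 : ℂ) * w + γ 1 1 ≠ 0 := denom_ne_zero γ w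
  rw [coe_specialLinearGroup_apply] at h2
  have h3 : (γ 0 0 : ℂ) * w + γ 0 1 = w * ((γ 1 0 : ℂ) * w + γ 1 1) := (div_eq_iff hd).1 h2
  have hr := congrArg Complex.re h3
  have hi := congrArg Complex.im h3
  simp only [Complex.add_re, Complex.mul_re, Complex.ofReal_re, Complex.ofReal_im, Complex.add_im,
    Complex.mul_im, coe_re, coe_im, zero_mul, sub_zero, add_zero] at hr hi
  have hdet : γ 0 0 * γ 1 1 - γ 0 1 * γ 1 0 = 1 := by
    rw [← Matrix.det_fin_two]; exact γ.det_coe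
  rw [Matrix.trace_fin_two, ← abs_two, ← sq_lt_sq] at h1
  have h4 : γ 0 0 - γ 1 1 = 2 * γ 1 0 * w.re :=
    mul_left_cancel₀ w.im_ne_zero (by linear_combination hi)
  have h5 : γ 0 1 = -γ 1 0 * (w.re ^ 2 + w.im ^ 2) := by linear_combination hr - w.re * h4
  have h6 : (γ 0 0 + γ 1 1) ^ 2 = 4 - 4 * (γ 1 0 * w.im) ^ 2 := by
    linear_combination (γ 0 0 - γ 1 1 + 2 * γ 1 0 * w.re) * h4 + 4 * hdet + 4 * γ 1 0 * h5
  have h7 : (2 : ℝ) ^ 2 < (γ 0 0 + γ 1 1) ^ 2 := h1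
  nlinarith [sq_nonneg (γ 1 0 * w.im)]
theorem isCompact_vol (hA : IsCompact A) : volume A ≠ ⊤ := hA.measure_lt_top.ne
theorem integrableOn_cpt (hA : IsCompact A) (hh : Continuous h) : IntegrableOn h A :=
  hh.continuousOn.integrableOn_compact hA
theorem vol_open_pos (hA : IsOpen A) (hn : A.Nonempty) : 0 < volume A := by
  refine pos_iff_ne_zero.2 fun h0 => ?_
  have hm : Measurable fun z : ℍ => ((((1 : NNReal) / NNReal.mk z.im z.im_pos.le) ^ 2 : NNReal) :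
      ℝ≥0∞) := by
    have hc : Continuous fun z : ℍ => NNReal.mk z.im z.im_pos.le := continuous_im.subtype_mk _
    exact ((measurable_const.div hc.measurable).pow_const 2).coe_nnreal_ennreal
  rw [volume_def, withDensity_apply_eq_zero hm] at h0
  have e : {z : ℍ | ((((1 : NNReal) / NNReal.mk z.im z.im_pos.le) ^ 2 : NNReal) : ℝ≥0∞) ≠ 0} =
      univ := eq_univ_of_forall fun z => by
    have : NNReal.mk z.im z.im_pos.le ≠ 0 := NNReal.ne_iff.mp z.im_ne_zero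
    exact ENNReal.coe_ne_zero.2 (pow_ne_zero 2 (div_ne_zero one_ne_zero this))
  rw [e, univ_inter, measurableEmbedding_coe.comap_apply] at h0
  exact ((isOpenEmbedding_coe.isOpenMap A hA).measure_pos volume (hn.image _)).ne' h0
theorem Closed.vol_ne_top (H : Closed Γ F) : volume F ≠ ⊤ := isCompact_vol H.cpt
theorem Closed.vol_pos (H : Closed Γ F) : 0 < volume.real F := by
  have := H.countable
  have := B2_inv Γ
  have := B2_meas Γ
  refine ENNReal.toReal_pos (H.fund.measure_ne_zero ?_) H.vol_ne_top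
  exact Measure.measure_univ_pos.1 (vol_open_pos isOpen_univ ⟨I, trivial⟩)
theorem Closed.integrableOn (H : Closed Γ F) (hh : Continuous h) : IntegrableOn h F :=
  integrableOn_cpt H.cpt hh
theorem Closed.bdd (H : Closed Γ F) (hh : Continuous h) (hi : Inv Γ h) :
    ∃ M : ℝ, 0 < M ∧ ∀ w, |h w| ≤ M := by
  obtain ⟨M, hM⟩ := H.cpt.exists_bound_of_continuousOn hh.continuousOn
  refine ⟨max M 1, lt_max_of_lt_right one_pos, fun w => ?_⟩
  obtain ⟨γ, h1, h2⟩ := H.cov w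
  rw [← hi γ h1 w]
  exact (hM _ h2).trans (le_max_left _ _)
theorem Closed.pos_min (H : Closed Γ F) (hh : Continuous h) (hi : Inv Γ h) (hp : ∀ w, 0 < h w) :
    ∃ m : ℝ, 0 < m ∧ ∀ w, m ≤ h w := by
  obtain ⟨γ, -, h0⟩ := H.cov I
  obtain ⟨z, -, hz⟩ := H.cpt.exists_isMinOn ⟨_, h0⟩ hh.continuousOn
  refine ⟨h z, hp z, fun w => ?_⟩
  obtain ⟨γ, h1, h2⟩ := H.cov w
  rw [← hi γ h1 w]
  exact hz h2
theorem Closed.eq_zero (H : Closed Γ F) (hh : Continuous h) (hi : Inv Γ h) (hp : ∀ w, 0 ≤ h w)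
    (h0 : ∫ w in F, h w = 0) (w : ℍ) : h w = 0 := by
  have := H.countable
  have := B2_inv Γ
  have := B2_meas Γ
  by_contra hw
  have ho : IsOpen {x | h x ≠ 0} := isOpen_ne_fun hh continuous_const
  refine (vol_open_pos ho ⟨w, hw⟩).ne' (H.fund.measure_zero_of_invariant _ (fun g => ?_) ?_)
  · ext x
    rw [mem_smul_set_iff_inv_smul_mem]
    exact not_congr (by rw [← hi _ (g⁻¹).2 x]; rfl)
  · rw [← Measure.restrict_apply ho.measurableSet]
    exact (integral_eq_zero_iff_of_nonneg hp (H.integrableOn hh)).1 h0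

theorem subset_orb (Γ : Subgroup SL(2, ℝ)) (A : Set ℍ) : A ⊆ orb Γ A :=
  fun w hw => ⟨1, Γ.one_mem, by rwa [one_smul]⟩
theorem orb_mono (h : A ⊆ B) : orb Γ A ⊆ orb Γ B := fun _ ⟨γ, h1, h2⟩ => ⟨γ, h1, h h2⟩
theorem invS_orb (Γ : Subgroup SL(2, ℝ)) (A : Set ℍ) : InvS Γ (orb Γ A) :=
  fun γ hγ w ⟨δ, h1, h2⟩ => ⟨δ * γ⁻¹, Γ.mul_mem h1 (Γ.inv_mem hγ), by
    rwa [mul_smul, inv_smul_smul]⟩
theorem InvS.iff (hA : InvS Γ A) {γ : SL(2, ℝ)} (hγ : γ ∈ Γ) : γ • w ∈ A ↔ w ∈ A :=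
  ⟨fun h => by simpa only [inv_smul_smul] using hA _ (Γ.inv_mem hγ) _ h, hA γ hγ w⟩
theorem InvS.compl (hA : InvS Γ A) : InvS Γ Aᶜ := fun _ hγ _ hw h => hw ((hA.iff hγ).1 h)
theorem InvS.orb_subset (hB : InvS Γ B) (h : A ⊆ B) : orb Γ A ⊆ B :=
  fun _ ⟨_, h1, h2⟩ => (hB.iff h1).1 (h h2)
theorem B2_orb (Γ : Subgroup SL(2, ℝ)) (A : Set ℍ) :
    orb Γ A = ⋃ γ : Γ, (fun w => (γ : SL(2, ℝ)) • w) ⁻¹' A := by
  ext w
  rw [mem_iUnion]
  exact ⟨fun ⟨γ, h1, h2⟩ => ⟨⟨γ, h1⟩, h2⟩, fun ⟨γ, h2⟩ => ⟨γ, γ.2, h2⟩⟩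
theorem isOpen_orb (hA : IsOpen A) : IsOpen (orb Γ A) := by
  rw [B2_orb]
  exact isOpen_iUnion fun γ => hA.preimage (B2_cont _)
theorem B2_lf (H : Closed Γ F) (hA : IsCompact A) :
    LocallyFinite fun γ : Γ => (fun w => (γ : SL(2, ℝ)) • w) ⁻¹' A := fun x => by
  obtain ⟨K, h1, h2⟩ := exists_compact_mem_nhds x
  exact ⟨K, h2, (H.finite h1 hA).subset fun γ ⟨w, a, b⟩ => ⟨w, b, a⟩⟩
theorem Closed.isClosed_orb (H : Closed Γ F) (hA : IsCompact A) : IsClosed (orb Γ A) := by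
  rw [B2_orb]
  exact (B2_lf H hA).isClosed_iUnion fun γ => hA.isClosed.preimage (B2_cont _)
theorem Emb.mono (hB : Emb Γ B) (h : A ⊆ B) : Emb Γ A :=
  fun γ hγ w h1 h2 => hB γ hγ w (h h1) (h h2)
theorem invS_tsupport (hi : Inv Γ h) : InvS Γ (tsupport h) := fun γ hγ _ hw =>
  map_mem_closure (B2_cont γ) hw fun y hy => by
    rw [Function.mem_support, hi γ hγ y]; exact hy

theorem B2_loc (H : Closed Γ F) (hA : IsCompact A) (w : ℍ) :
    ∃ s : Finset Γ, ∀ᶠ x in 𝓝 w, ∀ f : ℍ → ℝ, Function.support f ⊆ A →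
      per Γ f x = ∑ γ ∈ s, f ((γ : SL(2, ℝ)) • x) := by
  obtain ⟨U, h1, h2⟩ := B2_lf H hA w
  refine ⟨h2.toFinset, ?_⟩
  filter_upwards [h1] with x hx f hf
  exact finsum_eq_sum_of_support_subset _ fun γ hγ => by
    rw [Finite.coe_toFinset]; exact ⟨x, hf hγ, hx⟩
theorem B2_fin (H : Closed Γ F) (hc : HasCompactSupport η) (w : ℍ) :
    (Function.support fun γ : Γ => η ((γ : SL(2, ℝ)) • w)).Finite :=
  (H.finite isCompact_singleton hc).subset fun _ hγ => ⟨w, rfl, subset_tsupport _ hγ⟩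
theorem Closed.per_local (H : Closed Γ F) (hc : HasCompactSupport η) (w : ℍ) :
    ∃ s : Finset Γ, per Γ η =ᶠ[𝓝 w] fun x => ∑ γ ∈ s, η ((γ : SL(2, ℝ)) • x) := by
  obtain ⟨s, hs⟩ := B2_loc H hc w
  exact ⟨s, hs.mono fun x hx => hx η (subset_tsupport _)⟩
theorem B2_per_inv (Γ : Subgroup SL(2, ℝ)) (η : ℍ → ℝ) : Inv Γ (per Γ η) := fun γ hγ z => by
  rw [per, per, ← finsum_comp_equiv (Equiv.mulRight (⟨γ, hγ⟩ : Γ))
    (f := fun δ : Γ => η ((δ : SL(2, ℝ)) • z))]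
  exact finsum_congr fun δ => by rw [← mul_smul]; rfl
theorem Closed.per_mem (H : Closed Γ F) (hs : Sm η) (hc : HasCompactSupport η) :
    per Γ η ∈ SI Γ := by
  refine ⟨Sm.of_local fun w => ?_, B2_per_inv Γ η⟩
  obtain ⟨s, h⟩ := H.per_local hc w
  exact ⟨_, Sm.sum (f := fun (γ : Γ) x => η ((γ : SL(2, ℝ)) • x)) fun γ _ => hs.smul_act _, h⟩
theorem per_nn (hp : ∀ w, 0 ≤ η w) (w : ℍ) : 0 ≤ per Γ η w := finsum_nonneg fun _ => hp _
theorem Closed.le_per (H : Closed Γ F) (hc : HasCompactSupport η) (hp : ∀ w, 0 ≤ η w) (w : ℍ) :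
    η w ≤ per Γ η w := by
  have := single_le_finsum (1 : Γ) (B2_fin H hc w) fun _ => hp _
  rwa [OneMemClass.coe_one, one_smul] at this
theorem Closed.per_mul (H : Closed Γ F) (hc : HasCompactSupport η) (hi : Inv Γ a) (w : ℍ) :
    per Γ (fun x => a x * η x) w = a w * per Γ η w := by
  rw [per, per, mul_finsum' _ _ (B2_fin H hc w)]
  exact finsum_congr fun γ => by rw [hi _ γ.2]
theorem Closed.tsupport_per (H : Closed Γ F) (hc : HasCompactSupport η) :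
    tsupport (per Γ η) ⊆ orb Γ (tsupport η) := by
  refine closure_minimal (fun w hw => ?_) (H.isClosed_orb hc)
  by_contra h0
  exact hw (finsum_eq_zero_of_forall_eq_zero fun γ =>
    image_eq_zero_of_notMem_tsupport fun h1 => h0 ⟨γ, γ.2, h1⟩)
theorem per_emb (hA : Emb Γ A) (hs : tsupport η ⊆ A) (hw : w ∈ A) : per Γ η w = η w := by
  rw [per, finsum_eq_single _ (1 : Γ), OneMemClass.coe_one, one_smul]
  exact fun γ hγ => image_eq_zero_of_notMem_tsupport fun h1 =>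
    hγ (Subtype.ext (hA γ γ.2 w hw (hs h1)))
/-- unfolding -/
theorem Closed.unfold (H : Closed Γ F) (hη : Continuous η) (hc : HasCompactSupport η) :
    ∫ w in F, per Γ η w = ∫ w, η w := by
  have := H.countable
  have := B2_inv Γ
  have := B2_meas Γ
  have hf := H.finite H.cpt hc
  have hm := H.cpt.measurableSet
  rw [H.fund.integral_eq_tsum'' η (hη.integrable_of_hasCompactSupport hc),
    tsum_eq_sum (s := hf.toFinset), ← integral_finsetSum]
  · refine setIntegral_congr_fun hm fun x hx => finsum_eq_sum_of_support_subset _ fun γ hγ => ?_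
    rw [Finite.coe_toFinset]
    exact ⟨x, hx, subset_tsupport _ hγ⟩
  · exact fun γ _ => H.integrableOn (hη.comp (B2_cont γ))
  · exact fun γ hγ => setIntegral_eq_zero_of_forall_eq_zero fun x hx =>
      image_eq_zero_of_notMem_tsupport fun h1 => hγ (hf.mem_toFinset.2 ⟨x, hx, h1⟩)
theorem Closed.unfold_mul (H : Closed Γ F) (hη : Continuous η) (hc : HasCompactSupport η)
    (ha : Continuous a) (hi : Inv Γ a) : ∫ w in F, a w * per Γ η w = ∫ w, a w * η w := by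
  rw [← H.unfold (η := fun w => a w * η w) (ha.mul hη) hc.mul_left]
  simp only [H.per_mul hc hi]
theorem Closed.unfold_en (H : Closed Γ F) (hη : Sm η) (hc : HasCompactSupport η)
    (ha : a ∈ SI Γ) : ∫ w in F, en a (per Γ η) w = ∫ w, en a η w := by
  have hs : Function.support (en a η) ⊆ tsupport η := fun x hx => by
    by_contra h0
    exact hx (by rw [en_comm, en_eq_zero h0])
  rw [← H.unfold (continuous_en ha.1 hη) (HasCompactSupport.of_support_subset_isCompact hc hs)]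
  refine integral_congr_ae (Eventually.of_forall fun w => ?_)
  obtain ⟨s, h⟩ := B2_loc H hc w
  have e : per Γ η =ᶠ[𝓝 w] fun x => ∑ γ ∈ s, η ((γ : SL(2, ℝ)) • x) :=
    h.mono fun x hx => hx η (subset_tsupport _)
  change en a (per Γ η) w = per Γ (en a η) w
  rw [h.self_of_nhds _ hs, en_congr EventuallyEq.rfl e, en_comm,
    en_sum (f := fun (γ : Γ) x => η ((γ : SL(2, ℝ)) • x)) fun γ _ => hη.smul_act _]
  refine Finset.sum_congr rfl fun γ _ => ?_
  rw [← en_act ha.1 hη, en_comm]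
  exact en_congr (Eventually.of_forall fun x => (ha.2 _ γ.2 x).symm) EventuallyEq.rfl

open Pointwise in
theorem B2_un (Γ : Subgroup SL(2, ℝ)) (F A : Set ℍ) : F ∩ orb Γ A = ⋃ g : Γ, g • A ∩ F := by
  ext x
  simp only [mem_iUnion, mem_inter_iff, mem_smul_set_iff_inv_smul_mem]
  exact ⟨fun ⟨h, γ, h1, h2⟩ => ⟨(⟨γ, h1⟩ : Γ)⁻¹, by rw [inv_inv]; exact h2, h⟩,
    fun ⟨g, h1, h2⟩ => ⟨h2, _, (g⁻¹).2, h1⟩⟩
open Pointwise in
theorem B2_dj (he : Emb Γ A) (F : Set ℍ) :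
    Pairwise (Function.onFun Disjoint fun g : Γ => g • A ∩ F) := fun g g' hg => by
  refine disjoint_left.2 fun x h1 h2 => hg ?_
  have a1 := mem_smul_set_iff_inv_smul_mem.1 h1.1
  have a2 := mem_smul_set_iff_inv_smul_mem.1 h2.1
  have a3 : (g'⁻¹ * g) • g⁻¹ • x ∈ A := by rwa [mul_smul, smul_inv_smul]
  exact (inv_mul_eq_one.1 (Subtype.ext (he _ (g'⁻¹ * g).2 _ a1 a3) : g'⁻¹ * g = 1)).symm
open Pointwise in
theorem B2_ms (H : Closed Γ F) (hA : MeasurableSet A) (g : Γ) : MeasurableSet (g • A ∩ F) := by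
  have := B2_meas Γ
  exact (hA.const_smul g).inter H.cpt.measurableSet
open Pointwise in
theorem B2_lint (H : Closed Γ F) (A : Set ℍ) {f : ℍ → ℝ≥0∞}
    (hi : ∀ γ ∈ Γ, ∀ w, f (γ • w) = f w) :
    ∫⁻ w in A, f w = ∑' g : Γ, ∫⁻ w in g • A ∩ F, f w := by
  have := H.countable
  have := B2_inv Γ
  have := B2_meas Γ
  rw [H.fund.setLIntegral_eq_tsum']
  exact tsum_congr fun g => lintegral_congr fun x => hi _ (g⁻¹).2 x
theorem Closed.lint_orb (H : Closed Γ F) (hA : MeasurableSet A) {f : ℍ → ℝ≥0∞}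
    (hf : Measurable f) (hi : ∀ γ ∈ Γ, ∀ w, f (γ • w) = f w) :
    ∫⁻ w in F ∩ orb Γ A, f w ≤ ∫⁻ w in A, f w := by
  have := H.countable
  have _ := hA
  have _ := hf
  rw [B2_un, B2_lint H A hi]
  exact lintegral_iUnion_le _ _
theorem Closed.lint_emb (H : Closed Γ F) (hA : MeasurableSet A) (he : Emb Γ A) {f : ℍ → ℝ≥0∞}
    (hf : Measurable f) (hi : ∀ γ ∈ Γ, ∀ w, f (γ • w) = f w) :
    ∫⁻ w in F ∩ orb Γ A, f w = ∫⁻ w in A, f w := by
  have := H.countable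
  have _ := hf
  rw [B2_un, B2_lint H A hi]
  exact lintegral_iUnion (B2_ms H hA) (B2_dj he F) _
theorem Closed.vol_orb (H : Closed Γ F) (hA : MeasurableSet A) :
    volume (F ∩ orb Γ A) ≤ volume A := by
  simpa only [setLIntegral_one] using
    H.lint_orb hA (f := fun _ => 1) measurable_const fun _ _ _ => rfl
theorem Closed.int_emb (H : Closed Γ F) (hA : IsOpen A) (he : Emb Γ A) (hh : Continuous h)
    (hi : Inv Γ h) : IntegrableOn h A ∧ ∫ w in F ∩ orb Γ A, h w = ∫ w in A, h w := by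
  have := H.countable
  have := B2_inv Γ
  have := B2_meas Γ
  have hI := (H.integrableOn hh).mono_set (inter_subset_left (t := orb Γ A))
  have h1 : IntegrableOn h A := ⟨hh.aestronglyMeasurable, by
    rw [hasFiniteIntegral_iff_enorm, ← H.lint_emb hA.measurableSet he hh.enorm.measurable
      fun γ hγ w => by rw [hi γ hγ w]]
    exact hI.2⟩
  refine ⟨h1, ?_⟩
  rw [B2_un] at hI ⊢
  rw [integral_iUnion (B2_ms H hA.measurableSet) (B2_dj he F) hI, H.fund.setIntegral_eq_tsum' h1]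
  exact tsum_congr fun g => integral_congr_ae (Eventually.of_forall fun x => (hi _ (g⁻¹).2 x).symm)
theorem Closed.int_emb_le (H : Closed Γ F) (hA : IsOpen A) (he : Emb Γ A) (hh : Continuous h)
    (hi : Inv Γ h) (hp : ∀ w, 0 ≤ h w) : ∫ w in A, h w ≤ ∫ w in F, h w := by
  rw [← (H.int_emb hA he hh hi).2]
  exact setIntegral_mono_set (H.integrableOn hh) (Eventually.of_forall hp)
    inter_subset_left.eventuallyLE

variable {X : Sf} {u v u' : ℍ → ℝ}

theorem Sf.Q_comm (X : Sf) (u v : ℍ → ℝ) : X.Q u v = X.Q v u := by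
  simp only [Sf.Q, en_comm u v, mul_comm (u _)]
theorem Sf.Ok.Q_eq (H : X.Ok) (hu : Sm u) (hv : Sm v) :
    X.Q u v = (∫ z in X.F, en u v z) - ∫ z in X.F, X.V z * (u z * v z) :=
  integral_sub (H.cl.integrableOn (continuous_en hu hv))
    (H.cl.integrableOn (H.Vm.1.continuous.mul (hu.continuous.mul hv.continuous)))
theorem Sf.Ok.Q_add (H : X.Ok) (hu : Sm u) (hu' : Sm u') (hv : Sm v) :
    X.Q (fun w => u w + u' w) v = X.Q u v + X.Q u' v := by
  have k : ∀ {u : ℍ → ℝ}, Sm u → IntegrableOn (fun z => en u v z - X.V z * (u z * v z)) X.F :=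
    fun hu => H.cl.integrableOn ((continuous_en hu hv).sub
      (H.Vm.1.continuous.mul (hu.continuous.mul hv.continuous)))
  rw [Sf.Q, Sf.Q, Sf.Q, ← integral_add (k hu) (k hu')]
  exact integral_congr_ae (Eventually.of_forall fun z => by
    simp only [en_add hu hu']; ring)
theorem Sf.Q_smul (X : Sf) (c : ℝ) (hu : Sm u) (v : ℍ → ℝ) :
    X.Q (fun w => c * u w) v = c * X.Q u v := by
  rw [Sf.Q, Sf.Q, ← integral_const_mul]
  exact integral_congr_ae (Eventually.of_forall fun z => by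
    simp only [en_smul c hu]; ring)
theorem Sf.Psd.mono (hB : X.Psd B) (h : A ⊆ B) : X.Psd A := fun u hu hs => hB u hu (hs.trans h)
theorem B2_zero (X : Sf) (h : Disjoint (tsupport u) (tsupport v)) : X.Q u v = 0 := by
  refine setIntegral_eq_zero_of_forall_eq_zero fun z _ => ?_
  by_cases hz : z ∈ tsupport u
  · have h1 := disjoint_left.1 h hz
    rw [en_comm, en_eq_zero h1, image_eq_zero_of_notMem_tsupport h1]; ring
  · rw [en_eq_zero hz, image_eq_zero_of_notMem_tsupport hz]; ring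
theorem Sf.psd_empty (X : Sf) : X.Psd ∅ := fun _ _ hs =>
  (B2_zero X (disjoint_left.2 fun _ h _ => hs h)).ge
theorem B2_Vpos (H : X.Ok) : 0 < ∫ z in X.F, X.V z :=
  (integral_nonneg fun z => (H.Vp z).le).lt_of_ne' fun h0 =>
    (H.Vp I).ne' (H.cl.eq_zero H.Vm.1.continuous H.Vm.2 (fun z => (H.Vp z).le) h0 I)
theorem Sf.Ok.not_psd_univ (H : X.Ok) : ¬ X.Psd univ := fun h => by
  have h1 := h _ (SI_const X.Γ 1) (subset_univ _)
  simp only [Sf.Q, en_const, mul_one, zero_sub, integral_neg] at h1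
  linarith [B2_Vpos H]
/-- index one -/
theorem Sf.Ok.two (H : X.Ok) (h : Disjoint A B) : X.Psd A ∨ X.Psd B := by
  by_contra hc
  simp only [Sf.Psd, not_or, not_forall, not_le] at hc
  obtain ⟨⟨u, hu, su, qu⟩, v, hv, sv, qv⟩ := hc
  have h0 : X.Q u v = 0 := B2_zero X (h.mono su sv)
  set p := ∫ z in X.F, u z * X.V z with hp
  set q := ∫ z in X.F, v z * X.V z with hq
  have hp0 : p ≠ 0 := fun e => (H.ray u hu e).not_gt qu
  have s1 : Sm fun w => q * u w := (Sm.const q).mul hu.1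
  have s2 : Sm fun w => -p * v w := (Sm.const (-p)).mul hv.1
  have hm : (fun w => q * u w + -p * v w) ∈ SI X.Γ :=
    ⟨s1.add s2, fun γ hγ z => by simp only [hu.2 γ hγ z, hv.2 γ hγ z]⟩
  have h1 := H.ray _ hm (by
    simp only [add_mul, mul_assoc]
    rw [integral_add, integral_const_mul, integral_const_mul, ← hp, ← hq]
    · ring
    · exact H.cl.integrableOn (continuous_const.mul (hu.1.continuous.mul H.Vm.1.continuous))
    · exact H.cl.integrableOn (continuous_const.mul (hv.1.continuous.mul H.Vm.1.continuous)))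
  rw [H.Q_add s1 s2 hm.1, X.Q_smul q hu.1, X.Q_smul (-p) hv.1, X.Q_comm u, X.Q_comm v,
    H.Q_add s1 s2 hu.1, H.Q_add s1 s2 hv.1, X.Q_smul q hu.1, X.Q_smul q hu.1, X.Q_smul (-p) hv.1,
    X.Q_smul (-p) hv.1, X.Q_comm v u, h0] at h1
  nlinarith [mul_nonneg (sq_nonneg q) (neg_pos.2 qu).le,
    mul_pos (sq_pos_of_ne_zero hp0) (neg_pos.2 qv)]
theorem Sf.Ok.psd_iUnion (H : X.Ok) {O : ℕ → Set ℍ} (hm : Monotone O) (ho : ∀ k, IsOpen (O k))
    (hi : ∀ k, InvS X.Γ (O k)) (hp : ∀ k, X.Psd (O k)) : X.Psd (⋃ k, O k) := fun u hu hs => by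
  obtain ⟨k, hk⟩ := (H.cl.cpt.inter_right (isClosed_tsupport u)).elim_directed_cover O ho
    (inter_subset_right.trans hs) hm.directed_le
  refine hp k u hu fun w hw => ?_
  obtain ⟨γ, h1, h2⟩ := H.cl.cov w
  exact ((hi k).iff h1).1 (hk ⟨h2, invS_tsupport hu.2 γ h1 w hw⟩)

end Pool.Agent.MP_4f0ed6_gt.U

end

section

set_option autoImplicit false
set_option linter.dupNamespace false

open UpperHalfPlane MeasureTheory Set Metric Filter Topology
open scoped MatrixGroups ContDiff InnerProductSpace ENNReal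

namespace Pool.Agent.MP_4f0ed6_gt.U

variable {z w : ℍ} {s t : ℝ} {y : ℂ} {u v f : ℍ → ℝ} {η : ℂ → ℝ}

theorem B4a_r (z : ℍ) (h0 : 0 < s) : 0 < s * z.im := mul_pos h0 z.im_pos

theorem B4a_im {x : ℂ} {a : ℝ} (h : ‖x - (z : ℂ)‖ ≤ a) : z.im - a ≤ x.im ∧ x.im ≤ z.im + a := by
  have h1 := (Complex.abs_im_le_norm (x - (z : ℂ))).trans h
  rw [Complex.sub_im, coe_im, abs_le] at h1
  constructor <;> linarith [h1.1, h1.2]

theorem B4a_norm (z : ℍ) (h0 : 0 < s) (y : ℂ) :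
    ‖(z : ℂ) + ((s * z.im : ℝ) : ℂ) * y - (z : ℂ)‖ = ‖y‖ * (s * z.im) := by
  rw [add_sub_cancel_left, norm_mul, Complex.norm_real, Real.norm_eq_abs,
    abs_of_pos (B4a_r z h0), mul_comm]

theorem B4a_pos (h0 : 0 < s) (h1 : s ≤ 1 / 40) (hy : ‖y‖ < 40) :
    0 < ((z : ℂ) + ((s * z.im : ℝ) : ℂ) * y).im := by
  have h2 := (B4a_im (B4a_norm z h0 y).le).1
  have h3 : ‖y‖ * (s * z.im) < 40 * (s * z.im) := mul_lt_mul_of_pos_right hy (B4a_r z h0)
  have h4 : s * z.im ≤ 1 / 40 * z.im := mul_le_mul_of_nonneg_right h1 z.im_pos.le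
  linarith

theorem ch_coe (h0 : 0 < s) (h1 : s ≤ 1 / 40) (hy : ‖y‖ < 40) :
    (ch z s y : ℂ) = (z : ℂ) + ((s * z.im : ℝ) : ℂ) * y := by
  unfold ch
  rw [ofComplex_apply_of_im_pos (B4a_pos h0 h1 hy)]

theorem ch_zero (z : ℍ) (s : ℝ) : ch z s 0 = z := by
  unfold ch
  rw [mul_zero, add_zero, ofComplex_apply]

theorem ch_mem_Dk (h0 : 0 < s) (h1 : s ≤ 1 / 40) (ht : t ≤ 40) (hy : ‖y‖ < t) :
    ch z s y ∈ Dk z s t := by
  show ‖(ch z s y : ℂ) - (z : ℂ)‖ < t * (s * z.im)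
  rw [ch_coe h0 h1 (hy.trans_le ht), B4a_norm z h0]
  exact mul_lt_mul_of_pos_right hy (B4a_r z h0)

theorem B4a_div (h0 : 0 < s) (hw : w ∈ Dk z s t) :
    ‖((w : ℂ) - (z : ℂ)) / ((s * z.im : ℝ) : ℂ)‖ < t := by
  rw [norm_div, Complex.norm_real, Real.norm_eq_abs, abs_of_pos (B4a_r z h0),
    div_lt_iff₀ (B4a_r z h0)]
  exact hw

theorem exists_ch (h0 : 0 < s) (hw : w ∈ Dk z s t) : ∃ y, ‖y‖ < t ∧ ch z s y = w := by
  refine ⟨((w : ℂ) - (z : ℂ)) / ((s * z.im : ℝ) : ℂ), B4a_div h0 hw, ?_⟩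
  have h : ((s * z.im : ℝ) : ℂ) ≠ 0 := Complex.ofReal_ne_zero.2 (B4a_r z h0).ne'
  unfold ch
  rw [mul_div_cancel₀ _ h, add_sub_cancel, ofComplex_apply]

theorem isOpen_Dk (z : ℍ) (s t : ℝ) : IsOpen (Dk z s t) :=
  isOpen_lt (by fun_prop) continuous_const

theorem Dk_mono (h0 : 0 < s) {t' : ℝ} (h : t ≤ t') : Dk z s t ⊆ Dk z s t' := fun _ hw =>
  lt_of_lt_of_le hw (mul_le_mul_of_nonneg_right h (B4a_r z h0).le)

theorem self_mem_Dk (h0 : 0 < s) (ht : 0 < t) : z ∈ Dk z s t := by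
  show ‖(z : ℂ) - (z : ℂ)‖ < t * (s * z.im)
  rw [sub_self, norm_zero]
  exact mul_pos ht (B4a_r z h0)

theorem im_Dk (h0 : 0 < s) (h1 : s ≤ 1 / 40) (hw : w ∈ Dk z s 20) :
    z.im / 2 ≤ w.im ∧ w.im ≤ 3 * z.im / 2 := by
  have _ := h0
  have h2 := B4a_im (le_of_lt hw)
  have h4 : s * z.im ≤ 1 / 40 * z.im := mul_le_mul_of_nonneg_right h1 z.im_pos.le
  rw [coe_im] at h2
  constructor <;> linarith [h2.1, h2.2]

theorem Dk_subset_ball (h0 : 0 < s) (h1 : s ≤ 1 / 40) (ht : t ≤ 20) :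
    Dk z s t ⊆ ball z (2 * t * s) := by
  intro w hw
  have h2 := (im_Dk h0 h1 (Dk_mono h0 ht hw)).1
  have hz := z.im_pos
  have h3 : z.im / 2 ≤ √(w.im * z.im) := by
    refine Real.le_sqrt_of_sq_le ?_
    nlinarith
  have h4 : dist (w : ℂ) z < t * (s * z.im) := by rw [dist_eq_norm]; exact hw
  rw [mem_ball]
  refine (dist_le_dist_coe_div_sqrt w z).trans_lt ?_
  refine (div_le_div_of_nonneg_left dist_nonneg (by positivity) h3).trans_lt ?_
  rw [div_lt_iff₀ (by positivity)]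
  linarith

theorem ball_subset_Dk (h0 : 0 < s) (h1 : s ≤ 1 / 40) (ht : t ≤ 20) :
    ball z (t * s / 2) ⊆ Dk z s t := by
  intro w hw
  rw [mem_ball] at hw
  have h2 : t * s ≤ 20 * s := mul_le_mul_of_nonneg_right ht h0.le
  have h3 : |dist w z| ≤ 1 := by rw [abs_of_nonneg dist_nonneg]; linarith
  have h4 := (le_abs_self _).trans (Real.abs_exp_sub_one_le h3)
  rw [abs_of_nonneg dist_nonneg] at h4
  show ‖(w : ℂ) - (z : ℂ)‖ < t * (s * z.im)
  rw [← dist_eq_norm]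
  refine (dist_coe_le w z).trans_lt ?_
  have h5 : Real.exp (dist w z) - 1 < t * s := by linarith
  have := mul_lt_mul_of_pos_left h5 z.im_pos
  linarith

theorem B4a_cpt (h0 : 0 < s) (h1 : s ≤ 1 / 40) (ht : t ≤ 20) :
    IsCompact {w : ℍ | ‖(w : ℂ) - (z : ℂ)‖ ≤ t * (s * z.im)} := by
  have e : {w : ℍ | ‖(w : ℂ) - (z : ℂ)‖ ≤ t * (s * z.im)} =
      UpperHalfPlane.coe ⁻¹' closedBall (z : ℂ) (t * (s * z.im)) := by
    ext w
    simp only [mem_ofPred_eq, mem_preimage, mem_closedBall, dist_eq_norm]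
  rw [e]
  refine isOpenEmbedding_coe.isInducing.isCompact_preimage' (isCompact_closedBall _ _) ?_
  intro x hx
  rw [mem_closedBall, dist_eq_norm] at hx
  have h2 := (B4a_im hx).1
  have h3 : t * (s * z.im) ≤ 20 * (s * z.im) := mul_le_mul_of_nonneg_right ht (B4a_r z h0).le
  have h4 : s * z.im ≤ 1 / 40 * z.im := mul_le_mul_of_nonneg_right h1 z.im_pos.le
  have h5 : 0 < x.im := by linarith [z.im_pos]
  exact ⟨⟨x, h5⟩, rfl⟩

theorem B4a_sub (z : ℍ) (s t : ℝ) :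
    Dk z s t ⊆ {w : ℍ | ‖(w : ℂ) - (z : ℂ)‖ ≤ t * (s * z.im)} := fun w hw =>
  show ‖(w : ℂ) - (z : ℂ)‖ ≤ t * (s * z.im) from le_of_lt hw

theorem Dk_cpt (h0 : 0 < s) (h1 : s ≤ 1 / 40) {t' : ℝ} (h : t < t') (ht : t' ≤ 20) :
    ∃ A : Set ℍ, IsCompact A ∧ Dk z s t ⊆ A ∧ A ⊆ Dk z s t' :=
  ⟨_, B4a_cpt h0 h1 (h.le.trans ht), B4a_sub z s t,
    fun _ hw => lt_of_le_of_lt hw (mul_lt_mul_of_pos_right h (B4a_r z h0))⟩

theorem integrableOn_Dk (h0 : 0 < s) (h1 : s ≤ 1 / 40) (ht : t ≤ 20) (hf : Continuous f) :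
    IntegrableOn f (Dk z s t) :=
  (hf.continuousOn.integrableOn_compact (B4a_cpt (z := z) h0 h1 ht)).mono_set
    (B4a_sub z s t)

theorem continuousOn_ch (h0 : 0 < s) (h1 : s ≤ 1 / 40) :
    ContinuousOn (ch z s) (ball 0 40) := by
  rw [isOpenEmbedding_coe.isInducing.continuousOn_iff]
  refine ContinuousOn.congr (f := fun y => (z : ℂ) + ((s * z.im : ℝ) : ℂ) * y) (by fun_prop) ?_
  intro y hy
  exact ch_coe h0 h1 (by simpa using hy)

theorem integrableOn_ch (h0 : 0 < s) (h1 : s ≤ 1 / 40) (ht : t ≤ 20) (hf : Continuous f) :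
    IntegrableOn (fun y => f (ch z s y)) (ball 0 t) := by
  have h2 : ContinuousOn (fun y => f (ch z s y)) (closedBall 0 20) :=
    hf.comp_continuousOn ((continuousOn_ch h0 h1).mono (closedBall_subset_ball (by norm_num)))
  exact (h2.integrableOn_compact (isCompact_closedBall _ _)).mono_set
    (ball_subset_closedBall.trans (closedBall_subset_closedBall ht))

theorem memLp_ch (h0 : 0 < s) (h1 : s ≤ 1 / 40) (hf : Continuous f) :
    MemLp (fun y => f (ch z s y)) 2 mu :=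
  memLp_mu' (hf.comp_continuousOn
    ((continuousOn_ch h0 h1).mono (closedBall_subset_ball (by norm_num))))

theorem Sm.contDiffAt_ch (hu : Sm u) (h0 : 0 < s) (h1 : s ≤ 1 / 40) (hy : ‖y‖ < 40) :
    ContDiffAt ℝ ∞ (fun y => u (ch z s y)) y := by
  have h2 := hu.contDiffAt (ch z s y)
  rw [ch_coe h0 h1 hy] at h2
  have h3 : ContDiffAt ℝ ∞ (fun y : ℂ => (z : ℂ) + ((s * z.im : ℝ) : ℂ) * y) y := by fun_prop
  exact ContDiffAt.comp (g := lift u) y h2 h3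

theorem Sm.exists_glob (hu : Sm u) (h0 : 0 < s) (h1 : s ≤ 1 / 40) : ∃ g : ℂ → ℝ,
    ContDiff ℝ ∞ g ∧ (∀ y, ‖y‖ < 20 → g =ᶠ[𝓝 y] fun y => u (ch z s y)) ∧
    ((∀ w, 0 ≤ u w) → ∀ y, 0 ≤ g y) := by
  obtain ⟨ζ, hζ, z0, -, z1, zs, -⟩ := exists_cut (a := 25) (b := 30) (by norm_num) (by norm_num)
  refine ⟨fun y => ζ y * u (ch z s y), contDiff_iff_contDiffAt.2 fun y => ?_, fun y hy => ?_,
    fun hp y => mul_nonneg (z0 y) (hp _)⟩
  · by_cases hy : ‖y‖ < 40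
    · exact hζ.contDiffAt.mul (hu.contDiffAt_ch h0 h1 hy)
    · have h2 : y ∉ tsupport ζ := fun h => hy (by
        have := zs h
        rw [mem_ball_zero_iff] at this
        linarith)
      refine (contDiffAt_const (c := (0 : ℝ))).congr_of_eventuallyEq ?_
      filter_upwards [notMem_tsupport_iff_eventuallyEq.1 h2] with x hx
      rw [hx, Pi.zero_apply, zero_mul]
  · have h2 : ball (0 : ℂ) 20 ∈ 𝓝 y := isOpen_ball.mem_nhds (mem_ball_zero_iff.2 hy)
    filter_upwards [h2] with x hx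
    rw [mem_ball_zero_iff] at hx
    rw [z1 x (by linarith), one_mul]

theorem Sm.memLp_dx (hu : Sm u) (h0 : 0 < s) (h1 : s ≤ 1 / 40) :
    MemLp (dx fun y => u (ch z s y)) 2 mu ∧ MemLp (dy fun y => u (ch z s y)) 2 mu := by
  obtain ⟨g, hg, he, -⟩ := hu.exists_glob (z := z) h0 h1
  have h2 : ∀ y ∈ closedBall (0 : ℂ) 16, ‖y‖ < 20 := fun y hy => by
    rw [mem_closedBall_zero_iff] at hy
    linarith
  exact ⟨memLp_mu' ((contDiff_dx hg).continuous.continuousOn.congr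
      fun y hy => (dx_congr (he y (h2 y hy))).symm),
    memLp_mu' ((contDiff_dy hg).continuous.continuousOn.congr
      fun y hy => (dy_congr (he y (h2 y hy))).symm)⟩

theorem push_sm (hη : ContDiff ℝ ∞ η) (z : ℍ) (s : ℝ) : Sm (push z s η) := by
  have h : ContDiff ℝ ∞ fun x : ℂ => η ((x - (z : ℂ)) / ((s * z.im : ℝ) : ℂ)) :=
    hη.comp ((contDiff_id.sub contDiff_const).div_const _)
  exact Sm.of_coe h.contDiffOn

theorem push_ch (h0 : 0 < s) (h1 : s ≤ 1 / 40) (hy : ‖y‖ < 40) :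
    push z s η (ch z s y) = η y := by
  have h : ((s * z.im : ℝ) : ℂ) ≠ 0 := Complex.ofReal_ne_zero.2 (B4a_r z h0).ne'
  unfold push
  rw [ch_coe h0 h1 hy, add_sub_cancel_left, mul_div_cancel_left₀ _ h]

theorem push_ch' (h0 : 0 < s) (h1 : s ≤ 1 / 40) (hy : ‖y‖ < 40) :
    (fun y => push z s η (ch z s y)) =ᶠ[𝓝 y] η := by
  have h2 : ball (0 : ℂ) 40 ∈ 𝓝 y := isOpen_ball.mem_nhds (mem_ball_zero_iff.2 hy)
  filter_upwards [h2] with x hx
  exact push_ch h0 h1 (mem_ball_zero_iff.1 hx)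

theorem push_supp (h0 : 0 < s) (h1 : s ≤ 1 / 40) (ht : t ≤ 20) (hη : tsupport η ⊆ ball 0 t) :
    tsupport (push z s η) ⊆ Dk z s t ∧ HasCompactSupport (push z s η) := by
  have hc : Continuous fun w : ℍ => ((w : ℂ) - (z : ℂ)) / ((s * z.im : ℝ) : ℂ) := by fun_prop
  have h2 : tsupport (push z s η) ⊆
      (fun w : ℍ => ((w : ℂ) - (z : ℂ)) / ((s * z.im : ℝ) : ℂ)) ⁻¹' tsupport η :=
    closure_minimal (fun w hw => subset_tsupport η hw) ((isClosed_tsupport η).preimage hc)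
  have h3 : tsupport (push z s η) ⊆ Dk z s t := by
    intro w hw
    have h4 := hη (h2 hw)
    rw [mem_ball_zero_iff, norm_div, Complex.norm_real, Real.norm_eq_abs,
      abs_of_pos (B4a_r z h0), div_lt_iff₀ (B4a_r z h0)] at h4
    exact h4
  exact ⟨h3, (B4a_cpt (z := z) h0 h1 ht).of_isClosed_subset (isClosed_tsupport _)
    (h3.trans (B4a_sub z s t))⟩

end Pool.Agent.MP_4f0ed6_gt.U

end

section

set_option autoImplicit false
set_option linter.dupNamespace false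

open UpperHalfPlane MeasureTheory Set Metric Filter Topology
open scoped MatrixGroups ContDiff InnerProductSpace ENNReal

namespace Pool.Agent.MP_4f0ed6_gt.U

variable {z w : ℍ} {s t : ℝ} {y : ℂ} {u v f : ℍ → ℝ} {η : ℂ → ℝ}

theorem integral_coe (f : ℍ → ℝ) :
    ∫ w, f w = ∫ y in {y : ℂ | 0 < y.im}, lift f y / y.im ^ 2 := by
  have hm : Measurable fun z : ℍ => ((1 / NNReal.mk z.im z.im_pos.le : NNReal) ^ 2) := by
    refine Continuous.measurable (.pow (.div₀ continuous_const ?_ ?_) _)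
    · exact continuous_im.subtype_mk _
    · exact fun x => NNReal.ne_iff.mp x.im_ne_zero
  have e : {y : ℂ | 0 < y.im} = range UpperHalfPlane.coe := range_coe.symm
  rw [e, ← measurableEmbedding_coe.map_comap, measurableEmbedding_coe.integral_map, volume_def,
    integral_withDensity_eq_integral_smul hm]
  refine integral_congr_ae (Eventually.of_forall fun w => ?_)
  simp only [lift_coe, NNReal.smul_def, smul_eq_mul, coe_im]
  push_cast
  field_simp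

theorem B4_set {A : Set ℍ} {B : Set ℂ} (hA : MeasurableSet A) (hB : MeasurableSet B)
    (h : UpperHalfPlane.coe '' A = B) (f : ℍ → ℝ) :
    ∫ w in A, f w = ∫ y in B, lift f y / y.im ^ 2 := by
  have hU : MeasurableSet {y : ℂ | 0 < y.im} := (isOpen_lt continuous_const Complex.continuous_im).measurableSet
  have hs : B ⊆ {y : ℂ | 0 < y.im} := by
    rw [← h]
    rintro _ ⟨w, -, rfl⟩
    exact w.im_pos
  rw [← integral_indicator hA, integral_coe, ← inter_eq_self_of_subset_right hs,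
    ← setIntegral_indicator hB]
  refine setIntegral_congr_fun hU fun y hy => ?_
  have e : y = ((⟨y, hy⟩ : ℍ) : ℂ) := rfl
  generalize (⟨y, hy⟩ : ℍ) = w at e
  subst e
  simp only [lift_coe]
  by_cases hw : w ∈ A
  · rw [indicator_of_mem hw, indicator_of_mem (h ▸ mem_image_of_mem _ hw), lift_coe]
  · have : (w : ℂ) ∉ B := by
      rw [← h]
      rintro ⟨w', h1, h2⟩
      exact hw (UpperHalfPlane.ext h2 ▸ h1)
    rw [indicator_of_notMem hw, indicator_of_notMem this, zero_div]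

theorem B4_img (h0 : 0 < s) (h1 : s ≤ 1 / 40) (ht : t ≤ 20) :
    UpperHalfPlane.coe '' Dk z s t = ball (z : ℂ) (t * (s * z.im)) := by
  ext x
  rw [mem_ball, dist_eq_norm]
  constructor
  · rintro ⟨w, hw, rfl⟩
    exact hw
  · intro hx
    have h2 := (B4a_im hx.le).1
    have h3 : t * (s * z.im) ≤ 20 * (s * z.im) := mul_le_mul_of_nonneg_right ht (B4a_r z h0).le
    have h4 : s * z.im ≤ 1 / 40 * z.im := mul_le_mul_of_nonneg_right h1 z.im_pos.le
    have h5 : 0 < x.im := by linarith [z.im_pos]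
    exact ⟨⟨x, h5⟩, hx, rfl⟩

theorem integral_Dk (h0 : 0 < s) (h1 : s ≤ 1 / 40) (ht : t ≤ 20) (f : ℍ → ℝ) :
    ∫ w in Dk z s t, f w =
      ∫ y in ball (0 : ℂ) t, (s * z.im) ^ 2 / (ch z s y).im ^ 2 * f (ch z s y) := by
  rw [B4_set (isOpen_Dk z s t).measurableSet measurableSet_ball (B4_img h0 h1 ht),
    setIntegral_affine _ (B4a_r z h0), ← integral_const_mul]
  refine setIntegral_congr_fun measurableSet_ball fun y hy => ?_
  have hy' : ‖y‖ < 40 := by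
    rw [mem_ball_zero_iff] at hy
    linarith
  have e : (ch z s y).im = ((z : ℂ) + ((s * z.im : ℝ) : ℂ) * y).im := by
    rw [← ch_coe h0 h1 hy', coe_im]
  show (s * z.im) ^ 2 * (f (ch z s y) / ((z : ℂ) + ((s * z.im : ℝ) : ℂ) * y).im ^ 2) = _
  rw [← e]
  ring

theorem jac_bd (h0 : 0 < s) (h1 : s ≤ 1 / 40) (hy : ‖y‖ < 20) :
    4 * s ^ 2 / 9 ≤ (s * z.im) ^ 2 / (ch z s y).im ^ 2 ∧
      (s * z.im) ^ 2 / (ch z s y).im ^ 2 ≤ 4 * s ^ 2 := by
  obtain ⟨a, b⟩ := im_Dk h0 h1 (ch_mem_Dk (z := z) h0 h1 (by norm_num) hy)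
  have hp := (ch z s y).im_pos
  have hz := z.im_pos
  generalize (ch z s y).im = p at *
  have hs : 0 < s ^ 2 := by positivity
  constructor
  · rw [le_div_iff₀ (by positivity), mul_pow]
    have : p ^ 2 ≤ (3 * z.im / 2) ^ 2 := by gcongr
    nlinarith
  · rw [div_le_iff₀ (by positivity), mul_pow]
    have : (z.im / 2) ^ 2 ≤ p ^ 2 := by gcongr
    nlinarith

theorem B4_int (h0 : 0 < s) (h1 : s ≤ 1 / 40) (ht : t ≤ 20) (hf : Continuous f) :
    IntegrableOn (fun y => (s * z.im) ^ 2 / (ch z s y).im ^ 2 * f (ch z s y)) (ball 0 t) := by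
  have hc : Continuous fun w : ℍ => (s * z.im) ^ 2 / w.im ^ 2 * f w :=
    (continuous_const.div (continuous_im.pow 2) fun w => pow_ne_zero 2 w.im_ne_zero).mul hf
  exact integrableOn_ch h0 h1 ht hc

theorem integral_Dk_le (h0 : 0 < s) (h1 : s ≤ 1 / 40) (ht : t ≤ 20) (hf : Continuous f)
    (hp : ∀ w, 0 ≤ f w) :
    ∫ w in Dk z s t, f w ≤ 4 * s ^ 2 * ∫ y in ball (0 : ℂ) t, f (ch z s y) := by
  rw [integral_Dk h0 h1 ht, ← integral_const_mul]
  refine setIntegral_mono_on (B4_int h0 h1 ht hf) ((integrableOn_ch h0 h1 ht hf).const_mul _)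
    measurableSet_ball fun y hy => ?_
  exact mul_le_mul_of_nonneg_right
    (jac_bd h0 h1 ((mem_ball_zero_iff.1 hy).trans_le ht)).2 (hp _)

theorem le_integral_Dk (h0 : 0 < s) (h1 : s ≤ 1 / 40) (ht : t ≤ 20) (hf : Continuous f)
    (hp : ∀ w, 0 ≤ f w) :
    4 * s ^ 2 / 9 * ∫ y in ball (0 : ℂ) t, f (ch z s y) ≤ ∫ w in Dk z s t, f w := by
  rw [integral_Dk h0 h1 ht, ← integral_const_mul]
  refine setIntegral_mono_on ((integrableOn_ch h0 h1 ht hf).const_mul _) (B4_int h0 h1 ht hf)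
    measurableSet_ball fun y hy => ?_
  exact mul_le_mul_of_nonneg_right
    (jac_bd h0 h1 ((mem_ball_zero_iff.1 hy).trans_le ht)).1 (hp _)

theorem B4_d (h0 : 0 < s) (h1 : s ≤ 1 / 40) (hy : ‖y‖ < 40) (hu : Sm u) :
    dx (fun y => u (ch z s y)) y = (s * z.im) * dx (lift u) (ch z s y) ∧
      dy (fun y => u (ch z s y)) y = (s * z.im) * dy (lift u) (ch z s y) := by
  have h2 := (hu.contDiffAt (ch z s y)).differentiableAt (by simp)
  rw [ch_coe h0 h1 hy] at h2 ⊢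
  exact ⟨dx_affine _ _ h2, dy_affine _ _ h2⟩

theorem en_ch (h0 : 0 < s) (h1 : s ≤ 1 / 40) (hy : ‖y‖ < 40) (hu : Sm u) (hv : Sm v) :
    (s * z.im) ^ 2 / (ch z s y).im ^ 2 * en u v (ch z s y) =
      dx (fun y => u (ch z s y)) y * dx (fun y => v (ch z s y)) y +
      dy (fun y => u (ch z s y)) y * dy (fun y => v (ch z s y)) y := by
  rw [(B4_d h0 h1 hy hu).1, (B4_d h0 h1 hy hu).2, (B4_d h0 h1 hy hv).1, (B4_d h0 h1 hy hv).2,
    en_eq]
  have := (ch z s y).im_ne_zero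
  field_simp

theorem integral_en_Dk (h0 : 0 < s) (h1 : s ≤ 1 / 40) (ht : t ≤ 20) (hu : Sm u) (hv : Sm v) :
    ∫ w in Dk z s t, en u v w = ∫ y in ball (0 : ℂ) t,
      (dx (fun y => u (ch z s y)) y * dx (fun y => v (ch z s y)) y +
      dy (fun y => u (ch z s y)) y * dy (fun y => v (ch z s y)) y) := by
  rw [integral_Dk h0 h1 ht]
  refine setIntegral_congr_fun measurableSet_ball fun y hy => ?_
  rw [mem_ball_zero_iff] at hy
  exact en_ch h0 h1 (by linarith) hu hv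

theorem B4_sinh {x : ℝ} (h0 : 0 ≤ x) : Real.sinh x ≤ x * Real.cosh x := by
  have hd : ∀ a : ℝ, HasDerivAt (fun a => a * Real.cosh a - Real.sinh a) (a * Real.sinh a) a := by
    intro a
    have := ((hasDerivAt_id a).mul (Real.hasDerivAt_cosh a)).sub (Real.hasDerivAt_sinh a)
    refine this.congr_deriv ?_
    simp
  have hm : MonotoneOn (fun a => a * Real.cosh a - Real.sinh a) (Ici 0) := by
    refine monotoneOn_of_deriv_nonneg (convex_Ici 0) (by fun_prop)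
      (fun a _ => (hd a).differentiableAt.differentiableWithinAt) fun a ha => ?_
    rw [interior_Ici] at ha
    rw [(hd a).deriv]
    exact mul_nonneg (le_of_lt ha) (Real.sinh_nonneg_iff.2 (le_of_lt ha))
  have := hm (self_mem_Ici) h0 h0
  simp only [zero_mul, Real.sinh_zero, sub_zero] at this
  linarith

theorem B4_cosh {x : ℝ} (h0 : 0 ≤ x) : Real.cosh x ≤ Real.exp x := by
  rw [← Real.cosh_add_sinh]
  linarith [Real.sinh_nonneg_iff.2 h0]

theorem ball_eq_Dk (z : ℍ) {ρ : ℝ} (h0 : 0 < ρ) (h1 : ρ ≤ 1 / 40) : ∃ (z' : ℍ) (s : ℝ),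
    0 < s ∧ s ≤ ρ ∧ ρ / 2 ≤ s ∧ ball z ρ = Dk z' s 1 := by
  have hc := Real.cosh_pos ρ
  have hs : ρ ≤ Real.sinh ρ := Real.self_le_sinh_iff.2 h0.le
  have h2 : Real.cosh ρ ≤ 2 := by
    have h3 : |ρ| ≤ 1 := by rw [abs_of_pos h0]; linarith
    have h4 := (le_abs_self _).trans (Real.abs_exp_sub_one_le h3)
    rw [abs_of_pos h0] at h4
    linarith [B4_cosh h0.le]
  refine ⟨z.center ρ, Real.sinh ρ / Real.cosh ρ, div_pos (h0.trans_le hs) hc, ?_, ?_, ?_⟩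
  · rw [div_le_iff₀ hc]
    exact B4_sinh h0.le
  · rw [le_div_iff₀ hc]
    nlinarith
  · ext w
    rw [mem_ball, dist_lt_iff_dist_coe_center_lt, dist_eq_norm]
    have e : z.im * Real.sinh ρ = 1 * (Real.sinh ρ / Real.cosh ρ * (z.center ρ).im) := by
      rw [center_im]
      field_simp
    rw [e]
    rfl

theorem vol_ball : ∃ c C : ℝ, 0 < c ∧ 0 < C ∧ ∀ (z : ℍ) (ρ : ℝ), 0 < ρ → ρ ≤ 30 →
    c * ρ ^ 2 ≤ volume.real (ball z ρ) ∧ volume.real (ball z ρ) ≤ C * ρ ^ 2 := by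
  have hE := Real.exp_pos 30
  generalize hE' : Real.exp 30 = E at hE
  refine ⟨Real.pi / E ^ 2, Real.pi * E ^ 4, by positivity, by positivity, fun z ρ h0 h1 => ?_⟩
  have hz := z.im_pos
  have hs : ρ ≤ Real.sinh ρ := Real.self_le_sinh_iff.2 h0.le
  have hs' : Real.sinh ρ ≤ ρ * E := (B4_sinh h0.le).trans (mul_le_mul_of_nonneg_left
    ((B4_cosh h0.le).trans (hE' ▸ Real.exp_le_exp.2 h1)) h0.le)
  set B : Set ℂ := ball ((z.center ρ : ℍ) : ℂ) (z.im * Real.sinh ρ) with hB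
  have hv : volume.real (ball z ρ) = ∫ y in B, 1 / y.im ^ 2 := by
    have := B4_set measurableSet_ball measurableSet_ball (image_coe_ball z ρ) (fun _ => (1 : ℝ))
    rw [setIntegral_const, smul_eq_mul, mul_one] at this
    exact this
  have hb : ∀ y ∈ B, 1 / (z.im * E) ^ 2 ≤ 1 / y.im ^ 2 ∧ 1 / y.im ^ 2 ≤ E ^ 2 / z.im ^ 2 := by
    intro y hy
    rw [hB, ← image_coe_ball] at hy
    obtain ⟨w, hw, rfl⟩ := hy
    rw [mem_ball] at hw
    have he : Real.exp (dist w z) ≤ E := hE' ▸ Real.exp_le_exp.2 (hw.le.trans h1)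
    have hw0 := w.im_pos
    have a : w.im ≤ z.im * E :=
      (im_le_im_mul_exp_dist w z).trans (mul_le_mul_of_nonneg_left he hz.le)
    have b : z.im ≤ w.im * E := by
      have := im_le_im_mul_exp_dist z w
      rw [dist_comm] at this
      exact this.trans (mul_le_mul_of_nonneg_left he hw0.le)
    rw [coe_im]
    constructor
    · exact one_div_le_one_div_of_le (by positivity) (by gcongr)
    · rw [div_le_div_iff₀ (by positivity) (by positivity), one_mul, ← mul_pow, mul_comm]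
      gcongr
  have hfin : volume B ≠ ⊤ := measure_ball_lt_top.ne
  have hi : IntegrableOn (fun y : ℂ => 1 / y.im ^ 2) B := by
    refine Measure.integrableOn_of_bounded (M := E ^ 2 / z.im ^ 2) hfin
      (Measurable.aestronglyMeasurable (by fun_prop)) ?_
    filter_upwards [ae_restrict_mem measurableSet_ball] with y hy
    rw [Real.norm_eq_abs, abs_of_nonneg (by positivity)]
    exact (hb y hy).2
  have hr : volume.real B = Real.pi * (z.im * Real.sinh ρ) ^ 2 :=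
    real_ball _ (mul_nonneg hz.le (h0.le.trans hs))
  rw [hv]
  constructor
  · refine le_trans ?_ (setIntegral_mono_on (integrableOn_const hfin) hi measurableSet_ball
      fun y hy => (hb y hy).1)
    rw [setIntegral_const, hr, smul_eq_mul]
    have : ρ ^ 2 ≤ Real.sinh ρ ^ 2 := by gcongr
    calc Real.pi / E ^ 2 * ρ ^ 2 ≤ Real.pi / E ^ 2 * Real.sinh ρ ^ 2 := by gcongr
      _ = _ := by field_simp
  · refine (setIntegral_mono_on hi (integrableOn_const hfin) measurableSet_ball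
      fun y hy => (hb y hy).2).trans ?_
    rw [setIntegral_const, hr, smul_eq_mul]
    have : Real.sinh ρ ^ 2 ≤ (ρ * E) ^ 2 := by
      have := h0.le.trans hs
      gcongr
    calc Real.pi * (z.im * Real.sinh ρ) ^ 2 * (E ^ 2 / z.im ^ 2)
        = Real.pi * E ^ 2 * Real.sinh ρ ^ 2 := by field_simp
      _ ≤ Real.pi * E ^ 2 * (ρ * E) ^ 2 := by gcongr
      _ = _ := by ring

end Pool.Agent.MP_4f0ed6_gt.U

end
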