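import Pool.Agent.Mg.F4f0ed6a.G5bac69

section

set_option autoImplicit false
set_option linter.dupNamespace false

open UpperHalfPlane MeasureTheory Set Metric Filter Topology
open scoped MatrixGroups ContDiff InnerProductSpace ENNReal Classical

namespace Pool.Agent.MP_4f0ed6_gt.U

theorem TSmall_cs {Γ : Subgroup SL(2, ℝ)} {F O : Set ℍ} (H : Closed Γ F) {u : ℍ → ℝ}
    (hu : u ∈ SI Γ) (hs : tsupport u ⊆ O) :
    (∫ w in F, |u w|) ^ 2 ≤ volume.real (F ∩ O) * ∫ w in F, u w ^ 2 := by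
  have hF : MeasurableSet F := H.cpt.isClosed.measurableSet
  have hc : Continuous u := hu.1.continuous
  have h0 : ∀ w ∈ F \ (F ∩ O), u w = 0 := fun w hw =>
    image_eq_zero_of_notMem_tsupport fun c => hw.2 ⟨hw.1, hs c⟩
  have e1 : ∫ w in F, |u w| = ∫ w in F ∩ O, |u w| :=
    setIntegral_eq_of_subset_of_forall_sdiff_eq_zero hF inter_subset_left fun w hw => by
      rw [h0 w hw, abs_zero]
  have e2 : ∫ w in F, u w ^ 2 = ∫ w in F ∩ O, u w ^ 2 :=
    setIntegral_eq_of_subset_of_forall_sdiff_eq_zero hF inter_subset_left fun w hw => by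
      rw [h0 w hw, zero_pow two_ne_zero]
  have : IsFiniteMeasure (volume.restrict (F ∩ O)) :=
    isFiniteMeasure_restrict.2 (ne_top_of_le_ne_top H.vol_ne_top (measure_mono inter_subset_left))
  obtain ⟨M, -, hM⟩ := H.bdd hc hu.2
  have m1 : MemLp (fun w => |u w|) 2 (volume.restrict (F ∩ O)) :=
    MemLp.of_bound hc.abs.aestronglyMeasurable M (ae_of_all _ fun w => by
      rw [Real.norm_eq_abs, abs_abs]
      exact hM w)
  have m2 : MemLp (fun _ : ℍ => (1 : ℝ)) 2 (volume.restrict (F ∩ O)) := memLp_const 1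
  have h1 := integral_cs m1 m2
  simp only [mul_one, sq_abs, one_pow, integral_const, smul_eq_mul, measureReal_restrict_apply_univ]
    at h1
  have h2 : 0 ≤ ∫ w in F ∩ O, u w ^ 2 := integral_nonneg fun w => sq_nonneg _
  rw [e1, e2, ← sq_abs]
  refine (pow_le_pow_left₀ (abs_nonneg _) h1 2).trans_eq ?_
  rw [mul_pow, Real.sq_sqrt h2, Real.sq_sqrt measureReal_nonneg, mul_comm]

theorem stSmall (hPF : StPF) : StSmall := by
  intro X H
  obtain ⟨M, hM0, hM⟩ := H.cl.bdd H.Vm.1.continuous H.Vm.2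
  obtain ⟨C, hC0, hC⟩ := hPF X.Γ X.F H.cl (1 / (2 * M)) (by positivity)
  obtain ⟨c, C', -, hC', hv⟩ := vol_ball
  obtain ⟨ρ, hρ⟩ : ∃ ρ : ℝ, ρ = min 1 (1 / (2 * C * C')) := ⟨_, rfl⟩
  have r0 : 0 < ρ := hρ ▸ lt_min one_pos (by positivity)
  have r1 : ρ ≤ 1 := hρ ▸ min_le_left _ _
  have r2 : ρ * (2 * C * C') ≤ 1 := (le_div_iff₀ (by positivity)).1 (hρ ▸ min_le_right _ _)
  refine ⟨ρ, r0, fun p u hu hs => ?_⟩
  have hc : Continuous u := hu.1.continuous
  have h1 := TSmall_cs H.cl hu hs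
  have h2 : volume.real (X.F ∩ orb X.Γ (ball p ρ)) ≤ C' * ρ ^ 2 :=
    (ENNReal.toReal_mono (ne_top_of_le_ne_top (isCompact_vol (isCompact_closedBall p ρ))
      (measure_mono ball_subset_closedBall)) (H.cl.vol_orb measurableSet_ball)).trans
      (hv p ρ r0 (by linarith)).2
  have h3 : 0 ≤ ∫ w in X.F, u w ^ 2 := integral_nonneg fun w => sq_nonneg _
  have h4 : C * (C' * ρ ^ 2) ≤ 1 / 2 := by
    have h5 : ρ ^ 2 ≤ ρ := by nlinarith
    have h6 : C * C' * ρ ^ 2 ≤ C * C' * ρ := mul_le_mul_of_nonneg_left h5 (by positivity)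
    linarith
  have h5 : C * (∫ w in X.F, |u w|) ^ 2 ≤ 1 / 2 * ∫ w in X.F, u w ^ 2 := by
    refine (mul_le_mul_of_nonneg_left (h1.trans (mul_le_mul_of_nonneg_right h2 h3)) hC0.le).trans ?_
    rw [← mul_assoc]
    exact mul_le_mul_of_nonneg_right h4 h3
  have h6 := hC u hu
  have h7 : M * ∫ w in X.F, u w ^ 2 ≤ ∫ w in X.F, en u u w := by
    have h8 : 1 / 2 * ∫ w in X.F, u w ^ 2 ≤ 1 / (2 * M) * ∫ w in X.F, en u u w := by linarith
    have h9 := mul_le_mul_of_nonneg_left h8 (by positivity : 0 ≤ 2 * M)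
    rw [← mul_assoc, ← mul_assoc, mul_one_div_cancel (by positivity : 2 * M ≠ 0), one_mul] at h9
    linarith
  have h8 : ∫ z in X.F, X.V z * (u z * u z) ≤ M * ∫ w in X.F, u w ^ 2 := by
    rw [← integral_const_mul]
    refine integral_mono (H.cl.integrableOn (H.Vm.1.continuous.mul (hc.mul hc)))
      (H.cl.integrableOn (continuous_const.mul (hc.pow 2))) fun w => ?_
    show X.V w * (u w * u w) ≤ M * u w ^ 2
    rw [sq]
    exact mul_le_mul_of_nonneg_right ((le_abs_self _).trans (hM w)) (mul_self_nonneg _)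
  rw [H.Q_eq hu.1 hu.1]
  linarith

end Pool.Agent.MP_4f0ed6_gt.U

end

section

set_option autoImplicit false
set_option linter.dupNamespace false
set_option linter.unusedVariables false

open UpperHalfPlane MeasureTheory Set Metric Filter Topology
open scoped MatrixGroups ContDiff InnerProductSpace ENNReal Classical

namespace Pool.Agent.MP_4f0ed6_gt.U

theorem stCa (hMk : StMk) (hPack : StPack) (hSmall : StSmall) (hIo : StIo) : StCa := by
  intro e he he2
  obtain ⟨Δ0, hMk⟩ := hMk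
  obtain ⟨M0, hM0, hP⟩ := hPack
  refine ⟨Δ0 + (⌈M0 * 161 ^ 2⌉₊ + 1), M0 * 161 ^ 2, by positivity, fun X hX hbad => ?_⟩
  obtain ⟨ρ0, hρ0, hS⟩ := hSmall X hX
  obtain ⟨-, hle, hlip, hinv, -, -, hemb⟩ := hIo X.Γ X.F hX.cl e he
  set B : Set ℝ :=
    {ρ | ∃ p : ℍ, 0 < ρ ∧ ρ ≤ io X.Γ e p / 10 ∧ ¬ X.Psd (orb X.Γ (ball p ρ))} with hB
  have hne : B.Nonempty := by
    obtain ⟨p, ρ, h⟩ := hbad
    exact ⟨ρ, p, h⟩
  have hlb : ∀ ρ ∈ B, ρ0 ≤ ρ := by
    rintro ρ ⟨p, -, -, h⟩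
    by_contra c
    exact h ((hS p).mono (orb_mono (ball_subset_ball (not_le.1 c).le)))
  have hinf : ρ0 ≤ sInf B := le_csInf hne hlb
  obtain ⟨ρ, ⟨p, hρ, hρi, hnp⟩, hlt⟩ :=
    exists_lt_of_csInf_lt hne (show sInf B < 2 * sInf B by linarith)
  have hρe : ρ ≤ 1 / 20 := by linarith [hle p]
  have hio : ∀ w ∈ orb X.Γ (closedBall p ρ), 8 * ρ ≤ io X.Γ e w := by
    rintro w ⟨γ, hγ, hw⟩
    have h1 := (abs_le.1 (hlip (γ • w) p)).1
    rw [hinv γ hγ w] at h1
    have h2 := mem_closedBall.1 hw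
    linarith
  have hcnt : ∀ A : Finset ℍ, Sep X.Γ (fun _ => ρ / 80) A →
      (∀ w ∈ A, ∀ _ : Fin 1, w ∉ (orb X.Γ (closedBall p ρ))ᶜ) → (A.card : ℝ) ≤ M0 * 161 ^ 2 := by
    intro A hA hw
    have h1 := hP X.Γ p ρ (ρ / 160) A hρ.le (by linarith) (by linarith) (by linarith)
      (fun x hx => not_notMem.1 (hw x hx 0)) fun x hx y hy hxy γ hγ => by
        have h2 := hA x hx y hy hxy γ hγ
        rw [min_self] at h2
        linarith
    have h3 : 1 + ρ / (ρ / 160) = 161 := by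
      field_simp
      norm_num
    rwa [h3] at h1
  obtain ⟨n, K, hK, hn⟩ := hMk X hX (fun _ => ρ / 80) 1 (fun _ => (orb X.Γ (closedBall p ρ))ᶜ)
    (⌈M0 * 161 ^ 2⌉₊ + 1) (M0 * 161 ^ 2) (fun _ _ _ => rfl) (fun _ => by linarith)
    (fun _ => by linarith) (fun w w' => by rw [sub_self, abs_zero]; positivity)
    (fun _ => (hX.cl.isClosed_orb (isCompact_closedBall p ρ)).isOpen_compl)
    (fun _ => (invS_orb _ _).compl) (fun t t' h => absurd (Subsingleton.elim t t') h)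
    (fun _ => (hX.two (disjoint_compl_right.mono_left
      (orb_mono (ball_subset_closedBall (x := p) (ε := ρ))))).resolve_left hnp)
    (fun w hw => by
      have h1 := hio w (not_notMem.1 (hw 0))
      refine ⟨hemb w _ (by linarith), ?_, ?_⟩
      · by_contra c
        have h2 : 40 * (ρ / 80) ∈ B := ⟨w, by linarith, by linarith, c⟩
        have h3 := csInf_le ⟨ρ0, hlb⟩ h2
        linarith
      · refine (Set.ncard_le_card _).trans ?_
        rw [Nat.card_eq_fintype_card, Fintype.card_fin]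
        omega)
    hcnt (fun t A hA hw _ => by
      have h1 := (hcnt A hA hw).trans (Nat.le_ceil _)
      have h2 : A.card ≤ ⌈M0 * 161 ^ 2⌉₊ := by exact_mod_cast h1
      omega)
  refine ⟨n, 1, K, hK, hn.trans ?_⟩
  have h1 : 0 ≤ volume.real X.F := measureReal_nonneg
  exact le_mul_of_one_le_right (by positivity) (by linarith)

end Pool.Agent.MP_4f0ed6_gt.U

end

section

set_option autoImplicit false
set_option linter.dupNamespace false

open UpperHalfPlane MeasureTheory Set Metric Filter Topology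
open scoped MatrixGroups ContDiff InnerProductSpace ENNReal Classical

namespace Pool.Agent.MP_4f0ed6_gt.U

theorem TDiag_ex (α : SL(2, ℝ)) (h : 2 < |α.1.trace|) : ∃ (g : SL(2, ℝ)) (l m : ℝ), l ≠ m ∧
    g.1 * α.1 = !![l, 0; 0, m] * g.1 := by
  have hd := α.det_coe
  rw [Matrix.det_fin_two] at hd
  rw [Matrix.trace_fin_two] at h
  have h4 : 0 < (α.1 0 0 + α.1 1 1) ^ 2 - 4 := by
    rw [← sq_abs]
    nlinarith
  by_cases hc : α.1 1 0 = 0
  · have hne : α.1 0 0 - α.1 1 1 ≠ 0 := fun e => by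
      rw [hc, mul_zero, sub_zero] at hd
      have : α.1 0 0 = α.1 1 1 := sub_eq_zero.1 e
      rw [this] at hd h4
      nlinarith
    refine ⟨⟨!![1, α.1 0 1 / (α.1 0 0 - α.1 1 1); 0, 1], by simp [Matrix.det_fin_two]⟩,
      α.1 0 0, α.1 1 1, sub_ne_zero.1 hne, ?_⟩
    ext i j
    fin_cases i <;> fin_cases j <;> simp [Matrix.mul_apply, Fin.sum_univ_two, hc]
    field_simp
    ring
  · obtain ⟨s, hs, hs2⟩ : ∃ s : ℝ, 0 < s ∧ s ^ 2 = (α.1 0 0 + α.1 1 1) ^ 2 - 4 :=
      ⟨√_, Real.sqrt_pos.2 h4, Real.sq_sqrt h4.le⟩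
    refine ⟨⟨!![1 / s, ((α.1 1 1 - α.1 0 0 - s) / 2) / (α.1 1 0 * s);
      α.1 1 0, (α.1 1 1 - α.1 0 0 + s) / 2], ?_⟩, (α.1 0 0 + α.1 1 1 - s) / 2,
      (α.1 0 0 + α.1 1 1 + s) / 2, by linarith [hs] |> fun (t : (α.1 0 0 + α.1 1 1 - s) / 2 <
        (α.1 0 0 + α.1 1 1 + s) / 2) => t.ne, ?_⟩
    · rw [Matrix.det_fin_two_of]
      field_simp
      ring
    · ext i j
      fin_cases i <;> fin_cases j <;> simp [Matrix.mul_apply, Fin.sum_univ_two]
      · field_simp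
        ring
      · field_simp
        linear_combination (-4) * hd - hs2
      · ring
      · linear_combination (-1) * hd - (1 / 4) * hs2

theorem stDiag : StDiag := by
  intro α h
  obtain ⟨g, l, m, hlm, e⟩ := TDiag_ex α h
  refine ⟨g, fun β hβ => ?_⟩
  obtain ⟨b, hb⟩ : ∃ b : SL(2, ℝ), b = g * β * g⁻¹ := ⟨_, rfl⟩
  have h1 : b * g = g * β := by rw [hb, inv_mul_cancel_right]
  have h2 : b.1 * g.1 = g.1 * β.1 := congrArg Subtype.val h1
  have h3 : β.1 * α.1 = α.1 * β.1 := congrArg Subtype.val hβ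
  have h5 : g.1 * (g⁻¹ : SL(2, ℝ)).1 = 1 := congrArg Subtype.val (mul_inv_cancel g)
  have h4 : b.1 * !![l, 0; 0, m] = !![l, 0; 0, m] * b.1 := by
    have : b.1 * !![l, 0; 0, m] * g.1 = !![l, 0; 0, m] * b.1 * g.1 := by
      rw [Matrix.mul_assoc, ← e, ← Matrix.mul_assoc, h2, Matrix.mul_assoc, h3,
        ← Matrix.mul_assoc, e, Matrix.mul_assoc, Matrix.mul_assoc, h2]
    rw [← Matrix.mul_one (b.1 * _), ← h5, ← Matrix.mul_assoc, this, Matrix.mul_assoc, h5,
      Matrix.mul_one]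
  have e01 := congrFun (congrFun h4 0) 1
  have e10 := congrFun (congrFun h4 1) 0
  simp [Matrix.mul_apply, Fin.sum_univ_two] at e01 e10
  have z01 : b.1 0 1 = 0 := by
    by_contra c
    exact hlm (mul_left_cancel₀ c (by linarith))
  have z10 : b.1 1 0 = 0 := by
    by_contra c
    exact hlm (mul_left_cancel₀ c (by linarith))
  have hd := b.det_coe
  rw [Matrix.det_fin_two, z01, zero_mul, sub_zero] at hd
  have a0 : b.1 0 0 ≠ 0 := left_ne_zero_of_mul_eq_one hd
  refine ⟨b.1 0 0 ^ 2, by positivity, fun w => ?_⟩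
  rw [← mul_smul, ← h1, mul_smul, coe_specialLinearGroup_apply]
  have hd' : (b.1 0 0 : ℂ) * (b.1 1 1 : ℂ) = 1 := by exact_mod_cast hd
  have a1 : (b.1 1 1 : ℂ) ≠ 0 := right_ne_zero_of_mul_eq_one hd'
  simp only [z01, z10, Algebra.algebraMap_self, RingHom.id_apply, Complex.ofReal_zero, zero_mul,
    add_zero, zero_add, Complex.ofReal_pow]
  rw [div_eq_iff a1]
  linear_combination (-(b.1 0 0 : ℂ) * ((g • w : ℍ) : ℂ)) * hd'

end Pool.Agent.MP_4f0ed6_gt.U

end

section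

set_option autoImplicit false
set_option linter.dupNamespace false

open UpperHalfPlane MeasureTheory Set Metric Filter Topology
open scoped MatrixGroups ContDiff InnerProductSpace ENNReal

namespace Pool.Agent.MP_4f0ed6_gt.U

theorem TApx_id {n m : ℕ} {H : Type} [NormedAddCommGroup H] [InnerProductSpace ℝ H]
    [CompleteSpace H] {P : Pb n m H} {W : LI n} (hs : ∀ u v, P.Qb u v = P.Qb v u) (h : P.Co W)
    (x : L2 n) (u : H) : P.q W (u - P.sol W x) (u - P.sol W x) =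
      P.q W u u - 2 * ⟪x, P.R u⟫_ℝ + P.q W (P.sol W x) (P.sol W x) := by
  rw [map_sub (P.q W), _root_.sub_apply, map_sub, map_sub, Pb.q_symm hs W u (P.sol W x),
    h.sol_spec x u]
  ring

theorem stApx (hRoot : StRoot) : StApx := by
  intro Δ X n m K H _ _ _ P j Rx Ry hX hK hR W hW x hx
  obtain ⟨C, hC, hr⟩ := hRoot Δ X n m K H P j Rx Ry hX hK hR W
  obtain ⟨y, hy, hya⟩ := mem_closure_iff_seq_limit.1 (hR.r0.dense (P.sol W x))
  choose v hv using hy
  have hε : ∀ k : ℕ, (0 : ℝ) < 1 / ((k : ℝ) + 1) := fun k => Nat.one_div_pos_of_nat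
  choose u hu1 hu2 hu3 hu4 using fun k : ℕ => hr (v k) _ (hε k)
  obtain ⟨c, hc, hco⟩ := id hW
  have h0 : Tendsto (fun k => y k - P.sol W x) atTop (𝓝 0) := tendsto_sub_nhds_zero_iff.2 hya
  have h1 : Tendsto (fun k => P.q W (y k - P.sol W x) (y k - P.sol W x)) atTop (𝓝 0) := by
    have h := ((P.q W).continuous₂.tendsto (0, 0)).comp (h0.prodMk_nhds h0)
    simpa [Function.comp_def] using h
  have h2 : Tendsto (fun k : ℕ => C * (1 / ((k : ℝ) + 1)) ^ 2) atTop (𝓝 0) := by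
    have h := ((tendsto_one_div_add_atTop_nhds_zero_nat (𝕜 := ℝ)).pow 2).const_mul C
    simpa using h
  have h3 : Tendsto (fun k : ℕ => √((P.q W (y k - P.sol W x) (y k - P.sol W x) +
      C * (1 / ((k : ℝ) + 1)) ^ 2) / c)) atTop (𝓝 0) := by
    have h := ((h1.add h2).div_const c).sqrt
    simpa using h
  have h4 : Tendsto (fun k => j (u k)) atTop (𝓝 (P.sol W x)) := by
    refine tendsto_iff_norm_sub_tendsto_zero.2
      (squeeze_zero (fun k => norm_nonneg _) (fun k => ?_) h3)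
    refine Real.le_sqrt_of_sq_le ((le_div_iff₀ hc).2 ?_)
    have a1 := hco (j (u k) - P.sol W x)
    have a2 := TApx_id hR.sym hW x (j (u k))
    have a3 := TApx_id hR.sym hW x (y k)
    have a4 := inner_mono_right hx (hu3 k)
    have a5 := hu2 k
    rw [hv k] at a4 a5
    nlinarith
  refine ⟨?_, u, fun k w => ?_, h4⟩
  · exact ge_of_tendsto' ((P.R.continuous.tendsto _).comp h4) hu4
  · rw [hu1]
    exact Real.sqrt_nonneg _

end Pool.Agent.MP_4f0ed6_gt.U

end

section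

set_option autoImplicit false
set_option linter.dupNamespace false

open UpperHalfPlane MeasureTheory Set Metric Filter Topology
open scoped MatrixGroups

namespace Pool.Agent.MP_4f0ed6_gt.U

theorem TL1_univ {G : Set ℍ} {z : ℍ} {s : ℝ} (hs : 0 < s) (hz : z ∈ G)
    (h : ∀ x ∈ G, ∀ y, dist y x < s → y ∈ G) : G = univ := by
  refine IsClopen.eq_univ ⟨?_, ?_⟩ ⟨z, hz⟩
  · rw [← isOpen_compl_iff, Metric.isOpen_iff]
    exact fun x hx => ⟨s, hs, fun y hy hG => hx (h y hG x (by rwa [dist_comm]))⟩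
  · rw [Metric.isOpen_iff]
    exact fun x hx => ⟨s, hs, fun y hy => h x hx y hy⟩

theorem TL1_union {A B : Set ℍ} {f : ℍ → ℝ} (hp : ∀ w, 0 ≤ f w) (hA : IntegrableOn f A)
    (hB : IntegrableOn f B) : ∫ w in A ∪ B, f w ≤ (∫ w in A, f w) + ∫ w in B, f w := by
  rw [← integral_add_measure hA hB]
  exact integral_mono_measure (Measure.restrict_union_le A B) (ae_of_all _ hp)
    (Integrable.add_measure hA hB)

theorem stL1 (hL1a : StL1a) : StL1 := by
  intro X hX q M hq z s h0 h1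
  have hc : ∀ a : SI X.Γ, Continuous a.1 := fun a => Sm.continuous (mem_SI.1 a.2).1
  have hn : ∀ a : SI X.Γ, (∀ w, 0 ≤ a.1 w) → ∀ A : Set ℍ, 0 ≤ ∫ w in A, a.1 w :=
    fun a ha A => integral_nonneg ha
  have hG : {z' : ℍ | ∃ C : ℝ, 0 < C ∧ ∀ a : SI X.Γ, (∀ w, 0 ≤ a.1 w) →
      ∫ w in Dk z' s 1, a.1 w ≤ C * ((∫ w in Dk z s 1, a.1 w) + √(q a a))} = univ := by
    refine TL1_univ (z := z) h0 ⟨1, one_pos, fun a _ => ?_⟩ ?_
    · have := Real.sqrt_nonneg (q a a)
      linarith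
    · rintro x ⟨C, hC, hx⟩ y hy
      obtain ⟨C', hC', h'⟩ := hL1a X hX q M hq x s h0 h1
      refine ⟨C' * (C + 1), by positivity, fun a ha => ?_⟩
      have hsub : Dk y s 1 ⊆ Dk x s 12 := by
        refine (Dk_subset_ball h0 h1 (by norm_num)).trans
          (Subset.trans ?_ (ball_subset_Dk h0 h1 (by norm_num)))
        exact ball_subset_ball' (by linarith)
      have h2 : ∫ w in Dk y s 1, a.1 w ≤ ∫ w in Dk x s 12, a.1 w :=
        setIntegral_mono_set (integrableOn_Dk h0 h1 (by norm_num) (hc a)) (ae_of_all _ ha)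
          hsub.eventuallyLE
      have h3 := h' a ha
      have h4 := hx a ha
      have h5 := hn a ha (Dk z s 1)
      have h6 := Real.sqrt_nonneg (q a a)
      calc ∫ w in Dk y s 1, a.1 w ≤ C' * ((∫ w in Dk x s 1, a.1 w) + √(q a a)) := h2.trans h3
        _ ≤ C' * ((C + 1) * ((∫ w in Dk z s 1, a.1 w) + √(q a a))) :=
          mul_le_mul_of_nonneg_left (by linarith) hC'.le
        _ = _ := by ring
  have key : ∃ B : Set ℍ, X.F ⊆ B ∧ (∀ a : SI X.Γ, IntegrableOn a.1 B) ∧ ∃ C : ℝ, 0 < C ∧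
      ∀ a : SI X.Γ, (∀ w, 0 ≤ a.1 w) →
        ∫ w in B, a.1 w ≤ C * ((∫ w in Dk z s 1, a.1 w) + √(q a a)) := by
    refine hX.cl.cpt.induction_on (p := fun A => ∃ B : Set ℍ, A ⊆ B ∧
      (∀ a : SI X.Γ, IntegrableOn a.1 B) ∧ ∃ C : ℝ, 0 < C ∧ ∀ a : SI X.Γ, (∀ w, 0 ≤ a.1 w) →
        ∫ w in B, a.1 w ≤ C * ((∫ w in Dk z s 1, a.1 w) + √(q a a))) ?_ ?_ ?_ ?_
    · refine ⟨∅, Subset.rfl, fun _ => integrableOn_empty, 1, one_pos, fun a ha => ?_⟩
      have h5 := hn a ha (Dk z s 1)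
      have h6 := Real.sqrt_nonneg (q a a)
      rw [setIntegral_empty]
      linarith
    · rintro A A' hA ⟨B, hB, h⟩
      exact ⟨B, hA.trans hB, h⟩
    · rintro A A' ⟨B, hB, hi, C, hC, h⟩ ⟨B', hB', hi', C', hC', h'⟩
      refine ⟨B ∪ B', union_subset_union hB hB', fun a => (hi a).union (hi' a), C + C',
        by positivity, fun a ha => (TL1_union ha (hi a) (hi' a)).trans ?_⟩
      have := h a ha
      have := h' a ha
      linarith
    · intro x _
      refine ⟨Dk x s 1, mem_nhdsWithin_of_mem_nhds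
        ((isOpen_Dk x s 1).mem_nhds (self_mem_Dk h0 one_pos)), Dk x s 1, Subset.rfl,
        fun a => integrableOn_Dk h0 h1 (by norm_num) (hc a), ?_⟩
      have : x ∈ (univ : Set ℍ) := mem_univ x
      rw [← hG] at this
      exact this
  obtain ⟨B, hB, hi, C, hC, h⟩ := key
  exact ⟨C, hC, fun a ha =>
    (setIntegral_mono_set (hi a) (ae_of_all _ ha) hB.eventuallyLE).trans (h a ha)⟩

end Pool.Agent.MP_4f0ed6_gt.U

end

section

set_option autoImplicit false
set_option linter.dupNamespace false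

open UpperHalfPlane MeasureTheory Set Metric Filter Topology
open scoped MatrixGroups ContDiff InnerProductSpace ENNReal Classical

namespace Pool.Agent.MP_4f0ed6_gt.U

theorem TFin_ok {Γ : Subgroup SL(2, ℝ)} {F : Set ℍ} (H : Closed Γ F) {ρ : ℍ → ℝ} {lam : ℝ}
    (h1 : Sm ρ) (h2 : Inv Γ ρ) (h3 : ∀ z, 0 < ρ z) (h4 : 0 < lam)
    (h5 : ∀ u : ℍ → ℝ, Sm u → Inv Γ u → ∫ z in F, u z * ρ z = 0 →
      lam * ∫ z in F, u z ^ 2 * ρ z ≤ ∫ z in F, en u u z) :
    (⟨Γ, F, fun z => lam * ρ z⟩ : Sf).Ok where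
  cl := H
  Vm := ⟨(Sm.const lam).mul h1, fun γ hγ z => congrArg (lam * ·) (h2 γ hγ z)⟩
  Vp := fun z => mul_pos h4 (h3 z)
  ray := fun u hu h0 => by
    have hc : Continuous u := hu.1.continuous
    have e0 : ∫ z in F, u z * (lam * ρ z) = lam * ∫ z in F, u z * ρ z := by
      rw [← integral_const_mul]
      exact integral_congr_ae (ae_of_all _ fun z => by ring)
    have e1 : ∫ z in F, lam * ρ z * (u z * u z) = lam * ∫ z in F, u z ^ 2 * ρ z := by
      rw [← integral_const_mul]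
      exact integral_congr_ae (ae_of_all _ fun z => by ring)
    have h6 := h5 u hu.1 hu.2 ((mul_eq_zero.1 (e0.symm.trans h0)).resolve_left h4.ne')
    show 0 ≤ ∫ z in F, (en u u z - lam * ρ z * (u z * u z))
    have i1 : IntegrableOn (fun z => lam * ρ z * (u z * u z)) F :=
      H.integrableOn ((continuous_const.mul h1.continuous).mul (hc.mul hc))
    rw [integral_sub (H.integrableOn (continuous_en hu.1 hu.1)) i1, e1]
    linarith

theorem TFin_span {X : Sf} (H : X.Ok) {k : ℕ} (g : Fin k → SI X.Γ)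
    (h : ∀ i, ∀ v ∈ SI X.Γ, X.Q (g i).1 v = 0) :
    ∀ f ∈ Submodule.span ℝ (range g), ∀ v ∈ SI X.Γ, X.Q f.1 v = 0 := by
  intro f hf v hv
  induction hf using Submodule.span_induction with
  | mem x hx =>
    obtain ⟨i, rfl⟩ := hx
    exact h i v hv
  | zero =>
    have := X.Q_smul 0 (Sm.const 0) v
    simp only [zero_mul] at this
    exact this
  | add x y _ _ hx hy =>
    have := H.Q_add x.2.1 y.2.1 hv.1
    rw [hx, hy, add_zero] at this
    exact this
  | smul a x _ hx =>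
    have := X.Q_smul a x.2.1 v
    rw [hx, mul_zero] at this
    exact this

theorem stFin (hCov : StCov) (hAx : StAx) (hAbs : StAbs) (hGreen : StGreen) : StFin := by
  intro ε hε
  obtain ⟨Δ, A, hΔ, hA, hcov⟩ := hCov
  obtain ⟨κ, hκ⟩ := hAx Δ hΔ
  obtain ⟨C0, hC0⟩ := hAbs κ (ε / (28 * A)) (by positivity)
  refine ⟨⌈2 * C0 / ε⌉₊ + 1, fun γ hγ Γ F H hvol ρ lam h1 h2 h3 h4 h5 k f hf hli => ?_⟩
  have hX := TFin_ok H h1 h2 h3 h4 h5
  obtain ⟨n, m, K, hK, hn⟩ := hcov _ hX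
  let g : Fin k → SI Γ := fun i => ⟨f i, (hf i).1, (hf i).2.1⟩
  have hg : LinearIndependent ℝ g := LinearIndependent.of_comp (SI Γ).subtype hli
  have hQ : ∀ i, ∀ v ∈ SI Γ, (⟨Γ, F, fun z => lam * ρ z⟩ : Sf).Q (g i).1 v = 0 := fun i v hv => by
    have e := hGreen Γ F H (f i) (g i).2 (fun z => lam * ρ z * f i z)
      ((continuous_const.mul h1.continuous).mul (hf i).1.continuous)
      (fun β hβ z => congrArg₂ (lam * · * ·) (h2 β hβ z) ((hf i).2.1 β hβ z)) (hf i).2.2 v hv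
    rw [hX.Q_eq (g i).2.1 hv.1]
    refine sub_eq_zero.2 (e.trans ?_)
    exact integral_congr_ae (ae_of_all _ fun z => mul_assoc _ _ _)
  obtain ⟨E, i1, i2, i3, P, hP, hr⟩ := hκ _ n m K hX hK (Submodule.span ℝ (range g))
    (FiniteDimensional.span_of_finite ℝ (finite_range g)) (TFin_span hX g hQ)
  have h6 : (Module.finrank ℝ P.Kr : ℝ) ≤ ε / (28 * A) * n + C0 := hC0 n m E P hP
  rw [hr, finrank_span_eq_card hg, Fintype.card_fin] at h6
  have h7 : (2 * C0 / ε : ℝ) + 1 ≤ γ := by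
    have h8 : ((⌈2 * C0 / ε⌉₊ + 1 : ℕ) : ℝ) ≤ γ := Nat.cast_le.2 hγ
    push_cast at h8
    linarith [Nat.le_ceil (2 * C0 / ε)]
  have h8 : (1 : ℝ) ≤ γ := by exact_mod_cast le_trans (Nat.le_add_left 1 _) hγ
  have h9 : volume.real F = 4 * Real.pi * ((γ : ℝ) - 1) := by
    rw [Measure.real, hvol, ENNReal.toReal_ofReal (mul_nonneg (by positivity) (by linarith))]
  have h10 : (n : ℝ) ≤ A * (14 * γ) := by
    refine hn.trans (mul_le_mul_of_nonneg_left ?_ hA.le)
    show 1 + volume.real F ≤ _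
    rw [h9]
    nlinarith [Real.pi_lt_d2, Real.pi_pos]
  have h11 : ε / (28 * A) * n ≤ ε / 2 * γ := by
    refine (mul_le_mul_of_nonneg_left h10 (by positivity)).trans_eq ?_
    field_simp
    ring
  have h12 : 2 * C0 ≤ γ * ε := (div_le_iff₀ hε).1 (by linarith)
  linarith

end Pool.Agent.MP_4f0ed6_gt.U

end

section

set_option autoImplicit false
set_option linter.dupNamespace false

open UpperHalfPlane MeasureTheory Set Metric Filter Topology
open scoped MatrixGroups ContDiff InnerProductSpace ENNReal Classical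

namespace Pool.Agent.MP_4f0ed6_gt.U

theorem stFinb (hCov : StCov) (hAx : StAx) (hAbsb : StAbsb) (hGreen : StGreen)
    (hNum3 : StNum3) : StFinb := by
  obtain ⟨Δ, A, hΔ, hA, hcov⟩ := hCov
  obtain ⟨κ, hκ⟩ := hAx Δ hΔ
  obtain ⟨C, hC, hC0⟩ := hAbsb κ
  obtain ⟨C', γ₀, hγ₀, hN⟩ := hNum3 C (14 * A) hC (by positivity)
  refine ⟨C', γ₀, fun γ hγ Γ F H hvol ρ lam h1 h2 h3 h4 h5 k f hf hli => ?_⟩
  obtain ⟨N, hN3, hN⟩ := hN γ hγ
  have hX := TFin_ok H h1 h2 h3 h4 h5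
  obtain ⟨n, m, K, hK, hn⟩ := hcov _ hX
  let g : Fin k → SI Γ := fun i => ⟨f i, (hf i).1, (hf i).2.1⟩
  have hg : LinearIndependent ℝ g := LinearIndependent.of_comp (SI Γ).subtype hli
  have hQ : ∀ i, ∀ v ∈ SI Γ, (⟨Γ, F, fun z => lam * ρ z⟩ : Sf).Q (g i).1 v = 0 := fun i v hv => by
    have e := hGreen Γ F H (f i) (g i).2 (fun z => lam * ρ z * f i z)
      ((continuous_const.mul h1.continuous).mul (hf i).1.continuous)
      (fun β hβ z => congrArg₂ (lam * · * ·) (h2 β hβ z) ((hf i).2.1 β hβ z)) (hf i).2.2 v hv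
    rw [hX.Q_eq (g i).2.1 hv.1]
    refine sub_eq_zero.2 (e.trans ?_)
    exact integral_congr_ae (ae_of_all _ fun z => mul_assoc _ _ _)
  obtain ⟨E, i1, i2, i3, P, hP, hr⟩ := hκ _ n m K hX hK (Submodule.span ℝ (range g))
    (FiniteDimensional.span_of_finite ℝ (finite_range g)) (TFin_span hX g hQ)
  have h6 : (Module.finrank ℝ P.Kr : ℝ) ≤
      Real.exp (Real.exp (C * N)) + C * n * (Real.log N / N) := hC0 N hN3 n m E P hP
  rw [hr, finrank_span_eq_card hg, Fintype.card_fin] at h6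
  have h8 : (1 : ℝ) ≤ γ := by exact_mod_cast hγ₀.trans hγ
  have h9 : volume.real F = 4 * Real.pi * ((γ : ℝ) - 1) := by
    rw [Measure.real, hvol, ENNReal.toReal_ofReal (mul_nonneg (by positivity) (by linarith))]
  have h10 : (n : ℝ) ≤ A * (14 * γ) := by
    refine hn.trans (mul_le_mul_of_nonneg_left ?_ hA.le)
    show 1 + volume.real F ≤ _
    rw [h9]
    nlinarith [Real.pi_lt_d2, Real.pi_pos]
  have h11 : 0 ≤ Real.log N / N := div_nonneg (Real.log_natCast_nonneg N) (Nat.cast_nonneg N)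
  have h12 : C * n * (Real.log N / N) ≤ C * (14 * A * γ) * (Real.log N / N) :=
    mul_le_mul_of_nonneg_right (mul_le_mul_of_nonneg_left (by linarith) hC.le) h11
  linarith

end Pool.Agent.MP_4f0ed6_gt.U

end
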