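import Pool.Agent.Mg.F4f0ed6a.Ga5385d

section

set_option autoImplicit false
set_option linter.dupNamespace false

open MeasureTheory Set Metric Filter Topology
open scoped InnerProductSpace ENNReal Classical

namespace Pool.Agent.MP_4f0ed6_gt.U

variable {n m : ℕ} {H : Type} [NormedAddCommGroup H] [InnerProductSpace ℝ H] [CompleteSpace H]
  {P : Pb n m H} {k : Cst}

theorem TDOM_sign (hA : P.Ax k) {K : ℝ} (hK : 0 ≤ K) {W W' : LI n} (h : P.Co W) (h' : P.Co W')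
    (b : Bd W K) (b' : Bd W' K) {x y : L2 n} (hx : 0 ≤ x) (hy : 0 ≤ y) (S : Finset (Fin n)) :
    0 ≤ ⟪mul (WZ (k.cb K) S) (P.G W x), P.G W' y⟫_ℝ := by
  rw [inner_mul_WZ]
  refine Finset.sum_nonneg fun z _ => ?_
  have ha := hA.pos W h x hx
  have hb := hA.pos W' h' y hy
  have h1 := hA.rev K W W' hK h h' b b' x y hx hy z
  have h2 : ⟪ct z 10 (P.G W x), P.G W' y⟫_ℝ ≤ ‖ct z 10 (P.G W x)‖ * ‖ct z 10 (P.G W' y)‖ := by
    rw [inner_ct]
    exact real_inner_le_norm _ _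
  have h3 : ⟪ct z 1 (P.G W x), P.G W' y⟫_ℝ ≤ ⟪pr z (P.G W x), P.G W' y⟫_ℝ :=
    inner_mono_left hb (mul_le (ind_mono z (by norm_num : (1 : ℝ) ≤ 3)) _ ha)
  have h4 : 0 ≤ ⟪ct z 1 (P.G W x), P.G W' y⟫_ℝ := inner_nn (ct_pp z 1 _ ha) hb
  have h5 := hA.ok.h5 K
  have h6 : k.cb K * ⟪ct z 10 (P.G W x), P.G W' y⟫_ℝ ≤
      k.cb K * (k.CR K * ⟪ct z 1 (P.G W x), P.G W' y⟫_ℝ) :=
    mul_le_mul_of_nonneg_left (h2.trans h1) (by rw [Cst.cb]; positivity)
  have h7 : k.cb K * (k.CR K * ⟪ct z 1 (P.G W x), P.G W' y⟫_ℝ) =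
      ⟪ct z 1 (P.G W x), P.G W' y⟫_ℝ / 2 := by
    rw [Cst.cb]
    field_simp
  linarith

theorem TDOM_le (hA : P.Ax k) {K : ℝ} (hK : 0 ≤ K) {W W' : LI n} (h : P.Co W) (h' : P.Co W')
    (b : Bd W K) (b' : Bd W' K) {s : ℝ} (hs : 0 ≤ s) (S : Finset (Fin n))
    (e : W' - W = s • WZ (k.cb K) S) : Le (P.G W') (P.G W) := by
  intro y hy
  refine le_of_inner fun x hx => ?_
  have h1 := h.res_inner hA.sym h' x y
  rw [e, map_smul, ContinuousLinearMap.smul_apply, real_inner_smul_left] at h1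
  have h2 := mul_nonneg hs (TDOM_sign hA hK h h' b b' hx hy S)
  linarith

theorem TDOM_step (hA : P.Ax k) {W D : LI n} (h : P.Co W) {N : ℝ} (hN : ‖P.G W‖ ≤ N)
    (hD : ‖D‖ * N ≤ 1 / 2) : P.Co (W + D) := by
  refine h.of_half (a := 1 / 2) (by norm_num) fun u => ?_
  rw [Pb.q_add]
  have h1 := h.q_lower hA.sym hN u
  have h2 := h.nn u
  have h3 : |⟪mul D (P.R u), P.R u⟫_ℝ| ≤ ‖D‖ * ‖P.R u‖ ^ 2 := by
    calc |⟪mul D (P.R u), P.R u⟫_ℝ| ≤ ‖mul D (P.R u)‖ * ‖P.R u‖ := abs_real_inner_le_norm _ _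
      _ ≤ ‖D‖ * ‖P.R u‖ * ‖P.R u‖ :=
        mul_le_mul_of_nonneg_right ((mul D).le_of_opNorm_le (norm_mul_le' D) _) (norm_nonneg _)
      _ = _ := by ring
  have h4 : ‖D‖ * ‖P.R u‖ ^ 2 ≤ ‖D‖ * N * P.q W u u := by
    rw [mul_assoc]
    exact mul_le_mul_of_nonneg_left h1 (norm_nonneg _)
  have h5 := mul_le_mul_of_nonneg_right hD h2
  have h6 := neg_abs_le ⟪mul D (P.R u), P.R u⟫_ℝ
  linarith

theorem TDOM_co (hA : P.Ax k) {K : ℝ} (hK : 0 ≤ K) {W : LI n} (h : P.Co W) (b : Bd W K)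
    (S : Finset (Fin n)) : P.Co (W + WZ (k.cb (K + 1)) S) := by
  have hcb : 0 ≤ k.cb (K + 1) := by
    have := hA.ok.h5 (K + 1)
    rw [Cst.cb]
    positivity
  obtain ⟨j, hj⟩ := exists_nat_gt (2 * (‖WZ (k.cb (K + 1)) S‖ * ‖P.G W‖))
  have j0 : (0 : ℝ) < j := lt_of_le_of_lt (by positivity) hj
  have key : ∀ i : ℕ, i ≤ j → P.Co (W + ((i : ℝ) / j) • WZ (k.cb (K + 1)) S) := by
    intro i
    induction i with
    | zero => intro _; simpa using h
    | succ i ih =>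
      intro hi
      have c := ih (Nat.le_of_succ_le hi)
      have s0 : (0 : ℝ) ≤ i / j := by positivity
      have s1 : (i : ℝ) / j ≤ 1 := by
        rw [div_le_one j0]
        exact_mod_cast Nat.le_of_succ_le hi
      have l := TDOM_le hA (by linarith) h c (b.mono le_rfl (by linarith))
        (b.add_WZ hcb s0 s1 S) s0 S (add_sub_cancel_left _ _)
      have := TDOM_step hA (D := ((1 : ℝ) / j) • WZ (k.cb (K + 1)) S) c
        (opnorm_le_of_Le (hA.pos _ c) l) (by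
          rw [norm_smul, Real.norm_eq_abs, abs_of_nonneg (by positivity), mul_assoc,
            div_mul_eq_mul_div, one_mul, div_le_iff₀ j0]
          linarith)
      rwa [add_assoc, ← add_smul, ← add_div, ← Nat.cast_succ] at this
  have := key j le_rfl
  rwa [div_self j0.ne', one_smul] at this

theorem stDOM : StDOM := by
  intro k n m H _ _ _ P hA K W hK h b Z Z' hZ
  have hcb : 0 ≤ k.cb (K + 1) := by
    have := hA.ok.h5 (K + 1)
    rw [Cst.cb]
    positivity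
  have bb : ∀ S, Bd (W + WZ (k.cb (K + 1)) S) (K + 1) := fun S => by
    simpa using b.add_WZ hcb zero_le_one le_rfl S
  refine ⟨TDOM_co hA hK h b Z', TDOM_le hA (by linarith) (TDOM_co hA hK h b Z)
    (TDOM_co hA hK h b Z') (bb Z) (bb Z') zero_le_one (Z' \ Z) ?_⟩
  rw [one_smul, add_sub_add_left_eq_sub, WZ, WZ, WZ, ← Finset.sum_sdiff hZ, add_sub_cancel_right]

end Pool.Agent.MP_4f0ed6_gt.U

end

section

set_option autoImplicit false
set_option linter.dupNamespace false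

open MeasureTheory Set Metric Filter Topology
open scoped InnerProductSpace ENNReal Classical

namespace Pool.Agent.MP_4f0ed6_gt.U

section fin

variable {F : Type} [NormedAddCommGroup F] [InnerProductSpace ℝ F] {N : ℕ}

theorem TLA_ext (b : OrthonormalBasis (Fin N) ℝ F) {x y : F}
    (h : ∀ i, ⟪b i, x⟫_ℝ = ⟪b i, y⟫_ℝ) : x = y := by
  rw [← b.sum_repr' x, ← b.sum_repr' y]
  exact Finset.sum_congr rfl fun i _ => by rw [h i]

theorem TLA_diag (b : OrthonormalBasis (Fin N) ℝ F) (c : Fin N → ℝ) :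
    ∃ D : F →ₗ[ℝ] F, ∀ i x, ⟪b i, D x⟫_ℝ = c i * ⟪b i, x⟫_ℝ := by
  refine ⟨∑ i, (c i • (innerₛₗ ℝ (b i) : F →ₗ[ℝ] ℝ)).smulRight (b i), fun i x => ?_⟩
  rw [LinearMap.sum_apply]
  simp only [LinearMap.smulRight_apply, LinearMap.smul_apply, innerₛₗ_apply_apply, smul_eq_mul]
  exact b.orthonormal.inner_right_fintype (fun j => c j * ⟪b j, x⟫_ℝ) i

theorem TLA_form (b : OrthonormalBasis (Fin N) ℝ F) {c : Fin N → ℝ} {D : F →ₗ[ℝ] F}
    (h : ∀ i x, ⟪b i, D x⟫_ℝ = c i * ⟪b i, x⟫_ℝ) (x y : F) :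
    ⟪D x, y⟫_ℝ = ∑ i, c i * (⟪b i, x⟫_ℝ * ⟪b i, y⟫_ℝ) := by
  rw [← b.sum_inner_mul_inner]
  exact Finset.sum_congr rfl fun i _ => by rw [real_inner_comm, h, mul_assoc]

theorem TLA_sym (b : OrthonormalBasis (Fin N) ℝ F) {c : Fin N → ℝ} {D : F →ₗ[ℝ] F}
    (h : ∀ i x, ⟪b i, D x⟫_ℝ = c i * ⟪b i, x⟫_ℝ) : D.IsSymmetric := fun x y => by
  rw [TLA_form b h, real_inner_comm, TLA_form b h]
  exact Finset.sum_congr rfl fun i _ => by ring

variable [FiniteDimensional ℝ F]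

theorem TLA_spec (hN : Module.finrank ℝ F = N) {T : F →ₗ[ℝ] F} (hT : T.IsSymmetric) :
    ∃ (b : OrthonormalBasis (Fin N) ℝ F) (c : Fin N → ℝ),
      ∀ i x, ⟪b i, T x⟫_ℝ = c i * ⟪b i, x⟫_ℝ := by
  refine ⟨hT.eigenvectorBasis hN, hT.eigenvalues hN, fun i x => ?_⟩
  rw [← hT, hT.apply_eigenvectorBasis hN, real_inner_smul_left]
  rfl

/-- a symmetric operator that is large on a subspace has a large trace of even powers -/
theorem TLA_count (hN : Module.finrank ℝ F = N) {S : F →ₗ[ℝ] F} (hS : S.IsSymmetric) {θ : ℝ}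
    (hθ : 0 ≤ θ) (j : ℕ) {V : Type} [AddCommGroup V] [Module ℝ V] (f : V →ₗ[ℝ] F)
    (hf : Function.Injective f) (h : ∀ x, θ * ‖f x‖ ^ 2 ≤ ⟪S (f x), f x⟫_ℝ) :
    (Module.finrank ℝ V : ℝ) * θ ^ (2 * j + 2) ≤ LinearMap.trace ℝ F (S ^ (2 * j + 2)) := by
  obtain ⟨b, c, hc⟩ := TLA_spec hN hS
  have hp : ∀ (m : ℕ) i x, ⟪b i, (S ^ m) x⟫_ℝ = c i ^ m * ⟪b i, x⟫_ℝ := fun m i => by
    induction m with
    | zero => intro x; simp
    | succ m ih =>
      intro x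
      rw [pow_succ', Module.End.mul_apply, hc, ih]
      ring
  have htr : LinearMap.trace ℝ F (S ^ (2 * j + 2)) = ∑ i, c i ^ (2 * j + 2) := by
    rw [LinearMap.trace_eq_sum_inner _ b]
    exact Finset.sum_congr rfl fun i _ => by rw [hp, b.inner_eq_one, mul_one]
  set I : Finset (Fin N) := Finset.univ.filter fun i => θ ≤ c i with hI
  let p : V →ₗ[ℝ] (I → ℝ) :=
    LinearMap.pi fun i => (innerₛₗ ℝ (b i) : F →ₗ[ℝ] ℝ) ∘ₗ f
  have hpi : Function.Injective p := by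
    rw [injective_iff_map_eq_zero]
    intro x hx
    have h0 : ∀ i, θ ≤ c i → ⟪b i, f x⟫_ℝ = 0 := fun i hi =>
      congrFun hx ⟨i, Finset.mem_filter.2 ⟨Finset.mem_univ _, hi⟩⟩
    have h1 := h x
    rw [TLA_form b hc, ← real_inner_self_eq_norm_sq, ← b.sum_inner_mul_inner, Finset.mul_sum,
      ← sub_nonpos, ← Finset.sum_sub_distrib] at h1
    have h2 : ∀ i ∈ (Finset.univ : Finset (Fin N)), 0 ≤ θ * (⟪f x, b i⟫_ℝ * ⟪b i, f x⟫_ℝ) -
        c i * (⟪b i, f x⟫_ℝ * ⟪b i, f x⟫_ℝ) := fun i _ => by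
      rw [real_inner_comm, ← sub_mul]
      by_cases hi : θ ≤ c i
      · rw [h0 i hi]; simp
      · exact mul_nonneg (by linarith [not_le.1 hi]) (mul_self_nonneg _)
    have h3 := (Finset.sum_eq_zero_iff_of_nonneg h2).1 (le_antisymm h1 (Finset.sum_nonneg h2))
    apply hf
    rw [map_zero]
    refine TLA_ext b fun i => ?_
    rw [inner_zero_right]
    by_cases hi : θ ≤ c i
    · exact h0 i hi
    · have h4 := h3 i (Finset.mem_univ _)
      rw [real_inner_comm, ← sub_mul] at h4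
      rcases mul_eq_zero.1 h4 with h5 | h5
      · exact absurd (by linarith) hi
      · exact mul_self_eq_zero.1 h5
  have hr : Module.finrank ℝ V ≤ I.card := by
    have := LinearMap.finrank_le_finrank_of_injective hpi
    simpa using this
  have he : Even (2 * j + 2) := ⟨j + 1, by ring⟩
  rw [htr]
  calc (Module.finrank ℝ V : ℝ) * θ ^ (2 * j + 2) ≤ I.card * θ ^ (2 * j + 2) :=
        mul_le_mul_of_nonneg_right (by exact_mod_cast hr) (pow_nonneg hθ _)
    _ = ∑ _i ∈ I, θ ^ (2 * j + 2) := by rw [Finset.sum_const, nsmul_eq_mul]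
    _ ≤ ∑ i ∈ I, c i ^ (2 * j + 2) :=
        Finset.sum_le_sum fun i hi => pow_le_pow_left₀ hθ (Finset.mem_filter.1 hi).2 _
    _ ≤ ∑ i, c i ^ (2 * j + 2) :=
        Finset.sum_le_sum_of_subset_of_nonneg (Finset.subset_univ _) fun i _ _ => he.pow_nonneg _

theorem TLA_fin (hN : Module.finrank ℝ F = N) {g a : F →ₗ[ℝ] F} (hg : g.IsSymmetric)
    (ha : a.IsSymmetric) {Λ δ : ℝ} (hG : ∀ x, ‖x‖ ^ 2 ≤ ⟪g x, x⟫_ℝ ∧ ⟪g x, x⟫_ℝ ≤ Λ * ‖x‖ ^ 2)
    (hδ : 0 ≤ δ) (hΛ : δ * Λ ≤ 1) (j : ℕ) {V : Type} [AddCommGroup V] [Module ℝ V]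
    (f : V →ₗ[ℝ] F) (hf : Function.Injective f) (h : ∀ x, ⟪a (f x), f x⟫_ℝ ≤ δ * ‖f x‖ ^ 2) :
    (Module.finrank ℝ V : ℝ) * (1 - δ * Λ) ^ (2 * j + 2) ≤
      LinearMap.trace ℝ F ((1 - g * a) ^ (2 * j + 2)) := by
  obtain ⟨b, c, hc⟩ := TLA_spec hN hg
  have c1 : ∀ i, 0 < c i := fun i => by
    have := (hG (b i)).1
    rw [real_inner_comm, hc, b.inner_eq_one, b.orthonormal.1 i] at this
    linarith
  have c2 : ∀ i, √(c i) ≠ 0 := fun i => (Real.sqrt_pos.2 (c1 i)).ne'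
  obtain ⟨B, hB⟩ := TLA_diag b fun i => √(c i)
  obtain ⟨B', hB'⟩ := TLA_diag b fun i => (√(c i))⁻¹
  have sB := TLA_sym b hB
  have e1 : B * B = g := LinearMap.ext fun x => TLA_ext b fun i => by
    rw [Module.End.mul_apply, hB, hB, hc, ← mul_assoc, Real.mul_self_sqrt (c1 i).le]
  have e2 : B * B' = 1 := LinearMap.ext fun x => TLA_ext b fun i => by
    rw [Module.End.mul_apply, hB, hB', ← mul_assoc, mul_inv_cancel₀ (c2 i), one_mul]
    rfl
  have e3 : B' * B = 1 := LinearMap.ext fun x => TLA_ext b fun i => by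
    rw [Module.End.mul_apply, hB', hB, ← mul_assoc, inv_mul_cancel₀ (c2 i), one_mul]
    rfl
  have hS : (1 - B * a * B).IsSymmetric := fun x y => by
    simp only [LinearMap.sub_apply, Module.End.mul_apply, Module.End.one_apply, inner_sub_left,
      inner_sub_right]
    rw [sB, ha, sB]
  have e4 : (1 - g * a) * B = B * (1 - B * a * B) := by
    rw [← e1]
    noncomm_ring
  have e5 : ∀ m : ℕ, (1 - g * a) ^ m * B = B * (1 - B * a * B) ^ m := fun m => by
    induction m with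
    | zero => simp
    | succ m ih => rw [pow_succ, mul_assoc, e4, ← mul_assoc, ih, mul_assoc, ← pow_succ]
  have e6 : ∀ m : ℕ, LinearMap.trace ℝ F ((1 - g * a) ^ m) =
      LinearMap.trace ℝ F ((1 - B * a * B) ^ m) := fun m => by
    have : (1 - g * a) ^ m = B * (1 - B * a * B) ^ m * B' := by
      rw [← e5, mul_assoc, e2, mul_one]
    rw [this, LinearMap.trace_mul_comm, ← mul_assoc, e3, one_mul]
  have e7 : ∀ y, B (B' y) = y := fun y => by rw [← Module.End.mul_apply, e2]; rfl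
  rw [e6]
  refine TLA_count hN hS (by linarith) j (B' ∘ₗ f) ?_ fun x => ?_
  · intro x y hxy
    apply hf
    rw [← e7 (f x), ← e7 (f y)]
    exact congrArg B hxy
  · have h1 := h x
    have h2 := (hG (B' (f x))).2
    have h3 : ⟪g (B' (f x)), B' (f x)⟫_ℝ = ‖f x‖ ^ 2 := by
      rw [← e1, Module.End.mul_apply, sB, e7, real_inner_self_eq_norm_sq]
    rw [h3] at h2
    simp only [LinearMap.comp_apply, LinearMap.sub_apply, Module.End.mul_apply,
      Module.End.one_apply, inner_sub_left]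
    rw [sB, e7, real_inner_self_eq_norm_sq]
    nlinarith [mul_le_mul_of_nonneg_left h2 hδ]

end fin

theorem TLA_main {H : Type} [NormedAddCommGroup H] [InnerProductSpace ℝ H] {N : ℕ}
    {e : Fin N → H} (he : Orthonormal ℝ e) (E G A : H →L[ℝ] H)
    (hE : ∀ x, E x = ∑ ω, ⟪e ω, x⟫_ℝ • e ω) (Λ δ : ℝ) (j : ℕ) (V : Submodule ℝ H)
    (sG : ∀ x y, ⟪G x, y⟫_ℝ = ⟪x, G y⟫_ℝ) (sA : ∀ x y, ⟪A x, y⟫_ℝ = ⟪x, A y⟫_ℝ)
    (eG : E * G = G) (eA : E * A = A)
    (hG : ∀ x, E x = x → ‖x‖ ^ 2 ≤ ⟪G x, x⟫_ℝ ∧ ⟪G x, x⟫_ℝ ≤ Λ * ‖x‖ ^ 2) (hδ : 0 ≤ δ)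
    (hΛ : δ * Λ ≤ 1) (hV : ∀ x ∈ V, E x = x ∧ ⟪A x, x⟫_ℝ ≤ δ * ‖x‖ ^ 2) :
    (Module.finrank ℝ V : ℝ) * (1 - δ * Λ) ^ (2 * j + 2) ≤
      ∑ ω, ⟪e ω, ((E - G * A) ^ (2 * j + 2)) (e ω)⟫_ℝ := by
  let b := EuclideanSpace.basisFun (Fin N) ℝ
  let J : EuclideanSpace ℝ (Fin N) →ₗ[ℝ] H :=
    ∑ i, (innerₛₗ ℝ (b i) : EuclideanSpace ℝ (Fin N) →ₗ[ℝ] ℝ).smulRight (e i)
  let K : H →ₗ[ℝ] EuclideanSpace ℝ (Fin N) :=
    ∑ i, (innerₛₗ ℝ (e i) : H →ₗ[ℝ] ℝ).smulRight (b i)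
  have hJ : ∀ x, J x = ∑ i, ⟪b i, x⟫_ℝ • e i := fun x => by
    simp only [J, LinearMap.sum_apply, LinearMap.smulRight_apply, innerₛₗ_apply_apply]
  have hK : ∀ x, K x = ∑ i, ⟪e i, x⟫_ℝ • b i := fun x => by
    simp only [K, LinearMap.sum_apply, LinearMap.smulRight_apply, innerₛₗ_apply_apply]
  have iJ : ∀ i x, ⟪e i, J x⟫_ℝ = ⟪b i, x⟫_ℝ := fun i x => by
    rw [hJ]
    exact he.inner_right_fintype (fun j => ⟪b j, x⟫_ℝ) i
  have iK : ∀ i x, ⟪b i, K x⟫_ℝ = ⟪e i, x⟫_ℝ := fun i x => by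
    rw [hK]
    exact b.orthonormal.inner_right_fintype (fun j => ⟪e j, x⟫_ℝ) i
  have KJ : ∀ x, K (J x) = x := fun x => TLA_ext b fun i => by rw [iK, iJ]
  have JK : ∀ x, J (K x) = E x := fun x => by
    rw [hJ, hE]
    exact Finset.sum_congr rfl fun i _ => by rw [iK]
  have ad : ∀ x y, ⟪J x, y⟫_ℝ = ⟪x, K y⟫_ℝ := fun x y => by
    rw [hJ, hK, sum_inner, inner_sum]
    exact Finset.sum_congr rfl fun i _ => by
      rw [real_inner_smul_left, real_inner_smul_right, real_inner_comm (b i), mul_comm]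
  have ad' : ∀ x y, ⟪K y, x⟫_ℝ = ⟪y, J x⟫_ℝ := fun x y => by
    rw [real_inner_comm, ← ad, real_inner_comm]
  have nJ : ∀ x, ‖J x‖ ^ 2 = ‖x‖ ^ 2 := fun x => by
    rw [← real_inner_self_eq_norm_sq, ad, KJ, real_inner_self_eq_norm_sq]
  have EJ : ∀ x, E (J x) = J x := fun x => by rw [← JK, KJ]
  have Jb : ∀ i, J (b i) = e i := fun i => by
    rw [hJ, Finset.sum_eq_single i]
    · rw [b.inner_eq_one, one_smul]
    · intro k _ hk
      rw [b.orthonormal.2 hk, zero_smul]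
    · simp
  let g := K ∘ₗ (G : H →ₗ[ℝ] H) ∘ₗ J
  let a := K ∘ₗ (A : H →ₗ[ℝ] H) ∘ₗ J
  have hg : ∀ x, g x = K (G (J x)) := fun _ => rfl
  have ha : ∀ x, a x = K (A (J x)) := fun _ => rfl
  have EG : ∀ x, E (G x) = G x := fun x => by rw [← mul_apply_eq_comp, eG]
  have EA : ∀ x, E (A x) = A x := fun x => by rw [← mul_apply_eq_comp, eA]
  have st : ∀ x, (E - G * A) (J x) = J ((1 - g * a) x) := fun x => by
    simp only [sub_apply, mul_apply_eq_comp, LinearMap.sub_apply,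
      Module.End.mul_apply, Module.End.one_apply, map_sub, hg, ha, JK, EG, EA, EJ]
  have pw : ∀ (m : ℕ) x, ((E - G * A) ^ m) (J x) = J (((1 - g * a) ^ m) x) := fun m => by
    induction m with
    | zero => intro x; simp
    | succ m ih =>
      intro x
      rw [pow_succ, pow_succ, mul_apply_eq_comp, Module.End.mul_apply, st, ih]
  have key := TLA_fin (N := N) (g := g) (a := a) (Λ := Λ) (δ := δ) (by simp)
    (fun x y => by rw [hg, hg, ad', sG, ad]) (fun x y => by rw [ha, ha, ad', sA, ad])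
    (fun x => by rw [hg, ad', ← nJ]; exact hG _ (EJ x)) hδ hΛ j (K ∘ₗ V.subtype)
    (fun x y hxy => by
      apply Subtype.ext
      rw [← (hV _ x.2).1, ← (hV _ y.2).1, ← JK, ← JK]
      exact congrArg J hxy)
    (fun x => by
      show ⟪a (K x), K x⟫_ℝ ≤ δ * ‖K x‖ ^ 2
      rw [ha, ad', ← nJ, JK, (hV _ x.2).1]
      exact (hV _ x.2).2)
  rw [LinearMap.trace_eq_sum_inner _ b] at key
  refine key.trans (le_of_eq (Finset.sum_congr rfl fun i _ => ?_))
  rw [← iJ, ← pw, Jb]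

theorem stLA : StLA := by
  intro n φ C G A Λ δ j V hφ sG sA eG eA hG hδ hΛ hV
  exact TLA_main hφ.on φ.E G A (Fm.E_apply φ) Λ δ j V sG sA eG eA hG hδ hΛ hV

end Pool.Agent.MP_4f0ed6_gt.U

end

section

set_option autoImplicit false
set_option linter.dupNamespace false

open MeasureTheory Set Metric Filter Topology
open scoped InnerProductSpace ENNReal Classical

namespace Pool.Agent.MP_4f0ed6_gt.U

variable {E : Type} [NormedAddCommGroup E] [NormedSpace ℝ E]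

/-- continuous convergence of operators -/
def TTrLimC (A : ℕ → E →L[ℝ] E) (A0 : E →L[ℝ] E) : Prop :=
  ∀ (v : ℕ → E) (v0 : E), Tendsto v atTop (𝓝 v0) → Tendsto (fun i => A i (v i)) atTop (𝓝 (A0 v0))

theorem TTrLim_const (A : E →L[ℝ] E) : TTrLimC (fun _ => A) A :=
  fun _ v0 h => (A.continuous.tendsto v0).comp h

theorem TTrLimC.mul {A B : ℕ → E →L[ℝ] E} {A0 B0 : E →L[ℝ] E} (h : TTrLimC A A0)
    (h' : TTrLimC B B0) : TTrLimC (fun i => A i * B i) (A0 * B0) :=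
  fun v v0 hv => h _ _ (h' v v0 hv)

theorem TTrLimC.smul {A : ℕ → E →L[ℝ] E} {A0 : E →L[ℝ] E} (h : TTrLimC A A0) (a : ℝ) :
    TTrLimC (fun i => a • A i) (a • A0) :=
  fun v v0 hv => (h v v0 hv).const_smul a

theorem TTrLim_zero {A : ℕ → E →L[ℝ] E} {M : ℝ} (hM : ∀ i, ‖A i‖ ≤ M) {v : ℕ → E}
    (hv : Tendsto v atTop (𝓝 0)) : Tendsto (fun i => A i (v i)) atTop (𝓝 0) := by
  refine squeeze_zero_norm (fun i => (A i).le_of_opNorm_le (hM i) _) ?_
  simpa using hv.norm.const_mul M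

theorem TTrLim_bdd {A : ℕ → E →L[ℝ] E} {A0 : E →L[ℝ] E} {M : ℝ} (hM : ∀ i, ‖A i‖ ≤ M)
    (h : ∀ x, Tendsto (fun i => A i x) atTop (𝓝 (A0 x))) : TTrLimC A A0 := fun v v0 hv => by
  simpa using (TTrLim_zero hM (tendsto_sub_nhds_zero_iff.2 hv)).add (h v0)

theorem TTrLim_inv {X : ℕ → E →L[ℝ] E} {X0 : E →L[ℝ] E} {M : ℝ} (h : TTrLimC X X0)
    (hu : ∀ i, IsUnit (1 - X i)) (h0 : IsUnit (1 - X0)) (hM : ∀ i, ‖Ring.inverse (1 - X i)‖ ≤ M) :
    TTrLimC (fun i => Ring.inverse (1 - X i)) (Ring.inverse (1 - X0)) := by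
  refine TTrLim_bdd hM fun x => ?_
  have e : ∀ i, Ring.inverse (1 - X i) = Ring.inverse (1 - X i) * ((X i - X0) *
      Ring.inverse (1 - X0)) + Ring.inverse (1 - X0) := fun i => by
    rw [show X i - X0 = 1 - X0 - (1 - X i) by abel, sub_mul, mul_sub, Ring.mul_inverse_cancel _ h0,
      ← mul_assoc, Ring.inverse_mul_cancel _ (hu i), mul_one, one_mul, sub_add_cancel]
  have h1 := (TTrLim_zero hM (tendsto_sub_nhds_zero_iff.2
    (h _ (Ring.inverse (1 - X0) x) tendsto_const_nhds))).add_const (Ring.inverse (1 - X0) x)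
  rw [zero_add] at h1
  refine h1.congr fun i => ?_
  conv_rhs => rw [e i]
  rfl

theorem stTrLim (hInv : StInv) : StTrLim := by
  intro n β hβ φ hφ hE l σ c x
  have h1 : TTrLimC (fun i => (φ i).E) (prS β.C) := TTrLim_bdd (M := 1) (fun i =>
    ContinuousLinearMap.opNorm_le_bound _ zero_le_one fun x => by
      simpa using Fm.norm_E_le (hφ i) x) hE
  have h2 : TTrLimC (fun i => (φ i).E * β.B * (φ i).E) β.B := by
    have := (h1.mul (TTrLim_const β.B)).mul h1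
    rwa [hβ.cut, hβ.cut'] at this
  have h3 : ∀ τ o c, TTrLimC (fun i => β.w τ o c • (pr c * (β.hat (φ i).E).op o))
      (β.w τ o c • (pr c * β.op o)) := by
    intro τ o c
    rcases o with _ | u
    · exact ((TTrLim_const _).mul h2).smul _
    by_cases hc : c ∈ β.U u
    · obtain ⟨θ, -, t1, t2, t3⟩ := hInv n β hβ u
      have h0 : IsUnit (1 - prS (β.U u) * β.B * prS (β.U u)) :=
        (Units.oneSub _ (t2.trans_lt t1)).isUnit
      have h4 := (TTrLim_const (pr c)).mul ((TTrLim_inv (((TTrLim_const (prS (β.U u))).mul h2).mul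
        (TTrLim_const (prS (β.U u)))) (fun i => (t3 _ (hφ i)).2.1) h0
          fun i => (t3 _ (hφ i)).2.2.1).mul (((TTrLim_const (prS (β.U u))).mul h2).mul
            (TTrLim_const (1 - prS (β.U u)))))
      have h5 : prS (β.U u) * β.B * (1 - prS (β.U u)) =
          (1 - prS (β.U u) * β.B * prS (β.U u)) * (prS (β.U u) * β.H u) := by
        rw [sub_mul, one_mul, ← mul_assoc _ _ (β.H u), mul_assoc _ (prS _) (prS _), prS_mul,
          Finset.inter_self, eq_sub_iff_add_eq, ← hβ.res]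
      rw [h5, Ring.inverse_mul_cancel_left _ _ h0, ← mul_assoc, pr_prS, if_pos hc] at h4
      exact h4.smul _
    · have h4 : β.w τ (some u) c = 0 := by cases τ <;> simp [Bk.w, hc]
      simp only [h4, zero_smul]
      exact TTrLim_const _
  have h4 : ∀ l σ c, TTrLimC (fun i => (β.hat (φ i).E).XS l σ c) (β.XS l σ c) := by
    intro l
    induction l with
    | nil => exact fun _ c => TTrLim_const (pr c)
    | cons τ l ih =>
      rintro (_ | ⟨y, σ⟩) c
      · exact TTrLim_const (pr c)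
      · have e : ∀ i, (β.hat (φ i).E).w τ y.1 c = β.w τ y.1 c := fun i => by
          cases τ <;> cases y.1 <;> rfl
        simp only [Bk.XS, e, ← smul_mul_assoc]
        exact (h3 τ y.1 c).mul (ih σ y.2)
  exact (h1.mul ((h4 l σ c).mul h1)) _ x tendsto_const_nhds

end Pool.Agent.MP_4f0ed6_gt.U

end

section

set_option autoImplicit false
set_option linter.dupNamespace false

open MeasureTheory Set Metric Filter Topology
open scoped InnerProductSpace ENNReal Classical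

namespace Pool.Agent.MP_4f0ed6_gt.U

theorem TRUS1_ins {n : ℕ} (W : LI n) (cb : ℝ) {z : Fin n} {Y : Finset (Fin n)} (h : z ∉ Y) :
    W + WZ cb (insert z Y) - (W + WZ cb Y) = WZ cb {z} := by
  simp only [WZ, Finset.sum_insert h, Finset.sum_singleton]
  abel

theorem stRUS1 (hDOM : StDOM) : StRUS1 := by
  intro k n m H _ _ _ P hA K W hK hW hB x y hx hy Z g i
  have hR := hA.ok.h5 (K + 1)
  have hcb : 0 ≤ k.cb (K + 1) := by unfold Cst.cb; positivity
  have co : ∀ Y, P.Co (W + WZ (k.cb (K + 1)) Y) := fun Y =>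
    (hDOM k n m H P hA K W hK hW hB Y Y subset_rfl).1
  have bdd : ∀ Y, Bd (W + WZ (k.cb (K + 1)) Y) (K + 1) := fun Y => by
    simpa only [one_smul] using hB.add_WZ hcb zero_le_one le_rfl Y
  have pos : ∀ Y, Pp (g Y) := fun Y => hA.pos _ (co Y)
  have le : ∀ Y Y', Y ⊆ Y' → Le (g Y') (g Y) := fun Y Y' h =>
    (hDOM k n m H P hA K W hK hW hB Y Y' h).2
  have mono : ∀ z Y1 Y2 Y1' Y2', Y1 ⊆ Y1' → Y2 ⊆ Y2' →
      ⟪pr z (g Y1' x), g Y2' y⟫_ℝ ≤ ⟪pr z (g Y1 x), g Y2 y⟫_ℝ := fun z Y1 Y2 Y1' Y2' h1 h2 =>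
    (inner_mono_left (pos _ y hy) ((ct_pp z 3).mono (le _ _ h1 x hx))).trans
      (inner_mono_right (ct_pp z 3 _ (pos _ x hx)) (le _ _ h2 y hy))
  have half : ∀ z Y Y', k.cb (K + 1) * ⟪ct z 10 (g Y x), g Y' y⟫_ℝ ≤
      1 / 2 * ⟪pr z (g Y x), g Y' y⟫_ℝ := fun z Y Y' => by
    have h1 := hA.rev (K + 1) _ _ (by linarith) (co Y) (co Y') (bdd Y) (bdd Y') x y hx hy z
    have h2 : ⟪ct z 1 (g Y x), g Y' y⟫_ℝ ≤ ⟪pr z (g Y x), g Y' y⟫_ℝ :=
      inner_mono_left (pos _ y hy) (mul_le (ind_mono z (by norm_num)) _ (pos _ x hx))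
    have h3 : ⟪ct z 10 (g Y x), g Y' y⟫_ℝ ≤ k.CR (K + 1) * ⟪pr z (g Y x), g Y' y⟫_ℝ := by
      rw [inner_ct]
      exact ((real_inner_le_norm _ _).trans h1).trans (mul_le_mul_of_nonneg_left h2 hR.le)
    refine (mul_le_mul_of_nonneg_left h3 hcb).trans (le_of_eq ?_)
    unfold Cst.cb
    field_simp
  have step : ∀ z Y, z ∉ Y → ⟪x, g Y y⟫_ℝ - ⟪x, g (insert z Y) y⟫_ℝ =
      ⟪pr z (g Y x), g (insert z Y) y⟫_ℝ -
        k.cb (K + 1) * ⟪ct z 10 (g Y x), g (insert z Y) y⟫_ℝ := fun z Y h => by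
    have := (co Y).res_inner hA.sym (co (insert z Y)) x y
    rwa [TRUS1_ins W _ h, inner_mul_WZ, Finset.sum_singleton] at this
  have i0 : ∀ z, 0 ≤ i z := fun z => inner_nn (ct_pp z 3 _ (pos _ x hx)) (pos _ y hy)
  have low : ∀ Y : Finset (Fin n), Y ⊆ Z →
      ⟪x, g Y y⟫_ℝ + 1 / 2 * ∑ z ∈ Y, i z ≤ ⟪x, g ∅ y⟫_ℝ := fun Y => by
    induction Y using Finset.induction_on with
    | empty => simp
    | insert z Y hz ih =>
      intro hY
      have h0 : Y ⊆ Z := (Finset.subset_insert z Y).trans hY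
      have h1 : i z ≤ _ := mono z Y (insert z Y) _ _ (Finset.subset_erase.2 ⟨h0, hz⟩)
        (Finset.insert_subset_insert z h0)
      rw [Finset.sum_insert hz]
      linarith [ih h0, step z Y hz, half z Y (insert z Y)]
  have up : ∀ S : Finset (Fin n), ⟪x, g Z y⟫_ℝ ≤ ⟪x, g (Z ∪ S) y⟫_ℝ + ∑ z ∈ S, i z := fun S => by
    induction S using Finset.induction_on with
    | empty => simp
    | insert z S hz ih =>
      rw [Finset.sum_insert hz, Finset.union_insert]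
      by_cases h : z ∈ Z ∪ S
      · rw [Finset.insert_eq_of_mem h]
        linarith [i0 z]
      · have h1 : _ ≤ i z := mono z _ _ (Z ∪ S) (insert z (Z ∪ S))
          ((Finset.erase_subset z Z).trans Finset.subset_union_left)
          (Finset.insert_subset_insert z Finset.subset_union_left)
        have h2 := mul_nonneg hcb
          (inner_nn (ct_pp z 10 _ (pos (Z ∪ S) x hx)) (pos (insert z (Z ∪ S)) y hy))
        linarith [step z _ h]
  refine ⟨i0, low Z subset_rfl, fun A h1 h2 => ?_⟩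
  have f := hA.flux (K + 1) _ (by linarith) (co (Z ∪ bd P.adj A)) (bdd _) A x y hx hy h1 h2
  have f1 : ∑ c ∈ bd P.adj A, ⟪pr c (g (Z ∪ bd P.adj A) x), g (Z ∪ bd P.adj A) y⟫_ℝ ≤
      ∑ c ∈ bd P.adj A, i c := Finset.sum_le_sum fun c hc =>
    mono c _ _ _ _ ((Finset.erase_subset c Z).trans Finset.subset_union_left)
      (Finset.insert_subset (Finset.mem_union_right _ hc) Finset.subset_union_left)
  have f2 := f.trans (mul_le_mul_of_nonneg_left f1
    (mul_nonneg hA.ok.h3.le (Real.sqrt_nonneg _)))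
  have f3 := up (bd P.adj A)
  rw [add_mul, one_mul]
  exact f3.trans (by rw [add_comm]; exact add_le_add_right f2 _)

end Pool.Agent.MP_4f0ed6_gt.U

end

section

set_option autoImplicit false
set_option linter.dupNamespace false

open MeasureTheory Set Metric Filter Topology
open scoped InnerProductSpace ENNReal Classical

namespace Pool.Agent.MP_4f0ed6_gt.U

variable {n : ℕ}

/-- the sum over the short sequences for one block datum -/
noncomputable def tShortF (β : Bk n) (rel : Fin n → Fin n → Prop) (x : L2 n) (l : List Bool)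
    (c : Fin n) (y : L2 n) : ℝ :=
  sumS l.length (fun σ => if Sh rel c σ then ⟪y, β.XS l σ c x⟫_ℝ else 0)

theorem tShort_pr_pp (c : Fin n) : Pp (pr c) := ct_pp c 3

theorem tShort_pr_sy (c : Fin n) (x y : L2 n) : ⟪pr c x, y⟫_ℝ = ⟪x, pr c y⟫_ℝ :=
  mul_sy (ind c 3) x y

theorem tShort_adj (T : Op n) (c : Fin n) (y z : L2 n) :
    ⟪ContinuousLinearMap.adjoint T (pr c y), z⟫_ℝ = ⟪y, pr c (T z)⟫_ℝ := by
  rw [ContinuousLinearMap.adjoint_inner_left, tShort_pr_sy]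

theorem tShort_w_eq {β β0 : Bk n} (h : β.p = β0.p ∧ β.U = β0.U) (τ : Bool) (o : Option (Fin n))
    (c : Fin n) : β.w τ o c = β0.w τ o c := by
  cases τ <;> cases o <;> simp [Bk.w, Bk.q, h.1, h.2]

theorem tShort_XS_pp (β : Bk n) (hw : ∀ τ o c, 0 ≤ β.w τ o c) (hop : ∀ o, Pp (β.op o)) :
    ∀ (l : List Bool) (σ : List (St n)) (c : Fin n), Pp (β.XS l σ c)
  | [], _, c => by simpa [Bk.XS] using tShort_pr_pp c
  | _ :: _, [], c => by simpa [Bk.XS] using tShort_pr_pp c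
  | τ :: l, s :: σ, c => by
    simp only [Bk.XS]
    exact Pp.smul (hw _ _ _) (((tShort_pr_pp c).mul (hop _)).mul (tShort_XS_pp β hw hop l σ s.2))

theorem tShortF_nil (β : Bk n) (rel : Fin n → Fin n → Prop) (x : L2 n) (c : Fin n) (y : L2 n) :
    tShortF β rel x [] c y = ⟪y, pr c x⟫_ℝ := by
  simp [tShortF, sumS, Sh, Bk.XS]

theorem tShortF_cons (β : Bk n) (rel : Fin n → Fin n → Prop) (x : L2 n) (τ : Bool)
    (l : List Bool) (c : Fin n) (y : L2 n) :
    tShortF β rel x (τ :: l) c y = ∑ o, β.w τ o c * ∑ c', if rel c c' then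
      tShortF β rel x l c' (ContinuousLinearMap.adjoint (β.op o) (pr c y)) else 0 := by
  unfold tShortF
  rw [List.length_cons, sumS, Fintype.sum_prod_type]
  refine Finset.sum_congr rfl fun o _ => ?_
  rw [Finset.mul_sum]
  refine Finset.sum_congr rfl fun c' _ => ?_
  by_cases h : rel c c'
  · rw [if_pos h, ← sumS_mul]
    refine sumS_congr _ fun σ _ => ?_
    by_cases h2 : Sh rel c' σ
    · rw [if_pos h2, if_pos (show Sh rel c ((o, c') :: σ) from ⟨h, h2⟩), tShort_adj]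
      simp only [Bk.XS, smul_apply, mul_apply_eq_comp,
        inner_smul_right]
    · rw [if_neg h2, if_neg (show ¬ Sh rel c ((o, c') :: σ) from fun h3 => h2 h3.2), mul_zero]
  · rw [if_neg h, mul_zero]
    refine (sumS_congr _ fun σ _ => ?_).trans (sumS_zero _)
    rw [if_neg (show ¬ Sh rel c ((o, c') :: σ) from fun h3 => h h3.1)]

theorem tShortF_mono (β : Bk n) (hw : ∀ τ o c, 0 ≤ β.w τ o c) (hop : ∀ o, Pp (β.op o))
    (rel : Fin n → Fin n → Prop) {x : L2 n} (hx : 0 ≤ x) (l : List Bool) (c' c : Fin n)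
    {y : L2 n} (hy : 0 ≤ y) {T T' : Op n} (hT : Le T T') :
    tShortF β rel x l c' (ContinuousLinearMap.adjoint T (pr c y)) ≤
      tShortF β rel x l c' (ContinuousLinearMap.adjoint T' (pr c y)) := by
  unfold tShortF
  refine sumS_le _ fun σ _ => ?_
  by_cases h : Sh rel c' σ
  · rw [if_pos h, if_pos h, tShort_adj, tShort_adj]
    exact inner_mono_right hy ((tShort_pr_pp c).mono (hT _ (tShort_XS_pp β hw hop l σ c' x hx)))
  · rw [if_neg h, if_neg h]

theorem tShort_sum_rel (rel : Fin n → Fin n → Prop) (S : Finset (Fin n)) (c : Fin n)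
    (hS : ∀ c', rel c c' → c' ∈ S) {y ψ : L2 n} (hy : 0 ≤ y) (hψ : 0 ≤ ψ) :
    (∑ c', if rel c c' then ⟪y, pr c' ψ⟫_ℝ else 0) ≤ ⟪y, prS S ψ⟫_ℝ := by
  rw [prS_eq_sum, sum_apply, inner_sum, ← Finset.sum_filter]
  refine Finset.sum_le_sum_of_subset_of_nonneg (fun c' hc' => hS c' (Finset.mem_filter.1 hc').2)
    fun c' _ _ => inner_nn hy (tShort_pr_pp c' ψ hψ)

theorem stShort : StShort := by
  intro n Ξ _ β β0 rel A ψ θ L hpU hp hq hθ hψ hop hop0 hA hAL hU hB hH hΘ x hx hxψ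
  have hw0 : ∀ τ o c, 0 ≤ β0.w τ o c := β0.w_nn hp hq
  have hw : ∀ ξ τ o c, 0 ≤ (β ξ).w τ o c := fun ξ τ o c => by
    rw [tShort_w_eq (hpU ξ)]; exact hw0 τ o c
  have hψS : 0 ≤ prS (A L) ψ := prS_pp _ ψ hψ
  have hop1 : ∀ c ∈ A L, ∀ τ o, β0.w τ o c ≠ 0 → pr c (β0.op o (prS (A L) ψ)) ≤ pr c ψ := by
    intro c hc τ o h
    cases o with
    | none => exact hB c hc
    | some u =>
      refine hH c hc u ?_
      by_contra hu
      cases τ <;> simp [Bk.w, hu] at h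
  have hstep : ∀ (k : ℕ), k + 1 ≤ L → ∀ c ∈ A (L - (k + 1)), ∀ c', rel c c' → c' ∈ A (L - k) := by
    intro k hk c hc c' h
    have := hA _ c c' hc h
    rwa [show L - (k + 1) + 1 = L - k by omega] at this
  have hyn : ∀ (T : Op n), Pp T → ∀ c y, 0 ≤ y → 0 ≤ ContinuousLinearMap.adjoint T (pr c y) :=
    fun T hT c y hy => hT.adj _ (tShort_pr_pp c y hy)
  -- the inner sum of one step, given the bound for the tail
  have inner1 : ∀ ξ (l : List Bool), l.length + 1 ≤ L →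
      (∀ c ∈ A (L - l.length), ∀ y, 0 ≤ y → tShortF (β ξ) rel (x ξ) l c y ≤ ⟪y, pr c ψ⟫_ℝ) →
      ∀ c ∈ A (L - (l.length + 1)), ∀ y, 0 ≤ y → ∀ o,
      (∑ c', if rel c c' then tShortF (β ξ) rel (x ξ) l c'
        (ContinuousLinearMap.adjoint ((β ξ).op o) (pr c y)) else 0) ≤
        ⟪y, pr c ((β ξ).op o (prS (A L) ψ))⟫_ℝ := by
    intro ξ l hl ih c hc y hy o
    have hy' := hyn _ (hop ξ o).1 c y hy
    rw [← tShort_adj]
    refine le_trans (Finset.sum_le_sum fun c' _ => ?_)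
      (tShort_sum_rel rel (A L) c (fun c' h => hAL _ (Nat.sub_le _ _) (hstep _ hl c hc c' h))
        hy' hψ)
    by_cases h : rel c c'
    · rw [if_pos h, if_pos h]
      exact ih c' (hstep _ hl c hc c' h) _ hy'
    · rw [if_neg h, if_neg h]
  have b1 : ∀ ξ (l : List Bool), l.length ≤ L → ∀ c ∈ A (L - l.length), ∀ y, 0 ≤ y →
      tShortF (β ξ) rel (x ξ) l c y ≤ ⟪y, pr c ψ⟫_ℝ := by
    intro ξ l
    induction l with
    | nil =>
      intro _ c hc y hy
      rw [tShortF_nil]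
      exact inner_mono_right hy (hxψ ξ c (by simpa using hc))
    | cons τ l ih =>
      intro hl c hc y hy
      rw [List.length_cons] at hl hc
      have hcL : c ∈ A L := hAL _ (Nat.sub_le _ _) hc
      rw [tShortF_cons]
      calc _ ≤ ∑ o, β0.w τ o c * ⟪y, pr c ψ⟫_ℝ := by
            refine Finset.sum_le_sum fun o _ => ?_
            rw [tShort_w_eq (hpU ξ)]
            by_cases h0 : β0.w τ o c = 0
            · rw [h0, zero_mul, zero_mul]
            refine mul_le_mul_of_nonneg_left ?_ (hw0 τ o c)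
            refine (inner1 ξ l hl (ih (by omega)) c hc y hy o).trans (inner_mono_right hy ?_)
            exact ((tShort_pr_pp c).mono ((hop ξ o).2 _ hψS)).trans (hop1 c hcL τ o h0)
        _ = _ := by rw [← Finset.sum_mul, Bk.sum_w, one_mul]
  have hcard : (0 : ℝ) ≤ (Fintype.card Ξ : ℝ) := Nat.cast_nonneg _
  have b2 : ∀ (l : List Bool), l.length ≤ L → ∀ c ∈ A (L - l.length), ∀ y, 0 ≤ y →
      ∑ ξ, tShortF (β ξ) rel (x ξ) l c y ≤
        (Fintype.card Ξ : ℝ) * (((1 - β0.p) ^ l.count true + θ) * ⟪y, pr c ψ⟫_ℝ) := by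
    intro l
    induction l with
    | nil =>
      intro hl c hc y hy
      have ha : 0 ≤ ⟪y, pr c ψ⟫_ℝ := inner_nn hy (tShort_pr_pp c ψ hψ)
      calc _ ≤ ∑ _ξ : Ξ, ⟪y, pr c ψ⟫_ℝ := Finset.sum_le_sum fun ξ _ => b1 ξ [] hl c hc y hy
        _ = (Fintype.card Ξ : ℝ) * ⟪y, pr c ψ⟫_ℝ := by
            rw [Finset.sum_const, Finset.card_univ, nsmul_eq_mul]
        _ ≤ _ := by
            refine mul_le_mul_of_nonneg_left ?_ hcard
            rw [List.count_nil, pow_zero]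
            nlinarith [mul_nonneg hθ ha]
    | cons τ l ih =>
      intro hl c hc y hy
      rw [List.length_cons] at hl hc
      have hcL : c ∈ A L := hAL _ (Nat.sub_le _ _) hc
      have ha : 0 ≤ ⟪y, pr c ψ⟫_ℝ := inner_nn hy (tShort_pr_pp c ψ hψ)
      have hwc : β0.w true (some c) c = β0.p := by simp [Bk.w, hU c hcL]
      have hp1 : β0.p ≤ 1 := by
        rw [← hwc, ← β0.sum_w true c]
        exact Finset.single_le_sum (fun o _ => hw0 true o c) (Finset.mem_univ _)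
      have hm : 0 ≤ (1 - β0.p) ^ l.count true + θ :=
        add_nonneg (pow_nonneg (sub_nonneg.2 hp1) _) hθ
      set G : Option (Fin n) → ℝ := fun o => ∑ ξ, ∑ c', if rel c c' then
        tShortF (β ξ) rel (x ξ) l c' (ContinuousLinearMap.adjoint ((β ξ).op o) (pr c y)) else 0
        with hG
      have hE : ∑ ξ, tShortF (β ξ) rel (x ξ) (τ :: l) c y = ∑ o, β0.w τ o c * G o := by
        simp only [tShortF_cons, hG, Finset.mul_sum (s := (Finset.univ : Finset Ξ))]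
        rw [Finset.sum_comm]
        refine Finset.sum_congr rfl fun o _ => Finset.sum_congr rfl fun ξ _ => ?_
        rw [tShort_w_eq (hpU ξ)]
      have hGa : ∀ o, β0.w τ o c ≠ 0 → G o ≤
          (Fintype.card Ξ : ℝ) * (((1 - β0.p) ^ l.count true + θ) * ⟪y, pr c ψ⟫_ℝ) := by
        intro o h0
        have hy' := hyn _ (hop0 o) c y hy
        calc G o = ∑ c', ∑ ξ, if rel c c' then tShortF (β ξ) rel (x ξ) l c'
              (ContinuousLinearMap.adjoint ((β ξ).op o) (pr c y)) else 0 := Finset.sum_comm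
          _ ≤ ∑ c', (Fintype.card Ξ : ℝ) * (((1 - β0.p) ^ l.count true + θ) *
              if rel c c' then ⟪ContinuousLinearMap.adjoint (β0.op o) (pr c y), pr c' ψ⟫_ℝ
              else 0) := by
            refine Finset.sum_le_sum fun c' _ => ?_
            by_cases h : rel c c'
            · simp only [if_pos h]
              refine le_trans (Finset.sum_le_sum fun ξ _ => ?_)
                (ih (by omega) c' (hstep _ hl c hc c' h) _ hy')
              exact tShortF_mono (β ξ) (hw ξ) (fun o => (hop ξ o).1) rel (hx ξ) l c' c hy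
                (hop ξ o).2
            · simp [if_neg h]
          _ ≤ _ := by
            rw [← Finset.mul_sum, ← Finset.mul_sum]
            refine mul_le_mul_of_nonneg_left (mul_le_mul_of_nonneg_left ?_ hm) hcard
            refine (tShort_sum_rel rel (A L) c
              (fun c' h => hAL _ (Nat.sub_le _ _) (hstep _ hl c hc c' h)) hy' hψ).trans ?_
            rw [tShort_adj]
            exact inner_mono_right hy (hop1 c hcL τ o h0)
      have hGb : G (some c) ≤ (Fintype.card Ξ : ℝ) * (θ * ⟪y, pr c ψ⟫_ℝ) := by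
        refine le_trans (Finset.sum_le_sum fun ξ _ => ?_) (hΘ c hcL y hy)
        exact inner1 ξ l hl (b1 ξ l (by omega)) c hc y hy (some c)
      have hGw : ∀ o, β0.w τ o c * G o ≤ β0.w τ o c *
          ((Fintype.card Ξ : ℝ) * (((1 - β0.p) ^ l.count true + θ) * ⟪y, pr c ψ⟫_ℝ)) := by
        intro o
        by_cases h0 : β0.w τ o c = 0
        · rw [h0, zero_mul, zero_mul]
        · exact mul_le_mul_of_nonneg_left (hGa o h0) (hw0 τ o c)
      rw [hE]
      cases τ with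
      | false =>
        refine (Finset.sum_le_sum fun o _ => hGw o).trans (le_of_eq ?_)
        rw [← Finset.sum_mul, Bk.sum_w, one_mul]
        simp
      | true =>
        have hs : ∑ o ∈ Finset.univ.erase (some c), β0.w true o c = 1 - β0.p := by
          have := Finset.add_sum_erase Finset.univ (fun o => β0.w true o c)
            (Finset.mem_univ (some c))
          rw [Bk.sum_w, hwc] at this
          linarith
        rw [← Finset.add_sum_erase Finset.univ (fun o => β0.w true o c * G o)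
          (Finset.mem_univ (some c)), hwc]
        have h1 : ∑ o ∈ Finset.univ.erase (some c), β0.w true o c * G o ≤ (1 - β0.p) *
            ((Fintype.card Ξ : ℝ) * (((1 - β0.p) ^ l.count true + θ) * ⟪y, pr c ψ⟫_ℝ)) := by
          refine (Finset.sum_le_sum fun o _ => hGw o).trans (le_of_eq ?_)
          rw [← Finset.sum_mul, hs]
        have h2 := mul_le_mul_of_nonneg_left hGb hp
        rw [List.count_cons_self, pow_succ]
        calc _ ≤ β0.p * ((Fintype.card Ξ : ℝ) * (θ * ⟪y, pr c ψ⟫_ℝ)) + (1 - β0.p) *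
            ((Fintype.card Ξ : ℝ) * (((1 - β0.p) ^ l.count true + θ) * ⟪y, pr c ψ⟫_ℝ)) :=
              add_le_add h2 h1
          _ = _ := by ring
  exact b2

end Pool.Agent.MP_4f0ed6_gt.U

end

section

set_option autoImplicit false
set_option linter.dupNamespace false

open MeasureTheory Set Metric Filter Topology
open scoped InnerProductSpace ENNReal Classical

namespace Pool.Agent.MP_4f0ed6_gt.U

theorem TAbs_kappa {k : Cst} (hk : k.Ok) : ∃ κ : ℝ, k.κ0 + 1 ≤ κ / 2 ∧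
    (2 * k.Δ : ℝ) ^ 2 ≤ 1 + κ / (2 * k.Cf * √(1 + κ)) := by
  have h2 := hk.h2
  have h3 := hk.h3
  obtain ⟨A, hA⟩ : ∃ A : ℝ, A = (2 * k.Δ : ℝ) ^ 2 := ⟨_, rfl⟩
  have A0 : 0 ≤ A := hA ▸ sq_nonneg _
  have c0 : 0 ≤ k.Cf * A := mul_nonneg h3.le A0
  obtain ⟨s, hs⟩ : ∃ s : ℝ, s = 2 * (k.Cf * A) + 2 * k.κ0 + 3 := ⟨_, rfl⟩
  have s1 : 1 ≤ s := by linarith
  refine ⟨s ^ 2 - 1, by nlinarith, ?_⟩
  rw [← hA, show 1 + (s ^ 2 - 1) = s ^ 2 by ring, Real.sqrt_sq (by linarith)]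
  have : A ≤ (s ^ 2 - 1) / (2 * k.Cf * s) := by
    rw [le_div_iff₀ (by positivity)]
    nlinarith
  linarith

theorem TAbs_th {k : Cst} (hk : k.Ok) (K : ℝ) (M : ℕ) {δ : ℝ} (hδ : 0 < δ) :
    ∃ N : ℕ, k.th K M N ≤ δ := by
  have h3 := hk.h3
  have D0 : 0 < 2 * ((M : ℝ) + 1) * (1 + k.Cf * √(1 + K)) := by positivity
  obtain ⟨N, hN⟩ := exists_nat_ge (1 / δ * (2 * ((M : ℝ) + 1) * (1 + k.Cf * √(1 + K))))
  refine ⟨N, ?_⟩
  rw [← le_div_iff₀ D0] at hN
  rw [Cst.th, one_div_le (by positivity) hδ]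
  linarith

theorem TAbs_tl (k : Cst) (r L : ℕ) {δ : ℝ} (hδ : 0 < δ) : ∃ ℓ : ℕ, k.tl r L ℓ ≤ δ := by
  have h : Tendsto (fun ℓ : ℕ => k.tl r L ℓ) atTop (𝓝 (2 * (L * (6 * (2 * k.Δ : ℝ) ^ (2 * r + 2)) ^ L *
      (4 * (2 * k.Δ : ℝ) ^ (2 * r + 2) * 0)))) :=
    (((tendsto_pow_atTop_nhds_zero_of_lt_one (r := (1 / 2 : ℝ)) (by norm_num)
      (by norm_num)).const_mul _).const_mul _).const_mul _
  simp only [mul_zero] at h
  exact (h.eventually (ge_mem_nhds hδ)).exists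

theorem stAbs (hAv : StAv) : StAbs := by
  intro k ε hε
  by_cases hk : k.Ok
  swap
  · exact ⟨0, fun n m H _ _ _ P hA => absurd hA.ok hk⟩
  obtain ⟨κ, k1, k2⟩ := TAbs_kappa hk
  obtain ⟨k0, h⟩ := hAv k κ k1 k2
  have R0 : 0 < k.CR (κ + 2) ^ 2 := pow_pos (hk.h5 _) 2
  have hδ : 0 < ε / 4 / k.CR (κ + 2) ^ 2 := by positivity
  obtain ⟨M, hM⟩ := exists_nat_ge ((k0 : ℝ) / (ε / 4))
  obtain ⟨N, hN⟩ := TAbs_th hk (κ + 2) M hδ
  have d1 : (1 : ℝ) ≤ (k.Δ : ℝ) ^ (2 * N) := one_le_pow₀ (by exact_mod_cast hk.h1)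
  have p0 : 0 < ((k.Δ : ℝ) ^ (2 * N))⁻¹ := inv_pos.2 (by linarith)
  have p1 : ((k.Δ : ℝ) ^ (2 * N))⁻¹ ≤ 1 := inv_le_one_of_one_le₀ d1
  obtain ⟨j, hj⟩ := exists_pow_lt_of_lt_one hδ (show 1 - ((k.Δ : ℝ) ^ (2 * N))⁻¹ < 1 by linarith)
  have hj' : (1 - ((k.Δ : ℝ) ^ (2 * N))⁻¹) ^ (2 * j + 2) ≤ ε / 4 / k.CR (κ + 2) ^ 2 :=
    (pow_le_pow_of_le_one (by linarith) (by linarith) (by omega)).trans hj.le
  obtain ⟨ℓ, hℓ⟩ := TAbs_tl k (2 * N) (6 * j + 5) hδ
  obtain ⟨C0, hC⟩ := h M N j ℓ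
  refine ⟨C0, fun n m H _ _ _ P hA => (hC n m H P hA).trans ?_⟩
  have e1 : (k0 : ℝ) / (M + 1) ≤ ε / 4 := by
    rw [div_le_iff₀ (by positivity)] at hM ⊢
    linarith
  have e2 := mul_le_mul_of_nonneg_left (add_le_add (add_le_add hj' hN) hℓ) R0.le
  have e3 : k.CR (κ + 2) ^ 2 * (ε / 4 / k.CR (κ + 2) ^ 2 + ε / 4 / k.CR (κ + 2) ^ 2 +
      ε / 4 / k.CR (κ + 2) ^ 2) = 3 * (ε / 4) := by
    have := (hk.h5 (κ + 2)).ne'
    field_simp
    ring
  have e4 := mul_le_mul_of_nonneg_left (add_le_add e1 (e2.trans e3.le)) (Nat.cast_nonneg (α := ℝ) n)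
  linarith

end Pool.Agent.MP_4f0ed6_gt.U

end
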