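import Pool.Agent.Mg.F4f0ed6a.G84f80a

section

set_option autoImplicit false
set_option linter.dupNamespace false

open MeasureTheory Set Metric Filter Topology
open scoped InnerProductSpace ENNReal Classical

namespace Pool.Agent.MP_4f0ed6_gt.U

/-- quantifier over all abstract problems that satisfy the axioms with constants `k` -/
def All (k : Cst) (p : ∀ (n m : ℕ) (H : Type) [NormedAddCommGroup H] [InnerProductSpace ℝ H]
    [CompleteSpace H], Pb n m H → Prop) : Prop :=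
  ∀ (n m : ℕ) (H : Type) [NormedAddCommGroup H] [InnerProductSpace ℝ H] [CompleteSpace H]
    (P : Pb n m H), P.Ax k → p n m H P

def StDOM : Prop := ∀ k : Cst, All k fun n _ _ _ _ _ P =>
  ∀ (K : ℝ) (W : LI n), 0 ≤ K → P.Co W → Bd W K → ∀ Z Z' : Finset (Fin n), Z ⊆ Z' →
    P.Co (W + WZ (k.cb (K + 1)) Z') ∧
      Le (P.G (W + WZ (k.cb (K + 1)) Z')) (P.G (W + WZ (k.cb (K + 1)) Z))

def StRUS1 : Prop := ∀ k : Cst, All k fun n m _ _ _ _ P =>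
  ∀ (K : ℝ) (W : LI n), 0 ≤ K → P.Co W → Bd W K → ∀ x y : L2 n, 0 ≤ x → 0 ≤ y →
    ∀ Z : Finset (Fin n),
      let g : Finset (Fin n) → Op n := fun Z => P.G (W + WZ (k.cb (K + 1)) Z)
      let i : Fin n → ℝ := fun z => ⟪pr z (g (Z.erase z) x), g (insert z Z) y⟫_ℝ
      (∀ z, 0 ≤ i z) ∧ ⟪x, g Z y⟫_ℝ + 1 / 2 * ∑ z ∈ Z, i z ≤ ⟪x, g ∅ y⟫_ℝ ∧
      ∀ A : Set (Nd n m), On {c | ∀ a, P.adj (.inl c) a → a ∈ A} x →
        On {c | ∀ a, P.adj (.inl c) a → a ∉ A} y →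
        ⟪x, g Z y⟫_ℝ ≤ (1 + k.Cf * √(1 + (K + 1))) * ∑ z ∈ bd P.adj A, i z

/-- the gain of the random potential over `N` shells -/
noncomputable def Cst.th (k : Cst) (K : ℝ) (M N : ℕ) : ℝ :=
  1 / (1 + N / (2 * (M + 1) * (1 + k.Cf * √(1 + K))))

def StRUS : Prop := ∀ k : Cst, All k fun n _ _ _ _ _ P =>
  ∀ (K : ℝ) (W : LI n), 0 ≤ K → P.Co W → Bd W K → ∀ (M N : ℕ) (c : Fin n) (x y : L2 n),
    0 ≤ x → 0 ≤ y → On {c} x → On {c' | c' ∉ bl P.adj (2 * N) c} y →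
    ∑ ξ : Fin n → Fin (M + 1), ⟪x, P.G (W + WZ (k.cb (K + 1)) (Zx ξ)) y⟫_ℝ ≤
      (Fintype.card (Fin n → Fin (M + 1)) : ℝ) * (k.th (K + 1) M N * ⟪x, P.G W y⟫_ℝ)

def StDEC : Prop := ∀ k : Cst, All k fun n _ _ _ _ _ P =>
  ∀ (κ : ℝ), 0 ≤ κ → (2 * k.Δ : ℝ) ^ 2 ≤ 1 + κ / (2 * k.Cf * √(1 + κ)) →
    ∀ (U : Finset (Fin n)) (ρ d : ℕ) (c c' : Fin n), U ⊆ bl P.adj ρ c → P.Co (Wt (κ / 2) U) →
    (∀ j < d, ¬ near P.adj j (.inl c) (.inl c')) →
    Le (pr c * P.G (Wt κ U) * pr c')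
      (((2 * k.Δ : ℝ) ^ (ρ + 2) * ((2 * k.Δ : ℝ)⁻¹) ^ d) • (pr c * P.G (Wt (κ / 2) U) * pr c'))

def StVEC : Prop := ∀ (n : ℕ) (ι : Type) [Fintype ι] (f : ι → L2 n) (g : L2 n) (M : Op n),
  Pp M → 0 ≤ g → (∀ x, 0 ≤ x → ∑ i, ⟪f i, x⟫_ℝ ^ 2 ≤ ⟪g, x⟫_ℝ ^ 2) →
  ∑ i, ⟪f i, M (f i)⟫_ℝ ≤ ⟪g, M g⟫_ℝ

/-- VEC applied to an orthonormal family in one cell -/
def StVEC2 : Prop := ∀ (n : ℕ) (ι : Type) [Fintype ι] (e : ι → L2 n) (g : L2 n) (A M : Op n)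
  (CR : ℝ) (c : Fin n), Orthonormal ℝ e → (∀ i, pr c (e i) = e i) → Sy A → Pp A → Pp M →
  0 ≤ CR → DR A CR c g → ∑ i, ⟪A (e i), M (A (e i))⟫_ℝ ≤ CR ^ 2 * ⟪A g, M (A g)⟫_ℝ

def StDREV : Prop := ∀ k : Cst, All k fun n _ _ _ _ _ P =>
  ∀ (K : ℝ) (W : LI n) (c : Fin n), 0 ≤ K → P.Co W → Bd W K →
    0 ≤ P.psn W c ∧ ‖ct c 1 (P.psn W c)‖ ≤ 1 ∧ ⟪ct c 1 (P.psn W c), pr c (P.psn W c)⟫_ℝ ≤ 1 ∧
    (∀ W', P.Co W' → Bd W' K → DR (P.G W') (k.CR K) c (ct c 1 (P.psn W c))) ∧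
    (∀ W', P.Co W' → Bd W' K → ∀ (κ : ℝ) (C : Finset (Fin n)), 0 ≤ κ → c ∈ C →
      DR (κ • (prS C * P.G W' * prS C)) (k.CR K) c (ct c 1 (P.psn W c)))

def StCON : Prop := ∀ (k : Cst) (a : ℝ), 0 < a → ∃ k0 : ℕ, All k fun n _ H _ _ _ P =>
  ∀ (z : Fin n) (E : Submodule ℝ H), E ≤ P.Kr →
    (∀ f ∈ E, f ≠ 0 → a * ‖ct z 10 (P.R f)‖ ^ 2 < ‖pr z (P.R f)‖ ^ 2) →
    Module.finrank ℝ E ≤ k0

def StLA2 : Prop := ∀ (H : Type) [AddCommGroup H] [Module ℝ H] (K : Submodule ℝ H)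
  [FiniteDimensional ℝ K] (ι : Type) (Z : Finset ι) (b : ι → H →ₗ[ℝ] H →ₗ[ℝ] ℝ) (k0 : ℕ),
  (∀ z u v, b z u v = b z v u) →
  (∀ z ∈ Z, ∀ E : Submodule ℝ H, E ≤ K → (∀ f ∈ E, f ≠ 0 → 0 < b z f f) →
    Module.finrank ℝ E ≤ k0) →
  ∃ K' : Submodule ℝ H, K' ≤ K ∧ Module.finrank ℝ K ≤ Module.finrank ℝ K' + k0 * Z.card ∧
    ∀ z ∈ Z, ∀ f ∈ K', b z f f ≤ 0

def StDist : Prop := ∀ (N : Type) [Fintype N] (adj : N → N → Prop) (Δ ℓ : ℕ) (a : N),
  Gr adj Δ → 1 ≤ Δ → ∃ d : N → ℕ, (∀ b, ∀ j < d b, ¬ near adj j a b) ∧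
    ∑ b, ((2 * Δ : ℝ)⁻¹) ^ d b ≤ 3 ∧
    ∑ b ∈ Finset.univ.filter (fun b => ¬ near adj ℓ a b), ((2 * Δ : ℝ)⁻¹) ^ d b ≤ 2 * (1 / 2) ^ ℓ

def StGOOD : Prop := ∀ k : Cst, All k fun n _ _ _ _ _ P =>
  ∀ R : ℕ, ∃ Z0 : Finset (Fin n), Z0.card ≤ k.Δ ^ (2 * R + 1) + 1 ∧ P.Good k Z0 R

def StLA : Prop := ∀ (n : ℕ) (φ : Fm n) (C : Finset (Fin n)) (G A : Op n) (Λ δ : ℝ) (j : ℕ)
  (V : Submodule ℝ (L2 n)), φ.Ok C → Sy G → Sy A → φ.E * G = G → φ.E * A = A →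
  (∀ x, φ.E x = x → ‖x‖ ^ 2 ≤ ⟪G x, x⟫_ℝ ∧ ⟪G x, x⟫_ℝ ≤ Λ * ‖x‖ ^ 2) → 0 ≤ δ → δ * Λ ≤ 1 →
  (∀ x ∈ V, φ.E x = x ∧ ⟪A x, x⟫_ℝ ≤ δ * ‖x‖ ^ 2) →
  (Module.finrank ℝ V : ℝ) * (1 - δ * Λ) ^ (2 * j + 2) ≤
    ∑ ω, ⟪φ.e ω, ((φ.E - G * A) ^ (2 * j + 2)) (φ.e ω)⟫_ℝ

def StFil : Prop := ∀ (n : ℕ) (C : Finset (Fin n)), ∃ φ : ℕ → Fm n, (∀ i, (φ i).Ok C) ∧
  ∀ x, Tendsto (fun i => (φ i).E x) atTop (𝓝 (prS C x))

/-- the inverses used by the compressed blocks -/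
def StInv : Prop := ∀ (n : ℕ) (β : Bk n), β.Ok → ∀ u, ∃ θ : ℝ, 0 ≤ θ ∧ θ < 1 ∧
  ‖prS (β.U u) * β.B * prS (β.U u)‖ ≤ θ ∧ ∀ φ : Fm n, φ.Ok β.C →
    let X : Op n := prS (β.U u) * (φ.E * β.B * φ.E) * prS (β.U u)
    ‖X‖ ≤ θ ∧ IsUnit (1 - X) ∧ ‖Ring.inverse (1 - X)‖ ≤ (1 - θ)⁻¹ ∧ Pp (Ring.inverse (1 - X)) ∧
      Sy (Ring.inverse (1 - X)) ∧ (∀ x, 0 ≤ ⟪Ring.inverse (1 - X) x, x⟫_ℝ) ∧
      ∀ o, Pp ((β.hat φ.E).op o)

def StTrAlg : Prop := ∀ (n : ℕ) (β : Bk n), β.Ok → ∃ Λ : ℝ, 0 < Λ ∧ ∀ φ : Fm n, φ.Ok β.C →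
  ∃ G : Op n, Sy G ∧ φ.E * G = G ∧
    (∀ x, φ.E x = x → ‖x‖ ^ 2 ≤ ⟪G x, x⟫_ℝ ∧ ⟪G x, x⟫_ℝ ≤ Λ * ‖x‖ ^ 2) ∧
    (β.hat φ.E).Th = φ.E - G * (φ.E - φ.E * β.B * φ.E)

def StTrLow : Prop := ∀ (n : ℕ) (β : Bk n), β.Ok → ∀ φ : ℕ → Fm n, (∀ i, (φ i).Ok β.C) →
  (∀ x, Tendsto (fun i => (φ i).E x) atTop (𝓝 (prS β.C x))) →
  ∀ (V : Submodule ℝ (L2 n)) [FiniteDimensional ℝ V],
  (∀ x ∈ V, prS β.C x = x ∧ ‖x‖ ^ 2 ≤ ⟪β.B x, x⟫_ℝ) → ∀ (j : ℕ) (δ : ℝ), 0 < δ →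
  ∀ᶠ i in atTop, (Module.finrank ℝ V : ℝ) * (1 - δ) ≤
    ∑ ω, ⟪(φ i).e ω, ((β.hat (φ i).E).Th ^ (2 * j + 2)) ((φ i).e ω)⟫_ℝ

/-- expansion of a power into sequences -/
def StExp : Prop := ∀ (n : ℕ) (β : Bk n), prS Finset.univ * β.B = β.B →
  β.B * prS Finset.univ = β.B → ∀ j : ℕ,
  β.Th ^ (j + 1) = β.B * (∑ c, sumS (pt j).length fun σ => β.XS (pt j) σ c) * β.B

def StTrExp : Prop := ∀ (n : ℕ) (β : Bk n), β.Ok → ∀ φ : Fm n, φ.Ok β.C →
  ∀ (CR : ℝ) (j : ℕ) (g : Fin n → List (St n) → L2 n), 0 ≤ CR →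
  (∀ c ∈ β.C, ∀ σ, DR β.B CR c (g c σ)) →
  ∑ ω, ⟪φ.e ω, ((β.hat φ.E).Th ^ (j + 1)) (φ.e ω)⟫_ℝ ≤
    CR ^ 2 * ∑ c ∈ β.C, ∑ c', sumS (pt j).length fun σ =>
      ⟪β.B (g c ((none, c') :: σ)),
        φ.E ((β.hat φ.E).XS (pt j) σ c' (φ.E (β.B (g c ((none, c') :: σ)))))⟫_ℝ

def StTrLim : Prop := ∀ (n : ℕ) (β : Bk n), β.Ok → ∀ φ : ℕ → Fm n, (∀ i, (φ i).Ok β.C) →
  (∀ x, Tendsto (fun i => (φ i).E x) atTop (𝓝 (prS β.C x))) →
  ∀ (l : List Bool) (σ : List (St n)) (c : Fin n) (x : L2 n),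
  Tendsto (fun i => (φ i).E ((β.hat (φ i).E).XS l σ c ((φ i).E x))) atTop
    (𝓝 (prS β.C (β.XS l σ c (prS β.C x))))

def StTr : Prop := ∀ (n : ℕ) (β : Bk n), β.Ok →
  ∀ (V : Submodule ℝ (L2 n)) [FiniteDimensional ℝ V],
  (∀ x ∈ V, prS β.C x = x ∧ ‖x‖ ^ 2 ≤ ⟪β.B x, x⟫_ℝ) →
  ∀ (CR : ℝ) (j : ℕ) (g : Fin n → List (St n) → L2 n), 0 ≤ CR →
  (∀ c ∈ β.C, ∀ σ, DR β.B CR c (g c σ)) →
  (Module.finrank ℝ V : ℝ) ≤ CR ^ 2 * ∑ c ∈ β.C, sumS (pat (2 * j + 1)).length fun σ =>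
    ⟪g c σ, β.XS (pat (2 * j + 1)) σ c (β.B (g c σ))⟫_ℝ

def StShort : Prop := ∀ (n : ℕ) (Ξ : Type) [Fintype Ξ] (β : Ξ → Bk n) (β0 : Bk n)
  (rel : Fin n → Fin n → Prop) (A : ℕ → Finset (Fin n)) (ψ : L2 n) (θ : ℝ) (L : ℕ),
  (∀ ξ, (β ξ).p = β0.p ∧ (β ξ).U = β0.U) → 0 ≤ β0.p → (∀ c, 0 ≤ β0.q c) → 0 ≤ θ → 0 ≤ ψ →
  (∀ ξ o, Pp ((β ξ).op o) ∧ Le ((β ξ).op o) (β0.op o)) → (∀ o, Pp (β0.op o)) →
  (∀ j c c', c ∈ A j → rel c c' → c' ∈ A (j + 1)) → (∀ j ≤ L, A j ⊆ A L) →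
  (∀ c ∈ A L, c ∈ β0.U c) →
  (∀ c ∈ A L, pr c (β0.B (prS (A L) ψ)) ≤ pr c ψ) →
  (∀ c ∈ A L, ∀ u, c ∈ β0.U u → pr c (β0.H u (prS (A L) ψ)) ≤ pr c ψ) →
  (∀ c ∈ A L, ∀ y, 0 ≤ y → ∑ ξ, ⟪y, pr c ((β ξ).H c (prS (A L) ψ))⟫_ℝ ≤
    (Fintype.card Ξ : ℝ) * (θ * ⟪y, pr c ψ⟫_ℝ)) →
  ∀ x : Ξ → L2 n, (∀ ξ, 0 ≤ x ξ) → (∀ ξ, ∀ c ∈ A L, pr c (x ξ) ≤ pr c ψ) →
  ∀ l : List Bool, l.length ≤ L → ∀ c ∈ A (L - l.length), ∀ y, 0 ≤ y →
  ∑ ξ, sumS l.length (fun σ => if Sh rel c σ then ⟪y, (β ξ).XS l σ c (x ξ)⟫_ℝ else 0) ≤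
    (Fintype.card Ξ : ℝ) * (((1 - β0.p) ^ l.count true + θ) * ⟪y, pr c ψ⟫_ℝ)

def StLongA : Prop := ∀ (n : ℕ) (β : Bk n) (k : Fin n → Fin n → ℝ) (Ω : Finset (Fin n))
  (D : Set (Option (Fin n))) (ψ x : L2 n) (μ : ℝ),
  0 ≤ β.p → (∀ c, 0 ≤ β.q c) → (∀ o, Pp (β.op o)) → (∀ a b, 0 ≤ k a b) → 0 ≤ ψ → 0 ≤ μ →
  (∀ a ∈ Ω, pr a x ≤ μ • pr a ψ) →
  (∀ a ∈ Ω, ∀ b ∈ Ω, ∀ o ∈ D, ∀ τ, β.w τ o a ≠ 0 → pr a (β.op o (pr b ψ)) ≤ k a b • pr a ψ) →
  ∀ (l : List Bool) (σ : List (St n)) (c : Fin n), c ∈ Ω → l.length = σ.length →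
  (∀ s ∈ σ, s.1 ∈ D ∧ (s.2 ∈ Ω ∨ ∀ o, β.op o * pr s.2 = 0)) →
  β.XS l σ c x ≤ (μ * β.pk k l σ c) • pr c ψ

def StLongB : Prop := ∀ (n : ℕ) (β : Bk n) (k : Fin n → Fin n → ℝ) (rel : Fin n → Fin n → Prop)
  (a t : ℝ), 0 ≤ β.p → (∀ c, 0 ≤ β.q c) → (∀ c c', 0 ≤ k c c') → 1 ≤ a → 0 ≤ t →
  (∀ c, ∑ c', k c c' ≤ a) →
  (∀ c, ∑ c' ∈ Finset.univ.filter (fun c' => ¬ rel c c'), k c c' ≤ t) →
  ∀ (l : List Bool) (c : Fin n),
  sumS l.length (fun σ => if Sh rel c σ then 0 else β.pk k l σ c) ≤ l.length * a ^ l.length * t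

def StApp1 : Prop := ∀ k : Cst, All k fun n _ _ _ _ _ P =>
  ∀ (κ : ℝ) (Z0 : Finset (Fin n)) (R r : ℕ), P.Good k Z0 R → 2 * r + 3 ≤ R → k.κ0 + 1 ≤ κ →
  ∀ Z, (P.bz k κ Z0 r Z).Ok ∧
    (∀ o, Pp ((P.bz k κ Z0 r Z).op o) ∧ Le ((P.bz k κ Z0 r Z).op o) ((P.bz k κ Z0 r ∅).op o)) ∧
    P.Co (Wt κ ∅ + WZ (k.cb (κ + 2)) Z0 + WZ (k.cb (κ + 2)) Z) ∧
    Bd (Wt κ ∅ + WZ (k.cb (κ + 2)) Z0 + WZ (k.cb (κ + 2)) Z) (κ + 2) ∧
    Le (P.bz k κ Z0 r Z).B (κ • (prS Z0ᶜ * P.G (Wt κ ∅) * prS Z0ᶜ)) ∧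
    ∀ u, Le ((P.bz k κ Z0 r Z).H u) (κ • (prS Z0ᶜ * P.G (Wt κ (Ub P.adj Z0ᶜ r u)) *
      prS (Z0ᶜ \ Ub P.adj Z0ᶜ r u)))

def StSI : Prop := ∀ k : Cst, All k fun n _ _ _ _ _ P =>
  ∀ (κ : ℝ) (Z0 : Finset (Fin n)) (R N M ℓ : ℕ) (l : List Bool) (c : Fin n), P.Good k Z0 R →
  2 * (l.length * ℓ + 4 * N) + 3 ≤ R → k.κ0 + 1 ≤ κ → c ∈ Z0ᶜ →
  ∃ g : L2 n, (∀ Z, DR (P.bz k κ Z0 (2 * N) Z).B (k.CR (κ + 2)) c g) ∧
    ∑ ξ : Fin n → Fin (M + 1), sumS l.length (fun σ => if Sh (P.rel Z0 ℓ) c σ then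
      ⟪g, (P.bz k κ Z0 (2 * N) (Zx ξ)).XS l σ c ((P.bz k κ Z0 (2 * N) (Zx ξ)).B g)⟫_ℝ else 0) ≤
    (Fintype.card (Fin n → Fin (M + 1)) : ℝ) *
      ((1 - ((k.Δ : ℝ) ^ (2 * N))⁻¹) ^ l.count true + k.th (κ + 2) M N)

/-- the mass of the long sequences -/
noncomputable def Cst.tl (k : Cst) (r L ℓ : ℕ) : ℝ :=
  2 * (L * (6 * (2 * k.Δ : ℝ) ^ (2 * r + 2)) ^ L * (4 * (2 * k.Δ : ℝ) ^ (2 * r + 2) * (1 / 2) ^ ℓ))

/-- one step of a long sequence -/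
def StLI1 : Prop := ∀ k : Cst, All k fun n _ _ _ _ _ P =>
  ∀ (κ : ℝ) (Z0 Z Ω : Finset (Fin n)) (R r : ℕ), P.Good k Z0 R → 2 * r + 3 ≤ R →
  k.κ0 + 1 ≤ κ / 2 → (2 * k.Δ : ℝ) ^ 2 ≤ 1 + κ / (2 * k.Cf * √(1 + κ)) → Ω ⊆ Z0ᶜ →
  P.Co (Wt (κ / 2) Ω) → ∀ (x : L2 n), 0 ≤ x → ∀ a ∈ Ω,
  pr a ((P.bz k κ Z0 r Z).B (prS Ω (P.G (Wt (κ / 2) Ω) x))) ≤
    (2 : ℝ) • pr a (P.G (Wt (κ / 2) Ω) x) ∧
  ∀ b ∈ Ω, ∀ (o : Option (Fin n)) (τ : Bool) (d : ℕ), (P.bz k κ Z0 r Z).w τ o a ≠ 0 →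
    (∀ u, o = some u → Ub P.adj Z0ᶜ r u ⊆ Ω) → (∀ j < d, ¬ near P.adj j (.inl a) (.inl b)) →
    pr a ((P.bz k κ Z0 r Z).op o (pr b (P.G (Wt (κ / 2) Ω) x))) ≤
      (2 * ((2 * k.Δ : ℝ) ^ (2 * r + 2) * ((2 * k.Δ : ℝ)⁻¹) ^ d)) • pr a (P.G (Wt (κ / 2) Ω) x)

def StLI : Prop := ∀ k : Cst, All k fun n _ _ _ _ _ P =>
  ∀ (κ : ℝ) (Z0 : Finset (Fin n)) (R r ℓ : ℕ) (l : List Bool) (c : Fin n), P.Good k Z0 R →
  (2 * l.length + 1) * (2 * r + 3) ≤ R → k.κ0 + 1 ≤ κ / 2 →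
  (2 * k.Δ : ℝ) ^ 2 ≤ 1 + κ / (2 * k.Cf * √(1 + κ)) → c ∈ Z0ᶜ →
  ∃ g : List (St n) → L2 n, (∀ σ Z, DR (P.bz k κ Z0 r Z).B (k.CR (κ + 2)) c (g σ)) ∧
    ∀ Z, sumS l.length (fun σ => if Sh (P.rel Z0 ℓ) c σ then 0 else
      ⟪g σ, (P.bz k κ Z0 r Z).XS l σ c ((P.bz k κ Z0 r Z).B (g σ))⟫_ℝ) ≤ k.tl r l.length ℓ

/-- the subspace on which the Birman-Schwinger operator is at least one -/
def StSub : Prop := ∀ (k : Cst) (κ : ℝ), k.κ0 + 1 ≤ κ → ∃ k0 : ℕ, All k fun n _ _ _ _ _ P =>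
  ∀ (Z0 Z : Finset (Fin n)) (R r : ℕ), P.Good k Z0 R → 2 * r + 3 ≤ R →
  ∃ V : Submodule ℝ (L2 n), FiniteDimensional ℝ V ∧
    Module.finrank ℝ P.Kr ≤ Module.finrank ℝ V + k0 * (Z0.card + Z.card) ∧
    ∀ x ∈ V, prS Z0ᶜ x = x ∧ ‖x‖ ^ 2 ≤ ⟪(P.bz k κ Z0 r Z).B x, x⟫_ℝ

def StAv : Prop := ∀ (k : Cst) (κ : ℝ), k.κ0 + 1 ≤ κ / 2 →
  (2 * k.Δ : ℝ) ^ 2 ≤ 1 + κ / (2 * k.Cf * √(1 + κ)) → ∃ k0 : ℕ, ∀ M N j ℓ : ℕ, ∃ C0 : ℝ,
  All k fun n _ _ _ _ _ P => (Module.finrank ℝ P.Kr : ℝ) ≤ C0 + n * (k0 / (M + 1) +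
    k.CR (κ + 2) ^ 2 * ((1 - ((k.Δ : ℝ) ^ (2 * N))⁻¹) ^ (2 * j + 2) + k.th (κ + 2) M N +
      k.tl (2 * N) (6 * j + 5) ℓ))

def StAbs : Prop := ∀ (k : Cst) (ε : ℝ), 0 < ε → ∃ C0 : ℝ,
  All k fun n _ _ _ _ _ P => (Module.finrank ℝ P.Kr : ℝ) ≤ ε * n + C0

end Pool.Agent.MP_4f0ed6_gt.U

end

section

set_option autoImplicit false
set_option linter.dupNamespace false

open MeasureTheory Set Metric Filter Topology
open scoped InnerProductSpace ENNReal Classical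

namespace Pool.Agent.MP_4f0ed6_gt.U

theorem TGOOD_walk {V N : Type} {adj : N → N → Prop} {Δ : ℕ} (g : Gr adj Δ) (f : V → N) (s : ℕ)
    {a b : V} (p : (SimpleGraph.fromRel fun u u' => near adj s (f u) (f u')).Walk a b) :
    near adj (p.length * s) (f a) (f b) := by
  induction p with
  | nil => exact g.near_refl _ _
  | cons h p ih =>
    have h1 := ((SimpleGraph.fromRel_adj _ _ _).1 h).2.elim id g.near_symm
    rw [SimpleGraph.Walk.length_cons, add_mul, one_mul, add_comm]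
    exact near_add h1 ih

theorem TGOOD_rep {V N : Type} [Fintype V] {adj : N → N → Prop} {Δ : ℕ} (g : Gr adj Δ)
    (f : V → N) (s : ℕ) : ∃ rep : V → V,
    (∀ u, ∃ j, j < Fintype.card V ∧ near adj (j * s) (f (rep u)) (f u)) ∧
      ∀ u u', near adj s (f u) (f u') → rep u = rep u' := by
  refine ⟨fun u => ((SimpleGraph.fromRel fun u u' => near adj s (f u) (f u')).connectedComponentMk
    u).out, fun u => ?_, fun u u' h => ?_⟩
  · have h := SimpleGraph.ConnectedComponent.exact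
      ((SimpleGraph.fromRel fun u u' => near adj s (f u) (f u')).connectedComponentMk u).out_eq
    exact h.elim_path fun p => ⟨_, p.2.length_lt, TGOOD_walk g f s p.1⟩
  · by_cases e : u = u'
    · rw [e]
    · exact congrArg _ (SimpleGraph.ConnectedComponent.sound
        (SimpleGraph.Adj.reachable ((SimpleGraph.fromRel_adj _ _ _).2 ⟨e, Or.inl h⟩)))

theorem TGOOD_cl {n m : ℕ} {adj : Nd n m → Nd n m → Prop} {Δ : ℕ} (g : Gr adj Δ)
    (A : Finset (Fin n)) (ρ R : ℕ) (hR : A.card * (2 * ρ + 3) ≤ R) :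
    ∃ cl : Nd n m → Nd n m,
      (∀ l, cl ⁻¹' {l} ⊆ {l} ∨ ∃ w ∈ A, cl ⁻¹' {l} ⊆ {a | near adj R (.inl w) a}) ∧
      ∀ u ∈ A, ∀ a b, near adj (ρ + 1) (.inl u) a → near adj (ρ + 1) (.inl u) b →
        cl a = cl b := by
  obtain ⟨rep, h1, h2⟩ := TGOOD_rep g (fun u : A => (Sum.inl u.1 : Nd n m)) (ρ + 1 + (ρ + 1))
  refine ⟨fun a => if h : ∃ u : A, near adj (ρ + 1) (.inl u.1) a then .inl (rep h.choose).1
    else a, fun l => ?_, fun u hu a b ha hb => ?_⟩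
  · by_cases hl : ∃ w : A, l = .inl w.1
    · obtain ⟨w, rfl⟩ := hl
      refine Or.inr ⟨w.1, w.2, fun b hb => ?_⟩
      have hb' := mem_singleton_iff.1 (mem_preimage.1 hb)
      by_cases h : ∃ u : A, near adj (ρ + 1) (.inl u.1) b
      · rw [dif_pos h] at hb'
        obtain ⟨j, hj, h3⟩ := h1 h.choose
        rw [Fintype.card_coe] at hj
        have h4 := near_add h3 h.choose_spec
        rw [hb'] at h4
        refine g.near_mono (le_trans ?_ hR) h4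
        have h5 := Nat.mul_le_mul_right (2 * ρ + 3) (Nat.succ_le_of_lt hj)
        refine le_trans ?_ h5
        rw [Nat.succ_mul]
        exact add_le_add (Nat.mul_le_mul_left _ (by omega)) (by omega)
      · rw [dif_neg h] at hb'
        rw [hb']
        exact g.near_refl _ _
    · refine Or.inl fun b hb => ?_
      have hb' := mem_singleton_iff.1 (mem_preimage.1 hb)
      by_cases h : ∃ u : A, near adj (ρ + 1) (.inl u.1) b
      · rw [dif_pos h] at hb'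
        exact absurd ⟨_, hb'.symm⟩ hl
      · rw [dif_neg h] at hb'
        exact hb'
  · have ka : ∃ u : A, near adj (ρ + 1) (.inl u.1) a := ⟨⟨u, hu⟩, ha⟩
    have kb : ∃ u : A, near adj (ρ + 1) (.inl u.1) b := ⟨⟨u, hu⟩, hb⟩
    beta_reduce
    rw [dif_pos ka, dif_pos kb, h2 _ ⟨u, hu⟩ (near_add ka.choose_spec (g.near_symm ha)),
      h2 _ ⟨u, hu⟩ (near_add kb.choose_spec (g.near_symm hb))]

theorem stGOOD : StGOOD := by
  intro k n m H _ _ _ P hA R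
  obtain ⟨c0⟩ := hA.ne
  have g := hA.gr
  have key : ∃ Z0 : Finset (Fin n), Z0.card ≤ k.Δ ^ (2 * R + 1) + 1 ∧ c0 ∈ Z0 ∧
      ∀ u, u ∉ Z0 → P.Ps {a | near P.adj R (.inl u) a} := by
    by_cases h : ∀ u : Fin n, P.Ps {a | near P.adj R (.inl u) a}
    · exact ⟨{c0}, by simp, by simp, fun u _ => h u⟩
    · obtain ⟨u0, h0⟩ := not_forall.1 h
      refine ⟨insert c0 (bl P.adj (2 * R + 1) u0), (Finset.card_insert_le _ _).trans
        (Nat.succ_le_succ (g.card_bl _ _)), Finset.mem_insert_self _ _, fun u hu => ?_⟩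
      refine (hA.two _ _ fun a ha b hb hab => hu ?_).resolve_left h0
      refine Finset.mem_insert_of_mem (mem_bl.2 ?_)
      have h1 : near P.adj (R + 1) (.inl u0) b := ⟨a, ha, hab⟩
      exact g.near_mono (by omega) (near_add h1 (g.near_symm hb))
  obtain ⟨Z0, h1, h2, h3⟩ := key
  refine ⟨Z0, h1, fun Ω A ρ hΩ hAZ hc hR t ht => ?_⟩
  obtain ⟨cl, k1, k2⟩ := TGOOD_cl g A ρ R hR
  refine hA.ims cl (fun l => ?_) Ω (fun c hc' a ha => ?_)
    ⟨c0, fun h => Finset.mem_compl.1 (hΩ h) h2⟩ t ht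
  · rcases k1 l with h | ⟨w, hw, h⟩
    · exact hA.mono _ _ h (hA.single l)
    · exact hA.mono _ _ h (h3 w (Finset.mem_compl.1 (hAZ hw)))
  · obtain ⟨u, hu, h⟩ := hc c hc'
    exact k2 u hu _ _ ⟨_, mem_bl.1 h, ha⟩ ⟨_, mem_bl.1 h, g.refl _⟩

end Pool.Agent.MP_4f0ed6_gt.U

end

section

set_option autoImplicit false
set_option linter.dupNamespace false

open MeasureTheory Set Metric Filter Topology
open scoped InnerProductSpace ENNReal Classical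

namespace Pool.Agent.MP_4f0ed6_gt.U

theorem stVEC2 (hVEC : StVEC) : StVEC2 := by
  intro n ι _ e g A M CR c he hc hS hA hM hCR hD
  obtain ⟨g0, -, hd⟩ := hD
  have key := hVEC n ι (fun i => A (e i)) (CR • A g) M hM (smul_nn hCR (hA g g0)) ?_
  · rwa [map_smul, real_inner_smul_left, real_inner_smul_right, ← mul_assoc, ← sq] at key
  intro x hx
  have h1 : ∀ i, ⟪A (e i), x⟫_ℝ = ⟪e i, pr c (A x)⟫_ℝ := fun i => by
    have h3 : Sy (pr c) := mul_sy _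
    rw [hS, ← h3, hc]
  have h2 := he.sum_inner_products_le (s := Finset.univ) (pr c (A x))
  simp only [Real.norm_eq_abs, sq_abs] at h2
  simp only [h1]
  refine h2.trans ?_
  rw [real_inner_smul_left, hS]
  exact pow_le_pow_left₀ (norm_nonneg _) (hd x hx) 2

end Pool.Agent.MP_4f0ed6_gt.U

end

section

set_option autoImplicit false
set_option linter.dupNamespace false

open MeasureTheory Set Metric Filter Topology
open scoped InnerProductSpace ENNReal Classical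

namespace Pool.Agent.MP_4f0ed6_gt.U

theorem TDREV_ct {n : ℕ} (c : Fin n) {s t : ℝ} (h : s ≤ t) (x : L2 n) :
    ct c s (ct c t x) = ct c s x := by
  rw [← mul_apply_eq_comp, ct_ct, min_eq_left h]

theorem TDREV_ct' {n : ℕ} (c : Fin n) {s t : ℝ} (h : s ≤ t) (x : L2 n) :
    ct c t (ct c s x) = ct c s x := by
  rw [← mul_apply_eq_comp, ct_ct, min_eq_right h]

theorem TDREV_norm {n : ℕ} (c : Fin n) {s t : ℝ} (h : s ≤ t) (x : L2 n) :
    ‖ct c s x‖ ≤ ‖ct c t x‖ := by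
  rw [← TDREV_ct c h]
  exact norm_ct_le _ _ _

theorem stDREV  : StDREV := by
  intro k n m H _ _ _ P hA K W c hK hW hB
  have h0 : 0 ≤ P.G W (one c) := hA.pos W hW _ (one_nn c)
  have h1 : 0 < ‖ct c 10 (P.G W (one c))‖ := by
    refine norm_pos_iff.2 fun e => ?_
    have h2 := hW.G_pos (hA.nz c)
    rw [← ct_one c (t := 10) (by norm_num)] at h2
    have h3 := mul_sy (ind c 10) (P.G W (ct c 10 (one c))) (one c)
    change ⟪ct c 10 _, _⟫_ℝ = ⟪_, ct c 10 _⟫_ℝ at h3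
    rw [← h3, ct_one c (t := 10) (by norm_num), e, inner_zero_left] at h2
    exact lt_irrefl _ h2
  have h2 : 0 ≤ P.psn W c := smul_nn (inv_nonneg.2 h1.le) h0
  have h3 : ‖ct c 10 (P.psn W c)‖ = 1 := by
    rw [Pb.psn, map_smul, norm_smul, norm_inv, norm_norm, inv_mul_cancel₀ h1.ne']
  have h4 : ‖ct c 1 (P.psn W c)‖ ≤ 1 := (TDREV_norm c (by norm_num) _).trans h3.le
  have h5 : ‖pr c (P.psn W c)‖ ≤ 1 := (TDREV_norm c (by norm_num) _).trans h3.le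
  have h6 : pr c (ct c 1 (P.psn W c)) = ct c 1 (P.psn W c) := TDREV_ct' c (by norm_num) _
  have h7 : ∀ W', P.Co W' → Bd W' K → DR (P.G W') (k.CR K) c (ct c 1 (P.psn W c)) := by
    intro W' hW' hB'
    refine ⟨ct_pp c 1 _ h2, h6, fun x hx => ?_⟩
    have h8 := hA.rev K W W' hK hW hW' hB hB' _ x (one_nn c) hx c
    rw [Pb.psn, map_smul, real_inner_smul_left, mul_left_comm, le_inv_mul_iff₀ h1]
    exact (mul_le_mul_of_nonneg_left (TDREV_norm c (by norm_num) _) h1.le).trans h8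
  refine ⟨h2, h4, (real_inner_le_norm _ _).trans (mul_le_one₀ h4 (norm_nonneg _) h5), h7,
    fun W' hW' hB' κ C hκ hc => ⟨ct_pp c 1 _ h2, h6, fun x hx => ?_⟩⟩
  have h8 := (h7 W' hW' hB').2.2 _ (prS_pp C x hx)
  have h9 : ∀ y, pr c (prS C y) = pr c y := fun y => by
    rw [← mul_apply_eq_comp, pr_prS, if_pos hc]
  have h10 : prS C (ct c 1 (P.psn W c)) = ct c 1 (P.psn W c) := by
    rw [← h6, ← mul_apply_eq_comp, prS_pr, if_pos hc]
  have h11 := mul_sy (cel C) (ct c 1 (P.psn W c)) (P.G W' (prS C x))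
  change ⟪prS C _, _⟫_ℝ = ⟪_, prS C _⟫_ℝ at h11
  rw [smul_apply, mul_apply_eq_comp,
    mul_apply_eq_comp, map_smul, h9, norm_smul, Real.norm_of_nonneg hκ,
    real_inner_smul_right, ← h11, h10, mul_left_comm]
  exact mul_le_mul_of_nonneg_left h8 hκ

end Pool.Agent.MP_4f0ed6_gt.U

end

section

set_option autoImplicit false
set_option linter.dupNamespace false

open scoped Classical

namespace Pool.Agent.MP_4f0ed6_gt.U

theorem TLA2_one {H : Type} [AddCommGroup H] [Module ℝ H] (b : H →ₗ[ℝ] H →ₗ[ℝ] ℝ)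
    (hb : ∀ u v, b u v = b v u) (k0 : ℕ) (K : Submodule ℝ H) [FiniteDimensional ℝ K]
    (h : ∀ E : Submodule ℝ H, E ≤ K → (∀ f ∈ E, f ≠ 0 → 0 < b f f) → Module.finrank ℝ E ≤ k0) :
    ∃ K' : Submodule ℝ H, K' ≤ K ∧ Module.finrank ℝ K ≤ Module.finrank ℝ K' + k0 ∧
      ∀ f ∈ K', b f f ≤ 0 := by
  induction k0 generalizing K with
  | zero =>
    refine ⟨K, le_rfl, le_rfl, fun e he => ?_⟩
    by_contra h1
    have h2 : e ≠ 0 := fun h2 => h1 (by simp [h2])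
    have h3 := h (ℝ ∙ e) ((Submodule.span_singleton_le_iff_mem e K).2 he) fun f hf h4 => by
      obtain ⟨t, rfl⟩ := Submodule.mem_span_singleton.1 hf
      have h5 : t ≠ 0 := left_ne_zero_of_smul h4
      simp only [map_smul, LinearMap.smul_apply, smul_eq_mul, ← mul_assoc]
      exact mul_pos (mul_self_pos.2 h5) (not_le.1 h1)
    rw [finrank_span_singleton h2] at h3
    omega
  | succ k ih =>
    by_cases h0 : ∀ f ∈ K, b f f ≤ 0
    · exact ⟨K, le_rfl, Nat.le_add_right _ _, h0⟩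
    push Not at h0
    obtain ⟨e, he, h1⟩ := h0
    let K1 : Submodule ℝ H := (LinearMap.ker ((b e).domRestrict K)).map K.subtype
    have a1 : K1 ≤ K := Submodule.map_subtype_le _ _
    have a2 : ∀ f ∈ K1, b e f = 0 := by
      rintro f ⟨g, hg, rfl⟩
      exact hg
    have a3 : Module.finrank ℝ K ≤ Module.finrank ℝ K1 + 1 := by
      have h2 := LinearMap.finrank_range_add_finrank_ker ((b e).domRestrict K)
      have h3 := Submodule.finrank_le (LinearMap.range ((b e).domRestrict K))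
      rw [Module.finrank_self] at h3
      rw [Submodule.finrank_map_subtype_eq]
      omega
    have := Submodule.finiteDimensional_of_le a1
    obtain ⟨K', b1, b2, b3⟩ := ih K1 fun E hE hp => by
      have h2 : E ⊔ (ℝ ∙ e) ≤ K :=
        sup_le (hE.trans a1) ((Submodule.span_singleton_le_iff_mem e K).2 he)
      have := Submodule.finiteDimensional_of_le h2
      have h3 := h _ h2 fun f hf h4 => by
        obtain ⟨g, hg, w, hw, rfl⟩ := Submodule.mem_sup.1 hf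
        obtain ⟨t, rfl⟩ := Submodule.mem_span_singleton.1 hw
        have h5 := a2 g (hE hg)
        have h6 : b (g + t • e) (g + t • e) = b g g + t * t * b e e := by
          simp only [map_add, map_smul, LinearMap.add_apply, LinearMap.smul_apply, smul_eq_mul,
            hb g e, h5]
          ring
        rw [h6]
        by_cases h7 : g = 0
        · have h8 : t ≠ 0 := fun h8 => h4 (by simp [h7, h8])
          rw [h7, map_zero, zero_add]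
          exact mul_pos (mul_self_pos.2 h8) h1
        · exact add_pos_of_pos_of_nonneg (hp g hg h7) (mul_nonneg (mul_self_nonneg t) h1.le)
      have h4 : E < E ⊔ (ℝ ∙ e) := lt_of_le_of_ne le_sup_left fun h4 =>
        h1.ne' (a2 e (hE (h4 ▸ Submodule.mem_sup_right (Submodule.mem_span_singleton_self e))))
      have h5 := Submodule.finrank_lt_finrank_of_lt h4
      omega
    exact ⟨K', b1.trans a1, by omega, b3⟩

theorem stLA2  : StLA2 := by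
  intro H _ _ K _ ι Z b k0 hb h
  induction Z using Finset.induction_on with
  | empty => exact ⟨K, le_rfl, Nat.le_add_right _ _, fun z hz => absurd hz (by simp)⟩
  | insert a s ha ih =>
    obtain ⟨K1, a1, a2, a3⟩ := ih fun z hz => h z (Finset.mem_insert_of_mem hz)
    have := Submodule.finiteDimensional_of_le a1
    obtain ⟨K', b1, b2, b3⟩ := TLA2_one (b a) (hb a) k0 K1 fun E hE =>
      h a (Finset.mem_insert_self a s) E (hE.trans a1)
    refine ⟨K', b1.trans a1, ?_, fun z hz f hf => ?_⟩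
    · rw [Finset.card_insert_of_notMem ha, mul_add, mul_one]
      omega
    · rcases Finset.mem_insert.1 hz with rfl | h1
      · exact b3 f hf
      · exact a3 z h1 f (b1 hf)

end Pool.Agent.MP_4f0ed6_gt.U

end

section

set_option autoImplicit false
set_option linter.dupNamespace false

namespace Pool.Agent.MP_4f0ed6_gt.U

variable {n : ℕ}

theorem TExp_cons (β : Bk n) (τ : Bool) (l : List Bool) :
    (∑ c, sumS (τ :: l).length fun σ => β.XS (τ :: l) σ c) =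
      β.S τ * ∑ c, sumS l.length fun σ => β.XS l σ c := by
  rw [Bk.S, Finset.sum_mul]
  refine Finset.sum_congr rfl fun c _ => ?_
  rw [List.length_cons, sumS, Fintype.sum_prod_type, Finset.sum_mul]
  refine Finset.sum_congr rfl fun o _ => ?_
  rw [Finset.mul_sum]
  refine Finset.sum_congr rfl fun c' _ => ?_
  have h := sumS_map l.length (AddMonoidHom.mulLeft (β.w τ o c • (pr c * β.op o)))
    fun σ => β.XS l σ c'
  rw [AddMonoidHom.coe_mulLeft] at h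
  rw [h]
  refine sumS_congr _ fun σ _ => ?_
  rw [Bk.XS, smul_mul_assoc]

theorem TExp_false (β : Bk n) (h : prS Finset.univ * β.B = β.B) : β.S false = β.B := by
  rw [Bk.S, ← h, prS_eq_sum, Finset.sum_mul]
  refine Finset.sum_congr rfl fun c _ => ?_
  rw [Fintype.sum_option]
  simp [Bk.w, Bk.op]

theorem stExp : StExp := by
  intro n β h1 _ j
  induction j with
  | zero =>
    have h2 : (∑ c, sumS ([] : List Bool).length fun σ => β.XS [] σ c) = prS Finset.univ := by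
      rw [prS_eq_sum]
      rfl
    rw [pt, TExp_cons, h2, zero_add, pow_one, Bk.Th, mul_assoc, mul_assoc, mul_assoc, h1]
  | succ j ih =>
    rw [pow_succ', ih, pt, TExp_cons, TExp_cons, TExp_cons, TExp_false β h1, Bk.Th]
    simp only [mul_assoc]

end Pool.Agent.MP_4f0ed6_gt.U

end

section

set_option autoImplicit false
set_option linter.dupNamespace false

open MeasureTheory Set Metric Filter Topology
open scoped InnerProductSpace ENNReal Classical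

namespace Pool.Agent.MP_4f0ed6_gt.U

theorem TTrExp_pp {n : ℕ} (β : Bk n) (hp : 0 ≤ β.p) (hq : ∀ c, 0 ≤ β.q c)
    (ho : ∀ o, Pp (β.op o)) : ∀ (l : List Bool) (σ : List (St n)) (c : Fin n), Pp (β.XS l σ c)
  | [], _, c => by
    rw [Bk.XS]; exact ct_pp c 3
  | _ :: _, [], c => by
    rw [Bk.XS]; exact ct_pp c 3
  | τ :: l, x :: σ, c => by
    rw [Bk.XS]
    exact Pp.smul (β.w_nn hp hq τ x.1 c)
      (Pp.mul (Pp.mul (ct_pp c 3) (ho x.1)) (TTrExp_pp β hp hq ho l σ x.2))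

/-- the pairing as an additive map of the operator -/
noncomputable def TTrExp_ev {n : ℕ} (E : Op n) (y z : L2 n) : Op n →+ ℝ where
  toFun A := ⟪y, E (A z)⟫_ℝ
  map_zero' := by simp
  map_add' A B := by simp [inner_add_right]

theorem TTrExp_ev_sum {n : ℕ} (E : Op n) (y z : L2 n) (k : ℕ)
    (X : Fin n → List (St n) → Op n) :
    ⟪y, E ((∑ c, sumS k fun σ => X c σ) z)⟫_ℝ = ∑ c, sumS k fun σ => ⟪y, E (X c σ z)⟫_ℝ := by
  change TTrExp_ev E y z (∑ c, sumS k fun σ => X c σ) = _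
  rw [map_sum]
  refine Finset.sum_congr rfl fun c _ => ?_
  rw [sumS_map]
  rfl

theorem stTrExp (hExp : StExp) (hInv : StInv) (hVEC2 : StVEC2) : StTrExp := by
  intro n β hβ φ hφ CR j g hCR hg
  have hE1 : prS Finset.univ * φ.E = φ.E := Fm.prS_E hφ (Finset.subset_univ _)
  have hE2 : φ.E * prS Finset.univ = φ.E := by rw [Fm.E_prS hφ, hE1]
  have hB : (β.hat φ.E).B = φ.E * β.B * φ.E := rfl
  have h1 : prS Finset.univ * (β.hat φ.E).B = (β.hat φ.E).B := by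
    rw [hB, ← mul_assoc, ← mul_assoc, hE1]
  have h2 : (β.hat φ.E).B * prS Finset.univ = (β.hat φ.E).B := by
    rw [hB, mul_assoc, hE2]
  have hop : ∀ o, Pp ((β.hat φ.E).op o) := by
    intro o
    cases o with
    | none => exact Pp.mul (Pp.mul (Fm.E_pp hφ) hβ.pos) (Fm.E_pp hφ)
    | some u =>
      obtain ⟨θ, -, -, -, h⟩ := hInv n β hβ u
      exact (h φ hφ).2.2.2.2.2.2 (some u)
  have hXS : ∀ σ c', Pp ((β.hat φ.E).XS (pt j) σ c') := fun σ c' =>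
    TTrExp_pp (β.hat φ.E) hβ.p0 hβ.q0 hop _ σ c'
  have h3 : ∀ ω, ⟪φ.e ω, ((β.hat φ.E).Th ^ (j + 1)) (φ.e ω)⟫_ℝ =
      ∑ c', sumS (pt j).length fun σ =>
        ⟪β.B (φ.e ω), φ.E ((β.hat φ.E).XS (pt j) σ c' (φ.E (β.B (φ.e ω))))⟫_ℝ := by
    intro ω
    rw [hExp n _ h1 h2 j, ← TTrExp_ev_sum, hB]
    simp only [mul_apply_eq_comp]
    rw [Fm.E_e hφ, ← Fm.E_sy φ, Fm.E_e hφ, ← hβ.sym]
  simp only [h3]
  rw [← Finset.sum_fiberwise_of_maps_to (s := Finset.univ) (t := β.C) (g := φ.c)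
    (fun ω _ => hφ.mem ω), Finset.mul_sum]
  refine Finset.sum_le_sum fun c hc => ?_
  rw [Finset.sum_comm, Finset.mul_sum]
  refine Finset.sum_le_sum fun c' _ => ?_
  rw [← sumS_sum, ← sumS_mul]
  refine sumS_le _ fun σ _ => ?_
  have hon : Orthonormal ℝ (fun i : {ω // φ.c ω = c} => φ.e i.1) :=
    hφ.on.comp _ Subtype.val_injective
  have := hVEC2 n {ω // φ.c ω = c} (fun i => φ.e i.1) (g c ((none, c') :: σ)) β.B
    (φ.E * (β.hat φ.E).XS (pt j) σ c' * φ.E) CR c hon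
    (fun i => by have h := hφ.cl i.1; rwa [i.2] at h) hβ.sym hβ.pos
    (Pp.mul (Pp.mul (Fm.E_pp hφ) (hXS σ c')) (Fm.E_pp hφ)) hCR (hg c hc _)
  rw [Finset.sum_subtype (Finset.univ.filter fun ω => φ.c ω = c) (p := fun ω => φ.c ω = c)
    (by simp)]
  exact this

end Pool.Agent.MP_4f0ed6_gt.U

end

section

set_option autoImplicit false
set_option linter.dupNamespace false

open MeasureTheory Set Metric Filter Topology
open scoped InnerProductSpace ENNReal Classical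

namespace Pool.Agent.MP_4f0ed6_gt.U

theorem tTr_pat {n : ℕ} {β : Bk n} (hβ : β.Ok) (J : ℕ) (c : Fin n) (g : List (St n) → L2 n)
    (hg : ∀ σ, pr c (g σ) = g σ) :
    (sumS (pat J).length fun σ => ⟪g σ, β.XS (pat J) σ c (β.B (g σ))⟫_ℝ) =
      ∑ c', sumS (pt J).length fun σ =>
        ⟪β.B (g ((none, c') :: σ)), β.XS (pt J) σ c' (β.B (g ((none, c') :: σ)))⟫_ℝ := by
  have e : (sumS (pat J).length fun σ => ⟪g σ, β.XS (pat J) σ c (β.B (g σ))⟫_ℝ) =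
      ∑ x : St n, sumS (pt J).length fun σ => ⟪g (x :: σ),
        (β.w false x.1 c • (pr c * β.op x.1 * β.XS (pt J) σ x.2)) (β.B (g (x :: σ)))⟫_ℝ := rfl
  rw [e, Fintype.sum_prod_type, Fintype.sum_option]
  have h0 : ∀ (u c' : Fin n), (sumS (pt J).length fun σ => ⟪g ((some u, c') :: σ),
      (β.w false (some u) c • (pr c * β.op (some u) * β.XS (pt J) σ c'))
        (β.B (g ((some u, c') :: σ)))⟫_ℝ) = 0 := by
    intro u c'
    refine (sumS_congr _ fun σ _ => ?_).trans (sumS_zero _)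
    show ⟪_, ((0 : ℝ) • (pr c * β.op (some u) * β.XS (pt J) σ c')) _⟫_ℝ = 0
    rw [zero_smul, zero_apply, inner_zero_right]
  simp only [h0, Finset.sum_const_zero, add_zero]
  refine Finset.sum_congr rfl fun c' _ => sumS_congr _ fun σ _ => ?_
  show ⟪_, ((1 : ℝ) • (pr c * β.B * β.XS (pt J) σ c')) _⟫_ℝ = _
  rw [one_smul, mul_apply_eq_comp, mul_apply_eq_comp, hβ.sym]
  have h1 := mul_sy (ind c 3) (g ((none, c') :: σ))
    (β.B (β.XS (pt J) σ c' (β.B (g ((none, c') :: σ)))))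
  exact h1.symm.trans (congrArg (fun y => ⟪y, _⟫_ℝ) (hg _))

theorem stTr (hFil : StFil) (hTrLow : StTrLow) (hTrExp : StTrExp) (hTrLim : StTrLim) : StTr := by
  intro n β hβ V _ hV CR j g hCR hg
  obtain ⟨φ, h1, h2⟩ := hFil n β.C
  have hB : ∀ x, prS β.C (β.B x) = β.B x := fun x => by
    rw [← mul_apply_eq_comp, hβ.cut]
  rw [Finset.sum_congr rfl fun c hc => tTr_pat hβ (2 * j + 1) c (g c) fun σ => (hg c hc σ).2.1]
  have hl : Tendsto (fun i => CR ^ 2 * ∑ c ∈ β.C, ∑ c', sumS (pt (2 * j + 1)).length fun σ =>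
      ⟪β.B (g c ((none, c') :: σ)), (φ i).E ((β.hat (φ i).E).XS (pt (2 * j + 1)) σ c'
        ((φ i).E (β.B (g c ((none, c') :: σ)))))⟫_ℝ) atTop
      (𝓝 (CR ^ 2 * ∑ c ∈ β.C, ∑ c', sumS (pt (2 * j + 1)).length fun σ =>
        ⟪β.B (g c ((none, c') :: σ)),
          β.XS (pt (2 * j + 1)) σ c' (β.B (g c ((none, c') :: σ)))⟫_ℝ)) := by
    refine Tendsto.const_mul _ (tendsto_finsetSum _ fun c _ => tendsto_finsetSum _ fun c' _ =>
      sumS_tendsto _ fun σ _ => ?_)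
    have h3 := (tendsto_const_nhds (x := β.B (g c ((none, c') :: σ)))).inner (𝕜 := ℝ)
      (hTrLim n β hβ φ h1 h2 (pt (2 * j + 1)) σ c' (β.B (g c ((none, c') :: σ))))
    have h4 := mul_sy (cel β.C) (β.B (g c ((none, c') :: σ)))
      (β.XS (pt (2 * j + 1)) σ c' (β.B (g c ((none, c') :: σ))))
    rw [hB] at h3
    have h5 := h4.symm.trans (congrArg (fun y => ⟪y, _⟫_ℝ) (hB _))
    exact h5 ▸ h3
  have hd : ∀ δ : ℝ, 0 < δ → (Module.finrank ℝ V : ℝ) * (1 - δ) ≤ _ := fun δ hδ =>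
    ge_of_tendsto hl ((hTrLow n β hβ φ h1 h2 V hV j δ hδ).mono fun i hi =>
      hi.trans (hTrExp n β hβ (φ i) (h1 i) CR (2 * j + 1) g hCR hg))
  have ht : Tendsto (fun δ : ℝ => (Module.finrank ℝ V : ℝ) * (1 - δ)) (𝓝[>] 0)
      (𝓝 ((Module.finrank ℝ V : ℝ) * (1 - 0))) :=
    ((continuous_const.mul (continuous_const.sub continuous_id)).tendsto 0).mono_left
      nhdsWithin_le_nhds
  rw [sub_zero, mul_one] at ht
  exact le_of_tendsto ht (eventually_nhdsWithin_of_forall hd)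

end Pool.Agent.MP_4f0ed6_gt.U

end

section

set_option autoImplicit false
set_option linter.dupNamespace false

open scoped InnerProductSpace Classical

namespace Pool.Agent.MP_4f0ed6_gt.U

theorem TRUS_shell {n m : ℕ} {adj : Nd n m → Nd n m → Prop} {Δ : ℕ} (g : Gr adj Δ) (c : Fin n)
    (N : ℕ) {i : Fin n → ℝ} (hi : ∀ z, 0 ≤ i z) :
    ∑ j ∈ Finset.range N, ∑ z ∈ bd adj {a | near adj (2 * j + 1) (.inl c) a}, i z ≤ ∑ z, i z := by
  have key : ∀ j j', j < j' → Disjoint (bd adj {a | near adj (2 * j + 1) (.inl c) a})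
      (bd adj {a | near adj (2 * j' + 1) (.inl c) a}) := fun j j' h =>
    Finset.disjoint_left.2 fun z h1 h2 =>
      (g.bd_ball h2).2 (g.near_mono (by omega) (g.bd_ball h1).1)
  rw [← Finset.sum_biUnion fun j _ j' _ h =>
    (lt_or_gt_of_ne h).elim (key j j') fun h' => (key j' j h').symm]
  exact Finset.sum_le_sum_of_subset_of_nonneg (Finset.subset_univ _) fun z _ _ => hi z

theorem stRUS (hRUS1 : StRUS1) : StRUS := by
  intro k n m H _ _ _ P hA K W hK hW hB M N c x y hx hy hc hc'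
  have h := hRUS1 k n m H P hA K W hK hW hB x y hx hy
  obtain ⟨g, hg⟩ : ∃ g : Finset (Fin n) → Op n, g = fun Z => P.G (W + WZ (k.cb (K + 1)) Z) :=
    ⟨_, rfl⟩
  have e : ∀ Z, P.G (W + WZ (k.cb (K + 1)) Z) = g Z := fun Z => by rw [hg]
  have e0 : P.G W = g ∅ := by rw [← e, WZ, Finset.sum_empty, add_zero]
  simp only [e] at h ⊢
  rw [e0, Cst.th]
  obtain ⟨I, hI⟩ : ∃ I : Finset (Fin n) → Fin n → ℝ,
    ∀ Z z, ⟪pr z (g (Z.erase z) x), g (insert z Z) y⟫_ℝ = I Z z := ⟨_, fun _ _ => rfl⟩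
  simp only [hI] at h
  have hD : 0 < 1 + k.Cf * √(1 + (K + 1)) := by have := hA.ok.h3; positivity
  generalize 1 + k.Cf * √(1 + (K + 1)) = D at *
  have h1 : ∀ Z, N * ⟪x, g Z y⟫_ℝ ≤ D * ∑ z, I Z z := fun Z => by
    refine le_trans ?_ (mul_le_mul_of_nonneg_left (TRUS_shell hA.gr c N (h Z).1) hD.le)
    rw [Finset.mul_sum, ← nsmul_eq_mul]
    conv_lhs => rw [← Finset.card_range N]
    refine Finset.card_nsmul_le_sum _ _ _ fun j hj => (h Z).2.2 _ (hc.mono ?_) (hc'.mono ?_)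
    · rintro _ rfl a ha
      exact hA.gr.near_mono (by omega) (near_one.2 ha)
    · intro c' h1 a ha h2
      have := Finset.mem_range.1 hj
      exact h1 (mem_bl.2 (hA.gr.near_mono (by omega)
        (near_add h2 (near_one.2 (hA.gr.symm _ _ ha)))))
  have h2 : ((M : ℝ) + 1) * ∑ ξ : Fin n → Fin (M + 1), ∑ z ∈ Zx ξ, I (Zx ξ) z =
      ∑ ξ : Fin n → Fin (M + 1), ∑ z, I (Zx ξ) z := by
    simp only [← Finset.sum_ite_mem_eq (Zx _)]
    rw [Finset.sum_comm, Finset.mul_sum, Finset.sum_comm (f := fun ξ z => I (Zx ξ) z)]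
    refine Finset.sum_congr rfl fun z _ => sum_Zx_mem z (fun Z => I Z z) fun Z => ?_
    have e1 : insert z (Z.erase z) = insert z Z := by
      ext a
      by_cases h : a = z <;> simp [h]
    rw [← hI, ← hI, e1]
    simp
  have h3 := Finset.sum_le_sum fun (ξ : Fin n → Fin (M + 1)) (_ : ξ ∈ Finset.univ) => h1 (Zx ξ)
  have h4 := Finset.sum_le_sum fun (ξ : Fin n → Fin (M + 1)) (_ : ξ ∈ Finset.univ) =>
    (h (Zx ξ)).2.1
  rw [← Finset.mul_sum, ← Finset.mul_sum, ← h2] at h3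
  rw [Finset.sum_add_distrib, ← Finset.mul_sum, Finset.sum_const, Finset.card_univ,
    nsmul_eq_mul] at h4
  generalize ∑ ξ : Fin n → Fin (M + 1), ∑ z ∈ Zx ξ, I (Zx ξ) z = T at *
  generalize ∑ ξ : Fin n → Fin (M + 1), ⟪x, g (Zx ξ) y⟫_ℝ = S at *
  have hE : (0 : ℝ) < 2 * (M + 1) * D := by positivity
  have h5 : N / (2 * (M + 1) * D) * S ≤ 1 / 2 * T := by
    rw [div_mul_eq_mul_div, div_le_iff₀ hE]
    linarith
  rw [mul_left_comm, one_div, ← div_eq_inv_mul, le_div_iff₀ (by positivity)]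
  linarith

end Pool.Agent.MP_4f0ed6_gt.U

end

section

set_option autoImplicit false
set_option linter.dupNamespace false

open Finset
open scoped Classical

namespace Pool.Agent.MP_4f0ed6_gt.U

theorem TDist_sum {N : Type} [Fintype N] {adj : N → N → Prop} {Δ : ℕ} (g : Gr adj Δ) (h1 : 1 ≤ Δ)
    (a : N) (d : N → ℕ) (s : Finset N) (i : ℕ) (h : ∀ b ∈ s, near adj (d b) a b ∧ i ≤ d b) :
    ∑ b ∈ s, ((2 * Δ : ℝ)⁻¹) ^ d b ≤ 2 * (1 / 2) ^ i := by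
  have hΔ : (0 : ℝ) < Δ := by exact_mod_cast h1
  have hm : ∀ b ∈ s, d b ∈ Finset.Ico i (s.sup d + 1) := fun b hb =>
    Finset.mem_Ico.2 ⟨(h b hb).2, Nat.lt_succ_of_le (Finset.le_sup (f := d) hb)⟩
  rw [← Finset.sum_fiberwise_of_maps_to hm]
  calc _ ≤ ∑ j ∈ Finset.Ico i (s.sup d + 1), (1 / 2 : ℝ) ^ j := by
        refine Finset.sum_le_sum fun j _ => ?_
        rw [Finset.sum_congr rfl fun b hb => by rw [(Finset.mem_filter.1 hb).2], Finset.sum_const,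
          nsmul_eq_mul]
        have h2 : (s.filter fun b => d b = j).card ≤ Δ ^ j := by
          refine le_trans ?_ (g.ncard_near j a)
          rw [← Set.ncard_coe_finset]
          refine Set.ncard_le_ncard (fun b hb => ?_) (Set.toFinite _)
          obtain ⟨h3, h4⟩ := Finset.mem_filter.1 (Finset.mem_coe.1 hb)
          exact h4 ▸ (h b h3).1
        have h3 : ((s.filter fun b => d b = j).card : ℝ) ≤ (Δ : ℝ) ^ j := by exact_mod_cast h2
        calc _ ≤ (Δ : ℝ) ^ j * ((2 * Δ : ℝ)⁻¹) ^ j := mul_le_mul_of_nonneg_right h3 (by positivity)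
          _ = (1 / 2) ^ j := by
            rw [← mul_pow]
            congr 1
            field_simp
    _ ≤ (1 / 2) ^ i / (1 - 1 / 2) := geom_sum_Ico_le_of_lt_one (by norm_num) (by norm_num)
    _ = _ := by ring

theorem stDist  : StDist := by
  intro N _ adj Δ ℓ a g h1
  have hΔ : (1 : ℝ) ≤ Δ := by exact_mod_cast h1
  have hx : (2 * Δ : ℝ)⁻¹ < 1 := inv_lt_one_of_one_lt₀ (by linarith)
  obtain ⟨D, hD⟩ := exists_pow_lt_of_lt_one
    (show (0 : ℝ) < (1 / 2) ^ ℓ / (Fintype.card N + 1) by positivity) hx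
  rw [lt_div_iff₀ (by positivity)] at hD
  let d : N → ℕ := fun b => if h : ∃ j, near adj j a b then Nat.find h else D
  have d1 : ∀ b (h : ∃ j, near adj j a b), d b = Nat.find h := fun b h => dif_pos h
  have d2 : ∀ b, (¬ ∃ j, near adj j a b) → d b = D := fun b h => dif_neg h
  have key : ∀ (s : Finset N) (i : ℕ), (∀ b ∈ s, near adj (d b) a b → i ≤ d b) →
      ∑ b ∈ s, ((2 * Δ : ℝ)⁻¹) ^ d b ≤ 2 * (1 / 2) ^ i + (1 / 2) ^ ℓ := by
    intro s i h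
    rw [← Finset.sum_filter_add_sum_filter_not s fun b => ∃ j, near adj j a b]
    refine add_le_add (TDist_sum g h1 a d _ i fun b hb => ?_) ?_
    · obtain ⟨h2, h3⟩ := Finset.mem_filter.1 hb
      have h4 : near adj (d b) a b := by rw [d1 b h3]; exact Nat.find_spec h3
      exact ⟨h4, h b h2 h4⟩
    · rw [Finset.sum_congr rfl fun b hb => by rw [d2 b (Finset.mem_filter.1 hb).2],
        Finset.sum_const, nsmul_eq_mul]
      have h2 : ((s.filter fun b => ¬ ∃ j, near adj j a b).card : ℝ) ≤ Fintype.card N := by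
        exact_mod_cast Finset.card_le_univ _
      have h3 : 0 ≤ ((2 * Δ : ℝ)⁻¹) ^ D := by positivity
      nlinarith
  refine ⟨d, fun b j hj hn => ?_, ?_, ?_⟩
  · rw [d1 b ⟨j, hn⟩] at hj
    exact Nat.find_min _ hj hn
  · have h2 := key Finset.univ 0 fun _ _ _ => Nat.zero_le _
    have h3 : (1 / 2 : ℝ) ^ ℓ ≤ 1 := pow_le_one₀ (by norm_num) (by norm_num)
    rw [pow_zero] at h2
    linarith
  · refine (key _ (ℓ + 1) fun b hb hn => ?_).trans (le_of_eq (by ring))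
    by_contra h2
    exact (Finset.mem_filter.1 hb).2 (g.near_mono (by omega) hn)

end Pool.Agent.MP_4f0ed6_gt.U

end

section

set_option autoImplicit false
set_option linter.dupNamespace false

open MeasureTheory Set Metric Filter Topology
open scoped InnerProductSpace ENNReal Classical

namespace Pool.Agent.MP_4f0ed6_gt.U

theorem TLongA_w_nn {n : ℕ} (β : Bk n) (hp : 0 ≤ β.p) (hq : ∀ c, 0 ≤ β.q c) (τ : Bool)
    (o : Option (Fin n)) (c : Fin n) : 0 ≤ β.w τ o c := by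
  cases τ <;> cases o
  · exact zero_le_one
  · exact le_rfl
  · exact hq c
  · simp only [Bk.w]
    split_ifs
    · exact hp
    · exact le_rfl

theorem TLongA_pk_nn {n : ℕ} (β : Bk n) (hp : 0 ≤ β.p) (hq : ∀ c, 0 ≤ β.q c)
    {k : Fin n → Fin n → ℝ} (hk : ∀ a b, 0 ≤ k a b) (l : List Bool) :
    ∀ (σ : List (St n)) (c : Fin n), 0 ≤ β.pk k l σ c := by
  induction l with
  | nil => intro σ c; exact zero_le_one
  | cons τ l ih =>
    intro σ c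
    cases σ with
    | nil => exact zero_le_one
    | cons s σ => exact mul_nonneg (mul_nonneg (TLongA_w_nn β hp hq _ _ _) (hk _ _)) (ih σ s.2)

theorem TLongA_pr_XS {n : ℕ} (β : Bk n) (l : List Bool) (σ : List (St n)) (c : Fin n) :
    pr c * β.XS l σ c = β.XS l σ c := by
  have h : pr c * pr c = pr c := by rw [pr_pr, if_pos rfl]
  cases l with
  | nil => exact h
  | cons τ l =>
    cases σ with
    | nil => exact h
    | cons s σ =>
      show pr c * (β.w τ s.1 c • (pr c * β.op s.1 * β.XS l σ s.2)) =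
        β.w τ s.1 c • (pr c * β.op s.1 * β.XS l σ s.2)
      rw [mul_smul_comm, ← mul_assoc, ← mul_assoc, h]

theorem stLongA : StLongA := by
  intro n β k Ω D ψ x μ hp hq hop hk hψ hμ hx hstep l
  induction l with
  | nil =>
    intro σ c hc _ _
    show pr c x ≤ (μ * 1) • pr c ψ
    rw [mul_one]
    exact hx c hc
  | cons τ l ih =>
    intro σ c hc hlen hσ
    cases σ with
    | nil => simp at hlen
    | cons s σ =>
      have hs := hσ s (List.mem_cons_self ..)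
      have hw := TLongA_w_nn β hp hq τ s.1 c
      have hpk := TLongA_pk_nn β hp hq hk l σ s.2
      show (β.w τ s.1 c • (pr c * β.op s.1 * β.XS l σ s.2)) x ≤
        (μ * (β.w τ s.1 c * k c s.2 * β.pk k l σ s.2)) • pr c ψ
      have hnn : 0 ≤ (μ * (β.w τ s.1 c * k c s.2 * β.pk k l σ s.2)) • pr c ψ :=
        smul_nn (mul_nonneg hμ (mul_nonneg (mul_nonneg hw (hk _ _)) hpk)) (ct_pp c 3 ψ hψ)
      by_cases h0 : β.w τ s.1 c = 0
      · refine le_trans (le_of_eq ?_) hnn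
        rw [h0, zero_smul]
        rfl
      rcases hs.2 with hΩ | hz
      · have h1 := ih σ s.2 hΩ (by simpa using hlen) fun t ht => hσ t (List.mem_cons_of_mem _ ht)
        have h2 : pr c (β.op s.1 (β.XS l σ s.2 x)) ≤
            pr c (β.op s.1 ((μ * β.pk k l σ s.2) • pr s.2 ψ)) :=
          Pp.mono (ct_pp c 3) (Pp.mono (hop s.1) h1)
        rw [map_smul, map_smul] at h2
        have h3 := smul_mono (mul_nonneg hμ hpk) (hstep c hc s.2 hΩ s.1 hs.1 τ h0)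
        have h4 := smul_mono hw (h2.trans h3)
        rw [smul_smul, smul_smul] at h4
        have e : μ * (β.w τ s.1 c * k c s.2 * β.pk k l σ s.2) =
            β.w τ s.1 c * (μ * β.pk k l σ s.2) * k c s.2 := by ring
        rw [e]
        exact h4
      · refine le_trans (le_of_eq ?_) hnn
        rw [← TLongA_pr_XS β l σ s.2, ← mul_assoc, mul_assoc (pr c), hz s.1, mul_zero, zero_mul,
          smul_zero]
        rfl

end Pool.Agent.MP_4f0ed6_gt.U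

end

section

set_option autoImplicit false
set_option linter.dupNamespace false

open MeasureTheory Set Metric Filter Topology
open scoped InnerProductSpace ENNReal Classical

namespace Pool.Agent.MP_4f0ed6_gt.U

theorem TLongB_sum {n : ℕ} (β : Bk n) (τ : Bool) (c : Fin n) (g : Fin n → ℝ) :
    ∑ x : St n, β.w τ x.1 c * g x.2 = ∑ c', g c' := by
  rw [Fintype.sum_prod_type]
  simp only [← Finset.mul_sum]
  rw [← Finset.sum_mul, β.sum_w, one_mul]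

theorem TLongB_all {n : ℕ} (β : Bk n) (k : Fin n → Fin n → ℝ) (a : ℝ)
    (hk : ∀ c c', 0 ≤ k c c') (ha : 1 ≤ a) (h : ∀ c, ∑ c', k c c' ≤ a) (l : List Bool) :
    ∀ c, sumS l.length (fun σ => β.pk k l σ c) ≤ a ^ l.length := by
  induction l with
  | nil => intro c; simp [sumS, Bk.pk]
  | cons τ l ih =>
    intro c
    have e : sumS (τ :: l).length (fun σ => β.pk k (τ :: l) σ c) =
        ∑ x : St n, β.w τ x.1 c * (k c x.2 * sumS l.length fun σ => β.pk k l σ x.2) := by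
      refine Finset.sum_congr rfl fun x _ => ?_
      rw [← mul_assoc, ← sumS_mul]
      rfl
    rw [e, TLongB_sum β τ c fun c' => k c c' * sumS l.length fun σ => β.pk k l σ c',
      List.length_cons, pow_succ']
    refine (Finset.sum_le_sum fun c' _ => mul_le_mul_of_nonneg_left (ih c') (hk c c')).trans ?_
    rw [← Finset.sum_mul]
    exact mul_le_mul_of_nonneg_right (h c) (by positivity)

theorem stLongB : StLongB := by
  intro n β k rel a t _ _ hk ha ht h h' l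
  induction l with
  | nil => intro c; simp [sumS, Sh]
  | cons τ l ih =>
    intro c
    have e : sumS (τ :: l).length (fun σ => if Sh rel c σ then 0 else β.pk k (τ :: l) σ c) =
        ∑ x : St n, β.w τ x.1 c * (k c x.2 * if rel c x.2 then
          sumS l.length (fun σ => if Sh rel x.2 σ then 0 else β.pk k l σ x.2)
          else sumS l.length fun σ => β.pk k l σ x.2) := by
      refine Finset.sum_congr rfl fun x _ => ?_
      rw [← mul_assoc]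
      by_cases hr : rel c x.2
      · rw [if_pos hr, ← sumS_mul]
        refine sumS_congr _ fun σ _ => ?_
        by_cases hs : Sh rel x.2 σ
        · rw [if_pos hs, mul_zero]
          exact if_pos (show Sh rel c (x :: σ) from ⟨hr, hs⟩)
        · rw [if_neg hs]
          exact if_neg fun h1 : Sh rel c (x :: σ) => hs h1.2
      · rw [if_neg hr, ← sumS_mul]
        refine sumS_congr _ fun σ _ => ?_
        exact if_neg fun h1 : Sh rel c (x :: σ) => hr h1.1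
    rw [e, TLongB_sum β τ c fun c' => k c c' * if rel c c' then
          sumS l.length (fun σ => if Sh rel c' σ then 0 else β.pk k l σ c')
          else sumS l.length fun σ => β.pk k l σ c', List.length_cons]
    have a0 : 0 ≤ a := by linarith
    have p0 : 0 ≤ a ^ l.length := by positivity
    have p1 : 0 ≤ l.length * a ^ l.length * t := by positivity
    have h1 : ∀ c', (k c c' * if rel c c' then
          sumS l.length (fun σ => if Sh rel c' σ then 0 else β.pk k l σ c')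
          else sumS l.length fun σ => β.pk k l σ c') ≤
        k c c' * (l.length * a ^ l.length * t) +
          (if ¬ rel c c' then k c c' else 0) * a ^ l.length := by
      intro c'
      by_cases hr : rel c c'
      · rw [if_pos hr, if_neg (not_not.2 hr), zero_mul, add_zero]
        exact mul_le_mul_of_nonneg_left (ih c') (hk c c')
      · rw [if_neg hr, if_pos hr]
        exact le_add_of_nonneg_of_le (mul_nonneg (hk c c') p1)
          (mul_le_mul_of_nonneg_left (TLongB_all β k a hk ha h l c') (hk c c'))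
    refine (Finset.sum_le_sum fun c' _ => h1 c').trans ?_
    rw [Finset.sum_add_distrib, ← Finset.sum_mul, ← Finset.sum_mul, ← Finset.sum_filter]
    refine (add_le_add (mul_le_mul_of_nonneg_right (h c) p1)
      (mul_le_mul_of_nonneg_right (h' c) p0)).trans ?_
    have h2 : t * a ^ l.length ≤ t * a ^ l.length * a :=
      le_mul_of_one_le_right (mul_nonneg ht p0) ha
    push_cast
    rw [pow_succ]
    linarith

end Pool.Agent.MP_4f0ed6_gt.U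

end
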