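import Pool.Agent.Mg.F4f0ed6a.G5bac69
import Pool.Agent.Mg.F4f0ed6a.Ga5385d

section

set_option autoImplicit false
set_option linter.dupNamespace false

open UpperHalfPlane MeasureTheory Set Metric Filter Topology
open scoped MatrixGroups ContDiff InnerProductSpace ENNReal Classical

namespace Pool.Agent.MP_4f0ed6_gt.U

theorem TMk_max (P : Finset ℍ → Prop) (N : ℝ) (h0 : P ∅) (hN : ∀ A, P A → (A.card : ℝ) ≤ N) :
    ∃ A, P A ∧ ∀ B, P B → B.card ≤ A.card := by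
  have hb : BddAbove {k : ℕ | ∃ A, P A ∧ A.card = k} := by
    refine ⟨⌈N⌉₊, ?_⟩
    rintro k ⟨A, hA, rfl⟩
    have := (hN A hA).trans (Nat.le_ceil N)
    exact_mod_cast this
  have hne : ({k : ℕ | ∃ A, P A ∧ A.card = k}).Nonempty := ⟨0, ∅, h0, rfl⟩
  obtain ⟨A, hA, hc⟩ := Nat.sSup_mem hne hb
  exact ⟨A, hA, fun B hB => hc ▸ le_csSup hb ⟨B, hB, rfl⟩⟩

theorem TMk_D {z : ℍ} {s : ℝ} (h0 : 0 < s) (h1 : s ≤ 1 / 40) :
    Dk z s 20 ⊆ ball z (40 * s) := by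
  have := Dk_subset_ball (z := z) (t := 20) h0 h1 le_rfl
  rwa [show (2 * 20 * s : ℝ) = 40 * s by ring] at this

theorem TMk_near {Γ : Subgroup SL(2, ℝ)} {z z' : ℍ} {s s' : ℝ} (h0 : 0 < s) (h1 : s ≤ 1 / 40)
    (h0' : 0 < s') (h1' : s' ≤ 1 / 40)
    (h : (orb Γ (Dk z s 20) ∩ orb Γ (Dk z' s' 20)).Nonempty) :
    ∃ γ ∈ Γ, dist (γ • z) z' < 40 * s + 40 * s' := by
  obtain ⟨w, ⟨γ, hγ, hw⟩, γ', hγ', hw'⟩ := h
  have a1 := TMk_D h0 h1 hw
  have a2 := TMk_D h0' h1' hw'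
  rw [mem_ball] at a1 a2
  refine ⟨γ' * γ⁻¹, Γ.mul_mem hγ' (Γ.inv_mem hγ), ?_⟩
  have e : dist ((γ' * γ⁻¹) • z) (γ' • w) = dist (γ • w) z := by
    rw [mul_smul, dist_smul, ← dist_smul γ, smul_inv_smul, dist_comm]
  have := dist_triangle ((γ' * γ⁻¹) • z) (γ' • w) z'
  linarith

theorem stMk (hPack : StPack) : StMk := by
  obtain ⟨M0, hM0, hP⟩ := hPack
  refine ⟨⌈M0 * 481 ^ 2⌉₊ + 1, ?_⟩
  intro X hX σ m tb M N hinv hs0 hs1 hlip hop hiv hdj hps hout hN hM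
  obtain ⟨A, ⟨hsep, hA⟩, hmax⟩ := TMk_max
    (fun A => Sep X.Γ σ A ∧ ∀ w ∈ A, ∀ t, w ∉ tb t) N
    ⟨fun x hx => by simp at hx, fun x hx => by simp at hx⟩ (fun A h => hN A h.1 h.2)
  let z : Fin A.card → ℍ := fun c => (A.equivFin.symm c : ℍ)
  have hzA : ∀ c, z c ∈ A := fun c => (A.equivFin.symm c).2
  have hzi : Function.Injective z := fun c c' h =>
    A.equivFin.symm.injective (Subtype.ext h)
  have hzs : ∀ x ∈ A, ∃ c, z c = x := fun x hx => ⟨A.equivFin ⟨x, hx⟩, by simp [z]⟩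
  let K : Cov A.card m := ⟨z, fun c => σ (z c), tb⟩
  have hnear : ∀ c c', K.Adj X.Γ (.inl c) (.inl c') →
      ∃ γ ∈ X.Γ, dist (γ • z c) (z c') < 40 * σ (z c) + 40 * σ (z c') := by
    intro c c' h
    rcases h with h | h
    · obtain rfl : c = c' := Sum.inl.inj h
      refine ⟨1, X.Γ.one_mem, ?_⟩
      have := hs0 (z c)
      rw [one_smul, dist_self]; linarith
    · exact TMk_near (hs0 _) (hs1 _) (hs0 _) (hs1 _) h
  have hcmp : ∀ c c', K.Adj X.Γ (.inl c) (.inl c') →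
      σ (z c) ≤ 2 * σ (z c') ∧ σ (z c') ≤ 2 * σ (z c) := by
    intro c c' h
    obtain ⟨γ, hγ, hd⟩ := hnear c c' h
    have h1 := hlip (γ • z c) (z c')
    rw [hinv γ hγ, abs_le] at h1
    have := hs0 (z c)
    have := hs0 (z c')
    constructor <;> linarith [h1.1, h1.2]
  have hsub : ∀ (S : Finset (Fin A.card)), Sep X.Γ σ (S.image z) := by
    intro S x hx y hy
    obtain ⟨c, -, rfl⟩ := Finset.mem_image.1 hx
    obtain ⟨c', -, rfl⟩ := Finset.mem_image.1 hy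
    exact hsep _ (hzA c) _ (hzA c')
  have htube : ∀ c t, (orb X.Γ (K.D c 20) ∩ tb t).Nonempty →
      (ball (z c) (40 * σ (z c)) ∩ tb t).Nonempty := by
    rintro c t ⟨w, ⟨γ, hγ, hw⟩, hw'⟩
    exact ⟨γ • w, TMk_D (hs0 _) (hs1 _) hw, hiv t γ hγ w hw'⟩
  refine ⟨A.card, K, ⟨fun c => hs0 _, fun c => hs1 _, fun c => ?_, hop, hiv, hdj, fun w => ?_,
    fun a => ?_, fun a => ?_, fun c c' h => (hcmp c c' h).1⟩, hN A hsep hA⟩
  · exact (hout _ (hA _ (hzA c))).1.mono (TMk_D (hs0 _) (hs1 _))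
  · by_cases hw : ∃ t, w ∈ tb t
    · exact Or.inr hw
    left
    push Not at hw
    have hball : ∀ x ∈ A, ∀ γ ∈ X.Γ, dist (γ • w) x < σ x / 2 →
        ∃ c, w ∈ orb X.Γ (K.D c 1) := by
      intro x hx γ hγ hd
      obtain ⟨c, rfl⟩ := hzs x hx
      refine ⟨c, γ, hγ, ball_subset_Dk (hs0 _) (hs1 _) (by norm_num) ?_⟩
      rw [mem_ball, one_mul]; exact hd
    by_cases hwA : w ∈ A
    · refine hball w hwA 1 X.Γ.one_mem ?_
      have := hs0 w
      rw [one_smul, dist_self]; linarith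
    by_contra hno
    have hs' : Sep X.Γ σ (insert w A) := by
      intro x hx0 y hy0 hxy γ hγ
      rcases Finset.mem_insert.1 hx0 with hx | hx
      · rcases Finset.mem_insert.1 hy0 with hy | hy
        · exact absurd (hx.trans hy.symm) hxy
        · by_contra hlt
          refine hno (hball y hy γ hγ ?_)
          have := min_le_right (σ x) (σ y)
          rw [← hx]
          linarith [not_le.1 hlt]
      · rcases Finset.mem_insert.1 hy0 with hy | hy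
        · by_contra hlt
          refine hno (hball x hx γ⁻¹ (X.Γ.inv_mem hγ) ?_)
          have := min_le_left (σ x) (σ y)
          rw [← dist_smul γ, smul_inv_smul, dist_comm, ← hy]
          linarith [not_le.1 hlt]
        · exact hsep x hx y hy hxy γ hγ
    have := hmax (insert w A) ⟨hs', fun x hx => by
      rcases Finset.mem_insert.1 hx with rfl | hx
      · exact hw
      · exact hA x hx⟩
    rw [Finset.card_insert_of_notMem hwA] at this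
    omega
  · rcases a with c | t
    · exact (hout _ (hA _ (hzA c))).2.1.mono (orb_mono (TMk_D (hs0 _) (hs1 _)))
    · exact hps t
  · rcases a with c | t
    · let S : Finset (Fin A.card) := Finset.univ.filter fun c' => K.Adj X.Γ (.inl c) (.inl c')
      have hS : ∀ c', c' ∈ S ↔ K.Adj X.Γ (.inl c) (.inl c') := by simp [S]
      have h1 : ((S.image z).card : ℝ) ≤ M0 * (1 + 120 * σ (z c) / (σ (z c) / 4)) ^ 2 := by
        have a0 := hs0 (z c)
        have a1 := hs1 (z c)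
        refine hP X.Γ (z c) _ _ _ (by linarith) (by linarith) (by linarith) (by linarith) ?_ ?_
        · intro x hx
          obtain ⟨c', hc', rfl⟩ := Finset.mem_image.1 hx
          obtain ⟨γ, hγ, hd⟩ := hnear c c' ((hS c').1 hc')
          refine ⟨γ⁻¹, X.Γ.inv_mem hγ, ?_⟩
          rw [mem_closedBall, ← dist_smul γ, smul_inv_smul, dist_comm]
          linarith [(hcmp c c' ((hS c').1 hc')).2]
        · intro x hx y hy hxy γ hγ
          refine le_trans ?_ (hsub S x hx y hy hxy γ hγ)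
          obtain ⟨c1, hc1, rfl⟩ := Finset.mem_image.1 hx
          obtain ⟨c2, hc2, rfl⟩ := Finset.mem_image.1 hy
          have b1 := (hcmp c c1 ((hS c1).1 hc1)).1
          have b2 := (hcmp c c2 ((hS c2).1 hc2)).1
          have : σ (z c) / 2 ≤ min (σ (z c1)) (σ (z c2)) := le_min (by linarith) (by linarith)
          linarith
      have e : (1 + 120 * σ (z c) / (σ (z c) / 4)) = 481 := by
        have := (hs0 (z c)).ne'
        field_simp; norm_num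
      rw [e, Finset.card_image_of_injective _ hzi] at h1
      have h2 : S.card ≤ ⌈M0 * 481 ^ 2⌉₊ := by
        have := h1.trans (Nat.le_ceil _)
        exact_mod_cast this
      have h3 := (hout _ (hA _ (hzA c))).2.2
      have hss : {b | K.Adj X.Γ (.inl c) b} ⊆ Sum.inl '' (S : Set (Fin A.card)) ∪
          Sum.inr '' {t | (ball (z c) (40 * σ (z c)) ∩ tb t).Nonempty} := by
        rintro (c' | t) hb
        · exact Or.inl ⟨c', (hS c').2 hb, rfl⟩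
        · rcases hb with hb | hb
          · cases hb
          · exact Or.inr ⟨t, htube c t hb, rfl⟩
      refine (ncard_le_ncard hss (toFinite _)).trans ((ncard_union_le _ _).trans ?_)
      rw [ncard_image_of_injective _ Sum.inl_injective,
        ncard_image_of_injective _ Sum.inr_injective, ncard_coe_finset]
      omega
    · let S : Finset (Fin A.card) :=
        Finset.univ.filter fun c => (ball (z c) (40 * σ (z c)) ∩ tb t).Nonempty
      have hS : ∀ c, c ∈ S ↔ (ball (z c) (40 * σ (z c)) ∩ tb t).Nonempty := by simp [S]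
      have h1 : (S.image z).card ≤ M := by
        refine hM t _ (hsub S) ?_ ?_
        · intro x hx
          obtain ⟨c, -, rfl⟩ := Finset.mem_image.1 hx
          exact hA _ (hzA c)
        · intro x hx
          obtain ⟨c, hc, rfl⟩ := Finset.mem_image.1 hx
          exact (hS c).1 hc
      rw [Finset.card_image_of_injective _ hzi] at h1
      have hss : {b | K.Adj X.Γ (.inr t) b} ⊆ Sum.inl '' (S : Set (Fin A.card)) ∪
          {Sum.inr t} := by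
        rintro (c | t') hb
        · rcases hb with hb | hb
          · cases hb
          · exact Or.inl ⟨c, (hS c).2 (htube c t (by rwa [inter_comm] at hb)), rfl⟩
        · rcases hb with hb | hb
          · exact Or.inr hb.symm
          · by_cases ht : t = t'
            · exact Or.inr (by rw [ht]; rfl)
            · exact absurd hb (not_nonempty_iff_eq_empty.2
                (disjoint_iff_inter_eq_empty.1 (hdj t t' ht)))
      refine (ncard_le_ncard hss (toFinite _)).trans ((ncard_union_le _ _).trans ?_)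
      rw [ncard_image_of_injective _ Sum.inl_injective, ncard_coe_finset, ncard_singleton]
      omega

end Pool.Agent.MP_4f0ed6_gt.U

end

section

set_option autoImplicit false
set_option linter.dupNamespace false

open UpperHalfPlane MeasureTheory Set Metric Filter Topology
open scoped MatrixGroups ContDiff InnerProductSpace ENNReal Classical

namespace Pool.Agent.MP_4f0ed6_gt.U

theorem TNF_re {x y : ℍ} {μ : ℝ} (h : (y : ℂ) = (μ : ℂ) * (x : ℂ)) : y.re = μ * x.re := by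
  have := congrArg Complex.re h
  simpa using this

theorem TNF_im {x y : ℍ} {μ : ℝ} (h : (y : ℂ) = (μ : ℂ) * (x : ℂ)) : y.im = μ * x.im := by
  have := congrArg Complex.im h
  simpa using this

theorem TNF_cosh {x y : ℍ} {μ : ℝ} (hμ : 0 < μ) (h : (y : ℂ) = (μ : ℂ) * (x : ℂ)) :
    Real.cosh (dist y x) = 1 + (1 + (x.re / x.im) ^ 2) * ((μ - 1) ^ 2 / (2 * μ)) := by
  have hx := x.im_pos.ne'
  rw [cosh_dist', TNF_re h, TNF_im h]
  field_simp
  ring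

theorem TNF_mono {a b : ℝ} (ha : 1 ≤ a) (hab : a ≤ b) :
    (a - 1) ^ 2 / (2 * a) ≤ (b - 1) ^ 2 / (2 * b) := by
  rw [div_le_div_iff₀ (by linarith) (by linarith)]
  have h1 : 0 ≤ (b - a) * (a * b - 1) := mul_nonneg (by linarith) (by nlinarith)
  nlinarith

theorem TNF_inv {a : ℝ} (ha : 0 < a) : (a⁻¹ - 1) ^ 2 / (2 * a⁻¹) = (a - 1) ^ 2 / (2 * a) := by
  field_simp
  ring

theorem TNF_zpow {l : ℝ} (hl : 1 < l) {k : ℤ} (hk : k ≠ 0) :
    (l - 1) ^ 2 / (2 * l) ≤ (l ^ k - 1) ^ 2 / (2 * l ^ k) := by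
  have key : ∀ j : ℤ, 0 < j → (l - 1) ^ 2 / (2 * l) ≤ (l ^ j - 1) ^ 2 / (2 * l ^ j) := by
    intro j hj
    refine TNF_mono hl.le ?_
    have := zpow_le_zpow_right₀ hl.le (show (1 : ℤ) ≤ j by omega)
    rwa [zpow_one] at this
  rcases lt_or_gt_of_ne hk with h | h
  · have := key (-k) (by omega)
    rwa [zpow_neg, TNF_inv (zpow_pos (by linarith) k)] at this
  · exact key k h

theorem TNF_win {l ν : ℝ} (hl : 1 < l) (hν : 0 < ν) : ∃ k : ℤ, 1 ≤ l ^ k * ν ∧ l ^ k * ν ≤ l := by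
  obtain ⟨n, h1, h2⟩ := exists_mem_Ico_zpow hν hl
  have h0 : 0 < l ^ n := zpow_pos (by linarith) n
  refine ⟨-n, ?_, ?_⟩
  · rw [zpow_neg, ← div_eq_inv_mul, le_div_iff₀ h0, one_mul]
    exact h1
  · rw [zpow_neg, ← div_eq_inv_mul, div_le_iff₀ h0, mul_comm, ← zpow_add_one₀ (by linarith)]
    exact h2.le

theorem TNF_pow {τ : Tb} (h : τ.NF) (k : ℤ) (w : ℍ) :
    ((τ.g • τ.γ ^ k • w : ℍ) : ℂ) = ((τ.lam ^ k : ℝ) : ℂ) * ((τ.g • w : ℍ) : ℂ) := by
  have l0 : τ.lam ≠ 0 := by linarith [h.lam1]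
  induction k using Int.induction_on with
  | zero => simp
  | succ k ih =>
    rw [add_comm, zpow_one_add, mul_smul, h.nf, ih, zpow_one_add₀ l0]
    push_cast
    ring
  | pred k ih =>
    have e := h.nf (τ.γ ^ (-(k : ℤ) - 1) • w)
    rw [← mul_smul τ.γ, ← zpow_one_add, show 1 + (-(k : ℤ) - 1) = -k by ring, ih] at e
    have l1 : (τ.lam : ℂ) ≠ 0 := by exact_mod_cast l0
    refine mul_left_cancel₀ l1 ?_
    rw [← e, zpow_sub_one₀ l0]
    push_cast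
    field_simp

/-- the point with slope `s` and height `exp u` -/
noncomputable def TNF_pt (p : ℝ × ℝ) : ℍ :=
  UpperHalfPlane.mk ⟨Real.exp p.2 * p.1, Real.exp p.2⟩ (Real.exp_pos _)

theorem TNF_pt_cont : Continuous TNF_pt := by
  refine Continuous.upperHalfPlaneMk ?_ _
  have e : (fun p : ℝ × ℝ => (⟨Real.exp p.2 * p.1, Real.exp p.2⟩ : ℂ)) =
      fun p => ((Real.exp p.2 * p.1 : ℝ) : ℂ) + ((Real.exp p.2 : ℝ) : ℂ) * Complex.I := by
    funext p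
    exact Complex.mk_eq_add_mul_I _ _
  rw [e]
  fun_prop

theorem TNF_pt_sg (p : ℝ × ℝ) : (TNF_pt p).re / (TNF_pt p).im = p.1 := by
  change Real.exp p.2 * p.1 / Real.exp p.2 = p.1
  field_simp

theorem TNF_pt_eq (x : ℍ) : TNF_pt (x.re / x.im, Real.log x.im) = x := by
  have hx := x.im_pos
  refine UpperHalfPlane.ext (Complex.ext ?_ ?_)
  · change Real.exp (Real.log x.im) * (x.re / x.im) = x.re
    rw [Real.exp_log hx]
    field_simp
  · exact Real.exp_log hx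

theorem stNF : StNF := by
  intro τ h
  have l1 := h.lam1
  have l0 : 0 < τ.lam := by linarith
  have hφ : 0 < (τ.lam - 1) ^ 2 / (2 * τ.lam) := div_pos (pow_pos (by linarith) 2) (by linarith)
  have hc : ∀ w, Real.cosh (τ.dp w) =
      1 + (1 + τ.sg w ^ 2) * ((τ.lam - 1) ^ 2 / (2 * τ.lam)) := fun w => by
    rw [Tb.dp, ← dist_smul τ.g]
    exact TNF_cosh l0 (h.nf w)
  have d0 : ∀ w, 0 ≤ τ.dp w := fun w => dist_nonneg
  have hp : ∀ w, 0 < τ.dp w := fun w => by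
    refine lt_of_le_of_ne (d0 w) fun e => ?_
    have := hc w
    rw [← e, Real.cosh_zero] at this
    have h2 : 0 < (1 + τ.sg w ^ 2) * ((τ.lam - 1) ^ 2 / (2 * τ.lam)) := by positivity
    linarith
  have hs : ∀ (k : ℤ) w, τ.sg (τ.γ ^ k • w) = τ.sg w := fun k w => by
    have h0 : τ.lam ^ k ≠ 0 := (zpow_pos l0 k).ne'
    rw [Tb.sg, Tb.sg, TNF_re (TNF_pow h k w), TNF_im (TNF_pow h k w), mul_div_mul_left _ _ h0]
  have hsg : ∀ p, τ.sg (τ.g⁻¹ • TNF_pt p) = p.1 := fun p => by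
    rw [Tb.sg, smul_inv_smul, TNF_pt_sg]
  have cg : Continuous fun w : ℍ => τ.g • w := continuous_const_smul _
  refine ⟨fun e => ?_, ?_, ?_, hc, hp, hs, fun k w hk => ?_, fun t => ⟨_, hsg (t, 0)⟩,
    fun w w' e => ?_, fun e ⟨w0, hw0⟩ => ?_, fun a b => ?_⟩
  · have := hp UpperHalfPlane.I
    rw [Tb.dp, e, one_smul, dist_self] at this
    exact lt_irrefl _ this
  · exact (continuous_re.comp cg).div (continuous_im.comp cg) fun w => (τ.g • w).im_pos.ne'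
  · exact (continuous_const_smul _).dist continuous_id
  · have h1 := TNF_cosh (zpow_pos l0 k) (TNF_pow h k w)
    rw [dist_smul] at h1
    have h2 : Real.cosh (τ.dp w) ≤ Real.cosh (dist (τ.γ ^ k • w) w) := by
      rw [hc, h1]
      exact add_le_add le_rfl (mul_le_mul_of_nonneg_left (TNF_zpow l1 hk) (by positivity))
    rwa [Real.cosh_le_cosh, abs_of_nonneg (d0 w), abs_of_nonneg dist_nonneg] at h2
  · have i1 := (τ.g • w).im_pos
    have i2 := (τ.g • w').im_pos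
    obtain ⟨k, k1, k2⟩ := TNF_win l1 (div_pos i1 i2)
    refine ⟨k, ?_⟩
    have e1 : ((τ.g • w : ℍ) : ℂ) =
        (((τ.g • w).im / (τ.g • w').im : ℝ) : ℂ) * ((τ.g • w' : ℍ) : ℂ) := by
      rw [Tb.sg, Tb.sg, div_eq_div_iff i1.ne' i2.ne'] at e
      refine Complex.ext ?_ ?_
      · rw [Complex.re_ofReal_mul, coe_re, coe_re, div_mul_eq_mul_div, eq_div_iff i2.ne', e,
          mul_comm]
      · rw [Complex.im_ofReal_mul, coe_im, coe_im, div_mul_cancel₀ _ i2.ne']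
    have e2 : ((τ.g • τ.γ ^ k • w : ℍ) : ℂ) =
        ((τ.lam ^ k * ((τ.g • w).im / (τ.g • w').im) : ℝ) : ℂ) * ((τ.g • w' : ℍ) : ℂ) := by
      rw [TNF_pow h k w, Complex.ofReal_mul, mul_assoc, ← e1]
    have h1 := TNF_cosh (by linarith) e2
    rw [dist_smul] at h1
    have h2 : Real.cosh (dist (τ.γ ^ k • w) w') ≤ Real.cosh (τ.dp w') := by
      rw [hc, h1]
      exact add_le_add le_rfl (mul_le_mul_of_nonneg_left (TNF_mono k1 k2) (by positivity))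
    rwa [Real.cosh_le_cosh, abs_of_nonneg (d0 w'), abs_of_nonneg dist_nonneg] at h2
  · have e0 : 0 < e := (hp w0).trans hw0
    set φ := (τ.lam - 1) ^ 2 / (2 * τ.lam) with hφd
    have a1 : ∀ w, τ.dp w < e ↔ τ.sg w ^ 2 < (Real.cosh e - 1) / φ - 1 := fun w => by
      rw [lt_sub_iff_add_lt', lt_div_iff₀ hφ, lt_sub_iff_add_lt', ← hc, Real.cosh_lt_cosh,
        abs_of_nonneg (d0 w), abs_of_pos e0]
    have a2 : ∀ w, τ.dp w ≤ e ↔ τ.sg w ^ 2 ≤ (Real.cosh e - 1) / φ - 1 := fun w => by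
      rw [le_sub_iff_add_le', le_div_iff₀ hφ, le_sub_iff_add_le', ← hc, Real.cosh_le_cosh,
        abs_of_nonneg (d0 w), abs_of_pos e0]
    have a3 : 0 < (Real.cosh e - 1) / φ - 1 := (sq_nonneg _).trans_lt ((a1 w0).1 hw0)
    refine ⟨√((Real.cosh e - 1) / φ - 1), Real.sqrt_pos.2 a3, fun w => ?_, fun w => ?_⟩
    · rw [a1, Real.lt_sqrt (abs_nonneg _), sq_abs]
    · rw [a2, Real.le_sqrt (abs_nonneg _) a3.le, sq_abs]
  · refine ⟨(fun p => τ.g⁻¹ • TNF_pt p) '' (Icc a b ×ˢ Icc 0 (Real.log τ.lam)),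
      (isCompact_Icc.prod isCompact_Icc).image ((continuous_const_smul _).comp TNF_pt_cont),
      ?_, fun w h1 h2 => ?_⟩
    · rintro _ ⟨p, hp', rfl⟩
      rw [hsg]
      exact hp'.1
    · obtain ⟨k, k1, k2⟩ := TNF_win l1 (τ.g • w).im_pos
      rw [← TNF_im (TNF_pow h k w)] at k1 k2
      refine ⟨k, (τ.sg (τ.γ ^ k • w), Real.log (τ.g • τ.γ ^ k • w).im), ⟨?_, ?_⟩, ?_⟩
      · rw [hs]
        exact ⟨h1, h2⟩
      · exact ⟨Real.log_nonneg k1, Real.log_le_log (by linarith) k2⟩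
      · change τ.g⁻¹ • TNF_pt (_ / _, _) = _
        rw [TNF_pt_eq, inv_smul_smul]

end Pool.Agent.MP_4f0ed6_gt.U

end

section

set_option autoImplicit false
set_option linter.dupNamespace false

open UpperHalfPlane MeasureTheory Set Metric Filter Topology
open scoped MatrixGroups ContDiff InnerProductSpace ENNReal Classical

namespace Pool.Agent.MP_4f0ed6_gt.U

theorem TSweep_sub {Γ : Subgroup SL(2, ℝ)} {γ : SL(2, ℝ)} (hγ : γ ∈ Γ) (w : ℍ) :
    {d | ∃ β ∈ Γ, β ≠ 1 ∧ d = dist (β • γ • w) (γ • w)} ⊆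
      {d | ∃ β ∈ Γ, β ≠ 1 ∧ d = dist (β • w) w} := by
  rintro d ⟨β, hβ, h1, rfl⟩
  refine ⟨γ⁻¹ * β * γ, Γ.mul_mem (Γ.mul_mem (Γ.inv_mem hγ) hβ) hγ, fun h => h1 ?_, ?_⟩
  · have : β = γ * (γ⁻¹ * β * γ) * γ⁻¹ := by group
    rw [this, h]; group
  · rw [mul_smul, mul_smul, ← dist_smul γ (γ⁻¹ • β • γ • w), smul_inv_smul]

theorem TSweep_io {Γ : Subgroup SL(2, ℝ)} (e : ℝ) {γ : SL(2, ℝ)} (hγ : γ ∈ Γ) (w : ℍ) :
    io Γ e (γ • w) = io Γ e w := by
  unfold io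
  congr 2
  refine Subset.antisymm (TSweep_sub hγ w) ?_
  have := TSweep_sub (Γ.inv_mem hγ) (γ • w)
  rwa [inv_smul_smul] at this

theorem TSweep_mono (τ : Tb) (Γ : Subgroup SL(2, ℝ)) {a b a' b' : ℝ} (ha : a' ≤ a)
    (hb : b ≤ b') : τ.str Γ a b ⊆ τ.str Γ a' b' :=
  orb_mono fun _ hw => ⟨ha.trans_lt hw.1, hw.2.trans_le hb⟩

theorem TSweep_empty (X : Sf) (τ : Tb) {a b : ℝ} (h : b ≤ a) : X.Psd (τ.str X.Γ a b) := by
  refine X.psd_empty.mono ?_
  rintro w ⟨γ, -, h1, h2⟩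
  exact absurd (h1.trans h2) (not_lt.2 h)

theorem TSweep_anti {k l : ℕ} (h : k ≤ l) : (1 : ℝ) / (l + 1) ≤ 1 / (k + 1) :=
  Nat.one_div_le_one_div h

theorem stSweep (hNF : StNF) (hTube : StTube) : StSweep := by
  intro X hX e he hMg τ hτ hT
  obtain ⟨-, hcs, -, hcosh, hdp0, -, -, hsurj, hsame, hsm, hcpt⟩ := id (hNF τ hτ.nf)
  have hsgk := (hNF τ hτ.nf).2.2.2.2.2.1
  obtain ⟨hio, hpow, -⟩ := hTube X.Γ X.F hX.cl e he hMg
  have hne : ∃ w, τ.dp w < e := by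
    by_contra hn
    refine hT (X.psd_empty.mono ?_)
    rintro w ⟨γ, -, h⟩
    exact hn ⟨_, h⟩
  obtain ⟨sm, hsm0, hlt, hle⟩ := hsm e hne
  have hTe : τ.T X.Γ e = τ.str X.Γ (-sm) sm := by
    unfold Tb.T Tb.str
    congr 1
    ext w
    simp only [mem_ofPred_eq, hlt, abs_lt]
  rw [hTe] at hT
  have huq : ∀ w, ∀ γ ∈ X.Γ, ∀ γ' ∈ X.Γ, |τ.sg (γ • w)| ≤ sm → |τ.sg (γ' • w)| ≤ sm →
      τ.sg (γ' • w) = τ.sg (γ • w) := by
    intro w γ hγ γ' hγ' h1 h2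
    have e1 : (γ' * γ⁻¹) • γ • w = γ' • w := by rw [mul_smul, inv_smul_smul]
    obtain ⟨k, hk⟩ := hpow τ hτ (γ • w) (γ' * γ⁻¹) (X.Γ.mul_mem hγ' (X.Γ.inv_mem hγ))
      (by linarith [(hle _).2 h1]) (by rw [e1]; linarith [(hle _).2 h2])
    rw [← e1, hk, hsgk]
  have hop : ∀ a b, IsOpen (τ.str X.Γ a b) := fun a b =>
    isOpen_orb ((isOpen_lt continuous_const hcs).inter (isOpen_lt hcs continuous_const))
  have hiv : ∀ a b, InvS X.Γ (τ.str X.Γ a b) := fun a b => invS_orb _ _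
  have hdj : ∀ t, -sm ≤ t → t ≤ sm → Disjoint (τ.str X.Γ (-sm) t) (τ.str X.Γ t sm) := by
    intro t h1 h2
    rw [Set.disjoint_left]
    rintro w ⟨γ, hγ, a1, a2⟩ ⟨γ', hγ', b1, b2⟩
    have := huq w γ hγ γ' hγ' (abs_le.2 ⟨a1.le, by linarith⟩) (abs_le.2 ⟨by linarith, b2.le⟩)
    linarith
  let B : Set ℝ := {t | -sm ≤ t ∧ t ≤ sm ∧ X.Psd (τ.str X.Γ (-sm) t)}
  have hB0 : -sm ∈ B := ⟨le_rfl, by linarith, TSweep_empty X τ le_rfl⟩
  have hBb : BddAbove B := ⟨sm, fun t ht => ht.2.1⟩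
  obtain ⟨t0, ht0⟩ : ∃ t0, t0 = sSup B := ⟨_, rfl⟩
  have l0 : -sm ≤ t0 := ht0 ▸ le_csSup hBb hB0
  have l1 : t0 ≤ sm := ht0 ▸ csSup_le ⟨_, hB0⟩ fun t ht => ht.2.1
  have p0 : X.Psd (τ.str X.Γ (-sm) t0) := by
    refine (hX.psd_iUnion (O := fun k : ℕ => τ.str X.Γ (-sm) (t0 - 1 / (k + 1)))
      (fun k l h => TSweep_mono τ _ le_rfl (by linarith [TSweep_anti h]))
      (fun k => hop _ _) (fun k => hiv _ _) fun k => ?_).mono ?_
    · have hk : t0 - 1 / ((k : ℝ) + 1) < sSup B := by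
        have : (0 : ℝ) < 1 / ((k : ℝ) + 1) := Nat.one_div_pos_of_nat
        rw [← ht0]; linarith
      obtain ⟨t, ht, hlt'⟩ := exists_lt_of_lt_csSup ⟨_, hB0⟩ hk
      exact ht.2.2.mono (TSweep_mono τ _ le_rfl hlt'.le)
    · rintro w ⟨γ, hγ, a1, a2⟩
      obtain ⟨k, hk⟩ := exists_nat_one_div_lt (sub_pos.2 a2)
      exact mem_iUnion.2 ⟨k, γ, hγ, a1, by linarith⟩
  have p1 : X.Psd (τ.str X.Γ t0 sm) := by
    refine (hX.psd_iUnion (O := fun k : ℕ => τ.str X.Γ (t0 + 1 / (k + 1)) sm)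
      (fun k l h => TSweep_mono τ _ (by linarith [TSweep_anti h]) le_rfl)
      (fun k => hop _ _) (fun k => hiv _ _) fun k => ?_).mono ?_
    · have hk : (0 : ℝ) < 1 / ((k : ℝ) + 1) := Nat.one_div_pos_of_nat
      rcases le_total sm (t0 + 1 / ((k : ℝ) + 1)) with h | h
      · exact TSweep_empty X τ h
      · refine (hX.two (hdj _ (by linarith) h)).resolve_left fun hp => ?_
        have : t0 + 1 / ((k : ℝ) + 1) ≤ sSup B := le_csSup hBb ⟨by linarith, h, hp⟩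
        rw [← ht0] at this
        linarith
    · rintro w ⟨γ, hγ, a1, a2⟩
      obtain ⟨k, hk⟩ := exists_nat_one_div_lt (sub_pos.2 a1)
      exact mem_iUnion.2 ⟨k, γ, hγ, by linarith, a2⟩
  obtain ⟨A, hAc, hA1, hA2⟩ := hcpt (-sm) sm
  have hsub : τ.str X.Γ (-sm) sm ⊆ orb X.Γ A := by
    rintro w ⟨γ, hγ, a1, a2⟩
    obtain ⟨k, hk⟩ := hA2 _ a1.le a2.le
    exact ⟨τ.γ ^ k * γ, X.Γ.mul_mem (X.Γ.zpow_mem hτ.mem k) hγ, by rwa [mul_smul]⟩
  have p2 : X.Psd (orb X.Γ A)ᶜ :=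
    (hX.two (disjoint_compl_right.mono_left hsub)).resolve_left hT
  have d02 : Disjoint (τ.str X.Γ (-sm) t0) (orb X.Γ A)ᶜ :=
    disjoint_compl_right.mono_left ((TSweep_mono τ _ le_rfl l1).trans hsub)
  have d12 : Disjoint (τ.str X.Γ t0 sm) (orb X.Γ A)ᶜ :=
    disjoint_compl_right.mono_left ((TSweep_mono τ _ l0 le_rfl).trans hsub)
  have d01 := hdj t0 l0 l1
  choose P hP using hsurj
  have key : ∀ w, ∀ γ ∈ X.Γ, ∀ t, |t| ≤ sm → τ.sg (γ • w) = t →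
      io X.Γ e w = io X.Γ e (P t) ∧ w ∈ orb X.Γ (closedBall (P t) (io X.Γ e (P t))) := by
    intro w γ hγ t ht hw
    have h1 : τ.dp (P t) ≤ e := (hle _).2 (by rwa [hP])
    have h2 : τ.dp (γ • w) = τ.dp (P t) := by
      have hc : Real.cosh (τ.dp (γ • w)) = Real.cosh (τ.dp (P t)) := by
        rw [hcosh, hcosh, hw, hP]
      have a1 := Real.cosh_le_cosh.1 hc.le
      have a2 := Real.cosh_le_cosh.1 hc.ge
      rw [abs_of_pos (hdp0 _), abs_of_pos (hdp0 _)] at a1 a2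
      exact le_antisymm a1 a2
    have h3 : io X.Γ e (P t) = τ.dp (P t) := by
      rw [hio τ hτ _ (by linarith), min_eq_right h1]
    refine ⟨?_, ?_⟩
    · rw [← TSweep_io e hγ w, hio τ hτ _ (by linarith), h2, h3, min_eq_right h1]
    · obtain ⟨k, hk⟩ := hsame (γ • w) (P t) (by rw [hw, hP])
      refine ⟨τ.γ ^ k * γ, X.Γ.mul_mem (X.Γ.zpow_mem hτ.mem k) hγ, ?_⟩
      rw [mul_smul, mem_closedBall, h3]
      exact hk
  refine ⟨![τ.str X.Γ (-sm) t0, τ.str X.Γ t0 sm, (orb X.Γ A)ᶜ], ![P (-sm), P t0, P sm],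
    ?_, ?_, ?_, ?_, ?_⟩
  · intro t
    fin_cases t
    exacts [hop _ _, hop _ _, (hX.cl.isClosed_orb hAc).isOpen_compl]
  · intro t
    fin_cases t
    exacts [hiv _ _, hiv _ _, (invS_orb _ _).compl]
  · intro t t' h
    fin_cases t <;> fin_cases t'
    exacts [absurd rfl h, d01, d02, d01.symm, absurd rfl h, d12, d02.symm, d12.symm, absurd rfl h]
  · intro t
    fin_cases t
    exacts [p0, p1, p2]
  · intro w hw
    have h0 : w ∉ τ.str X.Γ (-sm) t0 := hw 0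
    have h1 : w ∉ τ.str X.Γ t0 sm := hw 1
    have h2 : w ∉ (orb X.Γ A)ᶜ := hw 2
    obtain ⟨γ, hγ, hA⟩ := not_notMem.1 h2
    obtain ⟨a1, a2⟩ := hA1 _ hA
    rcases a1.eq_or_lt with a1 | a1
    · exact ⟨0, key w γ hγ (-sm) (by rw [abs_neg, abs_of_pos hsm0]) a1.symm⟩
    rcases a2.eq_or_lt with a2 | a2
    · exact ⟨2, key w γ hγ sm (by rw [abs_of_pos hsm0]) a2⟩
    rcases lt_trichotomy (τ.sg (γ • w)) t0 with h | h | h
    · exact absurd ⟨γ, hγ, a1, h⟩ h0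
    · exact ⟨1, key w γ hγ t0 (abs_le.2 ⟨l0, l1⟩) h⟩
    · exact absurd ⟨γ, hγ, h, a2⟩ h1

end Pool.Agent.MP_4f0ed6_gt.U

end

section

set_option autoImplicit false
set_option linter.dupNamespace false

open MeasureTheory Set Metric Filter Topology
open scoped InnerProductSpace ENNReal Classical

namespace Pool.Agent.MP_4f0ed6_gt.U

theorem TApp1_alg {A : Type} [Ring A] [Algebra ℝ A] (a c G G' : A) (κ : ℝ) (hac : a * c = a)
    (hca : c * a = a) (hG : G' = G + G * (κ • a) * G') :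
    a * (κ • (c * G' * (c - a))) = a * (κ • (c * G * c)) * (1 - a) +
      a * (κ • (c * G * c)) * a * (κ • (c * G' * (c - a))) := by
  have e1 : a * (κ • (c * G' * (c - a))) = κ • (a * G' * (c - a)) := by
    rw [mul_smul_comm, ← mul_assoc, ← mul_assoc, hac]
  have e2 : a * (κ • (c * G * c)) = κ • (a * G * c) := by
    rw [mul_smul_comm, ← mul_assoc, ← mul_assoc, hac]
  have e3 : κ • (a * G * c) * (1 - a) = κ • (a * G * (c - a)) := by
    rw [smul_mul_assoc, mul_assoc (a * G), mul_sub, mul_one, hca]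
  have e4 : κ • (a * G * c) * a = κ • (a * G * a) := by
    rw [smul_mul_assoc, mul_assoc (a * G), hca]
  have e5 : κ • (a * G * a) * (κ • (c * G' * (c - a))) =
      κ • (a * (G * (κ • a) * G') * (c - a)) := by
    have : a * G * a * (c * G' * (c - a)) = a * (G * a * G') * (c - a) := by
      calc a * G * a * (c * G' * (c - a)) = a * G * (a * c) * G' * (c - a) := by
            simp only [mul_assoc]
        _ = a * (G * a * G') * (c - a) := by rw [hac]; simp only [mul_assoc]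
    rw [smul_mul_assoc, mul_smul_comm, this]
    simp only [mul_smul_comm, smul_mul_assoc]
  rw [e1, e2, e3, e4, e5, ← smul_add, ← add_mul, ← mul_add, ← hG]

variable {n : ℕ}

theorem TApp1_le_refl (A : Op n) : Le A A := fun _ _ => le_refl _

theorem TApp1_le {a G G' q : Op n} {κ : ℝ} (hκ : 0 ≤ κ) (ha : Pp a) (hG : Pp G) (hG' : Pp G')
    (hq : Pp q) (h : Le G G') : Le (κ • (a * G * q)) (κ • (a * G' * q)) :=
  Le.smul hκ (Le.mul (Le.mul (TApp1_le_refl a) h ha hG) (TApp1_le_refl q) (ha.mul hG') hq)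

theorem TApp1_WZ (cb : ℝ) : WZ cb (∅ : Finset (Fin n)) = 0 := by
  unfold WZ
  exact Finset.sum_empty

theorem TApp1_sub {m : ℕ} (adj : Nd n m → Nd n m → Prop) (C : Finset (Fin n)) (r : ℕ)
    (u : Fin n) : Ub adj C r u ⊆ C := by
  unfold Ub
  split_ifs
  · exact Finset.inter_subset_right
  · exact Finset.empty_subset _

theorem TApp1_base (hDOM : StDOM) {k : Cst} {m : ℕ} {H : Type} [NormedAddCommGroup H]
    [InnerProductSpace ℝ H] [CompleteSpace H] {P : Pb n m H} (hA : P.Ax k) {κ : ℝ} (hκ : 0 ≤ κ)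
    (Z0 : Finset (Fin n)) {Ω : Finset (Fin n)} (h : P.Co (Wt κ Ω)) (Z : Finset (Fin n)) :
    P.Co (Wt κ Ω + WZ (k.cb (κ + 2)) Z0 + WZ (k.cb (κ + 2)) Z) ∧
    Bd (Wt κ Ω + WZ (k.cb (κ + 2)) Z0 + WZ (k.cb (κ + 2)) Z) (κ + 2) ∧
    Le (P.G (Wt κ Ω + WZ (k.cb (κ + 2)) Z0 + WZ (k.cb (κ + 2)) Z))
      (P.G (Wt κ Ω + WZ (k.cb (κ + 2)) Z0 + WZ (k.cb (κ + 2)) ∅)) ∧
    Le (P.G (Wt κ Ω + WZ (k.cb (κ + 2)) Z0 + WZ (k.cb (κ + 2)) Z)) (P.G (Wt κ Ω)) := by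
  have e : κ + 1 + 1 = κ + 2 := by ring
  have hcb : 0 ≤ k.cb (κ + 2) := by
    unfold Cst.cb
    have := hA.ok.h5 (κ + 2)
    positivity
  have b0 : Bd (Wt κ Ω) κ := bd_Wt hκ Ω
  have b1 : Bd (Wt κ Ω + WZ (k.cb (κ + 2)) Z0) (κ + 1) := by
    have := b0.add_WZ hcb zero_le_one le_rfl Z0
    rwa [one_smul] at this
  have b2 : Bd (Wt κ Ω + WZ (k.cb (κ + 2)) Z0 + WZ (k.cb (κ + 2)) Z) (κ + 2) := by
    have := b1.add_WZ hcb zero_le_one le_rfl Z
    rwa [one_smul, e] at this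
  have d1 := hDOM k n m H P hA (κ + 1) (Wt κ Ω) (by linarith) h
    (b0.mono le_rfl (by linarith)) ∅ Z0 (Finset.empty_subset _)
  rw [e, TApp1_WZ, add_zero] at d1
  have d2 := hDOM k n m H P hA (κ + 1) _ (by linarith) d1.1 b1 ∅ Z (Finset.empty_subset _)
  rw [e] at d2
  refine ⟨d2.1, b2, d2.2, ?_⟩
  have d3 := d2.2
  rw [TApp1_WZ, add_zero] at d3
  exact d3.trans d1.2

theorem stApp1 (hDOM : StDOM) : StApp1 := by
  intro k n m H _ _ _ P hA κ Z0 R r hG hR hκ Z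
  have hκ0 : 0 < κ := by
    have := hA.ok.h2
    linarith
  have c0 : P.Co (Wt κ ∅) :=
    hG ∅ ∅ 0 (Finset.empty_subset _) (Finset.empty_subset _)
      (fun c hc => absurd hc (Finset.notMem_empty c)) (by simp) κ hκ
  have cU : ∀ u, P.Co (Wt κ (Ub P.adj Z0ᶜ r u)) := by
    intro u
    by_cases hu : u ∈ Z0ᶜ
    · refine hG _ {u} r (TApp1_sub _ _ _ _) (Finset.singleton_subset_iff.2 hu) ?_
        (by simpa using hR) κ hκ
      intro c hc
      unfold Ub at hc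
      rw [if_pos hu] at hc
      exact ⟨u, Finset.mem_singleton_self u, (Finset.mem_inter.1 hc).1⟩
    · unfold Ub
      rw [if_neg hu]
      exact c0
  have eW : ∀ (U Y : Finset (Fin n)),
      Wt κ ∅ + WZ (k.cb (κ + 2)) Z0 + WZ (k.cb (κ + 2)) Y - κ • cel U =
        Wt κ U + WZ (k.cb (κ + 2)) Z0 + WZ (k.cb (κ + 2)) Y := by
    intro U Y
    rw [Wt_eq κ U]
    abel
  have eB : ∀ Y, (P.bz k κ Z0 r Y).B = κ • (prS Z0ᶜ *
      P.G (Wt κ ∅ + WZ (k.cb (κ + 2)) Z0 + WZ (k.cb (κ + 2)) Y) * prS Z0ᶜ) := fun _ => rfl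
  have eH : ∀ Y u, (P.bz k κ Z0 r Y).H u = κ • (prS Z0ᶜ *
      P.G (Wt κ (Ub P.adj Z0ᶜ r u) + WZ (k.cb (κ + 2)) Z0 + WZ (k.cb (κ + 2)) Y) *
        prS (Z0ᶜ \ Ub P.adj Z0ᶜ r u)) := by
    intro Y u
    rw [← eW, ← prS_sdiff (TApp1_sub P.adj Z0ᶜ r u)]
    rfl
  have eC : (P.bz k κ Z0 r Z).C = Z0ᶜ := rfl
  have eU : ∀ u, (P.bz k κ Z0 r Z).U u = Ub P.adj Z0ᶜ r u := fun _ => rfl
  have ep : (P.bz k κ Z0 r Z).p = ((k.Δ : ℝ) ^ r)⁻¹ := rfl
  obtain ⟨a1, a2, a3, a4⟩ := TApp1_base hDOM hA hκ0.le Z0 c0 Z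
  have sy : ∀ (S : Finset (Fin n)) (x y : L2 n), ⟪prS S x, y⟫_ℝ = ⟪x, prS S y⟫_ℝ :=
    fun S => mul_sy (cel S)
  have ppB : Pp (P.bz k κ Z0 r Z).B := by
    rw [eB]
    exact Pp.smul hκ0.le (((prS_pp _).mul (hA.pos _ a1)).mul (prS_pp _))
  have hΔ : (0 : ℝ) < (k.Δ : ℝ) ^ r := by
    have : (1 : ℝ) ≤ k.Δ := by exact_mod_cast hA.ok.h1
    positivity
  refine ⟨⟨?_, ?_, ppB, ?_, ?_, fun u => TApp1_sub _ _ _ u, ?_, ?_, ?_, ?_⟩, ?_, a1, a2, ?_, ?_⟩
  · intro x y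
    rw [eB]
    simp only [ContinuousLinearMap.smul_apply, ContinuousLinearMap.mul_apply,
      real_inner_smul_left, real_inner_smul_right]
    rw [sy, a1.G_sy hA.sym, sy]
  · intro x
    rw [eB]
    simp only [ContinuousLinearMap.smul_apply, ContinuousLinearMap.mul_apply,
      real_inner_smul_left]
    rw [sy]
    exact mul_nonneg hκ0.le (a1.G_psd _)
  · rw [eB, eC, mul_smul_comm, ← mul_assoc, ← mul_assoc, prS_mul, Finset.inter_self]
  · rw [eB, eC, smul_mul_assoc, mul_assoc, prS_mul, Finset.inter_self]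
  · rw [ep]
    exact (inv_pos.2 hΔ).le
  · intro c
    have h1 : (((Finset.univ.filter fun u => c ∈ Ub P.adj Z0ᶜ r u).card : ℕ) : ℝ) ≤
        (k.Δ : ℝ) ^ r := by exact_mod_cast hA.gr.card_Ub Z0ᶜ r c
    have h2 : ((k.Δ : ℝ) ^ r)⁻¹ *
        (((Finset.univ.filter fun u => c ∈ Ub P.adj Z0ᶜ r u).card : ℕ) : ℝ) ≤ 1 := by
      rw [inv_mul_le_iff₀ hΔ, mul_one]
      exact h1
    exact sub_nonneg.2 h2
  · intro u
    obtain ⟨b1, -, -, -⟩ := TApp1_base hDOM hA hκ0.le Z0 (cU u) Z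
    obtain ⟨θ, hθ, h⟩ := b1.cut_lt hκ0 (Ub P.adj Z0ᶜ r u)
    refine ⟨θ, hθ, fun x hx => ?_⟩
    rw [eU] at hx
    have hx' : prS Z0ᶜ x = x := by
      have e : prS Z0ᶜ * prS (Ub P.adj Z0ᶜ r u) = prS (Ub P.adj Z0ᶜ r u) := by
        rw [prS_mul, Finset.inter_eq_right.2 (TApp1_sub _ _ _ u)]
      calc prS Z0ᶜ x = prS Z0ᶜ (prS (Ub P.adj Z0ᶜ r u) x) := by rw [hx]
        _ = (prS Z0ᶜ * prS (Ub P.adj Z0ᶜ r u)) x := rfl
        _ = x := by rw [e, hx]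
    have h1 := h x hx
    rw [← eW, sub_add_cancel] at h1
    rw [eB]
    simp only [ContinuousLinearMap.smul_apply, ContinuousLinearMap.mul_apply,
      real_inner_smul_left]
    rw [sy, hx']
    exact h1
  · intro u
    obtain ⟨b1, -, -, -⟩ := TApp1_base hDOM hA hκ0.le Z0 (cU u) Z
    have hr := b1.res' a1
    have e : mul (Wt κ ∅ + WZ (k.cb (κ + 2)) Z0 + WZ (k.cb (κ + 2)) Z -
        (Wt κ (Ub P.adj Z0ᶜ r u) + WZ (k.cb (κ + 2)) Z0 + WZ (k.cb (κ + 2)) Z)) =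
        κ • prS (Ub P.adj Z0ᶜ r u) := by
      rw [← eW (Ub P.adj Z0ᶜ r u) Z, sub_sub_cancel, map_smul]
      rfl
    rw [e] at hr
    rw [eH, eB, eU, ← prS_sdiff (TApp1_sub P.adj Z0ᶜ r u)]
    refine TApp1_alg _ _ _ _ κ ?_ ?_ hr
    · rw [prS_mul, Finset.inter_eq_left.2 (TApp1_sub _ _ _ u)]
    · rw [prS_mul, Finset.inter_eq_right.2 (TApp1_sub _ _ _ u)]
  · intro o
    cases o with
    | none =>
      refine ⟨ppB, ?_⟩
      obtain ⟨b1, -, -, -⟩ := TApp1_base hDOM hA hκ0.le Z0 c0 ∅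
      show Le (P.bz k κ Z0 r Z).B (P.bz k κ Z0 r ∅).B
      rw [eB, eB]
      exact TApp1_le hκ0.le (prS_pp _) (hA.pos _ a1) (hA.pos _ b1) (prS_pp _) a3
    | some u =>
      obtain ⟨b1, -, b3, -⟩ := TApp1_base hDOM hA hκ0.le Z0 (cU u) Z
      obtain ⟨b2, -, -, -⟩ := TApp1_base hDOM hA hκ0.le Z0 (cU u) ∅
      show Pp ((P.bz k κ Z0 r Z).H u) ∧ Le ((P.bz k κ Z0 r Z).H u) ((P.bz k κ Z0 r ∅).H u)
      rw [eH, eH]
      exact ⟨Pp.smul hκ0.le (((prS_pp _).mul (hA.pos _ b1)).mul (prS_pp _)),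
        TApp1_le hκ0.le (prS_pp _) (hA.pos _ b1) (hA.pos _ b2) (prS_pp _) b3⟩
  · rw [eB]
    exact TApp1_le hκ0.le (prS_pp _) (hA.pos _ a1) (hA.pos _ c0) (prS_pp _) a4
  · intro u
    obtain ⟨b1, -, -, b4⟩ := TApp1_base hDOM hA hκ0.le Z0 (cU u) Z
    rw [eH]
    exact TApp1_le hκ0.le (prS_pp _) (hA.pos _ b1) (hA.pos _ (cU u)) (prS_pp _) b4

end Pool.Agent.MP_4f0ed6_gt.U

end

section

set_option autoImplicit false
set_option linter.dupNamespace false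

open MeasureTheory Set Metric Filter Topology
open scoped InnerProductSpace ENNReal Classical

namespace Pool.Agent.MP_4f0ed6_gt.U

variable {n m : ℕ}

/-- the form that tests concentration in the cell `z` -/
noncomputable def TSubB {H : Type} [NormedAddCommGroup H] [InnerProductSpace ℝ H]
    (R : H →L[ℝ] L2 n) (a : ℝ) (z : Fin n) : H →ₗ[ℝ] H →ₗ[ℝ] ℝ :=
  LinearMap.mk₂ ℝ (fun f g => ⟪pr z (R f), R g⟫_ℝ - a * ⟪ct z 10 (R f), R g⟫_ℝ)
    (fun f f' g => by simp only [map_add, inner_add_left]; ring)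
    (fun c f g => by simp only [map_smul, real_inner_smul_left, smul_eq_mul]; ring)
    (fun f g g' => by simp only [map_add, inner_add_right]; ring)
    (fun c f g => by simp only [map_smul, real_inner_smul_right, smul_eq_mul]; ring)

theorem TSub_sy (c : Fin n) (t : ℝ) (x y : L2 n) : ⟪ct c t x, y⟫_ℝ = ⟪ct c t y, x⟫_ℝ := by
  have h : ⟪ct c t x, y⟫_ℝ = ⟪x, ct c t y⟫_ℝ := mul_sy (ind c t) x y
  rw [h, real_inner_comm]

theorem TSubB_symm {H : Type} [NormedAddCommGroup H] [InnerProductSpace ℝ H]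
    (R : H →L[ℝ] L2 n) (a : ℝ) (z : Fin n) (u v : H) : TSubB R a z u v = TSubB R a z v u := by
  show ⟪ct z 3 (R u), R v⟫_ℝ - a * ⟪ct z 10 (R u), R v⟫_ℝ =
    ⟪ct z 3 (R v), R u⟫_ℝ - a * ⟪ct z 10 (R v), R u⟫_ℝ
  rw [TSub_sy z 3, TSub_sy z 10]

theorem TSubB_self {H : Type} [NormedAddCommGroup H] [InnerProductSpace ℝ H]
    (R : H →L[ℝ] L2 n) (a : ℝ) (z : Fin n) (u : H) :
    TSubB R a z u u = ‖pr z (R u)‖ ^ 2 - a * ‖ct z 10 (R u)‖ ^ 2 := by
  show ⟪ct z 3 (R u), R u⟫_ℝ - a * ⟪ct z 10 (R u), R u⟫_ℝ = _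
  rw [inner_ct_self, inner_ct_self]
  rfl

theorem TSub_prS (S : Finset (Fin n)) (y : L2 n) :
    ‖prS S y‖ ^ 2 = ∑ z ∈ S, ⟪pr z y, y⟫_ℝ := by
  rw [← inner_prS_self, prS_eq_sum, sum_apply, sum_inner]

theorem TSub_pot {κ cb a : ℝ} (hκ : 0 ≤ κ) (ha : 0 ≤ a) (hcb : cb = (κ + 1) * a)
    (Z0 Z : Finset (Fin n)) (y : L2 n)
    (h : ∀ z ∈ Z0 ∪ Z, ‖pr z y‖ ^ 2 - a * ‖ct z 10 y‖ ^ 2 ≤ 0) :
    ⟪mul (Wt κ ∅ + WZ cb Z0 + WZ cb Z) y, y⟫_ℝ ≤ κ * ‖prS Z0ᶜ y‖ ^ 2 := by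
  have e : ∀ z : Fin n, ⟪pr z y, y⟫_ℝ = ‖pr z y‖ ^ 2 := fun z => inner_ct_self z 3 y
  rw [map_add, map_add, add_apply, add_apply,
    inner_add_left, inner_add_left, inner_mul_Wt, inner_mul_WZ, inner_mul_WZ, TSub_prS,
    Finset.compl_empty, ← Finset.sum_add_sum_compl Z0]
  have h1 : κ * ∑ z ∈ Z0, ⟪pr z y, y⟫_ℝ +
      ∑ z ∈ Z0, (⟪pr z y, y⟫_ℝ - cb * ⟪ct z 10 y, y⟫_ℝ) ≤ 0 := by
    rw [Finset.mul_sum, ← Finset.sum_add_distrib]
    refine Finset.sum_nonpos fun z hz => ?_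
    have h2 := h z (Finset.mem_union_left _ hz)
    rw [e, inner_ct_self, hcb]
    nlinarith
  have h3 : ∑ z ∈ Z, (⟪pr z y, y⟫_ℝ - cb * ⟪ct z 10 y, y⟫_ℝ) ≤ 0 := by
    refine Finset.sum_nonpos fun z hz => ?_
    have h2 := h z (Finset.mem_union_right _ hz)
    rw [e, inner_ct_self, hcb]
    have h4 : 0 ≤ κ * a * ‖ct z 10 y‖ ^ 2 := by positivity
    nlinarith
  rw [mul_add]
  linarith

theorem TSub_idem (S : Finset (Fin n)) (y : L2 n) : prS S (prS S y) = prS S y := by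
  have h := prS_mul S S
  rw [Finset.inter_self] at h
  exact congrArg (fun A : Op n => A y) h

theorem TSub_var {H : Type} [NormedAddCommGroup H] [InnerProductSpace ℝ H] [CompleteSpace H]
    {P : Pb n m H} {W : LI n} (hs : ∀ u v, P.Qb u v = P.Qb v u) (hW : P.Co W) {κ : ℝ}
    (hκ : 0 < κ) (C : Finset (Fin n)) (f : H)
    (hf : P.q W f f ≤ κ * ‖prS C (P.R f)‖ ^ 2) :
    ‖prS C (P.R f)‖ ^ 2 ≤
      ⟪(κ • (prS C * P.G W * prS C)) (prS C (P.R f)), prS C (P.R f)⟫_ℝ := by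
  have h := Pb.Co.var hs hW (prS C (P.R f)) (κ⁻¹ • f)
  have h2 : ⟪prS C (P.G W (prS C (P.R f))), prS C (P.R f)⟫_ℝ =
      ⟪P.G W (prS C (P.R f)), prS C (prS C (P.R f))⟫_ℝ := mul_sy (cel C) _ _
  have h3 : (κ • (prS C * P.G W * prS C)) (prS C (P.R f)) =
      κ • prS C (P.G W (prS C (prS C (P.R f)))) := rfl
  rw [h3, TSub_idem, real_inner_smul_left, h2, TSub_idem]
  have h4 : P.q W (κ⁻¹ • f) (κ⁻¹ • f) = κ⁻¹ * (κ⁻¹ * P.q W f f) := by
    rw [map_smul, map_smul, smul_apply, smul_eq_mul, smul_eq_mul]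
  rw [h4, map_smul, real_inner_smul_right, inner_prS_self] at h
  have h5 := mul_le_mul_of_nonneg_left h hκ.le
  have h6 : κ * (2 * (κ⁻¹ * ‖prS C (P.R f)‖ ^ 2) - κ⁻¹ * (κ⁻¹ * P.q W f f)) =
      2 * ‖prS C (P.R f)‖ ^ 2 - κ⁻¹ * P.q W f f := by
    field_simp
  have h7 : κ⁻¹ * P.q W f f ≤ ‖prS C (P.R f)‖ ^ 2 := by
    rw [inv_mul_le_iff₀ hκ]
    exact hf
  linarith

theorem stSub (hCON : StCON) (hLA2 : StLA2) (hApp1 : StApp1) : StSub := by
  intro k κ hκ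
  by_cases hk : k.Ok
  swap
  · exact ⟨0, fun n m H _ _ _ P hA => absurd hA.ok hk⟩
  have hκ0 : 0 < κ := by linarith [hk.h2]
  have hcb : 0 < k.cb (κ + 2) := by
    have := hk.h5 (κ + 2)
    unfold Cst.cb
    positivity
  have ha : 0 < k.cb (κ + 2) / (κ + 1) := by positivity
  obtain ⟨k0, hk0⟩ := hCON k _ ha
  refine ⟨k0, fun n m H _ _ _ P hA Z0 Z R r hG hR => ?_⟩
  have := hA.fin
  obtain ⟨K', hK', hrk, hb⟩ := hLA2 H P.Kr (Fin n) (Z0 ∪ Z)
    (TSubB P.R (k.cb (κ + 2) / (κ + 1))) k0 (TSubB_symm _ _) (fun z _ E hE h => by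
      refine hk0 n m H P hA z E hE fun f hf hf0 => ?_
      have h1 := h f hf hf0
      rw [TSubB_self] at h1
      linarith)
  have hCo := (hApp1 k n m H P hA κ Z0 R r hG hR hκ Z).2.2.1
  have hq : ∀ f ∈ K', P.q (Wt κ ∅ + WZ (k.cb (κ + 2)) Z0 + WZ (k.cb (κ + 2)) Z) f f ≤
      κ * ‖prS Z0ᶜ (P.R f)‖ ^ 2 := by
    intro f hf
    rw [Pb.q_apply, hA.ker f (hK' hf), zero_add]
    refine TSub_pot hκ0.le ha.le (by field_simp) Z0 Z _ fun z hz => ?_
    rw [← TSubB_self]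
    exact hb z hz f hf
  have : FiniteDimensional ℝ K' := Submodule.finiteDimensional_of_le hK'
  let T : K' →ₗ[ℝ] L2 n := ((prS Z0ᶜ).comp P.R).toLinearMap.comp K'.subtype
  have hT : Function.Injective T := by
    rw [injective_iff_map_eq_zero]
    intro f hf
    have h1 : prS Z0ᶜ (P.R f) = 0 := hf
    have h2 := hq f f.2
    rw [h1, norm_zero] at h2
    exact Subtype.ext (Pb.Co.eq_zero hCo (by simpa using h2))
  refine ⟨LinearMap.range T, inferInstance, ?_, ?_⟩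
  · rw [LinearMap.finrank_range_of_inj hT]
    exact hrk.trans (Nat.add_le_add_left
      (Nat.mul_le_mul_left _ (Finset.card_union_le _ _)) _)
  · rintro x ⟨f, rfl⟩
    exact ⟨TSub_idem _ _, TSub_var hA.sym hCo hκ0 Z0ᶜ f (hq f f.2)⟩

end Pool.Agent.MP_4f0ed6_gt.U

end

section

set_option autoImplicit false
set_option linter.dupNamespace false

open MeasureTheory Set Metric Filter Topology
open scoped InnerProductSpace ENNReal Classical

namespace Pool.Agent.MP_4f0ed6_gt.U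

/-- strong convergence is uniform on a finite dimensional subspace -/
theorem tTrLow_unif {X : Type} [NormedAddCommGroup X] [InnerProductSpace ℝ X]
    (T : ℕ → X →L[ℝ] X) (V : Submodule ℝ X) [FiniteDimensional ℝ V]
    (h : ∀ x ∈ V, Tendsto (fun i => T i x) atTop (𝓝 x)) {η : ℝ} (hη : 0 < η) :
    ∀ᶠ i in atTop, ∀ x ∈ V, ‖T i x - x‖ ≤ η * ‖x‖ := by
  let b := stdOrthonormalBasis ℝ V
  have h1 : Tendsto (fun i => ∑ k, ‖T i (b k : X) - (b k : X)‖) atTop (𝓝 0) := by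
    have : (0 : ℝ) = ∑ k : Fin (Module.finrank ℝ V), (0 : ℝ) := by simp
    rw [this]
    refine tendsto_finsetSum _ fun k _ => ?_
    exact tendsto_iff_norm_sub_tendsto_zero.1 (h _ (b k).2)
  filter_upwards [h1.eventually (ge_mem_nhds hη)] with i hi x hx
  have hx' : x = ∑ k, ⟪b k, (⟨x, hx⟩ : V)⟫_ℝ • (b k : X) := by
    have := b.sum_repr' (⟨x, hx⟩ : V)
    have h2 := congrArg (fun v : V => (v : X)) this
    simp only [Submodule.coe_sum, Submodule.coe_smul] at h2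
    exact h2.symm
  have h3 : T i x - x = ∑ k, ⟪b k, (⟨x, hx⟩ : V)⟫_ℝ • (T i (b k : X) - (b k : X)) := by
    simp only [smul_sub, Finset.sum_sub_distrib]
    rw [← hx']
    congr 1
    conv_lhs => rw [hx']
    simp only [map_sum, map_smul]
  rw [h3]
  calc ‖∑ k, ⟪b k, (⟨x, hx⟩ : V)⟫_ℝ • (T i (b k : X) - (b k : X))‖
      ≤ ∑ k, ‖⟪b k, (⟨x, hx⟩ : V)⟫_ℝ • (T i (b k : X) - (b k : X))‖ := norm_sum_le _ _
    _ ≤ ∑ k, ‖x‖ * ‖T i (b k : X) - (b k : X)‖ := by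
        refine Finset.sum_le_sum fun k _ => ?_
        rw [norm_smul]
        refine mul_le_mul_of_nonneg_right ?_ (norm_nonneg _)
        have h4 := norm_inner_le_norm (𝕜 := ℝ) (b k) (⟨x, hx⟩ : V)
        rw [b.orthonormal.1 k, one_mul] at h4
        exact h4
    _ = ‖x‖ * ∑ k, ‖T i (b k : X) - (b k : X)‖ := by rw [Finset.mul_sum]
    _ ≤ η * ‖x‖ := by
        rw [mul_comm]
        exact mul_le_mul_of_nonneg_right hi (norm_nonneg _)

theorem tTrLow_form {X : Type} [NormedAddCommGroup X] [InnerProductSpace ℝ X]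
    (B : X →L[ℝ] X) (hB : ∀ x, 0 ≤ ⟪B x, x⟫_ℝ) {x y : X} {η : ℝ} (h0 : 0 ≤ η) (hη : η ≤ 1 / 2)
    (hx : ‖x‖ ^ 2 ≤ ⟪B x, x⟫_ℝ) (hy : ‖y‖ ≤ ‖x‖) (hd : ‖y - x‖ ≤ η * ‖x‖) :
    ‖y‖ ^ 2 - ⟪B y, y⟫_ℝ ≤ 8 * ‖B‖ * η * ‖y‖ ^ 2 := by
  obtain ⟨d, rfl⟩ : ∃ d, y = x + d := ⟨y - x, by abel⟩
  rw [add_sub_cancel_left] at hd
  have hxn := norm_nonneg x
  have hyn := norm_nonneg (x + d)
  have hBn := norm_nonneg B
  have hdn := norm_nonneg d
  have e1 : ⟪B (x + d), x + d⟫_ℝ = ⟪B x, x⟫_ℝ + ⟪B x, d⟫_ℝ + ⟪B d, x⟫_ℝ + ⟪B d, d⟫_ℝ := by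
    rw [map_add, inner_add_left, inner_add_right, inner_add_right]; ring
  have e2 : |⟪B x, d⟫_ℝ| ≤ ‖B‖ * η * ‖x‖ ^ 2 := by
    calc |⟪B x, d⟫_ℝ| ≤ ‖B x‖ * ‖d‖ := abs_real_inner_le_norm _ _
      _ ≤ (‖B‖ * ‖x‖) * (η * ‖x‖) :=
          mul_le_mul (B.le_opNorm x) hd hdn (mul_nonneg hBn hxn)
      _ = ‖B‖ * η * ‖x‖ ^ 2 := by ring
  have e3 : |⟪B d, x⟫_ℝ| ≤ ‖B‖ * η * ‖x‖ ^ 2 := by
    calc |⟪B d, x⟫_ℝ| ≤ ‖B d‖ * ‖x‖ := abs_real_inner_le_norm _ _
      _ ≤ (‖B‖ * (η * ‖x‖)) * ‖x‖ :=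
          mul_le_mul_of_nonneg_right
            ((B.le_opNorm d).trans (mul_le_mul_of_nonneg_left hd hBn)) hxn
      _ = ‖B‖ * η * ‖x‖ ^ 2 := by ring
  have e4 : ‖x‖ ≤ 2 * ‖x + d‖ := by
    have : ‖x‖ ≤ ‖x + d‖ + ‖d‖ := by
      calc ‖x‖ = ‖(x + d) - d‖ := by rw [add_sub_cancel_right]
        _ ≤ ‖x + d‖ + ‖d‖ := norm_sub_le _ _
    nlinarith
  have e5 : ‖x‖ ^ 2 ≤ 4 * ‖x + d‖ ^ 2 := by nlinarith
  have e6 : ‖x + d‖ ^ 2 ≤ ‖x‖ ^ 2 := by nlinarith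
  have e7 : ‖B‖ * η * ‖x‖ ^ 2 ≤ ‖B‖ * η * (4 * ‖x + d‖ ^ 2) :=
    mul_le_mul_of_nonneg_left e5 (mul_nonneg hBn h0)
  have e8 := hB d
  have e9 := neg_abs_le ⟪B x, d⟫_ℝ
  have e10 := neg_abs_le ⟪B d, x⟫_ℝ
  rw [e1]
  nlinarith

theorem stTrLow (hLA : StLA) (hTrAlg : StTrAlg) : StTrLow := by
  intro n β hβ φ hφ hlim V _ hV j δ hδ
  obtain ⟨Λ, hΛ, hG⟩ := hTrAlg n β hβ
  set N : ℝ := 2 * j + 2 with hN
  have hN1 : 1 ≤ N := by
    have : (0 : ℝ) ≤ j := Nat.cast_nonneg j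
    linarith
  have hN0 : 0 < N := by linarith
  set δ1 : ℝ := min δ 1 / (Λ * N) with hδ1
  have hm0 : 0 < min δ 1 := lt_min hδ one_pos
  have hδ10 : 0 < δ1 := div_pos hm0 (mul_pos hΛ hN0)
  have hδΛ : δ1 * Λ = min δ 1 / N := by
    rw [hδ1]; field_simp
  have hδΛ1 : δ1 * Λ ≤ 1 := by
    rw [hδΛ, div_le_one hN0]
    exact (min_le_right _ _).trans hN1
  have hBn := norm_nonneg β.B
  set η : ℝ := min (1 / 2) (δ1 / (8 * (‖β.B‖ + 1))) with hη
  have hη0 : 0 < η := lt_min (by norm_num) (div_pos hδ10 (by linarith))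
  have hη1 : η ≤ 1 / 2 := min_le_left _ _
  have hη2 : 8 * ‖β.B‖ * η ≤ δ1 := by
    have h1 : η ≤ δ1 / (8 * (‖β.B‖ + 1)) := min_le_right _ _
    rw [le_div_iff₀ (by linarith)] at h1
    nlinarith
  have hU := tTrLow_unif (fun i => (φ i).E) V
    (fun x hx => by simpa only [(hV x hx).1] using hlim x) hη0
  filter_upwards [hU] with i hi
  obtain ⟨G, hGs, hEG, hGb, hTh⟩ := hG (φ i) (hφ i)
  have hEE := Fm.E_E (hφ i)
  have hEs := Fm.E_sy (φ i)
  have hEEx : ∀ x, (φ i).E ((φ i).E x) = (φ i).E x := fun x => by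
    have := congrArg (fun T : Op n => T x) hEE
    simpa only [mul_apply_eq_comp] using this
  set A : Op n := (φ i).E - (φ i).E * β.B * (φ i).E with hA
  have hAs : Sy A := by
    intro x y
    simp only [hA, _root_.sub_apply, mul_apply_eq_comp, inner_sub_left,
      inner_sub_right]
    rw [hEs x y, hEs (β.B ((φ i).E x)) y, hβ.sym, hEs x]
  have hEA : (φ i).E * A = A := by
    rw [hA, mul_sub, hEE, ← mul_assoc, ← mul_assoc, hEE]
  let V' : Submodule ℝ (L2 n) := V.map ((φ i).E : L2 n →ₗ[ℝ] L2 n)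
  have hrank : Module.finrank ℝ V' = Module.finrank ℝ V := by
    have hinj : Function.Injective (((φ i).E : L2 n →ₗ[ℝ] L2 n).domRestrict V) := by
      rw [injective_iff_map_eq_zero]
      intro x hx
      have h1 := hi x x.2
      have h2 : (φ i).E x = 0 := hx
      rw [h2, zero_sub, norm_neg] at h1
      have h3 : ‖(x : L2 n)‖ ≤ 0 := by nlinarith [norm_nonneg (x : L2 n)]
      exact Subtype.ext (norm_le_zero_iff.1 h3)
    have := LinearMap.finrank_range_of_inj hinj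
    rw [LinearMap.range_domRestrict] at this
    exact this
  have hV' : ∀ y ∈ V', (φ i).E y = y ∧ ⟪A y, y⟫_ℝ ≤ δ1 * ‖y‖ ^ 2 := by
    rintro _ ⟨x, hx, rfl⟩
    have hy : (φ i).E ((φ i).E x) = (φ i).E x := hEEx x
    refine ⟨hy, ?_⟩
    have h1 := tTrLow_form β.B hβ.psd hη0.le hη1 (hV x hx).2 (Fm.norm_E_le (hφ i) x) (hi x hx)
    have h2 : ⟪A ((φ i).E x), (φ i).E x⟫_ℝ =
        ‖(φ i).E x‖ ^ 2 - ⟪β.B ((φ i).E x), (φ i).E x⟫_ℝ := by
      simp only [hA, _root_.sub_apply, mul_apply_eq_comp, inner_sub_left]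
      rw [hy, real_inner_self_eq_norm_sq, hEs (β.B ((φ i).E x)), hy]
    change ⟪A ((φ i).E x), (φ i).E x⟫_ℝ ≤ δ1 * ‖(φ i).E x‖ ^ 2
    rw [h2]
    exact h1.trans (mul_le_mul_of_nonneg_right hη2 (sq_nonneg _))
  have key := hLA n (φ i) β.C G A Λ δ1 j V' (hφ i) hGs hAs hEG hEA hGb hδ10.le hδΛ1 hV'
  rw [hTh]
  refine le_trans ?_ key
  rw [hrank]
  refine mul_le_mul_of_nonneg_left ?_ (Nat.cast_nonneg _)
  have hb := one_add_mul_le_pow (a := -(δ1 * Λ)) (by linarith) (2 * j + 2)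
  have e : ((2 * j + 2 : ℕ) : ℝ) * -(δ1 * Λ) = -min δ 1 := by
    rw [hδΛ]; push_cast; rw [← hN]; field_simp
  rw [e] at hb
  have := min_le_left δ 1
  rw [sub_eq_add_neg 1 (δ1 * Λ)]
  linarith

end Pool.Agent.MP_4f0ed6_gt.U

end

section

set_option autoImplicit false
set_option linter.dupNamespace false

open MeasureTheory Set Metric
open scoped InnerProductSpace ENNReal

namespace Pool.Agent.MP_4f0ed6_gt.U

variable {n m : ℕ}

theorem TDEC_low {κ : ℝ} (hκ : 0 ≤ κ) {U T : Finset (Fin n)} (h : T ⊆ Uᶜ) :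
    Wt (κ / 2) U ≤ Wt κ U - (κ / 2) • cel T := by
  have h1 : Wt κ U - (κ / 2) • cel T - Wt (κ / 2) U = (κ / 2) • (cel Uᶜ - cel T) := by
    unfold Wt
    module
  rw [← sub_nonneg, h1]
  exact smul_nn' (by linarith) (sub_nonneg.2 (cel_mono h))

theorem TDEC_up {κ : ℝ} (hκ : 0 ≤ κ) (W : LI n) {T T' : Finset (Fin n)} (h : T ⊆ T') :
    W - (κ / 2) • cel T' ≤ W - (κ / 2) • cel T := by
  have h1 : W - (κ / 2) • cel T - (W - (κ / 2) • cel T') = (κ / 2) • (cel T' - cel T) := by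
    module
  rw [← sub_nonneg, h1]
  exact smul_nn' (by linarith) (sub_nonneg.2 (cel_mono h))

theorem TDEC_top {κ : ℝ} (hκ : 0 ≤ κ) (W : LI n) (T : Finset (Fin n)) :
    W - (κ / 2) • cel T ≤ W :=
  sub_le_self _ (smul_nn' (by linarith) (cel_nn T))

variable {H : Type} [NormedAddCommGroup H] [InnerProductSpace ℝ H] [CompleteSpace H]
  {P : Pb n m H} {k : Cst}

theorem TDEC_step (hA : P.Ax k) {κ : ℝ} (hκ : 0 ≤ κ) {W : LI n} (hW : Bd W κ)
    {T T' : Finset (Fin n)} (hT : T ⊆ T') (hc : P.Co (W - (κ / 2) • cel T')) (A : Set (Nd n m))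
    (hS : bd P.adj A ⊆ T' \ T) {x y : L2 n} (hx : 0 ≤ x) (hy : 0 ≤ y)
    (ox : On {c | ∀ a, P.adj (.inl c) a → a ∈ A} x)
    (oy : On {c | ∀ a, P.adj (.inl c) a → a ∉ A} y) :
    (1 + κ / (2 * k.Cf * √(1 + κ))) * ⟪x, P.G (W - (κ / 2) • cel T) y⟫_ℝ ≤
      ⟪x, P.G (W - (κ / 2) • cel T') y⟫_ℝ := by
  have hle := TDEC_up hκ W hT
  have hc0 := hc.mono hle
  have h1 := hc0.res_inner hA.sym hc x y
  have h2 : W - (κ / 2) • cel T' - (W - (κ / 2) • cel T) = (-(κ / 2)) • cel (T' \ T) := by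
    rw [← cel_sdiff hT]
    module
  have gx := hA.pos _ hc0 x hx
  have gy := hA.pos _ hc0 y hy
  have h3 := hA.flux κ _ hκ hc0 (hW.mono (TDEC_top hκ W T) le_rfl) A x y hx hy ox oy
  have h4 := hc.G_mono hA.pos hle y hy
  rw [h2, map_smul, ContinuousLinearMap.smul_apply, real_inner_smul_left] at h1
  generalize P.G (W - (κ / 2) • cel T) x = u at *
  generalize P.G (W - (κ / 2) • cel T) y = v at *
  generalize P.G (W - (κ / 2) • cel T') y = v' at *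
  have h5 : ⟪prS (T' \ T) u, v⟫_ℝ ≤ ⟪mul (cel (T' \ T)) u, v'⟫_ℝ :=
    inner_mono_right (prS_pp _ u gx) h4
  have h6 : ∑ c ∈ bd P.adj A, ⟪pr c u, v⟫_ℝ ≤ ⟪prS (T' \ T) u, v⟫_ℝ := by
    rw [prS_eq_sum, ContinuousLinearMap.sum_apply, sum_inner]
    exact Finset.sum_le_sum_of_subset_of_nonneg hS fun c _ _ => inner_nn (ct_pp c 3 u gx) gy
  have hs : 0 < k.Cf * √(1 + κ) := mul_pos hA.ok.h3 (Real.sqrt_pos.2 (by linarith))
  have h7 : κ / (2 * k.Cf * √(1 + κ)) * ⟪x, v⟫_ℝ ≤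
      κ / 2 * ∑ c ∈ bd P.adj A, ⟪pr c u, v⟫_ℝ := by
    rw [mul_assoc 2, ← div_div, div_mul_eq_mul_div, div_le_iff₀ hs, mul_assoc]
    exact mul_le_mul_of_nonneg_left (by linarith) (by linarith)
  have h8 := mul_le_mul_of_nonneg_left (h6.trans h5) (by linarith : 0 ≤ κ / 2)
  linarith

theorem stDEC  : StDEC := by
  intro k n m H _ _ _ P hA κ hκ hβ U ρ d c c' hU hco hd x hx
  refine le_of_inner fun z hz => ?_
  have hx' : 0 ≤ pr c z := ct_pp c 3 z hz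
  have hy' : 0 ≤ pr c' x := ct_pp c' 3 x hx
  have hsy : ∀ u, ⟪z, pr c u⟫_ℝ = ⟪pr c z, u⟫_ℝ := fun u => (mul_sy (ind c 3) z u).symm
  simp only [ContinuousLinearMap.smul_apply, ContinuousLinearMap.mul_apply, real_inner_smul_right,
    hsy]
  have hD : (1 : ℝ) ≤ 2 * k.Δ := by
    have : (1 : ℝ) ≤ k.Δ := by exact_mod_cast hA.ok.h1
    linarith
  let T : ℕ → Finset (Fin n) := fun j => bl P.adj (ρ + 2 * j) c \ U
  have hT : ∀ j, T j ⊆ Uᶜ := fun j a ha => Finset.mem_compl.2 (Finset.mem_sdiff.1 ha).2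
  have hc : ∀ j, P.Co (Wt κ U - (κ / 2) • cel (T j)) := fun j => hco.mono (TDEC_low hκ (hT j))
  have h0 : 0 ≤ ⟪pr c z, P.G (Wt κ U) (pr c' x)⟫_ℝ :=
    inner_nn hx' (hA.pos _ ((hc 0).mono (TDEC_top hκ _ _)) _ hy')
  have key : ∀ j, ρ + 2 * j < d ∨ j = 0 →
      (2 * k.Δ : ℝ) ^ (2 * j) * ⟪pr c z, P.G (Wt κ U) (pr c' x)⟫_ℝ ≤
        ⟪pr c z, P.G (Wt κ U - (κ / 2) • cel (T j)) (pr c' x)⟫_ℝ := by
    intro j
    induction j with
    | zero =>
      intro _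
      rw [mul_zero, pow_zero, one_mul]
      exact inner_mono_right hx' ((hc 0).G_mono hA.pos (TDEC_top hκ _ _) _ hy')
    | succ j ih =>
      intro hj
      have hj' : ρ + 2 * j + 1 + 1 < d := by omega
      have h1 := ih (Or.inl (by omega))
      have h2 := TDEC_step hA hκ (bd_Wt hκ U) (T := T j) (T' := T (j + 1))
        (Finset.sdiff_subset_sdiff (fun a ha => mem_bl.2 (hA.gr.near_mono (by omega) (mem_bl.1 ha)))
          (Finset.Subset.refl _)) (hc (j + 1))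
        {a | near P.adj (ρ + 2 * j + 1) (.inl c) a} (fun a ha => by
          obtain ⟨e1, e2⟩ := hA.gr.bd_ball ha
          refine Finset.mem_sdiff.2 ⟨Finset.mem_sdiff.2 ⟨mem_bl.2 e1, fun e3 => e2 ?_⟩,
            fun e3 => e2 (mem_bl.1 (Finset.mem_sdiff.1 e3).1)⟩
          exact hA.gr.near_mono (by omega) (mem_bl.1 (hU e3))) hx' hy'
        ((on_ct c 3 z).mono (by
          rintro _ rfl a ha
          exact hA.gr.near_mono (by omega) (near_one.2 ha)))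
        ((on_ct c' 3 x).mono (by
          rintro _ rfl a ha e
          exact hd _ hj' ⟨a, e, hA.gr.symm _ _ ha⟩))
      refine le_trans ?_ h2
      have h3 : 0 ≤ (2 * k.Δ : ℝ) ^ (2 * j) * ⟪pr c z, P.G (Wt κ U) (pr c' x)⟫_ℝ := by positivity
      rw [show 2 * (j + 1) = 2 + 2 * j by ring, pow_add, mul_assoc]
      exact mul_le_mul hβ h1 h3 ((sq_nonneg _).trans hβ)
  have h1 := (key ((d - ρ - 1) / 2) (by omega)).trans
    (inner_mono_right hx' (hco.G_mono hA.pos (TDEC_low hκ (hT _)) _ hy'))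
  have h2 : (2 * k.Δ : ℝ) ^ d ≤ (2 * k.Δ : ℝ) ^ (ρ + 2) * (2 * k.Δ : ℝ) ^ (2 * ((d - ρ - 1) / 2)) := by
    rw [← pow_add]
    exact pow_le_pow_right₀ hD (by omega)
  rw [inv_pow, ← div_eq_mul_inv, div_mul_eq_mul_div, le_div_iff₀ (by positivity), mul_comm]
  refine (mul_le_mul_of_nonneg_right h2 h0).trans ?_
  rw [mul_assoc]
  exact mul_le_mul_of_nonneg_left h1 (by positivity)

end Pool.Agent.MP_4f0ed6_gt.U

end

section

set_option autoImplicit false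
set_option linter.dupNamespace false

namespace Pool.Agent.MP_4f0ed6_gt.U

theorem TNum2_exp {x n : ℕ} (h : x ≤ 2 ^ n) : (x : ℝ) ≤ Real.exp n := by
  have h1 : (2 : ℝ) ≤ Real.exp 1 := by
    have := Real.add_one_le_exp (1 : ℝ)
    linarith
  calc (x : ℝ) ≤ (2 : ℝ) ^ n := by exact_mod_cast h
    _ ≤ Real.exp 1 ^ n := pow_le_pow_left₀ (by norm_num) h1 n
    _ = Real.exp n := Real.exp_one_pow n

theorem TNum2_two (n : ℕ) : n ≤ 2 ^ n := Nat.lt_two_pow_self.le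

theorem TNum2_tl {q b L N l : ℕ} (hq : q ≤ 2 ^ b) (hl : L + (b + 3) * L + (b + 3) + N ≤ l) :
    2 * (L * (6 * q) ^ L * (4 * q)) * N ≤ 2 ^ l := by
  have h1 : 8 * q ≤ 2 ^ (b + 3) := by
    rw [pow_add]
    omega
  have h2 : (6 * q) ^ L ≤ 2 ^ ((b + 3) * L) := by
    rw [pow_mul]
    exact Nat.pow_le_pow_left (by omega) L
  calc 2 * (L * (6 * q) ^ L * (4 * q)) * N = L * (6 * q) ^ L * (8 * q) * N := by ring
    _ ≤ 2 ^ L * 2 ^ ((b + 3) * L) * 2 ^ (b + 3) * 2 ^ N :=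
      Nat.mul_le_mul (Nat.mul_le_mul (Nat.mul_le_mul (TNum2_two L) h2) h1) (TNum2_two N)
    _ = 2 ^ (L + (b + 3) * L + (b + 3) + N) := by simp only [← pow_add]
    _ ≤ 2 ^ l := Nat.pow_le_pow_right (by norm_num) hl

theorem stNum2 : StNum2 := by
  intro k hk k0
  obtain ⟨D, hD⟩ : ∃ D, D = k.Δ := ⟨_, rfl⟩
  rw [← hD] at hk
  refine ⟨(k0 + 1 + 6001 * D + (2 * D + 1) * 3 : ℕ), Nat.cast_pos.2 (by omega), fun N hN => ?_⟩
  obtain ⟨u, hu⟩ : ∃ u, u = 2 ^ ((2 * D + 1) * N) := ⟨_, rfl⟩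
  obtain ⟨j, hj⟩ : ∃ j, j = D ^ (2 * N) * N := ⟨_, rfl⟩
  have e0 : u = (2 ^ D) ^ (2 * N) * 2 ^ N := by
    rw [hu, ← pow_mul, ← pow_add]
    congr 1
    ring
  have e1 : j ≤ u := by
    rw [hj, e0]
    exact Nat.mul_le_mul (Nat.pow_le_pow_left (TNum2_two D) _) (TNum2_two N)
  have e2 : (D + 1) * N ≤ u := by
    rw [e0]
    exact Nat.mul_le_mul (Nat.lt_two_pow_self.succ_le.trans
      (Nat.le_self_pow (by omega) _)) (TNum2_two N)
  have e3 : N ≤ u := le_trans (Nat.le_mul_of_pos_left _ (by omega)) e2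
  have e4 : u ≤ u * u := Nat.le_mul_of_pos_left _ (by omega)
  have e5 : u * u ≤ u * u * u := Nat.le_mul_of_pos_right _ (by omega)
  have e6 : 6 * j + 5 ≤ 11 * u := by omega
  have e7 : (D + 1) * (2 * (2 * N) + 2) + 3 ≤ 9 * u := by
    have : (D + 1) * (2 * (2 * N) + 2) ≤ (D + 1) * (6 * N) := Nat.mul_le_mul_left _ (by omega)
    have e : (D + 1) * (6 * N) = 6 * ((D + 1) * N) := by ring
    omega
  have N0 : (0 : ℝ) < N := Nat.cast_pos.2 (by omega)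
  refine ⟨j, 120 * (u * u), 3000 * (u * u * u), ?_, ?_, ?_, ?_, ?_⟩
  · have h1 : (6 * j + 5) * (120 * (u * u)) ≤ 11 * u * (120 * (u * u)) :=
      Nat.mul_le_mul_right _ e6
    have h2 : 11 * u * (120 * (u * u)) = 1320 * (u * u * u) := by ring
    omega
  · have h1 : (2 * (6 * j + 5) + 1) * (2 * (2 * N) + 3) ≤ 23 * u * (7 * u) :=
      Nat.mul_le_mul (by omega) (by omega)
    have h2 : 23 * u * (7 * u) = 161 * (u * u) := by ring
    omega
  · rw [← hD]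
    have d1 : (1 : ℝ) ≤ (D : ℝ) ^ (2 * N) := one_le_pow₀ (by exact_mod_cast hk)
    have p0 : 0 < ((D : ℝ) ^ (2 * N))⁻¹ := inv_pos.2 (by linarith)
    have p1 : ((D : ℝ) ^ (2 * N))⁻¹ ≤ 1 := inv_le_one_of_one_le₀ d1
    calc (1 - ((D : ℝ) ^ (2 * N))⁻¹) ^ (2 * j + 2) ≤ (1 - ((D : ℝ) ^ (2 * N))⁻¹) ^ j :=
          pow_le_pow_of_le_one (by linarith) (by linarith) (by omega)
      _ ≤ Real.exp (-((D : ℝ) ^ (2 * N))⁻¹) ^ j :=
          pow_le_pow_left₀ (by linarith) (Real.one_sub_le_exp_neg _) j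
      _ = (Real.exp N)⁻¹ := by
          rw [← Real.exp_nat_mul, ← Real.exp_neg, hj]
          congr 1
          push_cast
          field_simp
      _ ≤ 1 / N := by
          rw [one_div]
          have := Real.add_one_le_exp (N : ℝ)
          exact inv_anti₀ N0 (by linarith)
  · have hq : (2 * D) ^ (2 * (2 * N) + 2) ≤ 2 ^ ((D + 1) * (2 * (2 * N) + 2)) := by
      rw [pow_mul]
      refine Nat.pow_le_pow_left ?_ _
      have := TNum2_two D
      rw [pow_succ]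
      omega
    have h1 := TNum2_tl (L := 6 * j + 5) (N := N) (l := 120 * (u * u)) hq (by
      have h1 := Nat.mul_le_mul e7 e6
      have h2 : 9 * u * (11 * u) = 99 * (u * u) := by ring
      omega)
    have h2 : ((2 * ((6 * j + 5) * (6 * (2 * D) ^ (2 * (2 * N) + 2)) ^ (6 * j + 5) *
        (4 * (2 * D) ^ (2 * (2 * N) + 2))) * N : ℕ) : ℝ) ≤ (2 ^ (120 * (u * u)) : ℕ) :=
      Nat.cast_le.2 h1
    rw [Cst.tl, ← hD, le_div_iff₀ N0, one_div, inv_pow]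
    push_cast at h2 ⊢
    have h3 : (0 : ℝ) < 2 ^ (120 * (u * u)) := by positivity
    rw [← div_le_one h3] at h2
    refine le_trans (le_of_eq ?_) h2
    rw [div_eq_mul_inv]
    ring
  · rw [← hD]
    obtain ⟨R, hR⟩ : ∃ R, R = 2 * (3000 * (u * u * u)) + 1 := ⟨_, rfl⟩
    rw [← hR]
    have h1 : k0 * (D ^ R + 1) ≤ 2 ^ (k0 + (D * R + 1)) := by
      rw [pow_add, pow_succ, pow_mul]
      have a1 := Nat.pow_le_pow_left (TNum2_two D) R
      have a2 : 0 < D ^ R := by positivity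
      exact Nat.mul_le_mul (TNum2_two k0) (by omega)
    have h2 : k0 + (D * R + 1) ≤ 2 ^ ((k0 + 1 + 6001 * D + (2 * D + 1) * 3) * N) := by
      have a1 : u * u * u = 2 ^ ((2 * D + 1) * 3 * N) := by
        rw [hu, ← pow_add, ← pow_add]
        congr 1
        ring
      have a2 : k0 + 1 + 6001 * D ≤ 2 ^ ((k0 + 1 + 6001 * D) * N) :=
        (TNum2_two _).trans (Nat.pow_le_pow_right (by norm_num)
          (Nat.le_mul_of_pos_right _ (by omega)))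
      have a3 : D * R ≤ D * (6001 * (u * u * u)) := Nat.mul_le_mul_left _ (by omega)
      have a4 : k0 + 1 ≤ (k0 + 1) * (u * u * u) := Nat.le_mul_of_pos_right _ (by omega)
      have a5 : (k0 + 1 + 6001 * D) * (u * u * u) =
          (k0 + 1) * (u * u * u) + D * (6001 * (u * u * u)) := by ring
      rw [add_mul _ ((2 * D + 1) * 3), pow_add, ← a1]
      exact le_trans (by omega) (Nat.mul_le_mul_right _ a2)
    have h3 := TNum2_exp h1
    have h4 := TNum2_exp h2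
    rw [Nat.cast_mul] at h4
    refine le_trans ?_ (h3.trans (Real.exp_le_exp.2 h4))
    push_cast
    exact le_rfl

end Pool.Agent.MP_4f0ed6_gt.U

end
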