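import Pool.Agent.Mg.F4f0ed6a.G84f80a

section

set_option autoImplicit false
set_option linter.dupNamespace false

open MeasureTheory Set Metric Filter Topology
open scoped ContDiff ENNReal

namespace Pool.Agent.MP_4f0ed6_gt.U

theorem BL_cs {f g : ℂ → ℝ} (hf : MemLp f 2 mu) (hg : MemLp g 2 mu) :
    |∫ y, f y * g y ∂mu| ≤ (eLpNorm f 2 mu).toReal * (eLpNorm g 2 mu).toReal := by
  have h := abs_real_inner_le_norm (hg.toLp g) (hf.toLp f)
  rw [L2.inner_def, Lp.norm_toLp, Lp.norm_toLp, mul_comm] at h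
  refine le_trans (le_of_eq ?_) h
  congr 1
  refine integral_congr_ae ?_
  filter_upwards [hf.coeFn_toLp, hg.coeFn_toLp] with y h1 h2
  rw [h1, h2]
  simp

theorem BL_dom {f g : ℂ → ℝ} {c : ℝ} (hc : 0 ≤ c) (hf : MemLp f 2 mu)
    (hg : AEStronglyMeasurable g mu) (h : ∀ᵐ y ∂mu, |g y| ≤ c * |f y|) :
    MemLp g 2 mu ∧ (eLpNorm g 2 mu).toReal ≤ c * (eLpNorm f 2 mu).toReal := by
  refine ⟨hf.of_le_mul hg h, ?_⟩
  have h1 := eLpNorm_le_mul_eLpNorm_of_ae_le_mul (μ := mu) (f := g) (g := f) (c := c) h 2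
  have h2 := ENNReal.toReal_mono (ENNReal.mul_ne_top ENNReal.ofReal_ne_top hf.2.ne) h1
  rwa [ENNReal.toReal_mul, ENNReal.toReal_ofReal hc] at h2

theorem BL_real {a : ℕ → ℝ≥0∞} (h : Tendsto a atTop (𝓝 0)) :
    Tendsto (fun k => (a k).toReal) atTop (𝓝 0) :=
  (ENNReal.tendsto_toReal ENNReal.zero_ne_top).comp h

theorem BL_lim {F : ℕ → ℂ → ℝ} {f h : ℂ → ℝ} (hh : MemLp h 2 mu) (hF : ∀ k, MemLp (F k) 2 mu)
    (hf : MemLp f 2 mu) (hc : Tendsto (fun k => (eLpNorm (F k - f) 2 mu).toReal) atTop (𝓝 0)) :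
    Tendsto (fun k => ∫ y, h y * F k y ∂mu) atTop (𝓝 (∫ y, h y * f y ∂mu)) := by
  rw [tendsto_iff_norm_sub_tendsto_zero]
  have h0 := hc.const_mul (eLpNorm h 2 mu).toReal
  rw [mul_zero] at h0
  refine squeeze_zero (fun _ => norm_nonneg _) (fun k => ?_) h0
  refine le_trans (le_of_eq ?_) (BL_cs hh ((hF k).sub hf))
  have i1 : Integrable (fun y => h y * F k y) mu := hh.integrable_mul (hF k)
  have i2 : Integrable (fun y => h y * f y) mu := hh.integrable_mul hf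
  rw [Real.norm_eq_abs, ← integral_sub i1 i2]
  congr 2
  ext y
  simp [mul_sub]

theorem BL_meas {f : ℂ → ℝ} (hf : AEStronglyMeasurable f mu) (h0 : ∀ᵐ y ∂mu, 0 ≤ f y)
    {Φ : ℝ → ℝ} (hΦ : ContinuousOn Φ (Ici 0)) : AEStronglyMeasurable (fun y => Φ (f y)) mu := by
  have hc : Continuous fun s : ℝ => Φ (max s 0) :=
    hΦ.comp_continuous (continuous_id.max continuous_const) fun s => le_max_right s 0
  refine (hc.comp_aestronglyMeasurable hf).congr ?_
  filter_upwards [h0] with y hy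
  rw [max_eq_left hy]

theorem BL_w {w p q : ℂ → ℝ} {c : ℝ} (hc : 0 ≤ c) (hw : AEStronglyMeasurable w mu)
    (h : ∀ y, |w y| ≤ c) (hp : MemLp p 2 mu) (hq : MemLp q 2 mu) :
    Integrable (fun y => w y * p y * q y) mu ∧
    |∫ y, w y * p y * q y ∂mu| ≤ c * (eLpNorm p 2 mu).toReal * (eLpNorm q 2 mu).toReal := by
  obtain ⟨h1, h2⟩ := BL_dom (g := fun y => w y * p y) hc hp (hw.mul hp.1)
    (Eventually.of_forall fun y => by
      rw [abs_mul]
      exact mul_le_mul_of_nonneg_right (h y) (abs_nonneg _))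
  exact ⟨h1.integrable_mul hq,
    (BL_cs h1 hq).trans (mul_le_mul_of_nonneg_right h2 ENNReal.toReal_nonneg)⟩

namespace Apx
variable {U : ℕ → ℂ → ℝ} {g gx gy h : ℂ → ℝ}
theorem nn' (H : Apx U g gx gy) : ∀ᵐ y ∂mu, 0 ≤ g y := by
  filter_upwards [H.ae] with y hy
  exact ge_of_tendsto' hy fun k => H.nn k y
theorem BL_m0 (H : Apx U g gx gy) (k : ℕ) : MemLp (U k) 2 mu := memLp_mu (H.sm k).continuous
theorem BL_m1 (H : Apx U g gx gy) (k : ℕ) : MemLp (dx (U k)) 2 mu :=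
  memLp_mu (contDiff_dx (H.sm k)).continuous
theorem BL_m2 (H : Apx U g gx gy) (k : ℕ) : MemLp (dy (U k)) 2 mu :=
  memLp_mu (contDiff_dy (H.sm k)).continuous
theorem lim0 (H : Apx U g gx gy) (hh : MemLp h 2 mu) :
    Tendsto (fun k => ∫ y, h y * U k y ∂mu) atTop (𝓝 (∫ y, h y * g y ∂mu)) :=
  BL_lim hh H.BL_m0 H.m0 (BL_real H.c0)
theorem lim1 (H : Apx U g gx gy) (hh : MemLp h 2 mu) :
    Tendsto (fun k => ∫ y, h y * dx (U k) y ∂mu) atTop (𝓝 (∫ y, h y * gx y ∂mu)) :=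
  BL_lim hh H.BL_m1 H.m1 (BL_real H.c1)
theorem lim2 (H : Apx U g gx gy) (hh : MemLp h 2 mu) :
    Tendsto (fun k => ∫ y, h y * dy (U k) y ∂mu) atTop (𝓝 (∫ y, h y * gy y ∂mu)) :=
  BL_lim hh H.BL_m2 H.m2 (BL_real H.c2)
theorem lim_val (H : Apx U g gx gy) (hh : MemLp h 2 mu) {Φ : ℝ → ℝ} {L : ℝ}
    (hΦ : ∀ s t, 0 ≤ s → 0 ≤ t → |Φ s - Φ t| ≤ L * |s - t|) :
    Integrable (fun y => h y * Φ (g y)) mu ∧
    Tendsto (fun k => ∫ y, h y * Φ (U k y) ∂mu) atTop (𝓝 (∫ y, h y * Φ (g y) ∂mu)) := by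
  have hL : 0 ≤ L := by
    have h1 := (abs_nonneg _).trans (hΦ 1 0 zero_le_one le_rfl)
    simpa using h1
  have hc : ContinuousOn Φ (Ici 0) := by
    have : LipschitzOnWith ⟨L, hL⟩ Φ (Ici 0) :=
      LipschitzOnWith.of_dist_le_mul fun s hs t ht => hΦ s t hs ht
    exact this.continuousOn
  have hm : ∀ f : ℂ → ℝ, MemLp f 2 mu → (∀ᵐ y ∂mu, 0 ≤ f y) → MemLp (fun y => Φ (f y)) 2 mu := by
    intro f hf h0
    have h1 := (BL_dom (g := fun y => Φ (f y) - Φ 0) hL hf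
      ((BL_meas hf.1 h0 hc).sub aestronglyMeasurable_const) (by
        filter_upwards [h0] with y hy
        simpa using hΦ (f y) 0 hy le_rfl)).1
    have h2 := h1.add (memLp_const (Φ 0))
    refine (memLp_congr_ae (Eventually.of_forall fun y => ?_)).1 h2
    simp
  have hg := hm g H.m0 H.nn'
  have hU := fun k => hm (U k) (H.BL_m0 k) (Eventually.of_forall (H.nn k))
  refine ⟨hh.integrable_mul hg, BL_lim hh hU hg ?_⟩
  have h0 := (BL_real H.c0).const_mul L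
  rw [mul_zero] at h0
  refine squeeze_zero (fun _ => ENNReal.toReal_nonneg) (fun k => ?_) h0
  refine (BL_dom hL ((H.BL_m0 k).sub H.m0) ((hU k).sub hg).1 ?_).2
  filter_upwards [H.nn'] with y hy
  exact hΦ _ _ (H.nn k y) hy
theorem lim_bdd (H : Apx U g gx gy) (hh : Integrable h mu) {Φ : ℝ → ℝ}
    (hΦ : ContinuousOn Φ (Ici 0)) {M' : ℝ} (hM' : ∀ s, 0 ≤ s → |Φ s| ≤ M') :
    Integrable (fun y => h y * Φ (g y)) mu ∧
    Tendsto (fun k => ∫ y, h y * Φ (U k y) ∂mu) atTop (𝓝 (∫ y, h y * Φ (g y) ∂mu)) := by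
  have hb : Integrable (fun y => |h y| * M') mu := hh.abs.mul_const M'
  constructor
  · refine hb.mono' (hh.1.mul (BL_meas H.m0.1 H.nn' hΦ)) ?_
    filter_upwards [H.nn'] with y hy
    rw [Real.norm_eq_abs, abs_mul]
    exact mul_le_mul_of_nonneg_left (hM' _ hy) (abs_nonneg _)
  · refine tendsto_integral_of_dominated_convergence _
      (fun k => hh.1.mul (BL_meas (H.BL_m0 k).1 (Eventually.of_forall (H.nn k)) hΦ)) hb
      (fun k => Eventually.of_forall fun y => ?_) ?_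
    · rw [Real.norm_eq_abs, abs_mul]
      exact mul_le_mul_of_nonneg_left (hM' _ (H.nn k y)) (abs_nonneg _)
    · filter_upwards [H.nn', H.ae] with y hy hy'
      refine Tendsto.const_mul _ ((hΦ _ hy).tendsto.comp ?_)
      exact tendsto_nhdsWithin_iff.2 ⟨hy', Eventually.of_forall fun k => H.nn k y⟩
theorem BL_two (H : Apx U g gx gy) (hh : AEStronglyMeasurable h mu) {M : ℝ}
    (hM : ∀ y, |h y| ≤ M) {Φ : ℝ → ℝ} (hΦ : ContinuousOn Φ (Ici 0)) {M' : ℝ}
    (hM' : ∀ s, 0 ≤ s → |Φ s| ≤ M') {A B : ℕ → ℂ → ℝ} {a b : ℂ → ℝ} (hA : ∀ k, MemLp (A k) 2 mu)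
    (hB : ∀ k, MemLp (B k) 2 mu) (ha : MemLp a 2 mu) (hb : MemLp b 2 mu)
    (cA : Tendsto (fun k => (eLpNorm (A k - a) 2 mu).toReal) atTop (𝓝 0))
    (cB : Tendsto (fun k => (eLpNorm (B k - b) 2 mu).toReal) atTop (𝓝 0)) :
    Integrable (fun y => h y * a y * b y * Φ (g y)) mu ∧
    (∀ k, Integrable (fun y => h y * Φ (U k y) * A k y * B k y) mu) ∧
    Tendsto (fun k => ∫ y, h y * Φ (U k y) * A k y * B k y ∂mu) atTop
      (𝓝 (∫ y, h y * a y * b y * Φ (g y) ∂mu)) := by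
  have hM0 : 0 ≤ M := (abs_nonneg _).trans (hM 0)
  have hM0' : 0 ≤ M' := (abs_nonneg _).trans (hM' 0 le_rfl)
  have hc : 0 ≤ M * M' := mul_nonneg hM0 hM0'
  have hw : ∀ k, AEStronglyMeasurable (fun y => h y * Φ (U k y)) mu := fun k =>
    hh.mul (BL_meas (H.BL_m0 k).1 (Eventually.of_forall (H.nn k)) hΦ)
  have hw' : ∀ k y, |h y * Φ (U k y)| ≤ M * M' := fun k y => by
    rw [abs_mul]
    exact mul_le_mul (hM y) (hM' _ (H.nn k y)) (abs_nonneg _) hM0
  obtain ⟨i1, l1⟩ := H.lim_bdd (BL_w hM0 hh hM ha hb).1 hΦ hM'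
  refine ⟨i1, fun k => (BL_w hc (hw k) (hw' k) (hA k) (hB k)).1, ?_⟩
  have sq : ∀ (p q : ℕ → ℂ → ℝ), (∀ k, MemLp (p k) 2 mu) → (∀ k, MemLp (q k) 2 mu) →
      Tendsto (fun k => M * M' * (eLpNorm (p k) 2 mu).toReal * (eLpNorm (q k) 2 mu).toReal) atTop
        (𝓝 0) →
      Tendsto (fun k => ∫ y, h y * Φ (U k y) * p k y * q k y ∂mu) atTop (𝓝 0) := by
    intro p q hp hq hl
    exact squeeze_zero_norm (fun k => (BL_w hc (hw k) (hw' k) (hp k) (hq k)).2) hl
  have l2 := sq (fun k => A k - a) (fun k => B k - b) (fun k => (hA k).sub ha)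
    (fun k => (hB k).sub hb) (by simpa using (cA.const_mul (M * M')).mul cB)
  have l3 := sq (fun k => A k - a) (fun _ => b) (fun k => (hA k).sub ha) (fun _ => hb)
    (by simpa using (cA.const_mul (M * M')).mul_const (eLpNorm b 2 mu).toReal)
  have l4 := sq (fun _ => a) (fun k => B k - b) (fun _ => ha) (fun k => (hB k).sub hb)
    (by simpa using cB.const_mul (M * M' * (eLpNorm a 2 mu).toReal))
  have l5 := ((l1.add l2).add l3).add l4
  rw [add_zero, add_zero, add_zero] at l5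
  refine l5.congr fun k => ?_
  have j1 : Integrable (fun y => h y * a y * b y * Φ (U k y)) mu :=
    (BL_w hc (hw k) (hw' k) ha hb).1.congr (Eventually.of_forall fun y => by ring)
  have j2 := (BL_w hc (hw k) (hw' k) ((hA k).sub ha) ((hB k).sub hb)).1
  have j3 := (BL_w hc (hw k) (hw' k) ((hA k).sub ha) hb).1
  have j4 := (BL_w hc (hw k) (hw' k) ha ((hB k).sub hb)).1
  rw [← integral_add' j1 j2, ← integral_add' (j1.add j2) j3,
    ← integral_add' ((j1.add j2).add j3) j4]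
  refine integral_congr_ae (Eventually.of_forall fun y => ?_)
  simp only [Pi.add_apply, Pi.sub_apply]
  ring
theorem lim_grad (H : Apx U g gx gy) (hh : AEStronglyMeasurable h mu) {M : ℝ}
    (hM : ∀ y, |h y| ≤ M) {Φ : ℝ → ℝ} (hΦ : ContinuousOn Φ (Ici 0)) {M' : ℝ}
    (hM' : ∀ s, 0 ≤ s → |Φ s| ≤ M') :
    Integrable (fun y => h y * ((gx y ^ 2 + gy y ^ 2) * Φ (g y))) mu ∧
    Tendsto (fun k => ∫ y, h y * ((dx (U k) y ^ 2 + dy (U k) y ^ 2) * Φ (U k y)) ∂mu) atTop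
      (𝓝 (∫ y, h y * ((gx y ^ 2 + gy y ^ 2) * Φ (g y)) ∂mu)) := by
  obtain ⟨a1, a2, a3⟩ := H.BL_two hh hM hΦ hM' H.BL_m1 H.BL_m1 H.m1 H.m1 (BL_real H.c1)
    (BL_real H.c1)
  obtain ⟨b1, b2, b3⟩ := H.BL_two hh hM hΦ hM' H.BL_m2 H.BL_m2 H.m2 H.m2 (BL_real H.c2)
    (BL_real H.c2)
  refine ⟨(a1.add b1).congr (Eventually.of_forall fun y => ?_), ?_⟩
  · simp only [Pi.add_apply]
    ring
  · have l := a3.add b3
    rw [← integral_add a1 b1] at l
    convert l using 2 with k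
    · rw [← integral_add (a2 k) (b2 k)]
      exact integral_congr_ae (Eventually.of_forall fun y => by ring)
    · exact integral_congr_ae (Eventually.of_forall fun y => by ring)
theorem lim_mix (H : Apx U g gx gy) (hh : AEStronglyMeasurable h mu) {M : ℝ}
    (hM : ∀ y, |h y| ≤ M) {Φ : ℝ → ℝ} (hΦ : ContinuousOn Φ (Ici 0)) {M' : ℝ}
    (hM' : ∀ s, 0 ≤ s → |Φ s| ≤ M') :
    Tendsto (fun k => ∫ y, h y * ((gx y * dx (U k) y + gy y * dy (U k) y) * Φ (U k y)) ∂mu) atTop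
      (𝓝 (∫ y, h y * ((gx y ^ 2 + gy y ^ 2) * Φ (g y)) ∂mu)) := by
  obtain ⟨a1, a2, a3⟩ := H.BL_two hh hM hΦ hM' (fun _ => H.m1) H.BL_m1 H.m1 H.m1 (by simp)
    (BL_real H.c1)
  obtain ⟨b1, b2, b3⟩ := H.BL_two hh hM hΦ hM' (fun _ => H.m2) H.BL_m2 H.m2 H.m2 (by simp)
    (BL_real H.c2)
  have l := a3.add b3
  rw [← integral_add a1 b1] at l
  convert l using 2 with k
  · rw [← integral_add (a2 k) (b2 k)]
    exact integral_congr_ae (Eventually.of_forall fun y => by ring)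
  · exact integral_congr_ae (Eventually.of_forall fun y => by ring)
end Apx

theorem Sup.mono {K K' : ℝ} {g gx gy : ℂ → ℝ} (h : Sup K g gx gy) (hK : K ≤ K') :
    Sup K' g gx gy := by
  refine ⟨h.apx, fun η h1 h2 h3 => (h.sup η h1 h2 h3).trans ?_⟩
  obtain ⟨U, H⟩ := h.apx
  have i1 := H.m1.integrable_mul (memLp_mu (p := 2) (contDiff_dx h1).continuous)
  have i2 := H.m2.integrable_mul (memLp_mu (p := 2) (contDiff_dy h1).continuous)
  have i3 := H.m0.integrable_mul (memLp_mu (p := 2) h1.continuous)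
  refine integral_mono_ae ((i1.add i2).add (i3.const_mul K)) ((i1.add i2).add (i3.const_mul K')) ?_
  filter_upwards [H.nn'] with y hy
  exact add_le_add le_rfl (mul_le_mul_of_nonneg_right hK (mul_nonneg hy (h3 y)))

end Pool.Agent.MP_4f0ed6_gt.U

end

section

set_option autoImplicit false
set_option linter.dupNamespace false

open MeasureTheory Set Metric Filter Topology
open scoped ContDiff ENNReal

namespace Pool.Agent.MP_4f0ed6_gt.U

def StCac : Prop := ∀ (K : ℝ) (g gx gy : ℂ → ℝ), 0 ≤ K → Sup K g gx gy → ∀ β ε : ℝ, 0 < β →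
  β ≤ 1 → 0 < ε → ∀ ζ : ℂ → ℝ, ContDiff ℝ ∞ ζ → tsupport ζ ⊆ ball 0 16 →
  β / 2 * ∫ y, ζ y ^ 2 * ((gx y ^ 2 + gy y ^ 2) * (g y + ε) ^ (-1 - β)) ∂mu ≤
    ∫ y, (2 / β * (dx ζ y ^ 2 + dy ζ y ^ 2) + K * ζ y ^ 2) * (g y + ε) ^ (1 - β) ∂mu

def StCacL : Prop := ∃ C : ℝ, 0 < C ∧ ∀ (K : ℝ) (g gx gy : ℂ → ℝ), 0 ≤ K → Sup K g gx gy →
  ∀ ε : ℝ, 0 < ε → ∫ y in ball 0 13, (gx y ^ 2 + gy y ^ 2) / (g y + ε) ^ 2 ≤ C * (1 + K)

def StCacH : Prop := ∃ C : ℝ, 0 < C ∧ ∀ (K : ℝ) (g gx gy : ℂ → ℝ), 0 ≤ K → Sup K g gx gy →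
  ∀ ε : ℝ, 0 < ε → ∫ y in ball 0 11, (gx y ^ 2 + gy y ^ 2) * (g y + ε) ^ (-(3 / 2) : ℝ) ≤
    C * (1 + K) * √(∫ y in ball 0 12, (g y + ε))

/-- the Sobolev inequality for the fourth root of a smooth function -/
def StSob : Prop := ∃ C : ℝ, 0 < C ∧ ∀ (u : ℂ → ℝ) (ε : ℝ), ContDiff ℝ ∞ u → (∀ y, 0 ≤ u y) →
  0 < ε → ∫ y in ball 0 10, u y ^ 4 ≤ C * (√(∫ y in ball 0 11, (u y + ε)) +
    ∫ y in ball 0 11, (dx u y ^ 2 + dy u y ^ 2) * (u y + ε) ^ (-(3 / 2) : ℝ)) ^ 8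

def StL4 : Prop := ∀ K : ℝ, 0 ≤ K → ∃ C : ℝ, 0 < C ∧ ∀ g gx gy : ℂ → ℝ, Sup K g gx gy →
  IntegrableOn (fun y => g y ^ 4) (ball 0 10) ∧
    ∫ y in ball 0 10, g y ^ 4 ≤ C * (∫ y in ball 0 12, g y) ^ 4

def StBar : Prop := ∀ K : ℝ, 0 ≤ K → ∃ (η : ℂ → ℝ) (c C : ℝ), ContDiff ℝ ∞ η ∧
  tsupport η ⊆ closedBall 0 13 ∧ (∀ y, 0 ≤ η y) ∧ 0 < c ∧ 0 < C ∧
  (∀ y, K * η y - lp η y ≤ C) ∧ (∀ y, 1 ≤ ‖y‖ → K * η y - lp η y ≤ 0) ∧
  ∀ y, 1 ≤ ‖y‖ → ‖y‖ ≤ 12 → K * η y - lp η y ≤ -c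

def StDbl : Prop := ∀ K : ℝ, 0 ≤ K → ∃ C : ℝ, 0 < C ∧ ∀ g gx gy : ℂ → ℝ, Sup K g gx gy →
  ∫ y in ball 0 12, g y ≤ C * ∫ y in ball 0 1, g y

def StPoin : Prop := ∃ C : ℝ, 0 < C ∧ ∀ (u : ℂ → ℝ) (w : ℂ) (ρ : ℝ), ContDiff ℝ ∞ u → 0 < ρ →
  ∫ x in ball w ρ, ∫ y in ball w ρ, (u x - u y) ^ 2 ≤
    C * ρ ^ 4 * ∫ y in ball w ρ, (dx u y ^ 2 + dy u y ^ 2)

def StPL : Prop := ∃ C : ℝ, 0 < C ∧ ∀ (K : ℝ) (g gx gy : ℂ → ℝ), 0 ≤ K → Sup K g gx gy →
  ∀ a b : ℝ, 0 < a → 2 * a ≤ b →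
  volume.real {y ∈ ball (0 : ℂ) 1 | g y ≤ a} * volume.real {y ∈ ball (0 : ℂ) 1 | b ≤ g y} *
    Real.log (b / (2 * a)) ^ 2 ≤ C * (1 + K)

def StLow : Prop := ∀ K : ℝ, 0 ≤ K → ∃ c : ℝ, 0 < c ∧ ∀ g gx gy : ℂ → ℝ, Sup K g gx gy →
  volume.real {y ∈ ball (0 : ℂ) 1 | g y < c * ∫ y in ball 0 12, g y} ≤ Real.pi / 4

def StRev : Prop := ∀ K : ℝ, 0 ≤ K → ∃ C : ℝ, 0 < C ∧ ∀ a ax ay b bx bz : ℂ → ℝ,
  Sup K a ax ay → Sup K b bx bz →
  (∫ y in ball 0 12, a y) * (∫ y in ball 0 12, b y) ≤ C * ∫ y in ball 0 1, a y * b y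

def StRev2 : Prop := ∀ K : ℝ, 0 ≤ K → ∃ C : ℝ, 0 < C ∧ ∀ a ax ay b bx bz : ℂ → ℝ,
  Sup K a ax ay → Sup K b bx bz →
  √(∫ y in ball 0 10, a y ^ 2) * √(∫ y in ball 0 10, b y ^ 2) ≤ C * ∫ y in ball 0 1, a y * b y

def StFl1 : Prop := ∃ C : ℝ, 0 < C ∧ ∀ a ax ay b bx bz : ℂ → ℝ, Sup 1 a ax ay → Sup 1 b bx bz →
  ∫ y in ball 0 1, b y * √(ax y ^ 2 + ay y ^ 2) ≤ C * ∫ y in ball 0 1, a y * b y

def StScale : Prop := ∀ (K K' : ℝ) (g gx gy : ℂ → ℝ) (w : ℂ) (ρ : ℝ), Sup K g gx gy → 0 < ρ →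
  ‖w‖ + 16 * ρ ≤ 16 → K * ρ ^ 2 ≤ K' → Sup K' (fun y => g (w + ρ * y))
    (fun y => ρ * gx (w + ρ * y)) (fun y => ρ * gy (w + ρ * y))

def StFl2 : Prop := ∃ C : ℝ, 0 < C ∧ ∀ (K : ℝ) (a ax ay b bx bz : ℂ → ℝ), 0 ≤ K →
  Sup K a ax ay → Sup K b bx bz →
  ∫ y in ball 0 2, b y * √(ax y ^ 2 + ay y ^ 2) ≤ C * √(1 + K) * ∫ y in ball 0 3, a y * b y

end Pool.Agent.MP_4f0ed6_gt.U

end

section

set_option autoImplicit false
set_option linter.dupNamespace false

open MeasureTheory Set Metric Filter Topology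
open scoped ContDiff ENNReal

namespace Pool.Agent.MP_4f0ed6_gt.U

theorem TCacH_half {g : ℂ → ℝ} {μ : Measure ℂ} [IsFiniteMeasure μ] (hg : MemLp g 2 μ)
    (h0 : ∀ᵐ y ∂μ, 0 ≤ g y) {ε : ℝ} (hε : 0 < ε) :
    Integrable (fun y => (g y + ε) ^ (1 / 2 : ℝ)) μ ∧
      ∫ y, (g y + ε) ^ (1 / 2 : ℝ) ∂μ ≤ √(μ.real univ) * √(∫ y, (g y + ε) ∂μ) := by
  have hsq : ∀ᵐ y ∂μ, ((g y + ε) ^ (1 / 2 : ℝ)) ^ 2 = g y + ε := by
    filter_upwards [h0] with y hy
    rw [← Real.sqrt_eq_rpow, Real.sq_sqrt (by linarith)]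
  have hm : AEStronglyMeasurable (fun y => (g y + ε) ^ (1 / 2 : ℝ)) μ :=
    ((hg.1.aemeasurable.add_const ε).pow_const _).aestronglyMeasurable
  have hi : Integrable (fun y => g y + ε) μ :=
    (hg.integrable (by norm_num)).add (integrable_const ε)
  have hL : MemLp (fun y => (g y + ε) ^ (1 / 2 : ℝ)) 2 μ :=
    (memLp_two_iff_integrable_sq hm).2 (hi.congr (hsq.mono fun y hy => hy.symm))
  refine ⟨hL.integrable (by norm_num), ?_⟩
  have := integral_cs (memLp_const (1 : ℝ)) hL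
  simp only [one_mul, one_pow, integral_const, smul_eq_mul, mul_one] at this
  rw [integral_congr_ae hsq] at this
  exact (le_abs_self _).trans this

theorem stCacH (hCac : StCac) : StCacH := by
  obtain ⟨ζ, hζ, z0, z1, z11, zs, M, hM⟩ := exists_cut (a := 11) (b := 12) (by norm_num) (by norm_num)
  have hM0 : 0 ≤ M := le_trans (by positivity) (hM 0)
  have s12 : ball (0 : ℂ) 12 ⊆ ball 0 16 := ball_subset_ball (by norm_num)
  have s11 : ball (0 : ℂ) 11 ⊆ ball 0 16 := ball_subset_ball (by norm_num)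
  set V : ℝ := √((mu.restrict (ball (0 : ℂ) 12)).real univ) with hV
  have hV0 : 0 ≤ V := Real.sqrt_nonneg _
  refine ⟨4 * (4 * M + 1) * (V + 1), by positivity, fun K g gx gy hK hS ε hε => ?_⟩
  obtain ⟨u, hu⟩ := hS.apx
  have key := hCac K g gx gy hK hS (1 / 2) ε (by norm_num) (by norm_num) hε ζ hζ (zs.trans s12)
  have e1 : (-1 - 1 / 2 : ℝ) = -(3 / 2) := by norm_num
  have e2 : (1 - 1 / 2 : ℝ) = 1 / 2 := by norm_num
  have e3 : (2 / (1 / 2) : ℝ) = 4 := by norm_num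
  rw [e1, e2, e3] at key
  have hcont : ContinuousOn (fun s : ℝ => (s + ε) ^ (-(3 / 2) : ℝ)) (Ici 0) := by
    refine ContinuousOn.rpow_const (by fun_prop) fun s hs => Or.inl ?_
    have : (0 : ℝ) ≤ s := hs
    positivity
  have hbd : ∀ s : ℝ, 0 ≤ s → |(s + ε) ^ (-(3 / 2) : ℝ)| ≤ ε ^ (-(3 / 2) : ℝ) := by
    intro s hs
    rw [abs_of_nonneg (Real.rpow_nonneg (by linarith) _)]
    exact Real.rpow_le_rpow_of_nonpos hε (by linarith) (by norm_num)
  have hzb : ∀ y, |ζ y ^ 2| ≤ 1 := by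
    intro y
    rw [abs_of_nonneg (sq_nonneg _)]
    nlinarith [z0 y, z1 y]
  have hint := (hu.lim_grad (h := fun y => ζ y ^ 2)
    (hζ.continuous.pow 2).aestronglyMeasurable hzb hcont hbd).1
  have hL : ∫ y in ball 0 11, (gx y ^ 2 + gy y ^ 2) * (g y + ε) ^ (-(3 / 2) : ℝ) ≤
      ∫ y, ζ y ^ 2 * ((gx y ^ 2 + gy y ^ 2) * (g y + ε) ^ (-(3 / 2) : ℝ)) ∂mu := by
    rw [← mu_restrict measurableSet_ball s11]
    refine le_trans (le_of_eq ?_) (setIntegral_le_integral (s := ball 0 11) hint ?_)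
    · refine setIntegral_congr_fun measurableSet_ball fun y hy => ?_
      have : ζ y = 1 := z11 y (le_of_lt (by simpa using hy))
      simp only [this, one_pow, one_mul]
    · filter_upwards [hu.nn'] with y hy
      have : 0 ≤ (g y + ε) ^ (-(3 / 2) : ℝ) := Real.rpow_nonneg (by linarith) _
      show 0 ≤ ζ y ^ 2 * ((gx y ^ 2 + gy y ^ 2) * (g y + ε) ^ (-(3 / 2) : ℝ))
      positivity
  obtain ⟨hi, hcs⟩ := TCacH_half (μ := mu.restrict (ball (0 : ℂ) 12)) (hu.m0.restrict _)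
    (ae_restrict_of_ae hu.nn') hε
  have hR : ∫ y, (4 * (dx ζ y ^ 2 + dy ζ y ^ 2) + K * ζ y ^ 2) * (g y + ε) ^ (1 / 2 : ℝ) ∂mu ≤
      (4 * M + K) * ∫ y in ball 0 12, (g y + ε) ^ (1 / 2 : ℝ) ∂mu := by
    rw [← setIntegral_eq_integral_of_forall_compl_eq_zero (s := ball 0 12), ← integral_const_mul]
    · refine integral_mono_of_nonneg ?_ (hi.const_mul _) ?_
      · filter_upwards [ae_restrict_of_ae hu.nn'] with y hy
        have : 0 ≤ (g y + ε) ^ (1 / 2 : ℝ) := Real.rpow_nonneg (by linarith) _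
        show 0 ≤ (4 * (dx ζ y ^ 2 + dy ζ y ^ 2) + K * ζ y ^ 2) * (g y + ε) ^ (1 / 2 : ℝ)
        positivity
      · filter_upwards [ae_restrict_of_ae hu.nn'] with y hy
        have h1 : 0 ≤ (g y + ε) ^ (1 / 2 : ℝ) := Real.rpow_nonneg (by linarith) _
        refine mul_le_mul_of_nonneg_right ?_ h1
        have h2 : ζ y ^ 2 ≤ 1 := (le_abs_self _).trans (hzb y)
        have h3 := mul_le_mul_of_nonneg_left h2 hK
        linarith [hM y]
    · intro y hy
      have hy' : y ∉ tsupport ζ := fun h => hy (zs h)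
      rw [dx_eq_zero hy', dy_eq_zero hy', image_eq_zero_of_notMem_tsupport hy']
      ring
  rw [mu_restrict measurableSet_ball s12] at hcs hR
  rw [mu_restrict measurableSet_ball s12] at hV
  rw [← hV] at hcs
  set S : ℝ := √(∫ y in ball (0 : ℂ) 12, (g y + ε)) with hSd
  have hS0 : 0 ≤ S := Real.sqrt_nonneg _
  have h4 : (4 * M + K) * ∫ y in ball (0 : ℂ) 12, (g y + ε) ^ (1 / 2 : ℝ) ≤ (4 * M + K) * (V * S) :=
    mul_le_mul_of_nonneg_left hcs (by positivity)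
  have h5 : (4 * M + K) * (V * S) ≤ ((4 * M + 1) * (1 + K)) * ((V + 1) * S) := by
    refine mul_le_mul ?_ ?_ (by positivity) (by positivity)
    · nlinarith [mul_nonneg hM0 hK]
    · nlinarith
  nlinarith

end Pool.Agent.MP_4f0ed6_gt.U

end

section

set_option autoImplicit false
set_option linter.dupNamespace false

open MeasureTheory Set Metric Filter Topology
open scoped ContDiff ENNReal

namespace Pool.Agent.MP_4f0ed6_gt.U

theorem TDbl_out {φ : ℂ → ℝ} (hs : tsupport φ ⊆ closedBall 0 13) {y : ℂ}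
    (hy : y ∉ ball (0 : ℂ) 16) : φ y = 0 :=
  image_eq_zero_of_notMem_tsupport fun h => hy (closedBall_subset_ball (by norm_num) (hs h))

theorem TDbl_cpt {φ : ℂ → ℝ} (hs : tsupport φ ⊆ closedBall 0 13) : HasCompactSupport φ :=
  (isCompact_closedBall (0 : ℂ) 13).of_isClosed_subset (isClosed_tsupport φ) hs

theorem TDbl_x {U : ℕ → ℂ → ℝ} {g gx gy φ : ℂ → ℝ} (H : Apx U g gx gy) (hφ : ContDiff ℝ ∞ φ)
    (hs : tsupport φ ⊆ closedBall 0 13) :
    ∫ y, φ y * gx y ∂mu = -∫ y, dx φ y * g y ∂mu := by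
  have h1 := H.lim1 (memLp_mu (p := 2) hφ.continuous)
  have h0 := (H.lim0 (memLp_mu (p := 2) (contDiff_dx hφ).continuous)).neg
  refine tendsto_nhds_unique h1 (h0.congr fun k => ?_)
  rw [integral_mu_of_support (f := fun y => φ y * dx (U k) y)
      fun y hy => by rw [TDbl_out hs hy, zero_mul],
    integral_mu_of_support (f := fun y => dx φ y * U k y)
      fun y hy => by rw [TDbl_out ((tsupport_dx φ).trans hs) hy, zero_mul]]
  have h := ibp_x (H.sm k) hφ (TDbl_cpt hs)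
  simp only [mul_comm (φ _), mul_comm (dx φ _)]
  exact h.symm

theorem TDbl_y {U : ℕ → ℂ → ℝ} {g gx gy φ : ℂ → ℝ} (H : Apx U g gx gy) (hφ : ContDiff ℝ ∞ φ)
    (hs : tsupport φ ⊆ closedBall 0 13) :
    ∫ y, φ y * gy y ∂mu = -∫ y, dy φ y * g y ∂mu := by
  have h1 := H.lim2 (memLp_mu (p := 2) hφ.continuous)
  have h0 := (H.lim0 (memLp_mu (p := 2) (contDiff_dy hφ).continuous)).neg
  refine tendsto_nhds_unique h1 (h0.congr fun k => ?_)
  rw [integral_mu_of_support (f := fun y => φ y * dy (U k) y)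
      fun y hy => by rw [TDbl_out hs hy, zero_mul],
    integral_mu_of_support (f := fun y => dy φ y * U k y)
      fun y hy => by rw [TDbl_out ((tsupport_dy φ).trans hs) hy, zero_mul]]
  have h := ibp_y (H.sm k) hφ (TDbl_cpt hs)
  simp only [mul_comm (φ _), mul_comm (dy φ _)]
  exact h.symm

theorem TDbl_int {φ g : ℂ → ℝ} (hφ : Continuous φ) (hg : MemLp g 2 mu) :
    Integrable (fun y => φ y * g y) mu :=
  MemLp.integrable_mul (memLp_mu (p := 2) hφ) hg

theorem TDbl_ind {g : ℂ → ℝ} {r : ℝ} (hr : r ≤ 16) :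
    ∫ y, (ball (0 : ℂ) r).indicator g y ∂mu = ∫ y in ball 0 r, g y := by
  rw [integral_indicator measurableSet_ball, mu_restrict measurableSet_ball (ball_subset_ball hr)]

theorem stDbl (hBar : StBar) : StDbl := by
  intro K hK
  obtain ⟨η, c, C, hη, hs, hη0, hc, hC, b1, b2, b3⟩ := hBar K hK
  refine ⟨(C + c) / c, by positivity, fun g gx gy hS => ?_⟩
  obtain ⟨U, H⟩ := hS.apx
  have h0 := hS.sup η hη (hs.trans (closedBall_subset_ball (by norm_num))) hη0
  have hx := TDbl_x H (contDiff_dx hη) ((tsupport_dx η).trans hs)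
  have hy := TDbl_y H (contDiff_dy hη) ((tsupport_dy η).trans hs)
  have i1 := TDbl_int (contDiff_dx hη).continuous H.m1
  have i2 := TDbl_int (contDiff_dy hη).continuous H.m2
  have i3 := (TDbl_int hη.continuous H.m0).const_mul K
  have i4 := TDbl_int (contDiff_dx (contDiff_dx hη)).continuous H.m0
  have i5 := TDbl_int (contDiff_dy (contDiff_dy hη)).continuous H.m0
  have i12 : Integrable (fun y => dx η y * gx y + dy η y * gy y) mu := i1.add i2
  have i34 : Integrable (fun y => K * (η y * g y) - dx (dx η) y * g y) mu := i3.sub i4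
  have e1 : ∫ y, (gx y * dx η y + gy y * dy η y + K * (g y * η y)) ∂mu =
      ∫ y, dx η y * gx y ∂mu + ∫ y, dy η y * gy y ∂mu + ∫ y, K * (η y * g y) ∂mu := by
    rw [← integral_add i1 i2, ← integral_add i12 i3]
    refine integral_congr_ae (Eventually.of_forall fun y => ?_)
    simp only
    ring
  have e2 : ∫ y, (K * (η y * g y) - dx (dx η) y * g y - dy (dy η) y * g y) ∂mu =
      ∫ y, K * (η y * g y) ∂mu - ∫ y, dx (dx η) y * g y ∂mu - ∫ y, dy (dy η) y * g y ∂mu := by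
    rw [integral_sub i34 i5, integral_sub i3 i4]
  have hg : Integrable g mu := H.m0.integrable (by norm_num)
  have j1 := (hg.indicator (measurableSet_ball (x := (0 : ℂ)) (ε := 1))).const_mul (C + c)
  have j2 := (hg.indicator (measurableSet_ball (x := (0 : ℂ)) (ε := 12))).const_mul c
  have e3 : ∫ y, ((C + c) * (ball (0 : ℂ) 1).indicator g y -
      c * (ball (0 : ℂ) 12).indicator g y) ∂mu =
      (C + c) * (∫ y in ball 0 1, g y) - c * ∫ y in ball 0 12, g y := by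
    rw [integral_sub j1 j2, integral_const_mul, integral_const_mul, TDbl_ind (by norm_num),
      TDbl_ind (by norm_num)]
  have h4 : ∫ y, (K * (η y * g y) - dx (dx η) y * g y - dy (dy η) y * g y) ∂mu ≤
      ∫ y, ((C + c) * (ball (0 : ℂ) 1).indicator g y -
        c * (ball (0 : ℂ) 12).indicator g y) ∂mu := by
    refine integral_mono_ae ((i3.sub i4).sub i5) (j1.sub j2) ?_
    filter_upwards [H.nn'] with y hy
    have e : K * (η y * g y) - dx (dx η) y * g y - dy (dy η) y * g y =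
        (K * η y - lp η y) * g y := by unfold lp; ring
    rw [e]
    by_cases h1 : ‖y‖ < 1
    · rw [indicator_of_mem (mem_ball_zero_iff.2 h1),
        indicator_of_mem (mem_ball_zero_iff.2 (by linarith))]
      have := mul_le_mul_of_nonneg_right (b1 y) hy
      linarith
    · rw [indicator_of_notMem (fun h => h1 (mem_ball_zero_iff.1 h))]
      by_cases h2 : ‖y‖ < 12
      · rw [indicator_of_mem (mem_ball_zero_iff.2 h2)]
        have := mul_le_mul_of_nonneg_right (b3 y (not_lt.1 h1) h2.le) hy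
        linarith
      · rw [indicator_of_notMem (fun h => h2 (mem_ball_zero_iff.1 h))]
        have := mul_le_mul_of_nonneg_right (b2 y (not_lt.1 h1)) hy
        linarith
  rw [div_mul_eq_mul_div, le_div_iff₀ hc]
  linarith

end Pool.Agent.MP_4f0ed6_gt.U

end

section

set_option autoImplicit false
set_option linter.dupNamespace false

open MeasureTheory Set Metric Filter Topology
open scoped ContDiff ENNReal

namespace Pool.Agent.MP_4f0ed6_gt.U

theorem TCacL_pow (x : ℝ) : x ^ (-1 - 1 : ℝ) = (x ^ 2)⁻¹ := by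
  rw [show (-1 - 1 : ℝ) = ((-2 : ℤ) : ℝ) by norm_num, Real.rpow_intCast, zpow_neg, zpow_ofNat]

theorem stCacL (hCac : StCac) : StCacL := by
  obtain ⟨ζ, h1, h2, h3, h4, h5, M, hM⟩ := exists_cut (a := 13) (b := 14) (by norm_num)
    (by norm_num)
  have hM0 : 0 ≤ M := le_trans (by positivity) (hM 0)
  have hV : 0 ≤ mu.real univ := measureReal_nonneg
  refine ⟨2 * (2 * M + 1) * mu.real univ + 1, by positivity, fun K g gx gy hK hS ε hε => ?_⟩
  have h := hCac K g gx gy hK hS 1 ε one_pos le_rfl hε ζ h1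
    (h5.trans (ball_subset_ball (by norm_num)))
  simp only [TCacL_pow, sub_self, Real.rpow_zero, mul_one, div_one] at h
  have hz : ∀ y, ζ y ^ 2 ≤ 1 := fun y => pow_le_one₀ (h2 y) (h3 y)
  have hr : ∫ y, (2 * (dx ζ y ^ 2 + dy ζ y ^ 2) + K * ζ y ^ 2) ∂mu ≤
      (2 * M + K) * mu.real univ := by
    refine (Real.le_norm_self _).trans
      (norm_integral_le_of_norm_le_const (ae_of_all _ fun y => ?_))
    rw [Real.norm_of_nonneg (by positivity)]
    exact add_le_add (by linarith [hM y]) (mul_le_of_le_one_right hK (hz y))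
  obtain ⟨U, hU⟩ := hS.apx
  have hi := (hU.lim_grad (h := fun y => ζ y ^ 2) (h1.continuous.pow 2).aestronglyMeasurable
    (M := 1) (fun y => by rw [abs_of_nonneg (sq_nonneg _)]; exact hz y)
    (Φ := fun s => ((s + ε) ^ 2)⁻¹)
    (ContinuousOn.inv₀ (by fun_prop) fun s hs => pow_ne_zero _ (by linarith [mem_Ici.1 hs]))
    (M' := (ε ^ 2)⁻¹) fun s hs => by
      rw [abs_of_nonneg (by positivity)]
      exact inv_anti₀ (by positivity) (pow_le_pow_left₀ hε.le (by linarith) 2)).1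
  have hl : ∫ y in ball 0 13, (gx y ^ 2 + gy y ^ 2) / (g y + ε) ^ 2 ≤
      ∫ y, ζ y ^ 2 * ((gx y ^ 2 + gy y ^ 2) * ((g y + ε) ^ 2)⁻¹) ∂mu := by
    refine le_trans (le_of_eq ?_) (setIntegral_le_integral (s := ball 0 13) hi
      (ae_of_all _ fun y => by positivity))
    rw [mu_restrict measurableSet_ball (ball_subset_ball (by norm_num))]
    refine setIntegral_congr_fun measurableSet_ball fun y hy => ?_
    rw [h4 y (mem_ball_zero_iff.1 hy).le, one_pow, one_mul, div_eq_mul_inv]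
  have h6 := mul_nonneg (mul_nonneg hM0 hK) hV
  nlinarith

end Pool.Agent.MP_4f0ed6_gt.U

end

section

set_option autoImplicit false
set_option linter.dupNamespace false

open MeasureTheory Set Metric Filter Topology
open scoped ContDiff ENNReal

namespace Pool.Agent.MP_4f0ed6_gt.U

/-- Fatou for the double integral of squared differences -/
theorem TPL_fat {X : Type} [MeasurableSpace X] (ν : Measure X) [IsFiniteMeasure ν]
    (v : ℕ → X → ℝ) (w : X → ℝ) (hv : ∀ k, MemLp (v k) 2 ν)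
    (hl : ∀ᵐ x ∂ν, Tendsto (fun k => v k x) atTop (𝓝 (w x))) {α β : ℝ} (h : α ≤ β) (A B : Set X)
    (hA : ∀ x ∈ A, w x ≤ α) (hB : ∀ x ∈ B, β ≤ w x) {M : ℕ → ℝ} {L : ℝ}
    (hM : Tendsto M atTop (𝓝 L)) (hb : ∀ k, ∫ x, ∫ y, (v k x - v k y) ^ 2 ∂ν ∂ν ≤ M k) :
    ν.real A * ν.real B * (β - α) ^ 2 ≤ L := by
  set T : ℝ → ℝ := fun s => max (min s β) α with hT
  have Tc : Continuous T := by fun_prop
  have T1 : ∀ s t, (T s - T t) ^ 2 ≤ (s - t) ^ 2 := fun s t =>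
    sq_le_sq.2 ((abs_max_sub_max_le_abs _ _ _).trans (abs_inf_sub_inf_le_abs _ _ _))
  have T2 : ∀ s t, ‖(T s - T t) ^ 2‖ ≤ (β - α) ^ 2 := fun s t => by
    have a1 : ∀ s, α ≤ T s ∧ T s ≤ β := fun s => ⟨le_max_right _ _, max_le (min_le_right _ _) h⟩
    rw [Real.norm_of_nonneg (sq_nonneg _)]
    exact sq_le_sq' (by linarith [a1 s, a1 t]) (by linarith [a1 s, a1 t])
  have Fc : Continuous fun p : ℝ × ℝ => (T p.1 - T p.2) ^ 2 := by fun_prop
  have m1 : ∀ k, AEStronglyMeasurable (fun z : X × X => (T (v k z.1) - T (v k z.2)) ^ 2)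
      (ν.prod ν) := fun k =>
    Fc.comp_aestronglyMeasurable (((hv k).comp_fst ν).1.prodMk ((hv k).comp_snd ν).1)
  have l1 : ∀ᵐ z ∂ν.prod ν, Tendsto (fun k => (T (v k z.1) - T (v k z.2)) ^ 2) atTop
      (𝓝 ((T (w z.1) - T (w z.2)) ^ 2)) := by
    filter_upwards [Measure.quasiMeasurePreserving_fst.ae hl,
      Measure.quasiMeasurePreserving_snd.ae hl] with z h1 h2
    exact (Fc.tendsto (w z.1, w z.2)).comp (h1.prodMk_nhds h2)
  have l2 := tendsto_integral_of_dominated_convergence (fun _ => (β - α) ^ 2) m1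
    (integrable_const _) (fun k => Eventually.of_forall fun z => T2 _ _) l1
  have l3 : ∫ z, (T (w z.1) - T (w z.2)) ^ 2 ∂ν.prod ν ≤ L := by
    refine le_of_tendsto_of_tendsto' l2 hM fun k => le_trans ?_ (hb k)
    have i1 : Integrable (fun z : X × X => (v k z.1 - v k z.2) ^ 2) (ν.prod ν) :=
      (((hv k).comp_fst ν).sub ((hv k).comp_snd ν)).integrable_sq
    rw [← integral_prod _ i1]
    exact integral_mono_of_nonneg (Eventually.of_forall fun z => sq_nonneg _) i1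
      (Eventually.of_forall fun z => T1 _ _)
  have i2 : Integrable (fun z : X × X => (T (w z.1) - T (w z.2)) ^ 2) (ν.prod ν) :=
    Integrable.of_bound (aestronglyMeasurable_of_tendsto_ae atTop m1 l1) _
      (Eventually.of_forall fun z => T2 _ _)
  refine le_trans ?_ ((mul_meas_ge_le_integral_of_nonneg
    (Eventually.of_forall fun z => sq_nonneg _) i2 ((β - α) ^ 2)).trans l3)
  rw [← measureReal_prod_prod, mul_comm]
  refine mul_le_mul_of_nonneg_left (measureReal_mono fun z hz => ?_) (sq_nonneg _)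
  have e1 : T (w z.1) = α := max_eq_right ((min_le_left _ _).trans (hA _ hz.1))
  have e2 : T (w z.2) = β := by
    rw [hT]
    simp only [min_eq_right (hB _ hz.2), max_eq_left h]
  rw [mem_setOf_eq, e1, e2]
  exact le_of_eq (by ring)

theorem TPL_ind (f : ℂ → ℝ) :
    ∫ y, (ball (0 : ℂ) 1).indicator (fun _ => (1 : ℝ)) y * f y ∂mu = ∫ y in ball 0 1, f y := by
  rw [← mu_restrict measurableSet_ball (ball_subset_ball (by norm_num)),
    ← integral_indicator measurableSet_ball]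
  refine integral_congr_ae (Eventually.of_forall fun y => ?_)
  by_cases h : y ∈ ball (0 : ℂ) 1 <;> simp [h]

theorem stPL (hPoin : StPoin) (hCacL : StCacL) : StPL := by
  obtain ⟨C1, c1, h1⟩ := hPoin
  obtain ⟨C2, c2, h2⟩ := hCacL
  refine ⟨C1 * C2, mul_pos c1 c2, fun K g gx gy hK hS a b ha hab => ?_⟩
  obtain ⟨u, hu⟩ := hS.apx
  have r1 : mu.restrict (ball (0 : ℂ) 1) = volume.restrict (ball 0 1) :=
    mu_restrict measurableSet_ball (ball_subset_ball (by norm_num))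
  have r13 : mu.restrict (ball (0 : ℂ) 13) = volume.restrict (ball 0 13) :=
    mu_restrict measurableSet_ball (ball_subset_ball (by norm_num))
  have pos : ∀ k y, 0 < u k y + a := fun k y => by linarith [hu.nn k y]
  have sm : ∀ k, ContDiff ℝ ∞ fun y => Real.log (u k y + a) := fun k =>
    ((hu.sm k).add contDiff_const).log fun y => (pos k y).ne'
  have hΦ : ContinuousOn (fun s : ℝ => ((s + a) ^ 2)⁻¹) (Ici 0) :=
    ContinuousOn.inv₀ (by fun_prop) fun s hs => by have : 0 ≤ s := hs; positivity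
  have hΦ' : ∀ s : ℝ, 0 ≤ s → |((s + a) ^ 2)⁻¹| ≤ (a ^ 2)⁻¹ := fun s hs => by
    rw [abs_of_nonneg (by positivity)]
    gcongr
    linarith
  have g1 := (hu.lim_grad (h := (ball (0 : ℂ) 1).indicator fun _ => (1 : ℝ))
    (aestronglyMeasurable_const.indicator measurableSet_ball) (M := 1)
    (fun y => by by_cases h : y ∈ ball (0 : ℂ) 1 <;> simp [h]) hΦ hΦ').2
  have g2 := (hu.lim_grad (h := fun _ => (1 : ℝ)) aestronglyMeasurable_const (M := 1)
    (fun y => by simp) hΦ hΦ').1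
  simp only [TPL_ind] at g1
  simp only [one_mul] at g2
  have g3 : ∫ y in ball (0 : ℂ) 1, (gx y ^ 2 + gy y ^ 2) * ((g y + a) ^ 2)⁻¹ ≤ C2 * (1 + K) := by
    refine le_trans ?_ (h2 K g gx gy hK hS a ha)
    simp only [div_eq_mul_inv]
    refine setIntegral_mono_set ?_ (Eventually.of_forall fun y => by positivity)
      (ball_subset_ball (by norm_num)).eventuallyLE
    rw [IntegrableOn, ← r13]
    exact g2.restrict
  haveI : IsFiniteMeasure (volume.restrict (ball (0 : ℂ) 1)) :=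
    isFiniteMeasure_restrict.2 measure_ball_lt_top.ne
  have key := TPL_fat (volume.restrict (ball (0 : ℂ) 1)) (fun k y => Real.log (u k y + a))
    (fun y => Real.log (max (g y) 0 + a)) (fun k => r1 ▸ (memLp_mu (sm k).continuous).restrict _)
    ?_ (α := Real.log (2 * a)) (β := Real.log b) (Real.log_le_log (by linarith) hab)
    {y ∈ ball (0 : ℂ) 1 | g y ≤ a} {y ∈ ball (0 : ℂ) 1 | b ≤ g y}
    (fun y hy => Real.log_le_log (by positivity) (by linarith [max_le hy.2 ha.le]))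
    (fun y hy => Real.log_le_log (by linarith) (by linarith [le_max_left (g y) 0, hy.2]))
    (g1.const_mul C1) fun k => ?_
  · rw [Real.log_div (by linarith) (by linarith), mul_assoc C1]
    rw [measureReal_def, measureReal_def, Measure.restrict_eq_self _ (sep_subset _ _),
      Measure.restrict_eq_self _ (sep_subset _ _)] at key
    exact key.trans (mul_le_mul_of_nonneg_left g3 c1.le)
  · rw [← r1]
    refine ae_restrict_of_ae ?_
    filter_upwards [hu.ae, hu.nn'] with y a1 a2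
    rw [max_eq_left a2]
    exact (a1.add_const a).log (by linarith)
  · refine (h1 _ 0 1 (sm k) one_pos).trans (le_of_eq ?_)
    rw [one_pow, mul_one]
    refine congrArg _ (integral_congr_ae (Eventually.of_forall fun y => ?_))
    have d1 : HasDerivAt (fun s => Real.log (s + a)) (u k y + a)⁻¹ (u k y) := by
      simpa using ((hasDerivAt_id (u k y)).add_const a).log (pos k y).ne'
    have d2 : DifferentiableAt ℝ (u k) y := (hu.sm k).differentiable (by simp) y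
    simp only [dx_comp d1 d2, dy_comp d1 d2]
    rw [← inv_pow]
    ring

end Pool.Agent.MP_4f0ed6_gt.U

end

section

set_option autoImplicit false
set_option linter.dupNamespace false

open MeasureTheory Set Metric Filter Topology
open scoped ContDiff ENNReal

namespace Pool.Agent.MP_4f0ed6_gt.U

theorem TRev2_nn {K : ℝ} {g gx gy : ℂ → ℝ} (h : Sup K g gx gy) :
    0 ≤ ∫ y in ball (0 : ℂ) 12, g y := by
  obtain ⟨u, hu⟩ := h.apx
  have h1 : ∀ᵐ y ∂mu, 0 ≤ g y :=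
    hu.ae.mono fun y hy => ge_of_tendsto' hy fun k => hu.nn k y
  have h2 : ∀ᵐ y ∂(volume.restrict (ball (0 : ℂ) 12)), 0 ≤ g y :=
    ae_mono (Measure.restrict_mono (ball_subset_ball (by norm_num)) le_rfl) h1
  exact integral_nonneg_of_ae h2

theorem TRev2_sq {g : ℂ → ℝ} {C m : ℝ} (hC : 0 < C)
    (hi : IntegrableOn (fun y => g y ^ 4) (ball (0 : ℂ) 10))
    (h : ∫ y in ball (0 : ℂ) 10, g y ^ 4 ≤ C * m ^ 4) :
    ∫ y in ball (0 : ℂ) 10, g y ^ 2 ≤ (C + volume.real (ball (0 : ℂ) 10)) * m ^ 2 := by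
  set V := volume.real (ball (0 : ℂ) 10) with hV
  have hV0 : 0 ≤ V := measureReal_nonneg
  have : IsFiniteMeasure (volume.restrict (ball (0 : ℂ) 10)) :=
    isFiniteMeasure_restrict.2 measure_ball_lt_top.ne
  have key : ∀ t : ℝ, m ^ 2 < t → ∫ y in ball (0 : ℂ) 10, g y ^ 2 ≤ (C + V) * t := by
    intro t ht
    have ht0 : 0 < t := lt_of_le_of_lt (sq_nonneg m) ht
    have h1 : ∫ y in ball (0 : ℂ) 10, g y ^ 2 ≤
        ∫ y in ball (0 : ℂ) 10, (t⁻¹ * g y ^ 4 + t) := by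
      refine integral_mono_of_nonneg (ae_of_all _ fun y => sq_nonneg _)
        ((hi.const_mul _).add (integrable_const _)) (ae_of_all _ fun y => ?_)
      have h3 : t * g y ^ 2 ≤ g y ^ 4 + t * t := by nlinarith [sq_nonneg (g y ^ 2 - t), sq_nonneg (g y ^ 2), mul_pos ht0 ht0]
      have h4 : t⁻¹ * g y ^ 4 + t = t⁻¹ * (g y ^ 4 + t * t) := by field_simp
      show g y ^ 2 ≤ t⁻¹ * g y ^ 4 + t
      rw [h4, le_inv_mul_iff₀ ht0]
      exact h3
    rw [integral_add (hi.const_mul _) (integrable_const _), integral_const_mul, integral_const,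
      measureReal_restrict_apply_univ, smul_eq_mul, ← hV] at h1
    have h5 : t⁻¹ * ∫ y in ball (0 : ℂ) 10, g y ^ 4 ≤ C * t := by
      rw [inv_mul_le_iff₀ ht0]
      have h6 : m ^ 4 ≤ t ^ 2 := by
        have : (m ^ 2) ^ 2 ≤ t ^ 2 := pow_le_pow_left₀ (sq_nonneg m) ht.le 2
        calc m ^ 4 = (m ^ 2) ^ 2 := by ring
          _ ≤ t ^ 2 := this
      calc _ ≤ C * m ^ 4 := h
        _ ≤ C * t ^ 2 := by gcongr
        _ = t * (C * t) := by ring
    linarith
  have hc : Tendsto (fun t : ℝ => (C + V) * t) (𝓝[>] (m ^ 2)) (𝓝 ((C + V) * m ^ 2)) :=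
    ((continuous_const.mul continuous_id).tendsto _).mono_left nhdsWithin_le_nhds
  exact ge_of_tendsto hc (eventually_nhdsWithin_of_forall fun t ht => key t ht)

theorem stRev2 (hRev : StRev) (hL4 : StL4) : StRev2 := by
  intro K hK
  obtain ⟨C1, hC1, h1⟩ := hRev K hK
  obtain ⟨C2, hC2, h2⟩ := hL4 K hK
  have hV0 : 0 ≤ volume.real (ball (0 : ℂ) 10) := measureReal_nonneg
  set D := C2 + volume.real (ball (0 : ℂ) 10) with hD
  have hD0 : 0 < D := by positivity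
  have key : ∀ g gx gy : ℂ → ℝ, Sup K g gx gy →
      √(∫ y in ball (0 : ℂ) 10, g y ^ 2) ≤ √D * ∫ y in ball (0 : ℂ) 12, g y := by
    intro g gx gy hg
    have h3 := TRev2_sq hC2 (h2 g gx gy hg).1 (h2 g gx gy hg).2
    have h4 := TRev2_nn hg
    calc _ ≤ √(D * (∫ y in ball (0 : ℂ) 12, g y) ^ 2) := Real.sqrt_le_sqrt h3
      _ = _ := by rw [Real.sqrt_mul hD0.le, Real.sqrt_sq h4]
  refine ⟨D * C1, by positivity, fun a ax ay b bx bz ha hb => ?_⟩
  have h5 := h1 a ax ay b bx bz ha hb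
  calc _ ≤ (√D * ∫ y in ball (0 : ℂ) 12, a y) * (√D * ∫ y in ball (0 : ℂ) 12, b y) :=
        mul_le_mul (key a ax ay ha) (key b bx bz hb) (Real.sqrt_nonneg _)
          (mul_nonneg (Real.sqrt_nonneg _) (TRev2_nn ha))
    _ = (√D * √D) * ((∫ y in ball (0 : ℂ) 12, a y) * ∫ y in ball (0 : ℂ) 12, b y) := by ring
    _ = D * ((∫ y in ball (0 : ℂ) 12, a y) * ∫ y in ball (0 : ℂ) 12, b y) := by
        rw [Real.mul_self_sqrt hD0.le]
    _ ≤ D * (C1 * ∫ y in ball (0 : ℂ) 1, a y * b y) := by gcongr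
    _ = _ := by ring

end Pool.Agent.MP_4f0ed6_gt.U

end

section

set_option autoImplicit false
set_option linter.dupNamespace false

open MeasureTheory Set Metric Filter Topology
open scoped ContDiff ENNReal

namespace Pool.Agent.MP_4f0ed6_gt.U

theorem TFl1_mem {g : ℂ → ℝ} (h : MemLp g 2 mu) {r : ℝ} (hr : r ≤ 16) :
    MemLp g 2 (volume.restrict (ball (0 : ℂ) r)) := by
  rw [← mu_restrict measurableSet_ball (ball_subset_ball hr)]
  exact h.restrict _

theorem TFl1_ae {p : ℂ → Prop} (h : ∀ᵐ y ∂mu, p y) {r : ℝ} (hr : r ≤ 16) :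
    ∀ᵐ y ∂(volume.restrict (ball (0 : ℂ) r)), p y := by
  rw [← mu_restrict measurableSet_ball (ball_subset_ball hr)]
  exact ae_restrict_of_ae h

theorem TFl1_quot {α : Type} [MeasurableSpace α] {ν : Measure α} {a s : α → ℝ}
    (ha : AEStronglyMeasurable a ν) (hs : Integrable s ν) (ha0 : ∀ᵐ y ∂ν, 0 ≤ a y) {ε : ℝ}
    (hε : 0 < ε) : Integrable (fun y => s y / (a y + ε) ^ 2) ν := by
  refine (hs.norm.div_const (ε ^ 2)).mono' ?_ ?_
  · exact (hs.aestronglyMeasurable.aemeasurable.div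
      ((ha.aemeasurable.add_const ε).pow_const 2)).aestronglyMeasurable
  · filter_upwards [ha0] with y hy
    rw [norm_div, Real.norm_of_nonneg (sq_nonneg (a y + ε))]
    gcongr
    linarith

theorem TFl1_cs {α : Type} [MeasurableSpace α] {ν : Measure α} {a b s : α → ℝ}
    (ha : MemLp a 2 ν) (hb : MemLp b 2 ν) (hs : Integrable s ν) (hs0 : ∀ y, 0 ≤ s y)
    (ha0 : ∀ᵐ y ∂ν, 0 ≤ a y) (ha4 : Integrable (fun y => a y ^ 4) ν)
    (hb4 : Integrable (fun y => b y ^ 4) ν) {ε : ℝ} (hε : 0 < ε) :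
    ∫ y, b y * √(s y) ∂ν ≤
      √(2 * (√(∫ y, a y ^ 4 ∂ν) * √(∫ y, b y ^ 4 ∂ν)) + 2 * ε ^ 2 * ∫ y, b y ^ 2 ∂ν) *
        √(∫ y, s y / (a y + ε) ^ 2 ∂ν) := by
  have ma := ha.aestronglyMeasurable
  have mb := hb.aestronglyMeasurable
  have ha2 : MemLp (fun y => a y ^ 2) 2 ν := by
    refine (memLp_two_iff_integrable_sq (f := fun y => a y ^ 2) (ma.pow 2)).2 ?_
    exact ha4.congr (Eventually.of_forall fun y => by simp only; ring)
  have hb2 : MemLp (fun y => b y ^ 2) 2 ν := by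
    refine (memLp_two_iff_integrable_sq (f := fun y => b y ^ 2) (mb.pow 2)).2 ?_
    exact hb4.congr (Eventually.of_forall fun y => by simp only; ring)
  have hab : Integrable (fun y => a y ^ 2 * b y ^ 2) ν := ha2.integrable_mul hb2
  have hbb : Integrable (fun y => b y ^ 2) ν := hb.integrable_sq
  have hdom : Integrable (fun y => 2 * (a y ^ 2 * b y ^ 2) + 2 * ε ^ 2 * b y ^ 2) ν :=
    (hab.const_mul 2).add (hbb.const_mul _)
  have hle : ∀ y, (b y * (a y + ε)) ^ 2 ≤ 2 * (a y ^ 2 * b y ^ 2) + 2 * ε ^ 2 * b y ^ 2 := by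
    intro y
    nlinarith [sq_nonneg (b y * (a y - ε))]
  have mf : AEStronglyMeasurable (fun y => b y * (a y + ε)) ν := mb.mul (ma.add_const ε)
  have hf2 : Integrable (fun y => (b y * (a y + ε)) ^ 2) ν := by
    refine hdom.mono' (mf.pow 2) (Eventually.of_forall fun y => ?_)
    rw [Real.norm_of_nonneg (sq_nonneg _)]
    exact hle y
  have hf : MemLp (fun y => b y * (a y + ε)) 2 ν := (memLp_two_iff_integrable_sq mf).2 hf2
  have e2 : ∀ y, (√(s y) / (a y + ε)) ^ 2 = s y / (a y + ε) ^ 2 := by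
    intro y
    rw [div_pow, Real.sq_sqrt (hs0 y)]
  have mg : AEStronglyMeasurable (fun y => √(s y) / (a y + ε)) ν :=
    (hs.aestronglyMeasurable.aemeasurable.sqrt.div
      (ma.aemeasurable.add_const ε)).aestronglyMeasurable
  have hg : MemLp (fun y => √(s y) / (a y + ε)) 2 ν := by
    rw [memLp_two_iff_integrable_sq mg]
    simp only [e2]
    exact TFl1_quot ma hs ha0 hε
  have h1 := integral_cs hf hg
  simp only [e2] at h1
  have h2 : ∫ y, b y * √(s y) ∂ν = ∫ y, b y * (a y + ε) * (√(s y) / (a y + ε)) ∂ν := by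
    refine integral_congr_ae ?_
    filter_upwards [ha0] with y hy
    have : a y + ε ≠ 0 := by positivity
    field_simp
  rw [h2]
  refine ((le_abs_self _).trans h1).trans ?_
  refine mul_le_mul_of_nonneg_right (Real.sqrt_le_sqrt ?_) (Real.sqrt_nonneg _)
  refine (integral_mono hf2 hdom hle).trans ?_
  rw [integral_add (hab.const_mul 2) (hbb.const_mul _), integral_const_mul, integral_const_mul]
  have h3 := (le_abs_self _).trans (integral_cs ha2 hb2)
  have e4 : ∀ t : ℝ, (t ^ 2) ^ 2 = t ^ 4 := fun t => by ring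
  simp only [e4] at h3
  linarith

theorem TFl1_lim {X P Q D : ℝ} (h : ∀ ε : ℝ, 0 < ε → X ≤ √(P + 2 * ε ^ 2 * Q) * D) :
    X ≤ √P * D := by
  have hc : Continuous fun ε : ℝ => √(P + 2 * ε ^ 2 * Q) * D := by fun_prop
  have ht : Tendsto (fun ε : ℝ => √(P + 2 * ε ^ 2 * Q) * D) (𝓝[>] 0) (𝓝 (√P * D)) := by
    have := (hc.tendsto 0).mono_left (nhdsWithin_le_nhds (s := Ioi 0))
    simpa using this
  exact ge_of_tendsto ht (eventually_nhdsWithin_of_forall fun ε hε => h ε hε)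

theorem TFl1_four {C : ℝ} (hC : 0 < C) {g : ℂ → ℝ}
    (h : IntegrableOn (fun y => g y ^ 4) (ball 0 10) ∧
      ∫ y in ball 0 10, g y ^ 4 ≤ C * (∫ y in ball 0 12, g y) ^ 4) :
    Integrable (fun y => g y ^ 4) (volume.restrict (ball (0 : ℂ) 1)) ∧
      √(∫ y in ball 0 1, g y ^ 4) ≤ √C * (∫ y in ball 0 12, g y) ^ 2 := by
  have hs : ball (0 : ℂ) 1 ⊆ ball 0 10 := ball_subset_ball (by norm_num)
  refine ⟨h.1.mono_set hs, ?_⟩
  have h1 : ∫ y in ball 0 1, g y ^ 4 ≤ ∫ y in ball 0 10, g y ^ 4 :=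
    setIntegral_mono_set h.1 (Eventually.of_forall fun y => by positivity) hs.eventuallyLE
  refine Real.sqrt_le_iff.2 ⟨by positivity, ?_⟩
  rw [mul_pow, Real.sq_sqrt hC.le, ← pow_mul]
  exact h1.trans h.2

theorem stFl1 (hRev : StRev) (hL4 : StL4) (hCacL : StCacL) : StFl1 := by
  obtain ⟨CR, hCR, hR⟩ := hRev 1 zero_le_one
  obtain ⟨C4, hC4, h4⟩ := hL4 1 zero_le_one
  obtain ⟨CL, hCL, hL⟩ := hCacL
  refine ⟨√(2 * C4) * CR * √(CL * (1 + 1)), by positivity, fun a ax ay b bx bz ha hb => ?_⟩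
  obtain ⟨ua, Ha⟩ := ha.apx
  obtain ⟨ub, Hb⟩ := hb.apx
  obtain ⟨ia, ea⟩ := TFl1_four hC4 (h4 a ax ay ha)
  obtain ⟨ib, eb⟩ := TFl1_four hC4 (h4 b bx bz hb)
  have hs : ∀ r : ℝ, r ≤ 16 →
      Integrable (fun y => ax y ^ 2 + ay y ^ 2) (volume.restrict (ball (0 : ℂ) r)) :=
    fun r hr => (TFl1_mem Ha.m1 hr).integrable_sq.add (TFl1_mem Ha.m2 hr).integrable_sq
  have hma : 0 ≤ ∫ y in ball 0 12, a y := integral_nonneg_of_ae (TFl1_ae Ha.nn' (by norm_num))
  have hmb : 0 ≤ ∫ y in ball 0 12, b y := integral_nonneg_of_ae (TFl1_ae Hb.nn' (by norm_num))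
  have hrev := hR a ax ay b bx bz ha hb
  set I := ∫ y in ball (0 : ℂ) 1, a y * b y
  set ma := ∫ y in ball (0 : ℂ) 12, a y
  set mb := ∫ y in ball (0 : ℂ) 12, b y
  have hI : 0 ≤ CR * I := (mul_nonneg hma hmb).trans hrev
  have key : ∫ y in ball 0 1, b y * √(ax y ^ 2 + ay y ^ 2) ≤
      √(2 * C4 * (CR * I) ^ 2) * √(CL * (1 + 1)) := by
    refine TFl1_lim (Q := ∫ y in ball (0 : ℂ) 1, b y ^ 2) fun ε hε => ?_
    refine (TFl1_cs (TFl1_mem Ha.m0 (by norm_num)) (TFl1_mem Hb.m0 (by norm_num))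
      (hs 1 (by norm_num)) (fun y => by positivity) (TFl1_ae Ha.nn' (by norm_num)) ia ib
      hε).trans ?_
    refine mul_le_mul (Real.sqrt_le_sqrt ?_) (Real.sqrt_le_sqrt ?_) (Real.sqrt_nonneg _)
      (Real.sqrt_nonneg _)
    · have h1 : √(∫ y in ball (0 : ℂ) 1, a y ^ 4) * √(∫ y in ball (0 : ℂ) 1, b y ^ 4) ≤
          (√C4 * ma ^ 2) * (√C4 * mb ^ 2) :=
        mul_le_mul ea eb (Real.sqrt_nonneg _) (by positivity)
      have h2 : (√C4 * ma ^ 2) * (√C4 * mb ^ 2) = C4 * (ma * mb) ^ 2 := by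
        rw [mul_mul_mul_comm, Real.mul_self_sqrt hC4.le, mul_pow]
      have h3 : C4 * (ma * mb) ^ 2 ≤ C4 * (CR * I) ^ 2 := by
        have := mul_nonneg hma hmb
        gcongr
      linarith
    · refine le_trans ?_ (hL 1 a ax ay zero_le_one ha ε hε)
      exact setIntegral_mono_set
        (TFl1_quot (TFl1_mem Ha.m0 (by norm_num)).aestronglyMeasurable (hs 13 (by norm_num))
          (TFl1_ae Ha.nn' (by norm_num)) hε)
        (Eventually.of_forall fun y => by positivity)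
        (ball_subset_ball (by norm_num)).eventuallyLE
  refine key.trans (le_of_eq ?_)
  rw [Real.sqrt_mul (by positivity), Real.sqrt_sq hI]
  ring

end Pool.Agent.MP_4f0ed6_gt.U

end

section

set_option autoImplicit false
set_option linter.dupNamespace false

open MeasureTheory Set Metric Filter Topology
open scoped ContDiff ENNReal

namespace Pool.Agent.MP_4f0ed6_gt.U

variable {w : ℂ} {ρ : ℝ}

theorem TScale_sub (h : ‖w‖ + 16 * ρ ≤ 16) : ball w (16 * ρ) ⊆ ball (0 : ℂ) 16 :=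
  ball_subset_ball' (by rw [dist_zero_right]; linarith)

theorem TScale_emb (w : ℂ) (h0 : 0 < ρ) : MeasurableEmbedding fun y : ℂ => w + ρ * y :=
  ((Homeomorph.mulLeft₀ (ρ : ℂ) (by exact_mod_cast h0.ne')).trans
    (Homeomorph.addLeft w)).measurableEmbedding

theorem TScale_le (h0 : 0 < ρ) (h : ‖w‖ + 16 * ρ ≤ 16) :
    Measure.map (fun y : ℂ => w + ρ * y) mu ≤ (ENNReal.ofReal (ρ ^ 2))⁻¹ • mu := by
  refine Measure.le_iff.2 fun s hs => ?_
  have hm := (TScale_emb w h0).measurable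
  have h1 := setLIntegral_affine w h0 16 (s.indicator 1)
  have h2 : ENNReal.ofReal (ρ ^ 2) ≠ 0 := by simpa using h0.ne'
  have h3 : ∫⁻ y in ball (0 : ℂ) 16, s.indicator (1 : ℂ → ℝ≥0∞) (w + ρ * y) =
      mu ((fun y : ℂ => w + ρ * y) ⁻¹' s) := by
    rw [← lintegral_indicator_one (hm hs)]
    rfl
  rw [lintegral_indicator_one hs, h3] at h1
  rw [Measure.map_apply hm hs, Measure.smul_apply, smul_eq_mul,
    ← ENNReal.inv_mul_cancel_left (b := mu _) h2 ENNReal.ofReal_ne_top, ← h1]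
  gcongr
  exact Measure.restrict_mono (TScale_sub h) le_rfl

theorem TScale_c (h0 : 0 < ρ) : (ENNReal.ofReal (ρ ^ 2))⁻¹ ≠ ⊤ := by simpa using h0.ne'

theorem TScale_mem (h0 : 0 < ρ) (h : ‖w‖ + 16 * ρ ≤ 16) {f : ℂ → ℝ} (hf : MemLp f 2 mu) :
    MemLp (fun y : ℂ => f (w + ρ * y)) 2 mu :=
  (TScale_emb w h0).memLp_map_measure_iff.1 (hf.of_measure_le_smul (TScale_c h0) (TScale_le h0 h))

theorem TScale_lim (h0 : 0 < ρ) (h : ‖w‖ + 16 * ρ ≤ 16) {F G : ℕ → ℂ → ℝ} (r : ℝ)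
    (hF : Tendsto (fun k => eLpNorm (F k) 2 mu) atTop (𝓝 0))
    (hG : ∀ k y, G k y = r * F k (w + ρ * y)) :
    Tendsto (fun k => eLpNorm (G k) 2 mu) atTop (𝓝 0) := by
  have h1 : (‖r‖ₑ * (ENNReal.ofReal (ρ ^ 2))⁻¹ ^ (1 / 2 : ℝ≥0∞).toReal) ≠ ⊤ :=
    ENNReal.mul_ne_top enorm_ne_top
      (ENNReal.rpow_ne_top_of_nonneg ENNReal.toReal_nonneg (TScale_c h0))
  have h2 := ENNReal.Tendsto.const_mul hF (Or.inr h1)
  rw [mul_zero] at h2
  refine tendsto_of_tendsto_of_tendsto_of_le_of_le tendsto_const_nhds h2 (fun _ => bot_le)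
    fun k => ?_
  have h3 : G k = r • (F k ∘ fun y : ℂ => w + ρ * y) := funext fun y => hG k y
  simp only
  rw [h3, eLpNorm_const_smul, ← (TScale_emb w h0).eLpNorm_map_measure, mul_assoc]
  gcongr
  exact eLpNorm_le_of_measure_le_smul (TScale_le h0 h)

theorem stScale  : StScale := by
  intro K K' g gx gy w ρ hS h0 h hK
  refine Sup.mono (K := K * ρ ^ 2) ⟨?_, fun η hη hs hn => ?_⟩ hK
  · obtain ⟨u, H⟩ := hS.apx
    have hd : ∀ k y, DifferentiableAt ℝ (u k) y := fun k y =>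
      ((H.sm k).differentiable (by simp)).differentiableAt
    refine ⟨fun k y => u k (w + ρ * y), fun k => (H.sm k).comp (by fun_prop), fun k y => H.nn k _,
      TScale_mem h0 h H.m0, (TScale_mem h0 h H.m1).const_mul ρ,
      (TScale_mem h0 h H.m2).const_mul ρ, TScale_lim h0 h 1 H.c0 fun k y => by simp,
      TScale_lim h0 h ρ H.c1 fun k y => ?_, TScale_lim h0 h ρ H.c2 fun k y => ?_, ?_⟩
    · simp only [Pi.sub_apply]
      rw [dx_affine w ρ (hd k _), mul_sub]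
    · simp only [Pi.sub_apply]
      rw [dy_affine w ρ (hd k _), mul_sub]
    · exact (TScale_emb w h0).ae_map_iff.1
        ((Measure.absolutelyContinuous_of_le_smul (TScale_le h0 h)).ae_le H.ae)
  · have hc : (ρ : ℂ) ≠ 0 := by exact_mod_cast h0.ne'
    have hd : ∀ y, DifferentiableAt ℝ η y := fun y =>
      (hη.differentiable (by simp)).differentiableAt
    obtain ⟨ζ, hζ⟩ : ∃ ζ : ℂ → ℝ, ζ = fun x => η (-w / ρ + (ρ⁻¹ : ℝ) * x) := ⟨_, rfl⟩
    have e : ∀ y : ℂ, -w / ρ + (ρ⁻¹ : ℝ) * (w + ρ * y) = y := fun y => by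
      push_cast
      field_simp
      ring
    have h1 : tsupport ζ ⊆ ball w (16 * ρ) := by
      have h2 : tsupport ζ ⊆ (fun x : ℂ => -w / ρ + (ρ⁻¹ : ℝ) * x) ⁻¹' tsupport η := by
        refine closure_minimal (fun x hx => subset_tsupport η ?_)
          ((isClosed_tsupport η).preimage (by fun_prop))
        rw [hζ] at hx
        exact hx
      intro x hx
      have h3 := hs (h2 hx)
      have h4 : x - w = ρ * (-w / ρ + (ρ⁻¹ : ℝ) * x) := by
        push_cast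
        field_simp
        ring
      rw [mem_ball_zero_iff] at h3
      rw [mem_ball, dist_eq_norm, h4, norm_mul, Complex.norm_real, Real.norm_of_nonneg h0.le]
      nlinarith
    have h5 := hS.sup ζ (by rw [hζ]; exact hη.comp (by fun_prop)) (h1.trans (TScale_sub h))
      fun y => by rw [hζ]; exact hn _
    have h6 : ∀ x, x ∉ ball w (16 * ρ) → gx x * dx ζ x + gy x * dy ζ x + K * (g x * ζ x) = 0 := by
      intro x hx
      have h7 : x ∉ tsupport ζ := fun h => hx (h1 h)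
      rw [dx_eq_zero h7, dy_eq_zero h7, image_eq_zero_of_notMem_tsupport h7]
      ring
    rw [integral_mu_of_support fun y hy => h6 y fun h' => hy (TScale_sub h h'),
      ← setIntegral_eq_integral_of_forall_compl_eq_zero h6, setIntegral_affine w h0,
      ← integral_const_mul] at h5
    refine h5.trans (le_of_eq (integral_congr_ae (Eventually.of_forall fun y => ?_)))
    simp only
    rw [hζ, dx_affine _ _ (hd _), dy_affine _ _ (hd _)]
    simp only [e]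
    field_simp

end Pool.Agent.MP_4f0ed6_gt.U

end

section

set_option autoImplicit false
set_option linter.dupNamespace false

open MeasureTheory Set Metric Filter Topology
open scoped ContDiff ENNReal

namespace Pool.Agent.MP_4f0ed6_gt.U

theorem TFl2_swap (ν : Measure ℂ) [SFinite ν] (B : Set ℂ) (ρ : ℝ) :
    ∫⁻ w in B, ν (ball w ρ) = ∫⁻ y, volume (ball y ρ ∩ B) ∂ν := by
  have hS : MeasurableSet {p : ℂ × ℂ | dist p.2 p.1 < ρ} :=
    (isOpen_lt (by fun_prop) continuous_const).measurableSet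
  have h := (Measure.prod_apply (μ := volume.restrict B) (ν := ν) hS).symm.trans
    (Measure.prod_apply_symm hS)
  refine h.trans (lintegral_congr fun y => ?_)
  rw [← Measure.restrict_apply measurableSet_ball]
  congr 1
  ext x
  simp [dist_comm]

theorem TFl2_meas (ν ν' : Measure ℂ) [SFinite ν] [SFinite ν'] {ρ : ℝ} (h0 : 0 < ρ)
    (h1 : ρ ≤ 1 / 2) (A : ℝ≥0∞) (hA : A ≠ ⊤)
    (h : ∀ w ∈ ball (0 : ℂ) (2 + ρ), ν (ball w ρ) ≤ A * ν' (ball w ρ)) :
    ν (ball 0 2) ≤ A * ν' (ball 0 3) := by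
  have hc : ∀ y : ℂ, volume (ball y ρ) = volume (ball (0 : ℂ) ρ) := fun y =>
    Measure.addHaar_ball_center _ y ρ
  have e1 : volume (ball (0 : ℂ) ρ) * ν (ball 0 2) ≤
      ∫⁻ w in ball (0 : ℂ) (2 + ρ), ν (ball w ρ) := by
    rw [TFl2_swap, ← setLIntegral_const]
    refine le_trans (setLIntegral_mono' measurableSet_ball fun y hy => ?_)
      (setLIntegral_le_lintegral _ _)
    rw [inter_eq_left.2 (ball_subset_ball' (by linarith [mem_ball.1 hy])), hc y]
  have e2 : ∫⁻ w in ball (0 : ℂ) (2 + ρ), ν' (ball w ρ) ≤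
      volume (ball (0 : ℂ) ρ) * ν' (ball 0 3) := by
    rw [TFl2_swap, ← setLIntegral_const, ← lintegral_indicator measurableSet_ball]
    refine lintegral_mono fun y => ?_
    by_cases hy : y ∈ ball (0 : ℂ) 3
    · rw [indicator_of_mem hy, ← hc y]
      exact measure_mono inter_subset_left
    · rw [(ball_disjoint_ball (by linarith [not_lt.1 (mt mem_ball.2 hy)])).inter_eq, measure_empty]
      exact zero_le
  have e3 : ∫⁻ w in ball (0 : ℂ) (2 + ρ), ν (ball w ρ) ≤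
      A * ∫⁻ w in ball (0 : ℂ) (2 + ρ), ν' (ball w ρ) := by
    rw [← lintegral_const_mul' _ _ hA]
    exact setLIntegral_mono' measurableSet_ball h
  have e4 := e1.trans (e3.trans (mul_le_mul_right e2 A))
  rw [mul_left_comm] at e4
  exact (ENNReal.mul_le_mul_iff_right (measure_ball_pos _ _ h0).ne' measure_ball_lt_top.ne).1 e4

theorem TFl2_den {f : ℂ → ℝ} (hf : Integrable f mu) (h0 : ∀ᵐ y ∂mu, 0 ≤ f y) {w : ℂ} {t : ℝ}
    (h : ‖w‖ + t ≤ 16) : mu.withDensity (fun y => ENNReal.ofReal (f y)) (ball w t) =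
      ENNReal.ofReal (∫ y in ball w t, f y) := by
  rw [withDensity_apply _ measurableSet_ball, ← ofReal_integral_eq_lintegral_ofReal
    hf.restrict (ae_restrict_of_ae h0), mu_restrict measurableSet_ball
    (ball_subset_ball' (by rw [dist_zero_right]; linarith))]

theorem TFl2_avg {f g : ℂ → ℝ} (hf : Integrable f mu) (hg : Integrable g mu)
    (f0 : ∀ᵐ y ∂mu, 0 ≤ f y) (g0 : ∀ᵐ y ∂mu, 0 ≤ g y) {ρ A : ℝ} (h0 : 0 < ρ) (h1 : ρ ≤ 1 / 2)
    (hA : 0 ≤ A) (h : ∀ w : ℂ, ‖w‖ < 2 + ρ → ∫ y in ball w ρ, f y ≤ A * ∫ y in ball w ρ, g y) :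
    ∫ y in ball 0 2, f y ≤ A * ∫ y in ball 0 3, g y := by
  have e := TFl2_meas (mu.withDensity fun y => ENNReal.ofReal (f y))
    (mu.withDensity fun y => ENNReal.ofReal (g y)) h0 h1 (ENNReal.ofReal A) ENNReal.ofReal_ne_top
    fun w hw => by
      have hw' := mem_ball_zero_iff.1 hw
      rw [TFl2_den hf f0 (by linarith), TFl2_den hg g0 (by linarith), ← ENNReal.ofReal_mul hA]
      exact ENNReal.ofReal_le_ofReal (h w hw')
  rw [TFl2_den hf f0 (by norm_num), TFl2_den hg g0 (by norm_num), ← ENNReal.ofReal_mul hA] at e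
  refine (ENNReal.ofReal_le_ofReal_iff (mul_nonneg hA (integral_nonneg_of_ae ?_))).1 e
  rw [← mu_restrict measurableSet_ball (ball_subset_ball (by norm_num))]
  exact ae_restrict_of_ae g0

theorem stFl2 (hFl1 : StFl1) (hScale : StScale) : StFl2 := by
  obtain ⟨C, hC, h⟩ := hFl1
  refine ⟨2 * C, by positivity, fun K a ax ay b bx bz hK ha hb => ?_⟩
  obtain ⟨u, hu⟩ := ha.apx
  obtain ⟨v, hv⟩ := hb.apx
  have s1 : 1 ≤ √(1 + K) := Real.one_le_sqrt.2 (by linarith)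
  have s2 : √(1 + K) ^ 2 = 1 + K := Real.sq_sqrt (by linarith)
  obtain ⟨ρ, hρ⟩ : ∃ ρ : ℝ, ρ * (2 * √(1 + K)) = 1 := ⟨_, inv_mul_cancel₀ (by positivity)⟩
  have h0 : 0 < ρ := by nlinarith
  have h1 : ρ ≤ 1 / 2 := by nlinarith
  have h2 : K * ρ ^ 2 ≤ 1 := by
    have : ρ ^ 2 * (4 * (1 + K)) = 1 := by
      rw [← s2]; linear_combination (ρ * (2 * √(1 + K)) + 1) * hρ
    nlinarith [sq_nonneg ρ]
  have hm : MemLp (fun y => √(ax y ^ 2 + ay y ^ 2)) 2 mu := by
    refine (hu.m1.norm.add hu.m2.norm).of_le (Real.continuous_sqrt.comp_aestronglyMeasurable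
      ((hu.m1.1.pow 2).add (hu.m2.1.pow 2))) (ae_of_all _ fun y => ?_)
    simp only [Pi.add_apply, Real.norm_eq_abs]
    rw [abs_of_nonneg (Real.sqrt_nonneg _), abs_of_nonneg (by positivity)]
    refine Real.sqrt_le_iff.2 ⟨by positivity, ?_⟩
    nlinarith [sq_abs (ax y), sq_abs (ay y), mul_nonneg (abs_nonneg (ax y)) (abs_nonneg (ay y))]
  refine TFl2_avg (hv.m0.integrable_mul hm) (hu.m0.integrable_mul hv.m0) ?_ ?_ h0 h1
    (by positivity) fun w hw => ?_
  · filter_upwards [hv.nn'] with y hy using mul_nonneg hy (Real.sqrt_nonneg _)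
  · filter_upwards [hu.nn', hv.nn'] with y hy hy' using mul_nonneg hy hy'
  have e := h _ _ _ _ _ _ (hScale K 1 a ax ay w ρ ha h0 (by linarith) h2)
    (hScale K 1 b bx bz w ρ hb h0 (by linarith) h2)
  have e1 : ∀ p q r : ℝ, r * √((ρ * p) ^ 2 + (ρ * q) ^ 2) = ρ * (r * √(p ^ 2 + q ^ 2)) := by
    intro p q r
    rw [mul_pow, mul_pow, ← mul_add, Real.sqrt_mul (sq_nonneg _), Real.sqrt_sq h0.le]; ring
  simp only [e1, integral_const_mul] at e
  have e2 := setIntegral_affine w h0 1 fun y => b y * √(ax y ^ 2 + ay y ^ 2)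
  have e3 := setIntegral_affine w h0 1 fun y => a y * b y
  rw [one_mul] at e2 e3
  simp only [Pi.mul_apply]
  rw [e2, e3]
  have e4 := mul_le_mul_of_nonneg_left e (show 0 ≤ ρ ^ 2 * (2 * √(1 + K)) by positivity)
  refine le_trans (le_of_eq ?_) (e4.trans (le_of_eq (by ring)))
  linear_combination (-(ρ ^ 2 * ∫ y in ball (0 : ℂ) 1,
    b (w + ρ * y) * √(ax (w + ρ * y) ^ 2 + ay (w + ρ * y) ^ 2))) * hρ

end Pool.Agent.MP_4f0ed6_gt.U

end
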