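import Pool.Agent.Mg.F4f0ed6a.G5bac69
import Pool.Agent.Mg.F4f0ed6a.Gb427fa
import Pool.Agent.Mg.F4f0ed6a.Ga5385d

section

set_option autoImplicit false
set_option linter.dupNamespace false

open scoped MatrixGroups

namespace Pool.Agent.MP_4f0ed6_gt.U

theorem tNC_real {a b c d a' b' c' d' : ℝ} (h : a * d - b * c = 1) (h' : a' * d' - b' * c' = 1)
    (ht : a' + d' = a + d) (h2 : 2 < |a + d|) (e1 : b' * c = b * c')
    (e2 : b * (a' - d') = b' * (a - d)) (e3 : c' * (a - d) = c * (a' - d')) :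
    0 < (a - d) ^ 2 + 4 * b * c ∧ ((a' = a ∧ b' = b ∧ c' = c ∧ d' = d) ∨
      (a' = d ∧ b' = -b ∧ c' = -c ∧ d' = a)) := by
  have h4 : 4 < (a + d) ^ 2 := by
    rw [← sq_abs]
    nlinarith
  obtain ⟨u, hu⟩ : ∃ u, u = a - d := ⟨_, rfl⟩
  obtain ⟨u', hu'⟩ : ∃ u', u' = a' - d' := ⟨_, rfl⟩
  obtain ⟨D, hD⟩ : ∃ D, D = u ^ 2 + 4 * b * c := ⟨_, rfl⟩
  obtain ⟨l, hl⟩ : ∃ l, l = u * u' + 4 * b' * c := ⟨_, rfl⟩
  have hD0 : 0 < D := by rw [hD, hu]; nlinarith
  have hD' : D = u' ^ 2 + 4 * b' * c' := by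
    rw [hD, hu, hu']
    linear_combination (-4) * h + 4 * h' - (a + d + (a' + d')) * ht
  rw [← hu, ← hu'] at e2 e3
  have k1 : D * u' = l * u := by
    rw [hD, hl]
    linear_combination 4 * c * e2
  have k2 : D * b' = l * b := by
    rw [hD, hl]
    linear_combination (-u) * e2
  have k3 : D * c' = l * c := by
    rw [hD, hl]
    linear_combination u * e3 - 4 * c * e1
  have k4 : D * ((l - D) * (l + D)) = 0 := by
    have e : D ^ 2 * D = l ^ 2 * D := by
      calc D ^ 2 * D = (D * u') ^ 2 + 4 * (D * b') * (D * c') := by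
            conv_lhs => rw [show D ^ 2 * D = D ^ 2 * (u' ^ 2 + 4 * b' * c') by rw [← hD']]
            ring
        _ = l ^ 2 * (u ^ 2 + 4 * b * c) := by rw [k1, k2, k3]; ring
        _ = _ := by rw [← hD]
    linear_combination -e
  refine ⟨by rw [← hu, ← hD]; exact hD0, ?_⟩
  rcases mul_eq_zero.1 ((mul_eq_zero.1 k4).resolve_left hD0.ne') with k | k
  · have hl' : l = D := by linarith
    rw [hl'] at k1 k2 k3
    have j1 := mul_left_cancel₀ hD0.ne' k1
    exact Or.inl ⟨by linarith, mul_left_cancel₀ hD0.ne' k2, mul_left_cancel₀ hD0.ne' k3,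
      by linarith⟩
  · have hl' : l = -D := by linarith
    rw [hl', neg_mul, ← mul_neg] at k1 k2 k3
    have j1 := mul_left_cancel₀ hD0.ne' k1
    exact Or.inr ⟨by linarith, mul_left_cancel₀ hD0.ne' k2, mul_left_cancel₀ hD0.ne' k3,
      by linarith⟩

theorem tNC_entry (x y : SL(2, ℝ)) (i j : Fin 2) :
    (x * y).1 i j = x.1 i 0 * y.1 0 j + x.1 i 1 * y.1 1 j := by
  rw [Matrix.SpecialLinearGroup.coe_mul, Matrix.mul_apply, Fin.sum_univ_two]

theorem stNC : StNC := by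
  intro α β hα hβ h
  have htr : (β * α * β⁻¹).1.trace = α.1.trace := by
    rw [Matrix.SpecialLinearGroup.coe_mul, Matrix.trace_mul_comm,
      ← Matrix.SpecialLinearGroup.coe_mul, inv_mul_cancel_left]
  have hδ : β * α * β⁻¹ * β = β * α := inv_mul_cancel_right _ _
  generalize β * α * β⁻¹ = δ at h htr hδ
  have d1 := α.det_coe
  have d2 := δ.det_coe
  rw [Matrix.det_fin_two] at d1 d2
  rw [Matrix.trace_fin_two] at hα
  rw [Matrix.trace_fin_two, Matrix.trace_fin_two] at htr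
  have c : ∀ i j, δ.1 i 0 * α.1 0 j + δ.1 i 1 * α.1 1 j = α.1 i 0 * δ.1 0 j + α.1 i 1 * δ.1 1 j :=
    fun i j => by rw [← tNC_entry, ← tNC_entry, h]
  have c' : ∀ i j, δ.1 i 0 * β.1 0 j + δ.1 i 1 * β.1 1 j = β.1 i 0 * α.1 0 j + β.1 i 1 * α.1 1 j :=
    fun i j => by rw [← tNC_entry, ← tNC_entry, hδ]
  obtain ⟨hD, k | k⟩ := tNC_real d1 d2 htr hα (by linear_combination c 0 0)
    (by linear_combination c 0 1) (by linear_combination c 1 0)
  · have e : δ = α := by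
      ext i j
      fin_cases i <;> fin_cases j
      · exact k.1
      · exact k.2.1
      · exact k.2.2.1
      · exact k.2.2.2
    rw [← hδ, e]
  · exfalso
    obtain ⟨k1, k2, k3, k4⟩ := k
    have c00 := c' 0 0
    have c01 := c' 0 1
    have c10 := c' 1 0
    have c11 := c' 1 1
    rw [k1, k2] at c00 c01
    rw [k3, k4] at c10 c11
    have e : (β.1 0 0 + β.1 1 1) * ((α.1 0 0 - α.1 1 1) ^ 2 + 4 * α.1 0 1 * α.1 1 0) = 0 := by
      linear_combination (α.1 0 0 - α.1 1 1) * (c11 - c00) - 4 * α.1 1 0 * c01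
    have e0 := (mul_eq_zero.1 e).resolve_right hD.ne'
    rcases hβ with rfl | hβ
    · simp at e0
    · rw [Matrix.trace_fin_two, e0, abs_zero] at hβ
      linarith

end Pool.Agent.MP_4f0ed6_gt.U

end

section

set_option autoImplicit false
set_option linter.dupNamespace false

open UpperHalfPlane MeasureTheory Set Metric Filter Topology
open scoped MatrixGroups ContDiff InnerProductSpace ENNReal

namespace Pool.Agent.MP_4f0ed6_gt.U

theorem TPB_int {g : ℂ → ℝ} (hg : Continuous g) : IntegrableOn g (ball (0 : ℂ) 1) :=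
  (hg.continuousOn.integrableOn_compact (isCompact_closedBall 0 1)).mono_set ball_subset_closedBall

theorem TPB_double {g : ℂ → ℝ} (hg : Continuous g) :
    ∫ x in ball (0 : ℂ) 1, ∫ y in ball (0 : ℂ) 1, (g x - g y) ^ 2 =
      2 * Real.pi * (∫ y in ball (0 : ℂ) 1, g y ^ 2) - 2 * (∫ y in ball (0 : ℂ) 1, g y) ^ 2 := by
  have i1 := TPB_int hg
  have i2 : IntegrableOn (fun y => g y ^ 2) (ball (0 : ℂ) 1) := TPB_int (hg.pow 2)
  have hv : (volume.restrict (ball (0 : ℂ) 1)).real univ = Real.pi := by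
    rw [measureReal_restrict_apply_univ, real_ball 0 zero_le_one]
    ring
  have i0 : ∀ a : ℝ, IntegrableOn (fun _ : ℂ => a) (ball (0 : ℂ) 1) := fun a =>
    TPB_int continuous_const
  have key : ∀ a b c : ℝ, ∫ y in ball (0 : ℂ) 1, (a + b * g y + c * g y ^ 2) =
      Real.pi * a + b * (∫ y in ball (0 : ℂ) 1, g y) + c * ∫ y in ball (0 : ℂ) 1, g y ^ 2 := by
    intro a b c
    have j1 : Integrable (fun y => a + b * g y) (volume.restrict (ball (0 : ℂ) 1)) :=
      (i0 a).add (i1.const_mul b)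
    rw [integral_add j1 (i2.const_mul c), integral_add (i0 a) (i1.const_mul b), integral_const_mul,
      integral_const_mul, integral_const, hv, smul_eq_mul]
  have e1 : ∀ x, ∫ y in ball (0 : ℂ) 1, (g x - g y) ^ 2 = (∫ y in ball (0 : ℂ) 1, g y ^ 2) +
      (-2 * ∫ y in ball (0 : ℂ) 1, g y) * g x + Real.pi * g x ^ 2 := by
    intro x
    have e : ∀ y, (g x - g y) ^ 2 = g x ^ 2 + (-2 * g x) * g y + 1 * g y ^ 2 := fun y => by ring
    simp only [e]
    rw [key]
    ring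
  simp only [e1]
  rw [key]
  ring

theorem stPB (hPoin : StPoin) : StPB := by
  obtain ⟨C, hC, hP⟩ := hPoin
  refine ⟨C + 30, by linarith, fun u z ρ hu h0 h1 => ?_⟩
  obtain ⟨z', s, s0, s1, s2, hb⟩ := ball_eq_Dk z h0 h1
  have s3 : s ≤ 1 / 40 := s1.trans h1
  have t20 : (1 : ℝ) ≤ 20 := by norm_num
  obtain ⟨g, hg, hge, -⟩ := hu.exists_glob (z := z') s0 s3
  have hge' : ∀ y ∈ ball (0 : ℂ) 1, g =ᶠ[𝓝 y] fun y => u (ch z' s y) := fun y hy =>
    hge y ((mem_ball_zero_iff.1 hy).trans (by norm_num))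
  have hval : ∀ y ∈ ball (0 : ℂ) 1, u (ch z' s y) = g y := fun y hy => (hge' y hy).self_of_nhds.symm
  rw [hb]
  have a1 := integral_Dk_le (z := z') (f := fun w => u w ^ 2) s0 s3 t20 (hu.continuous.pow 2)
    fun w => sq_nonneg _
  have a2 := le_integral_Dk (z := z') (f := fun w => |u w|) s0 s3 t20 hu.continuous.abs
    fun w => abs_nonneg _
  have a3 := integral_en_Dk (z := z') s0 s3 t20 hu hu
  have b1 : ∫ y in ball (0 : ℂ) 1, u (ch z' s y) ^ 2 = ∫ y in ball (0 : ℂ) 1, g y ^ 2 :=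
    setIntegral_congr_fun measurableSet_ball fun y hy => by simp only [hval y hy]
  have b2 : ∫ y in ball (0 : ℂ) 1, |u (ch z' s y)| = ∫ y in ball (0 : ℂ) 1, |g y| :=
    setIntegral_congr_fun measurableSet_ball fun y hy => by simp only [hval y hy]
  have b3 : ∫ w in Dk z' s 1, en u u w = ∫ y in ball (0 : ℂ) 1, (dx g y ^ 2 + dy g y ^ 2) := by
    rw [a3]
    refine setIntegral_congr_fun measurableSet_ball fun y hy => ?_
    simp only [← dx_congr (hge' y hy), ← dy_congr (hge' y hy), sq]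
  have a4 := hP g 0 1 hg one_pos
  rw [TPB_double hg.continuous, ← b3] at a4
  rw [b1] at a1
  rw [b2] at a2
  have a5 : |∫ y in ball (0 : ℂ) 1, g y| ≤ ∫ y in ball (0 : ℂ) 1, |g y| := abs_integral_le_integral_abs
  have a6 : 0 ≤ ∫ w in Dk z' s 1, en u u w := integral_nonneg fun w => en_nn u w
  have a7 : 0 ≤ ∫ y in ball (0 : ℂ) 1, g y ^ 2 := integral_nonneg fun y => sq_nonneg _
  generalize ∫ w in Dk z' s 1, en u u w = E at a4 a6 ⊢
  generalize ∫ w in Dk z' s 1, |u w| = I at a2 ⊢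
  generalize ∫ y in ball (0 : ℂ) 1, g y ^ 2 = A at a1 a4 a7
  generalize ∫ y in ball (0 : ℂ) 1, |g y| = J at a2 a5
  generalize ∫ y in ball (0 : ℂ) 1, g y = m at a4 a5
  refine a1.trans ?_
  have c1 : 6 * A ≤ C * E + 2 * m ^ 2 := by nlinarith [Real.pi_gt_three]
  have c2 : (4 * s ^ 2 / 9 * |m|) ^ 2 ≤ I ^ 2 :=
    pow_le_pow_left₀ (by positivity)
      ((mul_le_mul_of_nonneg_left a5 (by positivity)).trans a2) 2
  rw [mul_pow, sq_abs] at c2
  have c3 : s ^ 2 ≤ ρ ^ 2 := pow_le_pow_left₀ s0.le s1 2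
  have c4 : ρ ^ 2 ≤ 4 * s ^ 2 := by nlinarith
  have c5 : 4 / 3 * s ^ 2 * m ^ 2 ≤ (C + 30) / ρ ^ 2 * I ^ 2 := by
    rw [div_mul_eq_mul_div (C + 30), le_div_iff₀ (by positivity)]
    have d1 : 4 / 3 * s ^ 2 * m ^ 2 * ρ ^ 2 ≤ 4 / 3 * s ^ 2 * m ^ 2 * (4 * s ^ 2) :=
      mul_le_mul_of_nonneg_left c4 (by positivity)
    have d2 : 0 ≤ C * I ^ 2 := by positivity
    nlinarith [sq_nonneg I]
  have c6 : s ^ 2 * (C * E) ≤ ρ ^ 2 * (C * E) := mul_le_mul_of_nonneg_right c3 (by positivity)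
  have c7 : s ^ 2 * (6 * A) ≤ s ^ 2 * (C * E + 2 * m ^ 2) :=
    mul_le_mul_of_nonneg_left c1 (by positivity)
  have c8 : 0 ≤ ρ ^ 2 * E := by positivity
  have c9 : 0 ≤ ρ ^ 2 * (C * E) := by positivity
  nlinarith

end Pool.Agent.MP_4f0ed6_gt.U

end

section

set_option autoImplicit false
set_option linter.dupNamespace false
set_option linter.unusedVariables false

open UpperHalfPlane MeasureTheory Set Metric Filter Topology
open scoped MatrixGroups ContDiff InnerProductSpace ENNReal Classical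

namespace Pool.Agent.MP_4f0ed6_gt.U

theorem TCc_lift {Γ : Subgroup SL(2, ℝ)} {τ : Tb} {e : ℝ} {w : ℍ} (h1 : w ∉ τ.T Γ e)
    (h2 : (ball w (e / 10) ∩ τ.T Γ e).Nonempty) :
    ∃ β ∈ Γ, e ≤ τ.dp (β • w) ∧ τ.dp (β • w) ≤ 6 * e / 5 := by
  obtain ⟨x, hx, β, hβ, h3⟩ := h2
  refine ⟨β, hβ, not_lt.1 fun h => h1 ⟨β, hβ, h⟩, ?_⟩
  have h4 : dist (τ.γ • β • x) (β • x) < e := h3
  have h5 := dist_triangle4 (τ.γ • β • w) (τ.γ • β • x) (β • x) (β • w)
  rw [dist_smul, dist_smul, dist_smul, dist_comm w x] at h5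
  have h6 : dist x w < e / 10 := hx
  unfold Tb.dp
  linarith

theorem stCc (hMk : StMk) (hPack : StPack) (hCnt : StCnt) (hIo : StIo) (hTube : StTube)
    (hTl : StTl) (hBand : StBand) (hNF : StNF) : StCc := by
  intro e h0 h1
  obtain ⟨Δ0, hMk⟩ := hMk
  obtain ⟨M0, hM0, hPack⟩ := hPack
  obtain ⟨M1, hM1, hCnt⟩ := hCnt
  obtain ⟨L, hL⟩ := exists_nat_ge (M0 * (1 + 3 / (e / 800)) ^ 2)
  have ha : 0 < e / 800 := by positivity
  refine ⟨Δ0 + (L + L + 1), M1 / (e / 800) ^ 2, by positivity, fun X hX hMg hP hT => ?_⟩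
  obtain ⟨m, τ, t1, t2, t3, t4⟩ := hTl _ _ hX.cl e h0 hMg
  obtain ⟨i1, i2, i3, i4, -, -, i7⟩ := hIo _ _ hX.cl e h0
  have out : ∀ w, (∀ t, w ∉ (τ t).T X.Γ e) → io X.Γ e w = e := fun w hw =>
    le_antisymm (i2 w) (not_lt.1 fun h => ((t4 w).1 h).elim hw)
  have e40 : ∀ x : ℝ, 40 * (x / 400) = x / 10 := fun x => by ring
  have sep : ∀ A : Finset ℍ, Sep X.Γ (fun w => io X.Γ e w / 400) A →
      (∀ w ∈ A, ∀ t, w ∉ (τ t).T X.Γ e) →
      ∀ x ∈ A, ∀ y ∈ A, x ≠ y → ∀ γ ∈ X.Γ, e / 800 ≤ dist (γ • x) y := by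
    intro A hA hA' x hx y hy hxy γ hγ
    have h := hA x hx y hy hxy γ hγ
    simp only [out x (hA' x hx), out y (hA' y hy), min_self] at h
    linarith
  obtain ⟨n, K, hK⟩ := hMk X hX (fun w => io X.Γ e w / 400) m (fun t => (τ t).T X.Γ e)
    (L + L + 1) (M1 / (e / 800) ^ 2 * (1 + volume.real X.F))
    (fun γ hγ z => by simp only [i4 γ hγ z]) (fun w => div_pos (i1 w) (by norm_num))
    (fun w => by linarith [i2 w])
    (fun w w' => by
      rw [← sub_div, abs_div, abs_of_pos (by norm_num : (0 : ℝ) < 400)]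
      linarith [i3 w w'])
    (fun t => isOpen_orb (isOpen_lt (hNF _ (t1 t).nf).2.2.1 continuous_const))
    (fun t => invS_orb _ _) t3 (fun t => hT _ (t1 t))
    (fun w hw => by
      rw [e40]
      refine ⟨i7 w _ (by linarith [i1 w]), hP w, le_trans ?_ (Nat.le_add_left 1 _)⟩
      rw [out w hw]
      refine (Set.ncard_le_one (toFinite _)).2 fun a ha b hb => by_contra fun hab => ?_
      exact t2 a b hab ((hTube _ _ hX.cl e h0 hMg).2.2.2.2 _ _ (t1 a) (t1 b) w ha hb))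
    (fun A hA hA' => by
      have h := hCnt _ _ hX.cl (e / 800) A ha (by linarith)
        (fun x hx => i7 x _ (by rw [out x (hA' x hx)]; linarith)) (sep A hA hA')
      rw [div_mul_eq_mul_div, le_div_iff₀ (by positivity)]
      linarith)
    (fun t A hA hA' hA2 => by
      choose! β b1 b2 b3 using fun w (hw : w ∈ A) => TCc_lift (hA' w hw t) (by
        have h := hA2 w hw
        rwa [e40, out w (hA' w hw)] at h)
      have key : ∀ B ⊆ A, (∀ x ∈ B, ∀ y ∈ B, 0 ≤ (τ t).sg (β x • x) * (τ t).sg (β y • y)) →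
          B.card ≤ L := by
        intro B hB hs
        rcases B.eq_empty_or_nonempty with rfl | ⟨p, hp⟩
        · exact Nat.zero_le _
        refine Nat.cast_le.1 ((hPack X.Γ (β p • p) 3 (e / 800) B (by norm_num) (by norm_num) ha
          (by linarith) (fun x hx => ?_)
          fun x hx y hy => sep A hA hA' x (hB hx) y (hB hy)).trans hL)
        obtain ⟨k, hk⟩ := hBand _ (t1 t).nf e h0 h1 _ _ (b2 x (hB hx)) (b3 x (hB hx))
          (b2 p (hB hp)) (b3 p (hB hp)) (hs x hx p hp)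
        exact ⟨(τ t).γ ^ k * β x, X.Γ.mul_mem (X.Γ.zpow_mem (t1 t).mem k) (b1 x (hB hx)),
          by rw [mul_smul]; exact hk⟩
      rw [← Finset.card_filter_add_card_filter_not (s := A) fun x => 0 ≤ (τ t).sg (β x • x)]
      refine (Nat.add_le_add (key _ (Finset.filter_subset _ _) fun x hx y hy => ?_)
        (key _ (Finset.filter_subset _ _) fun x hx y hy => ?_)).trans (Nat.le_succ _)
      · exact mul_nonneg (Finset.mem_filter.1 hx).2 (Finset.mem_filter.1 hy).2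
      · exact mul_nonneg_of_nonpos_of_nonpos (not_le.1 (Finset.mem_filter.1 hx).2).le
          (not_le.1 (Finset.mem_filter.1 hy).2).le)
  exact ⟨n, m, K, hK⟩

end Pool.Agent.MP_4f0ed6_gt.U

end

section

set_option autoImplicit false
set_option linter.dupNamespace false

open UpperHalfPlane MeasureTheory Set Metric
open scoped MatrixGroups

namespace Pool.Agent.MP_4f0ed6_gt.U

theorem tIms0_en {χ u : ℍ → ℝ} (hχ : Sm χ) (hu : Sm u) (w : ℍ) :
    en (fun w => χ w * u w) (fun w => χ w * u w) w =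
      χ w ^ 2 * en u u w + 2 * u w * (χ w * en χ u w) + u w * u w * en χ χ w := by
  rw [en_mul hχ hu, en_comm u, en_comm χ, en_mul hχ hu, en_mul hχ hu, en_comm u χ]
  ring

theorem tIms0_sum {L : Type} [Fintype L] {χ : L → ℍ → ℝ} {u : ℍ → ℝ} (hχ : ∀ l, Sm (χ l))
    (h1 : ∀ w, ∑ l, χ l w ^ 2 = 1) (hu : Sm u) (w : ℍ) :
    ∑ l, en (fun w => χ l w * u w) (fun w => χ l w * u w) w =
      en u u w + u w * u w * ∑ l, en (χ l) (χ l) w := by
  have e : ∑ l, χ l w * en (χ l) u w = 0 := by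
    have h2 := en_sum (s := Finset.univ) (f := fun l w => χ l w * χ l w)
      (fun l _ => (hχ l).mul (hχ l)) u w
    have h3 : (fun w => ∑ l, χ l w * χ l w) = fun _ => (1 : ℝ) :=
      funext fun w => by simpa only [sq] using h1 w
    rw [h3, en_const] at h2
    simp only [en_mul (hχ _) (hχ _), Finset.sum_add_distrib] at h2
    linarith
  simp only [tIms0_en (hχ _) hu, Finset.sum_add_distrib, ← Finset.sum_mul, ← Finset.mul_sum, h1, e]
  ring

theorem tIms0_cell {X : Sf} {n m Δ : ℕ} {K : Cov n m} (hX : X.Ok) (hK : K.Ok X Δ) {u : ℍ → ℝ}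
    (hu : u ∈ SI X.Γ) (c : Fin n) :
    ∫ w in X.F, (orb X.Γ (K.D c 2)).indicator (fun w => 1 / K.s c ^ 2 * (u w * u w)) w ≤
      4 * ∫ y in ball (0 : ℂ) 3, u (K.pt c y) * u (K.pt c y) := by
  have hu1 : Sm u := hu.1
  have hu2 : Inv X.Γ u := hu.2
  have cu : Continuous fun w => u w * u w := hu1.continuous.mul hu1.continuous
  have h0 := hK.s0 c
  have h1 := hK.s1 c
  have ho : IsOpen (K.D c 2) := isOpen_Dk _ _ _
  rw [setIntegral_indicator (isOpen_orb ho).measurableSet, integral_const_mul,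
    (hX.cl.int_emb ho ((hK.emb c).mono (Dk_mono h0 (by norm_num))) cu
      fun γ hγ z => by simp only [hu2 γ hγ z]).2]
  have h2 := integral_Dk_le (z := K.z c) (t := 2) h0 h1 (by norm_num) cu
    fun w => mul_self_nonneg _
  have h3 : ∫ y in ball (0 : ℂ) 2, u (K.pt c y) * u (K.pt c y) ≤
      ∫ y in ball (0 : ℂ) 3, u (K.pt c y) * u (K.pt c y) :=
    setIntegral_mono_set (integrableOn_ch (z := K.z c) (t := 3) h0 h1 (by norm_num) cu)
      (Filter.Eventually.of_forall fun y => mul_self_nonneg _)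
      (ball_subset_ball (by norm_num)).eventuallyLE
  calc _ ≤ 1 / K.s c ^ 2 * (4 * K.s c ^ 2 *
        ∫ y in ball (0 : ℂ) 2, u (K.pt c y) * u (K.pt c y)) :=
        mul_le_mul_of_nonneg_left h2 (by positivity)
    _ = 4 * ∫ y in ball (0 : ℂ) 2, u (K.pt c y) * u (K.pt c y) := by field_simp
    _ ≤ _ := by linarith

theorem stIms0 (hPart : StPart) : StIms0 := by
  intro Δ
  obtain ⟨C, hC, hP⟩ := hPart Δ
  refine ⟨C * 4, by positivity, fun X n m K hX hK cl hcl u hu => ?_⟩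
  obtain ⟨χ, c1, c2, c3, c4⟩ := hP X n m K hX hK (Nd n m) cl
  have hu1 : Sm u := hu.1
  have cu := hu1.continuous
  have cV : Continuous X.V := Sm.continuous hX.Vm.1
  have s1 : ∀ l, Sm (χ l) := fun l => (c1 l).1
  have s2 : ∀ l, Sm fun w => χ l w * u w := fun l => (s1 l).mul hu1
  have q0 : 0 ≤ ∑ l, X.Q (fun w => χ l w * u w) (fun w => χ l w * u w) :=
    Finset.sum_nonneg fun l _ =>
      hcl l _ (SI_mul (c1 l) hu) (tsupport_mul_subset_left.trans (c3 l))
  have cE : Continuous fun w => u w * u w * ∑ l, en (χ l) (χ l) w :=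
    (cu.mul cu).mul (continuous_finsetSum _ fun l _ => continuous_en (s1 l) (s1 l))
  have q1 : ∑ l, X.Q (fun w => χ l w * u w) (fun w => χ l w * u w) =
      X.Q u u + ∫ w in X.F, u w * u w * ∑ l, en (χ l) (χ l) w := by
    have j1 : ∀ v : ℍ → ℝ, Sm v → IntegrableOn (fun z => en v v z - X.V z * (v z * v z)) X.F :=
      fun v hv => hX.cl.integrableOn
        ((continuous_en hv hv).sub (cV.mul (hv.continuous.mul hv.continuous)))
    unfold Sf.Q
    rw [← integral_finsetSum _ fun l _ => j1 _ (s2 l),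
      ← integral_add (j1 u hu1) (hX.cl.integrableOn cE)]
    refine integral_congr_ae (Filter.Eventually.of_forall fun w => ?_)
    have e : ∑ l, X.V w * (χ l w * u w * (χ l w * u w)) = X.V w * (u w * u w) := by
      rw [← mul_one (X.V w * (u w * u w)), ← c2 w, Finset.mul_sum]
      exact Finset.sum_congr rfl fun l _ => by ring
    simp only [Finset.sum_sub_distrib, tIms0_sum s1 c2 hu1, e]
    ring
  have i1 : ∀ c, IntegrableOn ((orb X.Γ (K.D c 2)).indicator
      fun w => 1 / K.s c ^ 2 * (u w * u w)) X.F := fun c =>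
    (hX.cl.integrableOn (continuous_const.mul (cu.mul cu))).indicator
      (isOpen_orb (isOpen_Dk _ _ _)).measurableSet
  have q2 : ∫ w in X.F, u w * u w * ∑ l, en (χ l) (χ l) w ≤
      ∫ w in X.F, C * ∑ c ∈ bdc (K.Adj X.Γ) cl, (orb X.Γ (K.D c 2)).indicator
        (fun w => 1 / K.s c ^ 2 * (u w * u w)) w := by
    refine integral_mono (hX.cl.integrableOn cE)
      ((integrable_finsetSum _ fun c _ => i1 c).const_mul C) fun w => ?_
    refine (mul_le_mul_of_nonneg_left (c4 w) (mul_self_nonneg _)).trans (le_of_eq ?_)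
    simp only [Cov.wt, Finset.mul_sum]
    refine Finset.sum_congr rfl fun c _ => ?_
    by_cases h : w ∈ orb X.Γ (K.D c 2)
    · rw [indicator_of_mem h, indicator_of_mem h]
      ring
    · rw [indicator_of_notMem h, indicator_of_notMem h]
      ring
  rw [integral_const_mul, integral_finsetSum _ fun c _ => i1 c] at q2
  have q3 := mul_le_mul_of_nonneg_left (Finset.sum_le_sum
    fun c (_ : c ∈ bdc (K.Adj X.Γ) cl) => tIms0_cell hX hK hu c) hC.le
  rw [← Finset.mul_sum, ← mul_assoc] at q3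
  linarith

end Pool.Agent.MP_4f0ed6_gt.U

end

section

set_option autoImplicit false
set_option linter.dupNamespace false

open MeasureTheory Set Metric Filter Topology
open scoped InnerProductSpace ENNReal Classical

namespace Pool.Agent.MP_4f0ed6_gt.U

theorem TAv_avg {Ξ ι : Type} [Fintype Ξ] [Nonempty Ξ] (C : Finset ι) (x a b e q n z : ℝ)
    (s t : Ξ → ι → ℝ) (y : Ξ → ℝ) (hq : 0 ≤ q) (hab : 0 ≤ a + b) (hn : (C.card : ℝ) ≤ n)
    (hx : ∀ ξ, x ≤ q * ∑ c ∈ C, (s ξ c + t ξ c) + (z + y ξ))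
    (hs : ∀ c ∈ C, ∑ ξ, s ξ c ≤ (Fintype.card Ξ : ℝ) * a) (ht : ∀ c ∈ C, ∀ ξ, t ξ c ≤ b)
    (hy : ∑ ξ, y ξ = (Fintype.card Ξ : ℝ) * (n * e)) :
    x ≤ z + n * (e + q * (a + b)) := by
  have hc : (0 : ℝ) < Fintype.card Ξ := by exact_mod_cast Fintype.card_pos
  have h1 : ∑ ξ, ∑ c ∈ C, (s ξ c + t ξ c) ≤ (Fintype.card Ξ : ℝ) * (n * (a + b)) := by
    rw [Finset.sum_comm]
    calc ∑ c ∈ C, ∑ ξ, (s ξ c + t ξ c) ≤ ∑ _c ∈ C, (Fintype.card Ξ : ℝ) * (a + b) := by
          refine Finset.sum_le_sum fun c hc' => ?_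
          have h2 : ∑ ξ, t ξ c ≤ ∑ _ξ : Ξ, b := Finset.sum_le_sum fun ξ _ => ht c hc' ξ
          rw [Finset.sum_const, Finset.card_univ, nsmul_eq_mul] at h2
          rw [Finset.sum_add_distrib, mul_add]
          exact add_le_add (hs c hc') h2
      _ = (Fintype.card Ξ : ℝ) * (C.card * (a + b)) := by
          rw [Finset.sum_const, nsmul_eq_mul]; ring
      _ ≤ _ := by gcongr
  have h3 : ∑ _ξ : Ξ, x ≤ ∑ ξ, (q * ∑ c ∈ C, (s ξ c + t ξ c) + (z + y ξ)) :=
    Finset.sum_le_sum fun ξ _ => hx ξ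
  rw [Finset.sum_add_distrib, Finset.sum_add_distrib, ← Finset.mul_sum, hy, Finset.sum_const,
    Finset.sum_const, Finset.card_univ, nsmul_eq_mul, nsmul_eq_mul] at h3
  have h4 := mul_le_mul_of_nonneg_left h1 hq
  refine le_of_mul_le_mul_left ?_ hc
  nlinarith

theorem stAv (hGOOD : StGOOD) (hSub : StSub) (hApp1 : StApp1) (hTr : StTr) (hSI : StSI)
    (hLI : StLI) : StAv := by
  intro k κ h1 h2
  by_cases hk : k.Ok
  swap
  · exact ⟨0, fun M N j ℓ => ⟨0, fun n m H _ _ _ P hA => absurd hA.ok hk⟩⟩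
  have hκ : k.κ0 + 1 ≤ κ := by have := hk.h2; linarith
  obtain ⟨k0, hk0⟩ := hSub k κ hκ
  refine ⟨k0, fun M N j ℓ => ?_⟩
  obtain ⟨R, hR1, hR2, hR3⟩ : ∃ R : ℕ, 2 * ((6 * j + 5) * ℓ + 4 * N) + 3 ≤ R ∧
      (2 * (6 * j + 5) + 1) * (2 * (2 * N) + 3) ≤ R ∧ 2 * (2 * N) + 3 ≤ R :=
    ⟨_, le_add_right (le_add_right le_rfl), le_add_right (le_add_left le_rfl), le_add_left le_rfl⟩
  refine ⟨k0 * ((k.Δ : ℝ) ^ (2 * R + 1) + 1), fun n m H _ _ _ P hA => ?_⟩
  obtain ⟨Z0, hZ, hG⟩ := hGOOD k n m H P hA R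
  have hl : (pat (2 * j + 1)).length = 6 * j + 5 := by rw [pat_length]; ring
  have hc : (pat (2 * j + 1)).count true = 2 * j + 2 := pat_count _
  choose! gS hS1 hS2 using fun c (hc : c ∈ Z0ᶜ) =>
    hSI k n m H P hA κ Z0 R N M ℓ (pat (2 * j + 1)) c hG (hl ▸ hR1) hκ hc
  choose! gL hL1 hL2 using fun c (hc : c ∈ Z0ᶜ) =>
    hLI k n m H P hA κ Z0 R (2 * N) ℓ (pat (2 * j + 1)) c hG (hl ▸ hR2) h1 h2 hc
  rw [hc] at hS2
  have hZ' : (Z0.card : ℝ) ≤ (k.Δ : ℝ) ^ (2 * R + 1) + 1 := by exact_mod_cast hZ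
  have hth : 0 ≤ k.th (κ + 2) M N := by
    have := hk.h3
    unfold Cst.th; positivity
  have htl : 0 ≤ k.tl (2 * N) (6 * j + 5) ℓ := by unfold Cst.tl; positivity
  have hev : 0 ≤ (1 - ((k.Δ : ℝ) ^ (2 * N))⁻¹) ^ (2 * j + 2) :=
    Even.pow_nonneg ⟨j + 1, by ring⟩ _
  refine TAv_avg (Ξ := Fin n → Fin (M + 1)) Z0ᶜ _ _ _ _ _ _ _ _
    (fun ξ c => sumS (pat (2 * j + 1)).length fun σ => if Sh (P.rel Z0 ℓ) c σ then 0 else
      ⟪gL c σ, (P.bz k κ Z0 (2 * N) (Zx ξ)).XS (pat (2 * j + 1)) σ c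
        ((P.bz k κ Z0 (2 * N) (Zx ξ)).B (gL c σ))⟫_ℝ)
    (fun ξ => k0 * ((Zx ξ).card : ℝ)) (sq_nonneg _) (by positivity) ?_ (fun ξ => ?_) hS2
    (fun c hc ξ => hl ▸ hL2 c hc (Zx ξ)) ?_
  · exact_mod_cast (Finset.card_le_univ _).trans (Fintype.card_fin n).le
  · obtain ⟨V, hV, hV1, hV2⟩ := hk0 n m H P hA Z0 (Zx ξ) R (2 * N) hG hR3
    have h := hTr n _ (hApp1 k n m H P hA κ Z0 R (2 * N) hG hR3 hκ (Zx ξ)).1 V hV2 (k.CR (κ + 2)) j
      (fun c σ => if Sh (P.rel Z0 ℓ) c σ then gS c else gL c σ) (hk.h5 _).le fun c hc σ => by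
        show DR _ _ _ (if _ then _ else _)
        split_ifs
        exacts [hS1 c hc _, hL1 c hc _ _]
    have h3 : (Module.finrank ℝ P.Kr : ℝ) ≤
        Module.finrank ℝ V + k0 * (Z0.card + (Zx ξ).card) := by exact_mod_cast hV1
    have h4 : (k0 : ℝ) * Z0.card ≤ k0 * ((k.Δ : ℝ) ^ (2 * R + 1) + 1) := by gcongr
    refine h3.trans (add_le_add (h.trans (le_of_eq ?_)) (by linarith))
    congr 1
    refine Finset.sum_congr rfl fun c _ => ?_
    rw [← sumS_add]
    refine sumS_congr _ fun σ _ => ?_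
    split_ifs <;> simp
  · have h := sum_card_Zx n M
    have hM : (M : ℝ) + 1 ≠ 0 := by positivity
    rw [← Finset.mul_sum]
    field_simp
    linear_combination (k0 : ℝ) * h

end Pool.Agent.MP_4f0ed6_gt.U

end

section

set_option autoImplicit false
set_option linter.dupNamespace false

open UpperHalfPlane MeasureTheory Set Metric Filter Topology
open scoped MatrixGroups ContDiff InnerProductSpace ENNReal Classical

namespace Pool.Agent.MP_4f0ed6_gt.U

theorem TGreen_open : IsOpen {y : ℂ | 0 < y.im} := isOpen_lt continuous_const Complex.continuous_im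

/-- extension by zero of a product with a compactly supported function -/
theorem TGreen_ext {a : ℂ → ℝ} (ha : ∀ w : ℍ, ContDiffAt ℝ ∞ a w) {φ : ℍ → ℝ} (hφ : Sm φ)
    (hc : HasCompactSupport φ) : ∃ E : ℂ → ℝ, ContDiff ℝ ∞ E ∧ HasCompactSupport E ∧
      tsupport E ⊆ {y : ℂ | 0 < y.im} ∧ ∀ w : ℍ, E =ᶠ[𝓝 (w : ℂ)] fun y => a y * lift φ y := by
  have hK : IsCompact (((↑) : ℍ → ℂ) '' tsupport φ) := hc.isCompact.image continuous_coe
  have h0 : ∀ y, y ∉ ((↑) : ℍ → ℂ) '' tsupport φ →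
      (if 0 < y.im then a y * lift φ y else 0) = 0 := by
    intro y hy
    split_ifs with h
    · have e : lift φ y = φ ⟨y, h⟩ := lift_coe φ ⟨y, h⟩
      rw [e, image_eq_zero_of_notMem_tsupport fun h1 => hy ⟨_, h1, rfl⟩, mul_zero]
    · rfl
  have h1 : ∀ w : ℍ, (fun y : ℂ => if 0 < y.im then a y * lift φ y else 0) =ᶠ[𝓝 (w : ℂ)]
      fun y => a y * lift φ y := by
    intro w
    filter_upwards [TGreen_open.mem_nhds w.im_pos] with y hy
    exact if_pos hy
  have h2 : tsupport (fun y : ℂ => if 0 < y.im then a y * lift φ y else 0) ⊆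
      ((↑) : ℍ → ℂ) '' tsupport φ := by
    refine closure_minimal (fun y hy => ?_) hK.isClosed
    by_contra h
    exact hy (h0 y h)
  refine ⟨fun y => if 0 < y.im then a y * lift φ y else 0, ?_, HasCompactSupport.intro hK h0,
    h2.trans ?_, h1⟩
  · refine contDiff_iff_contDiffAt.2 fun y => ?_
    by_cases h : y ∈ ((↑) : ℍ → ℂ) '' tsupport φ
    · obtain ⟨w, -, rfl⟩ := h
      exact ((ha w).mul (hφ.contDiffAt w)).congr_of_eventuallyEq (h1 w)
    · refine (contDiffAt_const (c := (0 : ℝ))).congr_of_eventuallyEq ?_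
      filter_upwards [hK.isClosed.isOpen_compl.mem_nhds h] with x hx
      exact h0 x hx
  · rintro _ ⟨w, -, rfl⟩
    exact w.im_pos

theorem TGreen_div {E : ℂ → ℝ} (hE : ContDiff ℝ ∞ E) (hc : HasCompactSupport E)
    (hs : tsupport E ⊆ {y : ℂ | 0 < y.im}) (e : ℂ) :
    IntegrableOn (fun y => fderiv ℝ E y e) {y : ℂ | 0 < y.im} ∧
      ∫ y in {y : ℂ | 0 < y.im}, fderiv ℝ E y e = 0 := by
  refine ⟨((BL1_cd hE e).continuous.integrable_of_hasCompactSupport
    (hc.fderiv_apply ℝ e)).integrableOn, ?_⟩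
  rw [setIntegral_eq_integral_of_forall_compl_eq_zero fun y hy => by
    rw [fderiv_of_notMem_tsupport ℝ fun h => hy (hs h)]
    rfl]
  have h := BL1_ibp (u := fun _ => (1 : ℝ)) contDiff_const hE hc e
  simpa using h.symm

theorem TGreen_d {f : ℍ → ℝ} (hf : Sm f) (e : ℂ) (w : ℍ) :
    ContDiffAt ℝ ∞ (fun y => fderiv ℝ (lift f) y e) w :=
  ((hf.contDiffAt w).fderiv_right (m := ∞) (by simp)).clm_apply contDiffAt_const

theorem TGreen_zero {f φ : ℍ → ℝ} (hf : Sm f) (hφ : Sm φ) (hc : HasCompactSupport φ) :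
    ∫ w, (en f φ w - lap f w * φ w) = 0 := by
  obtain ⟨E, a1, a2, a3, a4⟩ := TGreen_ext (TGreen_d hf 1) hφ hc
  obtain ⟨E', b1, b2, b3, b4⟩ := TGreen_ext (TGreen_d hf Complex.I) hφ hc
  obtain ⟨c1, c2⟩ := TGreen_div a1 a2 a3 1
  obtain ⟨d1, d2⟩ := TGreen_div b1 b2 b3 Complex.I
  have key := integral_add c1 d1
  rw [c2, d2, add_zero] at key
  rw [integral_coe]
  refine Eq.trans (setIntegral_congr_fun TGreen_open.measurableSet fun y hy => ?_) key
  obtain ⟨w, rfl⟩ : ∃ w : ℍ, (w : ℂ) = y := ⟨⟨y, hy⟩, rfl⟩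
  have hd : DifferentiableAt ℝ (lift φ) w := (hφ.contDiffAt w).differentiableAt (by simp)
  have e1 : dx E w = dx (dx (lift f)) w * lift φ w + dx (lift f) w * dx (lift φ) w :=
    (dx_congr (a4 w)).trans (dx_mul ((TGreen_d hf 1 w).differentiableAt (by simp)) hd)
  have e2 : dy E' w = dy (dy (lift f)) w * lift φ w + dy (lift f) w * dy (lift φ) w :=
    (dy_congr (b4 w)).trans (dy_mul ((TGreen_d hf Complex.I w).differentiableAt (by simp)) hd)
  show lift (fun w => en f φ w - lap f w * φ w) w / (w : ℂ).im ^ 2 = dx E w + dy E' w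
  rw [e1, e2, lift_coe, lift_coe, en_eq, lap_eq hf, lp, coe_im,
    div_eq_iff (pow_ne_zero 2 w.im_pos.ne')]
  ring

theorem TGreen_int {h φ : ℍ → ℝ} (hh : Continuous h) (hc : HasCompactSupport φ)
    (h0 : ∀ w, w ∉ tsupport φ → h w = 0) : Integrable h :=
  (integrableOn_cpt hc.isCompact hh).integrable_of_forall_notMem_eq_zero h0

theorem TGreen_cpt {f g φ : ℍ → ℝ} (hf : Sm f) (hg : Continuous g) (e : ∀ z, lap f z = g z)
    (hφ : Sm φ) (hc : HasCompactSupport φ) : ∫ w, en f φ w = ∫ w, g w * φ w := by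
  have h := TGreen_zero hf hφ hc
  simp only [e] at h
  rw [integral_sub (TGreen_int (continuous_en hf hφ) hc fun w hw => by
      rw [en_comm, en_eq_zero hw])
    (TGreen_int (h := fun w => g w * φ w) (hg.mul hφ.continuous) hc fun w hw => by
      rw [image_eq_zero_of_notMem_tsupport hw, mul_zero])] at h
  exact sub_eq_zero.1 h

theorem TGreen_eta {F : Set ℍ} (hF : IsCompact F) : ∃ η : ℍ → ℝ, Sm η ∧ HasCompactSupport η ∧
    (∀ w, 0 ≤ η w) ∧ ∀ w ∈ F, 0 < η w := by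
  obtain ⟨V, h1, h2, h3, h4⟩ := exists_open_between_and_isCompact_closure
    (hF.image continuous_coe) TGreen_open (by
      rintro _ ⟨w, -, rfl⟩
      exact w.im_pos)
  obtain ⟨ζ, a1, a2, a3⟩ := h1.exists_contDiff_support_eq (n := ⊤)
  have hp : ∀ y, 0 ≤ ζ y := fun y => (a3 ⟨y, rfl⟩).1
  refine ⟨fun w => ζ w, Sm.of_coe a2.contDiffOn, ?_, fun w => hp w, fun w hw => ?_⟩
  · refine HasCompactSupport.intro (isEmbedding_coe.isInducing.isCompact_preimage' h4
      fun y hy => ⟨⟨y, h3 hy⟩, rfl⟩) fun w hw => ?_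
    by_contra h
    have h5 : (w : ℂ) ∈ ζ.support := h
    rw [a1] at h5
    exact hw (subset_closure h5)
  · have h5 : (w : ℂ) ∈ ζ.support := by
      rw [a1]
      exact h2 ⟨w, hw, rfl⟩
    exact lt_of_le_of_ne (hp w) (Ne.symm h5)

theorem stGreen : StGreen := by
  intro Γ F H f hf g hg hi e v hv
  obtain ⟨η, a1, a2, a3, a4⟩ := TGreen_eta H.cpt
  have hp := H.per_mem a1 a2
  have hp0 : ∀ w, 0 < per Γ η w := fun w => by
    obtain ⟨γ, hγ, h⟩ := H.cov w
    rw [← hp.2 γ hγ w]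
    exact (a4 _ h).trans_le (H.le_per a2 a3 _)
  have ha : (fun w => v w * (per Γ η w)⁻¹) ∈ SI Γ :=
    SI_mul hv (SI_comp hp (φ := fun x => x⁻¹) fun w => contDiffAt_inv ℝ (hp0 w).ne')
  have hφ : Sm fun w => v w * (per Γ η w)⁻¹ * η w := Sm.mul ha.1 a1
  have hc : HasCompactSupport fun w => v w * (per Γ η w)⁻¹ * η w := a2.mul_left
  have e1 : per Γ (fun w => v w * (per Γ η w)⁻¹ * η w) = v := by
    funext w
    rw [H.per_mul a2 ha.2, inv_mul_cancel_right₀ (hp0 w).ne']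
  have h1 := H.unfold_en hφ hc hf
  have h2 := H.unfold_mul hφ.continuous hc hg hi
  rw [e1] at h1 h2
  rw [h1, h2]
  exact TGreen_cpt hf.1 hg e hφ hc

end Pool.Agent.MP_4f0ed6_gt.U

end

section

set_option autoImplicit false
set_option linter.dupNamespace false

open MeasureTheory Set Metric Filter Topology
open scoped InnerProductSpace ENNReal Classical

namespace Pool.Agent.MP_4f0ed6_gt.U

theorem stAvb (hGOOD : StGOOD) (hSub : StSub) (hApp1 : StApp1) (hTr : StTr) (hSI : StSIb)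
    (hLI : StLI) : StAvb := by
  intro k κ h1 h2
  by_cases hk : k.Ok
  swap
  · exact ⟨0, fun M N j ℓ R _ _ n m H _ _ _ P hA => absurd hA.ok hk⟩
  have hκ : k.κ0 + 1 ≤ κ := by have := hk.h2; linarith
  obtain ⟨k0, hk0⟩ := hSub k κ hκ
  refine ⟨k0, fun M N j ℓ R hR1 hR2 n m H _ _ _ P hA => ?_⟩
  have hR3 : 2 * (2 * N) + 3 ≤ R := by omega
  obtain ⟨Z0, hZ, hG⟩ := hGOOD k n m H P hA R
  have hl : (pat (2 * j + 1)).length = 6 * j + 5 := by rw [pat_length]; ring
  have hc : (pat (2 * j + 1)).count true = 2 * j + 2 := pat_count _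
  choose! gS hS1 hS2 using fun c (hc : c ∈ Z0ᶜ) =>
    hSI k n m H P hA κ Z0 R N M ℓ (pat (2 * j + 1)) c hG (hl ▸ hR1) hκ hc
  choose! gL hL1 hL2 using fun c (hc : c ∈ Z0ᶜ) =>
    hLI k n m H P hA κ Z0 R (2 * N) ℓ (pat (2 * j + 1)) c hG (hl ▸ hR2) h1 h2 hc
  rw [hc] at hS2
  have hZ' : (Z0.card : ℝ) ≤ (k.Δ : ℝ) ^ (2 * R + 1) + 1 := by exact_mod_cast hZ
  have hth : 0 ≤ k.th2 (κ + 2) M N := by
    have := hk.h3
    unfold Cst.th2; positivity
  have htl : 0 ≤ k.tl (2 * N) (6 * j + 5) ℓ := by unfold Cst.tl; positivity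
  have hev : 0 ≤ (1 - ((k.Δ : ℝ) ^ (2 * N))⁻¹) ^ (2 * j + 2) :=
    Even.pow_nonneg ⟨j + 1, by ring⟩ _
  refine TAv_avg (Ξ := Fin n → Fin (M + 1)) Z0ᶜ _ _ _ _ _ _ _ _
    (fun ξ c => sumS (pat (2 * j + 1)).length fun σ => if Sh (P.rel Z0 ℓ) c σ then 0 else
      ⟪gL c σ, (P.bz k κ Z0 (2 * N) (Zx ξ)).XS (pat (2 * j + 1)) σ c
        ((P.bz k κ Z0 (2 * N) (Zx ξ)).B (gL c σ))⟫_ℝ)
    (fun ξ => k0 * ((Zx ξ).card : ℝ)) (sq_nonneg _) (by positivity) ?_ (fun ξ => ?_) hS2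
    (fun c hc ξ => hl ▸ hL2 c hc (Zx ξ)) ?_
  · exact_mod_cast (Finset.card_le_univ _).trans (Fintype.card_fin n).le
  · obtain ⟨V, hV, hV1, hV2⟩ := hk0 n m H P hA Z0 (Zx ξ) R (2 * N) hG hR3
    have h := hTr n _ (hApp1 k n m H P hA κ Z0 R (2 * N) hG hR3 hκ (Zx ξ)).1 V hV2 (k.CR (κ + 2)) j
      (fun c σ => if Sh (P.rel Z0 ℓ) c σ then gS c else gL c σ) (hk.h5 _).le fun c hc σ => by
        show DR _ _ _ (if _ then _ else _)
        split_ifs
        exacts [hS1 c hc _, hL1 c hc _ _]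
    have h3 : (Module.finrank ℝ P.Kr : ℝ) ≤
        Module.finrank ℝ V + k0 * (Z0.card + (Zx ξ).card) := by exact_mod_cast hV1
    have h4 : (k0 : ℝ) * Z0.card ≤ k0 * ((k.Δ : ℝ) ^ (2 * R + 1) + 1) := by gcongr
    refine h3.trans (add_le_add (h.trans (le_of_eq ?_)) (by linarith))
    congr 1
    refine Finset.sum_congr rfl fun c _ => ?_
    rw [← sumS_add]
    refine sumS_congr _ fun σ _ => ?_
    split_ifs <;> simp
  · have h := sum_card_Zx n M
    have hM : (M : ℝ) + 1 ≠ 0 := by positivity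
    rw [← Finset.mul_sum]
    field_simp
    linear_combination (k0 : ℝ) * h

end Pool.Agent.MP_4f0ed6_gt.U

end

section

set_option autoImplicit false
set_option linter.dupNamespace false

open Filter Topology

namespace Pool.Agent.MP_4f0ed6_gt.U

theorem TNum3_core {C A t : ℝ} (hC : 0 < C) (hA : 0 < A) (ht : 4 + 6 * C + 1 / (2 * C) ≤ t) :
    ∃ N : ℕ, 3 ≤ N ∧ Real.exp (Real.exp (C * N)) +
      C * (A * Real.exp (Real.exp t)) * (Real.log N / N) ≤
      (1 + 8 * C ^ 2 * A) * Real.exp (Real.exp t) * Real.log t / t := by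
  have c1 : 0 < 1 / (2 * C) := by positivity
  have t4 : 4 ≤ t := by linarith
  have t0 : 0 < t := by linarith
  have x3 : (3 : ℝ) ≤ t / (2 * C) := by
    rw [le_div_iff₀ (by positivity)]
    linarith
  have n1 : (⌊t / (2 * C)⌋₊ : ℝ) ≤ t / (2 * C) := Nat.floor_le (by linarith)
  have n2 : t / (2 * C) < (⌊t / (2 * C)⌋₊ : ℝ) + 1 := Nat.lt_floor_add_one _
  have n3 : 3 ≤ ⌊t / (2 * C)⌋₊ := Nat.le_floor (by exact_mod_cast x3)
  refine ⟨⌊t / (2 * C)⌋₊, n3, ?_⟩
  generalize (⌊t / (2 * C)⌋₊ : ℝ) = N at n1 n2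
  have N0 : 0 < N := by linarith
  have u1 : 1 ≤ Real.log t := by
    rw [Real.le_log_iff_exp_le t0]
    linarith [Real.exp_one_lt_d9]
  have h1 : C * N ≤ t / 2 := by
    rw [le_div_iff₀ (by positivity)] at n1
    linarith
  have h2 : Real.exp (C * N) + Real.log t ≤ Real.exp t := by
    have a1 := Real.exp_le_exp.2 h1
    have a2 := Real.add_one_le_exp (t / 2)
    have a3 := Real.log_le_sub_one_of_pos t0
    have a4 : Real.exp t = Real.exp (t / 2) * Real.exp (t / 2) := by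
      rw [← Real.exp_add, add_halves]
    nlinarith
  have g0 := Real.exp_pos (Real.exp t)
  have h3 : Real.exp (Real.exp (C * N)) * t ≤ Real.exp (Real.exp t) := by
    have := Real.exp_le_exp.2 h2
    rwa [Real.exp_add, Real.exp_log t0] at this
  have h4 : Real.log N ≤ 2 * Real.log t := by
    have a1 : N ≤ t * t := by
      refine n1.trans ?_
      rw [div_eq_mul_one_div]
      exact mul_le_mul_of_nonneg_left (by linarith) t0.le
    have := Real.log_le_log N0 a1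
    rw [Real.log_mul t0.ne' t0.ne'] at this
    linarith
  have h5 : t ≤ 4 * C * N := by
    rw [div_lt_iff₀ (by positivity)] at n2
    rw [le_div_iff₀ (by positivity)] at x3
    nlinarith
  have h6 : Real.log N / N * t ≤ 8 * C * Real.log t := by
    rw [div_mul_eq_mul_div, div_le_iff₀ N0]
    calc Real.log N * t ≤ 2 * Real.log t * t := mul_le_mul_of_nonneg_right h4 t0.le
      _ ≤ 2 * Real.log t * (4 * C * N) := mul_le_mul_of_nonneg_left h5 (by linarith)
      _ = _ := by ring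
  rw [le_div_iff₀ t0]
  have h7 := mul_le_mul_of_nonneg_left h6 (show 0 ≤ C * (A * Real.exp (Real.exp t)) by positivity)
  have h8 := mul_le_mul_of_nonneg_left u1 g0.le
  nlinarith

theorem stNum3 : StNum3 := by
  intro C A hC hA
  have h1 : Tendsto (fun γ : ℕ => Real.log (Real.log γ)) atTop atTop :=
    Real.tendsto_log_atTop.comp (Real.tendsto_log_atTop.comp tendsto_natCast_atTop_atTop)
  obtain ⟨γ₁, h2⟩ := eventually_atTop.1 (h1.eventually_ge_atTop (4 + 6 * C + 1 / (2 * C)))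
  refine ⟨1 + 8 * C ^ 2 * A, max γ₁ 2, le_max_of_le_right one_le_two, fun γ hγ => ?_⟩
  have h3 : (2 : ℝ) ≤ γ := by exact_mod_cast (le_max_right _ _).trans hγ
  have h4 := TNum3_core hC hA (h2 γ ((le_max_left _ _).trans hγ))
  rwa [Real.exp_log (Real.log_pos (by linarith)), Real.exp_log (by linarith)] at h4

end Pool.Agent.MP_4f0ed6_gt.U

end
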