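import Pool.Agent.Mg.F4f0ed6a.G5bac69

section

set_option autoImplicit false
set_option linter.dupNamespace false

open UpperHalfPlane MeasureTheory Set Metric Filter Topology
open scoped MatrixGroups ContDiff InnerProductSpace ENNReal

namespace Pool.Agent.MP_4f0ed6_gt.U

theorem TH_hil {E : Type} [AddCommGroup E] [Module ℝ E] (b : E →ₗ[ℝ] E →ₗ[ℝ] ℝ)
    (hs : ∀ u v, b u v = b v u) (hp : ∀ u, 0 ≤ b u u) :
    ∃ (H : Type) (_ : NormedAddCommGroup H) (_ : InnerProductSpace ℝ H) (_ : CompleteSpace H)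
      (j : E →ₗ[ℝ] H), DenseRange j ∧ ∀ u, ‖j u‖ ^ 2 = b u u := by
  let cd : PreInnerProductSpace.Core ℝ E :=
    { inner := fun u v => b u v
      conj_inner_symm := fun u v => by simpa using hs v u
      re_inner_nonneg := fun u => by simpa using hp u
      add_left := fun u v w => by simp
      smul_left := fun u v r => by simp }
  letI : SeminormedAddCommGroup E := InnerProductSpace.Core.toSeminormedAddCommGroup (c := cd)
  letI : InnerProductSpace ℝ E := InnerProductSpace.ofCore cd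
  refine ⟨UniformSpace.Completion E, inferInstance, inferInstance, inferInstance,
    (UniformSpace.Completion.toComplₗᵢ : E →ₗᵢ[ℝ] UniformSpace.Completion E).toLinearMap,
    UniformSpace.Completion.denseRange_coe, fun u => ?_⟩
  have h1 : ‖(u : UniformSpace.Completion E)‖ = ‖u‖ := UniformSpace.Completion.norm_coe u
  have h2 : ‖u‖ ^ 2 = b u u := (real_inner_self_eq_norm_sq u).symm
  rw [← h2, ← h1]
  rfl

theorem TH_ext {E H : Type} [AddCommGroup E] [Module ℝ E] [NormedAddCommGroup H]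
    [NormedSpace ℝ H] (j : E →ₗ[ℝ] H) (hd : DenseRange j) (q : E →ₗ[ℝ] E →ₗ[ℝ] ℝ) {C : ℝ}
    (hC : 0 ≤ C) (hq : ∀ u v, |q u v| ≤ C * ‖j u‖ * ‖j v‖) :
    ∃ Qb : H →L[ℝ] H →L[ℝ] ℝ, ∀ u v, Qb (j u) (j v) = q u v := by
  have h1 : ∀ u v, (q u).extendOfNorm j (j v) = q u v := fun u v =>
    LinearMap.extendOfNorm_eq hd ⟨C * ‖j u‖, fun x => hq u x⟩ v
  have hext : ∀ f g : H →L[ℝ] ℝ, (∀ v, f (j v) = g (j v)) → f = g := fun f g h =>
    ContinuousLinearMap.ext fun x =>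
      hd.induction_on x (isClosed_eq f.continuous g.continuous) h
  let q1 : E →ₗ[ℝ] (H →L[ℝ] ℝ) :=
    { toFun := fun u => (q u).extendOfNorm j
      map_add' := fun u u' => hext _ _ fun v => by
        rw [ContinuousLinearMap.add_apply, h1, h1, h1, map_add, LinearMap.add_apply]
      map_smul' := fun c u => hext _ _ fun v => by
        rw [ContinuousLinearMap.smul_apply, h1, h1, map_smul, LinearMap.smul_apply,
          RingHom.id_apply] }
  have h2 : ∀ u, ‖q1 u‖ ≤ C * ‖j u‖ := fun u =>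
    LinearMap.opNorm_extendOfNorm_le hd (mul_nonneg hC (norm_nonneg _)) fun x => hq u x
  refine ⟨q1.extendOfNorm j, fun u v => ?_⟩
  rw [LinearMap.extendOfNorm_eq hd ⟨C, h2⟩ u]
  exact h1 u v

theorem TH_abs {E : Type} [AddCommGroup E] [Module ℝ E] (b q : E →ₗ[ℝ] E →ₗ[ℝ] ℝ)
    (hs : ∀ u v, b u v = b v u) (hp : ∀ u, 0 ≤ b u u) (hq : ∀ u v, q u v = q v u) {C : ℝ}
    (hC : 0 ≤ C) (hb : ∀ u, |q u u| ≤ C * b u u) :
    ∃ (H : Type) (_ : NormedAddCommGroup H) (_ : InnerProductSpace ℝ H) (_ : CompleteSpace H)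
      (j : E →ₗ[ℝ] H) (Qb : H →L[ℝ] H →L[ℝ] ℝ), DenseRange j ∧ (∀ u, ‖j u‖ ^ 2 = b u u) ∧
      (∀ u v, Qb (j u) (j v) = q u v) ∧ ∀ u v, Qb u v = Qb v u := by
  obtain ⟨H, i1, i2, i3, j, hd, hn⟩ := TH_hil b hs hp
  have cs : ∀ (B : E →ₗ[ℝ] E →ₗ[ℝ] ℝ) (D : ℝ), 0 ≤ D → (∀ u v, B u v = B v u) →
      (∀ u, 0 ≤ B u u) → (∀ u, B u u ≤ D * b u u) → ∀ u v, |B u v| ≤ D * ‖j u‖ * ‖j v‖ := by
    intro B D hD h1 h2 h3 u v
    have h4 := LinearMap.BilinForm.apply_sq_le_of_symm B h2 ⟨fun x y => h1 x y⟩ u v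
    refine abs_le_of_sq_le_sq' ?_ (by positivity) |> abs_le.2
    calc B u v ^ 2 ≤ B u u * B v v := h4
      _ ≤ (D * b u u) * (D * b v v) :=
          mul_le_mul (h3 u) (h3 v) (h2 v) (mul_nonneg hD (hp u))
      _ = (D * ‖j u‖ * ‖j v‖) ^ 2 := by rw [← hn, ← hn]; ring
  have h1 := cs b 1 zero_le_one hs hp fun u => (one_mul _).ge
  have h2 := cs (C • b + q) (2 * C) (by positivity)
    (fun u v => by simp only [LinearMap.add_apply, LinearMap.smul_apply, hs u v, hq u v])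
    (fun u => by
      have := abs_le.1 (hb u)
      simp only [LinearMap.add_apply, LinearMap.smul_apply, smul_eq_mul]
      linarith [this.1])
    (fun u => by
      have := abs_le.1 (hb u)
      simp only [LinearMap.add_apply, LinearMap.smul_apply, smul_eq_mul]
      linarith [this.2])
  obtain ⟨Qb, hQ⟩ := TH_ext j hd q (C := 3 * C) (by positivity) fun u v => by
    have h3 := abs_le.1 (h2 u v)
    have h4 := abs_le.1 (h1 u v)
    simp only [LinearMap.add_apply, LinearMap.smul_apply, smul_eq_mul] at h3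
    have h5 := mul_le_mul_of_nonneg_left h4.1 hC
    have h6 := mul_le_mul_of_nonneg_left h4.2 hC
    rw [abs_le]
    constructor <;> nlinarith [h3.1, h3.2]
  refine ⟨H, i1, i2, i3, j, Qb, hd, hn, hQ, fun x y => ?_⟩
  refine hd.induction_on₂ (p := fun x y => Qb x y = Qb y x) (isClosed_eq (by fun_prop) (by fun_prop))
    (fun u v => ?_) x y
  rw [hQ, hQ, hq]

/-- the form of a potential as a bilinear map -/
theorem TH_bil {Γ : Subgroup SL(2, ℝ)} {F : Set ℍ} (hc : Closed Γ F) {V : ℍ → ℝ}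
    (hV : Continuous V) : ∃ q : SI Γ →ₗ[ℝ] SI Γ →ₗ[ℝ] ℝ,
      ∀ u v, q u v = ∫ z in F, (en u.1 v.1 z - V z * (u.1 z * v.1 z)) := by
  have hi : ∀ u v : SI Γ, IntegrableOn (fun z => en u.1 v.1 z - V z * (u.1 z * v.1 z)) F :=
    fun u v => hc.integrableOn ((continuous_en u.2.1 v.2.1).sub
      (hV.mul (u.2.1.continuous.mul v.2.1.continuous)))
  have ha : ∀ u u' v : SI Γ, ∫ z in F, (en (u + u').1 v.1 z - V z * ((u + u').1 z * v.1 z)) =
      (∫ z in F, (en u.1 v.1 z - V z * (u.1 z * v.1 z))) +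
        ∫ z in F, (en u'.1 v.1 z - V z * (u'.1 z * v.1 z)) := by
    intro u u' v
    rw [← integral_add (hi u v) (hi u' v)]
    refine integral_congr_ae (ae_of_all _ fun z => ?_)
    have h1 : en (u + u').1 v.1 z = en u.1 v.1 z + en u'.1 v.1 z := en_add u.2.1 u'.2.1 v.1 z
    have h2 : (u + u').1 z = u.1 z + u'.1 z := rfl
    simp only [h1, h2]
    ring
  have hm : ∀ (c : ℝ) (u v : SI Γ), ∫ z in F, (en (c • u).1 v.1 z - V z * ((c • u).1 z * v.1 z)) =
      c • ∫ z in F, (en u.1 v.1 z - V z * (u.1 z * v.1 z)) := by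
    intro c u v
    rw [smul_eq_mul, ← integral_const_mul]
    refine integral_congr_ae (ae_of_all _ fun z => ?_)
    have h1 : en (c • u).1 v.1 z = c * en u.1 v.1 z := en_smul c u.2.1 v.1 z
    have h2 : (c • u).1 z = c * u.1 z := rfl
    simp only [h1, h2]
    ring
  have hs : ∀ u v : SI Γ, ∫ z in F, (en u.1 v.1 z - V z * (u.1 z * v.1 z)) =
      ∫ z in F, (en v.1 u.1 z - V z * (v.1 z * u.1 z)) := fun u v =>
    integral_congr_ae (ae_of_all _ fun z => by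
      simp only [en_comm u.1 v.1 z, mul_comm (u.1 z) (v.1 z)])
  exact ⟨LinearMap.mk₂ ℝ (fun u v : SI Γ => ∫ z in F, (en u.1 v.1 z - V z * (u.1 z * v.1 z)))
    ha hm (fun u v v' => by rw [hs u (v + v'), ha, hs v u, hs v' u])
    (fun c u v => by rw [hs u (c • v), hm, hs v u]), fun _ _ => rfl⟩

theorem stH : StH := by
  intro X hX
  obtain ⟨b, hb⟩ := TH_bil hX.cl (V := fun _ => -1) continuous_const
  have hVc : Continuous X.V := hX.Vm.1.continuous
  obtain ⟨q, hq⟩ := TH_bil hX.cl hVc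
  obtain ⟨M, hM0, hM⟩ := hX.cl.bdd hVc hX.Vm.2
  have hb' : ∀ u : SI X.Γ, b u u = ∫ z in X.F, (en u.1 u.1 z + u.1 z ^ 2) := fun u => by
    rw [hb]
    exact integral_congr_ae (ae_of_all _ fun z => by simp only []; ring)
  have hsym : ∀ (V : ℍ → ℝ) (u v : SI X.Γ),
      ∫ z in X.F, (en u.1 v.1 z - V z * (u.1 z * v.1 z)) =
      ∫ z in X.F, (en v.1 u.1 z - V z * (v.1 z * u.1 z)) := fun V u v =>
    integral_congr_ae (ae_of_all _ fun z => by
      simp only [en_comm u.1 v.1 z, mul_comm (u.1 z) (v.1 z)])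
  obtain ⟨H, i1, i2, i3, j, Qb, h1, h2, h3, h4⟩ := TH_abs b q
    (fun u v => by rw [hb, hb, hsym]) (fun u => by
      rw [hb']
      exact integral_nonneg fun z => add_nonneg (en_nn _ _) (sq_nonneg _))
    (fun u v => by rw [hq, hq, hsym]) (C := 1 + M) (by positivity) (fun u => by
      rw [hq, hb', ← integral_const_mul, ← Real.norm_eq_abs]
      refine norm_integral_le_of_norm_le ((hX.cl.integrableOn ((continuous_en u.2.1 u.2.1).add
        (u.2.1.continuous.pow 2))).const_mul _) (ae_of_all _ fun z => ?_)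
      have e1 := en_nn u.1 z
      have e2 := abs_le.1 (hM z)
      have e3 := mul_self_nonneg (u.1 z)
      have e4 := mul_le_mul_of_nonneg_right e2.1 e3
      have e5 := mul_le_mul_of_nonneg_right e2.2 e3
      have e6 := mul_nonneg hM0.le e1
      rw [Real.norm_eq_abs, abs_le]
      constructor <;> nlinarith)
  exact ⟨H, i1, i2, i3, j, Qb, ⟨h1, fun u => by rw [h2, hb']⟩, fun u v => by rw [h3, hq]; rfl, h4⟩

end Pool.Agent.MP_4f0ed6_gt.U

end

section

set_option autoImplicit false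
set_option linter.dupNamespace false

open UpperHalfPlane MeasureTheory Set Metric Filter Topology
open scoped MatrixGroups ContDiff InnerProductSpace ENNReal Classical

namespace Pool.Agent.MP_4f0ed6_gt.U

theorem TPart_sum {Γ : Subgroup SL(2, ℝ)} {ι : Type} {s : Finset ι} {f : ι → ℍ → ℝ}
    (h : ∀ i ∈ s, f i ∈ SI Γ) : (fun w => ∑ i ∈ s, f i w) ∈ SI Γ :=
  ⟨Sm.sum fun i hi => (h i hi).1,
    fun γ hγ z => Finset.sum_congr rfl fun i hi => (h i hi).2 γ hγ z⟩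

theorem TPart_cd {x : ℝ} (hx : 0 < x) : ContDiffAt ℝ ∞ (fun x : ℝ => (√x)⁻¹) x :=
  (Real.contDiffAt_sqrt hx.ne').inv (Real.sqrt_pos.2 hx).ne'

theorem TPart_norm {L : Type} [Fintype L] {p : L → ℍ → ℝ} (hp : ∀ l, Sm (p l)) {N : ℍ → ℝ}
    (hN : N = fun w => ∑ l, p l w * p l w) (h0 : ∀ w, 0 < N w) (w : ℍ) :
    ∑ l, en (fun w => p l w * (√(N w))⁻¹) (fun w => p l w * (√(N w))⁻¹) w ≤
      4 / N w * ∑ l, en (p l) (p l) w := by
  have hs : Sm N := hN ▸ Sm.sum fun l _ => (hp l).mul (hp l)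
  have hr : Sm fun w => (√(N w))⁻¹ := hs.comp (φ := fun x => (√x)⁻¹) fun w => TPart_cd (h0 w)
  have hw := h0 w
  have hq := Real.sqrt_pos.2 hw
  have e0 : ∑ l, p l w ^ 2 = N w := by simp only [hN, pow_two]
  have h1 : en N N w ≤ 4 * N w * ∑ l, en (p l) (p l) w := by
    have h2 : en N N w = ∑ l, 2 * (p l w * en (p l) N w) := by
      nth_rewrite 1 [hN]
      rw [en_sum fun l _ => (hp l).mul (hp l)]
      exact Finset.sum_congr rfl fun l _ => by rw [en_mul (hp l) (hp l), two_mul]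
    have h3 : ∀ l, N w * (2 * (p l w * en (p l) N w)) ≤
        p l w ^ 2 * (en N N w / 2) + 2 * N w ^ 2 * en (p l) (p l) w := fun l => by
      have h4 := en_cs (p l) N w
      have h5 := Real.sq_sqrt (en_nn (p l) w)
      have h6 := Real.sq_sqrt (en_nn N w)
      have h7 : p l w * en (p l) N w ≤ |p l w| * (√(en (p l) (p l) w) * √(en N N w)) :=
        (le_abs_self _).trans (by rw [abs_mul]; gcongr)
      rw [← h5, ← sq_abs (p l w)]
      nth_rewrite 1 [← h6]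
      nlinarith [sq_nonneg (|p l w| * √(en N N w) - 2 * N w * √(en (p l) (p l) w))]
    have h4 := Finset.sum_le_sum fun l (_ : l ∈ Finset.univ) => h3 l
    rw [← Finset.mul_sum, ← h2, Finset.sum_add_distrib, ← Finset.sum_mul, ← Finset.mul_sum,
      e0] at h4
    refine le_of_mul_le_mul_left ?_ hw
    linarith
  have hd := (Real.hasDerivAt_sqrt hw.ne').inv hq.ne'
  have h2 : en (fun w => (√(N w))⁻¹) (fun w => (√(N w))⁻¹) w = en N N w / (4 * N w ^ 3) := by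
    have h3 := fun v => en_comp (φ := fun x => (√x)⁻¹) hs hd v
    rw [h3, en_comm, h3]
    nth_rewrite 5 [← Real.sq_sqrt hw.le]
    field_simp
    ring
  refine (Finset.sum_le_sum fun l _ => en_mul_le (hp l) hr w).trans ?_
  rw [Finset.sum_add_distrib, ← Finset.sum_mul, ← Finset.mul_sum, ← Finset.mul_sum, e0, h2,
    inv_pow, Real.sq_sqrt hw.le]
  have h3 : 2 * N w * (en N N w / (4 * N w ^ 3)) ≤ 2 * (N w)⁻¹ * ∑ l, en (p l) (p l) w :=
    (mul_le_mul_of_nonneg_left (div_le_div_of_nonneg_right h1 (by positivity))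
      (by positivity)).trans_eq (by field_simp)
  rw [div_eq_mul_inv 4]
  linarith

theorem stPart (hPiece : StPiece) : StPart := by
  intro Δ
  obtain ⟨C, hC, hPiece⟩ := hPiece
  refine ⟨4 * 4 ^ Δ * Δ ^ 3 * C + 1, by positivity, fun X n m K hX hK L _ cl => ?_⟩
  obtain ⟨ψ, s1, s2, s3, s4, s5⟩ := hPiece Δ X n m K hX hK
  obtain ⟨p, hp⟩ : ∃ p : L → ℍ → ℝ,
    p = fun l w => ∑ a ∈ Finset.univ.filter (fun a => cl a = l), ψ a w := ⟨_, rfl⟩
  obtain ⟨N, hN⟩ : ∃ N : ℍ → ℝ, N = fun w => ∑ l, p l w * p l w := ⟨_, rfl⟩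
  obtain ⟨I, hI⟩ : ∃ I : ℍ → Finset (Nd n m), ∀ w a, a ∈ I w ↔ w ∈ tsupport (ψ a) :=
    ⟨fun w => Finset.univ.filter fun a => w ∈ tsupport (ψ a), fun w a => by simp⟩
  have p1 : ∀ l, p l ∈ SI X.Γ := fun l => hp ▸ TPart_sum fun a _ => s1 a
  have p0 : ∀ l w, 0 ≤ p l w := fun l w => hp ▸ Finset.sum_nonneg fun a _ => s2 a w
  have N1 : N ∈ SI X.Γ := hN ▸ TPart_sum fun l _ => SI_mul (p1 l) (p1 l)
  have N2 : ∀ w, ((4 : ℝ) ^ Δ)⁻¹ ≤ N w := fun w => by
    obtain ⟨a, ha⟩ := s4 w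
    have h1 : ψ a w ≤ p (cl a) w := hp ▸ Finset.single_le_sum (f := fun a => ψ a w)
      (fun a _ => s2 a w) (by simp)
    have h2 : p (cl a) w * p (cl a) w ≤ N w := hN ▸ Finset.single_le_sum
      (f := fun l => p l w * p l w) (fun l _ => mul_self_nonneg _) (Finset.mem_univ _)
    refine le_trans (le_of_eq ?_) ((mul_self_le_mul_self (by positivity) (ha.trans h1)).trans h2)
    rw [← mul_pow, ← inv_pow]
    norm_num
  have N0 : ∀ w, 0 < N w := fun w => lt_of_lt_of_le (by positivity) (N2 w)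
  have loc : ∀ w, ∀ᶠ x in 𝓝 w, ∀ l, p l x = ∑ a ∈ (I w).filter (fun a => cl a = l), ψ a x := by
    intro w
    have h1 : ∀ᶠ x in 𝓝 w, ∀ a, a ∉ I w → ψ a x = 0 := eventually_all.2 fun a => by
      by_cases h : a ∈ I w
      · exact Eventually.of_forall fun x h' => absurd h h'
      · exact (notMem_tsupport_iff_eventuallyEq.1 (mt (hI w a).2 h)).mono fun x hx _ => hx
    filter_upwards [h1] with x hx l
    rw [hp]
    refine (Finset.sum_subset (Finset.filter_subset_filter _ (Finset.subset_univ _))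
      fun a ha ha' => hx a fun h => ha' ?_).symm
    exact Finset.mem_filter.2 ⟨h, (Finset.mem_filter.1 ha).2⟩
  have van : ∀ w l, (∀ a ∈ I w, cl a ≠ l) →
      (fun x => p l x * (√(N x))⁻¹) =ᶠ[𝓝 w] fun _ => 0 := fun w l h => by
    filter_upwards [loc w] with x hx
    rw [hx l, Finset.filter_eq_empty_iff.2 h, Finset.sum_empty, zero_mul]
  have one : ∀ w, ∑ l, (p l w * (√(N w))⁻¹) ^ 2 = 1 := fun w => by
    simp only [mul_pow, inv_pow, Real.sq_sqrt (N0 w).le]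
    rw [← Finset.sum_mul]
    simp only [pow_two]
    exact (congrArg (· * _) (congrFun hN w).symm).trans (mul_inv_cancel₀ (N0 w).ne')
  have wt0 : ∀ S w, 0 ≤ K.wt X.Γ S w := fun S w =>
    Finset.sum_nonneg fun c _ => indicator_nonneg (fun _ _ => by positivity) _
  refine ⟨fun l w => p l w * (√(N w))⁻¹, fun l => SI_mul (p1 l)
    (SI_comp (φ := fun x => (√x)⁻¹) N1 fun w => TPart_cd (N0 w)), one, fun l w hw => ?_,
    fun w => ?_⟩
  · by_contra h
    refine notMem_tsupport_iff_eventuallyEq.2 (van w l fun a ha e => h ?_) hw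
    exact mem_iUnion₂.2 ⟨a, e, s3 a ((hI w a).1 ha)⟩
  obtain ⟨a0, ha0⟩ : ∃ a, a ∈ I w := by
    obtain ⟨a, ha⟩ := s4 w
    exact ⟨a, (hI w a).2 (subset_tsupport _ (lt_of_lt_of_le (by positivity) ha).ne')⟩
  by_cases hc : ∀ a ∈ I w, cl a = cl a0
  · refine le_trans (le_of_eq (Finset.sum_eq_zero fun l _ => ?_)) (mul_nonneg (by positivity)
      (wt0 _ _))
    have h1 : ∀ l, l ≠ cl a0 → (fun x => p l x * (√(N x))⁻¹) =ᶠ[𝓝 w] fun _ => 0 :=
      fun l hl => van w l fun a ha e => hl (e.symm.trans (hc a ha))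
    by_cases hl : l = cl a0
    · have h2 : (fun x => p l x * (√(N x))⁻¹) =ᶠ[𝓝 w] fun _ => 1 := by
        have h3 : ∀ᶠ x in 𝓝 w, ∀ l', l' ≠ l → p l' x * (√(N x))⁻¹ = 0 :=
          eventually_all.2 fun l' => by
            by_cases h : l' = l
            · exact Eventually.of_forall fun x h' => absurd h h'
            · exact (h1 l' (hl ▸ h)).mono fun x hx _ => hx
        filter_upwards [h3] with x hx
        have h4 := one x
        rw [Finset.sum_eq_single l (fun l' _ h => by rw [hx l' h]; ring) (by simp)] at h4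
        exact (pow_eq_one_iff_of_nonneg (mul_nonneg (p0 l x) (by positivity)) two_ne_zero).1 h4
      exact (en_congr h2 h2).trans (en_const _ _ _)
    · exact (en_congr (h1 l hl) (h1 l hl)).trans (en_const _ _ _)
  push Not at hc
  obtain ⟨a1, ha1, hne⟩ := hc
  have e1 : K.wt X.Γ (bdc (K.Adj X.Γ) cl) w = K.wt X.Γ Finset.univ w := by
    refine Finset.sum_subset (Finset.subset_univ _) fun c _ hc => indicator_of_notMem ?_ _
    intro h
    have h1 : ∀ a ∈ I w, K.Adj X.Γ (.inl c) a := fun a ha =>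
      Or.inr ⟨w, orb_mono (Dk_mono (hK.s0 c) (by norm_num)) h, s3 a ((hI w a).1 ha)⟩
    refine hc (Finset.mem_filter.2 ⟨Finset.mem_univ _, ?_⟩)
    by_cases e : cl a0 = cl (.inl c)
    · exact ⟨a1, h1 a1 ha1, e ▸ hne⟩
    · exact ⟨a0, h1 a0 ha0, e⟩
  have hI1 : ((I w).card : ℝ) ≤ Δ := by
    rw [Nat.cast_le, ← ncard_coe_finset]
    exact (ncard_le_ncard (fun a ha => Or.inr
      ⟨w, s3 a0 ((hI w a0).1 ha0), s3 a ((hI w a).1 ha)⟩) (toFinite _)).trans (hK.deg a0)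
  have h1 : ∀ l, en (p l) (p l) w ≤
      Δ * ∑ a ∈ (I w).filter (fun a => cl a = l), en (ψ a) (ψ a) w := fun l => by
    have h2 : p l =ᶠ[𝓝 w] fun x => ∑ a ∈ (I w).filter (fun a => cl a = l), ψ a x :=
      (loc w).mono fun x hx => hx l
    rw [en_congr h2 h2]
    exact (en_sum_le (fun a _ => (s1 a).1) w).trans (mul_le_mul_of_nonneg_right
      ((Nat.cast_le.2 (Finset.card_filter_le _ _)).trans hI1)
      (Finset.sum_nonneg fun a _ => en_nn _ _))
  have hw := wt0 Finset.univ w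
  have h2 : ∑ l, en (p l) (p l) w ≤ Δ * (Δ * (C * Δ * K.wt X.Γ Finset.univ w)) := by
    refine (Finset.sum_le_sum fun l _ => h1 l).trans ?_
    rw [← Finset.mul_sum, Finset.sum_fiberwise (I w) cl fun a => en (ψ a) (ψ a) w]
    refine mul_le_mul_of_nonneg_left
      ((Finset.sum_le_card_nsmul _ _ _ fun a _ => s5 a w).trans ?_) (Nat.cast_nonneg _)
    rw [nsmul_eq_mul]
    exact mul_le_mul_of_nonneg_right hI1 (by positivity)
  have h3 : 4 / N w ≤ 4 * 4 ^ Δ := by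
    rw [div_eq_mul_inv]
    exact mul_le_mul_of_nonneg_left (inv_le_of_inv_le₀ (by positivity) (N2 w)) (by norm_num)
  refine (TPart_norm (fun l => (p1 l).1) hN N0 w).trans ((mul_le_mul h3 h2
    (Finset.sum_nonneg fun l _ => en_nn _ _) (by positivity)).trans ?_)
  rw [e1]
  linarith

end Pool.Agent.MP_4f0ed6_gt.U

end

section

set_option autoImplicit false
set_option linter.dupNamespace false

open UpperHalfPlane MeasureTheory Set Metric Filter Topology
open scoped MatrixGroups ContDiff InnerProductSpace ENNReal Classical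

namespace Pool.Agent.MP_4f0ed6_gt.U

section

variable {X : Sf} {n m : ℕ} {K : Cov n m} {H : Type} [NormedAddCommGroup H]
  [InnerProductSpace ℝ H] {P : Pb n m H} {j : SI X.Γ →ₗ[ℝ] H} {Rx Ry : H →L[ℝ] L2 n}

theorem TCo1_inner (h : Rep X K P j Rx Ry) (a b : SI X.Γ) :
    ⟪P.R (j a), P.R (j b)⟫_ℝ =
      ∑ c, ∫ y in ball (0 : ℂ) 16, a.1 (K.pt c y) * b.1 (K.pt c y) := by
  rw [inner_eq_sum]
  refine Finset.sum_congr rfl fun c _ => integral_congr_ae ?_
  filter_upwards [ae_slice (h.r1.hR a) c, ae_slice (h.r1.hR b) c] with y h1 h2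
  rw [h1, h2]

theorem TCo1_ct (h : Rep X K P j Rx Ry) (a : SI X.Γ) (c : Fin n) :
    ⟪mul (ind c 3) (P.R (j a)), P.R (j a)⟫_ℝ =
      ∫ y in ball (0 : ℂ) 3, a.1 (K.pt c y) * a.1 (K.pt c y) := by
  refine (inner_ct_eq c (t := 3) (by norm_num) _ _).trans (integral_congr_ae ?_)
  have h1 : ∀ᵐ y ∂(volume.restrict (ball (0 : ℂ) 16)), P.R (j a) (c, y) = a.1 (K.pt c y) :=
    ae_slice (h.r1.hR a) c
  filter_upwards [ae_restrict_of_ae_restrict_of_subset
    (ball_subset_ball (by norm_num : (3 : ℝ) ≤ 16)) h1] with y h2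
  rw [h2]

theorem TCo1_nn (h : Rep X K P j Rx Ry) (a : SI X.Γ) (ha : ∀ w, 0 ≤ a.1 w) : 0 ≤ P.R (j a) := by
  refine BT1a_nn.2 ?_
  filter_upwards [h.r1.hR a] with y h1
  rw [h1]
  exact ha _

/-- the form read on smooth functions -/
noncomputable def TCo1_q (P : Pb n m H) (j : SI X.Γ →ₗ[ℝ] H) (W : LI n) :
    SI X.Γ →ₗ[ℝ] SI X.Γ →ₗ[ℝ] ℝ :=
  LinearMap.mk₂ ℝ (fun u v => P.q W (j u) (j v))
    (fun a b c => by rw [map_add, map_add, _root_.add_apply])
    (fun c a b => by rw [map_smul, map_smul, _root_.smul_apply])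
    (fun a b c => by rw [map_add, map_add])
    (fun c a b => by rw [map_smul, map_smul])

theorem TCo1_frm (hTrf : StTrf) {Δ : ℕ} (hX : X.Ok) (hK : K.Ok X Δ) (h : Rep X K P j Rx Ry)
    (W : LI n) (hW : ∀ u : SI X.Γ, 0 ≤ P.q W (j u) (j u)) : ∃ M, Frm X (TCo1_q P j W) M := by
  obtain ⟨K0, hK0, hB⟩ := exists_bd W
  obtain ⟨M, hM, hM'⟩ := (hTrf Δ X n m K hX hK).2
  refine ⟨K0 * M, mul_nonneg hK0 hM.le, fun u v => Pb.q_symm h.sym W _ _, hW, fun a b ha hb => ?_⟩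
  show P.q W (j a) (j b) ≤ _
  have h1 := inner_mul_le_sum hB (TCo1_nn h a ha) (TCo1_nn h b hb)
  have h2 := hM' (fun w => a.1 w * b.1 w) (a.2.1.continuous.mul b.2.1.continuous)
    (SI_mul a.2 b.2).2 fun w => mul_nonneg (ha w) (hb w)
  rw [← TCo1_inner h a b] at h2
  have h3 : 0 ≤ ∫ z in X.F, X.V z * (a.1 z * b.1 z) :=
    integral_nonneg fun z => mul_nonneg (hX.Vp z).le (mul_nonneg (ha z) (hb z))
  have h4 := mul_le_mul_of_nonneg_left h2 hK0
  rw [Pb.q_apply, h.hQ, hX.Q_eq a.2.1 b.2.1, mul_assoc]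
  linarith

end

theorem TCo1_loc {u : ℍ → ℝ} (hu : Continuous u) (z : ℍ) {s : ℝ} (h0 : 0 < s) (h1 : s ≤ 1 / 40) :
    (∫ w in Dk z s 1, |u w|) ^ 2 ≤ 4 * ∫ y in ball (0 : ℂ) 3, u (ch z s y) * u (ch z s y) := by
  have e1 := integral_Dk_le (z := z) (t := 1) h0 h1 (by norm_num) hu.abs fun w => abs_nonneg _
  have : IsFiniteMeasure (volume.restrict (ball (0 : ℂ) 1)) :=
    isFiniteMeasure_restrict.2 measure_ball_lt_top.ne
  have m1 : MemLp (fun y => |u (ch z s y)|) 2 (volume.restrict (ball (0 : ℂ) 1)) :=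
    (memLp_ch (z := z) h0 h1 hu.abs).mono_measure
      (Measure.restrict_mono (ball_subset_ball (by norm_num)) le_rfl)
  have e2 := integral_cs m1 (memLp_const (1 : ℝ))
  simp only [mul_one, one_pow, sq_abs, integral_const, smul_eq_mul, measureReal_restrict_apply_univ,
    real_ball (0 : ℂ) zero_le_one] at e2
  have e3 : ∫ y in ball (0 : ℂ) 1, u (ch z s y) ^ 2 ≤
      ∫ y in ball (0 : ℂ) 3, u (ch z s y) * u (ch z s y) := by
    simp only [sq]
    exact setIntegral_mono_set (integrableOn_ch (f := fun w => u w * u w) h0 h1 (by norm_num)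
      (hu.mul hu)) (Eventually.of_forall fun y => mul_self_nonneg _)
      (ball_subset_ball (by norm_num : (1 : ℝ) ≤ 3)).eventuallyLE
  have p1 : 0 ≤ ∫ w in Dk z s 1, |u w| := integral_nonneg fun w => abs_nonneg _
  have p2 : 0 ≤ ∫ y in ball (0 : ℂ) 1, |u (ch z s y)| := integral_nonneg fun w => abs_nonneg _
  have p3 : 0 ≤ ∫ y in ball (0 : ℂ) 1, u (ch z s y) ^ 2 := integral_nonneg fun w => sq_nonneg _
  have e4 : ∫ w in Dk z s 1, |u w| ≤ ∫ y in ball (0 : ℂ) 1, |u (ch z s y)| := by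
    have : 4 * s ^ 2 ≤ 1 := by nlinarith
    nlinarith
  have e5 := pow_le_pow_left₀ p1 (e4.trans ((le_abs_self _).trans e2)) 2
  rw [mul_pow, Real.sq_sqrt p3, Real.sq_sqrt Real.pi_pos.le] at e5
  have := Real.pi_le_four
  nlinarith

theorem stCo1 (hL1 : StL1) (hRoot : StRoot) (hTrf : StTrf) : StCo1 := by
  intro Δ X n m K H _ _ _ P j Rx Ry hX hK h W _ hW z
  obtain ⟨M, hF⟩ := TCo1_frm hTrf hX hK h W hW
  obtain ⟨C, hC, hL⟩ := hL1 X hX _ M hF (K.z z) (K.s z) (hK.s0 z) (hK.s1 z)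
  obtain ⟨C', hC', hr⟩ := hRoot Δ X n m K H P j Rx Ry hX hK h W
  refine ⟨8 * C ^ 2, by positivity, fun u => ?_⟩
  have hu := u.2.1.continuous
  have hQ := hW u
  have hv0 : 0 ≤ volume.real (Dk (K.z z) (K.s z) 1) := measureReal_nonneg
  have key : ∫ w in X.F, |u.1 w| ≤
      C * ((∫ w in Dk (K.z z) (K.s z) 1, |u.1 w|) + √(P.q W (j u) (j u))) := by
    refine le_of_forall_pos_le_add fun δ hδ => ?_
    set B := C * (volume.real (Dk (K.z z) (K.s z) 1) + √C') + 1 with hB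
    have hB0 : 0 < B := by positivity
    obtain ⟨v, hv, h1, -, -⟩ := hr u (δ / B) (by positivity)
    have hvc := v.2.1.continuous
    have h2 := hL v fun w => by rw [hv w]; exact Real.sqrt_nonneg _
    have h3 : ∫ w in X.F, |u.1 w| ≤ ∫ w in X.F, v.1 w := by
      refine integral_mono (hX.cl.integrableOn hu.abs) (hX.cl.integrableOn hvc) fun w => ?_
      show |u.1 w| ≤ v.1 w
      rw [hv w]
      exact Real.abs_le_sqrt (by nlinarith [sq_nonneg (δ / B)])
    have i1 := integrableOn_Dk (z := K.z z) (t := 1) (hK.s0 z) (hK.s1 z) (by norm_num) hu.abs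
    have i2 := integrableOn_Dk (z := K.z z) (t := 1) (f := fun _ => δ / B) (hK.s0 z) (hK.s1 z)
      (by norm_num) continuous_const
    have h4 : ∫ w in Dk (K.z z) (K.s z) 1, v.1 w ≤ (∫ w in Dk (K.z z) (K.s z) 1, |u.1 w|) +
        volume.real (Dk (K.z z) (K.s z) 1) * (δ / B) := by
      have e : ∫ _w in Dk (K.z z) (K.s z) 1, δ / B =
          volume.real (Dk (K.z z) (K.s z) 1) * (δ / B) := by
        rw [setIntegral_const, smul_eq_mul]
      rw [← e, ← integral_add i1 i2]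
      refine integral_mono (integrableOn_Dk (hK.s0 z) (hK.s1 z) (by norm_num) hvc) (i1.add i2)
        fun w => ?_
      show v.1 w ≤ |u.1 w| + δ / B
      have p : 0 ≤ δ / B := by positivity
      rw [hv w, Real.sqrt_le_left (by positivity)]
      nlinarith [sq_abs (u.1 w), abs_nonneg (u.1 w), mul_nonneg (abs_nonneg (u.1 w)) p]
    have h5 : √(P.q W (j v) (j v)) ≤ √(P.q W (j u) (j u)) + √C' * (δ / B) := by
      have p : 0 ≤ δ / B := by positivity
      have p1 := Real.sqrt_nonneg (P.q W (j u) (j u))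
      have p2 := Real.sqrt_nonneg C'
      rw [Real.sqrt_le_left (by positivity), add_sq, mul_pow, Real.sq_sqrt hQ, Real.sq_sqrt hC']
      have := mul_nonneg p1 (mul_nonneg p2 p)
      linarith
    have h6 : √(TCo1_q P j W v v) = √(P.q W (j v) (j v)) := rfl
    rw [h6] at h2
    have h7 := mul_le_mul_of_nonneg_left (add_le_add h4 h5) hC.le
    have h8 : B * (δ / B) = δ := by field_simp
    have h9 : 0 ≤ δ / B := by positivity
    have h10 : B * (δ / B) =
        C * (volume.real (Dk (K.z z) (K.s z) 1) + √C') * (δ / B) + δ / B := by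
      generalize δ / B = e
      rw [hB]
      ring
    generalize δ / B = e at *
    linarith
  have h1 := TCo1_loc hu (K.z z) (hK.s0 z) (hK.s1 z)
  have h2 := TCo1_ct h u z
  have h3 : ∫ y in ball (0 : ℂ) 3, u.1 (K.pt z y) * u.1 (K.pt z y) =
      ∫ y in ball (0 : ℂ) 3, u.1 (ch (K.z z) (K.s z) y) * u.1 (ch (K.z z) (K.s z) y) := rfl
  have p0 : 0 ≤ ∫ w in X.F, |u.1 w| := integral_nonneg fun w => abs_nonneg _
  have h4 := pow_le_pow_left₀ p0 key 2
  rw [Pb.q_add, h2, h3]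
  set A := ∫ w in Dk (K.z z) (K.s z) 1, |u.1 w|
  set T := ∫ y in ball (0 : ℂ) 3, u.1 (ch (K.z z) (K.s z) y) * u.1 (ch (K.z z) (K.s z) y)
  have h5 : (A + √(P.q W (j u) (j u))) ^ 2 ≤ 8 * (P.q W (j u) (j u) + T) := by
    have := Real.sq_sqrt hQ
    nlinarith [sq_nonneg (A - √(P.q W (j u) (j u)))]
  have h6 := mul_le_mul_of_nonneg_left h5 (sq_nonneg C)
  rw [mul_pow] at h4
  linarith

end Pool.Agent.MP_4f0ed6_gt.U

end

section

set_option autoImplicit false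
set_option linter.dupNamespace false

open MeasureTheory Set Metric Filter Topology
open scoped InnerProductSpace ENNReal Classical

namespace Pool.Agent.MP_4f0ed6_gt.U

theorem TRUSb_ins {n : ℕ} (W : LI n) (cb : ℝ) {z : Fin n} {Y : Finset (Fin n)} (h : z ∉ Y) :
    W + WZ cb (insert z Y) - (W + WZ cb Y) = WZ cb {z} := by
  simp only [WZ, Finset.sum_insert h, Finset.sum_singleton]
  abel

theorem TRUSb_low (hDOM : StDOM) (k : Cst) : All k fun n _ _ _ _ _ P =>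
    ∀ (K : ℝ) (W : LI n), 0 ≤ K → P.Co W → Bd W K → ∀ x y : L2 n, 0 ≤ x → 0 ≤ y →
    ∀ Z Y S : Finset (Fin n), Y ⊆ Z → S ⊆ Z → Disjoint S Y →
      ⟪x, P.G (W + WZ (k.cb (K + 1)) (Y ∪ S)) y⟫_ℝ + 1 / 2 * ∑ z ∈ S,
        ⟪pr z (P.G (W + WZ (k.cb (K + 1)) (Z.erase z)) x),
          P.G (W + WZ (k.cb (K + 1)) (insert z Z)) y⟫_ℝ ≤
        ⟪x, P.G (W + WZ (k.cb (K + 1)) Y) y⟫_ℝ := by
  intro n m H _ _ _ P hA K W hK hW hB x y hx hy Z Y0
  let g : Finset (Fin n) → Op n := fun Z => P.G (W + WZ (k.cb (K + 1)) Z)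
  let i : Fin n → ℝ := fun z => ⟪pr z (g (Z.erase z) x), g (insert z Z) y⟫_ℝ
  have hR := hA.ok.h5 (K + 1)
  have hcb : 0 ≤ k.cb (K + 1) := by unfold Cst.cb; positivity
  have co : ∀ Y, P.Co (W + WZ (k.cb (K + 1)) Y) := fun Y =>
    (hDOM k n m H P hA K W hK hW hB Y Y subset_rfl).1
  have bdd : ∀ Y, Bd (W + WZ (k.cb (K + 1)) Y) (K + 1) := fun Y => by
    simpa only [one_smul] using hB.add_WZ hcb zero_le_one le_rfl Y
  have pos : ∀ Y, Pp (g Y) := fun Y => hA.pos _ (co Y)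
  have le : ∀ Y Y', Y ⊆ Y' → Le (g Y') (g Y) := fun Y Y' h =>
    (hDOM k n m H P hA K W hK hW hB Y Y' h).2
  have mono : ∀ z Y1 Y2 Y1' Y2', Y1 ⊆ Y1' → Y2 ⊆ Y2' →
      ⟪pr z (g Y1' x), g Y2' y⟫_ℝ ≤ ⟪pr z (g Y1 x), g Y2 y⟫_ℝ := fun z Y1 Y2 Y1' Y2' h1 h2 =>
    (inner_mono_left (pos _ y hy) ((ct_pp z 3).mono (le _ _ h1 x hx))).trans
      (inner_mono_right (ct_pp z 3 _ (pos _ x hx)) (le _ _ h2 y hy))
  have half : ∀ z Y Y', k.cb (K + 1) * ⟪ct z 10 (g Y x), g Y' y⟫_ℝ ≤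
      1 / 2 * ⟪pr z (g Y x), g Y' y⟫_ℝ := fun z Y Y' => by
    have h1 := hA.rev (K + 1) _ _ (by linarith) (co Y) (co Y') (bdd Y) (bdd Y') x y hx hy z
    have h2 : ⟪ct z 1 (g Y x), g Y' y⟫_ℝ ≤ ⟪pr z (g Y x), g Y' y⟫_ℝ :=
      inner_mono_left (pos _ y hy) (mul_le (ind_mono z (by norm_num)) _ (pos _ x hx))
    have h3 : ⟪ct z 10 (g Y x), g Y' y⟫_ℝ ≤ k.CR (K + 1) * ⟪pr z (g Y x), g Y' y⟫_ℝ := by
      rw [inner_ct]
      exact ((real_inner_le_norm _ _).trans h1).trans (mul_le_mul_of_nonneg_left h2 hR.le)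
    refine (mul_le_mul_of_nonneg_left h3 hcb).trans (le_of_eq ?_)
    unfold Cst.cb
    field_simp
  have step : ∀ z Y, z ∉ Y → ⟪x, g Y y⟫_ℝ - ⟪x, g (insert z Y) y⟫_ℝ =
      ⟪pr z (g Y x), g (insert z Y) y⟫_ℝ -
        k.cb (K + 1) * ⟪ct z 10 (g Y x), g (insert z Y) y⟫_ℝ := fun z Y h => by
    have := (co Y).res_inner hA.sym (co (insert z Y)) x y
    rwa [TRUSb_ins W _ h, inner_mul_WZ, Finset.sum_singleton] at this
  intro S h0
  show S ⊆ Z → Disjoint S Y0 → ⟪x, g (Y0 ∪ S) y⟫_ℝ + 1 / 2 * ∑ z ∈ S, i z ≤ ⟪x, g Y0 y⟫_ℝ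
  induction S using Finset.induction_on with
  | empty => simp
  | insert z S hz ih =>
    intro hS hd
    obtain ⟨d1, d2⟩ := Finset.disjoint_insert_left.1 hd
    have h1 : S ⊆ Z := (Finset.subset_insert z S).trans hS
    have h2 : Y0 ∪ S ⊆ Z := Finset.union_subset h0 h1
    have h3 : z ∉ Y0 ∪ S := fun e => (Finset.mem_union.1 e).elim d1 hz
    have h4 : i z ≤ _ := mono z (Y0 ∪ S) (insert z (Y0 ∪ S)) _ _ (Finset.subset_erase.2 ⟨h2, h3⟩)
      (Finset.insert_subset_insert z h2)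
    rw [Finset.sum_insert hz, Finset.union_insert]
    linarith [ih h1 d2, step z _ h3, half z (Y0 ∪ S) (insert z (Y0 ∪ S))]

theorem TRUSb_step {n M : ℕ} {Φ : Finset (Fin n) → ℝ} {I : Finset (Fin n) → Fin n → ℝ} {D a : ℝ}
    (hD : 0 < D) (ha : 2 * ((M : ℝ) + 1) * D ≤ a) (i0 : ∀ Z z, 0 ≤ I Z z)
    (tog : ∀ Z z, I (insert z Z) z = I (Z.erase z) z)
    (low : ∀ Z Y S, Y ⊆ Z → S ⊆ Z → Disjoint S Y → Φ (Y ∪ S) + 1 / 2 * ∑ z ∈ S, I Z z ≤ Φ Y)
    {T S : Finset (Fin n)} (hd : Disjoint S T) (up : ∀ Z, a * Φ Z ≤ D * ∑ z ∈ S, I Z z) :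
    2 * ∑ ξ : Fin n → Fin (M + 1), Φ (Zx ξ ∩ (T ∪ S)) ≤
      ∑ ξ : Fin n → Fin (M + 1), Φ (Zx ξ ∩ T) := by
  have h2 : ((M : ℝ) + 1) * ∑ ξ : Fin n → Fin (M + 1), ∑ z ∈ S ∩ Zx ξ, I (Zx ξ ∩ (T ∪ S)) z =
      ∑ ξ : Fin n → Fin (M + 1), ∑ z ∈ S, I (Zx ξ ∩ (T ∪ S)) z := by
    simp only [← Finset.sum_ite_mem]
    rw [Finset.sum_comm, Finset.mul_sum, Finset.sum_comm (f := fun ξ z => I (Zx ξ ∩ (T ∪ S)) z)]
    refine Finset.sum_congr rfl fun z hz => sum_Zx_mem z (fun Z => I (Z ∩ (T ∪ S)) z) fun Z => ?_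
    rw [Finset.insert_inter_of_mem (Finset.mem_union_right _ hz), Finset.erase_inter, tog]
  have h3 := Finset.sum_le_sum fun (ξ : Fin n → Fin (M + 1)) (_ : ξ ∈ Finset.univ) =>
    up (Zx ξ ∩ (T ∪ S))
  have h4 := Finset.sum_le_sum fun (ξ : Fin n → Fin (M + 1)) (_ : ξ ∈ Finset.univ) =>
    low (Zx ξ ∩ (T ∪ S)) (Zx ξ ∩ T) (S ∩ Zx ξ)
      (Finset.inter_subset_inter_left Finset.subset_union_left)
      (Finset.subset_inter Finset.inter_subset_right
        (Finset.inter_subset_left.trans Finset.subset_union_right))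
      (Finset.disjoint_of_subset_left Finset.inter_subset_left
        (Finset.disjoint_of_subset_right Finset.inter_subset_right hd))
  have e : ∀ ξ : Fin n → Fin (M + 1), Zx ξ ∩ T ∪ S ∩ Zx ξ = Zx ξ ∩ (T ∪ S) := fun ξ => by
    rw [Finset.inter_comm S, Finset.inter_union_distrib_left]
  simp only [e] at h4
  rw [← Finset.mul_sum, ← Finset.mul_sum, ← h2] at h3
  rw [Finset.sum_add_distrib, ← Finset.mul_sum] at h4
  have h5 : 0 ≤ ∑ ξ : Fin n → Fin (M + 1), ∑ z ∈ S ∩ Zx ξ, I (Zx ξ ∩ (T ∪ S)) z :=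
    Finset.sum_nonneg fun _ _ => Finset.sum_nonneg fun _ _ => i0 _ _
  generalize ∑ ξ : Fin n → Fin (M + 1), ∑ z ∈ S ∩ Zx ξ, I (Zx ξ ∩ (T ∪ S)) z = b at *
  generalize ∑ ξ : Fin n → Fin (M + 1), Φ (Zx ξ ∩ (T ∪ S)) = u at *
  have hE : (0 : ℝ) < (M + 1) * D := by positivity
  have h6 : 2 * u ≤ b := by
    rcases le_total u 0 with h | h
    · linarith
    · refine le_of_mul_le_mul_left ?_ hE
      have := mul_le_mul_of_nonneg_right ha h
      linarith
  linarith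

theorem TRUSb_abs {n M N g0 : ℕ} {Φ : Finset (Fin n) → ℝ} {I : Finset (Fin n) → Fin n → ℝ} {D : ℝ}
    (hD : 0 < D) (ha : 2 * ((M : ℝ) + 1) * D ≤ g0) (i0 : ∀ Z z, 0 ≤ I Z z)
    (tog : ∀ Z z, I (insert z Z) z = I (Z.erase z) z)
    (low : ∀ Z Y S, Y ⊆ Z → S ⊆ Z → Disjoint S Y → Φ (Y ∪ S) + 1 / 2 * ∑ z ∈ S, I Z z ≤ Φ Y)
    {B : ℕ → Finset (Fin n)} (hB : ∀ j j', j ≠ j' → Disjoint (B j) (B j'))
    (up : ∀ Z, ∀ j < N, Φ Z ≤ D * ∑ z ∈ B j, I Z z) (t : ℕ) (ht : t * g0 ≤ N) :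
    ∑ ξ : Fin n → Fin (M + 1), Φ (Zx ξ ∩ (Finset.range (t * g0)).biUnion B) ≤
      (Fintype.card (Fin n → Fin (M + 1)) : ℝ) * ((1 / 2) ^ t * Φ ∅) := by
  induction t with
  | zero => simp
  | succ t ih =>
    have h0 : t * g0 ≤ (t + 1) * g0 := Nat.mul_le_mul_right _ (Nat.le_succ t)
    have h1 := ih (h0.trans ht)
    have e : (Finset.range ((t + 1) * g0)).biUnion B = (Finset.range (t * g0)).biUnion B ∪
        (Finset.Ico (t * g0) ((t + 1) * g0)).biUnion B := by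
      rw [← Finset.union_biUnion, Finset.range_eq_Ico, Finset.range_eq_Ico,
        Finset.Ico_union_Ico_eq_Ico (Nat.zero_le _) h0]
    have h2 := TRUSb_step (M := M) hD ha i0 tog low (T := (Finset.range (t * g0)).biUnion B)
      (S := (Finset.Ico (t * g0) ((t + 1) * g0)).biUnion B)
      ((Finset.disjoint_biUnion_left _ _ _).2 fun j hj => (Finset.disjoint_biUnion_right _ _ _).2
        fun j' hj' => hB j j' (by
          have := Finset.mem_Ico.1 hj
          have := Finset.mem_range.1 hj'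
          omega))
      (fun Z => by
        rw [Finset.sum_biUnion fun j _ j' _ h => hB j j' h, Finset.mul_sum, ← nsmul_eq_mul]
        have hc : (Finset.Ico (t * g0) ((t + 1) * g0)).card = g0 := by
          rw [Nat.card_Ico, add_mul, one_mul, Nat.add_sub_cancel_left]
        conv_lhs => rw [← hc]
        exact Finset.card_nsmul_le_sum _ _ _ fun j hj =>
          up Z j ((Finset.mem_Ico.1 hj).2.trans_le ht))
    rw [e, pow_succ]
    linarith

theorem stRUSb (hDOM : StDOM) (hRUS1 : StRUS1) : StRUSb := by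
  intro k n m H _ _ _ P hA K W hK hW hB M N c x y hx hy hc hc'
  have h := hRUS1 k n m H P hA K W hK hW hB x y hx hy
  have low := TRUSb_low hDOM k n m H P hA K W hK hW hB x y hx hy
  have dom := fun Z Z' hZ => (hDOM k n m H P hA K W hK hW hB Z Z' hZ).2
  obtain ⟨g, hg⟩ : ∃ g : Finset (Fin n) → Op n, g = fun Z => P.G (W + WZ (k.cb (K + 1)) Z) :=
    ⟨_, rfl⟩
  have e : ∀ Z, P.G (W + WZ (k.cb (K + 1)) Z) = g Z := fun Z => by rw [hg]
  have e0 : P.G W = g ∅ := by rw [← e, WZ, Finset.sum_empty, add_zero]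
  simp only [e] at h low dom ⊢
  rw [e0, Cst.th2]
  obtain ⟨I, hI⟩ : ∃ I : Finset (Fin n) → Fin n → ℝ,
    ∀ Z z, ⟪pr z (g (Z.erase z) x), g (insert z Z) y⟫_ℝ = I Z z := ⟨_, fun _ _ => rfl⟩
  simp only [hI] at h low
  have hD : 0 < 1 + k.Cf * √(1 + (K + 1)) := by have := hA.ok.h3; positivity
  generalize 1 + k.Cf * √(1 + (K + 1)) = D at *
  have key : ∀ j j', j < j' → Disjoint (bd P.adj {a | near P.adj (2 * j + 1) (.inl c) a})
      (bd P.adj {a | near P.adj (2 * j' + 1) (.inl c) a}) := fun j j' h =>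
    Finset.disjoint_left.2 fun z h1 h2 =>
      (hA.gr.bd_ball h2).2 (hA.gr.near_mono (by omega) (hA.gr.bd_ball h1).1)
  refine le_trans (Finset.sum_le_sum fun ξ _ => inner_mono_right hx
    (dom _ _ Finset.inter_subset_left y hy)) (TRUSb_abs (Φ := fun Z => ⟪x, g Z y⟫_ℝ) (I := I)
    (N := N) hD (Nat.le_ceil _) (fun Z => (h Z).1) (fun Z z => ?_) low
    (B := fun j => bd P.adj {a | near P.adj (2 * j + 1) (.inl c) a})
    (fun j j' h => (lt_or_gt_of_ne h).elim (key j j') fun h' => (key j' j h').symm)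
    (fun Z j hj => (h Z).2.2 _ (hc.mono ?_) (hc'.mono ?_)) _ (Nat.div_mul_le_self _ _))
  · have e1 : insert z (Z.erase z) = insert z Z := by
      ext a
      by_cases h : a = z <;> simp [h]
    rw [← hI, ← hI, e1]
    simp
  · rintro _ rfl a ha
    exact hA.gr.near_mono (by omega) (near_one.2 ha)
  · intro c' h1 a ha h2
    exact h1 (mem_bl.2 (hA.gr.near_mono (by omega)
      (near_add h2 (near_one.2 (hA.gr.symm _ _ ha)))))

end Pool.Agent.MP_4f0ed6_gt.U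

end
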