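import Pool.Agent.Mg.F4f0ed6a.Gb427fa
import Pool.Agent.Mg.F4f0ed6a.Ga5385d

section

set_option autoImplicit false
set_option linter.dupNamespace false

open MeasureTheory Set Metric Filter Topology
open scoped ContDiff ENNReal NNReal

namespace Pool.Agent.MP_4f0ed6_gt.U

theorem TSob_int {f : ℂ → ℝ} (hf : Continuous f) (r : ℝ) : IntegrableOn f (ball 0 r) :=
  (hf.continuousOn.integrableOn_compact (isCompact_closedBall 0 r)).mono_set ball_subset_closedBall

theorem TSob_gns : ∃ C : ℝ, 0 ≤ C ∧ ∀ v : ℂ → ℝ, ContDiff ℝ ∞ v → tsupport v ⊆ ball 0 11 →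
    ∫ y in ball 0 10, v y ^ 16 ≤ C * (∫ y in ball 0 11, (dx v y ^ 2 + dy v y ^ 2)) ^ 8 := by
  obtain ⟨C1, h1⟩ : ∃ C1 : ℝ≥0, ∀ v : ℂ → ℝ, ContDiff ℝ 1 v → v.support ⊆ ball 0 11 →
      eLpNorm v (16 : ℝ≥0) volume ≤ C1 * eLpNorm (fderiv ℝ v) (16 / 9 : ℝ≥0) volume :=
    ⟨_, fun v hv hs => eLpNorm_le_eLpNorm_fderiv_of_le volume hv hs
      (by rw [← NNReal.coe_le_coe]; norm_num)
      (by rw [← NNReal.coe_lt_coe, Complex.finrank_real_complex]; norm_num)
      (by rw [Complex.finrank_real_complex]; norm_num) isBounded_ball⟩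
  obtain ⟨C2, h2⟩ : ∃ C2 : ℝ≥0, ∀ f : ℂ → ℂ →L[ℝ] ℝ, Continuous f →
      eLpNorm f (16 / 9 : ℝ≥0) (volume.restrict (ball 0 11)) ≤
        eLpNorm f 2 (volume.restrict (ball 0 11)) * C2 := by
    refine ⟨(volume (ball (0 : ℂ) 11) ^ (1 / ((16 / 9 : ℝ≥0) : ℝ≥0∞).toReal -
      1 / (2 : ℝ≥0∞).toReal)).toNNReal, fun f hf => ?_⟩
    rw [ENNReal.coe_toNNReal (ENNReal.rpow_ne_top_of_nonneg (by norm_num) measure_ball_lt_top.ne),
      ← Measure.restrict_apply_univ]
    refine eLpNorm_le_eLpNorm_mul_rpow_measure_univ ?_ hf.aestronglyMeasurable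
    rw [← ENNReal.coe_ofNat, ENNReal.coe_le_coe, ← NNReal.coe_le_coe]
    norm_num
  refine ⟨(C1 * C2) ^ 16, by positivity, fun v hv hs => ?_⟩
  have hc : HasCompactSupport v :=
    (isCompact_closedBall 0 11).of_isClosed_subset (isClosed_tsupport v)
      (hs.trans ball_subset_closedBall)
  have hd : Continuous (fderiv ℝ v) := hv.continuous_fderiv (by simp)
  have h3 := h1 v (hv.of_le (by simp)) ((subset_tsupport v).trans hs)
  rw [← eLpNorm_restrict_eq_of_support_subset (f := fderiv ℝ v)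
    ((support_fderiv_subset ℝ).trans hs)] at h3
  replace h3 := h3.trans (mul_le_mul_right (h2 _ hd) _)
  rw [(hv.continuous.memLp_of_hasCompactSupport hc).eLpNorm_eq_integral_rpow_norm (by simp)
    (by simp), ((hd.memLp_of_hasCompactSupport (hc.fderiv ℝ)).restrict _
      ).eLpNorm_eq_integral_rpow_norm (by simp) (by simp), ← ENNReal.ofReal_coe_nnreal (p := C1),
    ← ENNReal.ofReal_coe_nnreal (p := C2), ← ENNReal.ofReal_mul' C2.coe_nonneg,
    ← ENNReal.ofReal_mul C1.coe_nonneg, ENNReal.ofReal_le_ofReal_iff (by positivity)] at h3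
  simp only [ENNReal.coe_ofNat, ENNReal.toReal_ofNat, Real.rpow_ofNat, norm_fderiv_sq,
    Real.norm_eq_abs, Even.pow_abs (show Even 16 by decide)] at h3
  have e1 : 0 ≤ ∫ y, v y ^ 16 := integral_nonneg fun y => by positivity
  have e2 : 0 ≤ ∫ y in ball 0 11, (dx v y ^ 2 + dy v y ^ 2) :=
    integral_nonneg fun y => by positivity
  have h4 := pow_le_pow_left₀ (Real.rpow_nonneg e1 _) h3 16
  rw [← Real.rpow_natCast, ← Real.rpow_mul e1, mul_pow, mul_pow,
    ← Real.rpow_natCast (_ ^ (2 : ℝ)⁻¹), ← Real.rpow_mul e2,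
    show (16 : ℝ)⁻¹ * (16 : ℕ) = 1 by norm_num, show (2 : ℝ)⁻¹ * (16 : ℕ) = (8 : ℕ) by norm_num,
    Real.rpow_one, Real.rpow_natCast] at h4
  refine (setIntegral_le_integral ?_ (ae_of_all _ fun y => by positivity)).trans
    (h4.trans_eq (by ring))
  exact (hv.continuous.pow 16).integrable_of_hasCompactSupport
    (hc.mono fun y hy e => hy (by rw [Pi.pow_apply, e]; norm_num))

theorem stSob : StSob := by
  obtain ⟨C, hC, h1⟩ := TSob_gns
  obtain ⟨ζ, z1, z2, z3, z4, z5, M, z6⟩ := exists_cut (a := 10) (b := 11) (by norm_num)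
    (by norm_num)
  have hM : 0 ≤ M := le_trans (by positivity) (z6 0)
  refine ⟨C * (2 * M * √(∫ _ in ball (0 : ℂ) 11, (1 : ℝ) ^ 2) + 1) ^ 8 + 1, by positivity,
    fun u ε hu h0 hε => ?_⟩
  have hp : ∀ y, 0 < u y + ε := fun y => add_pos_of_nonneg_of_pos (h0 y) hε
  have hw : ∀ a : ℝ, ContDiff ℝ ∞ fun y => (u y + ε) ^ a :=
    fun a => (hu.add contDiff_const).rpow_const_of_ne fun y => (hp y).ne'
  have hv := z1.mul (hw (1 / 4))
  have h2 := h1 _ hv ((tsupport_mul_subset_left (f := ζ)).trans z5)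
  have cx := fun {f : ℂ → ℝ} (hf : ContDiff ℝ ∞ f) =>
    ((contDiff_dx hf).continuous.pow 2).add ((contDiff_dy hf).continuous.pow 2)
  have h3 : ∀ y, dx (fun y => ζ y * (u y + ε) ^ (1 / 4 : ℝ)) y ^ 2 +
      dy (fun y => ζ y * (u y + ε) ^ (1 / 4 : ℝ)) y ^ 2 ≤ 2 * M * (1 * (u y + ε) ^ (1 / 2 : ℝ)) +
        (dx u y ^ 2 + dy u y ^ 2) * (u y + ε) ^ (-(3 / 2) : ℝ) := fun y => by
    have d1 := (z1.differentiable (by simp)) y
    have d2 := ((hw (1 / 4)).differentiable (by simp)) y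
    have d3 := (hu.differentiable (by simp)) y
    have d4 : HasDerivAt (fun t : ℝ => (t + ε) ^ (1 / 4 : ℝ))
        (1 / 4 * (u y + ε) ^ (-(3 / 4) : ℝ)) (u y) := by
      convert ((hasDerivAt_id (u y)).add_const ε).rpow_const (p := 1 / 4) (Or.inl (hp y).ne')
        using 1
      all_goals first | rfl | norm_num
    have e1 : (u y + ε) ^ (1 / 2 : ℝ) = ((u y + ε) ^ (1 / 4 : ℝ)) ^ 2 := by
      rw [← Real.rpow_natCast, ← Real.rpow_mul (hp y).le]
      norm_num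
    have e2 : (u y + ε) ^ (-(3 / 2) : ℝ) = ((u y + ε) ^ (-(3 / 4) : ℝ)) ^ 2 := by
      rw [← Real.rpow_natCast, ← Real.rpow_mul (hp y).le]
      norm_num
    rw [dx_mul d1 d2, dy_mul d1 d2, dx_comp d4 d3, dy_comp d4 d3, e1, e2]
    have e3 := z6 y
    have e4 : ζ y ^ 2 ≤ 1 := pow_le_one₀ (z2 y) (z3 y)
    generalize (u y + ε) ^ (1 / 4 : ℝ) = a, (u y + ε) ^ (-(3 / 4) : ℝ) = b, dx ζ y = p,
      dy ζ y = q, dx u y = s, dy u y = t, ζ y = z at e3 e4 ⊢
    nlinarith [sq_nonneg (p * a - z * (1 / 4 * b * s)), sq_nonneg (q * a - z * (1 / 4 * b * t)),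
      mul_le_mul_of_nonneg_right e3 (sq_nonneg a),
      mul_le_mul_of_nonneg_right e4 (show 0 ≤ (s ^ 2 + t ^ 2) * b ^ 2 by positivity),
      show 0 ≤ (s ^ 2 + t ^ 2) * b ^ 2 by positivity]
  have i1 := TSob_int (continuous_const.mul (hw (1 / 2)).continuous (f := fun _ => (1 : ℝ))) 11
  have i2 := TSob_int ((cx hu).mul (hw (-(3 / 2))).continuous) 11
  have h4 := setIntegral_mono (TSob_int (cx hv) 11) ((i1.const_mul (2 * M)).add i2) h3
  have m : ∀ {f : ℂ → ℝ}, Continuous f → MemLp f 2 (volume.restrict (ball 0 11)) := fun hf =>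
    (memLp_two_iff_integrable_sq hf.aestronglyMeasurable).2 (TSob_int (hf.pow 2) 11)
  have h5 := (le_abs_self _).trans
    (integral_cs (m (continuous_const (y := (1 : ℝ)))) (m (hw (1 / 2)).continuous))
  have e5 : ∀ y, ((u y + ε) ^ (1 / 2 : ℝ)) ^ 2 = u y + ε := fun y => by
    rw [← Real.rpow_natCast, ← Real.rpow_mul (hp y).le]
    norm_num
  simp only [e5] at h5
  rw [integral_add' (i1.const_mul (2 * M)) i2, integral_const_mul] at h4
  simp only [Pi.mul_apply, Pi.add_apply, Pi.pow_apply] at h4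
  have hB : 0 ≤ ∫ y in ball 0 11, (dx u y ^ 2 + dy u y ^ 2) * (u y + ε) ^ (-(3 / 2) : ℝ) :=
    integral_nonneg fun y => mul_nonneg (by positivity) (Real.rpow_nonneg (hp y).le _)
  have h6 : ∫ y in ball 0 10, u y ^ 4 ≤
      ∫ y in ball 0 10, (ζ y * (u y + ε) ^ (1 / 4 : ℝ)) ^ 16 := by
    refine setIntegral_mono_on (TSob_int (hu.continuous.pow 4) 10)
      (TSob_int (hv.continuous.pow 16) 10) measurableSet_ball fun y hy => ?_
    rw [z4 y (mem_ball_zero_iff.1 hy).le, one_mul, ← Real.rpow_natCast _ 16,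
      ← Real.rpow_mul (hp y).le, show (1 / 4 : ℝ) * (16 : ℕ) = (4 : ℕ) by norm_num,
      Real.rpow_natCast]
    exact pow_le_pow_left₀ (h0 y) (by linarith) 4
  refine h6.trans (h2.trans ?_)
  rw [add_mul, mul_assoc, ← mul_pow]
  refine le_add_of_le_of_nonneg (mul_le_mul_of_nonneg_left (pow_le_pow_left₀
    (integral_nonneg fun y => by positivity) (h4.trans ?_) 8) hC) (by positivity)
  have h7 := mul_le_mul_of_nonneg_left h5 (show 0 ≤ 2 * M by positivity)
  have h8 := Real.sqrt_nonneg (∫ y in ball 0 11, (u y + ε))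
  have h9 : 0 ≤ 2 * M * √(∫ _ in ball (0 : ℂ) 11, (1 : ℝ) ^ 2) := by positivity
  nlinarith [mul_nonneg h9 hB]

end Pool.Agent.MP_4f0ed6_gt.U

end

section

set_option autoImplicit false
set_option linter.dupNamespace false

open MeasureTheory Set Metric Filter Topology
open scoped ContDiff ENNReal

namespace Pool.Agent.MP_4f0ed6_gt.U

theorem TCac_int {f c : ℂ → ℝ} (hf : MemLp f 2 mu) (hc : Continuous c) :
    Integrable (fun y => f y * c y) mu :=
  hf.integrable_mul (memLp_mu (p := 2) hc)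

theorem TCac_cont {ε : ℝ} (hε : 0 < ε) (p : ℝ) :
    ContinuousOn (fun s : ℝ => (s + ε) ^ p) (Ici 0) :=
  (continuousOn_id.add continuousOn_const).rpow_const fun _ hs =>
    Or.inl (add_pos_of_nonneg_of_pos hs hε).ne'

theorem TCac_bd {ε p : ℝ} (hε : 0 < ε) (hp : p ≤ 0) (s : ℝ) (hs : 0 ≤ s) :
    |(s + ε) ^ p| ≤ ε ^ p := by
  rw [abs_of_nonneg (Real.rpow_nonneg (by linarith) p)]
  exact Real.rpow_le_rpow_of_nonpos hε (by linarith) hp

theorem TCac_young {β : ℝ} (hβ : 0 < β) (p q : ℝ) : 2 * p * q ≤ β / 2 * p ^ 2 + 2 / β * q ^ 2 := by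
  have h : β / 2 * p ^ 2 + 2 / β * q ^ 2 - 2 * p * q = (β * p - 2 * q) ^ 2 / (2 * β) := by
    field_simp
    ring
  have : 0 ≤ (β * p - 2 * q) ^ 2 / (2 * β) := by positivity
  linarith

theorem TCac_pow {t : ℝ} (ht : 0 < t) (β : ℝ) :
    t ^ (-β) = t * t ^ (-1 - β) ∧ t ^ (1 - β) = t * t ^ (-β) := by
  constructor
  · rw [show -β = 1 + (-1 - β) by ring, Real.rpow_add ht, Real.rpow_one]
  · rw [sub_eq_add_neg, Real.rpow_add ht, Real.rpow_one]

theorem TCac_pt {K β ε g a b z c d : ℝ} (hK : 0 ≤ K) (hβ : 0 < β) (hε : 0 < ε) (hg : 0 ≤ g) :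
    (a * (2 * z * c) + b * (2 * z * d) + g * (K * z ^ 2)) * (g + ε) ^ (-β) ≤
      β / 2 * (z ^ 2 * ((a ^ 2 + b ^ 2) * (g + ε) ^ (-1 - β))) +
        (2 / β * (c ^ 2 + d ^ 2) + K * z ^ 2) * (g + ε) ^ (1 - β) := by
  have t0 : 0 < g + ε := by linarith
  obtain ⟨e1, e2⟩ := TCac_pow t0 β
  have a0 : 0 ≤ (g + ε) ^ (-1 - β) := Real.rpow_nonneg t0.le _
  rw [e2, e1]
  generalize (g + ε) ^ (-1 - β) = w at a0
  have h1 := mul_le_mul_of_nonneg_right (TCac_young hβ (z * a) ((g + ε) * c)) a0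
  have h2 := mul_le_mul_of_nonneg_right (TCac_young hβ (z * b) ((g + ε) * d)) a0
  have h3 : 0 ≤ K * z ^ 2 * (ε * ((g + ε) * w)) := by positivity
  nlinarith

theorem TCac_test {K β ε : ℝ} {g gx gy u ζ : ℂ → ℝ} (H : Sup K g gx gy) (hε : 0 < ε)
    (m0 : MemLp g 2 mu) (m1 : MemLp gx 2 mu) (m2 : MemLp gy 2 mu)
    (hu : ContDiff ℝ ∞ u) (u0 : ∀ y, 0 ≤ u y) (hζ : ContDiff ℝ ∞ ζ)
    (hs : tsupport ζ ⊆ ball 0 16) :
    β * ∫ y, ζ y ^ 2 * ((gx y * dx u y + gy y * dy u y) * (u y + ε) ^ (-1 - β)) ∂mu ≤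
      ∫ y, (gx y * (2 * ζ y * dx ζ y) + gy y * (2 * ζ y * dy ζ y) + g y * (K * ζ y ^ 2)) *
        (u y + ε) ^ (-β) ∂mu := by
  have p0 : ∀ y, 0 < u y + ε := fun y => add_pos_of_nonneg_of_pos (u0 y) hε
  have s1 : ∀ p : ℝ, ContDiff ℝ ∞ fun y => (u y + ε) ^ p := fun p =>
    (hu.add contDiff_const).rpow_const_of_ne fun y => (p0 y).ne'
  have h := H.sup (fun y => ζ y * (ζ y * (u y + ε) ^ (-β))) (hζ.mul (hζ.mul (s1 _)))
    (tsupport_mul_subset_left.trans hs) fun y => by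
      rw [← mul_assoc]
      exact mul_nonneg (mul_self_nonneg _) (Real.rpow_nonneg (p0 y).le _)
  have dζ : ∀ y, DifferentiableAt ℝ ζ y := fun y => hζ.differentiable (by simp) y
  have du : ∀ y, DifferentiableAt ℝ u y := fun y => hu.differentiable (by simp) y
  have dp : ∀ y, DifferentiableAt ℝ (fun y => (u y + ε) ^ (-β)) y := fun y =>
    (s1 _).differentiable (by simp) y
  have dφ : ∀ y, HasDerivAt (fun s : ℝ => (s + ε) ^ (-β)) (-β * (u y + ε) ^ (-1 - β)) (u y) :=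
    fun y => by
      have := ((hasDerivAt_id' (u y)).add_const ε).rpow_const (p := -β) (Or.inl (p0 y).ne')
      rwa [one_mul, show -β - 1 = -1 - β by ring] at this
  have cζ := hζ.continuous
  have cx := (contDiff_dx hζ).continuous
  have cy := (contDiff_dy hζ).continuous
  have cux := (contDiff_dx hu).continuous
  have cuy := (contDiff_dy hu).continuous
  have c1 := (s1 (-β)).continuous
  have c2 := (s1 (-1 - β)).continuous
  have i1 : Integrable (fun y => (gx y * (2 * ζ y * dx ζ y) + gy y * (2 * ζ y * dy ζ y) +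
      g y * (K * ζ y ^ 2)) * (u y + ε) ^ (-β)) mu := by
    refine (((TCac_int m1 (c := fun y => 2 * ζ y * dx ζ y * (u y + ε) ^ (-β)) (by fun_prop)).add
      (TCac_int m2 (c := fun y => 2 * ζ y * dy ζ y * (u y + ε) ^ (-β)) (by fun_prop))).add
      (TCac_int m0 (c := fun y => K * ζ y ^ 2 * (u y + ε) ^ (-β)) (by fun_prop))).congr
      (Eventually.of_forall fun y => ?_)
    simp only [Pi.add_apply]
    ring
  have i2 : Integrable (fun y =>
      ζ y ^ 2 * ((gx y * dx u y + gy y * dy u y) * (u y + ε) ^ (-1 - β))) mu := by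
    refine ((TCac_int m1 (c := fun y => ζ y ^ 2 * dx u y * (u y + ε) ^ (-1 - β)) (by fun_prop)).add
      (TCac_int m2 (c := fun y => ζ y ^ 2 * dy u y * (u y + ε) ^ (-1 - β)) (by fun_prop))).congr
      (Eventually.of_forall fun y => ?_)
    simp only [Pi.add_apply]
    ring
  rw [← sub_nonneg, ← integral_const_mul, ← integral_sub i1 (i2.const_mul β)]
  refine h.trans_eq (integral_congr_ae (Eventually.of_forall fun y => ?_))
  simp only
  rw [dx_mul (dζ y) ((dζ y).fun_mul (dp y)), dx_mul (dζ y) (dp y), dx_comp (dφ y) (du y),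
    dy_mul (dζ y) ((dζ y).fun_mul (dp y)), dy_mul (dζ y) (dp y), dy_comp (dφ y) (du y)]
  ring

theorem stCac : StCac := by
  intro K g gx gy hK H β ε hβ _ hε ζ hζ hs
  obtain ⟨u, A⟩ := H.apx
  have cζ := hζ.continuous
  have cx := (contDiff_dx hζ).continuous
  have cy := (contDiff_dy hζ).continuous
  have hc : HasCompactSupport ζ :=
    Metric.isCompact_of_isClosed_isBounded (isClosed_tsupport ζ) (isBounded_ball.subset hs)
  obtain ⟨M, hM⟩ := cζ.bounded_above_of_compact_support hc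
  have hM2 : ∀ y, |ζ y ^ 2| ≤ M ^ 2 := fun y => by
    rw [abs_pow]
    exact pow_le_pow_left₀ (abs_nonneg _) (hM y) 2
  have mζ : AEStronglyMeasurable (fun y => ζ y ^ 2) mu := (cζ.pow 2).aestronglyMeasurable
  have j1 : Integrable (fun y => gx y * (2 * ζ y * dx ζ y) + gy y * (2 * ζ y * dy ζ y) +
      g y * (K * ζ y ^ 2)) mu :=
    ((TCac_int A.m1 (by fun_prop)).add (TCac_int A.m2 (by fun_prop))).add
      (TCac_int A.m0 (by fun_prop))
  obtain ⟨i1, l1⟩ := A.lim_bdd j1 (TCac_cont hε (-β)) (TCac_bd hε (by linarith))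
  have l2 := A.lim_mix mζ hM2 (TCac_cont hε (-1 - β)) (TCac_bd hε (by linarith))
  obtain ⟨i2, -⟩ := A.lim_grad mζ hM2 (TCac_cont hε (-1 - β)) (TCac_bd hε (by linarith))
  have h1 := le_of_tendsto_of_tendsto' (l2.const_mul β) l1 fun k =>
    TCac_test H hε A.m0 A.m1 A.m2 (A.sm k) (A.nn k) hζ hs
  have j3 : Integrable (fun y =>
      (g y + ε) * (2 / β * (dx ζ y ^ 2 + dy ζ y ^ 2) + K * ζ y ^ 2)) mu :=
    TCac_int (A.m0.add (memLp_const ε)) (by fun_prop)
  have i3 : Integrable (fun y =>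
      (2 / β * (dx ζ y ^ 2 + dy ζ y ^ 2) + K * ζ y ^ 2) * (g y + ε) ^ (1 - β)) mu := by
    refine (A.lim_bdd j3 (TCac_cont hε (-β)) (TCac_bd hε (by linarith))).1.congr ?_
    filter_upwards [A.nn'] with y hy
    rw [(TCac_pow (add_pos_of_nonneg_of_pos hy hε) β).2]
    ring
  have h2 := integral_mono_ae i1 ((i2.const_mul (β / 2)).add i3) (by
    filter_upwards [A.nn'] with y hy
    exact TCac_pt hK hβ hε hy)
  simp only [Pi.add_apply] at h2
  rw [integral_add (i2.const_mul (β / 2)) i3, integral_const_mul] at h2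
  linarith

end Pool.Agent.MP_4f0ed6_gt.U

end

section

set_option autoImplicit false
set_option linter.dupNamespace false

open MeasureTheory Set Metric Filter Topology
open scoped ContDiff ENNReal

namespace Pool.Agent.MP_4f0ed6_gt.U

noncomputable def TBar_s (N : ℝ) (y : ℂ) : ℝ := (169 - (y.re * y.re + y.im * y.im)) * N

theorem TBar_sm (N : ℝ) : ContDiff ℝ ∞ (TBar_s N) :=
  (contDiff_const.sub ((Complex.reCLM.contDiff.mul Complex.reCLM.contDiff).add
    (Complex.imCLM.contDiff.mul Complex.imCLM.contDiff))).mul contDiff_const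

theorem TBar_d (N : ℝ) (y : ℂ) :
    dx (TBar_s N) y = y.re * (-2 * N) ∧ dy (TBar_s N) y = y.im * (-2 * N) := by
  have r : HasFDerivAt (fun y : ℂ => y.re) Complex.reCLM y := Complex.reCLM.hasFDerivAt
  have i : HasFDerivAt (fun y : ℂ => y.im) Complex.imCLM y := Complex.imCLM.hasFDerivAt
  have h := (((hasFDerivAt_const (169 : ℝ) y).fun_sub
    ((r.fun_mul r).fun_add (i.fun_mul i))).mul_const N).fderiv
  unfold dx dy TBar_s
  rw [h]
  constructor <;> simp <;> ring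

theorem TBar_l (a : ℝ) (y : ℂ) :
    (DifferentiableAt ℝ (fun y : ℂ => y.re * a) y ∧ dx (fun y : ℂ => y.re * a) y = a) ∧
    DifferentiableAt ℝ (fun y : ℂ => y.im * a) y ∧ dy (fun y : ℂ => y.im * a) y = a := by
  have r : HasFDerivAt (fun y : ℂ => y.re) Complex.reCLM y := Complex.reCLM.hasFDerivAt
  have i : HasFDerivAt (fun y : ℂ => y.im) Complex.imCLM y := Complex.imCLM.hasFDerivAt
  refine ⟨⟨(r.mul_const a).differentiableAt, ?_⟩, (i.mul_const a).differentiableAt, ?_⟩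
  · rw [dx, (r.mul_const a).fderiv]
    simp
  · rw [dy, (i.mul_const a).fderiv]
    simp

theorem TBar_1 (x : ℝ) : HasDerivAt expNegInvGlue (x⁻¹ ^ 2 * expNegInvGlue x) x := by
  simpa using expNegInvGlue.hasDerivAt_polynomial_eval_inv_mul 1 x

theorem TBar_2 (x : ℝ) : HasDerivAt (fun x => x⁻¹ ^ 2 * expNegInvGlue x)
    (x⁻¹ ^ 2 * (x⁻¹ ^ 2 - 2 * x⁻¹) * expNegInvGlue x) x := by
  have h := expNegInvGlue.hasDerivAt_polynomial_eval_inv_mul (Polynomial.X ^ 2) x
  simp only [Polynomial.derivative_X_sq, Polynomial.eval_mul, Polynomial.eval_sub,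
    Polynomial.eval_pow, Polynomial.eval_X, Polynomial.eval_C] at h
  exact h

theorem TBar_lp (N : ℝ) (y : ℂ) : lp (fun y => expNegInvGlue (TBar_s N y)) y =
    4 * (TBar_s N y)⁻¹ ^ 2 * N * ((y.re * y.re + y.im * y.im) * N *
      ((TBar_s N y)⁻¹ ^ 2 - 2 * (TBar_s N y)⁻¹) - 1) * expNegInvGlue (TBar_s N y) := by
  have d : ∀ y, DifferentiableAt ℝ (TBar_s N) y := (TBar_sm N).differentiable (by simp)
  have e1 : dx (fun y => expNegInvGlue (TBar_s N y)) = fun y =>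
      (TBar_s N y)⁻¹ ^ 2 * expNegInvGlue (TBar_s N y) * (y.re * (-2 * N)) :=
    funext fun y => by rw [dx_comp (TBar_1 _) (d y), (TBar_d N y).1]
  have e2 : dy (fun y => expNegInvGlue (TBar_s N y)) = fun y =>
      (TBar_s N y)⁻¹ ^ 2 * expNegInvGlue (TBar_s N y) * (y.im * (-2 * N)) :=
    funext fun y => by rw [dy_comp (TBar_1 _) (d y), (TBar_d N y).2]
  have d2 : DifferentiableAt ℝ (fun y => (TBar_s N y)⁻¹ ^ 2 * expNegInvGlue (TBar_s N y)) y :=
    (TBar_2 _).differentiableAt.comp y (d y)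
  rw [lp, e1, e2, dx_mul d2 (TBar_l _ y).1.1, dy_mul d2 (TBar_l _ y).2.1,
    dx_comp (TBar_2 _) (d y), dy_comp (TBar_2 _) (d y), (TBar_l _ y).1.2, (TBar_l _ y).2.2,
    (TBar_d N y).1, (TBar_d N y).2]
  ring

theorem TBar_num {K m ρ w : ℝ} (hK : 0 ≤ K) (hm : m = 170 + 7056 * (K + 1)) (hρ : 1 ≤ ρ)
    (hw : m ≤ w) : K + 1 ≤ 4 * w ^ 2 * (168 * m)⁻¹ * (ρ * (168 * m)⁻¹ * (w ^ 2 - 2 * w) - 1) := by
  have m0 : 0 < m := by linarith
  have h1 : m ^ 2 - 2 * m ≤ w ^ 2 - 2 * w := by nlinarith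
  have h2 : w ^ 2 - 2 * w ≤ ρ * (w ^ 2 - 2 * w) := le_mul_of_one_le_left (by nlinarith) hρ
  have h3 : 7056 * (K + 1) ≤ ρ * (w ^ 2 - 2 * w) - 168 * m := by nlinarith
  have h4 : m ^ 2 * (7056 * (K + 1)) ≤ w ^ 2 * (ρ * (w ^ 2 - 2 * w) - 168 * m) :=
    mul_le_mul (pow_le_pow_left₀ m0.le hw 2) h3 (by positivity) (by positivity)
  rw [show 4 * w ^ 2 * (168 * m)⁻¹ * (ρ * (168 * m)⁻¹ * (w ^ 2 - 2 * w) - 1) =
    w ^ 2 * (ρ * (w ^ 2 - 2 * w) - 168 * m) / (7056 * m ^ 2) by field_simp; ring,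
    le_div_iff₀ (by positivity)]
  linarith

theorem stBar : StBar := by
  intro K hK
  obtain ⟨m, hm⟩ : ∃ m : ℝ, m = 170 + 7056 * (K + 1) := ⟨_, rfl⟩
  have m0 : 0 < m := by linarith
  have N0 : 0 < (168 * m)⁻¹ := by positivity
  have nq : ∀ y : ℂ, y.re * y.re + y.im * y.im = ‖y‖ ^ 2 := fun y => by
    rw [Complex.sq_norm, Complex.normSq_apply]
  have sm : ContDiff ℝ ∞ fun y => expNegInvGlue (TBar_s (168 * m)⁻¹ y) :=
    expNegInvGlue.contDiff.comp (TBar_sm _)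
  have key : ∀ y : ℂ, 1 ≤ ‖y‖ → K * expNegInvGlue (TBar_s (168 * m)⁻¹ y) -
      lp (fun y => expNegInvGlue (TBar_s (168 * m)⁻¹ y)) y ≤
        -expNegInvGlue (TBar_s (168 * m)⁻¹ y) := fun y hy => by
    rw [TBar_lp]
    rcases le_or_gt (TBar_s (168 * m)⁻¹ y) 0 with h | h
    · rw [expNegInvGlue.zero_of_nonpos h]
      simp
    have h1 : 1 ≤ y.re * y.re + y.im * y.im := by rw [nq]; nlinarith
    have h2 : m ≤ (TBar_s (168 * m)⁻¹ y)⁻¹ := by
      rw [le_inv_comm₀ m0 h, TBar_s, ← div_eq_mul_inv, div_le_iff₀ (by positivity),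
        show m⁻¹ * (168 * m) = 168 by field_simp]
      linarith
    linarith [mul_le_mul_of_nonneg_right (TBar_num hK hm h1 h2)
      (expNegInvGlue.nonneg (TBar_s (168 * m)⁻¹ y))]
  have ct : Continuous fun y => K * expNegInvGlue (TBar_s (168 * m)⁻¹ y) -
      lp (fun y => expNegInvGlue (TBar_s (168 * m)⁻¹ y)) y :=
    (continuous_const.mul sm.continuous).sub ((contDiff_dx (contDiff_dx sm)).continuous.add
      (contDiff_dy (contDiff_dy sm)).continuous)
  obtain ⟨B, hB⟩ := (isCompact_closedBall (0 : ℂ) 1).exists_bound_of_continuousOn ct.continuousOn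
  have k0 : ∀ y : ℂ, 1 ≤ ‖y‖ → K * expNegInvGlue (TBar_s (168 * m)⁻¹ y) -
      lp (fun y => expNegInvGlue (TBar_s (168 * m)⁻¹ y)) y ≤ 0 := fun y hy =>
    (key y hy).trans (neg_nonpos.2 (expNegInvGlue.nonneg _))
  refine ⟨_, expNegInvGlue (25 * (168 * m)⁻¹), max B 1, sm,
    closure_minimal (fun y hy => ?_) isClosed_closedBall, fun y => expNegInvGlue.nonneg _,
    expNegInvGlue.pos_of_pos (by positivity), lt_max_of_lt_right one_pos, fun y => ?_, k0,
    fun y h1 h2 => (key y h1).trans (neg_le_neg (expNegInvGlue.monotone ?_))⟩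
  · rw [mem_closedBall_zero_iff]
    by_contra H
    refine hy (expNegInvGlue.zero_of_nonpos (mul_nonpos_of_nonpos_of_nonneg ?_ N0.le))
    rw [nq]
    nlinarith [not_le.1 H]
  · rcases le_total ‖y‖ 1 with h | h
    · exact le_max_of_le_left ((le_abs_self _).trans (hB y (mem_closedBall_zero_iff.2 h)))
    · exact le_max_of_le_right ((k0 y h).trans zero_le_one)
  · refine mul_le_mul_of_nonneg_right ?_ N0.le
    rw [nq]
    nlinarith

end Pool.Agent.MP_4f0ed6_gt.U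

end

section

set_option autoImplicit false
set_option linter.dupNamespace false

open MeasureTheory Set Metric Filter Topology
open scoped ContDiff ENNReal

namespace Pool.Agent.MP_4f0ed6_gt.U

theorem TLow_pz {g : ℂ → ℝ} (ν : Measure ℂ) [IsFiniteMeasure ν] (hg : Integrable g ν)
    (h4 : Integrable (fun y => g y ^ 4) ν) {b l : ℝ} (hb : 0 ≤ b) (hl : 0 < l) :
    ∫ y, g y ∂ν ≤ b * ν.real univ + l * ν.real {y | b ≤ g y} + (∫ y, g y ^ 4 ∂ν) / l ^ 3 := by
  have hB : NullMeasurableSet {y | b ≤ g y} ν :=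
    nullMeasurableSet_le aemeasurable_const hg.aemeasurable
  have i1 : Integrable (fun _ : ℂ => b) ν := integrable_const _
  have i2 : Integrable (indicator {y | b ≤ g y} fun _ : ℂ => l) ν :=
    (integrable_const l).indicator₀ hB
  have i3 : Integrable (fun y => g y ^ 4 / l ^ 3) ν := h4.div_const _
  have key : ∫ y, g y ∂ν ≤
      ∫ y, (b + indicator {y | b ≤ g y} (fun _ : ℂ => l) y + g y ^ 4 / l ^ 3) ∂ν := by
    refine integral_mono hg ((i1.add i2).add i3) fun y => ?_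
    have p : 0 ≤ g y ^ 4 / l ^ 3 := by positivity
    show g y ≤ b + indicator {y | b ≤ g y} (fun _ : ℂ => l) y + g y ^ 4 / l ^ 3
    by_cases h : b ≤ g y
    · rw [indicator_of_mem (show y ∈ {y | b ≤ g y} from h)]
      by_cases h' : g y ≤ l
      · linarith
      · have q : g y ≤ g y ^ 4 / l ^ 3 := by
          rw [le_div_iff₀ (by positivity)]
          calc g y * l ^ 3 ≤ g y * g y ^ 3 :=
                mul_le_mul_of_nonneg_left (pow_le_pow_left₀ hl.le (not_le.1 h').le 3) (hb.trans h)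
            _ = _ := by ring
        linarith
    · rw [indicator_of_notMem (show y ∉ {y | b ≤ g y} from h)]
      linarith [not_le.1 h]
  have i12 : Integrable (fun y => b + indicator {y | b ≤ g y} (fun _ : ℂ => l) y) ν := i1.add i2
  rw [integral_add i12 i3, integral_add i1 i2, integral_indicator₀ hB, setIntegral_const,
    integral_const, integral_div, smul_eq_mul, smul_eq_mul] at key
  linarith

theorem TLow_fin (p : ℂ → Prop) : volume {y ∈ ball (0 : ℂ) 1 | p y} ≠ ⊤ :=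
  ((measure_mono (sep_subset _ _)).trans_lt measure_ball_lt_top).ne

theorem TLow_big {K CD C4 : ℝ} (hD : 0 < CD) (h4 : 0 < C4) {g gx gy : ℂ → ℝ} (h : Sup K g gx gy)
    {m : ℝ} (hm : 0 < m) (d : m ≤ CD * ∫ y in ball 0 1, g y)
    (i4 : IntegrableOn (fun y => g y ^ 4) (ball 0 10))
    (b4 : ∫ y in ball 0 10, g y ^ 4 ≤ C4 * m ^ 4) :
    1 / (2 * CD * (4 * CD * C4 + 1)) ≤
      volume.real {y ∈ ball (0 : ℂ) 1 | 1 / (16 * CD) * m ≤ g y} := by
  obtain ⟨u, H⟩ := h.apx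
  have : IsFiniteMeasure (volume.restrict (ball (0 : ℂ) 1)) :=
    isFiniteMeasure_restrict.2 measure_ball_lt_top.ne
  have s1 : ball (0 : ℂ) 1 ⊆ ball 0 16 := ball_subset_ball (by norm_num)
  have s2 : ball (0 : ℂ) 1 ⊆ ball 0 10 := ball_subset_ball (by norm_num)
  have hg : Integrable g (volume.restrict (ball (0 : ℂ) 1)) := by
    have := H.m0.restrict (ball 0 1)
    rw [mu_restrict measurableSet_ball s1] at this
    exact this.integrable (by norm_num)
  have b1 : ∫ y in ball 0 1, g y ^ 4 ≤ C4 * m ^ 4 :=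
    (setIntegral_mono_set i4 (Eventually.of_forall fun y => by positivity)
      s2.eventuallyLE).trans b4
  generalize hL : 4 * CD * C4 + 1 = L
  have L1 : 1 ≤ L := by
    have : 0 < CD * C4 := by positivity
    linarith
  have pz := TLow_pz _ hg (i4.mono_set s2) (b := 1 / (16 * CD) * m) (l := L * m) (by positivity)
    (by positivity)
  rw [measureReal_restrict_apply' measurableSet_ball, measureReal_restrict_apply' measurableSet_ball,
    univ_inter, real_ball 0 zero_le_one, inter_comm] at pz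
  change _ ≤ _ + _ * volume.real {y ∈ ball (0 : ℂ) 1 | 1 / (16 * CD) * m ≤ g y} + _ at pz
  generalize volume.real {y ∈ ball (0 : ℂ) 1 | 1 / (16 * CD) * m ≤ g y} = V at pz ⊢
  have e1 : CD * (1 / (16 * CD) * m * (Real.pi * 1 ^ 2)) ≤ m / 4 := by
    have : CD * (1 / (16 * CD) * m * (Real.pi * 1 ^ 2)) = m / 16 * Real.pi := by field_simp
    rw [this]
    nlinarith [Real.pi_le_four]
  have e2 : CD * ((∫ y in ball 0 1, g y ^ 4) / (L * m) ^ 3) ≤ m / 4 := by
    have l3 : L ≤ L ^ 3 := le_self_pow₀ L1 (by norm_num)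
    rw [← mul_div_assoc, div_le_iff₀ (by positivity)]
    calc CD * ∫ y in ball 0 1, g y ^ 4 ≤ CD * (C4 * m ^ 4) := mul_le_mul_of_nonneg_left b1 hD.le
      _ = (4 * CD * C4) * (m ^ 4 / 4) := by ring
      _ ≤ L ^ 3 * (m ^ 4 / 4) := mul_le_mul_of_nonneg_right (by linarith) (by positivity)
      _ = _ := by ring
  have e3 := mul_le_mul_of_nonneg_left pz hD.le
  rw [mul_add, mul_add] at e3
  have e4 : m * 1 ≤ m * (V * (2 * CD * L)) := by linarith
  rw [div_le_iff₀ (by positivity)]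
  exact le_of_mul_le_mul_left e4 hm

theorem stLow (hL4 : StL4) (hDbl : StDbl) (hPL : StPL) : StLow := by
  intro K hK
  obtain ⟨C4, h4, H4⟩ := hL4 K hK
  obtain ⟨CD, hD, HD⟩ := hDbl K hK
  obtain ⟨CP, hP, HP⟩ := hPL
  generalize hc0 : 1 / (2 * CD * (4 * CD * C4 + 1)) = c0
  have c0p : 0 < c0 := by rw [← hc0]; positivity
  generalize hT : 2 * (CP * (1 + K)) / c0 + 1 = T
  have T1 : 1 ≤ T := by
    have : 0 ≤ 2 * (CP * (1 + K)) / c0 := by positivity
    linarith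
  have T2 : 2 * (CP * (1 + K)) ≤ c0 * T ^ 2 := by
    have a : 2 * (CP * (1 + K)) / c0 ≤ T ^ 2 :=
      le_trans (by linarith) (le_self_pow₀ T1 (by norm_num))
    rwa [div_le_iff₀' c0p] at a
  have hE : 1 ≤ Real.exp T := Real.one_le_exp (by linarith)
  have cp : 0 < 1 / (16 * CD) / (2 * Real.exp T) := by positivity
  refine ⟨1 / (16 * CD) / (2 * Real.exp T), cp, fun g gx gy h => ?_⟩
  have i4 := H4 g gx gy h
  have d := HD g gx gy h
  generalize ∫ y in ball (0 : ℂ) 12, g y = m at i4 d ⊢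
  rcases le_or_gt m 0 with hm | hm
  · obtain ⟨u, H⟩ := h.apx
    have z : volume {y ∈ ball (0 : ℂ) 1 | g y < 1 / (16 * CD) / (2 * Real.exp T) * m} = 0 := by
      have n := H.nn'
      rw [mu, ae_restrict_iff' measurableSet_ball] at n
      refine measure_mono_null (fun y hy => ?_) n
      intro hy'
      have a := hy' (ball_subset_ball (by norm_num) hy.1)
      have b := mul_nonpos_of_nonneg_of_nonpos cp.le hm
      linarith [hy.2]
    rw [Measure.real, z, ENNReal.toReal_zero]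
    positivity
  have big := TLow_big hD h4 h hm d i4.1 i4.2
  rw [hc0] at big
  have pl := HP K g gx gy hK h (1 / (16 * CD) / (2 * Real.exp T) * m) (1 / (16 * CD) * m)
    (by positivity) (by
      have : 2 * (1 / (16 * CD) / (2 * Real.exp T) * m) = 1 / (16 * CD) * m / Real.exp T := by
        field_simp
      rw [this]
      exact div_le_self (by positivity) hE)
  have lg : 1 / (16 * CD) * m / (2 * (1 / (16 * CD) / (2 * Real.exp T) * m)) = Real.exp T := by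
    field_simp
  rw [lg, Real.log_exp] at pl
  refine (measureReal_mono (s₂ := {y ∈ ball (0 : ℂ) 1 |
    g y ≤ 1 / (16 * CD) / (2 * Real.exp T) * m}) (fun y hy => ⟨hy.1, hy.2.le⟩)
    (TLow_fin _)).trans ?_
  have v0 : 0 ≤ volume.real {y ∈ ball (0 : ℂ) 1 | g y ≤ 1 / (16 * CD) / (2 * Real.exp T) * m} :=
    measureReal_nonneg
  generalize volume.real {y ∈ ball (0 : ℂ) 1 | g y ≤ 1 / (16 * CD) / (2 * Real.exp T) * m} = A
    at pl v0 ⊢
  have a1 : A * c0 * T ^ 2 ≤ CP * (1 + K) :=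
    (mul_le_mul_of_nonneg_right (mul_le_mul_of_nonneg_left big v0) (sq_nonneg _)).trans pl
  have a2 : (c0 * T ^ 2) * (2 * A) ≤ (c0 * T ^ 2) * 1 := by linarith
  have a3 := le_of_mul_le_mul_left a2 (by positivity)
  linarith [Real.pi_gt_three]

end Pool.Agent.MP_4f0ed6_gt.U

end

section

set_option autoImplicit false
set_option linter.dupNamespace false

open MeasureTheory Set Metric Filter Topology
open scoped InnerProductSpace ENNReal Classical

namespace Pool.Agent.MP_4f0ed6_gt.U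

theorem tcon_pr {n : ℕ} (z : Fin n) (x : L2 n) : pr z (pr z x) = pr z x := by
  have h := congrArg (fun A : Op n => A x) (pr_pr z z)
  rwa [if_pos rfl] at h

theorem tcon_low {n m : ℕ} {H : Type} [NormedAddCommGroup H] [InnerProductSpace ℝ H]
    [CompleteSpace H] {P : Pb n m H} {k : Cst} (hA : P.Ax k) {a t : ℝ} (ha : 0 < a) (ht : 0 ≤ t)
    (hc : P.Co (Wt t ∅)) (z : Fin n) {f : H} (hf : f ∈ P.Kr)
    (h : a * ‖ct z 10 (P.R f)‖ ^ 2 ≤ ‖pr z (P.R f)‖ ^ 2) :
    a / (k.Cl * (1 + t)) * ‖pr z (P.R f)‖ ^ 2 ≤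
      ⟪P.G (Wt t ∅) (pr z (P.R f)), pr z (P.R f)⟫_ℝ := by
  obtain ⟨w, hw1, hw2⟩ := hA.loc f hf z t ht
  have hD : 0 < k.Cl * (1 + t) := mul_pos hA.ok.h4 (by linarith)
  have h1 := hc.var hA.sym (pr z (P.R f)) ((a / (k.Cl * (1 + t))) • w)
  have h2 : ⟪pr z (P.R f), P.R w⟫_ℝ = ‖pr z (P.R f)‖ ^ 2 := by
    rw [← hw1]
    exact inner_ct_self z 3 _
  simp only [map_smul, ContinuousLinearMap.smul_apply, smul_eq_mul, inner_smul_right, h2] at h1
  have hs : 0 < a / (k.Cl * (1 + t)) := div_pos ha hD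
  have h3 : a / (k.Cl * (1 + t)) * P.q (Wt t ∅) w w ≤ ‖pr z (P.R f)‖ ^ 2 := by
    refine le_trans (mul_le_mul_of_nonneg_left hw2 hs.le) ?_
    rwa [← mul_assoc, div_mul_cancel₀ _ hD.ne']
  generalize a / (k.Cl * (1 + t)) = s at h1 h3 hs ⊢
  nlinarith [mul_le_mul_of_nonneg_left h3 hs.le]

theorem stCON (hVEC2 : StVEC2) (hDREV : StDREV) : StCON := by
  intro k a ha
  refine ⟨⌈k.CR (k.κ0 + 2) ^ 2 / (a / (k.Cl * (1 + (k.κ0 + 2)))) ^ 2⌉₊, ?_⟩
  intro n m H _ _ _ P hA z E hE h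
  have hκ := hA.ok.h2
  have ht : 0 ≤ k.κ0 + 2 := by linarith
  have hco : ∀ t, k.κ0 + 1 ≤ t → P.Co (Wt t ∅) :=
    hA.ims id (fun l => hA.single l) ∅ (fun c hc => absurd hc (Finset.notMem_empty c))
      ⟨z, Finset.notMem_empty z⟩
  have hc := hco (k.κ0 + 2) (by linarith)
  have hW : (Wt (k.κ0 + 2) ∅ : LI n) = Wt (k.κ0 + 1) ∅ + (1 : ℝ) • cel Finset.univ := by
    rw [Wt, Wt, Finset.compl_empty, ← add_smul, add_assoc, one_add_one_eq_two]
  have hs : 0 < a / (k.Cl * (1 + (k.κ0 + 2))) := div_pos ha (mul_pos hA.ok.h4 (by linarith))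
  obtain ⟨-, g1, -, g2, -⟩ := hDREV k n m H P hA (k.κ0 + 2) _ z ht hc (bd_Wt ht ∅)
  have g3 := g2 _ hc (bd_Wt ht ∅)
  generalize ct z 1 (P.psn (Wt (k.κ0 + 2) ∅) z) = g at g1 g3
  have g4 : ‖pr z (P.G (Wt (k.κ0 + 2) ∅) g)‖ ≤ 1 := by
    have a1 : prS Finset.univ g = g := by
      have := congrArg (fun A : Op n => A g) (prS_pr z Finset.univ)
      rw [if_pos (Finset.mem_univ z)] at this
      change prS Finset.univ (pr z g) = pr z g at this
      rwa [g3.2.1] at this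
    have a2 := (hco _ le_rfl).cut_le one_pos Finset.univ a1
    rw [← hW, one_mul] at a2
    have a3 := congrArg (fun A : Op n => A (P.G (Wt (k.κ0 + 2) ∅) g)) (pr_prS z Finset.univ)
    rw [if_pos (Finset.mem_univ z)] at a3
    change pr z (prS Finset.univ _) = pr z _ at a3
    rw [← a3]
    exact (norm_ct_le z 3 _).trans (a2.trans g1)
  haveI := hA.fin
  haveI : FiniteDimensional ℝ E := Submodule.finiteDimensional_of_le hE
  let T : E →ₗ[ℝ] L2 n := ((pr z).comp P.R).toLinearMap ∘ₗ E.subtype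
  have hT : Function.Injective T := by
    refine (injective_iff_map_eq_zero T).2 fun f hf => ?_
    by_contra hf0
    have h1 := h f f.2 fun h2 => hf0 (Subtype.ext h2)
    rw [show pr z (P.R f) = 0 from hf, norm_zero] at h1
    nlinarith [mul_nonneg ha.le (sq_nonneg ‖ct z 10 (P.R f)‖)]
  let b := stdOrthonormalBasis ℝ (LinearMap.range T)
  have hb : Orthonormal ℝ fun i => (b i : L2 n) :=
    b.orthonormal.comp_linearIsometry (LinearMap.range T).subtypeₗᵢ
  have hbe : ∀ i, pr z (b i : L2 n) = b i ∧ a / (k.Cl * (1 + (k.κ0 + 2))) * ‖(b i : L2 n)‖ ^ 2 ≤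
      ⟪P.G (Wt (k.κ0 + 2) ∅) (b i), (b i : L2 n)⟫_ℝ := fun i => by
    obtain ⟨f, hf⟩ := (b i).2
    rw [← hf]
    refine ⟨tcon_pr z _, tcon_low hA ha ht hc z (hE f.2) ?_⟩
    by_cases hf0 : (f : H) = 0
    · simp [hf0]
    · exact (h f f.2 hf0).le
  have h1 := hVEC2 n _ _ g _ (pr z) _ z hb (fun i => (hbe i).1) (hc.G_sy hA.sym) (hA.pos _ hc)
    (ct_pp z 3) (hA.ok.h5 _).le g3
  have hin : ∀ x : L2 n, ⟪x, pr z x⟫_ℝ = ‖pr z x‖ ^ 2 := fun x => by
    rw [real_inner_comm]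
    exact inner_ct_self z 3 x
  simp only [hin] at h1
  have h2 : ∀ i, (a / (k.Cl * (1 + (k.κ0 + 2)))) ^ 2 ≤
      ‖pr z (P.G (Wt (k.κ0 + 2) ∅) (b i))‖ ^ 2 := fun i => by
    refine pow_le_pow_left₀ hs.le ?_ 2
    have a1 := (hbe i).2
    have a2 : ⟪pr z (P.G (Wt (k.κ0 + 2) ∅) (b i)), (b i : L2 n)⟫_ℝ =
        ⟪P.G (Wt (k.κ0 + 2) ∅) (b i), pr z (b i)⟫_ℝ := mul_sy _ _ _
    rw [(hbe i).1] at a2
    have a3 := real_inner_le_norm (pr z (P.G (Wt (k.κ0 + 2) ∅) (b i))) (b i : L2 n)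
    rw [hb.1 i] at a1 a3
    linarith
  have h3 := Finset.card_nsmul_le_sum Finset.univ _ _ fun i _ => h2 i
  rw [Finset.card_univ, Fintype.card_fin, nsmul_eq_mul] at h3
  have h4 : ‖pr z (P.G (Wt (k.κ0 + 2) ∅) g)‖ ^ 2 ≤ 1 := pow_le_one₀ (norm_nonneg _) g4
  have h5 : (Module.finrank ℝ E : ℝ) ≤
      k.CR (k.κ0 + 2) ^ 2 / (a / (k.Cl * (1 + (k.κ0 + 2)))) ^ 2 := by
    rw [le_div_iff₀ (pow_pos hs 2), ← LinearMap.finrank_range_of_inj hT]
    exact h3.trans (h1.trans (mul_le_of_le_one_right (sq_nonneg _) h4))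
  exact_mod_cast h5.trans (Nat.le_ceil _)

end Pool.Agent.MP_4f0ed6_gt.U

end

section

set_option autoImplicit false
set_option linter.dupNamespace false

open MeasureTheory Set Metric Filter Topology
open scoped InnerProductSpace ENNReal Classical

namespace Pool.Agent.MP_4f0ed6_gt.U

variable {n : ℕ}

/-- disjoint sets inside cells give a family that fixes their indicators -/
theorem TFil_part {κ : Type} [Fintype κ] (C : Finset (Fin n)) (A : κ → Set (Fin n × ℂ))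
    (hA : ∀ k, MeasurableSet (A k)) (hd : ∀ k k', k ≠ k' → A k ∩ A k' = ∅) (c : κ → Fin n)
    (hc : ∀ k, ∀ y ∈ A k, y.1 = c k ∧ ‖y.2‖ < 3) :
    ∃ φ : Fm n, φ.Ok C ∧ ∀ k, c k ∈ C → φ.E (indicatorConstLp 2 (hA k) (measure_ne_top _ _) 1) =
      indicatorConstLp 2 (hA k) (measure_ne_top _ _) 1 := by
  let f : κ → L2 n := fun k => indicatorConstLp 2 (hA k) (measure_ne_top _ _) (1 : ℝ)
  let e := Fintype.equivFin {k // c k ∈ C ∧ f k ≠ 0}
  let φ : Fm n := ⟨_, fun ω => ‖f (e.symm ω)‖⁻¹ • f (e.symm ω), fun ω => c (e.symm ω)⟩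
  have hφ : φ.Ok C := by
    refine ⟨⟨fun ω => ?_, fun ω ω' h => ?_⟩, fun ω => ?_, fun ω => ?_, fun ω => (e.symm ω).2.1⟩
    · exact norm_smul_inv_norm (𝕜 := ℝ) (e.symm ω).2.2
    · have h1 : ⟪f (e.symm ω), f (e.symm ω')⟫_ℝ = 0 := by
        refine (L2.real_inner_indicatorConstLp_one_indicatorConstLp_one (hA _) (hA _)).trans ?_
        rw [hd _ _ fun h2 => h (e.symm.injective (Subtype.ext h2)), measureReal_empty]
      change ⟪‖f (e.symm ω)‖⁻¹ • f (e.symm ω), ‖f (e.symm ω')‖⁻¹ • f (e.symm ω')⟫_ℝ = 0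
      rw [real_inner_smul_left, real_inner_smul_right, h1, mul_zero, mul_zero]
    · refine smul_nn (inv_nonneg.2 (norm_nonneg _)) ((Lp.coeFn_nonneg _).1 ?_)
      filter_upwards [indicatorConstLp_coeFn (p := 2) (hs := hA (e.symm ω))
        (hμs := measure_ne_top (nu n) _) (c := (1 : ℝ))] with y hy
      rw [hy]
      exact indicator_nonneg (fun _ _ => zero_le_one) y
    · change pr (c (e.symm ω)) (‖f (e.symm ω)‖⁻¹ • f (e.symm ω)) = ‖f (e.symm ω)‖⁻¹ • f (e.symm ω)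
      rw [map_smul]
      refine congrArg _ (Lp.ext ?_)
      filter_upwards [indicatorConstLp_coeFn (p := 2) (hs := hA (e.symm ω))
        (hμs := measure_ne_top (nu n) _) (c := (1 : ℝ)),
        mul_ae (ind (c (e.symm ω)) 3) (f (e.symm ω)), ind_ae (c (e.symm ω)) 3] with y h1 h2 h3
      refine h2.trans ?_
      by_cases hy : y ∈ A (e.symm ω)
      · rw [h3, if_pos (hc _ y hy), one_mul]
      · rw [h1, indicator_of_notMem hy, mul_zero]
  refine ⟨φ, hφ, fun k hk => ?_⟩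
  change φ.E (f k) = f k
  by_cases h : f k = 0
  · rw [h, map_zero]
  · have h1 := Fm.E_e hφ (e ⟨k, hk, h⟩)
    simp only [φ, Equiv.symm_apply_apply, map_smul] at h1
    exact smul_right_injective _ (inv_ne_zero (norm_ne_zero_iff.2 h)) h1

/-- a family adapted to finitely many sets -/
theorem TFil_fin (C : Finset (Fin n)) (t : ℕ → Set (Fin n × ℂ)) (ht : ∀ j, MeasurableSet (t j))
    (i : ℕ) : ∃ φ : Fm n, φ.Ok C ∧ ∀ j < i, ∀ a : ℝ,
      φ.E (indicatorConstLp 2 (ht j) (measure_ne_top _ _) a) =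
        prS C (indicatorConstLp 2 (ht j) (measure_ne_top _ _) a) := by
  let ρ : Fin n × ℂ → Fin n × (Fin i → Prop) := fun y => (y.1, fun j => y ∈ t j)
  have hρ : Measurable ρ := measurable_fst.prodMk (measurable_pi_lambda _ fun j => (ht j).mem)
  have hA : ∀ k, MeasurableSet (ρ ⁻¹' {k} ∩ {y | ‖y.2‖ < 3}) := fun k =>
    (hρ (measurableSet_singleton k)).inter (measurableSet_lt (by fun_prop) measurable_const)
  obtain ⟨φ, hφ, h⟩ := TFil_part C _ hA (fun k k' hk => eq_empty_of_forall_notMem fun y hy =>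
    hk (hy.1.1.symm.trans hy.2.1)) Prod.fst fun k y hy => ⟨congrArg Prod.fst hy.1, hy.2⟩
  refine ⟨φ, hφ, fun j hj a => ?_⟩
  have h1 : prS C (indicatorConstLp 2 (ht j) (measure_ne_top _ _) a) =
      a • ∑ k ∈ Finset.univ.filter fun k : Fin n × (Fin i → Prop) => k.1 ∈ C ∧ k.2 ⟨j, hj⟩,
        indicatorConstLp 2 (hA k) (measure_ne_top (nu n) _) (1 : ℝ) := by
    refine Lp.ext ?_
    filter_upwards [indicatorConstLp_coeFn (p := 2) (hs := ht j)
        (hμs := measure_ne_top (nu n) _) (c := a), cel_ae C,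
      mul_ae (cel C) (indicatorConstLp 2 (ht j) (measure_ne_top _ _) a),
      Lp.coeFn_smul a (∑ k ∈ Finset.univ.filter fun k : Fin n × (Fin i → Prop) =>
        k.1 ∈ C ∧ k.2 ⟨j, hj⟩, indicatorConstLp 2 (hA k) (measure_ne_top (nu n) _) (1 : ℝ)),
      Lp.coeFn_fun_finsetSum (Finset.univ.filter fun k : Fin n × (Fin i → Prop) =>
        k.1 ∈ C ∧ k.2 ⟨j, hj⟩) fun k => indicatorConstLp 2 (hA k) (measure_ne_top (nu n) _) (1 : ℝ),
      ae_all_iff.2 fun k => indicatorConstLp_coeFn (p := 2) (hs := hA k)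
        (hμs := measure_ne_top (nu n) _) (c := (1 : ℝ))] with y h1 h2 h3 h4 h5 h6
    refine h3.trans ?_
    have h7 : ∀ k, (ρ ⁻¹' {k} ∩ {y | ‖y.2‖ < 3}).indicator (fun _ => (1 : ℝ)) y =
        if ρ y = k then (if ‖y.2‖ < 3 then 1 else 0) else 0 := fun k => by
      rw [indicator_apply, ← ite_and]
      exact if_congr Iff.rfl rfl rfl
    rw [h1, h2, h4, Pi.smul_apply, h5, Finset.sum_congr rfl fun k _ => (h6 k).trans (h7 k),
      Finset.sum_ite_eq, indicator_apply]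
    by_cases e1 : y.1 ∈ C <;> by_cases e2 : ‖y.2‖ < 3 <;> by_cases e3 : y ∈ t j <;>
      simp [ρ, e1, e2, e3]
  have h2 : φ.E * prS C = φ.E := (Fm.E_prS hφ C).trans (Fm.prS_E hφ Finset.Subset.rfl)
  rw [← h2, mul_apply_eq_comp, h1, map_smul, map_sum]
  exact congrArg _ (Finset.sum_congr rfl fun k hk => h k (Finset.mem_filter.1 hk).2.1)

theorem stFil : StFil := by
  intro n C
  obtain ⟨𝒜, h1, h2⟩ := exists_countable_measureDense (nu n)
  obtain ⟨t, rfl⟩ := h1.exists_eq_range h2.nonempty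
  have ht : ∀ j, MeasurableSet (t j) := fun j => h2.measurable _ ⟨j, rfl⟩
  choose φ hφ h using TFil_fin C t ht
  have hc : IsClosed {x | Tendsto (fun i => (φ i).E x) atTop (𝓝 (prS C x))} :=
    (LipschitzWith.uniformEquicontinuous (fun i => ((φ i).E : L2 n → L2 n)) 1 fun i =>
      (φ i).E.lipschitzWith_of_opNorm_le (ContinuousLinearMap.opNorm_le_bound _ zero_le_one
        fun x => by simpa using Fm.norm_E_le (hφ i) x)).equicontinuous.isClosed_setOfPred_tendsto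
      (prS C).continuous
  refine ⟨φ, hφ, Lp.induction (by simp) _ (fun a s hs hμ => ?_) (fun f g hf hg _ e1 e2 => ?_) hc⟩
  · have : Fact ((2 : ℝ≥0∞) ≠ ∞) := ⟨by simp⟩
    refine closure_minimal ?_ hc (h2.indicatorConstLp_subset_closure 2 a ⟨s, hs, hμ.ne, rfl⟩)
    rintro _ ⟨_, ⟨j, rfl⟩, _, rfl⟩
    exact tendsto_const_nhds.congr' ((eventually_gt_atTop j).mono fun i hi => (h i j hi a).symm)
  · simpa only [map_add] using e1.add e2

end Pool.Agent.MP_4f0ed6_gt.U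

end

section

set_option autoImplicit false
set_option linter.dupNamespace false

open MeasureTheory Set Metric Filter Topology
open scoped InnerProductSpace ENNReal Classical

namespace Pool.Agent.MP_4f0ed6_gt.U

variable {n : ℕ}

theorem TInv_norm {A : Op n} {θ : ℝ} (hθ : 0 ≤ θ) (hs : Sy A) (h0 : ∀ x, 0 ≤ ⟪A x, x⟫_ℝ)
    (h1 : ∀ x, ⟪A x, x⟫_ℝ ≤ θ * ‖x‖ ^ 2) : ‖A‖ ≤ θ := by
  have cs : ∀ x y, ⟪A x, y⟫_ℝ ^ 2 ≤ ⟪A x, x⟫_ℝ * ⟪A y, y⟫_ℝ := fun x y => by
    have h := discrim_le_zero (a := ⟪A y, y⟫_ℝ) (b := 2 * ⟪A x, y⟫_ℝ) (c := ⟪A x, x⟫_ℝ)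
      fun t => by
        have h2 := h0 (x + t • y)
        have h3 : ⟪A y, x⟫_ℝ = ⟪A x, y⟫_ℝ := by rw [hs, real_inner_comm]
        simp only [map_add, map_smul, inner_add_left, inner_add_right, real_inner_smul_left,
          real_inner_smul_right, h3] at h2
        nlinarith
    unfold discrim at h
    nlinarith
  refine ContinuousLinearMap.opNorm_le_bound _ hθ fun x => ?_
  have h := (cs x (A x)).trans (mul_le_mul (h1 x) (h1 (A x)) (h0 _) (by positivity))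
  rw [real_inner_self_eq_norm_sq] at h
  rcases (norm_nonneg (A x)).eq_or_lt with e | e
  · rw [← e]
    positivity
  refine abs_le_of_sq_le_sq' ?_ (by positivity) |>.2
  refine le_of_mul_le_mul_right ?_ (pow_pos e 2)
  nlinarith

theorem TInv_pow {X : Op n} (h : Pp X) : ∀ i : ℕ, Pp (X ^ i)
  | 0 => fun _ hx => hx
  | i + 1 => by
    rw [pow_succ]
    exact (TInv_pow h i).mul h

theorem TInv_inv {X : Op n} {θ : ℝ} (h1 : θ < 1) (hX : ‖X‖ ≤ θ) (hs : Sy X) (hp : Pp X) :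
    IsUnit (1 - X) ∧ ‖Ring.inverse (1 - X)‖ ≤ (1 - θ)⁻¹ ∧ Pp (Ring.inverse (1 - X)) ∧
      Sy (Ring.inverse (1 - X)) ∧ ∀ x, 0 ≤ ⟪Ring.inverse (1 - X) x, x⟫_ℝ := by
  have hlt : ‖X‖ < 1 := hX.trans_lt h1
  have hu : IsUnit (1 - X) := (Units.oneSub X hlt).isUnit
  have hsum := hasSum_geom_series_inverse X hlt
  have hm := Ring.mul_inverse_cancel _ hu
  generalize Ring.inverse (1 - X) = Y at hsum hm
  have e : ∀ x, Y x - X (Y x) = x := fun x => congrArg (fun T : Op n => T x) hm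
  have hb : ∀ z, ‖X z‖ ≤ θ * ‖z‖ := fun z =>
    (X.le_opNorm z).trans (mul_le_mul_of_nonneg_right hX (norm_nonneg _))
  have hpos : 0 < 1 - θ := by linarith
  refine ⟨hu, ?_, fun x hx => ?_, fun x y => ?_, fun x => ?_⟩
  · refine ContinuousLinearMap.opNorm_le_bound _ (by positivity) fun x => ?_
    rw [inv_mul_eq_div, le_div_iff₀ hpos]
    have h2 := norm_sub_norm_le (Y x) (X (Y x))
    rw [e] at h2
    nlinarith [hb (Y x)]
  · exact (hsum.mapL (ContinuousLinearMap.apply ℝ (L2 n) x)).nonneg fun i => TInv_pow hp i x hx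
  · calc ⟪Y x, y⟫_ℝ = ⟪Y x, Y y - X (Y y)⟫_ℝ := by rw [e]
      _ = ⟪Y x - X (Y x), Y y⟫_ℝ := by rw [inner_sub_left, inner_sub_right, hs]
      _ = ⟪x, Y y⟫_ℝ := by rw [e]
  · have h2 : ⟪Y x, x⟫_ℝ = ‖Y x‖ ^ 2 - ⟪Y x, X (Y x)⟫_ℝ := by
      rw [← real_inner_self_eq_norm_sq, ← inner_sub_right, e]
    have h3 := real_inner_le_norm (Y x) (X (Y x))
    have h4 := mul_le_mul_of_nonneg_left (hb (Y x)) (norm_nonneg (Y x))
    have h5 := mul_nonneg hpos.le (sq_nonneg ‖Y x‖)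
    rw [h2]
    nlinarith

theorem TInv_core (β : Bk n) (h : β.Ok) (u : Fin n) : ∃ θ : ℝ, 0 ≤ θ ∧ θ < 1 ∧
    ‖prS (β.U u) * β.B * prS (β.U u)‖ ≤ θ ∧ ∀ φ : Fm n, φ.Ok β.C →
      ‖prS (β.U u) * (φ.E * β.B * φ.E) * prS (β.U u)‖ ≤ θ ∧
      Sy (prS (β.U u) * (φ.E * β.B * φ.E) * prS (β.U u)) ∧
      Pp (prS (β.U u) * (φ.E * β.B * φ.E) * prS (β.U u)) := by
  obtain ⟨θ, h1, h2⟩ := h.con u
  have sP : Sy (prS (β.U u)) := mul_sy _
  have key : ‖prS (β.U u) * β.B * prS (β.U u)‖ ≤ max θ 0 := by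
    refine TInv_norm (le_max_right _ _) (fun x y => ?_) (fun x => ?_) fun x => ?_
    · simp only [mul_apply_eq_comp]
      rw [sP, h.sym, sP]
    · simp only [mul_apply_eq_comp]
      rw [sP]
      exact h.psd _
    · simp only [mul_apply_eq_comp]
      rw [sP]
      have e : prS (β.U u) (prS (β.U u) x) = prS (β.U u) x := by
        rw [← mul_apply_eq_comp, prS_mul, Finset.inter_self]
      refine (h2 _ e).trans ((mul_le_mul_of_nonneg_right (le_max_left θ 0) (sq_nonneg _)).trans ?_)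
      exact mul_le_mul_of_nonneg_left
        (pow_le_pow_left₀ (norm_nonneg _) (norm_prS_le _ x) 2) (le_max_right _ _)
  refine ⟨max θ 0, le_max_right _ _, max_lt h1 one_pos, key, fun φ hφ => ⟨?_, fun x y => ?_, ?_⟩⟩
  · have e : prS (β.U u) * (φ.E * β.B * φ.E) * prS (β.U u) =
        φ.E * (prS (β.U u) * β.B * prS (β.U u)) * φ.E := by
      have c := Fm.E_prS hφ (β.U u)
      calc _ = prS (β.U u) * φ.E * β.B * (φ.E * prS (β.U u)) := by simp only [mul_assoc]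
        _ = φ.E * prS (β.U u) * β.B * (prS (β.U u) * φ.E) := by rw [← c]
        _ = _ := by simp only [mul_assoc]
    rw [e]
    refine ContinuousLinearMap.opNorm_le_bound _ (le_max_right _ _) fun x => ?_
    rw [mul_apply_eq_comp, mul_apply_eq_comp]
    refine (Fm.norm_E_le hφ _).trans ((ContinuousLinearMap.le_opNorm _ _).trans ?_)
    exact mul_le_mul key (Fm.norm_E_le hφ x) (norm_nonneg _) (le_max_right _ _)
  · simp only [mul_apply_eq_comp]
    rw [sP, φ.E_sy, h.sym, φ.E_sy, sP]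
  · exact ((prS_pp _).mul (((Fm.E_pp hφ).mul h.pos).mul (Fm.E_pp hφ))).mul (prS_pp _)

theorem stInv : StInv := by
  intro n β h u
  obtain ⟨θ, h0, h1, h2, h3⟩ := TInv_core β h u
  refine ⟨θ, h0, h1, h2, fun φ hφ => ?_⟩
  obtain ⟨a, b, c⟩ := h3 φ hφ
  obtain ⟨i1, i2, i3, i4, i5⟩ := TInv_inv h1 a b c
  refine ⟨a, i1, i2, i3, i4, i5, fun o => ?_⟩
  have hE : Pp (φ.E * β.B * φ.E) := ((Fm.E_pp hφ).mul h.pos).mul (Fm.E_pp hφ)
  cases o with
  | none => exact hE
  | some v =>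
    obtain ⟨θ', -, g1, -, g3⟩ := TInv_core β h v
    obtain ⟨a', b', c'⟩ := g3 φ hφ
    exact (TInv_inv g1 a' b' c').2.2.1.mul (((prS_pp _).mul hE).mul (one_sub_prS_pp _))

end Pool.Agent.MP_4f0ed6_gt.U

end

section

set_option autoImplicit false
set_option linter.dupNamespace false

open MeasureTheory Set Metric Filter Topology
open scoped InnerProductSpace ENNReal Classical

namespace Pool.Agent.MP_4f0ed6_gt.U

theorem TLI1_abs {n m : ℕ} {H : Type} [NormedAddCommGroup H] [InnerProductSpace ℝ H]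
    [CompleteSpace H] {P : Pb n m H} (hp : ∀ W, P.Co W → Pp (P.G W)) {κ : ℝ} (hκ : 0 ≤ κ)
    {Ω U T : Finset (Fin n)} (hCo : P.Co (Wt (κ / 2) Ω)) (hU : U ⊆ Ω) (hT : T ⊆ Ω \ U)
    {x : L2 n} (hx : 0 ≤ x) :
    κ • P.G (Wt (κ / 2) U) (prS T (P.G (Wt (κ / 2) Ω) x)) ≤ (2 : ℝ) • P.G (Wt (κ / 2) Ω) x := by
  have hW : Wt (κ / 2) Ω ≤ Wt (κ / 2) U := Wt_mono le_rfl (by linarith) hU
  have h1 := hCo.absorb hp hW hx
  have h0 := hp _ hCo x hx
  generalize P.G (Wt (κ / 2) Ω) x = ψ at *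
  rw [Wt_sub _ hU, map_smul, ContinuousLinearMap.smul_apply, map_smul] at h1
  have h2 : prS T ψ ≤ prS (Ω \ U) ψ := mul_le (cel_mono hT) ψ h0
  have h3 := smul_mono hκ ((hp _ (hCo.mono hW)).mono h2)
  have h4 := smul_mono (a := 2) (by norm_num) h1
  rw [smul_smul, show 2 * (κ / 2) = κ by ring] at h4
  exact h3.trans h4

theorem TLI1_pr {n : ℕ} {a : Fin n} {C : Finset (Fin n)} (ha : a ∈ C) (y : L2 n) :
    pr a (prS C y) = pr a y := by
  have h := pr_prS a C
  rw [if_pos ha] at h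
  exact congrArg (fun A : Op n => A y) h

theorem stLI1 (hApp1 : StApp1) (hDEC : StDEC) : StLI1 := by
  intro k n m H _ _ _ P hA κ Z0 Z Ω R r hG hR hκ hΔ hΩ hCo x hx a ha
  have k0 := hA.ok.h2
  have hκ0 : 0 ≤ κ := by linarith
  obtain ⟨-, -, -, -, hB, hH⟩ := hApp1 k n m H P hA κ Z0 R r hG hR (by linarith) Z
  have h0 := hA.pos _ hCo x hx
  have hpa : Pp (pr a) := ct_pp a 3
  have hCU : ∀ U, U ⊆ Ω → P.Co (Wt (κ / 2) U) := fun U hU =>
    hCo.mono (Wt_mono le_rfl (by linarith) hU)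
  constructor
  · have h1 := TLI1_abs hA.pos hκ0 hCo (Finset.empty_subset Ω) (T := Ω) (by simp) hx
    generalize P.G (Wt (κ / 2) Ω) x = ψ at *
    have h2 := prS_pp Ω ψ h0
    have h3 : prS Z0ᶜ (prS Ω ψ) = prS Ω ψ := by
      have h := prS_mul Z0ᶜ Ω
      rw [Finset.inter_eq_right.2 hΩ] at h
      exact congrArg (fun A : Op n => A ψ) h
    have h4 := (hCU ∅ (Finset.empty_subset Ω)).G_mono hA.pos
      (Wt_mono (by linarith : κ / 2 ≤ κ) (by linarith) (Finset.Subset.refl ∅)) _ h2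
    refine (hpa.mono (hB _ h2)).trans ?_
    rw [ContinuousLinearMap.smul_apply, ContinuousLinearMap.mul_apply,
      ContinuousLinearMap.mul_apply, h3, map_smul, TLI1_pr (hΩ ha), ← map_smul (pr a),
      ← map_smul (pr a)]
    exact hpa.mono ((smul_mono hκ0 h4).trans h1)
  intro b hb o τ d hw hU hd
  obtain ⟨U, u1, u2, u3⟩ : ∃ U : Finset (Fin n), U ⊆ Ω ∧ U ⊆ bl P.adj (2 * r) a ∧
      Le ((P.bz k κ Z0 r Z).op o) (κ • (prS Z0ᶜ * P.G (Wt κ U) * prS (Z0ᶜ \ U))) := by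
    cases o with
    | none =>
      refine ⟨∅, Finset.empty_subset _, Finset.empty_subset _, ?_⟩
      rw [Finset.sdiff_empty]
      exact hB
    | some u =>
      refine ⟨_, hU u rfl, fun c hc => ?_, hH u⟩
      have h1 : a ∈ Ub P.adj Z0ᶜ r u := by
        by_contra h
        cases τ with
        | false => exact hw rfl
        | true => exact hw (if_neg h)
      unfold Ub at h1 hc
      split_ifs at h1 hc with h
      · rw [mem_bl, two_mul]
        exact near_add (hA.gr.near_symm (mem_bl.1 (Finset.mem_inter.1 h1).1))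
          (mem_bl.1 (Finset.mem_inter.1 hc).1)
      · exact absurd hc (Finset.notMem_empty c)
  have hC : 0 ≤ (2 * k.Δ : ℝ) ^ (2 * r + 2) * ((2 * k.Δ : ℝ)⁻¹) ^ d := by positivity
  have h5 := hDEC k n m H P hA κ hκ0 hΔ U (2 * r) d a b u2 (hCU U u1) hd _ h0
  have h6 : b ∉ U → κ • P.G (Wt (κ / 2) U) (pr b (P.G (Wt (κ / 2) Ω) x)) ≤
      (2 : ℝ) • P.G (Wt (κ / 2) Ω) x := fun h => by
    have := TLI1_abs hA.pos hκ0 hCo u1 (T := {b})
      (Finset.singleton_subset_iff.2 (Finset.mem_sdiff.2 ⟨hb, h⟩)) hx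
    rwa [prS_eq_sum, Finset.sum_singleton] at this
  generalize P.G (Wt (κ / 2) Ω) x = ψ at *
  generalize (2 * k.Δ : ℝ) ^ (2 * r + 2) * ((2 * k.Δ : ℝ)⁻¹) ^ d = C at *
  refine (hpa.mono (u3 _ (ct_pp b 3 ψ h0))).trans ?_
  have h7 := congrArg (fun A : Op n => A ψ) (prS_pr b (Z0ᶜ \ U))
  simp only [ContinuousLinearMap.mul_apply] at h7
  rw [ContinuousLinearMap.smul_apply, ContinuousLinearMap.mul_apply,
    ContinuousLinearMap.mul_apply, map_smul, TLI1_pr (hΩ ha)]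
  change κ • pr a (P.G (Wt κ U) (prS (Z0ᶜ \ U) (pr b ψ))) ≤ _
  rw [h7]
  by_cases hbU : b ∈ U
  · rw [if_neg fun h => (Finset.mem_sdiff.1 h).2 hbU, ContinuousLinearMap.zero_apply, map_zero,
      map_zero, smul_zero]
    exact smul_nn (by positivity) (hpa ψ h0)
  · rw [if_pos (Finset.mem_sdiff.2 ⟨hΩ hb, hbU⟩)]
    simp only [ContinuousLinearMap.smul_apply, ContinuousLinearMap.mul_apply] at h5
    refine (smul_mono hκ0 h5).trans ?_
    have h8 := smul_mono hC (hpa.mono (h6 hbU))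
    rw [map_smul, map_smul, smul_comm, smul_smul C 2, mul_comm C 2] at h8
    exact h8

end Pool.Agent.MP_4f0ed6_gt.U

end
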