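import Pool.Agent.Mg.F4f0ed6a.G5bac69

section

set_option autoImplicit false
set_option linter.dupNamespace false

open UpperHalfPlane MeasureTheory Set Metric Filter Topology
open scoped MatrixGroups

namespace Pool.Agent.MP_4f0ed6_gt.U

/-- the sum of the squares of the entries -/
def TMarg_fr (M : Matrix (Fin 2) (Fin 2) ℝ) : ℝ := M 0 0 ^ 2 + M 0 1 ^ 2 + M 1 0 ^ 2 + M 1 1 ^ 2

theorem TMarg_nn (M : Matrix (Fin 2) (Fin 2) ℝ) : 0 ≤ TMarg_fr M := by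
  unfold TMarg_fr
  positivity

theorem TMarg_mul (M N : Matrix (Fin 2) (Fin 2) ℝ) :
    TMarg_fr (M * N) ≤ TMarg_fr M * TMarg_fr N := by
  simp only [TMarg_fr, Matrix.mul_apply, Fin.sum_univ_two]
  nlinarith [sq_nonneg (M 0 0 * N 1 0 - M 0 1 * N 0 0), sq_nonneg (M 0 0 * N 1 1 - M 0 1 * N 0 1),
    sq_nonneg (M 1 0 * N 1 0 - M 1 1 * N 0 0), sq_nonneg (M 1 0 * N 1 1 - M 1 1 * N 0 1)]

theorem TMarg_det (γ : SL(2, ℝ)) : γ.1 0 0 * γ.1 1 1 - γ.1 0 1 * γ.1 1 0 = 1 := by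
  have := γ.2
  rwa [Matrix.det_fin_two] at this

theorem TMarg_inv (γ : SL(2, ℝ)) : TMarg_fr (γ⁻¹).1 = TMarg_fr γ.1 := by
  rw [Matrix.SpecialLinearGroup.coe_inv, Matrix.adjugate_fin_two]
  simp [TMarg_fr]
  ring

theorem TMarg_cosh (γ : SL(2, ℝ)) : 2 * Real.cosh (dist (γ • I) I) = TMarg_fr γ.1 := by
  have hd := TMarg_det γ
  have h0 : γ.1 1 1 ^ 2 + γ.1 1 0 ^ 2 ≠ 0 := by
    intro h
    have h1 : γ.1 1 0 = 0 := by nlinarith [sq_nonneg (γ.1 1 0), sq_nonneg (γ.1 1 1)]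
    have h2 : γ.1 1 1 = 0 := by nlinarith [sq_nonneg (γ.1 1 0), sq_nonneg (γ.1 1 1)]
    rw [h1, h2] at hd
    simp at hd
  have h := coe_specialLinearGroup_apply γ I
  have hre : (γ • I).re = (γ.1 0 0 * γ.1 1 0 + γ.1 0 1 * γ.1 1 1) / (γ.1 1 1 ^ 2 + γ.1 1 0 ^ 2) := by
    rw [← coe_re, h]
    simp [Complex.div_re, Complex.normSq_apply]
    field_simp
    ring
  have him : (γ • I).im = 1 / (γ.1 1 1 ^ 2 + γ.1 1 0 ^ 2) := by
    rw [← coe_im, h]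
    simp [Complex.div_im, Complex.normSq_apply]
    field_simp
    linear_combination hd
  rw [cosh_dist', hre, him, TMarg_fr]
  simp only [I_re, I_im]
  field_simp
  linear_combination (-(γ.1 0 0 * γ.1 1 1 - γ.1 0 1 * γ.1 1 0) - 1) * hd

theorem TMarg_T (γ : SL(2, ℝ)) (h : 2 ≤ |γ.1.trace|) :
    (γ.1 0 0 - γ.1 1 1) ^ 2 / 2 + γ.1 0 1 ^ 2 + γ.1 1 0 ^ 2 ≤ TMarg_fr γ.1 - 2 := by
  have hd := TMarg_det γ
  rw [Matrix.trace_fin_two] at h
  have h2 : 2 ^ 2 ≤ |γ.1 0 0 + γ.1 1 1| ^ 2 := pow_le_pow_left₀ (by norm_num) h 2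
  rw [sq_abs] at h2
  unfold TMarg_fr
  nlinarith

theorem TMarg_comm (α β : SL(2, ℝ)) (ha : 2 ≤ |α.1.trace|) (hb : 2 ≤ |β.1.trace|)
    (h1 : TMarg_fr α.1 - 2 ≤ 1 / 100) (h2 : TMarg_fr β.1 - 2 ≤ 1 / 100) :
    TMarg_fr (α * β * α⁻¹ * β⁻¹).1 - 2 ≤ (TMarg_fr β.1 - 2) / 2 := by
  have ta := TMarg_T α ha
  have tb := TMarg_T β hb
  have pa : 0 ≤ (α.1 0 0 - α.1 1 1) ^ 2 / 2 + α.1 0 1 ^ 2 + α.1 1 0 ^ 2 := by positivity
  have pb : 0 ≤ (β.1 0 0 - β.1 1 1) ^ 2 / 2 + β.1 0 1 ^ 2 + β.1 1 0 ^ 2 := by positivity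
  have k1 : TMarg_fr (α.1 * β.1 - β.1 * α.1) ≤ 2 * ((TMarg_fr α.1 - 2) * (TMarg_fr β.1 - 2)) := by
    refine le_trans ?_ (mul_le_mul_of_nonneg_left (mul_le_mul ta tb pb (pa.trans ta)) zero_le_two)
    simp only [TMarg_fr, Matrix.sub_apply, Matrix.mul_apply, Fin.sum_univ_two]
    nlinarith [sq_nonneg ((α.1 0 0 - α.1 1 1) * (β.1 0 0 - β.1 1 1) / 2 + α.1 0 1 * β.1 0 1 +
      α.1 1 0 * β.1 1 0)]
  have k2 : (α * β * α⁻¹ * β⁻¹).1 - 1 = (α.1 * β.1 - β.1 * α.1) * (α⁻¹).1 * (β⁻¹).1 := by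
    have e : β * α * α⁻¹ * β⁻¹ = 1 := by group
    have e' := congrArg Subtype.val e
    simp only [Matrix.SpecialLinearGroup.coe_mul, Matrix.SpecialLinearGroup.coe_one] at e' ⊢
    rw [sub_mul, sub_mul, e']
  have k3 : TMarg_fr ((α * β * α⁻¹ * β⁻¹).1 - 1) ≤
      TMarg_fr (α.1 * β.1 - β.1 * α.1) * TMarg_fr α.1 * TMarg_fr β.1 := by
    rw [k2, ← TMarg_inv α, ← TMarg_inv β]
    exact (TMarg_mul _ _).trans (mul_le_mul_of_nonneg_right (TMarg_mul _ _) (TMarg_nn _))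
  have k4 : ∀ γ : SL(2, ℝ), TMarg_fr γ.1 - 2 ≤ 2 * TMarg_fr (γ.1 - 1) := fun γ => by
    have hd := TMarg_det γ
    simp only [TMarg_fr, Matrix.sub_apply, Matrix.one_apply_eq, Matrix.one_apply_ne zero_ne_one,
      Matrix.one_apply_ne one_ne_zero]
    nlinarith [sq_nonneg (γ.1 0 0 + γ.1 1 1 - 2), sq_nonneg (γ.1 0 1 - γ.1 1 0)]
  have k5 := k4 (α * β * α⁻¹ * β⁻¹)
  have k6 : TMarg_fr (α.1 * β.1 - β.1 * α.1) ≤ (TMarg_fr β.1 - 2) / 50 := by
    nlinarith [pa.trans ta, pb.trans tb]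
  have k7 : TMarg_fr α.1 * TMarg_fr β.1 ≤ 5 := by nlinarith [TMarg_nn α.1, TMarg_nn β.1]
  have k8 : TMarg_fr (α.1 * β.1 - β.1 * α.1) * (TMarg_fr α.1 * TMarg_fr β.1) ≤
      (TMarg_fr β.1 - 2) / 50 * 5 :=
    mul_le_mul k6 k7 (mul_nonneg (TMarg_nn _) (TMarg_nn _)) (by linarith [pb.trans tb])
  rw [mul_assoc (TMarg_fr _)] at k3
  linarith [pb.trans tb]

theorem TMarg_key (w : ℍ) (α β : SL(2, ℝ)) (ha : 2 ≤ |α.1.trace|) (hb : 2 ≤ |β.1.trace|)
    (h1 : Real.cosh (dist (α • w) w) ≤ 201 / 200) (h2 : Real.cosh (dist (β • w) w) ≤ 201 / 200) :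
    Real.cosh (dist ((α * β * α⁻¹ * β⁻¹) • w) w) - 1 ≤ (Real.cosh (dist (β • w) w) - 1) / 2 := by
  obtain ⟨g, rfl⟩ : ∃ g : SL(2, ℝ), g • I = w := ⟨_, toSL2R_smul_I w⟩
  have e1 : ∀ γ : SL(2, ℝ), 2 * Real.cosh (dist (γ • g • I) (g • I)) = TMarg_fr (g⁻¹ * γ * g).1 :=
    fun γ => by
      rw [← TMarg_cosh, ← dist_smul g⁻¹, inv_smul_smul, mul_smul, mul_smul]
  have e2 : ∀ γ : SL(2, ℝ), (g⁻¹ * γ * g).1.trace = γ.1.trace := fun γ => by
    rw [Matrix.SpecialLinearGroup.coe_mul, Matrix.trace_mul_comm,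
      ← Matrix.SpecialLinearGroup.coe_mul, ← mul_assoc, mul_inv_cancel, one_mul]
  have e3 : g⁻¹ * (α * β * α⁻¹ * β⁻¹) * g =
      (g⁻¹ * α * g) * (g⁻¹ * β * g) * (g⁻¹ * α * g)⁻¹ * (g⁻¹ * β * g)⁻¹ := by group
  have := TMarg_comm (g⁻¹ * α * g) (g⁻¹ * β * g) (by rwa [e2]) (by rwa [e2])
    (by rw [← e1]; linarith) (by rw [← e1]; linarith)
  rw [← e3, ← e1, ← e1] at this
  linarith

theorem stMarg (hNC : StNC) : StMarg := by
  refine ⟨1 / 40, by norm_num, by norm_num, fun Γ F H w α hα β hβ da db => ?_⟩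
  have hs : ∀ x : ℝ, 0 ≤ x → x < 2 * (1 / 40) → Real.cosh x ≤ 201 / 200 := fun x h0 h1 => by
    refine (Real.cosh_le_exp_half_sq x).trans ?_
    refine (Real.exp_le_exp.2 (by nlinarith : x ^ 2 / 2 ≤ 1 / 800)).trans ?_
    refine (Real.exp_bound_div_one_sub_of_interval (by norm_num) (by norm_num)).trans ?_
    norm_num
  have ht : ∀ γ ∈ Γ, 2 ≤ |γ.1.trace| := fun γ hγ => by
    by_cases h : γ = 1
    · rw [h]
      simp
    · exact (H.hyp γ hγ h).le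
  by_contra hne
  have h1 : α ≠ 1 := fun h => hne (by rw [h, one_mul, mul_one])
  have ca := hs _ dist_nonneg da
  have hfin : {γ : Γ | Real.cosh (dist ((γ : SL(2, ℝ)) • w) w) ≤ 201 / 200 ∧
      α * γ ≠ γ * α}.Finite := by
    refine (H.finite (isCompact_singleton (x := w)) (isCompact_closedBall w 2)).subset ?_
    rintro γ ⟨hγ, -⟩
    refine ⟨w, rfl, mem_closedBall.2 ?_⟩
    have a1 := Real.self_le_sinh_iff.2 (dist_nonneg : 0 ≤ dist ((γ : SL(2, ℝ)) • w) w)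
    have a2 := Real.sinh_lt_cosh (dist ((γ : SL(2, ℝ)) • w) w)
    linarith
  obtain ⟨γ, ⟨g1, g2⟩, g3⟩ := Set.exists_min_image _
    (fun γ : Γ => Real.cosh (dist ((γ : SL(2, ℝ)) • w) w)) hfin
    ⟨⟨β, hβ⟩, hs _ dist_nonneg db, hne⟩
  have k := TMarg_key w α γ (ht α hα) (ht γ γ.2) ca g1
  have hγ1 : (γ : SL(2, ℝ)) ≠ 1 := fun h => g2 (by rw [h, one_mul, mul_one])
  have hpos : 1 < Real.cosh (dist ((γ : SL(2, ℝ)) • w) w) :=
    Real.one_lt_cosh.2 fun h => hγ1 (H.free γ.2 (dist_eq_zero.1 h))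
  have hm : α * γ * α⁻¹ * (γ : SL(2, ℝ))⁻¹ ∈ Γ :=
    Γ.mul_mem (Γ.mul_mem (Γ.mul_mem hα γ.2) (Γ.inv_mem hα)) (Γ.inv_mem γ.2)
  have := g3 ⟨_, hm⟩ ⟨by linarith, fun hc => g2 ?_⟩
  · simp only at this
    linarith
  · have hc' : Commute (α * γ * α⁻¹ * (γ : SL(2, ℝ))⁻¹) α := hc.symm
    have e : (γ : SL(2, ℝ)) * α * (γ : SL(2, ℝ))⁻¹ = (α * γ * α⁻¹ * (γ : SL(2, ℝ))⁻¹)⁻¹ * α := by
      group
    refine (hNC α γ (H.hyp α hα h1) (Or.inr (H.hyp γ γ.2 hγ1)) ?_).symm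
    rw [e]
    exact (hc'.inv_left.mul_left (Commute.refl α)).eq

end Pool.Agent.MP_4f0ed6_gt.U

end

section

set_option autoImplicit false
set_option linter.dupNamespace false

open UpperHalfPlane MeasureTheory Set Metric Filter Topology
open scoped MatrixGroups ContDiff InnerProductSpace ENNReal Classical

namespace Pool.Agent.MP_4f0ed6_gt.U

theorem TR_ext {n : ℕ} {E H : Type} [AddCommGroup E] [Module ℝ E] [NormedAddCommGroup H]
    [InnerProductSpace ℝ H] (j : E →ₗ[ℝ] H) (hd : DenseRange j) (T : E → Fin n → ℂ → ℝ)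
    (hm : ∀ u c, MemLp (T u c) 2 mu)
    (ha : ∀ u v c y, ‖y‖ < 16 → T (u + v) c y = T u c y + T v c y)
    (hs : ∀ (a : ℝ) u c y, ‖y‖ < 16 → T (a • u) c y = a * T u c y) (C : Fin n → ℝ)
    (hb : ∀ u c, ∫ y, T u c y ^ 2 ∂mu ≤ C c * ‖j u‖ ^ 2) :
    ∃ R : H →L[ℝ] L2 n, ∀ u, ∀ᵐ y ∂nu n, R (j u) y = T u y.1 y.2 := by
  have hM : ∀ u, MemLp (fun y : Fin n × ℂ => T u y.1 y.2) 2 (nu n) :=
    fun u => memLp_of_slice fun c => hm u c
  let f : E →ₗ[ℝ] L2 n :=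
    { toFun := fun u => (hM u).toLp _
      map_add' := fun u v => by
        rw [← MemLp.toLp_add]
        refine MemLp.toLp_congr _ _ ?_
        filter_upwards [ae_ball] with y hy
        exact ha u v y.1 y.2 hy
      map_smul' := fun a u => by
        rw [RingHom.id_apply, ← MemLp.toLp_const_smul]
        refine MemLp.toLp_congr _ _ ?_
        filter_upwards [ae_ball] with y hy
        exact hs a u y.1 y.2 hy }
  have hf : ∀ u, ∀ᵐ y ∂nu n, f u y = T u y.1 y.2 := fun u => (hM u).coeFn_toLp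
  have hn : ∀ u, ‖f u‖ ≤ √(∑ c, C c) * ‖j u‖ := by
    intro u
    rw [← Real.sqrt_sq (norm_nonneg (j u)), ← Real.sqrt_mul' _ (sq_nonneg _)]
    refine Real.le_sqrt_of_sq_le ?_
    rw [norm_sq_eq_sum, Finset.sum_mul]
    refine Finset.sum_le_sum fun c _ => le_trans (le_of_eq (integral_congr_ae ?_)) (hb u c)
    filter_upwards [ae_slice (hf u) c] with y hy
    rw [hy]
  refine ⟨f.extendOfNorm j, fun u => ?_⟩
  rw [LinearMap.extendOfNorm_eq hd ⟨_, hn⟩]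
  exact hf u

theorem TR_dx_smul {u : ℂ → ℝ} {y : ℂ} (a : ℝ) (hu : DifferentiableAt ℝ u y) :
    dx (fun y => a * u y) y = a * dx u y := by
  rw [dx, fderiv_const_mul hu]
  rfl

theorem TR_dy_smul {u : ℂ → ℝ} {y : ℂ} (a : ℝ) (hu : DifferentiableAt ℝ u y) :
    dy (fun y => a * u y) y = a * dy u y := by
  rw [dy, fderiv_const_mul hu]
  rfl

theorem stR : StR := by
  intro X n m Δ K H _ _ j hX hK hj
  have hdiff : ∀ (u : SI X.Γ) (c : Fin n) (y : ℂ), ‖y‖ < 16 →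
      DifferentiableAt ℝ (fun y' => u.1 (K.pt c y')) y := fun u c y hy =>
    (Sm.contDiffAt_ch u.2.1 (hK.s0 c) (hK.s1 c) (by linarith)).differentiableAt (by simp)
  have hemb : ∀ c, Emb X.Γ (K.D c 16) := fun c =>
    (hK.emb c).mono (Dk_mono (hK.s0 c) (by norm_num))
  have hsq : ∀ u : SI X.Γ, Continuous fun w => u.1 w ^ 2 := fun u => u.2.1.continuous.pow 2
  have hen : ∀ u : SI X.Γ, Continuous (en u.1 u.1) := fun u => continuous_en u.2.1 u.2.1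
  have hsplit : ∀ u : SI X.Γ,
      ‖j u‖ ^ 2 = (∫ z in X.F, en u.1 u.1 z) + ∫ z in X.F, u.1 z ^ 2 := fun u => by
    rw [hj.nrm, integral_add (hX.cl.integrableOn (hen u)) (hX.cl.integrableOn (hsq u))]
  have h0 : ∀ u : SI X.Γ, ∫ z in X.F, u.1 z ^ 2 ≤ ‖j u‖ ^ 2 := fun u => by
    rw [hsplit]
    exact le_add_of_nonneg_left (integral_nonneg fun z => en_nn _ z)
  have h1 : ∀ u : SI X.Γ, ∫ z in X.F, en u.1 u.1 z ≤ ‖j u‖ ^ 2 := fun u => by
    rw [hsplit]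
    exact le_add_of_nonneg_right (integral_nonneg fun z => sq_nonneg _)
  have hg : ∀ (u : SI X.Γ) (c : Fin n),
      (∫ y, dx (fun y' => u.1 (K.pt c y')) y ^ 2 ∂mu) +
        ∫ y, dy (fun y' => u.1 (K.pt c y')) y ^ 2 ∂mu ≤ ‖j u‖ ^ 2 := fun u c => by
    obtain ⟨m1, m2⟩ := Sm.memLp_dx (z := K.z c) u.2.1 (hK.s0 c) (hK.s1 c)
    refine le_trans (le_of_eq ?_) ((hX.cl.int_emb_le (isOpen_Dk _ _ _) (hemb c) (hen u)
      (en_inv u.2 u.2) (en_nn _)).trans (h1 u))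
    rw [integral_en_Dk (hK.s0 c) (hK.s1 c) (by norm_num) u.2.1 u.2.1]
    refine (integral_add m1.integrable_sq m2.integrable_sq).symm.trans ?_
    simp only [sq]
    rfl
  obtain ⟨R, hR⟩ := TR_ext j hj.dense (fun u c y => u.1 (K.pt c y))
    (fun u c => memLp_ch (hK.s0 c) (hK.s1 c) u.2.1.continuous) (fun _ _ _ _ _ => rfl)
    (fun _ _ _ _ _ => rfl) (fun c => (4 * K.s c ^ 2 / 9)⁻¹) fun u c => by
      have hp : 0 < 4 * K.s c ^ 2 / 9 := by have := hK.s0 c; positivity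
      rw [le_inv_mul_iff₀ hp]
      exact (le_integral_Dk (hK.s0 c) (hK.s1 c) (by norm_num) (hsq u) fun _ => sq_nonneg _).trans
        ((hX.cl.int_emb_le (isOpen_Dk _ _ _) (hemb c) (hsq u)
          (fun γ hγ z => by rw [u.2.2 γ hγ z]) fun _ => sq_nonneg _).trans (h0 u))
  obtain ⟨Rx, hx⟩ := TR_ext j hj.dense (fun u c => dx fun y' => u.1 (K.pt c y'))
    (fun u c => (Sm.memLp_dx u.2.1 (hK.s0 c) (hK.s1 c)).1)
    (fun u v c y hy => dx_add (hdiff u c y hy) (hdiff v c y hy))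
    (fun a u c y hy => TR_dx_smul a (hdiff u c y hy)) (fun _ => 1) fun u c => by
      rw [one_mul]
      exact (le_add_of_nonneg_right (integral_nonneg fun z => sq_nonneg _)).trans (hg u c)
  obtain ⟨Ry, hy⟩ := TR_ext j hj.dense (fun u c => dy fun y' => u.1 (K.pt c y'))
    (fun u c => (Sm.memLp_dx u.2.1 (hK.s0 c) (hK.s1 c)).2)
    (fun u v c y hy => dy_add (hdiff u c y hy) (hdiff v c y hy))
    (fun a u c y hy => TR_dy_smul a (hdiff u c y hy)) (fun _ => 1) fun u c => by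
      rw [one_mul]
      exact (le_add_of_nonneg_left (integral_nonneg fun z => sq_nonneg _)).trans (hg u c)
  exact ⟨R, Rx, Ry, hR, hx, hy⟩

end Pool.Agent.MP_4f0ed6_gt.U

end

section

set_option autoImplicit false
set_option linter.dupNamespace false

open UpperHalfPlane MeasureTheory Set Metric Filter Topology
open scoped MatrixGroups ContDiff InnerProductSpace ENNReal Classical

namespace Pool.Agent.MP_4f0ed6_gt.U

theorem TTrf_cell {Δ : ℕ} {X : Sf} {n m : ℕ} {K : Cov n m} (hX : X.Ok) (hK : K.Ok X Δ)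
    (c : Fin n) {h : ℍ → ℝ} (hh : Continuous h) (hi : Inv X.Γ h) (hp : ∀ w, 0 ≤ h w) :
    ∫ y in ball (0 : ℂ) 16, h (K.pt c y) ≤ 9 / (4 * K.s c ^ 2) * ∫ w in X.F, h w := by
  have h0 := hK.s0 c
  have h1 := hK.s1 c
  have a1 := le_integral_Dk (z := K.z c) (t := 16) h0 h1 (by norm_num) hh hp
  have a2 := hX.cl.int_emb_le (isOpen_Dk (K.z c) (K.s c) 16)
    ((hK.emb c).mono (Dk_mono h0 (by norm_num))) hh hi hp
  have a3 := a1.trans a2
  have hs : 0 < 4 * K.s c ^ 2 := by positivity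
  rw [div_mul_eq_mul_div, le_div_iff₀ hs]
  change (∫ y in ball (0 : ℂ) 16, h (ch (K.z c) (K.s c) y)) * _ ≤ _
  linarith

theorem TTrf_top {Δ : ℕ} {X : Sf} {n m : ℕ} {K : Cov n m} (hX : X.Ok) (hK : K.Ok X Δ)
    (c : Fin n) {t : ℝ} (ht : t ≤ 20) {h : ℍ → ℝ} (hh : Continuous h) (hi : Inv X.Γ h)
    (hp : ∀ w, 0 ≤ h w) (hz : ∀ w, w ∉ orb X.Γ (K.D c t) → h w = 0) :
    ∫ w in X.F, h w ≤ 4 * K.s c ^ 2 * ∫ y in ball (0 : ℂ) t, h (K.pt c y) := by
  have h0 := hK.s0 c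
  have h1 := hK.s1 c
  have ho : IsOpen (K.D c t) := isOpen_Dk _ _ _
  have a1 := integral_Dk_le (z := K.z c) h0 h1 ht hh hp
  have a2 := (hX.cl.int_emb ho ((hK.emb c).mono (Dk_mono h0 ht)) hh hi).2
  have a3 : ∫ w in X.F, h w = ∫ w in X.F ∩ orb X.Γ (K.D c t), h w :=
    setIntegral_eq_of_subset_of_forall_sdiff_eq_zero hX.cl.cpt.isClosed.measurableSet
      inter_subset_left (fun w hw => hz w fun h' => hw.2 ⟨hw.1, h'⟩)
  rw [a3, a2]
  exact a1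

theorem TTrf_zero {Δ : ℕ} {X : Sf} {n m : ℕ} {K : Cov n m} (hK : K.Ok X Δ)
    (c c' : Fin n) {t : ℝ} (ht : t ≤ 20) {h : ℍ → ℝ}
    (hz : ∀ w, w ∉ orb X.Γ (K.D c t) → h w = 0) (ha : ¬ K.Adj X.Γ (.inl c) (.inl c')) :
    ∫ y in ball (0 : ℂ) 16, h (K.pt c' y) = 0 := by
  refine setIntegral_eq_zero_of_forall_eq_zero fun y hy => hz _ fun hm => ha (Or.inr ⟨K.pt c' y, ?_, ?_⟩)
  · exact orb_mono (Dk_mono (hK.s0 c) ht) hm
  · refine subset_orb _ _ (ch_mem_Dk (hK.s0 c') (hK.s1 c') (by norm_num) ?_)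
    have := mem_ball_zero_iff.1 hy
    linarith

theorem stTrf : StTrf := by
  intro Δ X n m K hX hK
  refine ⟨fun c t h ht hh hi hp hz => ?_, 1 + ∑ c', 9 / (4 * K.s c' ^ 2), by positivity,
    fun h hh hi hp => ?_⟩
  · set I := ∫ y in ball (0 : ℂ) t, h (K.pt c y) with hI
    have hI0 : 0 ≤ I := integral_nonneg fun y => hp _
    have hc := TTrf_top hX hK c ht hh hi hp hz
    have key : ∀ c', K.Adj X.Γ (.inl c) (.inl c') →
        ∫ y in ball (0 : ℂ) 16, h (K.pt c' y) ≤ 36 * I := by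
      intro c' ha
      have b1 := TTrf_cell hX hK c' hh hi hp
      have b2 := hK.cmp c c' ha
      have h0 := hK.s0 c
      have h0' := hK.s0 c'
      have b3 : K.s c ^ 2 ≤ 4 * K.s c' ^ 2 := by nlinarith
      have hs : 0 < 4 * K.s c' ^ 2 := by positivity
      refine b1.trans ?_
      rw [div_mul_eq_mul_div, div_le_iff₀ hs]
      nlinarith [mul_le_mul_of_nonneg_right b3 hI0]
    set S : Finset (Fin n) := Finset.univ.filter fun c' => K.Adj X.Γ (.inl c) (.inl c') with hS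
    have hcard : S.card ≤ Δ := by
      refine le_trans ?_ (hK.deg (.inl c))
      rw [← Set.ncard_coe_finset, ← Set.ncard_image_of_injective _ (Sum.inl_injective (β := Fin m))]
      refine Set.ncard_le_ncard ?_ (Set.toFinite _)
      rintro _ ⟨c', hc', rfl⟩
      simpa [hS] using hc'
    calc ∑ c', ∫ y in ball (0 : ℂ) 16, h (K.pt c' y)
        = ∑ c' ∈ S, ∫ y in ball (0 : ℂ) 16, h (K.pt c' y) := by
          refine (Finset.sum_subset (Finset.subset_univ _) fun c' _ hc' => ?_).symm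
          exact TTrf_zero hK c c' ht hz (by simpa [hS] using hc')
      _ ≤ S.card • (36 * I) :=
          Finset.sum_le_card_nsmul _ _ _ fun c' hc' => key c' (by simpa [hS] using hc')
      _ ≤ 36 * Δ * I := by
          rw [nsmul_eq_mul]
          have : (S.card : ℝ) ≤ Δ := by exact_mod_cast hcard
          nlinarith
  · have hF : 0 ≤ ∫ w in X.F, h w := integral_nonneg fun w => hp w
    have := Finset.sum_le_sum fun c' (_ : c' ∈ Finset.univ) => TTrf_cell hX hK c' hh hi hp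
    rw [← Finset.sum_mul] at this
    linarith

end Pool.Agent.MP_4f0ed6_gt.U

end

section

set_option autoImplicit false
set_option linter.dupNamespace false

open UpperHalfPlane MeasureTheory Set Metric Filter Topology
open scoped MatrixGroups ContDiff InnerProductSpace ENNReal Classical

namespace Pool.Agent.MP_4f0ed6_gt.U

theorem TComm_pt {η u : ℍ → ℝ} (hη : Sm η) (hu : Sm u) {M N : ℝ} (hM : ∀ w, |η w| ≤ M)
    (hN : ∀ w, |en η η w| ≤ N) (w : ℍ) :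
    en (fun w => η w * u w) (fun w => η w * u w) w + (η w * u w) ^ 2 ≤
      (2 * M ^ 2 + 2 * N) * (en u u w + u w ^ 2) := by
  have h1 := en_mul_le hη hu w
  have h2 : η w ^ 2 ≤ M ^ 2 := by
    rw [← sq_abs]
    exact pow_le_pow_left₀ (abs_nonneg _) (hM w) 2
  have h3 : en η η w ≤ N := (le_abs_self _).trans (hN w)
  have h4 := en_nn u w
  have h5 := en_nn η w
  have h6 : 0 ≤ u w ^ 2 := sq_nonneg _
  have h7 : η w ^ 2 * en u u w ≤ M ^ 2 * en u u w := mul_le_mul_of_nonneg_right h2 h4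
  have h8 : u w ^ 2 * en η η w ≤ u w ^ 2 * N := mul_le_mul_of_nonneg_left h3 h6
  have h9 : η w ^ 2 * u w ^ 2 ≤ M ^ 2 * u w ^ 2 := mul_le_mul_of_nonneg_right h2 h6
  have h10 : 0 ≤ N * en u u w := mul_nonneg (h5.trans h3) h4
  have h11 : 0 ≤ M ^ 2 * u w ^ 2 := mul_nonneg (sq_nonneg _) h6
  rw [mul_pow]
  nlinarith

theorem TComm_en {X : Sf} (hX : X.Ok) {η u v : ℍ → ℝ} (hη : Sm η) (hu : Sm u) (hv : Sm v) :
    ∫ w in X.F, en u (fun w => η w * v w) w =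
      (∫ w in X.F, η w * en u v w) + ∫ w in X.F, v w * en u η w := by
  have i1 : IntegrableOn (fun w => η w * en u v w) X.F :=
    hX.cl.integrableOn (hη.continuous.mul (continuous_en hu hv))
  have i2 : IntegrableOn (fun w => v w * en u η w) X.F :=
    hX.cl.integrableOn (hv.continuous.mul (continuous_en hu hη))
  rw [← integral_add i1 i2]
  refine integral_congr_ae (Eventually.of_forall fun w => ?_)
  simp only
  rw [en_comm, en_mul hη hv, en_comm v u, en_comm η u]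

theorem stComm : StComm := by
  intro Δ X n m K H _ _ _ P j Rx Ry hX _ hR η
  obtain ⟨M, hM0, hM⟩ := hX.cl.bdd η.2.1.continuous η.2.2
  obtain ⟨N, hN0, hN⟩ := hX.cl.bdd (continuous_en η.2.1 η.2.1) (en_inv η.2 η.2)
  have hC : 0 ≤ 2 * M ^ 2 + 2 * N := by positivity
  refine ⟨fun u => ⟨fun w => η.1 w * u.1 w, SI_mul η.2 u.2⟩, √(2 * M ^ 2 + 2 * N),
    fun _ _ => rfl, fun u => ?_, fun W u v => ?_⟩
  · refine abs_le_of_sq_le_sq' ?_ (by positivity) |>.2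
    rw [mul_pow, Real.sq_sqrt hC, hR.r0.nrm, hR.r0.nrm, ← integral_const_mul]
    have hm : Sm fun w => η.1 w * u.1 w := η.2.1.mul u.2.1
    refine integral_mono (hX.cl.integrableOn ?_) (hX.cl.integrableOn ?_) fun w => ?_
    · exact (continuous_en hm hm).add (hm.continuous.pow 2)
    · exact continuous_const.mul ((continuous_en u.2.1 u.2.1).add (u.2.1.continuous.pow 2))
    · exact TComm_pt η.2.1 u.2.1 hM hN w
  · have hq : ∀ a b : H, P.q W a b = P.Qb a b + ⟪mul W (P.R a), P.R b⟫_ℝ := fun _ _ => rfl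
    have hW : ⟪mul W (P.R (j u)), P.R (j ⟨fun w => η.1 w * v.1 w, SI_mul η.2 v.2⟩)⟫_ℝ =
        ⟪mul W (P.R (j v)), P.R (j ⟨fun w => η.1 w * u.1 w, SI_mul η.2 u.2⟩)⟫_ℝ := by
      rw [inner_mul_eq_sum, inner_mul_eq_sum]
      refine Finset.sum_congr rfl fun c _ => integral_congr_ae ?_
      filter_upwards [ae_slice (hR.r1.hR u) c, ae_slice (hR.r1.hR v) c,
        ae_slice (hR.r1.hR ⟨fun w => η.1 w * v.1 w, SI_mul η.2 v.2⟩) c,
        ae_slice (hR.r1.hR ⟨fun w => η.1 w * u.1 w, SI_mul η.2 u.2⟩) c] with y h1 h2 h3 h4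
      rw [h1, h2, h3, h4]
      ring
    rw [hq, hq, hW, hR.hQ, hR.hQ, hX.Q_eq u.2.1 (η.2.1.mul v.2.1),
      hX.Q_eq v.2.1 (η.2.1.mul u.2.1), TComm_en hX η.2.1 u.2.1 v.2.1,
      TComm_en hX η.2.1 v.2.1 u.2.1]
    have e1 : ∫ w in X.F, η.1 w * en v.1 u.1 w = ∫ w in X.F, η.1 w * en u.1 v.1 w := by
      simp only [en_comm v.1 u.1]
    have e2 : ∫ z in X.F, X.V z * (v.1 z * (η.1 z * u.1 z)) =
        ∫ z in X.F, X.V z * (u.1 z * (η.1 z * v.1 z)) :=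
      integral_congr_ae (Eventually.of_forall fun w => by simp only; ring)
    rw [e1, e2]
    ring

end Pool.Agent.MP_4f0ed6_gt.U

end

section

set_option autoImplicit false
set_option linter.dupNamespace false

open UpperHalfPlane MeasureTheory Set Metric Filter Topology
open scoped MatrixGroups ContDiff InnerProductSpace ENNReal Classical

namespace Pool.Agent.MP_4f0ed6_gt.U

theorem TCoer_num {M C1 C2 E N A q : ℝ} (hM : 0 < M) (h1 : 0 < C1) (h2 : 0 < C2)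
    (a1 : E - M * N ≤ q) (a2 : N ≤ 1 / (2 * M) * E + C2 * A) (a3 : A ≤ C1 * q) :
    E + N ≤ ((2 + 1 / M) * (1 + M * (C2 * C1)) + C2 * C1) * q := by
  have b1 : C2 * A ≤ C2 * C1 * q := by
    rw [mul_assoc]
    exact mul_le_mul_of_nonneg_left a3 h2.le
  have b2 : M * N ≤ M * (1 / (2 * M) * E + C2 * C1 * q) :=
    mul_le_mul_of_nonneg_left (by linarith) hM.le
  have e : M * (1 / (2 * M) * E + C2 * C1 * q) = E / 2 + M * (C2 * C1) * q := by
    field_simp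
  have b3 : E ≤ 2 * ((1 + M * (C2 * C1)) * q) := by linarith
  have b4 : 1 / (2 * M) * E ≤ 1 / (2 * M) * (2 * ((1 + M * (C2 * C1)) * q)) :=
    mul_le_mul_of_nonneg_left b3 (by positivity)
  have e2 : 1 / (2 * M) * (2 * ((1 + M * (C2 * C1)) * q)) =
      1 / M * ((1 + M * (C2 * C1)) * q) := by
    field_simp
  linarith

theorem stCoer (hCo1 : StCo1) (hPF : StPF) : StCoer := by
  intro Δ X n m K H _ _ _ P j Rx Ry hX hK hR W hW hq z
  obtain ⟨C1, h1, hC1⟩ := hCo1 Δ X n m K H P j Rx Ry hX hK hR W hW hq z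
  obtain ⟨M, hM, hV⟩ := hX.cl.bdd hX.Vm.1.continuous hX.Vm.2
  obtain ⟨C2, h2, hC2⟩ := hPF X.Γ X.F hX.cl (1 / (2 * M)) (by positivity)
  obtain ⟨D, hD⟩ : ∃ D : ℝ, D = (2 + 1 / M) * (1 + M * (C2 * C1)) + C2 * C1 := ⟨_, rfl⟩
  have D0 : 0 < D := by rw [hD]; positivity
  have key : ∀ u : SI X.Γ, ‖j u‖ ^ 2 ≤ D * P.q (W + ind z 3) (j u) (j u) := fun u => by
    have hu := u.2.1.continuous
    have i1 := hX.cl.integrableOn (continuous_en u.2.1 u.2.1)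
    have i2 : IntegrableOn (fun w => u.1 w ^ 2) X.F := hX.cl.integrableOn (hu.pow 2)
    rw [hR.r0.nrm u, integral_add i1 i2, hD]
    refine TCoer_num hM h1 h2 ?_ (hC2 u.1 u.2) (hC1 u)
    have a1 := inner_mul_self_le (add_nonneg hW (ind_nn z 3)) (P.R (j u))
    rw [map_zero, zero_apply, inner_zero_left] at a1
    have a2 : ∫ w in X.F, X.V w * (u.1 w * u.1 w) ≤ M * ∫ w in X.F, u.1 w ^ 2 := by
      rw [← integral_const_mul]
      refine integral_mono (hX.cl.integrableOn (hX.Vm.1.continuous.mul (hu.mul hu)))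
        (i2.const_mul M) fun w => ?_
      show X.V w * (u.1 w * u.1 w) ≤ M * u.1 w ^ 2
      rw [sq]
      exact mul_le_mul_of_nonneg_right ((le_abs_self _).trans (hV w)) (mul_self_nonneg _)
    rw [Pb.q_apply, hR.hQ, hX.Q_eq u.2.1 u.2.1]
    linarith
  refine ⟨1 / D, by positivity, fun a => ?_⟩
  refine hR.r0.dense.induction_on a (isClosed_le (by fun_prop) ?_) fun u => ?_
  · exact (P.q (W + ind z 3)).continuous₂.comp (continuous_id.prodMk continuous_id)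
  · rw [mul_assoc, ← sq, one_div_mul_eq_div, div_le_iff₀ D0, mul_comm]
    exact key u

end Pool.Agent.MP_4f0ed6_gt.U

end

section

set_option autoImplicit false
set_option linter.dupNamespace false

open UpperHalfPlane MeasureTheory Set Metric Filter Topology
open scoped MatrixGroups ContDiff InnerProductSpace ENNReal Classical

namespace Pool.Agent.MP_4f0ed6_gt.U

theorem TAx_inj {X : Sf} (hX : X.Ok) {H : Type} [NormedAddCommGroup H] [InnerProductSpace ℝ H]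
    {j : SI X.Γ →ₗ[ℝ] H} (h : Rp0 X j) : Function.Injective j := by
  rw [injective_iff_map_eq_zero]
  intro u hu
  have h1 := h.nrm u
  rw [hu, norm_zero, zero_pow two_ne_zero] at h1
  have h2 := hX.cl.eq_zero (h := fun z => en u.1 u.1 z + u.1 z ^ 2)
    ((continuous_en u.2.1 u.2.1).add (u.2.1.continuous.pow 2))
    (fun γ hγ z => by
      show en u.1 u.1 (γ • z) + u.1 (γ • z) ^ 2 = en u.1 u.1 z + u.1 z ^ 2
      rw [en_inv u.2 u.2 γ hγ z, u.2.2 γ hγ z])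
    (fun w => add_nonneg (en_nn _ _) (sq_nonneg _)) h1.symm
  refine Subtype.ext (funext fun w => ?_)
  have h3 : en u.1 u.1 w + u.1 w ^ 2 = 0 := h2 w
  have h4 := en_nn u.1 w
  exact pow_eq_zero_iff two_ne_zero |>.1 (le_antisymm (by linarith) (sq_nonneg _))

theorem TAx_ne {X : Sf} (hX : X.Ok) {n m Δ : ℕ} {K : Cov n m} (hK : K.Ok X Δ) :
    Nonempty (Fin n) := by
  by_contra hn
  have hc : ∀ w, ∃ t, w ∈ K.tb t := fun w => (hK.cov w).resolve_left fun ⟨c, _⟩ => hn ⟨c⟩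
  obtain ⟨t, ht⟩ := hc UpperHalfPlane.I
  have h1 : (K.tb t)ᶜ = ⋃ t' ∈ {t' | t' ≠ t}, K.tb t' := by
    refine Subset.antisymm (fun w hw => ?_) (iUnion₂_subset fun t' h' => ?_)
    · obtain ⟨t', h'⟩ := hc w
      exact mem_iUnion₂.2 ⟨t', fun e => hw (e ▸ h'), h'⟩
    · exact (hK.dj t' t h').subset_compl_right
  have h2 : IsClopen (K.tb t) :=
    ⟨isOpen_compl_iff.1 (h1 ▸ isOpen_biUnion fun t' _ => hK.op t'), hK.op t⟩
  have h3 : X.Psd (K.tb t) := hK.psd (.inr t)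
  rw [h2.eq_univ ⟨_, ht⟩] at h3
  exact hX.not_psd_univ h3

theorem TAx_nz {X : Sf} {n m : ℕ} {K : Cov n m} {H : Type} [NormedAddCommGroup H]
    [InnerProductSpace ℝ H] {j : SI X.Γ →ₗ[ℝ] H} {R Rx Ry : H →L[ℝ] L2 n}
    (h : Rp1 X K j R Rx Ry) (c : Fin n) : ∃ u, ⟪one c, R u⟫_ℝ ≠ 0 := by
  refine ⟨j ⟨fun _ => 1, SI_const _ 1⟩, ?_⟩
  have h1 : ∀ᵐ y ∂volume.restrict (ball (0 : ℂ) 1),
      R (j ⟨fun _ => 1, SI_const _ 1⟩) (c, y) = 1 := by
    rw [← mu_restrict measurableSet_ball (ball_subset_ball (by norm_num))]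
    exact ae_restrict_of_ae (ae_slice (h.hR ⟨fun _ => 1, SI_const _ 1⟩) c)
  rw [inner_one_eq, integral_congr_ae h1, setIntegral_const, real_ball 0 zero_le_one]
  simp

theorem stAx (hH : StH) (hR : StR) (hApx : StApx) (hRevA : StRevA) (hFluxA : StFluxA)
    (hImsA : StImsA) (hLocA : StLocA) : StAx := by
  intro Δ hΔ
  obtain ⟨CR, hCR, hRev⟩ := hRevA Δ
  obtain ⟨Cf, hCf, hFlux⟩ := hFluxA Δ
  obtain ⟨κ0, hκ0, hIms⟩ := hImsA Δ
  obtain ⟨Cl, hCl, hLoc⟩ := hLocA Δ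
  refine ⟨⟨Δ, κ0, Cf, Cl, CR⟩, fun X n m K hX hK K0 hfin hK0 => ?_⟩
  obtain ⟨H, i1, i2, i3, j, Qb, h0, hQ, hs⟩ := hH X hX
  obtain ⟨R, Rx, Ry, h1⟩ := hR X n m Δ K H j hX hK h0
  let P : Pb n m H :=
    ⟨R, Qb, K.Adj X.Γ, fun A => X.Psd (⋃ a ∈ A, K.O X.Γ a), K0.map j⟩
  have hP : Rep X K P j Rx Ry := ⟨h0, h1, hQ, hs, rfl, fun _ => Iff.rfl⟩
  refine ⟨H, i1, i2, i3, P, ?_,
    (Submodule.equivMapOfInjective j (TAx_inj hX h0) K0).finrank_eq.symm⟩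
  exact
    { ok := ⟨hΔ, hκ0, hCf, hCl, hCR⟩
      gr := ⟨fun _ => Or.inl rfl,
        fun _ _ h => h.imp Eq.symm fun h' => by rwa [inter_comm], hK.deg⟩
      ne := TAx_ne hX hK
      sym := hs
      pos := fun W hW x hx => (hApx Δ X n m K H P j Rx Ry hX hK hP W hW x hx).1
      rev := hRev X n m K H P j Rx Ry hX hK hP
      flux := hFlux X n m K H P j Rx Ry hX hK hP
      ims := hIms X n m K H P j Rx Ry hX hK hP
      mono := fun A B hAB h => Sf.Psd.mono h (biUnion_subset_biUnion_left hAB)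
      single := fun a => Sf.Psd.mono (hK.psd a) (biUnion_singleton a (K.O X.Γ)).subset
      two := fun A B h => hX.two (disjoint_left.2 fun w h1 h2 => by
        obtain ⟨a, ha, h3⟩ := mem_iUnion₂.1 h1
        obtain ⟨b, hb, h4⟩ := mem_iUnion₂.1 h2
        exact h a ha b hb (Or.inr ⟨w, h3, h4⟩))
      fin := (inferInstance : FiniteDimensional ℝ (K0.map j))
      ker := by
        rintro _ ⟨f, hf, rfl⟩ v
        exact h0.dense.induction_on v (isClosed_eq (Qb (j f)).continuous continuous_const)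
          fun v => (hQ f v).trans (hK0 f hf v.1 v.2)
      loc := hLoc X n m K H P j Rx Ry hX hK hP (by
        rintro _ ⟨f, hf, rfl⟩
        exact ⟨f, rfl, hK0 f hf⟩)
      nz := TAx_nz h1 }

end Pool.Agent.MP_4f0ed6_gt.U

end

section

set_option autoImplicit false
set_option linter.dupNamespace false

open MeasureTheory Set Metric Filter Topology
open scoped InnerProductSpace ENNReal Classical

namespace Pool.Agent.MP_4f0ed6_gt.U

theorem TAbsb_kappa {k : Cst} (hk : k.Ok) : ∃ κ : ℝ, k.κ0 + 1 ≤ κ / 2 ∧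
    (2 * k.Δ : ℝ) ^ 2 ≤ 1 + κ / (2 * k.Cf * √(1 + κ)) := by
  have h2 := hk.h2
  have h3 := hk.h3
  obtain ⟨A, hA⟩ : ∃ A : ℝ, A = (2 * k.Δ : ℝ) ^ 2 := ⟨_, rfl⟩
  have A0 : 0 ≤ A := hA ▸ sq_nonneg _
  have c0 : 0 ≤ k.Cf * A := mul_nonneg h3.le A0
  obtain ⟨s, hs⟩ : ∃ s : ℝ, s = 2 * (k.Cf * A) + 2 * k.κ0 + 3 := ⟨_, rfl⟩
  have s1 : 1 ≤ s := by linarith
  refine ⟨s ^ 2 - 1, by nlinarith, ?_⟩
  rw [← hA, show 1 + (s ^ 2 - 1) = s ^ 2 by ring, Real.sqrt_sq (by linarith)]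
  have : A ≤ (s ^ 2 - 1) / (2 * k.Cf * s) := by
    rw [le_div_iff₀ (by positivity)]
    nlinarith
  linarith

theorem TAbsb_log {N : ℕ} (hN : 3 ≤ N) : 1 / (N : ℝ) ≤ Real.log N / N := by
  have h1 : (3 : ℝ) ≤ N := by exact_mod_cast hN
  have h2 : 1 ≤ Real.log N := by
    rw [Real.le_log_iff_exp_le (by linarith)]
    linarith [Real.exp_one_lt_d9]
  gcongr

theorem stAbsb (hAvb : StAvb) (hNum1 : StNum1) (hNum2 : StNum2) : StAbsb := by
  intro k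
  by_cases hk : k.Ok
  swap
  · exact ⟨1, one_pos, fun N _ n m H _ _ _ P hA => absurd hA.ok hk⟩
  obtain ⟨κ, k1, k2⟩ := TAbsb_kappa hk
  obtain ⟨k0, h⟩ := hAvb k κ k1 k2
  have h3 := hk.h3
  have R0 : 0 < k.CR (κ + 2) ^ 2 := pow_pos (hk.h5 _) 2
  obtain ⟨C1, c1, h1⟩ := hNum1 (1 + k.Cf * √(1 + (κ + 2))) (by positivity)
  obtain ⟨C2, c2, h2⟩ := hNum2 k hk.h1 k0
  have c3 : 0 ≤ k0 * C1 + k.CR (κ + 2) ^ 2 * (C1 + 2) := by positivity
  refine ⟨C2 + (k0 * C1 + k.CR (κ + 2) ^ 2 * (C1 + 2)), by positivity,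
    fun N hN n m H _ _ _ P hA => ?_⟩
  obtain ⟨M, m1, m2⟩ := h1 N hN
  obtain ⟨j, ℓ, R, r1, r2, r3, r4, r5⟩ := h2 N hN
  have l1 := TAbsb_log hN
  rw [mul_div_assoc] at m1 m2
  obtain ⟨L, hL⟩ : ∃ L : ℝ, L = Real.log N / N := ⟨_, rfl⟩
  rw [← hL] at m1 m2 l1 ⊢
  have L0 : 0 ≤ L := le_trans (by positivity) l1
  refine (h M N j ℓ R r1 r2 n m H P hA).trans (add_le_add (r5.trans ?_) ?_)
  · gcongr
    linarith
  · have e1 : (k0 : ℝ) / (M + 1) ≤ k0 * (C1 * L) := by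
      rw [div_eq_mul_one_div]
      gcongr
    have e2 : k.th2 (κ + 2) M N ≤ C1 * L := m2
    have e3 := mul_le_mul_of_nonneg_left (add_le_add (add_le_add (r3.trans l1) e2) (r4.trans l1))
      R0.le
    have e4 := mul_le_mul_of_nonneg_left (add_le_add e1 e3) (Nat.cast_nonneg (α := ℝ) n)
    have e5 : 0 ≤ C2 * n * L := by positivity
    refine e4.trans ?_
    nlinarith

end Pool.Agent.MP_4f0ed6_gt.U

end
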