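import Pool.Agent.Mg.F4f0ed6a.G5bac69
import Pool.Agent.Mg.F4f0ed6a.Ga5385d

section

set_option autoImplicit false
set_option linter.dupNamespace false

open UpperHalfPlane MeasureTheory Set Metric
open scoped MatrixGroups

namespace Pool.Agent.MP_4f0ed6_gt.U

theorem TBand_lo (x : ℝ) (hx : 0 ≤ x) : 1 + x ^ 2 / 2 ≤ Real.cosh x := by
  have h1 : Real.cosh x = Real.cosh (2 * (x / 2)) := by congr 1; ring
  have h2 : x / 2 ≤ Real.sinh (x / 2) := Real.self_le_sinh_iff.2 (by linarith)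
  rw [h1, Real.cosh_two_mul, Real.cosh_sq]
  nlinarith

theorem TBand_hi (x e : ℝ) (hx : 0 ≤ x) (he : e ≤ 1 / 2) (h : x ≤ 6 * e / 5) :
    Real.cosh x ≤ 1 + e ^ 2 := by
  have h0 : x ^ 2 ≤ (6 * e / 5) ^ 2 := pow_le_pow_left₀ hx h 2
  have he0 : 0 ≤ e := by linarith
  have h1 : e ^ 2 ≤ 1 / 4 := by nlinarith
  have h2 : 0 ≤ x ^ 2 / 2 := by positivity
  have h3 : x ^ 2 / 2 < 1 := by nlinarith
  refine (Real.cosh_le_exp_half_sq x).trans
    ((Real.exp_bound_div_one_sub_of_interval h2 h3).trans ?_)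
  rw [div_le_iff₀ (by linarith)]
  have h4 : x ^ 2 / 2 ≤ 18 / 25 * e ^ 2 := by nlinarith
  have h5 : e ^ 2 * (x ^ 2 / 2) ≤ e ^ 2 * (18 / 100) :=
    mul_le_mul_of_nonneg_left (by linarith) (sq_nonneg e)
  nlinarith [sq_nonneg e]

theorem TBand_aux (a b : ℝ) (h0 : 0 ≤ a * b) (h : a ^ 2 ≤ b ^ 2) : a ^ 2 ≤ a * b := by
  refine (pow_le_pow_iff_left₀ (sq_nonneg a) h0 two_ne_zero).1 ?_
  have h1 := mul_le_mul_of_nonneg_left h (sq_nonneg a)
  nlinarith

theorem TBand_sq (t t' : ℝ) (h0 : 0 ≤ t * t') (h1 : 1 + t' ^ 2 ≤ 2 * (1 + t ^ 2))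
    (h2 : 1 + t ^ 2 ≤ 2 * (1 + t' ^ 2)) : (1 + t ^ 2) * (1 + t' ^ 2) ≤ (3 + t * t') ^ 2 := by
  rcases le_total (t ^ 2) (t' ^ 2) with h | h
  · have h3 := TBand_aux t t' h0 h
    nlinarith
  · have h3 := TBand_aux t' t (by rwa [mul_comm]) h
    nlinarith

theorem TBand_pt (z : ℍ) (t' : ℝ) (h0 : 0 ≤ z.re / z.im * t')
    (h1 : 1 + t' ^ 2 ≤ 2 * (1 + (z.re / z.im) ^ 2))
    (h2 : 1 + (z.re / z.im) ^ 2 ≤ 2 * (1 + t' ^ 2)) :
    ∃ z' : ℍ, z'.re / z'.im = t' ∧ dist z z' ≤ 2 := by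
  obtain ⟨t, ht⟩ : ∃ t, t = z.re / z.im := ⟨_, rfl⟩
  rw [← ht] at h0 h1 h2
  have hy := z.im_pos
  have hx : z.re = t * z.im := by rw [ht, div_mul_cancel₀ _ hy.ne']
  have hp : 0 < 1 + t ^ 2 := by positivity
  have hp' : 0 < 1 + t' ^ 2 := by positivity
  obtain ⟨c, hc, hc2⟩ : ∃ c : ℝ, 0 < c ∧ c ^ 2 * (1 + t' ^ 2) = 1 + t ^ 2 :=
    ⟨Real.sqrt ((1 + t ^ 2) / (1 + t' ^ 2)), Real.sqrt_pos.2 (div_pos hp hp'), by
      rw [Real.sq_sqrt (div_pos hp hp').le, div_mul_cancel₀ _ hp'.ne']⟩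
  refine ⟨⟨⟨c * t' * z.im, c * z.im⟩, mul_pos hc hy⟩, ?_, ?_⟩
  · show c * t' * z.im / (c * z.im) = t'
    field_simp
  · have h3 : c * (1 + t' ^ 2) ≤ 3 + t * t' := by
      refine (pow_le_pow_iff_left₀ (by positivity) (by linarith) two_ne_zero).1 ?_
      refine le_trans (le_of_eq ?_) (TBand_sq t t' h0 h1 h2)
      rw [← hc2]
      ring
    have h4 : Real.cosh (dist z ⟨⟨c * t' * z.im, c * z.im⟩, mul_pos hc hy⟩) ≤ 3 := by
      rw [UpperHalfPlane.cosh_dist']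
      show ((z.re - c * t' * z.im) ^ 2 + z.im ^ 2 + (c * z.im) ^ 2) / (2 * z.im * (c * z.im)) ≤ 3
      rw [div_le_iff₀ (by positivity), hx]
      have h5 : (t * z.im - c * t' * z.im) ^ 2 + z.im ^ 2 + (c * z.im) ^ 2 =
          (2 * c * z.im ^ 2) * (c * (1 + t' ^ 2) - t * t') := by
        linear_combination (-z.im ^ 2) * hc2
      have h6 : (2 * c * z.im ^ 2) * (c * (1 + t' ^ 2) - t * t') ≤ (2 * c * z.im ^ 2) * 3 :=
        mul_le_mul_of_nonneg_left (by linarith) (by positivity)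
      rw [h5]
      refine h6.trans (le_of_eq ?_)
      ring
    have h7 := TBand_lo 2 (by norm_num)
    have h8 := Real.cosh_le_cosh.1 (h4.trans (le_trans (by norm_num) h7))
    rwa [abs_of_nonneg dist_nonneg, abs_of_nonneg (by norm_num)] at h8

theorem stBand (hNF : StNF) : StBand := by
  intro τ hτ e he he' w w' h1 h2 h3 h4 h5
  obtain ⟨-, -, -, hc, -, -, -, -, hk, -⟩ := hNF τ hτ
  have hL : 0 < (τ.lam - 1) ^ 2 / (2 * τ.lam) := by
    have := hτ.lam1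
    exact div_pos (pow_pos (by linarith) 2) (by linarith)
  have key : ∀ a b : ℍ, e ≤ τ.dp a → e ≤ τ.dp b → τ.dp b ≤ 6 * e / 5 →
      1 + τ.sg b ^ 2 ≤ 2 * (1 + τ.sg a ^ 2) := fun a b ha hb hb' => by
    have e1 := TBand_lo (τ.dp a) (by linarith)
    have e2 := TBand_hi (τ.dp b) e (by linarith) he' hb'
    have e3 : e ^ 2 ≤ τ.dp a ^ 2 := pow_le_pow_left₀ he.le ha 2
    rw [hc] at e1 e2
    refine le_of_mul_le_mul_right ?_ hL
    linarith
  obtain ⟨z', hz, hd⟩ := TBand_pt (τ.g • w) (τ.sg w') h5 (key w w' h1 h3 h4) (key w' w h3 h1 h2)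
  have hs : τ.sg (τ.g⁻¹ • z') = τ.sg w' := by
    rw [← hz, Tb.sg, smul_inv_smul]
  obtain ⟨k, hk'⟩ := hk _ _ hs
  refine ⟨k, (dist_triangle _ (τ.γ ^ k • τ.g⁻¹ • z') _).trans ?_⟩
  have h6 : dist (τ.γ ^ k • w) (τ.γ ^ k • τ.g⁻¹ • z') = dist (τ.g • w) z' := by
    rw [dist_smul, ← dist_smul τ.g, smul_inv_smul]
  rw [h6]
  linarith

end Pool.Agent.MP_4f0ed6_gt.U

end

section

set_option autoImplicit false
set_option linter.dupNamespace false

open UpperHalfPlane MeasureTheory Set Metric Filter Topology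
open scoped MatrixGroups ContDiff InnerProductSpace ENNReal Classical

namespace Pool.Agent.MP_4f0ed6_gt.U

theorem TPiece_mul {u v : ℍ → ℝ} (hu : Sm u) (hv : Sm v) {w : ℍ} (u0 : 0 ≤ u w) (u1 : u w ≤ 1)
    (v0 : 0 ≤ v w) (v1 : v w ≤ 1) :
    √(en (fun w => u w * v w) (fun w => u w * v w) w) ≤ √(en u u w) + √(en v v w) := by
  set P : ℍ → ℝ := fun w => u w * v w with hP
  have h1 : en P P w = u w * en v P w + v w * en u P w := en_mul hu hv P w
  have h2 := (le_abs_self _).trans (en_cs v P w)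
  have h3 := (le_abs_self _).trans (en_cs u P w)
  have h4 : √(en P P w) * √(en P P w) = en P P w := Real.mul_self_sqrt (en_nn P w)
  have a := Real.sqrt_nonneg (en P P w)
  have b := Real.sqrt_nonneg (en u u w)
  have c := Real.sqrt_nonneg (en v v w)
  have h5 : u w * en v P w ≤ √(en v v w) * √(en P P w) :=
    (mul_le_mul_of_nonneg_left h2 u0).trans (mul_le_of_le_one_left (mul_nonneg c a) u1)
  have h6 : v w * en u P w ≤ √(en u u w) * √(en P P w) :=
    (mul_le_mul_of_nonneg_left h3 v0).trans (mul_le_of_le_one_left (mul_nonneg b a) v1)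
  by_contra h
  have h7 := not_le.1 h
  nlinarith

theorem TPiece_prod {ι : Type} {f : ι → ℍ → ℝ} (hf : ∀ i, Sm (f i)) {w : ℍ}
    (h0 : ∀ i, 0 ≤ f i w) (h1 : ∀ i, f i w ≤ 1) (s : Finset ι) :
    √(en (fun w => ∏ i ∈ s, f i w) (fun w => ∏ i ∈ s, f i w) w) ≤
      ∑ i ∈ s, √(en (f i) (f i) w) := by
  induction s using Finset.induction_on with
  | empty => simp [en_const]
  | insert i s hi ih =>
    simp only [Finset.prod_insert hi, Finset.sum_insert hi]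
    exact (TPiece_mul (hf i) (Sm.prod fun j _ => hf j) (h0 i) (h1 i)
      (Finset.prod_nonneg fun j _ => h0 j)
      (Finset.prod_le_one (fun j _ => h0 j) fun j _ => h1 j)).trans (add_le_add_right ih _)

theorem TPiece_sub {u : ℍ → ℝ} (hu : Sm u) (w : ℍ) :
    en (fun w => 1 - u w) (fun w => 1 - u w) w = en u u w := by
  have h : HasDerivAt (fun x : ℝ => 1 - x) (-1) (u w) := (hasDerivAt_id' (u w)).const_sub 1
  rw [en_comp hu h, en_comm, en_comp hu h]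
  ring

theorem TPiece_card {Δ n m : ℕ} {X : Sf} {K : Cov n m} (hK : K.Ok X Δ) (w : ℍ) :
    (Finset.univ.filter fun c => w ∈ orb X.Γ (K.D c 2)).card ≤ Δ := by
  set s := Finset.univ.filter fun c => w ∈ orb X.Γ (K.D c 2) with hs
  rcases s.eq_empty_or_nonempty with h | ⟨c0, hc0⟩
  · rw [h]
    exact Nat.zero_le _
  have hm : ∀ c ∈ s, w ∈ K.O X.Γ (.inl c) := fun c hc =>
    orb_mono (Dk_mono (hK.s0 c) (by norm_num)) (Finset.mem_filter.1 hc).2
  refine le_trans ?_ (hK.deg (.inl c0))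
  rw [← Set.ncard_coe_finset]
  exact Set.ncard_le_ncard_of_injOn Sum.inl (fun c hc => Or.inr ⟨w, hm c0 hc0, hm c hc⟩)
    Sum.inl_injective.injOn

theorem stPiece (hBump : StBump) : StPiece := by
  obtain ⟨C, hC, hB⟩ := hBump 1 2 one_pos one_lt_two (by norm_num)
  refine ⟨C, hC, fun Δ X n m K hX hK => ?_⟩
  choose φ hφ φ0 φ1 φe φs φg using fun c : Fin n =>
    hB X.Γ X.F hX.cl (K.z c) (K.s c) (hK.s0 c) (hK.s1 c) (hK.emb c)
  set P : ℍ → ℝ := fun w => ∏ c, (1 - φ c w) with hP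
  have hg : ∀ c, Sm fun w => 1 - φ c w := fun c => (Sm.const 1).sub (hφ c).1
  have hPs : Sm P := Sm.prod fun c _ => hg c
  have hP0 : ∀ w, 0 ≤ P w := fun w => Finset.prod_nonneg fun c _ => sub_nonneg.2 (φ1 c w)
  set act : ℍ → Finset (Fin n) := fun w => Finset.univ.filter fun c => w ∈ orb X.Γ (K.D c 2)
    with hact
  have hcard : ∀ w, (act w).card ≤ Δ := TPiece_card hK
  have hwt : ∀ w, K.wt X.Γ Finset.univ w = ∑ c ∈ act w, 1 / K.s c ^ 2 := fun w => by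
    rw [Cov.wt, hact, Finset.sum_filter]
    exact Finset.sum_congr rfl fun c _ => Set.indicator_apply _ _ _
  have hwt0 : ∀ w, 0 ≤ K.wt X.Γ Finset.univ w := fun w => by
    rw [hwt]
    positivity
  have hin : ∀ w c, c ∉ act w → w ∉ tsupport (φ c) := fun w c hc h =>
    hc (Finset.mem_filter.2 ⟨Finset.mem_univ _, φs c h⟩)
  set U : Fin m → Set ℍ := fun t => (⋃ c, orb X.Γ (K.D c 1)) ∪ ⋃ t' ∈ {t' | t' ≠ t}, K.tb t'
    with hU
  have hUo : ∀ t, IsOpen (U t) := fun t =>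
    (isOpen_iUnion fun c => isOpen_orb (isOpen_Dk _ _ _)).union
      (isOpen_biUnion fun t' _ => hK.op t')
  have hU0 : ∀ t, ∀ w ∈ U t, (K.tb t).indicator P w = 0 := by
    rintro t w (h | h)
    · obtain ⟨c, hc⟩ := mem_iUnion.1 h
      refine Set.indicator_apply_eq_zero.2 fun _ => Finset.prod_eq_zero (Finset.mem_univ c) ?_
      rw [φe c w hc, sub_self]
    · obtain ⟨t', ht', hw⟩ := mem_iUnion₂.1 h
      exact Set.indicator_of_notMem (Set.disjoint_left.1 (hK.dj t' t ht') hw) _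
  have hUc : ∀ t w, w ∉ K.tb t → w ∈ U t := fun t w hw => by
    rcases hK.cov w with ⟨c, hc⟩ | ⟨t', ht'⟩
    · exact Or.inl (mem_iUnion.2 ⟨c, hc⟩)
    · exact Or.inr (mem_iUnion₂.2 ⟨t', fun e => hw (e ▸ ht'), ht'⟩)
  have hloc : ∀ t, ∀ w ∈ K.tb t, (K.tb t).indicator P =ᶠ[𝓝 w] P := fun t w hw =>
    Filter.eventually_of_mem ((hK.op t).mem_nhds hw) fun x hx => Set.indicator_of_mem hx _
  have hsupp : ∀ t, tsupport ((K.tb t).indicator P) ⊆ K.tb t := fun t =>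
    (closure_minimal (s := Function.support ((K.tb t).indicator P))
      (fun w hw hw' => Function.mem_support.1 hw (hU0 t w hw')) (hUo t).isClosed_compl).trans
      fun w hw => by_contra fun c => hw (hUc t w c)
  refine ⟨Sum.elim φ fun t => (K.tb t).indicator P, ?_, ?_, ?_, fun w => ?_, ?_⟩
  · rintro (c | t)
    · exact hφ c
    · refine ⟨Sm.of_local fun w => ?_, fun γ hγ w => ?_⟩
      · by_cases hw : w ∈ K.tb t
        · exact ⟨P, hPs, hloc t w hw⟩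
        · exact ⟨_, Sm.const 0, Filter.eventually_of_mem ((hUo t).mem_nhds (hUc t w hw)) (hU0 t)⟩
      · have h1 : P (γ • w) = P w := Finset.prod_congr rfl fun c _ => by rw [(hφ c).2 γ hγ w]
        simp only [Sum.elim_inr, Set.indicator_apply, (hK.inv t).iff hγ, h1]
  · rintro (c | t) w
    · exact φ0 c w
    · exact Set.indicator_nonneg (fun x _ => hP0 x) w
  · rintro (c | t)
    · exact (φs c).trans (orb_mono (Dk_mono (hK.s0 c) (by norm_num)))
    · exact hsupp t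
  · by_cases h : ∃ c, 1 / 2 ≤ φ c w
    · obtain ⟨c, hc⟩ := h
      have h1 : c ∈ act w := by_contra fun e => by
        rw [image_eq_zero_of_notMem_tsupport (hin w c e)] at hc
        norm_num at hc
      have h2 : 1 ≤ Δ := (Finset.card_pos.2 ⟨c, h1⟩).trans_le (hcard w)
      refine ⟨.inl c, le_trans ?_ hc⟩
      exact (pow_le_pow_of_le_one (by norm_num) (by norm_num) h2).trans_eq (pow_one _)
    · push Not at h
      rcases hK.cov w with ⟨c, hc⟩ | ⟨t, ht⟩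
      · have h1 := h c
        rw [φe c w hc] at h1
        norm_num at h1
      · refine ⟨.inr t, ?_⟩
        rw [Sum.elim_inr, Set.indicator_of_mem ht]
        refine (pow_le_pow_of_le_one (by norm_num) (by norm_num) (hcard w)).trans ?_
        have h2 : P w = ∏ c ∈ act w, (1 - φ c w) :=
          (Finset.prod_subset (Finset.subset_univ _) fun c _ hc => by
            rw [image_eq_zero_of_notMem_tsupport (hin w c hc), sub_zero]).symm
        rw [h2, ← Finset.prod_const]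
        exact Finset.prod_le_prod (fun _ _ => by norm_num) fun c _ => by linarith [h c]
  · rintro (c | t) w
    · rw [Sum.elim_inl]
      by_cases hc : c ∈ act w
      · have h2 : (1 : ℝ) ≤ Δ := by
          exact_mod_cast (Finset.card_pos.2 ⟨c, hc⟩).trans_le (hcard w)
        have h3 : 1 / K.s c ^ 2 ≤ K.wt X.Γ Finset.univ w := by
          rw [hwt]
          exact Finset.single_le_sum (f := fun c => 1 / K.s c ^ 2) (fun _ _ => by positivity) hc
        calc _ ≤ C / K.s c ^ 2 := φg c w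
          _ = C * 1 * (1 / K.s c ^ 2) := by ring
          _ ≤ _ := by gcongr
      · rw [en_eq_zero (hin w c hc)]
        have := hwt0 w
        positivity
    · rw [Sum.elim_inr]
      by_cases hw : w ∈ K.tb t
      · rw [en_congr (hloc t w hw) (hloc t w hw)]
        have h1 := TPiece_prod hg (fun c => sub_nonneg.2 (φ1 c w))
          (fun c => sub_le_self _ (φ0 c w)) Finset.univ
        have h2 : ∑ c, √(en (fun w => 1 - φ c w) (fun w => 1 - φ c w) w) =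
            ∑ c ∈ act w, √(en (φ c) (φ c) w) := by
          simp only [fun c => TPiece_sub (hφ c).1 w]
          exact (Finset.sum_subset (Finset.subset_univ _) fun c _ hc => by
            rw [en_eq_zero (hin w c hc), Real.sqrt_zero]).symm
        rw [h2] at h1
        have h3 := pow_le_pow_left₀ (Real.sqrt_nonneg _) h1 2
        rw [Real.sq_sqrt (en_nn _ _)] at h3
        have h4 : ((act w).card : ℝ) ≤ Δ := by exact_mod_cast hcard w
        calc _ ≤ _ := h3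
          _ ≤ (act w).card * ∑ c ∈ act w, √(en (φ c) (φ c) w) ^ 2 := sq_sum_le_card_mul_sum_sq
          _ ≤ Δ * ∑ c ∈ act w, C * (1 / K.s c ^ 2) := by
              gcongr with c
              rw [Real.sq_sqrt (en_nn _ _), mul_one_div]
              exact φg c w
          _ = _ := by
              rw [hwt, ← Finset.mul_sum]
              ring
      · rw [en_eq_zero fun h => hw (hsupp t h)]
        have := hwt0 w
        positivity

end Pool.Agent.MP_4f0ed6_gt.U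

end

section

set_option autoImplicit false
set_option linter.dupNamespace false

open UpperHalfPlane MeasureTheory Set Metric Filter Topology
open scoped MatrixGroups ContDiff InnerProductSpace ENNReal Classical

namespace Pool.Agent.MP_4f0ed6_gt.U

theorem TEta_sqrt_sum {ι : Type} (S : Finset ι) (f : ι → ℝ) (hf : ∀ i, 0 ≤ f i) :
    √(∑ i ∈ S, f i ^ 2) ≤ ∑ i ∈ S, f i :=
  Real.sqrt_le_iff.2 ⟨Finset.sum_nonneg fun i _ => hf i,
    Finset.sum_sq_le_sq_sum_of_nonneg fun i _ => hf i⟩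

theorem TEta_wt {n m : ℕ} (K : Cov n m) (Γ : Subgroup SL(2, ℝ)) (S : Finset (Fin n))
    (h0 : ∀ c, 0 < K.s c) (w : ℍ) :
    √(K.wt Γ S w) ≤ ∑ c ∈ S, (orb Γ (K.D c 2)).indicator (fun _ => 1 / K.s c) w := by
  refine le_trans (le_of_eq ?_) (TEta_sqrt_sum S _ fun c =>
    Set.indicator_nonneg (fun _ _ => (one_div_pos.2 (h0 c)).le) w)
  unfold Cov.wt
  congr 1
  refine Finset.sum_congr rfl fun c _ => ?_
  by_cases h : w ∈ orb Γ (K.D c 2)
  · rw [indicator_of_mem h, indicator_of_mem h, div_pow, one_pow]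
  · rw [indicator_of_notMem h, indicator_of_notMem h]; norm_num

theorem TEta_disc {z : ℍ} {s : ℝ} (h0 : 0 < s) (h1 : s ≤ 1 / 40) {u v : ℍ → ℝ} (hu : Sm u)
    (hv : Sm v) (hp : ∀ w, 0 ≤ v w) :
    ∫ w in Dk z s 2, v w * √(en u u w) ≤ 2 * s * ∫ y in ball (0 : ℂ) 2, v (ch z s y) *
      √(dx (fun y' => u (ch z s y')) y ^ 2 + dy (fun y' => u (ch z s y')) y ^ 2) := by
  have hc : Continuous fun w => v w * √(en u u w) :=
    hv.continuous.mul (continuous_en hu hu).sqrt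
  have hr : Continuous fun w : ℍ => s * z.im / w.im :=
    continuous_const.div UpperHalfPlane.continuous_im fun w => w.im_pos.ne'
  have hpos : ∀ w : ℍ, 0 < s * z.im / w.im := fun w => div_pos (mul_pos h0 z.im_pos) w.im_pos
  have e : ∫ y in ball (0 : ℂ) 2, v (ch z s y) *
      √(dx (fun y' => u (ch z s y')) y ^ 2 + dy (fun y' => u (ch z s y')) y ^ 2) =
      ∫ y in ball (0 : ℂ) 2, s * z.im / (ch z s y).im * (v (ch z s y) * √(en u u (ch z s y))) := by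
    refine setIntegral_congr_fun measurableSet_ball fun y hy => ?_
    have hy' : ‖y‖ < 40 := (mem_ball_zero_iff.1 hy).trans (by norm_num)
    rw [sq, sq, ← en_ch h0 h1 hy' hu hu, ← div_pow, Real.sqrt_mul (sq_nonneg _),
      Real.sqrt_sq (hpos _).le]
    ring
  rw [e, integral_Dk h0 h1 (by norm_num), ← integral_const_mul]
  have i1 := integrableOn_ch (z := z) h0 h1 (t := 2) (by norm_num) (hr.mul hc)
  have i2 := integrableOn_ch (z := z) h0 h1 (t := 2) (by norm_num) ((hr.pow 2).mul hc)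
  refine setIntegral_mono_on (by simpa only [div_pow, Pi.mul_apply, Pi.pow_apply] using i2)
    (i1.const_mul _) measurableSet_ball fun y hy => ?_
  have hy' : ‖y‖ < 20 := (mem_ball_zero_iff.1 hy).trans (by norm_num)
  have hj := (jac_bd (z := z) h0 h1 hy').2
  rw [← div_pow] at hj ⊢
  have h2 : s * z.im / (ch z s y).im ≤ 2 * s :=
    (pow_le_pow_iff_left₀ (hpos _).le (by positivity) two_ne_zero).1 (by linarith)
  have h3 : 0 ≤ v (ch z s y) * √(en u u (ch z s y)) := mul_nonneg (hp _) (Real.sqrt_nonneg _)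
  rw [sq, mul_assoc (s * z.im / (ch z s y).im)]
  exact mul_le_mul_of_nonneg_right h2 (mul_nonneg (hpos _).le h3)

theorem TEta_bdc {n m : ℕ} {L : Type} {adj : Nd n m → Nd n m → Prop} {cl : Nd n m → L} {c : Fin n}
    (h : c ∈ bdc adj cl) : ∃ a, adj (.inl c) a ∧ cl a ≠ cl (.inl c) := (Finset.mem_filter.1 h).2

theorem stEta (hPart : StPart) : StEta := by
  intro Δ
  obtain ⟨C, hC, H⟩ := hPart Δ
  have hC' := Real.sqrt_pos.2 hC
  refine ⟨4 * √C, by positivity, fun X n m K hX hK A => ?_⟩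
  obtain ⟨χ, h1, h2, h3, h4⟩ := H X n m K hX hK Bool fun a => decide (a ∈ A)
  simp only [Fintype.sum_bool] at h2 h4
  have hz : ∀ (b : Bool) (c : Fin n), (∀ a, K.Adj X.Γ (.inl c) a → decide (a ∈ A) ≠ b) →
      ∀ w ∈ K.D c 20, χ b w = 0 := fun b c hc w hw => by
    refine image_eq_zero_of_notMem_tsupport fun h => ?_
    obtain ⟨a, ha, hw'⟩ := mem_iUnion₂.1 (h3 b h)
    exact hc a (Or.inr ⟨w, subset_orb _ _ hw, hw'⟩) ha
  refine ⟨fun w => χ true w * χ true w, SI_mul (h1 _) (h1 _), fun c hc w hw => ?_,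
    fun c hc w hw => ?_, fun u hu v hv hp => ?_⟩
  · have a1 := hz false c (fun a ha => by simp [hc a ha]) w hw
    have a2 := h2 w
    rw [a1] at a2
    simp only
    linarith
  · simp only [hz true c (fun a ha => by simp [hc a ha]) w hw, mul_zero]
  set S := bdc (K.Adj X.Γ) fun a => decide (a ∈ A) with hS
  have hc : Continuous fun w => v w * √(en u u w) :=
    hv.1.continuous.mul (continuous_en hu.1 hu.1).sqrt
  have hi : Inv X.Γ fun w => v w * √(en u u w) := fun γ hγ w => by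
    simp only [hv.2 γ hγ w, en_inv hu hu γ hγ w]
  have hO : ∀ c, MeasurableSet (orb X.Γ (K.D c 2)) := fun c =>
    (isOpen_orb (isOpen_Dk _ _ _)).measurableSet
  have hI : ∀ c, IntegrableOn
      ((orb X.Γ (K.D c 2)).indicator fun w => 1 / K.s c * (v w * √(en u u w))) X.F := fun c =>
    (hX.cl.integrableOn (continuous_const.mul hc)).indicator (hO c)
  have key : ∀ w, ‖v w * en u (fun w => χ true w * χ true w) w‖ ≤ 2 * √C * ∑ c ∈ S,
      (orb X.Γ (K.D c 2)).indicator (fun w => 1 / K.s c * (v w * √(en u u w))) w := fun w => by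
    have a1 : |χ true w| ≤ 1 := by
      rw [← sq_le_one_iff_abs_le_one]
      nlinarith [h2 w, sq_nonneg (χ false w)]
    have a2 : √(en (χ true) (χ true) w) ≤ √C *
        ∑ c ∈ S, (orb X.Γ (K.D c 2)).indicator (fun _ => 1 / K.s c) w := by
      refine le_trans ?_ (mul_le_mul_of_nonneg_left (TEta_wt K X.Γ S hK.s0 w) hC'.le)
      rw [← Real.sqrt_mul hC.le]
      exact Real.sqrt_le_sqrt (by linarith [h4 w, en_nn (χ false) w])
    have a3 : ∑ c ∈ S, (orb X.Γ (K.D c 2)).indicator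
        (fun w => 1 / K.s c * (v w * √(en u u w))) w =
        (∑ c ∈ S, (orb X.Γ (K.D c 2)).indicator (fun _ => 1 / K.s c) w) * (v w * √(en u u w)) := by
      rw [Finset.sum_mul]
      refine Finset.sum_congr rfl fun c _ => ?_
      by_cases h : w ∈ orb X.Γ (K.D c 2)
      · rw [indicator_of_mem h, indicator_of_mem h]
      · rw [indicator_of_notMem h, indicator_of_notMem h, zero_mul]
    rw [a3, en_comm, en_mul (h1 _).1 (h1 _).1, ← two_mul, Real.norm_eq_abs, abs_mul, abs_mul,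
      abs_mul, abs_of_nonneg (hp w), abs_two]
    have a4 := (en_cs (χ true) u w).trans (mul_le_mul_of_nonneg_right a2 (Real.sqrt_nonneg _))
    have a5 : |χ true w| * |en (χ true) u w| ≤ _ :=
      (mul_le_of_le_one_left (abs_nonneg _) a1).trans a4
    have a6 := mul_le_mul_of_nonneg_left a5 (hp w)
    linarith
  rw [← Real.norm_eq_abs]
  refine (norm_integral_le_of_norm_le ((integrable_finsetSum S fun c _ => hI c).const_mul _)
    (ae_of_all _ key)).trans ?_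
  rw [integral_const_mul, integral_finsetSum S fun c _ => hI c]
  have hS' : S ⊆ bd (K.Adj X.Γ) A := fun c hc => by
    obtain ⟨a, ha, hne⟩ := TEta_bdc hc
    refine Finset.mem_filter.2 ⟨Finset.mem_univ _, ?_⟩
    by_cases h : a ∈ A
    · exact ⟨⟨a, h, ha⟩, .inl c, fun h' => hne (by simp [h, h']), Or.inl rfl⟩
    · exact ⟨⟨.inl c, by_contra fun h' => hne (by simp [h, h']), Or.inl rfl⟩, a, h, ha⟩
  have b1 : ∑ c ∈ S, ∫ w in X.F,
      (orb X.Γ (K.D c 2)).indicator (fun w => 1 / K.s c * (v w * √(en u u w))) w ≤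
      ∑ c ∈ S, 2 * ∫ y in ball (0 : ℂ) 2, v (K.pt c y) * K.gr c u y := by
    refine Finset.sum_le_sum fun c _ => ?_
    have h0 := hK.s0 c
    rw [setIntegral_indicator (hO c), integral_const_mul, (hX.cl.int_emb (A := K.D c 2)
      (isOpen_Dk _ _ _) ((hK.emb c).mono (Dk_mono h0 (by norm_num))) hc hi).2, one_div,
      inv_mul_le_iff₀ h0]
    exact (TEta_disc h0 (hK.s1 c) hu.1 hv.1 hp).trans_eq (by unfold Cov.gr Cov.pt; ring)
  have b2 : ∑ c ∈ S, ∫ y in ball (0 : ℂ) 2, v (K.pt c y) * K.gr c u y ≤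
      ∑ c ∈ bd (K.Adj X.Γ) A, ∫ y in ball (0 : ℂ) 2, v (K.pt c y) * K.gr c u y :=
    Finset.sum_le_sum_of_subset_of_nonneg hS' fun c _ _ =>
      integral_nonneg fun y => mul_nonneg (hp _) (Real.sqrt_nonneg _)
  rw [← Finset.mul_sum] at b1
  nlinarith

end Pool.Agent.MP_4f0ed6_gt.U

end

section

set_option autoImplicit false
set_option linter.dupNamespace false

open UpperHalfPlane MeasureTheory Set Metric Filter Topology
open scoped MatrixGroups ContDiff InnerProductSpace ENNReal Classical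

namespace Pool.Agent.MP_4f0ed6_gt.U

theorem TFlux1_sq {f g : ℂ → ℝ} (hf : MemLp f 2 mu) (hg : MemLp g 2 mu) :
    MemLp (fun y => √(f y ^ 2 + g y ^ 2)) 2 mu := by
  refine (hf.norm.add hg.norm).mono' (Real.continuous_sqrt.comp_aestronglyMeasurable
    ((hf.1.pow 2).add (hg.1.pow 2))) (Eventually.of_forall fun y => ?_)
  rw [Real.norm_of_nonneg (Real.sqrt_nonneg _), Pi.add_apply, Real.norm_eq_abs, Real.norm_eq_abs]
  refine Real.sqrt_le_iff.2 ⟨by positivity, ?_⟩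
  rw [add_sq, sq_abs, sq_abs]
  have : 0 ≤ 2 * |f y| * |g y| := by positivity
  linarith

theorem TFlux1_z {H : Type} [NormedAddCommGroup H] [InnerProductSpace ℝ H]
    (q : H →L[ℝ] H →L[ℝ] ℝ) {p r s : ℕ → H} {a b : H} {C : ℝ} (hp : Tendsto p atTop (𝓝 a))
    (hs : Tendsto s atTop (𝓝 b)) (hr : ∀ k, ‖r k‖ ≤ C * ‖s k‖) :
    Tendsto (fun k => q (p k) (r k) - q a (r k)) atTop (𝓝 0) := by
  have h := ((tendsto_iff_norm_sub_tendsto_zero.1 hp).const_mul ‖q‖).mul (hs.norm.const_mul C)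
  rw [mul_zero, zero_mul] at h
  refine squeeze_zero_norm (fun k => ?_) h
  rw [← _root_.sub_apply, ← map_sub]
  exact (q.le_opNorm₂ _ _).trans (mul_le_mul_of_nonneg_left (hr k) (by positivity))

theorem TFlux1_in {X : Sf} {n m Δ : ℕ} {K : Cov n m} {H : Type} [NormedAddCommGroup H]
    [InnerProductSpace ℝ H] {j : SI X.Γ →ₗ[ℝ] H} {R Rx Ry : H →L[ℝ] L2 n} (hK : K.Ok X Δ)
    (h : Rp1 X K j R Rx Ry) {S : Set (Fin n)} {x : L2 n} (hx : On S x) {η : ℍ → ℝ} {e : ℝ}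
    (hη : ∀ c ∈ S, ∀ w ∈ K.D c 20, η w = e) {f g : SI X.Γ} (hf : ∀ w, f.1 w = η w * g.1 w) :
    ⟪x, R (j f)⟫_ℝ = e * ⟪x, R (j g)⟫_ℝ := by
  rw [L2.inner_def, L2.inner_def, ← integral_const_mul]
  refine integral_congr_ae ?_
  filter_upwards [hx, h.hR f, h.hR g, ae_ball] with y h1 h2 h3 h4
  simp only [RCLike.inner_apply, conj_trivial, h2, h3, hf]
  by_cases hy : y.1 ∈ S
  · rw [hη _ hy (K.pt y.1 y.2)
      (ch_mem_Dk (hK.s0 _) (hK.s1 _) (by norm_num) (by linarith)), mul_assoc]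
  · rw [h1 hy, mul_zero, mul_zero, mul_zero]

theorem stFlux1 (hApx : StApx) (hApc : StApc) (hEta : StEta) (hComm : StComm) : StFlux1 := by
  intro Δ
  obtain ⟨C, hC, hE⟩ := hEta Δ
  refine ⟨C, hC, fun X n m K H _ _ _ P j Rx Ry hX hK hR W hW A x y hx hy ox oy => ?_⟩
  obtain ⟨-, u, u0, hu⟩ := hApx Δ X n m K H P j Rx Ry hX hK hR W hW x hx
  obtain ⟨-, v, v0, hv⟩ := hApx Δ X n m K H P j Rx Ry hX hK hR W hW y hy
  obtain ⟨η, hη, η1, η0, hb⟩ := hE X n m K hX hK A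
  obtain ⟨T, C', hT, hN, hc⟩ := hComm Δ X n m K H P j Rx Ry hX hK hR ⟨η, hη⟩
  rw [hR.adj] at ox oy ⊢
  have key : ∀ {a b : H} {u v : ℕ → SI X.Γ}, (∀ k w, 0 ≤ (u k).1 w) → (∀ k w, 0 ≤ (v k).1 w) →
      Tendsto (fun k => j (u k)) atTop (𝓝 a) → Tendsto (fun k => j (v k)) atTop (𝓝 b) → ∀ c,
      Tendsto (fun k => ∫ z in ball (0 : ℂ) 2, (v k).1 (K.pt c z) * K.gr c (u k).1 z) atTop
        (𝓝 (∫ z in ball (0 : ℂ) 2, P.R b (c, z) * √(Rx a (c, z) ^ 2 + Ry a (c, z) ^ 2))) :=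
    fun {a b u v} u0 v0 hu hv c => tendsto_int_mul measurableSet_ball
      (ball_subset_ball (by norm_num))
      (fun k => memLp_ch (hK.s0 c) (hK.s1 c) (v k).2.1.continuous)
      (fun k => TFlux1_sq ((u k).2.1.memLp_dx (hK.s0 c) (hK.s1 c)).1
        ((u k).2.1.memLp_dx (hK.s0 c) (hK.s1 c)).2)
      (memLp_slice _ c) (TFlux1_sq (memLp_slice _ c) (memLp_slice _ c))
      (hApc Δ X n m K H P j Rx Ry hX hK hR b v v0 hv c).2.1
      (hApc Δ X n m K H P j Rx Ry hX hK hR a u u0 hu c).2.2.2.2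
  have l1 := ((TFlux1_z (P.q W) hu hv fun k => hN (v k)).sub
    (TFlux1_z (P.q W) hv hu fun k => hN (u k))).add
    ((tendsto_const_nhds (x := x)).inner (𝕜 := ℝ) ((P.R.continuous.tendsto _).comp hv))
  rw [sub_zero, zero_add] at l1
  refine le_of_tendsto_of_tendsto' l1 ((tendsto_finsetSum _ fun c _ =>
    (key u0 v0 hu hv c).add (key v0 u0 hv hu c)).const_mul C) fun k => ?_
  have h1 := hc W (u k) (v k)
  have h2 := (abs_le.1 (hb _ (u k).2 _ (v k).2 (v0 k))).2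
  have h3 := (abs_le.1 (hb _ (v k).2 _ (u k).2 (u0 k))).1
  rw [hW.sol_spec, hW.sol_spec, TFlux1_in hK hR.r1 ox η1 (hT (v k)),
    TFlux1_in hK hR.r1 oy η0 (hT (u k)), Finset.sum_add_distrib, Function.comp_apply]
  linarith

end Pool.Agent.MP_4f0ed6_gt.U

end

section

set_option autoImplicit false
set_option linter.dupNamespace false

open UpperHalfPlane MeasureTheory Set Metric Filter Topology
open scoped MatrixGroups ContDiff

namespace Pool.Agent.MP_4f0ed6_gt.U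

theorem TL1a_int {g η : ℂ → ℝ} (hg : ContDiff ℝ ∞ g) (hη : ContDiff ℝ ∞ η)
    (hc : HasCompactSupport η) : Integrable fun y => g y * η y :=
  (hg.continuous.mul hη.continuous).integrable_of_hasCompactSupport hc.mul_left

theorem TL1a_plane {g η : ℂ → ℝ} {K c C : ℝ} (hg : ContDiff ℝ ∞ g) (g0 : ∀ y, 0 ≤ g y)
    (hη : ContDiff ℝ ∞ η) (hc : HasCompactSupport η) (b1 : ∀ y, K * η y - lp η y ≤ C)
    (b2 : ∀ y, 1 ≤ ‖y‖ → K * η y - lp η y ≤ 0)
    (b3 : ∀ y, 1 ≤ ‖y‖ → ‖y‖ ≤ 12 → K * η y - lp η y ≤ -c) :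
    (∫ y, (dx g y * dx η y + dy g y * dy η y)) + K * ∫ y, g y * η y ≤
      (C + c) * (∫ y in ball 0 1, g y) - c * ∫ y in ball 0 12, g y := by
  have cx : ∀ {u : ℂ → ℝ}, HasCompactSupport u → HasCompactSupport (dx u) := fun h =>
    h.of_isClosed_subset (isClosed_tsupport _) (tsupport_dx _)
  have cy : ∀ {u : ℂ → ℝ}, HasCompactSupport u → HasCompactSupport (dy u) := fun h =>
    h.of_isClosed_subset (isClosed_tsupport _) (tsupport_dy _)
  have i1 := TL1a_int hg (contDiff_dx (contDiff_dx hη)) (cx (cx hc))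
  have i2 := TL1a_int hg (contDiff_dy (contDiff_dy hη)) (cy (cy hc))
  have i3 := (TL1a_int hg hη hc).const_mul K
  have i5 : Integrable fun y => g y * dx (dx η) y + g y * dy (dy η) y := i1.add i2
  have i4 : ∀ r : ℝ, Integrable ((ball (0 : ℂ) r).indicator g) := fun r =>
    (integrable_indicator_iff measurableSet_ball).2 ((hg.continuous.continuousOn.integrableOn_compact
      (isCompact_closedBall 0 r)).mono_set ball_subset_closedBall)
  rw [integral_add (TL1a_int (contDiff_dx hg) (contDiff_dx hη) (cx hc))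
    (TL1a_int (contDiff_dy hg) (contDiff_dy hη) (cy hc)), ibp_x hg (contDiff_dx hη) (cx hc),
    ibp_y hg (contDiff_dy hη) (cy hc), ← neg_add, ← integral_add i1 i2, ← integral_const_mul,
    neg_add_eq_sub, ← integral_sub i3 i5, ← integral_indicator measurableSet_ball,
    ← integral_indicator measurableSet_ball, ← integral_const_mul, ← integral_const_mul,
    ← integral_sub ((i4 1).const_mul _) ((i4 12).const_mul _)]
  refine integral_mono (i3.sub i5) (((i4 1).const_mul _).sub ((i4 12).const_mul _))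
    fun y => ?_
  have e : K * (g y * η y) - (g y * dx (dx η) y + g y * dy (dy η) y) =
      g y * (K * η y - lp η y) := by
    rw [lp]
    ring
  refine e.trans_le ?_
  by_cases h1 : ‖y‖ < 1
  · rw [indicator_of_mem (mem_ball_zero_iff.2 h1),
      indicator_of_mem (mem_ball_zero_iff.2 (by linarith))]
    nlinarith [mul_le_mul_of_nonneg_left (b1 y) (g0 y)]
  rw [indicator_of_notMem (mem_ball_zero_iff.not.2 h1)]
  by_cases h2 : ‖y‖ < 12
  · rw [indicator_of_mem (mem_ball_zero_iff.2 h2)]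
    nlinarith [mul_le_mul_of_nonneg_left (b3 y (not_lt.1 h1) h2.le) (g0 y)]
  · rw [indicator_of_notMem (mem_ball_zero_iff.not.2 h2)]
    nlinarith [mul_le_mul_of_nonneg_left (b2 y (not_lt.1 h1)) (g0 y)]

theorem stL1a (hBar : StBar) : StL1a := by
  intro X hX q M hq z s h0 h1
  obtain ⟨η, c, C, hη, sη, η0, c0, C0, b1, b2, b3⟩ := hBar M hq.M0
  have s14 : tsupport η ⊆ ball 0 14 := sη.trans (closedBall_subset_ball (by norm_num))
  have hc : HasCompactSupport η :=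
    (isCompact_closedBall 0 13).of_isClosed_subset (isClosed_tsupport _) sη
  have hp := push_sm hη z s
  obtain ⟨p1, p2⟩ := push_supp (z := z) h0 h1 (by norm_num) s14
  have p0 : ∀ w, 0 ≤ push z s η w := fun w => η0 _
  let b : SI X.Γ := ⟨per X.Γ (push z s η), hX.cl.per_mem hp p2⟩
  refine ⟨(9 * (C + c) + √(q b b)) / c, by positivity, fun a a0 => ?_⟩
  obtain ⟨g, hg, eg, g0⟩ := a.2.1.exists_glob (z := z) h0 h1
  have ac := a.2.1.continuous
  have gI : ∀ t : ℝ, t ≤ 20 → ∫ y in ball (0 : ℂ) t, a.1 (ch z s y) = ∫ y in ball 0 t, g y :=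
    fun t ht => setIntegral_congr_fun measurableSet_ball fun y hy =>
      (eg y ((mem_ball_zero_iff.1 hy).trans_le ht)).eq_of_nhds.symm
  have e1 : ∫ w in X.F, en a.1 b.1 w = ∫ y, (dx g y * dx η y + dy g y * dy η y) := by
    rw [hX.cl.unfold_en hp p2 a.2, ← setIntegral_eq_integral_of_forall_compl_eq_zero
      (s := Dk z s 14) fun w hw => by rw [en_comm, en_eq_zero fun h => hw (p1 h)],
      integral_en_Dk h0 h1 (by norm_num) a.2.1 hp]
    refine (setIntegral_congr_fun measurableSet_ball fun y hy => ?_).trans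
      (setIntegral_eq_integral_of_forall_compl_eq_zero fun y hy => by
        rw [dx_eq_zero (u := η) fun h => hy (s14 h), dy_eq_zero (u := η) fun h => hy (s14 h)]
        simp)
    have h2 := mem_ball_zero_iff.1 hy
    have h3 := eg y (by linarith)
    have h4 := push_ch' (z := z) (η := η) h0 h1 (y := y) (by linarith)
    simp only [dx_congr h3, dy_congr h3, dx_congr h4, dy_congr h4]
  have s2 : 4 * s ^ 2 ≤ 1 := by nlinarith
  have e2 : ∫ w in X.F, a.1 w * b.1 w ≤ ∫ y, g y * η y := by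
    rw [hX.cl.unfold_mul hp.continuous p2 ac a.2.2,
      ← setIntegral_eq_integral_of_forall_compl_eq_zero (s := Dk z s 14) fun w hw => by
        rw [image_eq_zero_of_notMem_tsupport fun h => hw (p1 h), mul_zero]]
    refine (integral_Dk_le h0 h1 (by norm_num) (ac.mul hp.continuous)
      fun w => mul_nonneg (a0 w) (p0 w)).trans ((mul_le_of_le_one_left
        (integral_nonneg fun y => mul_nonneg (a0 _) (p0 _)) s2).trans_eq ?_)
    refine (setIntegral_congr_fun measurableSet_ball fun y hy => ?_).trans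
      (setIntegral_eq_integral_of_forall_compl_eq_zero fun y hy => by
        rw [image_eq_zero_of_notMem_tsupport fun h => hy (s14 h), mul_zero])
    have h2 := mem_ball_zero_iff.1 hy
    exact congrArg₂ (· * ·) (eg y (by linarith)).eq_of_nhds.symm (push_ch h0 h1 (by linarith))
  have e3 := TL1a_plane hg (g0 a0) hη hc b1 b2 b3
  have e4 := hq.up a b a0 (per_nn p0)
  have e5 : |q a b| ≤ √(q a a) * √(q b b) := by
    rw [← Real.sqrt_mul (hq.psd a)]
    exact Real.abs_le_sqrt (LinearMap.BilinForm.apply_sq_le_of_symm q hq.psd ⟨hq.sym⟩ a b)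
  have e6 := integral_Dk_le (z := z) (t := 12) h0 h1 (by norm_num) ac a0
  have e7 := le_integral_Dk (z := z) (t := 1) h0 h1 (by norm_num) ac a0
  rw [gI _ (by norm_num)] at e6 e7
  have e8 := mul_le_mul_of_nonneg_left e2 hq.M0
  have e9 : c * ∫ y in ball 0 12, g y ≤ (C + c) * (∫ y in ball 0 1, g y) + √(q a a) * √(q b b) := by
    linarith [(abs_le.1 e5).1]
  have n1 : 0 ≤ ∫ w in Dk z s 1, a.1 w := integral_nonneg a0
  have n2 := Real.sqrt_nonneg (q a a)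
  have n3 := Real.sqrt_nonneg (q b b)
  rw [div_mul_eq_mul_div, le_div_iff₀ c0]
  calc _ ≤ (4 * s ^ 2 * ∫ y in ball 0 12, g y) * c := by gcongr
    _ = 4 * s ^ 2 * (c * ∫ y in ball 0 12, g y) := by ring
    _ ≤ 4 * s ^ 2 * ((C + c) * (∫ y in ball 0 1, g y) + √(q a a) * √(q b b)) := by gcongr
    _ = 9 * (C + c) * (4 * s ^ 2 / 9 * ∫ y in ball 0 1, g y) +
        4 * s ^ 2 * (√(q a a) * √(q b b)) := by ring
    _ ≤ 9 * (C + c) * (∫ w in Dk z s 1, a.1 w) + 1 * (√(q a a) * √(q b b)) := by gcongr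
    _ ≤ _ := by nlinarith [mul_nonneg n1 n3, mul_nonneg (add_pos C0 c0).le n2]

end Pool.Agent.MP_4f0ed6_gt.U

end

section

set_option autoImplicit false
set_option linter.dupNamespace false

open UpperHalfPlane MeasureTheory Set Metric Filter Topology
open scoped MatrixGroups ContDiff InnerProductSpace ENNReal Classical

namespace Pool.Agent.MP_4f0ed6_gt.U

theorem TLocA_Q {X : Sf} (hX : X.Ok) {f ψ : ℍ → ℝ} (hf : Sm f) (hψ : Sm ψ) :
    X.Q (fun w => ψ w * f w) (fun w => ψ w * f w) =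
      X.Q f (fun w => ψ w * (ψ w * f w)) + ∫ w in X.F, f w ^ 2 * en ψ ψ w := by
  have h1 := hψ.mul (hψ.mul hf)
  refine (integral_congr_ae (ae_of_all _ fun w => ?_)).trans (integral_add (hX.cl.integrableOn
    ((continuous_en hf h1).sub (hX.Vm.1.continuous.mul (hf.continuous.mul h1.continuous))))
    (hX.cl.integrableOn ((hf.continuous.pow 2).mul (continuous_en hψ hψ))))
  beta_reduce
  rw [en_mul hψ hf, en_comm f fun w => ψ w * (ψ w * f w), en_mul hψ (hψ.mul hf),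
    en_comm f fun w => ψ w * f w, en_comm ψ fun w => ψ w * f w, en_mul hψ hf, en_mul hψ hf,
    en_comm f ψ]
  ring

theorem TLocA_int {n : ℕ} {x : L2 n} {g : Fin n × ℂ → ℝ} (h : ∀ᵐ y ∂nu n, x y = g y) (c : Fin n)
    {t : ℝ} (ht : t ≤ 16) :
    ∫ z in ball (0 : ℂ) t, x (c, z) ^ 2 = ∫ z in ball (0 : ℂ) t, g (c, z) ^ 2 :=
  integral_congr_ae ((ae_restrict_of_ae_restrict_of_subset (ball_subset_ball ht)
    (ae_slice h c)).mono fun z hz => by simp only [hz])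

theorem stLocA (hBump : StBump) (hTrf : StTrf) : StLocA := by
  intro Δ
  obtain ⟨C, hC, hB⟩ := hBump 3 4 (by norm_num) (by norm_num) (by norm_num)
  refine ⟨4 * C + 36 * Δ, by positivity, ?_⟩
  intro X n m K H _ _ _ P j Rx Ry hX hK hR hKr f hf c t ht
  obtain ⟨f, rfl, h0⟩ := hKr f hf
  have s0 := hK.s0 c
  have s1 := hK.s1 c
  obtain ⟨ψ, p1, p2, p3, p4, p5, p6⟩ := hB X.Γ X.F hX.cl (K.z c) (K.s c) s0 s1 (hK.emb c)
  have hg := SI_mul p1 f.2
  refine ⟨j ⟨_, hg⟩, Lp.ext ?_, ?_⟩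
  · filter_upwards [mul_ae (ind c 3) (P.R (j ⟨_, hg⟩)), mul_ae (ind c 3) (P.R (j f)), ind_ae c 3,
      hR.r1.hR ⟨_, hg⟩, hR.r1.hR f] with y h1 h2 h3 h4 h5
    refine h1.trans (Eq.trans ?_ h2.symm)
    rw [h3, h4, h5]
    split_ifs with h
    · rw [h.1]
      exact congrArg _ ((congrArg (· * _) (p4 _ (subset_orb _ _
        (ch_mem_Dk s0 s1 (by norm_num) h.2)))).trans (one_mul _))
    · rw [zero_mul, zero_mul]
  have c1 := f.2.1.continuous.pow 2
  have c2 := hg.1.continuous.pow 2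
  have mono : ∀ (c : Fin n) (h : ℍ → ℝ) (a b : ℝ), Continuous (h ^ 2) → a ≤ b → b ≤ 20 →
      ∫ y in ball (0 : ℂ) a, h (K.pt c y) ^ 2 ≤ ∫ y in ball (0 : ℂ) b, h (K.pt c y) ^ 2 :=
    fun c h a b h1 h2 h3 => setIntegral_mono_set (integrableOn_ch (hK.s0 c) (hK.s1 c) h3 h1)
      (ae_of_all _ fun y => sq_nonneg _) (ball_subset_ball h2).eventuallyLE
  have e1 : ∫ w in X.F, f.1 w ^ 2 * en ψ ψ w ≤
      4 * C * ∫ y in ball (0 : ℂ) 4, f.1 (K.pt c y) ^ 2 := by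
    have h1 := hX.cl.int_emb (isOpen_Dk (K.z c) (K.s c) 4)
      ((hK.emb c).mono (Dk_mono s0 (by norm_num))) c1 fun γ hγ w => by
        rw [Pi.pow_apply, Pi.pow_apply, f.2.2 γ hγ]
    have h2 := integral_Dk_le (z := K.z c) (t := 4) s0 s1 (by norm_num) c1 fun w => sq_nonneg _
    rw [setIntegral_eq_of_subset_of_forall_sdiff_eq_zero hX.cl.cpt.measurableSet
      (inter_subset_left (t := orb X.Γ (Dk (K.z c) (K.s c) 4))) fun w hw => by
        rw [en_eq_zero fun h => hw.2 ⟨hw.1, p5 h⟩, mul_zero]]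
    calc _ ≤ ∫ w in X.F ∩ orb X.Γ (Dk (K.z c) (K.s c) 4), C / K.s c ^ 2 * (f.1 ^ 2) w :=
          setIntegral_mono ((hX.cl.integrableOn (c1.mul (continuous_en p1.1 p1.1))).mono_set
            inter_subset_left) (((hX.cl.integrableOn c1).mono_set inter_subset_left).const_mul _)
            fun w => (mul_le_mul_of_nonneg_left (p6 w) (sq_nonneg _)).trans_eq (mul_comm _ _)
      _ ≤ C / K.s c ^ 2 * (4 * K.s c ^ 2 * ∫ y in ball (0 : ℂ) 4, f.1 (K.pt c y) ^ 2) := by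
          rw [integral_const_mul, h1.2]
          exact mul_le_mul_of_nonneg_left h2 (by positivity)
      _ = _ := by field_simp
  have e2 := (hTrf Δ X n m K hX hK).1 c 4 _ (by norm_num) c2
    (fun γ hγ w => congrArg (· ^ 2) (hg.2 γ hγ w)) (fun w => sq_nonneg _)
    fun w hw => by
      rw [Pi.pow_apply, image_eq_zero_of_notMem_tsupport fun h => hw (p5 h), zero_mul]
      norm_num
  have e3 : ∫ y in ball (0 : ℂ) 4, (ψ (K.pt c y) * f.1 (K.pt c y)) ^ 2 ≤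
      ∫ y in ball (0 : ℂ) 4, f.1 (K.pt c y) ^ 2 :=
    setIntegral_mono (integrableOn_ch s0 s1 (by norm_num) c2)
      (integrableOn_ch s0 s1 (by norm_num) c1) fun y => by
        rw [mul_pow]
        exact mul_le_of_le_one_left (sq_nonneg _) (pow_le_one₀ (p2 _) (p3 _))
  have e4 : ∑ z ∈ ∅ᶜ, ⟪pr z (P.R (j ⟨_, hg⟩)), P.R (j ⟨_, hg⟩)⟫_ℝ ≤
      36 * Δ * ∫ y in ball (0 : ℂ) 4, f.1 (K.pt c y) ^ 2 := by
    rw [Finset.compl_empty]
    refine (Finset.sum_le_sum fun z _ => ?_).trans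
      (e2.trans (mul_le_mul_of_nonneg_left e3 (by positivity)))
    rw [pr, inner_ct_self, norm_ct_eq z (by norm_num),
      Real.sq_sqrt (integral_nonneg fun y => sq_nonneg _),
      TLocA_int (hR.r1.hR _) z (by norm_num)]
    exact mono z _ 3 16 c2 (by norm_num) (by norm_num)
  have e5 := mono c f.1 4 10 c1 (by norm_num) (by norm_num)
  have e6 : 0 ≤ ∫ y in ball (0 : ℂ) 4, f.1 (K.pt c y) ^ 2 := integral_nonneg fun y => sq_nonneg _
  rw [Pb.q_apply, hR.hQ, inner_mul_Wt, TLocA_Q hX f.2.1 p1.1, h0 _ (SI_mul p1 hg), zero_add,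
    norm_ct_eq c (by norm_num), Real.sq_sqrt (integral_nonneg fun y => sq_nonneg _),
    TLocA_int (hR.r1.hR f) c (by norm_num)]
  refine le_trans ?_ (mul_le_mul_of_nonneg_left e5 (by positivity))
  have hΔ : (0 : ℝ) ≤ Δ := Nat.cast_nonneg _
  nlinarith [mul_le_mul_of_nonneg_left e4 ht, mul_nonneg hΔ e6,
    mul_nonneg (mul_nonneg hC.le ht) e6]

end Pool.Agent.MP_4f0ed6_gt.U

end

section

set_option autoImplicit false
set_option linter.dupNamespace false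

open MeasureTheory Set Metric Filter Topology
open scoped InnerProductSpace ENNReal Classical

namespace Pool.Agent.MP_4f0ed6_gt.U

variable {n m : ℕ} {H : Type} [NormedAddCommGroup H] [InnerProductSpace ℝ H] [CompleteSpace H]

theorem TSI_pr {a : Fin n} {C : Finset (Fin n)} (ha : a ∈ C) (x : L2 n) :
    pr a (prS C x) = pr a x := by
  rw [← mul_apply_eq_comp, pr_prS, if_pos ha]

theorem TSI_prS (S T : Finset (Fin n)) (x : L2 n) : prS S (prS T x) = prS (S ∩ T) x := by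
  rw [← mul_apply_eq_comp, prS_mul]

/-- the supersolution absorbs the potential on any set of cells of `Ω` outside `U` -/
theorem TSI_abs {P : Pb n m H} (hp : ∀ W, P.Co W → Pp (P.G W)) {κ : ℝ} (hκ : 0 ≤ κ)
    {V : LI n} {Ω U S : Finset (Fin n)} (h : P.Co (Wt κ Ω + V)) (hU : U ⊆ Ω) (hS : S ⊆ Ω \ U)
    (c : Fin n) : κ • P.G (Wt κ U + V) (prS S (P.psn (Wt κ Ω + V) c)) ≤ P.psn (Wt κ Ω + V) c := by
  have h1 : Wt κ Ω + V ≤ Wt κ U + V := add_le_add_left (Wt_mono le_rfl hκ hU) V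
  have h2 : 0 ≤ ‖ct c 10 (P.G (Wt κ Ω + V) (one c))‖⁻¹ • one c :=
    smul_nn (inv_nonneg.2 (norm_nonneg _)) (one_nn c)
  have h3 := h.absorb hp h1 h2
  have h4 := hp _ h _ h2
  rw [map_smul] at h3 h4
  rw [add_sub_add_right_eq_sub, Wt_sub κ hU, map_smul mul, smul_apply, map_smul] at h3
  exact (smul_mono hκ ((hp _ (h.mono h1)).mono (mul_le (cel_mono hS) _ h4))).trans h3

theorem TSI_B (P : Pb n m H) (k : Cst) (κ : ℝ) (Z0 : Finset (Fin n)) (r : ℕ) (x : L2 n) :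
    (P.bz k κ Z0 r ∅).B x =
      prS Z0ᶜ (κ • P.G (Wt κ ∅ + WZ (k.cb (κ + 2)) Z0) (prS Z0ᶜ x)) := by
  have h : WZ (k.cb (κ + 2)) (∅ : Finset (Fin n)) = 0 := Finset.sum_empty
  rw [Pb.bz, h, add_zero, map_smul]
  rfl

theorem TSI_H (P : Pb n m H) (k : Cst) (κ : ℝ) (Z0 : Finset (Fin n)) (r : ℕ) (Z : Finset (Fin n))
    (u : Fin n) (x : L2 n) : (P.bz k κ Z0 r Z).H u x =
      prS Z0ᶜ (κ • P.G (Wt κ (Ub P.adj Z0ᶜ r u) + WZ (k.cb (κ + 2)) Z0 + WZ (k.cb (κ + 2)) Z)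
        (prS (Z0ᶜ \ Ub P.adj Z0ᶜ r u) x)) := by
  have h1 : Ub P.adj Z0ᶜ r u ⊆ Z0ᶜ := by
    unfold Ub
    split_ifs
    exacts [Finset.inter_subset_right, Finset.empty_subset _]
  have h2 : Wt κ (Ub P.adj Z0ᶜ r u) + WZ (k.cb (κ + 2)) Z0 + WZ (k.cb (κ + 2)) Z =
      Wt κ ∅ + WZ (k.cb (κ + 2)) Z0 + WZ (k.cb (κ + 2)) Z - κ • cel (Ub P.adj Z0ᶜ r u) := by
    rw [Wt_eq κ (Ub P.adj Z0ᶜ r u)]
    abel
  rw [h2, ← prS_sdiff h1, map_smul]
  rfl

theorem TSI_Ub {adj : Nd n m → Nd n m → Prop} {C : Finset (Fin n)} {r : ℕ} {u a : Fin n} :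
    a ∈ Ub adj C r u ↔ u ∈ C ∧ a ∈ bl adj r u ∧ a ∈ C := by
  unfold Ub
  split_ifs with h <;> simp [h]

theorem stSI (hApp1 : StApp1) (hRUS : StRUS) (hDREV : StDREV) (hShort : StShort) (hDOM : StDOM) :
    StSI := by
  intro k n m H _ _ _ P hA κ Z0 R N M ℓ l c hG hR hκ hc
  have hκ0 : 0 ≤ κ := by linarith [hA.ok.h2]
  have e2 : κ + 1 + 1 = κ + 2 := by ring
  have hcb : 0 ≤ k.cb (κ + 2) := by
    have := hA.ok.h5 (κ + 2)
    unfold Cst.cb
    positivity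
  have app := hApp1 k n m H P hA κ Z0 R (2 * N) hG (by omega) hκ
  obtain ⟨Ω, hΩ⟩ : ∃ Ω, Ω = Z0ᶜ ∩ bl P.adj (l.length * ℓ + 4 * N) c := ⟨_, rfl⟩
  obtain ⟨A, hAd⟩ : ∃ A : ℕ → Finset (Fin n), ∀ j a,
      a ∈ A j ↔ a ∈ Z0ᶜ ∧ near P.adj (j * ℓ) (.inl c) (.inl a) :=
    ⟨fun j => Z0ᶜ ∩ bl P.adj (j * ℓ) c, fun j a => by rw [Finset.mem_inter, mem_bl]⟩
  have mΩ : ∀ a, a ∈ Ω ↔ a ∈ Z0ᶜ ∧ near P.adj (l.length * ℓ + 4 * N) (.inl c) (.inl a) :=
    fun a => by rw [hΩ, Finset.mem_inter, mem_bl]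
  have c0 : P.Co (Wt κ Ω) := hG Ω {c} _ (fun a ha => ((mΩ a).1 ha).1) (by simpa using hc)
    (fun a ha => ⟨c, Finset.mem_singleton_self c, mem_bl.2 ((mΩ a).1 ha).2⟩)
    (by rw [Finset.card_singleton, one_mul]; exact hR) κ hκ
  have c1 : P.Co (Wt κ Ω + WZ (k.cb (κ + 2)) Z0) := by
    have := (hDOM k n m H P hA (κ + 1) _ (by linarith) c0
      ((bd_Wt hκ0 Ω).mono le_rfl (by linarith)) Z0 Z0 le_rfl).1
    rwa [e2] at this
  have bU : ∀ U, Bd (Wt κ U + WZ (k.cb (κ + 2)) Z0) (κ + 1) := fun U => by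
    have := (bd_Wt hκ0 U).add_WZ hcb zero_le_one le_rfl Z0
    rwa [one_smul] at this
  obtain ⟨d1, -, d3, -, d5⟩ := hDREV k n m H P hA (κ + 2) _ c (by linarith) c1
    ((bU Ω).mono le_rfl (by linarith))
  have ab := fun U S hU hS => TSI_abs hA.pos hκ0 (U := U) (S := S) c1 hU hS c
  generalize P.psn (Wt κ Ω + WZ (k.cb (κ + 2)) Z0) c = ψ at d1 d3 d5 ab
  have AΩ : A l.length ⊆ Ω := fun a ha =>
    (mΩ a).2 ⟨((hAd _ a).1 ha).1, hA.gr.near_mono (by omega) ((hAd _ a).1 ha).2⟩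
  have cA : ∀ j, c ∈ A j := fun j => (hAd j c).2 ⟨hc, hA.gr.near_refl _ _⟩
  have UΩ : ∀ a ∈ A l.length, ∀ u, a ∈ Ub P.adj Z0ᶜ (2 * N) u → Ub P.adj Z0ᶜ (2 * N) u ⊆ Ω :=
    fun a ha u hu b hb => (mΩ b).2 ⟨(TSI_Ub.1 hb).2.2, hA.gr.near_mono (by omega)
      (near_add (near_add ((hAd _ a).1 ha).2 (hA.gr.near_symm (mem_bl.1 (TSI_Ub.1 hu).2.1)))
        (mem_bl.1 (TSI_Ub.1 hb).2.1))⟩
  have sU : ∀ U : Finset (Fin n), (Z0ᶜ \ U) ∩ A l.length ⊆ Ω \ U := fun U b hb =>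
    Finset.mem_sdiff.2 ⟨AΩ (Finset.mem_inter.1 hb).2,
      (Finset.mem_sdiff.1 (Finset.mem_inter.1 hb).1).2⟩
  have self : ∀ a ∈ A l.length, a ∈ Ub P.adj Z0ᶜ (2 * N) a := fun a ha =>
    TSI_Ub.2 ⟨((hAd _ a).1 ha).1, mem_bl.2 (hA.gr.near_refl _ _), ((hAd _ a).1 ha).1⟩
  have hB : ∀ a ∈ A l.length, pr a ((P.bz k κ Z0 (2 * N) ∅).B (prS (A l.length) ψ)) ≤ pr a ψ := by
    intro a ha
    rw [TSI_B, TSI_pr ((hAd _ a).1 ha).1, TSI_prS]
    exact (ct_pp a 3).mono (ab ∅ _ (Finset.empty_subset _) fun b hb =>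
      Finset.mem_sdiff.2 ⟨AΩ (Finset.mem_inter.1 hb).2, Finset.notMem_empty b⟩)
  have hθ : 0 ≤ k.th (κ + 2) M N := by
    have := hA.ok.h3
    unfold Cst.th
    positivity
  have g0 : 0 ≤ ct c 1 ψ := ct_pp c 1 ψ d1
  have g1 : ct c 1 ψ ≤ prS (A l.length) ψ := by
    have h1 : ct c 1 (pr c ψ) = ct c 1 ψ := by
      rw [← mul_apply_eq_comp, pr, ct_ct, min_eq_left (by norm_num)]
    rw [← h1, ← TSI_pr (cA l.length)]
    exact (ct_le c 1 (ct_pp c 3 _ (prS_pp _ _ d1))).trans (ct_le c 3 (prS_pp _ _ d1))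
  refine ⟨ct c 1 ψ, fun Z => d5 _ (app Z).2.2.1 (app Z).2.2.2.1 κ Z0ᶜ hκ0 hc, ?_⟩
  refine (hShort n (Fin n → Fin (M + 1)) (fun ξ => P.bz k κ Z0 (2 * N) (Zx ξ))
    (P.bz k κ Z0 (2 * N) ∅) (P.rel Z0 ℓ) A ψ (k.th (κ + 2) M N) l.length (fun _ => ⟨rfl, rfl⟩)
    (app ∅).1.p0 (app ∅).1.q0 hθ d1 (fun ξ => (app (Zx ξ)).2.1) (fun o => ((app ∅).2.1 o).1)
    (fun j a b ha hb => (hAd _ b).2 ⟨hb.1, by
      rw [add_mul, one_mul]
      exact near_add ((hAd _ a).1 ha).2 (mem_bl.1 hb.2)⟩)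
    (fun j hj a ha => (hAd _ a).2 ⟨((hAd _ a).1 ha).1,
      hA.gr.near_mono (Nat.mul_le_mul_right _ hj) ((hAd _ a).1 ha).2⟩)
    self hB (fun a ha u hu => ?_) (fun a ha y hy => ?_)
    (fun ξ => (P.bz k κ Z0 (2 * N) (Zx ξ)).B (ct c 1 ψ))
    (fun ξ => ((app (Zx ξ)).2.1 none).1 _ g0) (fun ξ a ha => ?_) l le_rfl c (cA _) _ g0).trans ?_
  · have h : WZ (k.cb (κ + 2)) (∅ : Finset (Fin n)) = 0 := Finset.sum_empty
    rw [TSI_H, h, add_zero, TSI_pr ((hAd _ a).1 ha).1, TSI_prS]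
    exact (ct_pp a 3).mono (ab _ _ (UΩ a ha u hu) (sU _))
  · have h1 := UΩ a ha a (self a ha)
    have h2 : 0 ≤ pr a y := ct_pp a 3 y hy
    have h3 := hRUS k n m H P hA (κ + 1) _ (by linarith)
      (c1.mono (add_le_add_left (Wt_mono le_rfl hκ0 h1) _)) (bU _) M N a (pr a y)
      (prS (Z0ᶜ \ Ub P.adj Z0ᶜ (2 * N) a) (prS (A l.length) ψ)) h2
      (prS_pp _ _ (prS_pp _ _ d1)) (on_ct a 3 y) ((on_prS _ _).mono fun b hb h4 => by
        obtain ⟨h5, h6⟩ := Finset.mem_sdiff.1 (Finset.mem_coe.1 hb)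
        exact h6 (TSI_Ub.2 ⟨((hAd _ a).1 ha).1, h4, h5⟩))
    rw [e2] at h3
    have h4 := inner_mono_right h2 (ab _ _ h1 (sU _))
    have h5 : ∀ x, ⟪y, pr a x⟫_ℝ = ⟪pr a y, x⟫_ℝ := fun x => (mul_sy _ y x).symm
    rw [← TSI_prS, real_inner_smul_right] at h4
    simp only [TSI_H, TSI_pr ((hAd _ a).1 ha).1, h5, real_inner_smul_right]
    rw [← Finset.mul_sum]
    refine (mul_le_mul_of_nonneg_left h3 hκ0).trans ?_
    rw [mul_left_comm, mul_left_comm κ]
    exact mul_le_mul_of_nonneg_left (mul_le_mul_of_nonneg_left h4 hθ) (Nat.cast_nonneg _)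
  · exact ((ct_pp a 3).mono ((((app (Zx ξ)).2.1 none).2 _ g0).trans
      (((app ∅).2.1 none).1.mono g1))).trans (hB a ha)
  · refine mul_le_mul_of_nonneg_left (mul_le_of_le_one_right (add_nonneg (pow_nonneg ?_ _) hθ) d3)
      (Nat.cast_nonneg _)
    exact sub_nonneg.2 (inv_le_one_of_one_le₀ (one_le_pow₀ (by exact_mod_cast hA.ok.h1)))

end Pool.Agent.MP_4f0ed6_gt.U

end

section

set_option autoImplicit false
set_option linter.dupNamespace false

open MeasureTheory Set Metric Filter Topology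
open scoped InnerProductSpace ENNReal Classical

namespace Pool.Agent.MP_4f0ed6_gt.U

theorem stSIb (hApp1 : StApp1) (hRUS : StRUSb) (hDREV : StDREV) (hShort : StShort) (hDOM : StDOM) :
    StSIb := by
  intro k n m H _ _ _ P hA κ Z0 R N M ℓ l c hG hR hκ hc
  have hκ0 : 0 ≤ κ := by linarith [hA.ok.h2]
  have e2 : κ + 1 + 1 = κ + 2 := by ring
  have hcb : 0 ≤ k.cb (κ + 2) := by
    have := hA.ok.h5 (κ + 2)
    unfold Cst.cb
    positivity
  have app := hApp1 k n m H P hA κ Z0 R (2 * N) hG (by omega) hκ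
  obtain ⟨Ω, hΩ⟩ : ∃ Ω, Ω = Z0ᶜ ∩ bl P.adj (l.length * ℓ + 4 * N) c := ⟨_, rfl⟩
  obtain ⟨A, hAd⟩ : ∃ A : ℕ → Finset (Fin n), ∀ j a,
      a ∈ A j ↔ a ∈ Z0ᶜ ∧ near P.adj (j * ℓ) (.inl c) (.inl a) :=
    ⟨fun j => Z0ᶜ ∩ bl P.adj (j * ℓ) c, fun j a => by rw [Finset.mem_inter, mem_bl]⟩
  have mΩ : ∀ a, a ∈ Ω ↔ a ∈ Z0ᶜ ∧ near P.adj (l.length * ℓ + 4 * N) (.inl c) (.inl a) :=
    fun a => by rw [hΩ, Finset.mem_inter, mem_bl]
  have c0 : P.Co (Wt κ Ω) := hG Ω {c} _ (fun a ha => ((mΩ a).1 ha).1) (by simpa using hc)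
    (fun a ha => ⟨c, Finset.mem_singleton_self c, mem_bl.2 ((mΩ a).1 ha).2⟩)
    (by rw [Finset.card_singleton, one_mul]; exact hR) κ hκ
  have c1 : P.Co (Wt κ Ω + WZ (k.cb (κ + 2)) Z0) := by
    have := (hDOM k n m H P hA (κ + 1) _ (by linarith) c0
      ((bd_Wt hκ0 Ω).mono le_rfl (by linarith)) Z0 Z0 le_rfl).1
    rwa [e2] at this
  have bU : ∀ U, Bd (Wt κ U + WZ (k.cb (κ + 2)) Z0) (κ + 1) := fun U => by
    have := (bd_Wt hκ0 U).add_WZ hcb zero_le_one le_rfl Z0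
    rwa [one_smul] at this
  obtain ⟨d1, -, d3, -, d5⟩ := hDREV k n m H P hA (κ + 2) _ c (by linarith) c1
    ((bU Ω).mono le_rfl (by linarith))
  have ab := fun U S hU hS => TSI_abs hA.pos hκ0 (U := U) (S := S) c1 hU hS c
  generalize P.psn (Wt κ Ω + WZ (k.cb (κ + 2)) Z0) c = ψ at d1 d3 d5 ab
  have AΩ : A l.length ⊆ Ω := fun a ha =>
    (mΩ a).2 ⟨((hAd _ a).1 ha).1, hA.gr.near_mono (by omega) ((hAd _ a).1 ha).2⟩
  have cA : ∀ j, c ∈ A j := fun j => (hAd j c).2 ⟨hc, hA.gr.near_refl _ _⟩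
  have UΩ : ∀ a ∈ A l.length, ∀ u, a ∈ Ub P.adj Z0ᶜ (2 * N) u → Ub P.adj Z0ᶜ (2 * N) u ⊆ Ω :=
    fun a ha u hu b hb => (mΩ b).2 ⟨(TSI_Ub.1 hb).2.2, hA.gr.near_mono (by omega)
      (near_add (near_add ((hAd _ a).1 ha).2 (hA.gr.near_symm (mem_bl.1 (TSI_Ub.1 hu).2.1)))
        (mem_bl.1 (TSI_Ub.1 hb).2.1))⟩
  have sU : ∀ U : Finset (Fin n), (Z0ᶜ \ U) ∩ A l.length ⊆ Ω \ U := fun U b hb =>
    Finset.mem_sdiff.2 ⟨AΩ (Finset.mem_inter.1 hb).2,
      (Finset.mem_sdiff.1 (Finset.mem_inter.1 hb).1).2⟩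
  have self : ∀ a ∈ A l.length, a ∈ Ub P.adj Z0ᶜ (2 * N) a := fun a ha =>
    TSI_Ub.2 ⟨((hAd _ a).1 ha).1, mem_bl.2 (hA.gr.near_refl _ _), ((hAd _ a).1 ha).1⟩
  have hB : ∀ a ∈ A l.length, pr a ((P.bz k κ Z0 (2 * N) ∅).B (prS (A l.length) ψ)) ≤ pr a ψ := by
    intro a ha
    rw [TSI_B, TSI_pr ((hAd _ a).1 ha).1, TSI_prS]
    exact (ct_pp a 3).mono (ab ∅ _ (Finset.empty_subset _) fun b hb =>
      Finset.mem_sdiff.2 ⟨AΩ (Finset.mem_inter.1 hb).2, Finset.notMem_empty b⟩)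
  have hθ : 0 ≤ k.th2 (κ + 2) M N := by
    have := hA.ok.h3
    unfold Cst.th2
    positivity
  have g0 : 0 ≤ ct c 1 ψ := ct_pp c 1 ψ d1
  have g1 : ct c 1 ψ ≤ prS (A l.length) ψ := by
    have h1 : ct c 1 (pr c ψ) = ct c 1 ψ := by
      rw [← mul_apply_eq_comp, pr, ct_ct, min_eq_left (by norm_num)]
    rw [← h1, ← TSI_pr (cA l.length)]
    exact (ct_le c 1 (ct_pp c 3 _ (prS_pp _ _ d1))).trans (ct_le c 3 (prS_pp _ _ d1))
  refine ⟨ct c 1 ψ, fun Z => d5 _ (app Z).2.2.1 (app Z).2.2.2.1 κ Z0ᶜ hκ0 hc, ?_⟩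
  refine (hShort n (Fin n → Fin (M + 1)) (fun ξ => P.bz k κ Z0 (2 * N) (Zx ξ))
    (P.bz k κ Z0 (2 * N) ∅) (P.rel Z0 ℓ) A ψ (k.th2 (κ + 2) M N) l.length (fun _ => ⟨rfl, rfl⟩)
    (app ∅).1.p0 (app ∅).1.q0 hθ d1 (fun ξ => (app (Zx ξ)).2.1) (fun o => ((app ∅).2.1 o).1)
    (fun j a b ha hb => (hAd _ b).2 ⟨hb.1, by
      rw [add_mul, one_mul]
      exact near_add ((hAd _ a).1 ha).2 (mem_bl.1 hb.2)⟩)
    (fun j hj a ha => (hAd _ a).2 ⟨((hAd _ a).1 ha).1,
      hA.gr.near_mono (Nat.mul_le_mul_right _ hj) ((hAd _ a).1 ha).2⟩)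
    self hB (fun a ha u hu => ?_) (fun a ha y hy => ?_)
    (fun ξ => (P.bz k κ Z0 (2 * N) (Zx ξ)).B (ct c 1 ψ))
    (fun ξ => ((app (Zx ξ)).2.1 none).1 _ g0) (fun ξ a ha => ?_) l le_rfl c (cA _) _ g0).trans ?_
  · have h : WZ (k.cb (κ + 2)) (∅ : Finset (Fin n)) = 0 := Finset.sum_empty
    rw [TSI_H, h, add_zero, TSI_pr ((hAd _ a).1 ha).1, TSI_prS]
    exact (ct_pp a 3).mono (ab _ _ (UΩ a ha u hu) (sU _))
  · have h1 := UΩ a ha a (self a ha)
    have h2 : 0 ≤ pr a y := ct_pp a 3 y hy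
    have h3 := hRUS k n m H P hA (κ + 1) _ (by linarith)
      (c1.mono (add_le_add_left (Wt_mono le_rfl hκ0 h1) _)) (bU _) M N a (pr a y)
      (prS (Z0ᶜ \ Ub P.adj Z0ᶜ (2 * N) a) (prS (A l.length) ψ)) h2
      (prS_pp _ _ (prS_pp _ _ d1)) (on_ct a 3 y) ((on_prS _ _).mono fun b hb h4 => by
        obtain ⟨h5, h6⟩ := Finset.mem_sdiff.1 (Finset.mem_coe.1 hb)
        exact h6 (TSI_Ub.2 ⟨((hAd _ a).1 ha).1, h4, h5⟩))
    rw [e2] at h3
    have h4 := inner_mono_right h2 (ab _ _ h1 (sU _))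
    have h5 : ∀ x, ⟪y, pr a x⟫_ℝ = ⟪pr a y, x⟫_ℝ := fun x => (mul_sy _ y x).symm
    rw [← TSI_prS, real_inner_smul_right] at h4
    simp only [TSI_H, TSI_pr ((hAd _ a).1 ha).1, h5, real_inner_smul_right]
    rw [← Finset.mul_sum]
    refine (mul_le_mul_of_nonneg_left h3 hκ0).trans ?_
    rw [mul_left_comm, mul_left_comm κ]
    exact mul_le_mul_of_nonneg_left (mul_le_mul_of_nonneg_left h4 hθ) (Nat.cast_nonneg _)
  · exact ((ct_pp a 3).mono ((((app (Zx ξ)).2.1 none).2 _ g0).trans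
      (((app ∅).2.1 none).1.mono g1))).trans (hB a ha)
  · refine mul_le_mul_of_nonneg_left (mul_le_of_le_one_right (add_nonneg (pow_nonneg ?_ _) hθ) d3)
      (Nat.cast_nonneg _)
    exact sub_nonneg.2 (inv_le_one_of_one_le₀ (one_le_pow₀ (by exact_mod_cast hA.ok.h1)))

end Pool.Agent.MP_4f0ed6_gt.U

end
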