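import Pool.Agent.Mg.F4f0ed6a.Gb427fa
import Pool.Agent.Mg.F4f0ed6a.Ga5385d

section

set_option autoImplicit false
set_option linter.dupNamespace false

open MeasureTheory Set Metric Filter Topology
open scoped ContDiff ENNReal

namespace Pool.Agent.MP_4f0ed6_gt.U

theorem TPoin_ofReal_le {X : Type*} [MeasurableSpace X] (μ : Measure X) (f : X → ℝ)
    (hf : ∀ x, 0 ≤ f x) : ENNReal.ofReal (∫ x, f x ∂μ) ≤ ∫⁻ x, ENNReal.ofReal (f x) ∂μ := by
  by_cases h : Integrable f μ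
  · exact (ofReal_integral_eq_lintegral_ofReal h (Eventually.of_forall hf)).le
  · rw [integral_undef h]; simp

theorem TPoin_sq_le (f : ℝ → ℝ) (hf : Continuous f) :
    (∫ t in (0 : ℝ)..1, f t) ^ 2 ≤ ∫ t in (0 : ℝ)..1, f t ^ 2 := by
  set a := ∫ t in (0 : ℝ)..1, f t with ha
  have h0 : 0 ≤ ∫ t in (0 : ℝ)..1, (f t - a) ^ 2 :=
    intervalIntegral.integral_nonneg zero_le_one fun t _ => sq_nonneg _
  have h1 : ∫ t in (0 : ℝ)..1, (f t - a) ^ 2 =
      ∫ t in (0 : ℝ)..1, (f t ^ 2 - (2 * a * f t - a ^ 2)) := by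
    congr 1; funext t; ring
  have c1 : Continuous fun t => f t ^ 2 := by fun_prop
  have c2 : Continuous fun t => 2 * a * f t := by fun_prop
  have c3 : Continuous fun t => 2 * a * f t - a ^ 2 := by fun_prop
  rw [h1, intervalIntegral.integral_sub (c1.intervalIntegrable _ _) (c3.intervalIntegrable _ _),
    intervalIntegral.integral_sub (c2.intervalIntegrable _ _)
      (continuous_const.intervalIntegrable _ _), intervalIntegral.integral_const_mul,
    intervalIntegral.integral_const, ← ha] at h0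
  simp only [sub_zero, smul_eq_mul, one_mul] at h0
  nlinarith

theorem TPoin_fd_sq (u : ℂ → ℝ) (p h : ℂ) :
    (fderiv ℝ u p h) ^ 2 ≤ ‖h‖ ^ 2 * (dx u p ^ 2 + dy u p ^ 2) := by
  have e : h = h.re • (1 : ℂ) + h.im • Complex.I := by
    apply Complex.ext <;> simp
  have e2 : fderiv ℝ u p h = h.re * dx u p + h.im * dy u p := by
    conv_lhs => rw [e]
    rw [map_add, map_smul, map_smul]; rfl
  rw [e2, Complex.sq_norm, Complex.normSq_apply]
  nlinarith [sq_nonneg (h.re * dy u p - h.im * dx u p)]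

theorem TPoin_cont (u : ℂ → ℝ) (hu : ContDiff ℝ ∞ u) :
    Continuous fun p => dx u p ^ 2 + dy u p ^ 2 := by
  have h : Continuous (fderiv ℝ u) := hu.continuous_fderiv (by simp)
  exact ((h.clm_apply continuous_const).pow 2).add ((h.clm_apply continuous_const).pow 2)

theorem TPoin_seg (u : ℂ → ℝ) (hu : ContDiff ℝ ∞ u) (m h : ℂ) (ρ : ℝ) (hh : ‖h‖ ≤ ρ) :
    (u (m + h) - u m) ^ 2 ≤
      ρ ^ 2 * ∫ t in (0 : ℝ)..1, (dx u (m + t • h) ^ 2 + dy u (m + t • h) ^ 2) := by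
  have hc : Continuous (fderiv ℝ u) := hu.continuous_fderiv (by simp)
  have hl : Continuous fun t : ℝ => m + t • h := by fun_prop
  have hf : Continuous fun t : ℝ => fderiv ℝ u (m + t • h) h :=
    (hc.comp hl).clm_apply continuous_const
  have hd : ∀ t : ℝ, HasDerivAt (fun t : ℝ => u (m + t • h)) (fderiv ℝ u (m + t • h) h) t := by
    intro t
    have h1 : HasDerivAt (fun t : ℝ => m + t • h) h t := by
      simpa using ((hasDerivAt_id t).smul_const h).const_add m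
    exact ((hu.differentiable (by simp)) (m + t • h)).hasFDerivAt.comp_hasDerivAt t h1
  have e := intervalIntegral.integral_eq_sub_of_hasDerivAt (a := 0) (b := 1)
    (fun t _ => hd t) (hf.intervalIntegrable _ _)
  simp only [one_smul, zero_smul, add_zero] at e
  rw [← e]
  refine (TPoin_sq_le _ hf).trans ?_
  rw [← intervalIntegral.integral_const_mul]
  refine intervalIntegral.integral_mono_on zero_le_one ((hf.pow 2).intervalIntegrable _ _)
    ((continuous_const.mul ((TPoin_cont u hu).comp hl)).intervalIntegrable _ _) fun t _ => ?_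
  refine (TPoin_fd_sq u _ h).trans ?_
  exact mul_le_mul_of_nonneg_right (pow_le_pow_left₀ (norm_nonneg _) hh 2) (by positivity)

theorem TPoin_scale (g : ℂ → ℝ≥0∞) (hg : Measurable g) (w : ℂ) (ρ s : ℝ) (hs : 1 / 2 ≤ s)
    (hs1 : s ≤ 1) (y : ℂ) (hy : y ∈ ball w ρ) :
    ∫⁻ x in ball w ρ, g (s • x + (1 - s) • y) ≤ 4 * ∫⁻ x in ball w ρ, g x := by
  have hs0 : s ≠ 0 := by linarith
  have hi : Measurable ((ball w ρ).indicator g) := hg.indicator measurableSet_ball
  have h1 : ∫⁻ x in ball w ρ, g (s • x + (1 - s) • y) ≤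
      ∫⁻ x, (ball w ρ).indicator g (s • x + (1 - s) • y) := by
    rw [← lintegral_indicator measurableSet_ball]
    refine lintegral_mono fun x => ?_
    by_cases hx : x ∈ ball w ρ
    · have : s • x + (1 - s) • y ∈ ball w ρ :=
        convex_ball w ρ hx hy (by linarith) (by linarith) (by ring)
      rw [indicator_of_mem hx, indicator_of_mem this]
    · rw [indicator_of_notMem hx]; exact zero_le
  have h2 : ∫⁻ x, (ball w ρ).indicator g (s • x + (1 - s) • y) =
      ENNReal.ofReal |(s ^ Module.finrank ℝ ℂ)⁻¹| * ∫⁻ x in ball w ρ, g x := by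
    have hm : Measurable fun z : ℂ => (ball w ρ).indicator g (z + (1 - s) • y) :=
      hi.comp (measurable_add_const _)
    have := lintegral_map (μ := (volume : Measure ℂ)) hm (measurable_const_smul s)
    rw [← this, Measure.map_addHaar_smul volume hs0, lintegral_smul_measure,
      lintegral_add_right_eq_self (fun z => (ball w ρ).indicator g z),
      lintegral_indicator measurableSet_ball]
    rfl
  refine h1.trans (h2.le.trans ?_)
  refine mul_le_mul_left ?_ _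
  rw [Complex.finrank_real_complex, abs_of_nonneg (by positivity)]
  have : (s ^ 2)⁻¹ ≤ 4 := by
    rw [inv_le_comm₀ (by positivity) (by norm_num)]; nlinarith
  calc ENNReal.ofReal (s ^ 2)⁻¹ ≤ ENNReal.ofReal 4 := ENNReal.ofReal_le_ofReal this
    _ = 4 := by simp

theorem TPoin_half (g : ℂ → ℝ≥0∞) (hg : Measurable g) (w : ℂ) (ρ : ℝ) (y : ℂ)
    (hy : y ∈ ball w ρ) :
    ∫⁻ x in ball w ρ, ∫⁻ t in Ioc (0 : ℝ) 1, g (((1 + t) / 2) • x + (1 - (1 + t) / 2) • y) ≤
      4 * ∫⁻ x in ball w ρ, g x := by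
  rw [lintegral_lintegral_swap (by
    refine Measurable.aemeasurable (hg.comp ?_)
    exact Continuous.measurable (by fun_prop))]
  calc _ ≤ ∫⁻ t in Ioc (0 : ℝ) 1, 4 * ∫⁻ x in ball w ρ, g x := by
        refine setLIntegral_mono' measurableSet_Ioc fun t ht => ?_
        exact TPoin_scale g hg w ρ _ (by linarith [ht.1]) (by linarith [ht.2]) y hy
    _ = _ := by simp

theorem TPoin_pt (u : ℂ → ℝ) (hu : ContDiff ℝ ∞ u) (w : ℂ) (ρ : ℝ) (x y : ℂ)
    (hx : x ∈ ball w ρ) (hy : y ∈ ball w ρ) :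
    ENNReal.ofReal ((u x - u ((1 / 2 : ℝ) • (x + y))) ^ 2) ≤ ENNReal.ofReal (ρ ^ 2) *
      ∫⁻ t in Ioc (0 : ℝ) 1, ENNReal.ofReal
        (dx u (((1 + t) / 2) • x + (1 - (1 + t) / 2) • y) ^ 2 +
          dy u (((1 + t) / 2) • x + (1 - (1 + t) / 2) • y) ^ 2) := by
  have hn : ‖(1 / 2 : ℝ) • (x - y)‖ ≤ ρ := by
    rw [norm_smul, Real.norm_of_nonneg (by norm_num)]
    have h1 : ‖x - y‖ ≤ dist x w + dist y w := by
      rw [← dist_eq_norm]; exact dist_triangle_right x y w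
    have h2 := mem_ball.1 hx
    have h3 := mem_ball.1 hy
    linarith
  have h := TPoin_seg u hu ((1 / 2 : ℝ) • (x + y)) ((1 / 2 : ℝ) • (x - y)) ρ hn
  have e1 : (1 / 2 : ℝ) • (x + y) + (1 / 2 : ℝ) • (x - y) = x := by module
  have e2 : ∀ t : ℝ, (1 / 2 : ℝ) • (x + y) + t • (1 / 2 : ℝ) • (x - y) =
      ((1 + t) / 2) • x + (1 - (1 + t) / 2) • y := fun t => by module
  simp only [e1, e2] at h
  refine (ENNReal.ofReal_le_ofReal h).trans ?_
  rw [ENNReal.ofReal_mul (sq_nonneg _), intervalIntegral.integral_of_le zero_le_one]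
  exact mul_le_mul_right (TPoin_ofReal_le _ _ fun t => by positivity) _

theorem stPoin : StPoin := by
  refine ⟨16 * Real.pi, by positivity, fun u w ρ hu hρ => ?_⟩
  set g : ℂ → ℝ≥0∞ := fun p => ENNReal.ofReal (dx u p ^ 2 + dy u p ^ 2) with hg
  have hgm : Measurable g := (TPoin_cont u hu).measurable.ennreal_ofReal
  set F : ℂ → ℂ → ℝ≥0∞ := fun x y =>
    ∫⁻ t in Ioc (0 : ℝ) 1, g (((1 + t) / 2) • x + (1 - (1 + t) / 2) • y) with hF
  have hFm : Measurable (Function.uncurry F) := by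
    have : Measurable fun q : (ℂ × ℂ) × ℝ =>
        g (((1 + q.2) / 2) • q.1.1 + (1 - (1 + q.2) / 2) • q.1.2) :=
      hgm.comp (Continuous.measurable (by fun_prop))
    exact this.lintegral_prod_right'
  set L := ∫⁻ x in ball w ρ, g x with hL
  have hint : IntegrableOn (fun p => dx u p ^ 2 + dy u p ^ 2) (ball w ρ) :=
    ((TPoin_cont u hu).continuousOn.integrableOn_compact (isCompact_closedBall w ρ)).mono_set
      ball_subset_closedBall
  have hLe : L = ENNReal.ofReal (∫ y in ball w ρ, (dx u y ^ 2 + dy u y ^ 2)) :=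
    (ofReal_integral_eq_lintegral_ofReal hint (Eventually.of_forall fun p => by positivity)).symm
  have hpt : ∀ x ∈ ball w ρ, ∀ y ∈ ball w ρ, ENNReal.ofReal ((u x - u y) ^ 2) ≤
      2 * ENNReal.ofReal (ρ ^ 2) * (F x y + F y x) := by
    intro x hx y hy
    have h1 := TPoin_pt u hu w ρ x y hx hy
    have h2 := TPoin_pt u hu w ρ y x hy hx
    rw [add_comm y x] at h2
    set m := (1 / 2 : ℝ) • (x + y)
    have h3 : (u x - u y) ^ 2 ≤ 2 * ((u x - u m) ^ 2 + (u y - u m) ^ 2) := by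
      nlinarith [sq_nonneg (u x + u y - 2 * u m)]
    refine (ENNReal.ofReal_le_ofReal h3).trans ?_
    rw [ENNReal.ofReal_mul (by norm_num), ENNReal.ofReal_add (sq_nonneg _) (sq_nonneg _),
      mul_assoc, mul_add (ENNReal.ofReal (ρ ^ 2)), ENNReal.ofReal_ofNat]
    exact mul_le_mul_right (add_le_add h1 h2) _
  have hB : ∫⁻ x in ball w ρ, ∫⁻ y in ball w ρ, F y x ≤ 4 * L * volume (ball w ρ) := by
    calc _ ≤ ∫⁻ x in ball w ρ, 4 * L :=
          setLIntegral_mono' measurableSet_ball fun x hx => TPoin_half g hgm w ρ x hx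
      _ = _ := by simp
  clear_value F
  have hA : ∫⁻ x in ball w ρ, ∫⁻ y in ball w ρ, F x y ≤ 4 * L * volume (ball w ρ) := by
    rw [lintegral_lintegral_swap hFm.aemeasurable]; exact hB
  have hmain : ENNReal.ofReal (∫ x in ball w ρ, ∫ y in ball w ρ, (u x - u y) ^ 2) ≤
      2 * ENNReal.ofReal (ρ ^ 2) * (4 * L * volume (ball w ρ) + 4 * L * volume (ball w ρ)) := by
    refine (TPoin_ofReal_le _ _ fun x => integral_nonneg fun y => sq_nonneg _).trans ?_
    have hne : 2 * ENNReal.ofReal (ρ ^ 2) ≠ ⊤ := ENNReal.mul_ne_top (by simp) (by simp)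
    calc _ ≤ ∫⁻ x in ball w ρ, 2 * ENNReal.ofReal (ρ ^ 2) *
          ((∫⁻ y in ball w ρ, F x y) + ∫⁻ y in ball w ρ, F y x) := by
          refine setLIntegral_mono' measurableSet_ball fun x hx => ?_
          refine (TPoin_ofReal_le _ _ fun y => sq_nonneg _).trans ?_
          have hx' : Measurable fun y => F x y := hFm.of_uncurry_left
          rw [← lintegral_add_left hx', ← lintegral_const_mul' _ _ hne]
          exact setLIntegral_mono' measurableSet_ball fun y hy => hpt x hx y hy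
      _ ≤ _ := by
          have hm' : Measurable fun x => ∫⁻ y in ball w ρ, F x y := hFm.lintegral_prod_right
          rw [lintegral_const_mul' _ _ hne, lintegral_add_left hm']
          exact mul_le_mul_right (add_le_add hA hB) _
  have hI : 0 ≤ ∫ y in ball w ρ, (dx u y ^ 2 + dy u y ^ 2) :=
    integral_nonneg fun p => by positivity
  rw [hLe, Complex.volume_ball] at hmain
  rw [← ENNReal.ofReal_le_ofReal_iff (by positivity)]
  refine hmain.trans (le_of_eq ?_)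
  have e1 : ((NNReal.pi : NNReal) : ℝ≥0∞) = ENNReal.ofReal Real.pi := by
    rw [← NNReal.coe_real_pi, ENNReal.ofReal_coe_nnreal]
  rw [e1, ← ENNReal.ofReal_pow hρ.le, ENNReal.ofReal_mul (by positivity),
    ENNReal.ofReal_mul (by positivity), ENNReal.ofReal_mul (by positivity),
    show ρ ^ 4 = ρ ^ 2 * ρ ^ 2 by ring, ENNReal.ofReal_mul (by positivity),
    ENNReal.ofReal_ofNat]
  ring

end Pool.Agent.MP_4f0ed6_gt.U

end

section

set_option autoImplicit false
set_option linter.dupNamespace false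

open MeasureTheory Set Metric Filter Topology
open scoped ContDiff ENNReal

namespace Pool.Agent.MP_4f0ed6_gt.U

theorem TL4_fatou {μ : Measure ℂ} {f : ℕ → ℂ → ℝ} {F : ℂ → ℝ} {b : ℕ → ℝ} {B : ℝ}
    (hf : ∀ k, Integrable (f k) μ) (h0 : ∀ k y, 0 ≤ f k y)
    (hF : ∀ᵐ y ∂μ, Tendsto (fun k => f k y) atTop (𝓝 (F y))) (hb : ∀ k, ∫ y, f k y ∂μ ≤ b k)
    (hB : Tendsto b atTop (𝓝 B)) : Integrable F μ ∧ ∫ y, F y ∂μ ≤ B := by
  have m := aestronglyMeasurable_of_tendsto_ae atTop (fun k => (hf k).1) hF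
  have F0 : 0 ≤ᵐ[μ] F := hF.mono fun y hy => ge_of_tendsto' hy fun k => h0 k y
  have B0 : 0 ≤ B := ge_of_tendsto' hB fun k => (integral_nonneg (h0 k)).trans (hb k)
  have h : ∫⁻ y, ENNReal.ofReal (F y) ∂μ ≤ ENNReal.ofReal B :=
    calc _ = ∫⁻ y, liminf (fun k => ENNReal.ofReal (f k y)) atTop ∂μ :=
          lintegral_congr_ae (hF.mono fun y hy => (ENNReal.tendsto_ofReal hy).liminf_eq.symm)
      _ ≤ liminf (fun k => ∫⁻ y, ENNReal.ofReal (f k y) ∂μ) atTop :=
          lintegral_liminf_le' fun k => (hf k).1.aemeasurable.ennreal_ofReal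
      _ ≤ liminf (fun k => ENNReal.ofReal (b k)) atTop :=
          liminf_le_liminf (.of_forall fun k => by
            rw [← ofReal_integral_eq_lintegral_ofReal (hf k) (.of_forall (h0 k))]
            exact ENNReal.ofReal_le_ofReal (hb k))
      _ = _ := (ENNReal.tendsto_ofReal hB).liminf_eq
  refine ⟨⟨m, (hasFiniteIntegral_iff_ofReal F0).2 (h.trans_lt ENNReal.ofReal_lt_top)⟩, ?_⟩
  rw [integral_eq_lintegral_of_nonneg_ae F0 m]
  exact ENNReal.toReal_le_of_le_ofReal B0 h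

theorem TL4_res {r : ℝ} (hr : r ≤ 16) : mu.restrict (ball 0 r) = volume.restrict (ball 0 r) :=
  mu_restrict measurableSet_ball (ball_subset_ball hr)

theorem TL4_ind (φ : ℂ → ℝ) :
    ∫ y, (ball (0 : ℂ) 11).indicator (fun _ => (1 : ℝ)) y * φ y ∂mu = ∫ y in ball 0 11, φ y := by
  rw [← TL4_res (by norm_num), ← integral_indicator measurableSet_ball]
  simp only [← indicator_mul_left, one_mul]

theorem stL4 (hSob : StSob) (hCacH : StCacH) : StL4 := by
  obtain ⟨C₁, p₁, h₁⟩ := hSob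
  obtain ⟨C₂, p₂, h₂⟩ := hCacH
  intro K hK
  refine ⟨C₁ * (1 + C₂ * (1 + K)) ^ 8, by positivity, fun g gx gy hg => ?_⟩
  obtain ⟨u, hu⟩ := hg.apx
  have hm : MemLp ((ball (0 : ℂ) 11).indicator fun _ => (1 : ℝ)) 2 mu :=
    (memLp_mu continuous_const).indicator measurableSet_ball
  have hi : IntegrableOn g (ball 0 12) := by
    rw [IntegrableOn, ← TL4_res (by norm_num)]
    exact (hu.m0.integrable one_le_two).restrict
  have hc : ∀ ε : ℝ, IntegrableOn (fun _ : ℂ => ε) (ball 0 12) := fun ε =>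
    integrableOn_const measure_ball_lt_top.ne
  have g0 : ∀ᵐ y ∂volume.restrict (ball (0 : ℂ) 12), 0 ≤ g y := by
    rw [← TL4_res (by norm_num)]
    exact ae_restrict_of_ae hu.nn'
  have key : ∀ ε : ℝ, 0 < ε → IntegrableOn (fun y => g y ^ 4) (ball 0 10) ∧
      ∫ y in ball 0 10, g y ^ 4 ≤ C₁ * (1 + C₂ * (1 + K)) ^ 8 *
        ((∫ y in ball 0 12, g y) + volume.real (ball (0 : ℂ) 12) * ε) ^ 4 := fun ε hε => by
    have l1 := (hu.lim_val hm (Φ := fun s => s + ε) (L := 1) fun s t _ _ => by simp).2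
    have l2 := (hu.lim_grad hm.1 (M := 1) (fun y => by by_cases h : y ∈ ball (0 : ℂ) 11 <;> simp [h])
      (Φ := fun s => (s + ε) ^ (-(3 / 2) : ℝ)) (M' := ε ^ (-(3 / 2) : ℝ))
      ((continuousOn_id.add continuousOn_const).rpow_const fun s hs =>
        .inl (add_pos_of_nonneg_of_pos hs hε).ne') fun s hs => by
        rw [abs_of_nonneg (Real.rpow_nonneg (by positivity) _)]
        exact Real.rpow_le_rpow_of_nonpos hε (by linarith) (by norm_num)).2
    simp only [TL4_ind] at l1 l2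
    have := TL4_fatou (μ := volume.restrict (ball 0 10)) (F := fun y => g y ^ 4)
      (fun k => (((hu.sm k).continuous.pow 4).continuousOn.integrableOn_compact
        (isCompact_closedBall 0 10)).mono_set ball_subset_closedBall)
      (fun k y => pow_nonneg (hu.nn k y) 4) (by
        rw [← TL4_res (by norm_num)]
        exact ae_restrict_of_ae (hu.ae.mono fun y hy => hy.pow 4))
      (fun k => h₁ (u k) ε (hu.sm k) (hu.nn k) hε) (((l1.sqrt.add l2).pow 8).const_mul C₁)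
    refine ⟨this.1, this.2.trans ?_⟩
    have a1 : ∫ y in ball 0 11, (g y + ε) ≤ ∫ y in ball 0 12, (g y + ε) :=
      setIntegral_mono_set (hi.add (hc ε)) (g0.mono fun y hy => add_nonneg hy hε.le)
        (ball_subset_ball (by norm_num)).eventuallyLE
    have a2 : 0 ≤ ∫ y in ball 0 12, (g y + ε) :=
      integral_nonneg_of_ae (g0.mono fun y hy => add_nonneg hy hε.le)
    have a3 : 0 ≤ ∫ y in ball 0 11, (gx y ^ 2 + gy y ^ 2) * (g y + ε) ^ (-(3 / 2) : ℝ) := by
      refine integral_nonneg_of_ae ?_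
      rw [← TL4_res (by norm_num)]
      exact ae_restrict_of_ae (hu.nn'.mono fun y hy =>
        mul_nonneg (by positivity) (Real.rpow_nonneg (add_nonneg hy hε.le) _))
    have a4 := add_le_add (Real.sqrt_le_sqrt a1) (h₂ K g gx gy hK hg ε hε)
    calc _ ≤ C₁ * ((1 + C₂ * (1 + K)) * √(∫ y in ball 0 12, (g y + ε))) ^ 8 := by
          gcongr
          linarith
      _ = C₁ * (1 + C₂ * (1 + K)) ^ 8 * (√(∫ y in ball 0 12, (g y + ε)) ^ 2) ^ 4 := by ring
      _ = _ := by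
          rw [Real.sq_sqrt a2, integral_add hi (hc ε), setIntegral_const, smul_eq_mul]
  refine ⟨(key 1 one_pos).1, ?_⟩
  have t : Tendsto (fun ε : ℝ => C₁ * (1 + C₂ * (1 + K)) ^ 8 *
      ((∫ y in ball 0 12, g y) + volume.real (ball (0 : ℂ) 12) * ε) ^ 4) (𝓝[>] 0) _ :=
    (Continuous.tendsto (by fun_prop) 0).mono_left nhdsWithin_le_nhds
  simpa using ge_of_tendsto t (eventually_mem_nhdsWithin.mono fun ε hε => (key ε hε).2)

end Pool.Agent.MP_4f0ed6_gt.U

end

section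

set_option autoImplicit false
set_option linter.dupNamespace false

open MeasureTheory Set Metric Filter Topology
open scoped InnerProductSpace ENNReal Classical

namespace Pool.Agent.MP_4f0ed6_gt.U

variable {n : ℕ}

theorem TTrAlg_sy_mul {A B : Op n} (hA : Sy A) (hB : Sy B) (h : A * B = B * A) : Sy (A * B) := by
  intro x y
  calc ⟪(A * B) x, y⟫_ℝ = ⟪A (B x), y⟫_ℝ := rfl
    _ = ⟪x, B (A y)⟫_ℝ := by rw [hA, hB]
    _ = ⟪x, (B * A) y⟫_ℝ := rfl
    _ = _ := by rw [h]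

theorem TTrAlg_sy_conj {A B : Op n} (hA : Sy A) (hB : Sy B) : Sy (A * B * A) := by
  intro x y
  calc ⟪(A * B * A) x, y⟫_ℝ = ⟪A (B (A x)), y⟫_ℝ := rfl
    _ = ⟪x, A (B (A y))⟫_ℝ := by rw [hA, hB, hA]
    _ = _ := rfl

theorem TTrAlg_sy_add {A B : Op n} (hA : Sy A) (hB : Sy B) : Sy (A + B) := by
  intro x y
  rw [_root_.add_apply, _root_.add_apply, inner_add_left,
    inner_add_right, hA, hB]

theorem TTrAlg_sy_sum {ι : Type} (s : Finset ι) (a : ι → ℝ) (A : ι → Op n) (h : ∀ i, Sy (A i)) :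
    Sy (∑ i ∈ s, a i • A i) := by
  intro x y
  simp only [_root_.sum_apply, _root_.smul_apply, sum_inner, inner_sum,
    real_inner_smul_left, real_inner_smul_right]
  exact Finset.sum_congr rfl fun i _ => by rw [h i]

theorem TTrAlg_psd_conj {A B : Op n} (hA : Sy A) (hB : ∀ x, 0 ≤ ⟪B x, x⟫_ℝ) (x : L2 n) :
    0 ≤ ⟪(A * B * A) x, x⟫_ℝ := by
  have : ⟪(A * B * A) x, x⟫_ℝ = ⟪B (A x), A x⟫_ℝ := hA (B (A x)) x
  rw [this]
  exact hB _

theorem TTrAlg_psd_mul {A Q : Op n} (hA : ∀ x, 0 ≤ ⟪A x, x⟫_ℝ) (hQ : Sy Q) (hQQ : Q * Q = Q)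
    (h : A * Q = Q * A) (x : L2 n) : 0 ≤ ⟪(A * Q) x, x⟫_ℝ := by
  have e : A * Q = Q * A * Q := by rw [← h, mul_assoc, hQQ]
  rw [e]
  exact TTrAlg_psd_conj hQ hA x

theorem TTrAlg_psd_sum {ι : Type} (s : Finset ι) (a : ι → ℝ) (A : ι → Op n) (ha : ∀ i, 0 ≤ a i)
    (h : ∀ i x, 0 ≤ ⟪A i x, x⟫_ℝ) (x : L2 n) : 0 ≤ ⟪(∑ i ∈ s, a i • A i) x, x⟫_ℝ := by
  simp only [_root_.sum_apply, _root_.smul_apply, sum_inner,
    real_inner_smul_left]
  exact Finset.sum_nonneg fun i _ => mul_nonneg (ha i) (h i x)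

theorem TTrAlg_split (β : Bk n) (T : Option (Fin n) → Op n) :
    ∑ c, ∑ o, β.w true o c • (pr c * T o) =
      (∑ c, β.q c • pr c) * T none + ∑ u, β.p • (prS (β.U u) * T (some u)) := by
  simp only [Fintype.sum_option, Finset.sum_add_distrib]
  congr 1
  · rw [Finset.sum_mul]
    exact Finset.sum_congr rfl fun c _ => by rw [smul_mul_assoc]; rfl
  · rw [Finset.sum_comm]
    refine Finset.sum_congr rfl fun u _ => ?_
    rw [prS_eq_sum, Finset.sum_mul, Finset.smul_sum]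
    have : ∀ c, β.w true (some u) c • (pr c * T (some u)) =
        if c ∈ β.U u then β.p • (pr c * T (some u)) else 0 := fun c => by
      show (if c ∈ β.U u then β.p else 0) • _ = _
      split_ifs
      · rfl
      · exact zero_smul _ _
    simp_rw [this]
    rw [Finset.sum_ite_mem, Finset.univ_inter]

theorem TTrAlg_comm {R : Type} [Ring R] {Y J Q : R} (h1 : J * Y = 1) (h2 : Y * J = 1)
    (h : Y * Q = Q * Y) : J * Q = Q * J := by
  calc J * Q = J * Q * (Y * J) := by rw [h2, mul_one]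
    _ = J * (Y * Q) * J := by rw [h]; simp only [mul_assoc]
    _ = Q * J := by rw [← mul_assoc, h1, one_mul]

theorem TTrAlg_key {R : Type} [Ring R] {E P Bh J : R} (hE : E * E = E) (hP : P * P = P)
    (hc : E * P = P * E) (hl : E * Bh = Bh) (hr : Bh * E = Bh) (h1 : J * (1 - P * Bh * P) = 1)
    (h2 : (1 - P * Bh * P) * J = 1) :
    J * P = P * J ∧ J * E = E * J ∧ P * (J * (P * Bh * (1 - P))) = J * (P * Bh * (1 - P)) ∧
      J * (P * E) * (E - Bh) = P * E - J * (P * Bh * (1 - P)) := by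
  have a1 : P * Bh * P * P = P * Bh * P := by rw [mul_assoc, hP]
  have a2 : P * (P * Bh * P) = P * Bh * P := by rw [← mul_assoc, ← mul_assoc, hP]
  have a3 : P * Bh * P * E = P * Bh * P := by
    rw [mul_assoc, ← hc, ← mul_assoc, mul_assoc P, hr]
  have a4 : E * (P * Bh * P) = P * Bh * P := by
    rw [← mul_assoc, ← mul_assoc, hc, mul_assoc P, hl]
  have c1 : J * P = P * J := TTrAlg_comm h1 h2 (by rw [sub_mul, mul_sub, a1, a2, one_mul, mul_one])
  have c2 : J * E = E * J := TTrAlg_comm h1 h2 (by rw [sub_mul, mul_sub, a3, a4, one_mul, mul_one])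
  refine ⟨c1, c2, ?_, ?_⟩
  · rw [← mul_assoc, ← c1, mul_assoc, ← mul_assoc P, ← mul_assoc P, hP]
  · have b1 : P * E * (E - Bh) = (1 - P * Bh * P) * (P * E) - P * Bh * (1 - P) := by
      rw [mul_sub, mul_assoc, hE, mul_assoc, hl, sub_mul, one_mul, ← mul_assoc (P * Bh * P), a1,
        a3, mul_sub, mul_one]
      abel
    rw [mul_assoc, b1, mul_sub, ← mul_assoc J, h1, one_mul]

theorem TTrAlg_fin {R : Type} [Ring R] {E Bh GG S : R} (hE : E * E = E) (hl : E * Bh = Bh)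
    (hr : Bh * E = Bh) (h : GG * (E - Bh) = E - S) :
    Bh * S * Bh = E - (E + Bh + Bh * GG * Bh) * (E - Bh) := by
  have hS : S = E - GG * (E - Bh) := by rw [h]; abel
  have e1 : (E - Bh) * Bh = Bh * (E - Bh) := by rw [sub_mul, mul_sub, hl, hr]
  have e2 : (E + Bh) * (E - Bh) = E - Bh * Bh := by
    rw [add_mul, mul_sub, mul_sub, hE, hl, hr]
    abel
  rw [add_mul, e2, mul_assoc (Bh * GG), ← e1]
  nth_rewrite 1 [hS]
  rw [mul_sub, hr, sub_mul]
  simp only [mul_assoc]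
  abel

theorem stTrAlg (hInv : StInv) : StTrAlg := by
  intro n β hβ
  choose θ hθ0 hθ1 _ hθ using hInv n β hβ
  have hΓ1 : 0 ≤ ∑ u, β.p * (1 - θ u)⁻¹ :=
    Finset.sum_nonneg fun u _ => mul_nonneg hβ.p0 (inv_nonneg.2 (by linarith [hθ1 u]))
  have hΓ2 : 0 ≤ ∑ c, β.q c := Finset.sum_nonneg fun c _ => hβ.q0 c
  refine ⟨1 + ‖β.B‖ + ‖β.B‖ * (∑ u, β.p * (1 - θ u)⁻¹ + ∑ c, β.q c) * ‖β.B‖, by positivity,
    fun φ hφ => ?_⟩
  have hE := Fm.E_E hφ
  have hEs := φ.E_sy
  have hEn : ‖φ.E‖ ≤ 1 :=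
    ContinuousLinearMap.opNorm_le_bound _ zero_le_one fun x => by
      rw [one_mul]; exact Fm.norm_E_le hφ x
  have hPn : ∀ S, ‖(prS S : Op n)‖ ≤ 1 := fun S =>
    ContinuousLinearMap.opNorm_le_bound _ zero_le_one fun x => by
      rw [one_mul]; exact norm_prS_le S x
  have hpn : ∀ c, ‖(pr c : Op n)‖ ≤ 1 := fun c =>
    ContinuousLinearMap.opNorm_le_bound _ zero_le_one fun x => by
      rw [one_mul]; exact norm_ct_le c 3 x
  have hPP : ∀ S, (prS S : Op n) * prS S = prS S := fun S => by rw [prS_mul, Finset.inter_self]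
  have hPs : ∀ S, Sy (prS S : Op n) := fun S => mul_sy _
  have hps : ∀ c, Sy (pr c : Op n) := fun c => mul_sy _
  have hcP := Fm.E_prS hφ
  have hcp := Fm.E_pr hφ
  have hU : prS Finset.univ * φ.E = φ.E := Fm.prS_E hφ (Finset.subset_univ _)
  have hsplit := TTrAlg_split (β.hat φ.E) (β.hat φ.E).op
  have hsum := TTrAlg_split β fun _ => φ.E
  have hθφ := fun u => hθ u φ hφ
  have hTh : (β.hat φ.E).Th = φ.E * β.B * φ.E * (β.hat φ.E).S true * (φ.E * β.B * φ.E) := rfl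
  have hS : (β.hat φ.E).S true = (∑ c, β.q c • pr c) * (φ.E * β.B * φ.E) +
      ∑ u, β.p • (prS (β.U u) *
        (Ring.inverse (1 - prS (β.U u) * (φ.E * β.B * φ.E) * prS (β.U u)) *
          (prS (β.U u) * (φ.E * β.B * φ.E) * (1 - prS (β.U u))))) := hsplit
  rw [hTh]
  generalize (β.hat φ.E).S true = S at hS ⊢
  have hBs : Sy (φ.E * β.B * φ.E) := TTrAlg_sy_conj hEs hβ.sym
  have hBp := TTrAlg_psd_conj hEs hβ.psd
  have hBn : ‖φ.E * β.B * φ.E‖ ≤ ‖β.B‖ := by
    refine (norm_mul_le _ _).trans ((mul_le_of_le_one_right (norm_nonneg _) hEn).trans ?_)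
    exact (norm_mul_le _ _).trans (mul_le_of_le_one_left (norm_nonneg _) hEn)
  have hl : φ.E * (φ.E * β.B * φ.E) = φ.E * β.B * φ.E := by rw [← mul_assoc, ← mul_assoc, hE]
  have hr : φ.E * β.B * φ.E * φ.E = φ.E * β.B * φ.E := by rw [mul_assoc, hE]
  simp only at hθφ
  generalize φ.E * β.B * φ.E = Bh at *
  generalize φ.E = E at *
  have hone : ∑ c, ∑ o, β.w true o c • (pr c * E) = E := by
    simp_rw [← Finset.sum_smul, β.sum_w, one_smul]
    rw [← Finset.sum_mul, ← prS_eq_sum, hU]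
  rw [hone] at hsum
  obtain ⟨J, hJ⟩ : ∃ J : Fin n → Op n,
      ∀ u, J u = Ring.inverse (1 - prS (β.U u) * Bh * prS (β.U u)) := ⟨_, fun _ => rfl⟩
  simp only [← hJ] at hθφ hS
  have hkey := fun u => TTrAlg_key (J := J u) hE (hPP (β.U u)) (hcP (β.U u)) hl hr
    (by rw [hJ]; exact Ring.inverse_mul_cancel _ (hθφ u).2.1)
    (by rw [hJ]; exact Ring.mul_inverse_cancel _ (hθφ u).2.1)
  have hQs : ∀ u, Sy (prS (β.U u) * E) := fun u => TTrAlg_sy_mul (hPs _) hEs (hcP _).symm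
  have hQQ : ∀ u, prS (β.U u) * E * (prS (β.U u) * E) = prS (β.U u) * E := fun u => by
    rw [mul_assoc, ← mul_assoc E, hcP, mul_assoc, hE, ← mul_assoc, hPP]
  have hJQ : ∀ u, J u * (prS (β.U u) * E) = prS (β.U u) * E * J u := fun u => by
    rw [← mul_assoc, (hkey u).1, mul_assoc, (hkey u).2.1, mul_assoc]
  obtain ⟨GG, hGG⟩ : ∃ GG : Op n, GG = ∑ u, β.p • (J u * (prS (β.U u) * E)) +
      ∑ c, β.q c • (pr c * E) := ⟨_, rfl⟩
  have hGs : Sy GG := by
    rw [hGG]
    exact TTrAlg_sy_add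
      (TTrAlg_sy_sum _ _ _ fun u => TTrAlg_sy_mul (hθφ u).2.2.2.2.1 (hQs u) (hJQ u))
      (TTrAlg_sy_sum _ _ _ fun c => TTrAlg_sy_mul (hps c) hEs (hcp c).symm)
  have hGp : ∀ x, 0 ≤ ⟪GG x, x⟫_ℝ := fun x => by
    rw [hGG, _root_.add_apply, inner_add_left]
    refine add_nonneg (TTrAlg_psd_sum _ _ _ (fun _ => hβ.p0) (fun u => TTrAlg_psd_mul
      (hθφ u).2.2.2.2.2.1 (hQs u) (hQQ u) (hJQ u)) x) (TTrAlg_psd_sum _ _ _ hβ.q0
        (fun c => TTrAlg_psd_mul (fun y => ?_) hEs hE (hcp c).symm) x)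
    exact (sq_nonneg _).trans_eq (inner_ct_self c 3 y).symm
  have hGn : ‖GG‖ ≤ ∑ u, β.p * (1 - θ u)⁻¹ + ∑ c, β.q c := by
    rw [hGG]
    refine (norm_add_le _ _).trans (add_le_add ((norm_sum_le _ _).trans
      (Finset.sum_le_sum fun u _ => ?_)) ((norm_sum_le _ _).trans
        (Finset.sum_le_sum fun c _ => ?_)))
    · rw [norm_smul, Real.norm_of_nonneg hβ.p0]
      refine mul_le_mul_of_nonneg_left ((norm_mul_le _ _).trans ?_) hβ.p0
      exact (mul_le_of_le_one_right (norm_nonneg _) ((norm_mul_le _ _).trans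
        (mul_le_one₀ (hPn _) (norm_nonneg _) hEn))).trans (hθφ u).2.2.1
    · rw [norm_smul, Real.norm_of_nonneg (hβ.q0 c)]
      exact mul_le_of_le_one_right (hβ.q0 c) ((norm_mul_le _ _).trans
        (mul_le_one₀ (hpn _) (norm_nonneg _) hEn))
  have hG : GG * (E - Bh) = E - S := by
    have e1 : ∑ c, β.q c • (pr c * E) = (∑ c, β.q c • pr c) * E := by
      rw [Finset.sum_mul]
      exact Finset.sum_congr rfl fun c _ => (smul_mul_assoc _ _ _).symm
    have e2 : (∑ u, β.p • (J u * (prS (β.U u) * E))) * (E - Bh) =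
        ∑ u, β.p • (prS (β.U u) * E) - ∑ u, β.p • (prS (β.U u) *
          (J u * (prS (β.U u) * Bh * (1 - prS (β.U u))))) := by
      rw [Finset.sum_mul, ← Finset.sum_sub_distrib]
      exact Finset.sum_congr rfl fun u _ => by
        rw [smul_mul_assoc, (hkey u).2.2.2, (hkey u).2.2.1, smul_sub]
    rw [hGG, add_mul, e1, e2, mul_assoc, mul_sub E, hE, hl, mul_sub, hS]
    nth_rewrite 3 [hsum]
    abel
  refine ⟨E + Bh + Bh * GG * Bh, TTrAlg_sy_add (TTrAlg_sy_add hEs hBs) (TTrAlg_sy_conj hBs hGs),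
    ?_, fun x hx => ⟨?_, ?_⟩, TTrAlg_fin hE hl hr hG⟩
  · rw [mul_add, mul_add, hE, hl, ← mul_assoc, ← mul_assoc, hl]
  · rw [_root_.add_apply, _root_.add_apply, inner_add_left,
      inner_add_left, hx, real_inner_self_eq_norm_sq]
    linarith [hBp x, TTrAlg_psd_conj hBs hGp x]
  · have hn : ‖E + Bh + Bh * GG * Bh‖ ≤
        1 + ‖β.B‖ + ‖β.B‖ * (∑ u, β.p * (1 - θ u)⁻¹ + ∑ c, β.q c) * ‖β.B‖ := by
      refine (norm_add_le _ _).trans (add_le_add ((norm_add_le _ _).trans (add_le_add hEn hBn)) ?_)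
      refine (norm_mul_le _ _).trans (mul_le_mul ((norm_mul_le _ _).trans ?_) hBn (norm_nonneg _)
        (by positivity))
      exact mul_le_mul hBn hGn (norm_nonneg _) (norm_nonneg _)
    refine (real_inner_le_norm _ _).trans ?_
    rw [pow_two, ← mul_assoc]
    exact mul_le_mul_of_nonneg_right (((E + Bh + Bh * GG * Bh).le_opNorm x).trans
      (mul_le_mul_of_nonneg_right hn (norm_nonneg _))) (norm_nonneg _)

end Pool.Agent.MP_4f0ed6_gt.U

end

section

set_option autoImplicit false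
set_option linter.dupNamespace false

open MeasureTheory Set Metric Filter Topology
open scoped InnerProductSpace ENNReal Classical

namespace Pool.Agent.MP_4f0ed6_gt.U

variable {n m : ℕ}

/-- the cells seen by a sequence -/
noncomputable def TLI_om (C : Finset (Fin n)) (U : Fin n → Finset (Fin n)) (c : Fin n)
    (σ : List (St n)) : Finset (Fin n) :=
  C ∩ insert c ((σ.map Prod.snd).toFinset ∪ (σ.filterMap Prod.fst).toFinset.biUnion U)

theorem TLI_Ub (adj : Nd n m → Nd n m → Prop) (C : Finset (Fin n)) (r : ℕ) (u : Fin n) :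
    ∀ c ∈ Ub adj C r u, u ∈ C ∧ c ∈ bl adj r u ∧ c ∈ C := fun c hc => by
  rw [Ub] at hc
  split_ifs at hc with h
  · exact ⟨h, Finset.mem_inter.1 hc⟩
  · exact absurd hc (Finset.notMem_empty c)

theorem TLI_co {H : Type} [NormedAddCommGroup H] [InnerProductSpace ℝ H] {P : Pb n m H} {k : Cst}
    (g : Gr P.adj k.Δ) {Z0 : Finset (Fin n)} {R r L : ℕ} (hG : P.Good k Z0 R)
    (hR : (2 * L + 1) * (2 * r + 3) ≤ R) (c : Fin n) {σ : List (St n)} (hσ : σ.length ≤ L) {t : ℝ}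
    (ht : k.κ0 + 1 ≤ t) : P.Co (Wt t (TLI_om Z0ᶜ (Ub P.adj Z0ᶜ r) c σ)) := by
  refine hG _ (Z0ᶜ ∩ insert c ((σ.map Prod.snd).toFinset ∪ (σ.filterMap Prod.fst).toFinset)) r
    Finset.inter_subset_left Finset.inter_subset_left (fun a ha => ?_)
    (le_trans (Nat.mul_le_mul_right _ ?_) hR) t ht
  · obtain ⟨h1, h2⟩ := Finset.mem_inter.1 ha
    have h3 : a ∈ bl P.adj r a := mem_bl.2 (g.near_refl r _)
    rcases Finset.mem_insert.1 h2 with h | h
    · exact ⟨a, Finset.mem_inter.2 ⟨h1, Finset.mem_insert.2 (Or.inl h)⟩, h3⟩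
    rcases Finset.mem_union.1 h with h | h
    · exact ⟨a, Finset.mem_inter.2 ⟨h1, Finset.mem_insert_of_mem (Finset.mem_union_left _ h)⟩, h3⟩
    · obtain ⟨u, h4, h5⟩ := Finset.mem_biUnion.1 h
      obtain ⟨h6, h7, -⟩ := TLI_Ub _ _ _ _ a h5
      exact ⟨u, Finset.mem_inter.2 ⟨h6, Finset.mem_insert_of_mem (Finset.mem_union_right _ h4)⟩,
        h7⟩
  · have h1 := (σ.map Prod.snd).toFinset_card_le
    have h2 := (σ.filterMap Prod.fst).toFinset_card_le
    have h3 := List.length_filterMap_le Prod.fst σ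
    have h4 := Finset.card_union_le (σ.map Prod.snd).toFinset (σ.filterMap Prod.fst).toFinset
    rw [List.length_map] at h1
    exact (Finset.card_le_card Finset.inter_subset_right).trans
      ((Finset.card_insert_le _ _).trans (by omega))

theorem TLI_pk (β : Bk n) (hp : 0 ≤ β.p) (hq : ∀ c, 0 ≤ β.q c) {k : Fin n → Fin n → ℝ}
    (hk : ∀ a b, 0 ≤ k a b) : ∀ (l : List Bool) (σ : List (St n)) (c : Fin n), 0 ≤ β.pk k l σ c
  | τ :: l, x :: σ, c =>
    mul_nonneg (mul_nonneg (β.w_nn hp hq τ x.1 c) (hk c x.2)) (TLI_pk β hp hq hk l σ x.2)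
  | [], _, _ => by simp [Bk.pk]
  | _ :: _, [], _ => zero_le_one

theorem TLI_sum (S : Finset (Fin n)) (S' : Finset (Nd n m)) (C : Finset (Fin n))
    {f : Nd n m → ℝ} (hf : ∀ b, 0 ≤ f b) (h : ∀ c ∈ C, c ∈ S → .inl c ∈ S') {T B : ℝ} (hT : 0 ≤ T)
    (hB : ∑ b ∈ S', f b ≤ B) :
    ∑ c ∈ S, (if c ∈ C then 2 * (T * f (.inl c)) else 0) ≤ 2 * T * B := by
  rw [← Finset.sum_filter, ← Finset.mul_sum, ← Finset.mul_sum, mul_assoc]
  refine mul_le_mul_of_nonneg_left (mul_le_mul_of_nonneg_left (le_trans ?_ hB) hT) zero_le_two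
  rw [← Finset.sum_image (f := f) fun _ _ _ _ => Sum.inl.inj]
  refine Finset.sum_le_sum_of_subset_of_nonneg (fun b hb => ?_) fun b _ _ => hf b
  obtain ⟨c, hc, rfl⟩ := Finset.mem_image.1 hb
  exact h c (Finset.mem_filter.1 hc).2 (Finset.mem_filter.1 hc).1

theorem stLI (hApp1 : StApp1) (hLI1 : StLI1) (hDREV : StDREV) (hDist : StDist)
    (hLongA : StLongA) (hLongB : StLongB) : StLI := by
  intro k n m H _ _ _ P hA κ Z0 R r ℓ l c hG hR hκ hκ' hc
  have h0 := hA.ok.h2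
  have hΔ : (1 : ℝ) ≤ k.Δ := Nat.one_le_cast.2 hA.ok.h1
  have hr : 2 * r + 3 ≤ R := le_trans (Nat.le_mul_of_pos_left _ (by omega)) hR
  have app := hApp1 k n m H P hA κ Z0 R r hG hr (by linarith)
  choose d d1 d2 d3 using fun a : Fin n => hDist _ P.adj k.Δ ℓ (.inl a) hA.gr hA.ok.h1
  have co := fun σ : List (St n) => TLI_co hA.gr hG hR c (List.length_take_le l.length σ) hκ
  have dr := fun σ : List (St n) => hDREV k n m H P hA (κ + 2) _ c (by linarith) (co σ)
    ((bd_Wt (by linarith) _).mono le_rfl (by linarith))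
  refine ⟨fun σ => ct c 1 (P.psn (Wt (κ / 2) (TLI_om Z0ᶜ (Ub P.adj Z0ᶜ r) c (σ.take l.length))) c),
    fun σ Z => (dr σ).2.2.2.2 _ (app Z).2.2.1 (app Z).2.2.2.1 κ _ (by linarith) hc, fun Z => ?_⟩
  obtain ⟨ok, hop, -⟩ := app Z
  have hT : (1 : ℝ) ≤ (2 * k.Δ) ^ (2 * r + 2) := one_le_pow₀ (by linarith)
  have hf : ∀ a b, (0 : ℝ) ≤ (2 * k.Δ : ℝ)⁻¹ ^ d a b := fun a b => by positivity
  set kk : Fin n → Fin n → ℝ := fun a b => if b ∈ Z0ᶜ then
    2 * ((2 * k.Δ : ℝ) ^ (2 * r + 2) * (2 * k.Δ : ℝ)⁻¹ ^ d a (.inl b)) else 0 with hkk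
  have hk : ∀ a b, 0 ≤ kk a b := fun a b => ite_nonneg (by positivity) le_rfl
  have hB := hLongB n (P.bz k κ Z0 r Z) kk (P.rel Z0 ℓ) (6 * (2 * k.Δ : ℝ) ^ (2 * r + 2))
    (4 * (2 * k.Δ : ℝ) ^ (2 * r + 2) * (1 / 2) ^ ℓ) ok.p0 ok.q0 hk (by linarith) (by positivity)
    (fun a => (TLI_sum _ _ Z0ᶜ (hf a) (fun _ _ _ => Finset.mem_univ _) (zero_le_one.trans hT)
      (d2 a)).trans_eq (by ring))
    (fun a => by
      refine (TLI_sum _ _ Z0ᶜ (hf a) (fun b hb h => ?_) (zero_le_one.trans hT) (d3 a)).trans_eq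
        (by ring)
      exact Finset.mem_filter.2 ⟨Finset.mem_univ _,
        fun h' => (Finset.mem_filter.1 h).2 ⟨hb, mem_bl.2 h'⟩⟩) l c
  refine le_trans ?_ (mul_le_mul_of_nonneg_left hB zero_le_two)
  rw [← sumS_mul]
  refine sumS_le _ fun σ hσ => ?_
  split_ifs
  · rw [mul_zero]
  obtain ⟨p0, -, p1, -⟩ := dr σ
  have hco := co σ
  simp only [List.take_of_length_le hσ.le] at p0 p1 hco ⊢
  set Ω := TLI_om Z0ᶜ (Ub P.adj Z0ᶜ r) c σ with hΩ
  have hcΩ : c ∈ Ω := Finset.mem_inter.2 ⟨hc, Finset.mem_insert_self _ _⟩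
  have li := hLI1 k n m H P hA κ Z0 Z Ω R r hG hr hκ hκ' Finset.inter_subset_left hco
    (‖ct c 10 (P.G (Wt (κ / 2) Ω) (one c))‖⁻¹ • one c) (smul_nn (by positivity) (one_nn c))
  rw [map_smul, ← Pb.psn] at li
  generalize P.psn (Wt (κ / 2) Ω) c = ψ at p0 p1 li ⊢
  have g1 : ct c 1 ψ ≤ prS Ω ψ := by
    have h1 : ct c 1 * prS Ω = ct c 1 := by
      have h2 : ct c 1 * pr c = ct c 1 := by rw [pr, ct_ct, min_eq_left (by norm_num)]
      rw [← h2, mul_assoc, pr_prS, if_pos hcΩ]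
    rw [← h1]
    exact ct_le c 1 (prS_pp Ω ψ p0)
  have hX := hLongA n (P.bz k κ Z0 r Z) kk Ω {o | ∀ u, o = some u → Ub P.adj Z0ᶜ r u ⊆ Ω} ψ
    ((P.bz k κ Z0 r Z).B (ct c 1 ψ)) 2 ok.p0 ok.q0 (fun o => (hop o).1) hk p0 zero_le_two
    (fun a ha => ((ct_pp a 3).mono (ok.pos.mono g1)).trans (li a ha).1)
    (fun a ha b hb o ho τ hw => by
      simp only [hkk, if_pos (Finset.mem_inter.1 hb).1]
      exact (li a ha).2 b hb o τ _ hw ho (d1 a _)) l σ c hcΩ hσ.symm fun s hs => by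
      refine ⟨fun u hu a ha => Finset.mem_inter.2 ⟨(TLI_Ub _ _ _ _ a ha).2.2,
        Finset.mem_insert_of_mem (Finset.mem_union_right _ (Finset.mem_biUnion.2
          ⟨u, List.mem_toFinset.2 (List.mem_filterMap.2 ⟨s, hs, hu⟩), ha⟩))⟩, ?_⟩
      by_cases h : s.2 ∈ Z0ᶜ
      · exact Or.inl (Finset.mem_inter.2 ⟨h, Finset.mem_insert_of_mem (Finset.mem_union_left _
          (List.mem_toFinset.2 (List.mem_map_of_mem hs)))⟩)
      · refine Or.inr fun o => ?_
        cases o with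
        | none =>
          change κ • (_ * _ * _ : Op n) * _ = 0
          rw [smul_mul_assoc, mul_assoc, prS_pr, if_neg h, mul_zero, smul_zero]
        | some u =>
          change κ • (_ * _ * (_ - _) : Op n) * _ = 0
          rw [smul_mul_assoc, mul_assoc, sub_mul, prS_pr, prS_pr, if_neg h,
            if_neg fun h' => h (TLI_Ub _ _ _ _ _ h').2.2, sub_zero, mul_zero, smul_zero]
  refine (inner_mono_right (ct_pp c 1 ψ p0) hX).trans ?_
  rw [real_inner_smul_right]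
  exact mul_le_of_le_one_right (mul_nonneg zero_le_two (TLI_pk _ ok.p0 ok.q0 hk l σ c)) p1

end Pool.Agent.MP_4f0ed6_gt.U

end
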