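import Pool.Agent.Mg.F4f0ed6a.G5bac69
import Pool.Agent.Mg.F4f0ed6a.Gb427fa
import Pool.Agent.Mg.F4f0ed6a.Ga5385d
import Pool.Agent.Mg.F4f0ed6a.G765808
import Pool.Agent.Mg.F4f0ed6a.G9bcae0
import Pool.Agent.Mg.F4f0ed6a.G62eecf
import Pool.Agent.Mg.F4f0ed6a.Gd4341a
import Pool.Agent.Mg.F4f0ed6a.G4abc7a
import Pool.Agent.Mg.F4f0ed6a.Gbbb015
import Pool.Agent.Mg.F4f0ed6a.G7f2408
import Pool.Agent.Mg.F4f0ed6a.G8c5e30
import Pool.Agent.Mg.F4f0ed6a.G57c681

section

set_option autoImplicit false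
set_option linter.dupNamespace false

open UpperHalfPlane MeasureTheory Set Metric Filter Topology
open scoped MatrixGroups ContDiff InnerProductSpace ENNReal Classical

namespace Pool.Agent.MP_4f0ed6_gt.U

theorem stPack : StPack := by
  obtain ⟨c, C, hc, hC, hv⟩ := vol_ball
  refine ⟨4 * C / c, by positivity, fun Γ p R a A h0 h1 h2 h3 hA hs => ?_⟩
  choose! g hg hg' using hA
  have hd : (A : Set ℍ).PairwiseDisjoint fun x => ball (g x • x) (a / 2) := fun x hx y hy hxy => by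
    refine ball_disjoint_ball ?_
    have := hs x hx y hy hxy ((g y)⁻¹ * g x) (Γ.mul_mem (Γ.inv_mem (hg y hy)) (hg x hx))
    rw [← dist_smul (g y), smul_smul, mul_inv_cancel_left] at this
    linarith
  have hsub : (⋃ x ∈ A, ball (g x • x) (a / 2)) ⊆ ball p (R + a) :=
    iUnion₂_subset fun x hx => ball_subset_ball' (by linarith [mem_closedBall.1 (hg' x hx)])
  have hfin : ∀ (z : ℍ) (ρ : ℝ), volume (ball z ρ) ≠ ⊤ := fun z ρ =>
    ne_top_of_le_ne_top (isCompact_vol (isCompact_closedBall z ρ))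
      (measure_mono ball_subset_closedBall)
  have h4 := measureReal_mono hsub (hfin _ _)
  rw [measureReal_biUnion_finset hd (fun _ _ => measurableSet_ball) fun _ _ => hfin _ _] at h4
  have h5 := (Finset.card_nsmul_le_sum A _ _ fun x _ =>
    (hv (g x • x) (a / 2) (by positivity) (by linarith)).1).trans
    (h4.trans (hv p (R + a) (by positivity) (by linarith)).2)
  rw [nsmul_eq_mul, ← le_div_iff₀ (by positivity)] at h5
  refine h5.trans_eq ?_
  field_simp
  ring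

end Pool.Agent.MP_4f0ed6_gt.U

end

section

set_option autoImplicit false
set_option linter.dupNamespace false

open UpperHalfPlane MeasureTheory Set Metric Filter Topology
open scoped MatrixGroups

namespace Pool.Agent.MP_4f0ed6_gt.U

/-- `β` acts as the dilation by `exp t` in the coordinate `g` -/
def tCT_Dil (g β : SL(2, ℝ)) (t : ℝ) : Prop :=
  ∀ w : ℍ, ((g • β • w : ℍ) : ℂ) = (Real.exp t : ℂ) * ((g • w : ℍ) : ℂ)

theorem tCT_one (g : SL(2, ℝ)) : tCT_Dil g 1 0 := fun w => by simp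

theorem tCT_mul {g β β' : SL(2, ℝ)} {t t' : ℝ} (h : tCT_Dil g β t) (h' : tCT_Dil g β' t') :
    tCT_Dil g (β * β') (t + t') := fun w => by
  rw [mul_smul, h, h', Real.exp_add, Complex.ofReal_mul, mul_assoc]

theorem tCT_inv {g β : SL(2, ℝ)} {t : ℝ} (h : tCT_Dil g β t) : tCT_Dil g β⁻¹ (-t) := fun w => by
  have e := h (β⁻¹ • w)
  rw [smul_inv_smul] at e
  rw [e, ← mul_assoc, ← Complex.ofReal_mul, ← Real.exp_add, neg_add_cancel, Real.exp_zero,
    Complex.ofReal_one, one_mul]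

theorem tCT_zpow {g β : SL(2, ℝ)} {t : ℝ} (h : tCT_Dil g β t) (k : ℤ) :
    tCT_Dil g (β ^ k) (k • t) := by
  induction k using Int.induction_on with
  | zero => simpa using tCT_one g
  | succ k ih =>
    rw [zpow_add_one, add_smul, one_smul]
    exact tCT_mul ih h
  | pred k ih =>
    rw [zpow_sub_one, sub_smul, one_smul, sub_eq_add_neg]
    exact tCT_mul ih (tCT_inv h)

theorem tCT_dist {g β : SL(2, ℝ)} {t : ℝ} (h : tCT_Dil g β t) :
    dist (β • (g⁻¹ • (I : ℍ))) (g⁻¹ • (I : ℍ)) = |t| := by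
  have e := h (g⁻¹ • (I : ℍ))
  rw [smul_inv_smul] at e
  rw [← dist_smul g, smul_inv_smul]
  have h1 : (g • β • g⁻¹ • (I : ℍ)).re = (I : ℍ).re := by
    rw [← coe_re, e]
    simp [-Complex.ofReal_exp]
  have h2 : (g • β • g⁻¹ • (I : ℍ)).im = Real.exp t := by
    rw [← coe_im, e]
    simp [-Complex.ofReal_exp]
  rw [dist_of_re_eq h1, h2, Real.log_exp, I_im, Real.log_one, Real.dist_eq, sub_zero]

theorem tCT_inj {Γ : Subgroup SL(2, ℝ)} {F : Set ℍ} (H : Closed Γ F) {g β β' : SL(2, ℝ)} {t : ℝ}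
    (hβ : β ∈ Γ) (hβ' : β' ∈ Γ) (h : tCT_Dil g β t) (h' : tCT_Dil g β' t) : β = β' := by
  have e := tCT_dist (tCT_mul (tCT_inv h') h)
  rw [neg_add_cancel, abs_zero, dist_eq_zero] at e
  exact (inv_mul_eq_one.1 (H.free (Γ.mul_mem (Γ.inv_mem hβ') hβ) e)).symm

theorem stCT (hDiag : StDiag) : StCT := by
  intro Γ F H α hα h1
  obtain ⟨g, hg⟩ := hDiag α (H.hyp α hα h1)
  have hd : ∀ β : SL(2, ℝ), β * α = α * β → ∃ t, tCT_Dil g β t := fun β hβ => by
    obtain ⟨μ, h0, hμ⟩ := hg β hβ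
    exact ⟨Real.log μ, fun w => by rw [Real.exp_log h0, hμ]⟩
  let S : AddSubgroup ℝ :=
    { carrier := {t | ∃ β ∈ Γ, Commute β α ∧ tCT_Dil g β t}
      add_mem' := by
        rintro _ _ ⟨β, a1, a2, a3⟩ ⟨β', b1, b2, b3⟩
        exact ⟨β * β', Γ.mul_mem a1 b1, a2.mul_left b2, tCT_mul a3 b3⟩
      zero_mem' := ⟨1, Γ.one_mem, Commute.one_left α, tCT_one g⟩
      neg_mem' := by
        rintro _ ⟨β, a1, a2, a3⟩
        exact ⟨β⁻¹, Γ.inv_mem a1, a2.inv_left, tCT_inv a3⟩ }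
  obtain ⟨t0, ht0⟩ := hd α rfl
  have hS0 : t0 ∈ S := ⟨α, hα, rfl, ht0⟩
  have hne : t0 ≠ 0 := by
    rintro rfl
    exact h1 (tCT_inj H hα Γ.one_mem ht0 (tCT_one g))
  have hS1 : |t0| ∈ S := abs_mem_iff.2 hS0
  have hfin : {t | (t ∈ S ∧ 0 < t) ∧ t ≤ |t0|}.Finite := by
    refine ((H.finite (isCompact_singleton (x := g⁻¹ • (I : ℍ)))
      (isCompact_closedBall (g⁻¹ • (I : ℍ)) |t0|)).image
      fun γ : Γ => dist ((γ : SL(2, ℝ)) • (g⁻¹ • (I : ℍ))) (g⁻¹ • (I : ℍ))).subset ?_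
    rintro t ⟨⟨⟨β, a1, -, a3⟩, a4⟩, a5⟩
    have e := tCT_dist a3
    rw [abs_of_pos a4] at e
    exact ⟨⟨β, a1⟩, ⟨_, rfl, mem_closedBall.2 (e.le.trans a5)⟩, e⟩
  obtain ⟨a, ⟨⟨ha1, ha2⟩, ha3⟩, hmin⟩ := hfin.exists_minimal
    ⟨|t0|, ⟨hS1, abs_pos.2 hne⟩, le_rfl⟩
  have hl : IsLeast {t | t ∈ S ∧ 0 < t} a := ⟨⟨ha1, ha2⟩, fun t ht => by
    by_contra hc
    have hc' := (not_le.1 hc).le
    exact hc (hmin ⟨ht, hc'.trans ha3⟩ hc')⟩
  have hcyc := AddSubgroup.cyclic_of_min hl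
  obtain ⟨γ, c1, c2, c3⟩ := ha1
  have key : ∀ β ∈ Γ, β * α = α * β → ∃ k : ℤ, β = γ ^ k := fun β hβ hc => by
    obtain ⟨t, ht⟩ := hd β hc
    have hm : t ∈ S := ⟨β, hβ, hc, ht⟩
    rw [hcyc, AddSubgroup.mem_closure_singleton] at hm
    obtain ⟨k, rfl⟩ := hm
    exact ⟨k, tCT_inj H hβ (Γ.zpow_mem c1 k) ht (tCT_zpow c3 k)⟩
  obtain ⟨k, hk⟩ := key α hα rfl
  refine ⟨⟨γ, g, Real.exp a⟩, ⟨⟨Real.one_lt_exp_iff.2 ha2, c3⟩, c1, fun β hβ hc => key β hβ ?_⟩,
    k, hk⟩
  rw [hk]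
  exact (Commute.zpow_right hc k).eq

end Pool.Agent.MP_4f0ed6_gt.U

end

section

set_option autoImplicit false
set_option linter.dupNamespace false

open UpperHalfPlane MeasureTheory Set Metric Filter Topology
open scoped MatrixGroups ContDiff InnerProductSpace ENNReal Classical

namespace Pool.Agent.MP_4f0ed6_gt.U

theorem stCb (hMk : StMk) (hPack : StPack) (hIo : StIo) (hSweep : StSweep) : StCb := by
  intro e he he2
  obtain ⟨Δ0, hMk⟩ := hMk
  obtain ⟨M0, hM0, hP⟩ := hPack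
  obtain ⟨M, hM, hM3⟩ : ∃ M : ℕ, 3 * (M0 * 801 ^ 2) ≤ (M : ℝ) ∧ 3 ≤ M :=
    ⟨3 + ⌈3 * (M0 * 801 ^ 2)⌉₊, by
      have := Nat.le_ceil (3 * (M0 * 801 ^ 2))
      push_cast
      linarith, Nat.le_add_right _ _⟩
  refine ⟨Δ0 + M, M, Nat.cast_nonneg _, fun X hX hMg hps hτ => ?_⟩
  obtain ⟨τ, hτ, hn⟩ := hτ
  obtain ⟨tb, p, h1, h2, h3, h4, h5⟩ := hSweep X hX e he hMg τ hτ hn
  obtain ⟨i1, i2, i3, i4, -, -, i7⟩ := hIo X.Γ X.F hX.cl e he
  have key : ∀ A : Finset ℍ, Sep X.Γ (fun w => io X.Γ e w / 400) A → (∀ w ∈ A, ∀ t, w ∉ tb t) →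
      (A.card : ℝ) ≤ M := by
    intro A hS hA
    obtain ⟨B, hB⟩ : ∃ B : Fin 3 → Finset ℍ, ∀ i w, w ∈ B i ↔ w ∈ A ∧
        io X.Γ e w = io X.Γ e (p i) ∧ w ∈ orb X.Γ (closedBall (p i) (io X.Γ e (p i))) :=
      ⟨fun i => A.filter fun w => io X.Γ e w = io X.Γ e (p i) ∧
        w ∈ orb X.Γ (closedBall (p i) (io X.Γ e (p i))), fun i w => Finset.mem_filter⟩
    have hc : ∀ i, ((B i).card : ℝ) ≤ M0 * 801 ^ 2 := fun i => by
      have a1 := i1 (p i)
      have a2 := i2 (p i)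
      have h := hP X.Γ (p i) (io X.Γ e (p i)) (io X.Γ e (p i) / 800) (B i) a1.le (by linarith)
        (by linarith) (by linarith) (fun x hx => ((hB i x).1 hx).2.2) (fun x hx y hy hne γ hγ => by
          have h := hS x ((hB i x).1 hx).1 y ((hB i y).1 hy).1 hne γ hγ
          simp only [((hB i x).1 hx).2.1, ((hB i y).1 hy).2.1, min_self] at h
          linarith)
      have e1 : 1 + io X.Γ e (p i) / (io X.Γ e (p i) / 800) = 801 := by
        field_simp
        norm_num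
      rwa [e1] at h
    have hs : A ⊆ Finset.univ.biUnion B := fun w hw => by
      obtain ⟨i, hi⟩ := h5 w (hA w hw)
      exact Finset.mem_biUnion.2 ⟨i, Finset.mem_univ _, (hB i w).2 ⟨hw, hi⟩⟩
    have h6 : A.card ≤ (B 0).card + (B 1).card + (B 2).card := by
      have := (Finset.card_le_card hs).trans Finset.card_biUnion_le
      rwa [Fin.sum_univ_three] at this
    have h7 : (A.card : ℝ) ≤ (B 0).card + (B 1).card + (B 2).card := by exact_mod_cast h6
    linarith [hc 0, hc 1, hc 2]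
  obtain ⟨n, K, hK, hn⟩ := hMk X hX (fun w => io X.Γ e w / 400) 3 tb M M
    (fun γ hγ z => by simp only [i4 γ hγ z]) (fun w => by linarith [i1 w])
    (fun w => by linarith [i2 w]) (fun w w' => by
      rw [← sub_div, abs_div, abs_of_pos (by norm_num : (0 : ℝ) < 400)]
      linarith [i3 w w']) h1 h2 h3 h4 (fun w _ => by
      have e1 : 40 * (io X.Γ e w / 400) = io X.Γ e w / 10 := by ring
      simp only [e1]
      refine ⟨i7 w _ (by linarith [i1 w]), hps w, le_trans ?_ hM3⟩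
      have := Set.ncard_le_card {t : Fin 3 | (ball w (io X.Γ e w / 10) ∩ tb t).Nonempty}
      rwa [Nat.card_fin] at this) key
    (fun _ A hS hA _ => by exact_mod_cast key A hS hA)
  refine ⟨n, 3, K, hK, hn.trans ?_⟩
  have : (0 : ℝ) ≤ volume.real X.F := measureReal_nonneg
  have h0 : (0 : ℝ) ≤ M := Nat.cast_nonneg _
  nlinarith

end Pool.Agent.MP_4f0ed6_gt.U

end

section

set_option autoImplicit false
set_option linter.dupNamespace false
set_option linter.unusedVariables false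

open UpperHalfPlane MeasureTheory Set Metric Filter Topology
open scoped MatrixGroups ContDiff InnerProductSpace ENNReal Classical

namespace Pool.Agent.MP_4f0ed6_gt.U

theorem stTl (hTube : StTube) (hNF : StNF) : StTl := by
  intro Γ F H e h0 hMg
  obtain ⟨-, -, h3, -, h5⟩ := hTube Γ F H e h0 hMg
  have h10 : 0 < e / 10 := by positivity
  have hS : {U : Set ℍ | U.Nonempty ∧ ∃ τ : Tb, τ.Ok Γ ∧ τ.T Γ e = U}.Finite := by
    obtain ⟨c, -, hc, hF⟩ := finite_cover_balls_of_compact H.cpt h10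
    refine (hc.biUnion (t := fun x => {U : Set ℍ | (ball x (e / 10) ∩ U).Nonempty ∧
      ∃ τ : Tb, τ.Ok Γ ∧ τ.T Γ e = U}) fun x _ => Set.Subsingleton.finite ?_).subset ?_
    · rintro _ ⟨h1, τ, hτ, rfl⟩ _ ⟨h2, τ', hτ', rfl⟩
      exact h5 τ τ' hτ hτ' x h1 h2
    · rintro _ ⟨⟨w, hw⟩, τ, hτ, rfl⟩
      obtain ⟨γ, hγ, h1⟩ := H.cov w
      obtain ⟨x, hx, h2⟩ := mem_iUnion₂.1 (hF h1)
      exact mem_iUnion₂.2 ⟨x, hx, ⟨γ • w, h2, invS_orb _ _ γ hγ w hw⟩, τ, hτ, rfl⟩
  obtain ⟨m, f, hf, hr⟩ := hS.fin_param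
  choose τ t1 t2 using fun t => (hr.subset (mem_range_self t)).2
  have t3 : ∀ t t', t ≠ t' → (τ t).T Γ e ≠ (τ t').T Γ e := fun t t' h h' =>
    h (hf ((t2 t).symm.trans (h'.trans (t2 t'))))
  refine ⟨m, τ, t1, t3, fun t t' h => disjoint_left.2 fun w h1 h2 => t3 t t' h
    (h5 _ _ (t1 t) (t1 t') w ⟨w, mem_ball_self h10, h1⟩ ⟨w, mem_ball_self h10, h2⟩),
    fun w => (h3 w).trans ⟨fun ⟨τ', h1, h2⟩ => ?_, fun ⟨t, h⟩ => ⟨τ t, t1 t, h⟩⟩⟩
  obtain ⟨t, ht⟩ := hr.symm.subset ⟨⟨w, h2⟩, τ', h1, rfl⟩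
  exact ⟨t, by rwa [t2, ht]⟩

end Pool.Agent.MP_4f0ed6_gt.U

end

section

set_option autoImplicit false
set_option linter.dupNamespace false

open UpperHalfPlane MeasureTheory Set Metric Filter Topology
open scoped MatrixGroups ContDiff InnerProductSpace ENNReal Classical

namespace Pool.Agent.MP_4f0ed6_gt.U

theorem TRoot_en {u : ℍ → ℝ} (hu : Sm u) {ε : ℝ} (hε : 0 < ε) (w : ℍ) :
    en (fun w => √(u w ^ 2 + ε ^ 2)) (fun w => √(u w ^ 2 + ε ^ 2)) w ≤ en u u w := by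
  have h0 : 0 < u w ^ 2 + ε ^ 2 := by positivity
  have h1 : HasDerivAt (fun t : ℝ => √(t ^ 2 + ε ^ 2)) (u w / √(u w ^ 2 + ε ^ 2)) (u w) := by
    have h2 := (((hasDerivAt_id (u w)).fun_pow 2).add_const (ε ^ 2)).sqrt h0.ne'
    refine h2.congr_deriv ?_
    simp only [id]
    field_simp
    simp
  rw [en_comp hu h1, en_comm, en_comp hu h1, ← mul_assoc, ← sq, div_pow, Real.sq_sqrt h0.le]
  exact mul_le_of_le_one_left (en_nn u w) (div_le_one_of_le₀ (by nlinarith) h0.le)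

theorem stRoot : StRoot := by
  intro Δ X n m K H _ _ _ P j Rx Ry hX _ hR W
  refine ⟨|∫ a, W a ∂nu n|, abs_nonneg _, fun u ε hε => ?_⟩
  have h0 : ∀ w, 0 < u.1 w ^ 2 + ε ^ 2 := fun w => by positivity
  have hv : (fun w => √(u.1 w ^ 2 + ε ^ 2)) ∈ SI X.Γ :=
    SI_comp u.2 (φ := fun t => √(t ^ 2 + ε ^ 2)) fun w =>
      ContDiffAt.sqrt (by fun_prop) (h0 w).ne'
  have hI : ∀ a : SI X.Γ, IntegrableOn (fun z => en a.1 a.1 z - X.V z * (a.1 z * a.1 z)) X.F :=
    fun a => hX.cl.integrableOn ((continuous_en a.2.1 a.2.1).sub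
      (hX.Vm.1.continuous.mul (a.2.1.continuous.mul a.2.1.continuous)))
  refine ⟨⟨_, hv⟩, fun _ => rfl, ?_, ?_, ?_⟩
  · have h1 : P.Qb (j ⟨_, hv⟩) (j ⟨_, hv⟩) ≤ P.Qb (j u) (j u) := by
      rw [hR.hQ, hR.hQ]
      refine integral_mono (hI ⟨_, hv⟩) (hI u) fun z => sub_le_sub (TRoot_en u.2.1 hε z) ?_
      refine mul_le_mul_of_nonneg_left ?_ (hX.Vp z).le
      rw [Real.mul_self_sqrt (h0 z).le]
      nlinarith
    have h2 : ⟪mul W (P.R (j ⟨_, hv⟩)), P.R (j ⟨_, hv⟩)⟫_ℝ =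
        ⟪mul W (P.R (j u)), P.R (j u)⟫_ℝ + (∫ a, W a ∂nu n) * ε ^ 2 := by
      rw [BT1a_inner, BT1a_inner, ← integral_mul_const, ← integral_add (BT1a_int _ _)
        (((Lp.memLp W).integrable le_top).mul_const _)]
      refine integral_congr_ae ?_
      filter_upwards [mul_ae W (P.R (j ⟨_, hv⟩)), mul_ae W (P.R (j u)), hR.r1.hR u,
        hR.r1.hR ⟨_, hv⟩] with a a1 a2 a3 a4
      rw [a1, a2, a3, a4, mul_assoc, Real.mul_self_sqrt (h0 _).le]
      ring
    rw [Pb.q_apply, Pb.q_apply, h2]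
    linarith [mul_le_mul_of_nonneg_right (le_abs_self (∫ a, W a ∂nu n)) (sq_nonneg ε)]
  · rw [BT1a_le]
    filter_upwards [hR.r1.hR u, hR.r1.hR ⟨_, hv⟩] with a a3 a4
    rw [a3, a4]
    exact Real.le_sqrt_of_sq_le (by nlinarith)
  · rw [BT1a_nn]
    filter_upwards [hR.r1.hR ⟨_, hv⟩] with a a4
    rw [a4]
    exact Real.sqrt_nonneg _

end Pool.Agent.MP_4f0ed6_gt.U

end

section

set_option autoImplicit false
set_option linter.dupNamespace false

open UpperHalfPlane MeasureTheory Set Metric Filter Topology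
open scoped MatrixGroups ContDiff InnerProductSpace ENNReal

namespace Pool.Agent.MP_4f0ed6_gt.U

theorem TApc_sqrt (a b a' b' : ℝ) :
    |√(a ^ 2 + b ^ 2) - √(a' ^ 2 + b' ^ 2)| ≤ |a - a'| + |b - b'| := by
  have h := abs_norm_sub_norm_le (⟨a, b⟩ : ℂ) ⟨a', b'⟩
  have h2 := Complex.norm_le_abs_re_add_abs_im ((⟨a, b⟩ : ℂ) - ⟨a', b'⟩)
  rw [Complex.norm_eq_sqrt_sq_add_sq, Complex.norm_eq_sqrt_sq_add_sq] at h
  exact h.trans h2

theorem TApc_gr {f g : ℕ → ℂ → ℝ} {f' g' : ℂ → ℝ} (hf : ∀ k, AEStronglyMeasurable (f k) mu)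
    (hg : ∀ k, AEStronglyMeasurable (g k) mu) (hf' : AEStronglyMeasurable f' mu)
    (hg' : AEStronglyMeasurable g' mu)
    (h1 : Tendsto (fun k => eLpNorm (f k - f') 2 mu) atTop (𝓝 0))
    (h2 : Tendsto (fun k => eLpNorm (g k - g') 2 mu) atTop (𝓝 0)) :
    Tendsto (fun k => eLpNorm ((fun y => √(f k y ^ 2 + g k y ^ 2)) -
      fun y => √(f' y ^ 2 + g' y ^ 2)) 2 mu) atTop (𝓝 0) := by
  have h3 := h1.add h2
  rw [add_zero] at h3
  refine tendsto_of_tendsto_of_tendsto_of_le_of_le tendsto_const_nhds h3 (fun _ => zero_le)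
    fun k => ?_
  calc _ ≤ eLpNorm ((fun y => ‖(f k - f') y‖) + fun y => ‖(g k - g') y‖) 2 mu :=
        eLpNorm_mono_real fun y => TApc_sqrt _ _ _ _
    _ ≤ eLpNorm (fun y => ‖(f k - f') y‖) 2 mu + eLpNorm (fun y => ‖(g k - g') y‖) 2 mu :=
        eLpNorm_add_le ((hf k).sub hf').norm ((hg k).sub hg').norm (by norm_num)
    _ = _ := by rw [eLpNorm_norm, eLpNorm_norm]

theorem TApc_ball : ∀ᵐ y ∂mu, ‖y‖ < 20 :=
  (ae_restrict_mem measurableSet_ball).mono fun y hy => by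
    have := mem_ball_zero_iff.1 hy
    linarith

theorem stApc : StApc := by
  intro Δ X n m K H _ _ _ P j Rx Ry _ hK hR a u hu ha c
  have t0 : Tendsto (fun k => eLpNorm ((fun y => (u k).1 (K.pt c y)) -
      fun y => P.R a (c, y)) 2 mu) atTop (𝓝 0) :=
    tendsto_slice ((P.R.continuous.tendsto a).comp ha) c fun k => ae_slice (hR.r1.hR (u k)) c
  have t1 : Tendsto (fun k => eLpNorm (dx (fun y => (u k).1 (K.pt c y)) -
      fun y => Rx a (c, y)) 2 mu) atTop (𝓝 0) :=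
    tendsto_slice ((Rx.continuous.tendsto a).comp ha) c fun k => ae_slice (hR.r1.hx (u k)) c
  have t2 : Tendsto (fun k => eLpNorm (dy (fun y => (u k).1 (K.pt c y)) -
      fun y => Ry a (c, y)) 2 mu) atTop (𝓝 0) :=
    tendsto_slice ((Ry.continuous.tendsto a).comp ha) c fun k => ae_slice (hR.r1.hy (u k)) c
  have hs : ∀ k, Sm (u k).1 := fun k => (u k).2.1
  refine ⟨?_, t0, t1, t2, TApc_gr (fun k => ((hs k).memLp_dx (hK.s0 c) (hK.s1 c)).1.1)
    (fun k => ((hs k).memLp_dx (hK.s0 c) (hK.s1 c)).2.1) (memLp_slice (Rx a) c).1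
    (memLp_slice (Ry a) c).1 t1 t2⟩
  have hm : TendstoInMeasure mu (fun k y => (u k).1 (K.pt c y)) atTop fun y => P.R a (c, y) :=
    tendstoInMeasure_of_tendsto_eLpNorm (by norm_num)
      (fun k => (memLp_ch (hK.s0 c) (hK.s1 c) (hs k).continuous).1) (memLp_slice (P.R a) c).1 t0
  obtain ⟨φ, hφ, hae⟩ := hm.exists_seq_tendsto_ae
  choose g hg1 hg2 hg3 using fun k => (hs k).exists_glob (z := K.z c) (hK.s0 c) (hK.s1 c)
  refine ⟨fun k => g (φ k), fun k => hg1 _, fun k => hg3 _ (hu _), memLp_slice _ c,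
    memLp_slice _ c, memLp_slice _ c, ?_, ?_, ?_, ?_⟩
  · refine (t0.comp hφ.tendsto_atTop).congr fun k => eLpNorm_congr_ae ?_
    filter_upwards [TApc_ball] with y hy
    simp only [Pi.sub_apply, (hg2 (φ k) y hy).eq_of_nhds]
    rfl
  · refine (t1.comp hφ.tendsto_atTop).congr fun k => eLpNorm_congr_ae ?_
    filter_upwards [TApc_ball] with y hy
    simp only [Pi.sub_apply, dx_congr (hg2 (φ k) y hy)]
    rfl
  · refine (t2.comp hφ.tendsto_atTop).congr fun k => eLpNorm_congr_ae ?_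
    filter_upwards [TApc_ball] with y hy
    simp only [Pi.sub_apply, dy_congr (hg2 (φ k) y hy)]
    rfl
  · filter_upwards [TApc_ball, hae] with y hy h
    exact h.congr fun k => ((hg2 (φ k) y hy).eq_of_nhds).symm

end Pool.Agent.MP_4f0ed6_gt.U

end

section

set_option autoImplicit false
set_option linter.dupNamespace false

open UpperHalfPlane MeasureTheory Set Metric Filter Topology
open scoped MatrixGroups ContDiff InnerProductSpace ENNReal Classical

namespace Pool.Agent.MP_4f0ed6_gt.U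

theorem stTest (hTrf : StTrf) : StTest := by
  intro Δ X n m K H _ _ _ P j Rx Ry hX hK hR c η hη hs hp
  have h0 := hK.s0 c
  have h1 := hK.s1 c
  obtain ⟨sp, cs⟩ := push_supp (z := K.z c) h0 h1 (by norm_num : (16 : ℝ) ≤ 20) hs
  have sm : Sm (push (K.z c) (K.s c) η) := push_sm hη _ _
  have φ0 : ∀ w, 0 ≤ push (K.z c) (K.s c) η w := fun w => hp _
  have mem := hX.cl.per_mem sm cs
  have nn : ∀ u : SI X.Γ, (∀ w, 0 ≤ u.1 w) → 0 ≤ P.R (j u) := fun u hu =>
    (Lp.coeFn_nonneg _).1 ((hR.r1.hR u).mono fun y hy => by rw [hy]; exact hu _)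
  refine ⟨⟨_, mem⟩, nn _ (per_nn φ0), fun K0 W hK0 hW u hu => ?_⟩
  have lt : ∀ y ∈ ball (0 : ℂ) 16, ‖y‖ < 20 ∧ ‖y‖ < 40 := fun y hy => by
    have := mem_ball_zero_iff.1 hy
    constructor <;> linarith
  have e1 : X.Q u.1 (per X.Γ (push (K.z c) (K.s c) η)) ≤
      ∫ y in ball (0 : ℂ) 16, (dx (fun y => u.1 (K.pt c y)) y * dx η y +
        dy (fun y => u.1 (K.pt c y)) y * dy η y) := by
    rw [hX.Q_eq u.2.1 mem.1, hX.cl.unfold_en sm cs u.2,
      ← setIntegral_eq_integral_of_forall_compl_eq_zero (s := Dk (K.z c) (K.s c) 16)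
        fun w hw => by rw [en_comm]; exact en_eq_zero (fun h => hw (sp h)) _,
      integral_en_Dk h0 h1 (by norm_num) u.2.1 sm]
    refine (sub_le_self _ (integral_nonneg fun w =>
      mul_nonneg (hX.Vp w).le (mul_nonneg (hu w) (per_nn φ0 w)))).trans_eq
      (setIntegral_congr_fun measurableSet_ball fun y hy => ?_)
    have e := push_ch' (z := K.z c) (η := η) h0 h1 (lt y hy).2
    simp only [dx_congr e, dy_congr e]
    rfl
  have e2 : ⟪P.R (j u), P.R (j ⟨_, mem⟩)⟫_ℝ ≤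
      36 * Δ * ∫ y in ball (0 : ℂ) 16, u.1 (K.pt c y) * η y := by
    have t := (hTrf Δ X n m K hX hK).1 c 16
      (fun w => u.1 w * per X.Γ (push (K.z c) (K.s c) η) w) (by norm_num)
      (u.2.1.continuous.mul mem.1.continuous) (SI_mul u.2 mem).2
      (fun w => mul_nonneg (hu w) (per_nn φ0 w)) fun w hw => by
        rw [image_eq_zero_of_notMem_tsupport (f := per X.Γ (push (K.z c) (K.s c) η))
          fun h => hw (orb_mono sp (hX.cl.tsupport_per cs h)), mul_zero]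
    rw [inner_eq_sum]
    refine le_of_eq_of_le (Finset.sum_congr rfl fun c' _ => integral_congr_ae ?_) (t.trans_eq ?_)
    · filter_upwards [ae_slice (hR.r1.hR u) c', ae_slice (hR.r1.hR ⟨_, mem⟩) c'] with y a b
      rw [a, b]
    · refine congrArg _ (setIntegral_congr_fun measurableSet_ball fun y hy => ?_)
      have e := per_emb (hK.emb c) (sp.trans (Dk_mono h0 (by norm_num)))
        (ch_mem_Dk (z := K.z c) h0 h1 (by norm_num : (20 : ℝ) ≤ 40) (lt y hy).1)
      rw [push_ch h0 h1 (lt y hy).2] at e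
      exact congrArg (u.1 (K.pt c y) * ·) e
  have e3 := inner_mul_le_sum hW (nn u hu) (nn ⟨_, mem⟩ (per_nn φ0))
  have d := u.2.1.memLp_dx (z := K.z c) h0 h1
  have i1 : Integrable (fun y => dx (fun y => u.1 (K.pt c y)) y * dx η y +
      dy (fun y => u.1 (K.pt c y)) y * dy η y) mu :=
    (d.1.integrable_mul (memLp_mu (p := 2) (contDiff_dx hη).continuous)).add
      (d.2.integrable_mul (memLp_mu (p := 2) (contDiff_dy hη).continuous))
  have i2 : Integrable (fun y => u.1 (K.pt c y) * η y) mu :=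
    (memLp_ch (z := K.z c) h0 h1 u.2.1.continuous).integrable_mul
      (memLp_mu (p := 2) hη.continuous)
  rw [Pb.q_apply, hR.hQ, integral_add i1 (i2.const_mul _), integral_const_mul]
  refine add_le_add e1 (e3.trans ((mul_le_mul_of_nonneg_left e2 hK0).trans_eq ?_))
  rw [mu]
  ring

end Pool.Agent.MP_4f0ed6_gt.U

end

section

set_option autoImplicit false
set_option linter.dupNamespace false

open UpperHalfPlane MeasureTheory Set Metric Filter Topology
open scoped MatrixGroups ContDiff InnerProductSpace ENNReal Classical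

namespace Pool.Agent.MP_4f0ed6_gt.U

theorem TSup_lim {f : ℕ → ℂ → ℝ} {f' h : ℂ → ℝ} (hf : ∀ k, MemLp (f k) 2 mu)
    (hf' : MemLp f' 2 mu) (hh : MemLp h 2 mu)
    (h1 : Tendsto (fun k => eLpNorm (f k - f') 2 mu) atTop (𝓝 0)) :
    Tendsto (fun k => ∫ y, f k y * h y ∂mu) atTop (𝓝 (∫ y, f' y * h y ∂mu)) :=
  tendsto_int_mul (A := ball 0 16) (g := fun _ => h) measurableSet_ball Subset.rfl hf
    (fun _ => hh) hf' hh h1 (by simp)

theorem TSup_split {a b c a' b' c' : ℂ → ℝ} (ha : MemLp a 2 mu) (hb : MemLp b 2 mu)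
    (hc : MemLp c 2 mu) (ha' : MemLp a' 2 mu) (hb' : MemLp b' 2 mu) (hc' : MemLp c' 2 mu)
    (C : ℝ) : ∫ y, (a y * a' y + b y * b' y + C * (c y * c' y)) ∂mu =
      (∫ y, a y * a' y ∂mu) + (∫ y, b y * b' y ∂mu) + C * ∫ y, c y * c' y ∂mu := by
  have h1 : Integrable (fun y => a y * a' y) mu := ha.integrable_mul ha'
  have h2 : Integrable (fun y => b y * b' y) mu := hb.integrable_mul hb'
  have h3 : Integrable (fun y => c y * c' y) mu := hc.integrable_mul hc'
  have h4 : Integrable (fun y => a y * a' y + b y * b' y) mu := h1.add h2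
  rw [integral_add h4 (h3.const_mul C), integral_add h1 h2, integral_const_mul]

theorem stSup (hApx : StApx) (hApc : StApc) (hTest : StTest) : StSup := by
  intro Δ X n m K H _ _ _ P j Rx Ry hX hK hR K0 W hK0 hW hB x hx c
  obtain ⟨-, u, hu, hl⟩ := hApx Δ X n m K H P j Rx Ry hX hK hR W hW x hx
  obtain ⟨h0, h1, h2, h3, -⟩ := hApc Δ X n m K H P j Rx Ry hX hK hR (P.sol W x) u hu hl c
  refine ⟨h0, fun η hη hs hn => ?_⟩
  obtain ⟨ψ, hψ, ht⟩ := hTest Δ X n m K H P j Rx Ry hX hK hR c η hη hs hn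
  have m0 : MemLp η 2 mu := memLp_mu hη.continuous
  have m1 : MemLp (dx η) 2 mu := memLp_mu (contDiff_dx hη).continuous
  have m2 : MemLp (dy η) 2 mu := memLp_mu (contDiff_dy hη).continuous
  have k0 : ∀ k, MemLp (fun y => (u k).1 (K.pt c y)) 2 mu := fun k =>
    (memLp_slice (P.R (j (u k))) c).ae_eq (ae_slice (hR.r1.hR (u k)) c)
  have k1 : ∀ k, MemLp (dx fun y => (u k).1 (K.pt c y)) 2 mu := fun k =>
    (memLp_slice (Rx (j (u k))) c).ae_eq (ae_slice (hR.r1.hx (u k)) c)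
  have k2 : ∀ k, MemLp (dy fun y => (u k).1 (K.pt c y)) 2 mu := fun k =>
    (memLp_slice (Ry (j (u k))) c).ae_eq (ae_slice (hR.r1.hy (u k)) c)
  have l0 := memLp_slice (P.R (P.sol W x)) c
  have l1 := memLp_slice (Rx (P.sol W x)) c
  have l2 := memLp_slice (Ry (P.sol W x)) c
  have t1 := ((TSup_lim k1 l1 m1 h2).add (TSup_lim k2 l2 m2 h3)).add
    ((TSup_lim k0 l0 m0 h1).const_mul (36 * Δ * K0))
  have t2 : Tendsto (fun k => P.q W (j (u k)) (j ψ)) atTop (𝓝 (P.q W (P.sol W x) (j ψ))) :=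
    (((P.q W).flip (j ψ)).continuous.tendsto _).comp hl
  have t3 := le_of_tendsto_of_tendsto' t2 t1 fun k =>
    (ht K0 W hK0 hB (u k) (hu k)).trans_eq (TSup_split (k1 k) (k2 k) (k0 k) m1 m2 m0 _)
  rw [hW.sol_spec, ← TSup_split l1 l2 l0 m1 m2 m0] at t3
  exact (inner_nn hx hψ).trans t3

end Pool.Agent.MP_4f0ed6_gt.U

end

section

set_option autoImplicit false
set_option linter.dupNamespace false

open MeasureTheory Set Metric Filter Topology
open scoped ContDiff ENNReal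

namespace Pool.Agent.MP_4f0ed6_gt.U

theorem TRev_nn {K : ℝ} {g gx gy : ℂ → ℝ} (h : Sup K g gx gy) {r : ℝ} (hr : r ≤ 16) :
    ∀ᵐ y ∂volume.restrict (ball (0 : ℂ) r), 0 ≤ g y := by
  obtain ⟨U, hU⟩ := h.apx
  rw [← mu_restrict measurableSet_ball (ball_subset_ball hr)]
  exact ae_restrict_of_ae hU.nn'

theorem TRev_int {K : ℝ} {a ax ay b bx bz : ℂ → ℝ} (ha : Sup K a ax ay) (hb : Sup K b bx bz) :
    IntegrableOn (fun y => a y * b y) (ball (0 : ℂ) 1) := by
  obtain ⟨U, hU⟩ := ha.apx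
  obtain ⟨V, hV⟩ := hb.apx
  have h : Integrable (a * b) mu := hU.m0.integrable_mul hV.m0
  unfold IntegrableOn
  rw [← mu_restrict measurableSet_ball (ball_subset_ball (by norm_num))]
  exact h.restrict

/-- two functions that are large off small sets have a large product -/
theorem TRev_core {a b : ℂ → ℝ} {s t : ℝ} (hs : 0 ≤ s) (ht : 0 ≤ t)
    (hi : IntegrableOn (fun y => a y * b y) (ball (0 : ℂ) 1))
    (hn : ∀ᵐ y ∂volume.restrict (ball (0 : ℂ) 1), 0 ≤ a y * b y)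
    (hA : volume.real {y ∈ ball (0 : ℂ) 1 | a y < s} ≤ Real.pi / 4)
    (hB : volume.real {y ∈ ball (0 : ℂ) 1 | b y < t} ≤ Real.pi / 4) :
    s * t * (Real.pi / 2) ≤ ∫ y in ball (0 : ℂ) 1, a y * b y := by
  set A : Set ℂ := {y ∈ ball (0 : ℂ) 1 | a y < s} ∪ {y ∈ ball (0 : ℂ) 1 | b y < t} with hAd
  have hfin : volume (ball (0 : ℂ) 1) ≠ ⊤ := measure_ball_lt_top.ne
  have hAs : A ⊆ ball 0 1 := union_subset (fun _ h => h.1) fun _ h => h.1
  have hT : volume (toMeasurable volume A) ≠ ⊤ := by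
    rw [measure_toMeasurable]
    exact measure_ne_top_of_subset hAs hfin
  have hT2 : volume.real (toMeasurable volume A) ≤ Real.pi / 2 := by
    have h1 : volume.real (toMeasurable volume A) = volume.real A := by
      unfold Measure.real
      rw [measure_toMeasurable]
    have h2 := measureReal_union_le (μ := volume) {y ∈ ball (0 : ℂ) 1 | a y < s}
      {y ∈ ball (0 : ℂ) 1 | b y < t}
    rw [h1]
    linarith
  have hG : Real.pi / 2 ≤ volume.real (ball (0 : ℂ) 1 \ toMeasurable volume A) := by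
    have h1 := le_measureReal_sdiff (μ := volume) (s₁ := ball (0 : ℂ) 1) hT
    rw [real_ball 0 zero_le_one] at h1
    linarith
  have h3 := setIntegral_ge_of_const_le_real (μ := volume) (f := fun y => a y * b y) (c := s * t)
    (measurableSet_ball.diff (measurableSet_toMeasurable volume A))
    (measure_ne_top_of_subset sdiff_subset hfin) (fun y hy => by
      have hy2 : y ∉ A := fun h => hy.2 (subset_toMeasurable _ _ h)
      have h4 : s ≤ a y := not_lt.1 fun h => hy2 (Or.inl ⟨hy.1, h⟩)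
      have h5 : t ≤ b y := not_lt.1 fun h => hy2 (Or.inr ⟨hy.1, h⟩)
      exact mul_le_mul h4 h5 ht (hs.trans h4)) (hi.mono_set sdiff_subset)
  have h6 := setIntegral_mono_set (s := ball (0 : ℂ) 1 \ toMeasurable volume A) hi hn
    (LE.le.eventuallyLE sdiff_subset)
  exact ((mul_le_mul_of_nonneg_left hG (mul_nonneg hs ht)).trans h3).trans h6

theorem stRev (hLow : StLow) : StRev := by
  intro K hK
  obtain ⟨c, hc, h⟩ := hLow K hK
  have hp := Real.pi_pos
  refine ⟨2 / (c ^ 2 * Real.pi), by positivity, fun a ax ay b bx bz ha hb => ?_⟩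
  have h1 : 0 ≤ ∫ y in ball (0 : ℂ) 12, a y := integral_nonneg_of_ae (TRev_nn ha (by norm_num))
  have h2 : 0 ≤ ∫ y in ball (0 : ℂ) 12, b y := integral_nonneg_of_ae (TRev_nn hb (by norm_num))
  have hn : ∀ᵐ y ∂volume.restrict (ball (0 : ℂ) 1), 0 ≤ a y * b y := by
    filter_upwards [TRev_nn ha (r := 1) (by norm_num), TRev_nn hb (r := 1) (by norm_num)]
      with y h3 h4 using mul_nonneg h3 h4
  have h3 := TRev_core (mul_nonneg hc.le h1) (mul_nonneg hc.le h2) (TRev_int ha hb) hn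
    (h a ax ay ha) (h b bx bz hb)
  rw [div_mul_eq_mul_div, le_div_iff₀ (by positivity)]
  nlinarith

end Pool.Agent.MP_4f0ed6_gt.U

end

section

set_option autoImplicit false
set_option linter.dupNamespace false

open UpperHalfPlane MeasureTheory Set Metric Filter Topology
open scoped MatrixGroups ContDiff InnerProductSpace ENNReal Classical

namespace Pool.Agent.MP_4f0ed6_gt.U

theorem TImsA_pr {n : ℕ} {x : L2 n} {f : Fin n → ℂ → ℝ} (h : ∀ᵐ y ∂nu n, x y = f y.1 y.2)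
    (c : Fin n) : ⟪pr c x, x⟫_ℝ = ∫ y in ball (0 : ℂ) 3, f c y * f c y := by
  rw [pr, inner_ct_eq c (by norm_num)]
  have h1 : ∀ᵐ y ∂volume.restrict (ball (0 : ℂ) 16), x (c, y) = f c y := ae_slice h c
  have h2 : ∀ᵐ y ∂volume.restrict (ball (0 : ℂ) 3), x (c, y) = f c y :=
    ae_restrict_of_ae_restrict_of_subset (ball_subset_ball (by norm_num)) h1
  exact integral_congr_ae (h2.mono fun y hy => by simp only [hy])

theorem TImsA_le {n : ℕ} {κ t : ℝ} (h0 : 0 ≤ κ) (ht : κ + 1 ≤ t) {Ω : Finset (Fin n)} {z : Fin n}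
    (hz : z ∉ Ω) : Wt κ Ω + ind z 3 ≤ Wt t Ω := by
  have h1 : ind z 3 ≤ cel Ωᶜ := by
    have := cel_mono (S := {z}) (T := Ωᶜ) (by simpa using hz)
    simpa [cel] using this
  refine le_trans ?_ (Wt_mono ht (by linarith) (Finset.Subset.refl Ω))
  unfold Wt
  rw [add_smul, one_smul]
  exact add_le_add le_rfl h1

theorem stImsA (hIms0 : StIms0) (hCoer : StCoer) : StImsA := by
  intro Δ
  obtain ⟨κ0, h0, h⟩ := hIms0 Δ
  refine ⟨κ0, h0, ?_⟩
  intro X n m K H _ _ _ P j Rx Ry hX hK hR cl hcl Ω hΩ hz t ht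
  obtain ⟨z, hz⟩ := hz
  refine Pb.Co.mono (hCoer Δ X n m K H P j Rx Ry hX hK hR (Wt κ0 Ω)
    (smul_nn' h0 (cel_nn _)) (fun u => ?_) z) (TImsA_le h0 ht hz)
  have h1 := h X n m K hX hK cl (fun l => (hR.ps _).1 (hcl l)) u.1 u.2
  rw [Pb.q_apply, inner_mul_Wt, hR.hQ]
  have h2 : ∀ c, ⟪pr c (P.R (j u)), P.R (j u)⟫_ℝ =
      ∫ y in ball (0 : ℂ) 3, u.1 (K.pt c y) * u.1 (K.pt c y) :=
    TImsA_pr (f := fun c y => u.1 (K.pt c y)) (hR.r1.hR u)
  simp only [h2]
  refine h1.trans (add_le_add le_rfl (mul_le_mul_of_nonneg_left ?_ h0))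
  refine Finset.sum_le_sum_of_subset_of_nonneg (fun c hc => ?_)
    fun c _ _ => integral_nonneg fun y => mul_self_nonneg _
  simp only [bdc, Finset.mem_filter, Finset.mem_univ, true_and] at hc
  obtain ⟨a, ha, hne⟩ := hc
  exact Finset.mem_compl.2 fun hcΩ => hne (hΩ c hcΩ a (hR.adj ▸ ha))

end Pool.Agent.MP_4f0ed6_gt.U

end

section

set_option autoImplicit false
set_option linter.dupNamespace false

open MeasureTheory Set Metric Filter Topology
open scoped InnerProductSpace ENNReal Classical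

namespace Pool.Agent.MP_4f0ed6_gt.U

theorem TVEC_pt {ι : Type} [Fintype ι] (a : ι → ℝ) (b : ℝ)
    (h : ∀ t : ι → ℚ, ∑ i, (t i : ℝ) * a i ≤ √(∑ i, (t i : ℝ) ^ 2) * b) :
    ∑ i, a i ^ 2 ≤ b ^ 2 := by
  have hd : DenseRange (Pi.map (fun _ : ι => ((↑) : ℚ → ℝ))) :=
    DenseRange.piMap fun _ => Rat.denseRange_cast
  have h1 : ∑ i, a i * a i ≤ √(∑ i, a i ^ 2) * b :=
    hd.induction_on (p := fun t : ι → ℝ => ∑ i, t i * a i ≤ √(∑ i, t i ^ 2) * b) a
      (isClosed_le (by fun_prop) (by fun_prop)) h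
  have h2 : 0 ≤ ∑ i, a i ^ 2 := Finset.sum_nonneg fun i _ => sq_nonneg _
  simp only [← sq] at h1
  have h3 := Real.sq_sqrt h2
  have h4 := Real.sqrt_nonneg (∑ i, a i ^ 2)
  nlinarith [sq_nonneg (√(∑ i, a i ^ 2) - b)]

theorem TVEC_sum {n : ℕ} {ι : Type} (s : Finset ι) (f : ι → L2 n) :
    ∀ᵐ y ∂nu n, (∑ i ∈ s, f i : L2 n) y = ∑ i ∈ s, f i y := by
  induction s using Finset.induction_on with
  | empty =>
    simp only [Finset.sum_empty]
    exact Lp.coeFn_zero ℝ 2 (nu n)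
  | insert i s hi ih =>
    simp only [Finset.sum_insert hi]
    filter_upwards [Lp.coeFn_add (f i) (∑ j ∈ s, f j), ih] with y h1 h2
    rw [h1, Pi.add_apply, h2]

theorem TVEC_ae {n : ℕ} {ι : Type} [Fintype ι] (f : ι → L2 n) (g : L2 n)
    (h : ∀ t : ι → ℚ, ∑ i, (t i : ℝ) • f i ≤ √(∑ i, (t i : ℝ) ^ 2) • g) :
    ∀ᵐ y ∂nu n, ∑ i, f i y ^ 2 ≤ g y ^ 2 := by
  have h1 : ∀ t : ι → ℚ, ∀ᵐ y ∂nu n,
      ∑ i, (t i : ℝ) * f i y ≤ √(∑ i, (t i : ℝ) ^ 2) * g y := fun t => by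
    filter_upwards [(Lp.coeFn_le _ _).2 (h t), TVEC_sum Finset.univ fun i => (t i : ℝ) • f i,
      ae_all_iff.2 fun i => Lp.coeFn_smul (t i : ℝ) (f i),
      Lp.coeFn_smul √(∑ i, (t i : ℝ) ^ 2) g] with y e1 e2 e3 e4
    rw [e2, e4] at e1
    simpa only [e3, Pi.smul_apply, smul_eq_mul] using e1
  filter_upwards [ae_all_iff.2 h1] with y hy
  exact TVEC_pt _ _ hy

theorem stVEC : StVEC := by
  intro n ι _ f g M hM hg h
  have h1 : ∀ t : ι → ℚ, ∑ i, (t i : ℝ) • f i ≤ √(∑ i, (t i : ℝ) ^ 2) • g := fun t => by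
    refine le_of_inner fun z hz => ?_
    rw [inner_sum, real_inner_smul_right, real_inner_comm g z]
    simp only [real_inner_smul_right]
    have e0 : 0 ≤ ∑ i, (t i : ℝ) ^ 2 := Finset.sum_nonneg fun i _ => sq_nonneg _
    refine (le_abs_self _).trans (abs_le_of_sq_le_sq ?_
      (mul_nonneg (Real.sqrt_nonneg _) (inner_nn hg hz)))
    rw [mul_pow, Real.sq_sqrt e0]
    refine (Finset.sum_mul_sq_le_sq_mul_sq _ _ _).trans (mul_le_mul_of_nonneg_left ?_ e0)
    simpa only [real_inner_comm z] using h z hz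
  have h2 : ∀ t : ι → ℚ, ∑ i, (t i : ℝ) • M (f i) ≤ √(∑ i, (t i : ℝ) ^ 2) • M g := fun t => by
    simpa only [map_sum, map_smul] using hM.mono (h1 t)
  simp only [L2.inner_def]
  rw [← integral_finsetSum _ fun i _ => L2.integrable_inner (f i) (M (f i))]
  refine integral_mono_ae (integrable_finsetSum _ fun i _ => L2.integrable_inner (f i) (M (f i)))
    (L2.integrable_inner g (M g)) ?_
  filter_upwards [TVEC_ae f g h1, TVEC_ae (fun i => M (f i)) (M g) h2,
    (Lp.coeFn_nonneg g).2 hg, (Lp.coeFn_nonneg (M g)).2 (hM g hg)] with y e1 e2 e3 e4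
  simp only [RCLike.inner_apply, conj_trivial]
  refine (le_abs_self _).trans (abs_le_of_sq_le_sq ?_ (mul_nonneg e4 e3))
  rw [mul_pow]
  exact (Finset.sum_mul_sq_le_sq_mul_sq _ _ _).trans
    (mul_le_mul e2 e1 (Finset.sum_nonneg fun i _ => sq_nonneg _) (sq_nonneg _))

end Pool.Agent.MP_4f0ed6_gt.U

end

section

set_option autoImplicit false
set_option linter.dupNamespace false

namespace Pool.Agent.MP_4f0ed6_gt.U

theorem fNC : StNC := stNC
theorem fMarg : StMarg := stMarg fNC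
theorem fPack : StPack := stPack
theorem fMk : StMk := stMk fPack
theorem fBav : StBav := stBav
theorem fPoin : StPoin := stPoin
theorem fPB : StPB := stPB fPoin
theorem fIo : StIo := stIo
theorem fPF : StPF := stPF fBav fPB fIo
theorem fSmall : StSmall := stSmall fPF
theorem fCa : StCa := stCa fMk fPack fSmall fIo
theorem fNF : StNF := stNF
theorem fDiag : StDiag := stDiag
theorem fCT : StCT := stCT fDiag
theorem fTube : StTube := stTube fNC fCT fNF fIo
theorem fSweep : StSweep := stSweep fNF fTube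
theorem fCb : StCb := stCb fMk fPack fIo fSweep
theorem fCnt : StCnt := stCnt
theorem fTl : StTl := stTl fTube fNF
theorem fBand : StBand := stBand fNF
theorem fCc : StCc := stCc fMk fPack fCnt fIo fTube fTl fBand fNF
theorem fCov : StCov := stCov fMarg fCa fCb fCc fIo
theorem fH : StH := stH
theorem fR : StR := stR
theorem fRoot : StRoot := stRoot
theorem fApx : StApx := stApx fRoot
theorem fApc : StApc := stApc
theorem fTrf : StTrf := stTrf
theorem fTest : StTest := stTest fTrf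
theorem fSup : StSup := stSup fApx fApc fTest
theorem fSob : StSob := stSob
theorem fCac : StCac := stCac
theorem fCacH : StCacH := stCacH fCac
theorem fL4 : StL4 := stL4 fSob fCacH
theorem fBar : StBar := stBar
theorem fDbl : StDbl := stDbl fBar
theorem fCacL : StCacL := stCacL fCac
theorem fPL : StPL := stPL fPoin fCacL
theorem fLow : StLow := stLow fL4 fDbl fPL
theorem fRev : StRev := stRev fLow
theorem fRev2 : StRev2 := stRev2 fRev fL4
theorem fRevA : StRevA := stRevA fSup fRev2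
theorem fBump : StBump := stBump
theorem fPiece : StPiece := stPiece fBump
theorem fPart : StPart := stPart fPiece
theorem fEta : StEta := stEta fPart
theorem fComm : StComm := stComm
theorem fFlux1 : StFlux1 := stFlux1 fApx fApc fEta fComm
theorem fFl1 : StFl1 := stFl1 fRev fL4 fCacL
theorem fScale : StScale := stScale
theorem fFl2 : StFl2 := stFl2 fFl1 fScale
theorem fFluxA : StFluxA := stFluxA fFlux1 fSup fFl2
theorem fIms0 : StIms0 := stIms0 fPart
theorem fL1a : StL1a := stL1a fBar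
theorem fL1 : StL1 := stL1 fL1a
theorem fCo1 : StCo1 := stCo1 fL1 fRoot fTrf
theorem fCoer : StCoer := stCoer fCo1 fPF
theorem fImsA : StImsA := stImsA fIms0 fCoer
theorem fLocA : StLocA := stLocA fBump fTrf
theorem fAx : StAx := stAx fH fR fApx fRevA fFluxA fImsA fLocA
theorem fGOOD : StGOOD := stGOOD
theorem fVEC : StVEC := stVEC
theorem fVEC2 : StVEC2 := stVEC2 fVEC
theorem fDREV : StDREV := stDREV
theorem fCON : StCON := stCON fVEC2 fDREV
theorem fLA2 : StLA2 := stLA2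
theorem fDOM : StDOM := stDOM
theorem fApp1 : StApp1 := stApp1 fDOM
theorem fSub : StSub := stSub fCON fLA2 fApp1
theorem fFil : StFil := stFil
theorem fLA : StLA := stLA
theorem fInv : StInv := stInv
theorem fTrAlg : StTrAlg := stTrAlg fInv
theorem fTrLow : StTrLow := stTrLow fLA fTrAlg
theorem fExp : StExp := stExp
theorem fTrExp : StTrExp := stTrExp fExp fInv fVEC2
theorem fTrLim : StTrLim := stTrLim fInv
theorem fTr : StTr := stTr fFil fTrLow fTrExp fTrLim
theorem fRUS1 : StRUS1 := stRUS1 fDOM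
theorem fRUS : StRUS := stRUS fRUS1
theorem fShort : StShort := stShort
theorem fSI : StSI := stSI fApp1 fRUS fDREV fShort fDOM
theorem fDEC : StDEC := stDEC
theorem fLI1 : StLI1 := stLI1 fApp1 fDEC
theorem fDist : StDist := stDist
theorem fLongA : StLongA := stLongA
theorem fLongB : StLongB := stLongB
theorem fLI : StLI := stLI fApp1 fLI1 fDREV fDist fLongA fLongB
theorem fAv : StAv := stAv fGOOD fSub fApp1 fTr fSI fLI
theorem fAbs : StAbs := stAbs fAv
theorem fGreen : StGreen := stGreen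
theorem fFin : StFin := stFin fCov fAx fAbs fGreen

end Pool.Agent.MP_4f0ed6_gt.U

end

section

set_option autoImplicit false
set_option linter.dupNamespace false

namespace Pool.Agent.MP_4f0ed6_gt.U

theorem fRUSb : StRUSb := stRUSb fDOM fRUS1
theorem fSIb : StSIb := stSIb fApp1 fRUSb fDREV fShort fDOM
theorem fAvb : StAvb := stAvb fGOOD fSub fApp1 fTr fSIb fLI
theorem fAbsb : StAbsb := stAbsb fAvb stNum1 stNum2
theorem fFinb : StFinb := stFinb fCov fAx fAbsb fGreen stNum3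

end Pool.Agent.MP_4f0ed6_gt.U

end
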