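import Pool.Agent.Mg.F4f0ed6a.G019191
import Pool.Agent.Mg.F4f0ed6a.Gb427fa
import Pool.Agent.Mg.F4f0ed6a.Ga5385d
import Pool.Agent.Mg.F4f0ed6a.G84f80a

section

set_option autoImplicit false
set_option linter.dupNamespace false

open UpperHalfPlane MeasureTheory Set Metric Filter Topology
open scoped MatrixGroups ContDiff InnerProductSpace ENNReal Classical

namespace Pool.Agent.MP_4f0ed6_gt.U

/-- an element that conjugates a hyperbolic element into its centraliser commutes with it -/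
def StNC : Prop := ∀ α β : SL(2, ℝ), 2 < |α.1.trace| → (β = 1 ∨ 2 < |β.1.trace|) →
  (β * α * β⁻¹) * α = α * (β * α * β⁻¹) → β * α = α * β

def StMarg : Prop := ∃ e : ℝ, 0 < e ∧ e ≤ 1 / 2 ∧ ∀ (Γ : Subgroup SL(2, ℝ)) (F : Set ℍ),
  Closed Γ F → Mg Γ e

/-- normal form; the elements that commute with `α` act as dilations -/
def StDiag : Prop := ∀ α : SL(2, ℝ), 2 < |α.1.trace| → ∃ g : SL(2, ℝ),
  ∀ β : SL(2, ℝ), β * α = α * β → ∃ μ : ℝ, 0 < μ ∧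
    ∀ w : ℍ, ((g • β • w : ℍ) : ℂ) = (μ : ℂ) * ((g • w : ℍ) : ℂ)

def StCT : Prop := ∀ (Γ : Subgroup SL(2, ℝ)) (F : Set ℍ), Closed Γ F → ∀ α ∈ Γ, α ≠ 1 →
  ∃ τ : Tb, τ.Ok Γ ∧ ∃ k : ℤ, α = τ.γ ^ k

def StNF : Prop := ∀ τ : Tb, τ.NF → τ.γ ≠ 1 ∧ Continuous τ.sg ∧ Continuous τ.dp ∧
  (∀ w, Real.cosh (τ.dp w) = 1 + (1 + τ.sg w ^ 2) * ((τ.lam - 1) ^ 2 / (2 * τ.lam))) ∧
  (∀ w, 0 < τ.dp w) ∧ (∀ (k : ℤ) w, τ.sg (τ.γ ^ k • w) = τ.sg w) ∧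
  (∀ (k : ℤ) w, k ≠ 0 → τ.dp w ≤ dist (τ.γ ^ k • w) w) ∧ (∀ t, ∃ w, τ.sg w = t) ∧
  (∀ w w', τ.sg w = τ.sg w' → ∃ k : ℤ, dist (τ.γ ^ k • w) w' ≤ τ.dp w') ∧
  (∀ e, (∃ w, τ.dp w < e) → ∃ sm : ℝ, 0 < sm ∧ (∀ w, τ.dp w < e ↔ |τ.sg w| < sm) ∧
    ∀ w, τ.dp w ≤ e ↔ |τ.sg w| ≤ sm) ∧
  (∀ a b : ℝ, ∃ A : Set ℍ, IsCompact A ∧ (∀ w ∈ A, a ≤ τ.sg w ∧ τ.sg w ≤ b) ∧
    ∀ w, a ≤ τ.sg w → τ.sg w ≤ b → ∃ k : ℤ, τ.γ ^ k • w ∈ A)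

def StBand : Prop := ∀ τ : Tb, τ.NF → ∀ e : ℝ, 0 < e → e ≤ 1 / 2 → ∀ w w' : ℍ,
  e ≤ τ.dp w → τ.dp w ≤ 6 * e / 5 → e ≤ τ.dp w' → τ.dp w' ≤ 6 * e / 5 → 0 ≤ τ.sg w * τ.sg w' →
  ∃ k : ℤ, dist (τ.γ ^ k • w) w' ≤ 3

def StIo : Prop := ∀ (Γ : Subgroup SL(2, ℝ)) (F : Set ℍ), Closed Γ F → ∀ e : ℝ, 0 < e →
  (∀ w, 0 < io Γ e w) ∧ (∀ w, io Γ e w ≤ e) ∧
  (∀ w w', |io Γ e w - io Γ e w'| ≤ 2 * dist w w') ∧ Inv Γ (io Γ e) ∧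
  (∀ γ ∈ Γ, γ ≠ 1 → ∀ w, io Γ e w ≤ dist (γ • w) w) ∧
  (∀ w, io Γ e w < e → ∃ γ ∈ Γ, γ ≠ 1 ∧ dist (γ • w) w = io Γ e w) ∧
  ∀ w ρ, ρ ≤ io Γ e w / 2 → Emb Γ (ball w ρ)

def StTube : Prop := ∀ (Γ : Subgroup SL(2, ℝ)) (F : Set ℍ), Closed Γ F → ∀ e : ℝ, 0 < e →
  Mg Γ e →
  (∀ τ : Tb, τ.Ok Γ → ∀ w, τ.dp w < 2 * e → io Γ e w = min e (τ.dp w)) ∧
  (∀ τ : Tb, τ.Ok Γ → ∀ w, ∀ β ∈ Γ, τ.dp w < 2 * e → τ.dp (β • w) < 2 * e →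
    ∃ k : ℤ, β = τ.γ ^ k) ∧
  (∀ w, io Γ e w < e ↔ ∃ τ : Tb, τ.Ok Γ ∧ w ∈ τ.T Γ e) ∧
  (∀ τ τ' : Tb, τ.Ok Γ → τ'.Ok Γ → ∀ w, ∀ β ∈ Γ, τ.dp w < 2 * e → τ'.dp (β • w) < 2 * e →
    τ.T Γ e = τ'.T Γ e) ∧
  ∀ τ τ' : Tb, τ.Ok Γ → τ'.Ok Γ → ∀ w, (ball w (e / 10) ∩ τ.T Γ e).Nonempty →
    (ball w (e / 10) ∩ τ'.T Γ e).Nonempty → τ.T Γ e = τ'.T Γ e

def StPack : Prop := ∃ M0 : ℝ, 0 < M0 ∧ ∀ (Γ : Subgroup SL(2, ℝ)) (p : ℍ) (R a : ℝ)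
  (A : Finset ℍ), 0 ≤ R → R ≤ 10 → 0 < a → a ≤ 10 → (∀ x ∈ A, x ∈ orb Γ (closedBall p R)) →
  (∀ x ∈ A, ∀ y ∈ A, x ≠ y → ∀ γ ∈ Γ, a ≤ dist (γ • x) y) → (A.card : ℝ) ≤ M0 * (1 + R / a) ^ 2

def StCnt : Prop := ∃ M0 : ℝ, 0 < M0 ∧ ∀ (Γ : Subgroup SL(2, ℝ)) (F : Set ℍ), Closed Γ F →
  ∀ (a : ℝ) (A : Finset ℍ), 0 < a → a ≤ 10 → (∀ x ∈ A, Emb Γ (ball x (a / 2))) →
  (∀ x ∈ A, ∀ y ∈ A, x ≠ y → ∀ γ ∈ Γ, a ≤ dist (γ • x) y) →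
  (A.card : ℝ) * a ^ 2 ≤ M0 * volume.real F

/-- the builder of covers -/
def StMk : Prop := ∃ Δ0 : ℕ, ∀ X : Sf, X.Ok → ∀ (σ : ℍ → ℝ) (m : ℕ) (tb : Fin m → Set ℍ)
  (M : ℕ) (N : ℝ), Inv X.Γ σ → (∀ w, 0 < σ w) → (∀ w, σ w ≤ 1 / 40) →
  (∀ w w', |σ w - σ w'| ≤ dist w w' / 200) →
  (∀ t, IsOpen (tb t)) → (∀ t, InvS X.Γ (tb t)) → (∀ t t', t ≠ t' → Disjoint (tb t) (tb t')) →
  (∀ t, X.Psd (tb t)) →
  (∀ w, (∀ t, w ∉ tb t) → Emb X.Γ (ball w (40 * σ w)) ∧ X.Psd (orb X.Γ (ball w (40 * σ w))) ∧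
    {t | (ball w (40 * σ w) ∩ tb t).Nonempty}.ncard ≤ M) →
  (∀ A : Finset ℍ, Sep X.Γ σ A → (∀ w ∈ A, ∀ t, w ∉ tb t) → (A.card : ℝ) ≤ N) →
  (∀ t, ∀ A : Finset ℍ, Sep X.Γ σ A → (∀ w ∈ A, ∀ t, w ∉ tb t) →
    (∀ w ∈ A, (ball w (40 * σ w) ∩ tb t).Nonempty) → A.card ≤ M) →
  ∃ (n : ℕ) (K : Cov n m), K.Ok X (Δ0 + M) ∧ (n : ℝ) ≤ N

/-- Poincare inequality on the surface -/
def StPF : Prop := ∀ (Γ : Subgroup SL(2, ℝ)) (F : Set ℍ), Closed Γ F → ∀ η : ℝ, 0 < η →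
  ∃ C : ℝ, 0 < C ∧ ∀ u ∈ SI Γ,
    ∫ w in F, u w ^ 2 ≤ η * (∫ w in F, en u u w) + C * (∫ w in F, |u w|) ^ 2

def StSmall : Prop := ∀ X : Sf, X.Ok → ∃ ρ : ℝ, 0 < ρ ∧ ∀ p : ℍ, X.Psd (orb X.Γ (ball p ρ))

/-- a good cover with at most `A (1 + area)` cells -/
def Has (X : Sf) (Δ : ℕ) (A : ℝ) : Prop :=
  ∃ (n m : ℕ) (K : Cov n m), K.Ok X Δ ∧ (n : ℝ) ≤ A * (1 + volume.real X.F)

def StCa : Prop := ∀ e : ℝ, 0 < e → e ≤ 1 / 2 → ∃ (Δ : ℕ) (A : ℝ), 0 ≤ A ∧ ∀ X : Sf, X.Ok →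
  (∃ (p : ℍ) (ρ : ℝ), 0 < ρ ∧ ρ ≤ io X.Γ e p / 10 ∧ ¬ X.Psd (orb X.Γ (ball p ρ))) → Has X Δ A

def StSweep : Prop := ∀ X : Sf, X.Ok → ∀ e : ℝ, 0 < e → Mg X.Γ e → ∀ τ : Tb, τ.Ok X.Γ →
  ¬ X.Psd (τ.T X.Γ e) → ∃ (tb : Fin 3 → Set ℍ) (p : Fin 3 → ℍ),
    (∀ t, IsOpen (tb t)) ∧ (∀ t, InvS X.Γ (tb t)) ∧ (∀ t t', t ≠ t' → Disjoint (tb t) (tb t')) ∧
    (∀ t, X.Psd (tb t)) ∧ ∀ w, (∀ t, w ∉ tb t) →
      ∃ i, io X.Γ e w = io X.Γ e (p i) ∧ w ∈ orb X.Γ (closedBall (p i) (io X.Γ e (p i)))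

def StCb : Prop := ∀ e : ℝ, 0 < e → e ≤ 1 / 2 → ∃ (Δ : ℕ) (A : ℝ), 0 ≤ A ∧ ∀ X : Sf, X.Ok →
  Mg X.Γ e → (∀ p, X.Psd (orb X.Γ (ball p (io X.Γ e p / 10)))) →
  (∃ τ : Tb, τ.Ok X.Γ ∧ ¬ X.Psd (τ.T X.Γ e)) → Has X Δ A

/-- the list of the tubes -/
def StTl : Prop := ∀ (Γ : Subgroup SL(2, ℝ)) (F : Set ℍ), Closed Γ F → ∀ e : ℝ, 0 < e →
  Mg Γ e → ∃ (m : ℕ) (τ : Fin m → Tb), (∀ t, (τ t).Ok Γ) ∧
    (∀ t t', t ≠ t' → (τ t).T Γ e ≠ (τ t').T Γ e) ∧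
    (∀ t t', t ≠ t' → Disjoint ((τ t).T Γ e) ((τ t').T Γ e)) ∧
    ∀ w, io Γ e w < e ↔ ∃ t, w ∈ (τ t).T Γ e

def StCc : Prop := ∀ e : ℝ, 0 < e → e ≤ 1 / 2 → ∃ (Δ : ℕ) (A : ℝ), 0 ≤ A ∧ ∀ X : Sf, X.Ok →
  Mg X.Γ e → (∀ p, X.Psd (orb X.Γ (ball p (io X.Γ e p / 10)))) →
  (∀ τ : Tb, τ.Ok X.Γ → X.Psd (τ.T X.Γ e)) → Has X Δ A

def StCov : Prop := ∃ (Δ : ℕ) (A : ℝ), 1 ≤ Δ ∧ 0 < A ∧ ∀ X : Sf, X.Ok → Has X Δ A

/-- average over hyperbolic balls -/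
def StBav : Prop := ∀ (Γ : Subgroup SL(2, ℝ)) (F : Set ℍ), Closed Γ F → ∀ (ρ : ℝ) (h : ℍ → ℝ),
  0 < ρ → Continuous h → Inv Γ h → (∀ w, 0 ≤ h w) →
  IntegrableOn (fun z => ∫ w in ball z ρ, h w) F ∧
    ∫ z in F, ∫ w in ball z ρ, h w = volume.real (ball UpperHalfPlane.I ρ) * ∫ w in F, h w

/-- Poincare inequality on a small ball -/
def StPB : Prop := ∃ C : ℝ, 0 < C ∧ ∀ (u : ℍ → ℝ) (z : ℍ) (ρ : ℝ), Sm u → 0 < ρ → ρ ≤ 1 / 40 →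
  ∫ w in ball z ρ, u w ^ 2 ≤
    C * ρ ^ 2 * (∫ w in ball z ρ, en u u w) + C / ρ ^ 2 * (∫ w in ball z ρ, |u w|) ^ 2

end Pool.Agent.MP_4f0ed6_gt.U

end

section

set_option autoImplicit false
set_option linter.dupNamespace false

open UpperHalfPlane MeasureTheory Set Metric Filter Topology
open scoped MatrixGroups ContDiff InnerProductSpace ENNReal Classical

namespace Pool.Agent.MP_4f0ed6_gt.U

theorem TBav_pre (g : SL(2, ℝ)) {s : Set ℍ} (hs : MeasurableSet s) :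
    volume ((fun w : ℍ => g • w) ⁻¹' s) = volume s :=
  SMulInvariantMeasure.measure_preimage_smul (Matrix.SpecialLinearGroup.mapGL ℝ g) hs

theorem TBav_ball (w : ℍ) (ρ : ℝ) : volume (ball w ρ) = volume (ball UpperHalfPlane.I ρ) := by
  obtain ⟨g, rfl⟩ := MulAction.exists_smul_eq SL(2, ℝ) UpperHalfPlane.I w
  rw [← TBav_pre g measurableSet_ball]
  congr 1
  ext x
  simp only [mem_preimage, mem_ball, dist_smul]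

theorem TBav_swap {Γ : Subgroup SL(2, ℝ)} {F : Set ℍ} (H : Closed Γ F) (K : ℍ × ℍ → ℝ≥0∞)
    (hK : Measurable K) (hi : ∀ γ ∈ Γ, ∀ z w : ℍ, K (γ • z, γ • w) = K (z, w)) :
    ∫⁻ z in F, ∫⁻ w, K (z, w) = ∫⁻ w in F, ∫⁻ z, K (z, w) := by
  have := H.countable
  have : SMulInvariantMeasure Γ ℍ volume := ⟨fun g _ hs => TBav_pre g.1 hs⟩
  have hm : ∀ g : Γ, Measurable fun p : ℍ × ℍ => K (g⁻¹ • p.1, p.2) := fun g =>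
    hK.comp (((measurable_const_smul g⁻¹).comp measurable_fst).prodMk measurable_snd)
  have e1 : ∀ z, ∫⁻ w, K (z, w) = ∑' g : Γ, ∫⁻ w in F, K (g⁻¹ • z, w) := fun z => by
    rw [H.fund.lintegral_eq_tsum'']
    refine tsum_congr fun g => lintegral_congr fun w => ?_
    have h := hi g.1 g.2 (g⁻¹ • z) w
    rw [← h]
    exact congrArg (fun x => K (x, g • w)) (smul_inv_smul g z).symm
  have e2 : ∀ w, ∫⁻ z, K (z, w) = ∑' g : Γ, ∫⁻ z in F, K (g⁻¹ • z, w) := fun w =>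
    H.fund.lintegral_eq_tsum' _
  simp only [e1]
  simp only [e2]
  rw [lintegral_tsum fun g => (hm g).lintegral_prod_right'.aemeasurable,
    lintegral_tsum fun g => (hm g).lintegral_prod_left'.aemeasurable]
  exact tsum_congr fun g => lintegral_lintegral_swap (hm g).aemeasurable

theorem stBav : StBav := by
  intro Γ F H ρ h _ hh hi hp
  have hf : Measurable fun w => ENNReal.ofReal (h w) := hh.measurable.ennreal_ofReal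
  have hS : MeasurableSet {p : ℍ × ℍ | dist p.2 p.1 < ρ} :=
    (isOpen_lt (continuous_snd.dist continuous_fst) continuous_const).measurableSet
  obtain ⟨K, hK⟩ : ∃ K : ℍ × ℍ → ℝ≥0∞, K = {p : ℍ × ℍ | dist p.2 p.1 < ρ}.indicator
      fun p => ENNReal.ofReal (h p.2) := ⟨_, rfl⟩
  have mK : Measurable K := hK ▸ (hf.comp measurable_snd).indicator hS
  have key := TBav_swap H K mK fun γ hγ z w => by
    simp only [hK, indicator, mem_ofPred_eq, dist_smul, hi γ hγ w]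
  have e1 : ∀ z, ∫ w in ball z ρ, h w = (∫⁻ w, K (z, w)).toReal := fun z => by
    rw [integral_eq_lintegral_of_nonneg_ae (Eventually.of_forall hp) hh.aestronglyMeasurable,
      ← lintegral_indicator measurableSet_ball, hK]
    rfl
  have e2 : ∀ w, ∫⁻ z, K (z, w) =
      volume (ball UpperHalfPlane.I ρ) * ENNReal.ofReal (h w) := fun w => by
    rw [← TBav_ball w, mul_comm, ← setLIntegral_const, ← lintegral_indicator measurableSet_ball, hK]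
    refine lintegral_congr fun z => ?_
    simp only [indicator, mem_ofPred_eq, mem_ball, dist_comm]
  simp only [e2] at key
  rw [lintegral_const_mul _ hf] at key
  have fin : ∫⁻ z in F, ∫⁻ w, K (z, w) ≠ ⊤ := by
    rw [key]
    exact ENNReal.mul_ne_top measure_ball_lt_top.ne (H.integrableOn hh).lintegral_lt_top.ne
  have mG : Measurable fun z => ∫⁻ w, K (z, w) := mK.lintegral_prod_right'
  simp only [e1]
  refine ⟨integrable_toReal_of_lintegral_ne_top mG.aemeasurable fin, ?_⟩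
  rw [integral_toReal mG.aemeasurable (ae_lt_top mG fin), key, ENNReal.toReal_mul,
    integral_eq_lintegral_of_nonneg_ae (Eventually.of_forall hp) hh.aestronglyMeasurable]
  rfl

end Pool.Agent.MP_4f0ed6_gt.U

end

section

set_option autoImplicit false
set_option linter.dupNamespace false

open UpperHalfPlane MeasureTheory Set Metric Filter Topology
open scoped MatrixGroups

namespace Pool.Agent.MP_4f0ed6_gt.U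

theorem TIo_bdd (Γ : Subgroup SL(2, ℝ)) {e : ℝ} (he : 0 < e) (w : ℍ) :
    BddBelow (insert e {d | ∃ γ ∈ Γ, γ ≠ 1 ∧ d = dist (γ • w) w}) := by
  refine ⟨0, ?_⟩
  rintro d (rfl | ⟨γ, -, -, rfl⟩)
  · exact he.le
  · exact dist_nonneg

theorem TIo_le (Γ : Subgroup SL(2, ℝ)) {e : ℝ} (he : 0 < e) (w : ℍ) : io Γ e w ≤ e :=
  csInf_le (TIo_bdd Γ he w) (mem_insert _ _)

theorem TIo_le' (Γ : Subgroup SL(2, ℝ)) {e : ℝ} (he : 0 < e) {γ : SL(2, ℝ)} (hγ : γ ∈ Γ)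
    (h1 : γ ≠ 1) (w : ℍ) : io Γ e w ≤ dist (γ • w) w :=
  csInf_le (TIo_bdd Γ he w) (mem_insert_of_mem _ ⟨γ, hγ, h1, rfl⟩)

theorem TIo_ge (Γ : Subgroup SL(2, ℝ)) {e a : ℝ} (w : ℍ) (h : a ≤ e)
    (h' : ∀ γ ∈ Γ, γ ≠ 1 → a ≤ dist (γ • w) w) : a ≤ io Γ e w := by
  refine le_csInf ⟨e, mem_insert _ _⟩ ?_
  rintro d (rfl | ⟨γ, hγ, h1, rfl⟩)
  · exact h
  · exact h' γ hγ h1

theorem TIo_min {Γ : Subgroup SL(2, ℝ)} {F : Set ℍ} (H : Closed Γ F) {e : ℝ} (he : 0 < e) (w : ℍ)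
    (h : io Γ e w < e) : ∃ γ ∈ Γ, γ ≠ 1 ∧ dist (γ • w) w = io Γ e w := by
  have hf := H.finite (isCompact_singleton (x := w)) (isCompact_closedBall w e)
  set S : Set Γ := {γ : Γ | (γ : SL(2, ℝ)) ≠ 1 ∧ dist ((γ : SL(2, ℝ)) • w) w < e} with hS
  have hSf : S.Finite := hf.subset fun γ hγ => ⟨w, rfl, mem_closedBall.2 hγ.2.le⟩
  have hne : S.Nonempty := by
    by_contra hn
    refine absurd (TIo_ge Γ w le_rfl fun γ hγ h1 => ?_) (not_le.2 h)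
    by_contra hc
    exact hn ⟨⟨γ, hγ⟩, h1, not_le.1 hc⟩
  obtain ⟨γ, hγ, hm⟩ := exists_min_image S (fun γ : Γ => dist ((γ : SL(2, ℝ)) • w) w) hSf hne
  refine ⟨γ, γ.2, hγ.1, le_antisymm ?_ (TIo_le' Γ he γ.2 hγ.1 w)⟩
  refine TIo_ge Γ w hγ.2.le fun β hβ h1 => ?_
  by_cases hc : dist (β • w) w < e
  · exact hm ⟨β, hβ⟩ ⟨h1, hc⟩
  · exact hγ.2.le.trans (not_lt.1 hc)

theorem TIo_lip (Γ : Subgroup SL(2, ℝ)) {e : ℝ} (he : 0 < e) (w w' : ℍ) :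
    io Γ e w - 2 * dist w w' ≤ io Γ e w' := by
  have hd : 0 ≤ dist w w' := dist_nonneg
  refine TIo_ge Γ w' (by linarith [TIo_le Γ he w]) fun γ hγ h1 => ?_
  have h2 := TIo_le' Γ he hγ h1 w
  have h3 := dist_triangle4 (γ • w) (γ • w') w' w
  rw [dist_smul, dist_comm w' w] at h3
  linarith

theorem TIo_inv (Γ : Subgroup SL(2, ℝ)) {e : ℝ} (he : 0 < e) {γ : SL(2, ℝ)} (hγ : γ ∈ Γ)
    (w : ℍ) : io Γ e w ≤ io Γ e (γ • w) := by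
  refine TIo_ge Γ _ (TIo_le Γ he w) fun β hβ h1 => ?_
  have hm : γ⁻¹ * β * γ ∈ Γ := Γ.mul_mem (Γ.mul_mem (Γ.inv_mem hγ) hβ) hγ
  have hn : γ⁻¹ * β * γ ≠ 1 := fun h => h1 (by
    have : β = γ * (γ⁻¹ * β * γ) * γ⁻¹ := by group
    rw [this, h]; group)
  have h2 := TIo_le' Γ he hm hn w
  rw [← dist_smul γ, ← mul_smul, show γ * (γ⁻¹ * β * γ) = β * γ by group, mul_smul] at h2
  exact h2

theorem stIo : StIo := by
  intro Γ F H e he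
  refine ⟨fun w => ?_, TIo_le Γ he, fun w w' => ?_, fun γ hγ w => ?_,
    fun γ hγ h1 w => TIo_le' Γ he hγ h1 w, TIo_min H he, fun w ρ hρ γ hγ x hx hx' => ?_⟩
  · rcases (TIo_le Γ he w).eq_or_lt with h | h
    · rw [h]; exact he
    · obtain ⟨γ, hγ, h1, hd⟩ := TIo_min H he w h
      rw [← hd]
      exact dist_pos.2 fun hw => h1 (H.free hγ hw)
  · have h1 := TIo_lip Γ he w w'
    have h2 := TIo_lip Γ he w' w
    rw [dist_comm w' w] at h2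
    exact abs_le.2 ⟨by linarith, by linarith⟩
  · refine le_antisymm ?_ (TIo_inv Γ he hγ w)
    have := TIo_inv Γ he (Γ.inv_mem hγ) (γ • w)
    rwa [inv_smul_smul] at this
  · by_contra h1
    have h2 := TIo_le' Γ he hγ h1 w
    have h3 := dist_triangle (γ • w) (γ • x) w
    rw [dist_smul, dist_comm w x] at h3
    rw [mem_ball] at hx hx'
    linarith

end Pool.Agent.MP_4f0ed6_gt.U

end

section

set_option autoImplicit false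
set_option linter.dupNamespace false

open UpperHalfPlane MeasureTheory Set Metric
open scoped MatrixGroups

namespace Pool.Agent.MP_4f0ed6_gt.U

theorem stPF (hBav : StBav) (hPB : StPB) (hIo : StIo) : StPF := by
  intro Γ F H η hη
  obtain ⟨C, hC, hP⟩ := hPB
  obtain ⟨i1, -, i3, i4, -, -, i7⟩ := hIo Γ F H 1 one_pos
  have hc : Continuous (io Γ 1) :=
    (LipschitzWith.of_dist_le_mul (K := 2) fun w w' => by
      rw [Real.dist_eq]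
      exact_mod_cast i3 w w').continuous
  obtain ⟨m, hm, hm'⟩ := H.pos_min hc i4 i1
  obtain ⟨ρ, r0, r1, r2, r3⟩ : ∃ ρ : ℝ, 0 < ρ ∧ ρ ≤ 1 / 40 ∧ ρ ≤ m / 2 ∧ ρ ≤ η / C :=
    ⟨min (1 / 40) (min (m / 2) (η / C)), by positivity, min_le_left _ _,
      (min_le_right _ _).trans (min_le_left _ _), (min_le_right _ _).trans (min_le_right _ _)⟩
  have r4 : C * ρ ^ 2 ≤ η := by
    rw [le_div_iff₀ hC] at r3
    nlinarith [mul_pos r0 hC]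
  obtain ⟨c1, c2, hc1, -, hv⟩ := vol_ball
  have v0 : 0 < volume.real (ball (I : ℍ) ρ) :=
    lt_of_lt_of_le (by positivity) (hv I ρ r0 (by linarith)).1
  have f0 := H.vol_pos
  refine ⟨C / ρ ^ 2 * volume.real F / volume.real (ball (I : ℍ) ρ), by positivity, fun u hu => ?_⟩
  have hu1 : Sm u := hu.1
  have hu2 : Inv Γ u := hu.2
  have cu := hu1.continuous
  obtain ⟨a1, a2⟩ := hBav Γ F H ρ (fun w => u w ^ 2) r0 (cu.pow 2)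
    (fun γ hγ z => by simp only [hu2 γ hγ z]) fun w => sq_nonneg _
  obtain ⟨b1, b2⟩ := hBav Γ F H ρ (en u u) r0 (continuous_en hu1 hu1) (en_inv hu hu) (en_nn u)
  have e0 : 0 ≤ ∫ w in F, en u u w := integral_nonneg (en_nn u)
  have hz : ∀ z : ℍ, ∫ w in ball z ρ, u w ^ 2 ≤
      C * ρ ^ 2 * (∫ w in ball z ρ, en u u w) + C / ρ ^ 2 * (∫ w in F, |u w|) ^ 2 := fun z => by
    have h1 : ∫ w in ball z ρ, |u w| ≤ ∫ w in F, |u w| :=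
      H.int_emb_le isOpen_ball (i7 z ρ (r2.trans (by linarith [hm' z]))) cu.abs
        (fun γ hγ z => by simp only [hu2 γ hγ z]) fun w => abs_nonneg _
    have h2 : 0 ≤ ∫ w in ball z ρ, |u w| := integral_nonneg fun w => abs_nonneg _
    refine (hP u z ρ hu1 r0 r1).trans ?_
    gcongr
  have hk : IntegrableOn (fun _ : ℍ => C / ρ ^ 2 * (∫ w in F, |u w|) ^ 2) F :=
    H.integrableOn continuous_const
  have h3 := integral_mono a1 ((b1.const_mul (C * ρ ^ 2)).add hk) hz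
  rw [a2] at h3
  simp only [Pi.add_apply] at h3
  rw [integral_add (b1.const_mul _) hk, integral_const_mul, b2, setIntegral_const,
    smul_eq_mul] at h3
  refine le_of_mul_le_mul_left (h3.trans ?_) v0
  have h4 := mul_le_mul_of_nonneg_right r4 (mul_nonneg v0.le e0)
  have h5 : volume.real (ball (I : ℍ) ρ) * (C / ρ ^ 2 * volume.real F /
      volume.real (ball (I : ℍ) ρ) * (∫ w in F, |u w|) ^ 2) =
      volume.real F * (C / ρ ^ 2 * (∫ w in F, |u w|) ^ 2) := by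
    field_simp
  rw [mul_add, h5]
  linarith

end Pool.Agent.MP_4f0ed6_gt.U

end

section

set_option autoImplicit false
set_option linter.dupNamespace false

open UpperHalfPlane MeasureTheory Set Metric Filter Topology
open scoped MatrixGroups

namespace Pool.Agent.MP_4f0ed6_gt.U

theorem TTube_conj (β γ : SL(2, ℝ)) (w : ℍ) :
    dist ((β⁻¹ * γ * β) • w) w = dist (γ • β • w) (β • w) := by
  rw [← dist_smul β, mul_smul, mul_smul, smul_inv_smul]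

theorem TTube_lip (τ : Tb) (x y : ℍ) : τ.dp x ≤ τ.dp y + 2 * dist x y := by
  have h := dist_triangle4 (τ.γ • x) (τ.γ • y) y x
  rw [dist_smul, dist_comm y x] at h
  unfold Tb.dp
  linarith

theorem TTube_sub (hNF : StNF) {Γ : Subgroup SL(2, ℝ)} {e : ℝ} (hM : Mg Γ e) {τ τ' : Tb}
    (h : τ.Ok Γ) (h' : τ'.Ok Γ) {w : ℍ} {β : SL(2, ℝ)} (hβ : β ∈ Γ) (h1 : τ.dp w < 2 * e)
    (h2 : τ'.dp (β • w) < 2 * e) : τ'.T Γ e ⊆ τ.T Γ e := by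
  have m := Γ.mul_mem (Γ.mul_mem (Γ.inv_mem hβ) h'.mem) hβ
  obtain ⟨k, hk⟩ := h.cen _ m (hM w _ m _ h.mem ((TTube_conj β _ w).trans_lt h2) h1)
  have k0 : k ≠ 0 := fun c => (hNF τ' h'.nf).1 (by
    rwa [c, zpow_zero, mul_assoc, inv_mul_eq_one, right_eq_mul] at hk)
  rintro x ⟨α, hα, hx⟩
  refine ⟨β⁻¹ * α, Γ.mul_mem (Γ.inv_mem hβ) hα, ((hNF τ h.nf).2.2.2.2.2.2.1 k _ k0).trans_lt ?_⟩
  rwa [← hk, TTube_conj, mul_smul, smul_inv_smul]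

theorem stTube (hNC : StNC) (hCT : StCT) (hNF : StNF) (hIo : StIo) : StTube := by
  intro Γ F H e he hM
  obtain ⟨-, i2, -, i4, i5, i6, -⟩ := hIo Γ F H e he
  have pw : ∀ τ : Tb, τ.Ok Γ → ∀ (k : ℤ) w, τ.γ ^ k ≠ 1 → τ.dp w ≤ dist (τ.γ ^ k • w) w :=
    fun τ h k w hk => (hNF τ h.nf).2.2.2.2.2.2.1 k w fun c => hk (by rw [c, zpow_zero])
  have p4 : ∀ τ τ' : Tb, τ.Ok Γ → τ'.Ok Γ → ∀ w, ∀ β ∈ Γ, τ.dp w < 2 * e →
      τ'.dp (β • w) < 2 * e → τ.T Γ e = τ'.T Γ e := fun τ τ' h h' w β hβ h1 h2 =>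
    (TTube_sub hNF hM h' h (Γ.inv_mem hβ) h2 (by rwa [inv_smul_smul])).antisymm
      (TTube_sub hNF hM h h' hβ h1 h2)
  refine ⟨fun τ h w h1 => ?_, fun τ h w β hβ h1 h2 => ?_, fun w => ⟨fun h => ?_, ?_⟩, p4, ?_⟩
  · refine (le_min (i2 w) (i5 _ h.mem (hNF τ h.nf).1 w)).antisymm (min_le_iff.2 ?_)
    refine (le_or_gt e (io Γ e w)).imp_right fun c => ?_
    obtain ⟨β, hβ, b1, b2⟩ := i6 w c
    obtain ⟨k, rfl⟩ := h.cen β hβ (hM w β hβ _ h.mem (by linarith) h1)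
    exact b2 ▸ pw τ h k w b1
  · have m := Γ.mul_mem (Γ.mul_mem (Γ.inv_mem hβ) h.mem) hβ
    obtain ⟨k, hk⟩ := h.cen _ (Γ.inv_mem hβ) (hNC τ.γ β⁻¹ (H.hyp _ h.mem (hNF τ h.nf).1)
      ((em _).imp_right (H.hyp _ (Γ.inv_mem hβ))) (by
        rw [inv_inv]
        exact hM w _ m _ h.mem ((TTube_conj β _ w).trans_lt h2) h1))
    exact ⟨-k, by rw [zpow_neg, ← hk, inv_inv]⟩
  · obtain ⟨β, hβ, b1, b2⟩ := i6 w h
    obtain ⟨τ, hτ, k, rfl⟩ := hCT Γ F H β hβ b1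
    exact ⟨τ, hτ, 1, Γ.one_mem, by
      rw [one_smul]
      exact (pw τ hτ k w b1).trans_lt (b2.trans_lt h)⟩
  · rintro ⟨τ, hτ, β, hβ, h⟩
    rw [← i4 β hβ w]
    exact (i5 _ hτ.mem (hNF τ hτ.nf).1 _).trans_lt h
  · rintro τ τ' h h' w ⟨x, x1, α, hα, x2⟩ ⟨y, y1, β, hβ, y2⟩
    refine p4 τ τ' h h' (α • x) (β * α⁻¹) (Γ.mul_mem hβ (Γ.inv_mem hα))
      (lt_trans x2 (by linarith)) ?_
    have a1 := TTube_lip τ' (β • x) (β • y)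
    have a2 := dist_triangle_right x y w
    have a3 : τ'.dp (β • y) < e := y2
    rw [dist_smul] at a1
    rw [mem_ball] at x1 y1
    rw [mul_smul, inv_smul_smul]
    linarith

end Pool.Agent.MP_4f0ed6_gt.U

end

section

set_option autoImplicit false
set_option linter.dupNamespace false

open UpperHalfPlane MeasureTheory Set Metric Filter Topology
open scoped MatrixGroups ContDiff InnerProductSpace ENNReal Classical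

namespace Pool.Agent.MP_4f0ed6_gt.U

theorem TCnt_disj {Γ : Subgroup SL(2, ℝ)} {a : ℝ} {x y : ℍ}
    (h : ∀ γ ∈ Γ, a ≤ dist (γ • x) y) :
    Disjoint (orb Γ (ball x (a / 2))) (orb Γ (ball y (a / 2))) := by
  refine Set.disjoint_left.2 ?_
  rintro w ⟨α, hα, h1⟩ ⟨β, hβ, h2⟩
  have h3 := h (β * α⁻¹) (Γ.mul_mem hβ (Γ.inv_mem hα))
  have h4 : dist ((β * α⁻¹) • x) (β • w) = dist x (α • w) := by
    rw [← dist_smul (β * α⁻¹) x (α • w), smul_smul, inv_mul_cancel_right]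
  rw [mem_ball] at h1 h2
  have h5 := dist_triangle ((β * α⁻¹) • x) (β • w) y
  rw [h4, dist_comm x] at h5
  linarith

theorem stCnt : StCnt := by
  obtain ⟨c, C, hc, -, hv⟩ := vol_ball
  refine ⟨4 / c, by positivity, fun Γ F H a A ha ha' he hs => ?_⟩
  have hm : ∀ x : ℍ, MeasurableSet (orb Γ (ball x (a / 2))) := fun x =>
    (isOpen_orb isOpen_ball).measurableSet
  have h1 : ∀ x ∈ A, volume (F ∩ orb Γ (ball x (a / 2))) = volume (ball x (a / 2)) := by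
    intro x hx
    have := H.lint_emb isOpen_ball.measurableSet (he x hx) (f := fun _ => 1) measurable_const
      fun _ _ _ => rfl
    simpa using this
  have h2 : ∑ x ∈ A, volume.real (F ∩ orb Γ (ball x (a / 2))) ≤ volume.real F := by
    rw [← measureReal_biUnion_finset (fun x hx y hy hxy =>
        (TCnt_disj (hs x hx y hy hxy)).mono inter_subset_right inter_subset_right)
      (fun x _ => H.cpt.measurableSet.inter (hm x))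
      fun x _ => ne_top_of_le_ne_top H.vol_ne_top (measure_mono inter_subset_left)]
    exact measureReal_mono (iUnion₂_subset fun x _ => inter_subset_left) H.vol_ne_top
  have h3 : (A.card : ℝ) * (c * (a / 2) ^ 2) ≤
      ∑ x ∈ A, volume.real (F ∩ orb Γ (ball x (a / 2))) := by
    rw [← nsmul_eq_mul]
    refine Finset.card_nsmul_le_sum _ _ _ fun x hx => ?_
    rw [measureReal_def, h1 x hx]
    exact (hv x (a / 2) (by linarith) (by linarith)).1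
  rw [div_mul_eq_mul_div, le_div_iff₀ hc]
  nlinarith [h3.trans h2]

end Pool.Agent.MP_4f0ed6_gt.U

end

section

set_option autoImplicit false
set_option linter.dupNamespace false

open UpperHalfPlane MeasureTheory Set Metric Filter Topology
open scoped MatrixGroups ContDiff InnerProductSpace ENNReal Classical

namespace Pool.Agent.MP_4f0ed6_gt.U

theorem TCov_mono {X : Sf} {Δ Δ' : ℕ} {A A' : ℝ} (h : Has X Δ A) (h1 : Δ ≤ Δ') (h2 : A ≤ A') :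
    Has X Δ' A' := by
  obtain ⟨n, m, K, hK, hn⟩ := h
  exact ⟨n, m, K, { hK with deg := fun a => (hK.deg a).trans h1 }, hn.trans
    (mul_le_mul_of_nonneg_right h2 (add_nonneg zero_le_one measureReal_nonneg))⟩

theorem stCov (hMarg : StMarg) (hCa : StCa) (hCb : StCb) (hCc : StCc) (hIo : StIo) : StCov := by
  obtain ⟨e, h0, h1, hM⟩ := hMarg
  obtain ⟨Δa, Aa, ha0, ha⟩ := hCa e h0 h1
  obtain ⟨Δb, Ab, hb0, hb⟩ := hCb e h0 h1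
  obtain ⟨Δc, Ac, hc0, hc⟩ := hCc e h0 h1
  refine ⟨Δa + Δb + Δc + 1, Aa + Ab + Ac + 1, by omega, by linarith, fun X hX => ?_⟩
  by_cases h2 : ∀ p, X.Psd (orb X.Γ (ball p (io X.Γ e p / 10)))
  · by_cases h3 : ∀ τ : Tb, τ.Ok X.Γ → X.Psd (τ.T X.Γ e)
    · exact TCov_mono (hc X hX (hM _ _ hX.cl) h2 h3) (by omega) (by linarith)
    · push Not at h3
      exact TCov_mono (hb X hX (hM _ _ hX.cl) h2 h3) (by omega) (by linarith)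
  · push Not at h2
    obtain ⟨p, hp⟩ := h2
    exact TCov_mono (ha X hX ⟨p, _, div_pos ((hIo _ _ hX.cl e h0).1 p) (by norm_num), le_rfl, hp⟩)
      (by omega) (by linarith)

end Pool.Agent.MP_4f0ed6_gt.U

end

section

set_option autoImplicit false
set_option linter.dupNamespace false

open UpperHalfPlane MeasureTheory Set Metric Filter Topology
open scoped MatrixGroups ContDiff InnerProductSpace ENNReal Classical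

namespace Pool.Agent.MP_4f0ed6_gt.U

/-- quantifier over surfaces, covers of degree `Δ` and representations -/
def AllR (Δ : ℕ) (p : ∀ (X : Sf) (n m : ℕ) (_ : Cov n m) (H : Type) [NormedAddCommGroup H]
    [InnerProductSpace ℝ H] [CompleteSpace H] (_ : Pb n m H) (_ : SI X.Γ →ₗ[ℝ] H)
    (_ _ : H →L[ℝ] L2 n), Prop) : Prop :=
  ∀ (X : Sf) (n m : ℕ) (K : Cov n m) (H : Type) [NormedAddCommGroup H] [InnerProductSpace ℝ H]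
    [CompleteSpace H] (P : Pb n m H) (j : SI X.Γ →ₗ[ℝ] H) (Rx Ry : H →L[ℝ] L2 n),
    X.Ok → K.Ok X Δ → Rep X K P j Rx Ry → p X n m K H P j Rx Ry

noncomputable def Cov.wt {n m : ℕ} (K : Cov n m) (Γ : Subgroup SL(2, ℝ)) (S : Finset (Fin n))
    (w : ℍ) : ℝ := ∑ c ∈ S, (orb Γ (K.D c 2)).indicator (fun _ => 1 / K.s c ^ 2) w

noncomputable def bdc {n m : ℕ} {L : Type} (adj : Nd n m → Nd n m → Prop) (cl : Nd n m → L) :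
    Finset (Fin n) := Finset.univ.filter fun c => ∃ a, adj (.inl c) a ∧ cl a ≠ cl (.inl c)

/-- length of the gradient in a chart -/
noncomputable def Cov.gr {n m : ℕ} (K : Cov n m) (c : Fin n) (u : ℍ → ℝ) (y : ℂ) : ℝ :=
  √(dx (fun y' => u (K.pt c y')) y ^ 2 + dy (fun y' => u (K.pt c y')) y ^ 2)

structure Frm (X : Sf) (q : SI X.Γ →ₗ[ℝ] SI X.Γ →ₗ[ℝ] ℝ) (M : ℝ) : Prop where
  M0 : 0 ≤ M
  sym : ∀ u v, q u v = q v u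
  psd : ∀ u, 0 ≤ q u u
  up : ∀ a b : SI X.Γ, (∀ w, 0 ≤ a.1 w) → (∀ w, 0 ≤ b.1 w) →
    q a b ≤ (∫ w in X.F, en a.1 b.1 w) + M * ∫ w in X.F, a.1 w * b.1 w

def StH : Prop := ∀ X : Sf, X.Ok → ∃ (H : Type) (_ : NormedAddCommGroup H)
  (_ : InnerProductSpace ℝ H) (_ : CompleteSpace H) (j : SI X.Γ →ₗ[ℝ] H)
  (Qb : H →L[ℝ] H →L[ℝ] ℝ), Rp0 X j ∧ (∀ u v : SI X.Γ, Qb (j u) (j v) = X.Q u.1 v.1) ∧
    ∀ u v, Qb u v = Qb v u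

def StR : Prop := ∀ (X : Sf) (n m Δ : ℕ) (K : Cov n m) (H : Type) [NormedAddCommGroup H]
  [InnerProductSpace ℝ H] (j : SI X.Γ →ₗ[ℝ] H), X.Ok → K.Ok X Δ → Rp0 X j →
  ∃ R Rx Ry : H →L[ℝ] L2 n, Rp1 X K j R Rx Ry

def StGreen : Prop := ∀ (Γ : Subgroup SL(2, ℝ)) (F : Set ℍ), Closed Γ F → ∀ f ∈ SI Γ,
  ∀ g : ℍ → ℝ, Continuous g → Inv Γ g → (∀ z, lap f z = g z) → ∀ v ∈ SI Γ,
  ∫ z in F, en f v z = ∫ z in F, g z * v z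

def StBump : Prop := ∀ a b : ℝ, 0 < a → a < b → b ≤ 20 → ∃ C : ℝ, 0 < C ∧
  ∀ (Γ : Subgroup SL(2, ℝ)) (F : Set ℍ), Closed Γ F → ∀ (z : ℍ) (s : ℝ), 0 < s → s ≤ 1 / 40 →
  Emb Γ (Dk z s 20) → ∃ ψ ∈ SI Γ, (∀ w, 0 ≤ ψ w) ∧ (∀ w, ψ w ≤ 1) ∧
    (∀ w ∈ orb Γ (Dk z s a), ψ w = 1) ∧ tsupport ψ ⊆ orb Γ (Dk z s b) ∧
    ∀ w, en ψ ψ w ≤ C / s ^ 2

def StPiece : Prop := ∃ C : ℝ, 0 < C ∧ ∀ (Δ : ℕ) (X : Sf) (n m : ℕ) (K : Cov n m), X.Ok →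
  K.Ok X Δ → ∃ ψ : Nd n m → ℍ → ℝ, (∀ a, ψ a ∈ SI X.Γ) ∧ (∀ a w, 0 ≤ ψ a w) ∧
    (∀ a, tsupport (ψ a) ⊆ K.O X.Γ a) ∧ (∀ w, ∃ a, (1 / 2 : ℝ) ^ Δ ≤ ψ a w) ∧
    ∀ a w, en (ψ a) (ψ a) w ≤ C * Δ * K.wt X.Γ Finset.univ w

def StPart : Prop := ∀ Δ : ℕ, ∃ C : ℝ, 0 < C ∧ ∀ (X : Sf) (n m : ℕ) (K : Cov n m), X.Ok →
  K.Ok X Δ → ∀ (L : Type) [Fintype L] (cl : Nd n m → L), ∃ χ : L → ℍ → ℝ,
    (∀ l, χ l ∈ SI X.Γ) ∧ (∀ w, ∑ l, χ l w ^ 2 = 1) ∧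
    (∀ l, tsupport (χ l) ⊆ ⋃ a ∈ cl ⁻¹' {l}, K.O X.Γ a) ∧
    ∀ w, ∑ l, en (χ l) (χ l) w ≤ C * K.wt X.Γ (bdc (K.Adj X.Γ) cl) w

def StEta : Prop := ∀ Δ : ℕ, ∃ C : ℝ, 0 < C ∧ ∀ (X : Sf) (n m : ℕ) (K : Cov n m), X.Ok →
  K.Ok X Δ → ∀ A : Set (Nd n m), ∃ η ∈ SI X.Γ,
    (∀ c, (∀ a, K.Adj X.Γ (.inl c) a → a ∈ A) → ∀ w ∈ K.D c 20, η w = 1) ∧
    (∀ c, (∀ a, K.Adj X.Γ (.inl c) a → a ∉ A) → ∀ w ∈ K.D c 20, η w = 0) ∧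
    ∀ u ∈ SI X.Γ, ∀ v ∈ SI X.Γ, (∀ w, 0 ≤ v w) → |∫ w in X.F, v w * en u η w| ≤
      C * ∑ c ∈ bd (K.Adj X.Γ) A, ∫ y in ball (0 : ℂ) 2, v (K.pt c y) * K.gr c u y

def StTrf : Prop := ∀ (Δ : ℕ) (X : Sf) (n m : ℕ) (K : Cov n m), X.Ok → K.Ok X Δ →
  (∀ (c : Fin n) (t : ℝ) (h : ℍ → ℝ), t ≤ 20 → Continuous h → Inv X.Γ h → (∀ w, 0 ≤ h w) →
    (∀ w, w ∉ orb X.Γ (K.D c t) → h w = 0) →
    ∑ c', ∫ y in ball (0 : ℂ) 16, h (K.pt c' y) ≤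
      36 * Δ * ∫ y in ball (0 : ℂ) t, h (K.pt c y)) ∧
  ∃ M : ℝ, 0 < M ∧ ∀ h : ℍ → ℝ, Continuous h → Inv X.Γ h → (∀ w, 0 ≤ h w) →
    ∑ c', ∫ y in ball (0 : ℂ) 16, h (K.pt c' y) ≤ M * ∫ w in X.F, h w

/-- replacing `u` by the square root of `u ^ 2 + ε ^ 2` -/
def StRoot : Prop := ∀ Δ : ℕ, AllR Δ fun X n _ _ _ _ _ _ P j _ _ => ∀ W : LI n, ∃ C : ℝ, 0 ≤ C ∧
  ∀ (u : SI X.Γ) (ε : ℝ), 0 < ε → ∃ v : SI X.Γ, (∀ w, v.1 w = √(u.1 w ^ 2 + ε ^ 2)) ∧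
    P.q W (j v) (j v) ≤ P.q W (j u) (j u) + C * ε ^ 2 ∧ P.R (j u) ≤ P.R (j v) ∧ 0 ≤ P.R (j v)

def StApx : Prop := ∀ Δ : ℕ, AllR Δ fun X n _ _ _ _ _ _ P j _ _ => ∀ W : LI n, P.Co W →
  ∀ x : L2 n, 0 ≤ x → 0 ≤ P.G W x ∧ ∃ u : ℕ → SI X.Γ, (∀ k w, 0 ≤ (u k).1 w) ∧
    Tendsto (fun k => j (u k)) atTop (𝓝 (P.sol W x))

/-- the approximants read in a chart -/
def StApc : Prop := ∀ Δ : ℕ, AllR Δ fun X n _ K H _ _ _ P j Rx Ry => ∀ (a : H) (u : ℕ → SI X.Γ),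
  (∀ k w, 0 ≤ (u k).1 w) → Tendsto (fun k => j (u k)) atTop (𝓝 a) → ∀ c : Fin n,
  (∃ U, Apx U (fun y => P.R a (c, y)) (fun y => Rx a (c, y)) (fun y => Ry a (c, y))) ∧
  Tendsto (fun k => eLpNorm ((fun y => (u k).1 (K.pt c y)) - fun y => P.R a (c, y)) 2 mu)
    atTop (𝓝 0) ∧
  Tendsto (fun k => eLpNorm (dx (fun y => (u k).1 (K.pt c y)) - fun y => Rx a (c, y)) 2 mu)
    atTop (𝓝 0) ∧
  Tendsto (fun k => eLpNorm (dy (fun y => (u k).1 (K.pt c y)) - fun y => Ry a (c, y)) 2 mu)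
    atTop (𝓝 0) ∧
  Tendsto (fun k => eLpNorm (K.gr c (u k).1 - fun y => √(Rx a (c, y) ^ 2 + Ry a (c, y) ^ 2)) 2 mu)
    atTop (𝓝 0)

/-- a test function of a chart, read on the surface -/
def StTest : Prop := ∀ Δ : ℕ, AllR Δ fun X n _ K _ _ _ _ P j _ _ => ∀ (c : Fin n) (η : ℂ → ℝ),
  ContDiff ℝ ∞ η → tsupport η ⊆ ball 0 16 → (∀ y, 0 ≤ η y) → ∃ ψ : SI X.Γ, 0 ≤ P.R (j ψ) ∧
    ∀ (K0 : ℝ) (W : LI n), 0 ≤ K0 → Bd W K0 → ∀ u : SI X.Γ, (∀ w, 0 ≤ u.1 w) →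
      P.q W (j u) (j ψ) ≤ ∫ y, (dx (fun y => u.1 (K.pt c y)) y * dx η y +
        dy (fun y => u.1 (K.pt c y)) y * dy η y + 36 * Δ * K0 * (u.1 (K.pt c y) * η y)) ∂mu

def StSup : Prop := ∀ Δ : ℕ, AllR Δ fun _ n _ _ _ _ _ _ P _ Rx Ry => ∀ (K0 : ℝ) (W : LI n),
  0 ≤ K0 → P.Co W → Bd W K0 → ∀ x : L2 n, 0 ≤ x → ∀ c : Fin n,
  Sup (36 * Δ * K0) (fun y => P.G W x (c, y)) (fun y => Rx (P.sol W x) (c, y))
    (fun y => Ry (P.sol W x) (c, y))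

def StRevA : Prop := ∀ Δ : ℕ, ∃ CR : ℝ → ℝ, (∀ K, 0 < CR K) ∧
  AllR Δ fun _ _ _ _ _ _ _ _ P _ _ _ => P.Rev CR

def StFlux1 : Prop := ∀ Δ : ℕ, ∃ C : ℝ, 0 < C ∧ AllR Δ fun _ n m _ _ _ _ _ P _ Rx Ry =>
  ∀ W : LI n, P.Co W → ∀ (A : Set (Nd n m)) (x y : L2 n), 0 ≤ x → 0 ≤ y →
    On {c | ∀ a, P.adj (.inl c) a → a ∈ A} x → On {c | ∀ a, P.adj (.inl c) a → a ∉ A} y →
    ⟪x, P.G W y⟫_ℝ ≤ C * ∑ c ∈ bd P.adj A,
      ((∫ z in ball (0 : ℂ) 2, P.G W y (c, z) *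
        √(Rx (P.sol W x) (c, z) ^ 2 + Ry (P.sol W x) (c, z) ^ 2)) +
      ∫ z in ball (0 : ℂ) 2, P.G W x (c, z) *
        √(Rx (P.sol W y) (c, z) ^ 2 + Ry (P.sol W y) (c, z) ^ 2))

/-- the commutator identity for smooth functions and the bound of the multiplier -/
def StComm : Prop := ∀ Δ : ℕ, AllR Δ fun X n _ _ _ _ _ _ P j _ _ => ∀ η : SI X.Γ,
  ∃ (T : SI X.Γ → SI X.Γ) (C : ℝ), (∀ u w, (T u).1 w = η.1 w * u.1 w) ∧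
    (∀ u, ‖j (T u)‖ ≤ C * ‖j u‖) ∧ ∀ (W : LI n) (u v : SI X.Γ),
      P.q W (j u) (j (T v)) - P.q W (j v) (j (T u)) =
        (∫ w in X.F, v.1 w * en u.1 η.1 w) - ∫ w in X.F, u.1 w * en v.1 η.1 w

def StFluxA : Prop := ∀ Δ : ℕ, ∃ Cf : ℝ, 0 < Cf ∧ AllR Δ fun _ _ _ _ _ _ _ _ P _ _ _ => P.Flux Cf

def StL1a : Prop := ∀ X : Sf, X.Ok → ∀ (q : SI X.Γ →ₗ[ℝ] SI X.Γ →ₗ[ℝ] ℝ) (M : ℝ), Frm X q M →
  ∀ (z : ℍ) (s : ℝ), 0 < s → s ≤ 1 / 40 → ∃ C : ℝ, 0 < C ∧ ∀ a : SI X.Γ, (∀ w, 0 ≤ a.1 w) →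
    ∫ w in Dk z s 12, a.1 w ≤ C * ((∫ w in Dk z s 1, a.1 w) + √(q a a))

def StL1 : Prop := ∀ X : Sf, X.Ok → ∀ (q : SI X.Γ →ₗ[ℝ] SI X.Γ →ₗ[ℝ] ℝ) (M : ℝ), Frm X q M →
  ∀ (z : ℍ) (s : ℝ), 0 < s → s ≤ 1 / 40 → ∃ C : ℝ, 0 < C ∧ ∀ a : SI X.Γ, (∀ w, 0 ≤ a.1 w) →
    ∫ w in X.F, a.1 w ≤ C * ((∫ w in Dk z s 1, a.1 w) + √(q a a))

def StCo1 : Prop := ∀ Δ : ℕ, AllR Δ fun X n _ _ _ _ _ _ P j _ _ => ∀ W : LI n, 0 ≤ W →
  (∀ u : SI X.Γ, 0 ≤ P.q W (j u) (j u)) → ∀ z : Fin n, ∃ C : ℝ, 0 < C ∧ ∀ u : SI X.Γ,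
    (∫ w in X.F, |u.1 w|) ^ 2 ≤ C * P.q (W + ind z 3) (j u) (j u)

def StCoer : Prop := ∀ Δ : ℕ, AllR Δ fun X n _ _ _ _ _ _ P j _ _ => ∀ W : LI n, 0 ≤ W →
  (∀ u : SI X.Γ, 0 ≤ P.q W (j u) (j u)) → ∀ z : Fin n, P.Co (W + ind z 3)

def StIms0 : Prop := ∀ Δ : ℕ, ∃ κ0 : ℝ, 0 ≤ κ0 ∧ ∀ (X : Sf) (n m : ℕ) (K : Cov n m), X.Ok →
  K.Ok X Δ → ∀ cl : Nd n m → Nd n m, (∀ l, X.Psd (⋃ a ∈ cl ⁻¹' {l}, K.O X.Γ a)) →
  ∀ u ∈ SI X.Γ, 0 ≤ X.Q u u +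
    κ0 * ∑ c ∈ bdc (K.Adj X.Γ) cl, ∫ y in ball (0 : ℂ) 3, u (K.pt c y) * u (K.pt c y)

def StImsA : Prop := ∀ Δ : ℕ, ∃ κ0 : ℝ, 0 ≤ κ0 ∧ AllR Δ fun _ _ _ _ _ _ _ _ P _ _ _ => P.Ims κ0

def StLocA : Prop := ∀ Δ : ℕ, ∃ Cl : ℝ, 0 < Cl ∧ AllR Δ fun X _ _ _ _ _ _ _ P j _ _ =>
  (∀ f ∈ P.Kr, ∃ f0 : SI X.Γ, j f0 = f ∧ ∀ v ∈ SI X.Γ, X.Q f0.1 v = 0) → P.Loc Cl

def StAx : Prop := ∀ Δ : ℕ, 1 ≤ Δ → ∃ k : Cst, ∀ (X : Sf) (n m : ℕ) (K : Cov n m), X.Ok →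
  K.Ok X Δ → ∀ K0 : Submodule ℝ (SI X.Γ), FiniteDimensional ℝ K0 →
  (∀ f ∈ K0, ∀ v ∈ SI X.Γ, X.Q f.1 v = 0) →
  ∃ (H : Type) (_ : NormedAddCommGroup H) (_ : InnerProductSpace ℝ H) (_ : CompleteSpace H)
    (P : Pb n m H), P.Ax k ∧ Module.finrank ℝ P.Kr = Module.finrank ℝ K0

def StFin : Prop := ∀ ε : ℝ, 0 < ε → ∃ γ₀ : ℕ, ∀ γ : ℕ, γ₀ ≤ γ →
  ∀ (Γ : Subgroup SL(2, ℝ)) (F : Set ℍ), Closed Γ F →
  volume F = ENNReal.ofReal (4 * Real.pi * ((γ : ℝ) - 1)) →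
  ∀ (ρ : ℍ → ℝ) (lam : ℝ), Sm ρ → Inv Γ ρ → (∀ z, 0 < ρ z) → 0 < lam →
  (∀ u : ℍ → ℝ, Sm u → Inv Γ u → ∫ z in F, u z * ρ z = 0 →
    lam * ∫ z in F, u z ^ 2 * ρ z ≤ ∫ z in F, en u u z) →
  ∀ (k : ℕ) (f : Fin k → ℍ → ℝ),
    (∀ i, Sm (f i) ∧ Inv Γ (f i) ∧ ∀ z, lap (f i) z = lam * ρ z * f i z) →
    LinearIndependent ℝ f → (k : ℝ) ≤ ε * γ

end Pool.Agent.MP_4f0ed6_gt.U

end

section

set_option autoImplicit false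
set_option linter.dupNamespace false

open UpperHalfPlane MeasureTheory Set Metric Filter Topology
open scoped MatrixGroups ContDiff InnerProductSpace ENNReal Classical

namespace Pool.Agent.MP_4f0ed6_gt.U

theorem stRevA (hSup : StSup) (hRev2 : StRev2) : StRevA := by
  intro Δ
  have h : ∀ K : ℝ, ∃ C : ℝ, 0 < C ∧ (0 ≤ K → ∀ a ax ay b bx bz : ℂ → ℝ,
      Sup (36 * Δ * K) a ax ay → Sup (36 * Δ * K) b bx bz →
      √(∫ y in ball 0 10, a y ^ 2) * √(∫ y in ball 0 10, b y ^ 2) ≤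
        C * ∫ y in ball 0 1, a y * b y) := fun K => by
    by_cases hK : 0 ≤ K
    · obtain ⟨C, h1, h2⟩ := hRev2 (36 * Δ * K) (by positivity)
      exact ⟨C, h1, fun _ => h2⟩
    · exact ⟨1, one_pos, fun h => absurd h hK⟩
  choose CR h1 h2 using h
  refine ⟨CR, h1, fun X n m K H _ _ _ P j Rx Ry hX hK hR => ?_⟩
  intro K0 W W' h0 hW hW' bW bW' x y hx hy c
  rw [norm_ct_eq c (by norm_num), norm_ct_eq c (by norm_num), inner_ct_eq c (by norm_num)]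
  exact h2 K0 h0 _ _ _ _ _ _ (hSup Δ X n m K H P j Rx Ry hX hK hR K0 W h0 hW bW x hx c)
    (hSup Δ X n m K H P j Rx Ry hX hK hR K0 W' h0 hW' bW' y hy c)

end Pool.Agent.MP_4f0ed6_gt.U

end

section

set_option autoImplicit false
set_option linter.dupNamespace false

open UpperHalfPlane MeasureTheory Set Metric Filter Topology
open scoped MatrixGroups ContDiff InnerProductSpace ENNReal

namespace Pool.Agent.MP_4f0ed6_gt.U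

theorem stBump  : StBump := by
  intro a b ha hab hb
  obtain ⟨ζ, z1, z2, z3, z4, z5, M, z6⟩ := exists_cut ha hab
  have hM : 0 ≤ M := le_trans (by positivity) (z6 0)
  refine ⟨9 / 4 * M + 1, by positivity, fun Γ F H z s h0 h1 hE => ?_⟩
  obtain ⟨p1, p2⟩ := push_supp (z := z) h0 h1 hb z5
  have p3 : tsupport (push z s ζ) ⊆ Dk z s 20 := p1.trans (Dk_mono h0 hb)
  have sm := push_sm z1 z s
  have mem := H.per_mem sm p2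
  have sup : tsupport (per Γ (push z s ζ)) ⊆ orb Γ (Dk z s b) :=
    (H.tsupport_per p2).trans (orb_mono p1)
  have key : ∀ w ∈ tsupport (per Γ (push z s ζ)), ∃ γ ∈ Γ, ∃ y, ‖y‖ < 20 ∧ ch z s y = γ • w := by
    intro w hw
    obtain ⟨γ, g1, g2⟩ := sup hw
    exact ⟨γ, g1, exists_ch h0 (Dk_mono h0 hb g2)⟩
  refine ⟨_, mem, per_nn fun w => z2 _, fun w => ?_, ?_, sup, fun w => ?_⟩
  · by_cases hw : w ∈ tsupport (per Γ (push z s ζ))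
    · obtain ⟨γ, g1, y, g2, g3⟩ := key w hw
      rw [← mem.2 γ g1 w, ← g3, per_emb hE p3 (ch_mem_Dk h0 h1 (by norm_num) g2)]
      exact z3 _
    · rw [image_eq_zero_of_notMem_tsupport hw]
      exact zero_le_one
  · rintro w ⟨γ, g1, g2⟩
    obtain ⟨y, g3, g4⟩ := exists_ch h0 g2
    rw [← mem.2 γ g1 w, per_emb hE p3 (Dk_mono h0 (by linarith) g2), ← g4,
      push_ch h0 h1 (by linarith)]
    exact z4 y g3.le
  · by_cases hw : w ∈ tsupport (per Γ (push z s ζ))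
    · obtain ⟨γ, g1, y, g2, g3⟩ := key w hw
      have e1 : per Γ (push z s ζ) =ᶠ[𝓝 (ch z s y)] push z s ζ := by
        filter_upwards [(isOpen_Dk z s 20).mem_nhds (ch_mem_Dk h0 h1 (by norm_num) g2)] with x hx
        exact per_emb hE p3 hx
      rw [← en_inv mem mem γ g1 w, ← g3, en_congr e1 e1]
      have y40 : ‖y‖ < 40 := by linarith
      have e2 := en_ch (z := z) h0 h1 y40 sm sm
      rw [dx_congr (push_ch' h0 h1 y40), dy_congr (push_ch' h0 h1 y40)] at e2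
      have e3 := mul_le_mul_of_nonneg_right (jac_bd (z := z) h0 h1 g2).1
        (en_nn (push z s ζ) (ch z s y))
      rw [le_div_iff₀ (by positivity)]
      nlinarith [z6 y]
    · rw [en_eq_zero hw]
      positivity

end Pool.Agent.MP_4f0ed6_gt.U

end

section

set_option autoImplicit false
set_option linter.dupNamespace false

open UpperHalfPlane MeasureTheory Set Metric Filter Topology
open scoped MatrixGroups ContDiff InnerProductSpace ENNReal Classical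

namespace Pool.Agent.MP_4f0ed6_gt.U

theorem TFluxA_nn {K : ℝ} {g gx gy : ℂ → ℝ} (h : Sup K g gx gy) :
    ∀ᵐ y ∂volume.restrict (ball (0 : ℂ) 3), 0 ≤ g y := by
  obtain ⟨u, hu⟩ := h.apx
  have h1 : ∀ᵐ y ∂mu, 0 ≤ g y :=
    hu.ae.mono fun y hy => ge_of_tendsto' hy fun k => hu.nn k y
  exact ae_restrict_of_ae_restrict_of_subset (ball_subset_ball (by norm_num)) h1

theorem TFluxA_sqrt {D K : ℝ} (hD : 0 ≤ D) (hK : 0 ≤ K) :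
    √(1 + D * K) ≤ √(D + 1) * √(1 + K) := by
  rw [← Real.sqrt_mul (by linarith)]
  exact Real.sqrt_le_sqrt (by nlinarith [mul_nonneg hD hK])

theorem stFluxA (hFlux1 : StFlux1) (hSup : StSup) (hFl2 : StFl2) : StFluxA := by
  intro Δ
  obtain ⟨C, hC, h1⟩ := hFlux1 Δ
  obtain ⟨C2, hC2, h2⟩ := hFl2
  have hD : (0 : ℝ) ≤ 36 * Δ := by positivity
  refine ⟨C * (2 * (C2 * √(36 * Δ + 1))), by positivity, ?_⟩
  intro X n m K H _ _ _ P j Rx Ry hX hK hR K0 W hK0 hW hB A x y hx hy hxA hyA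
  refine (h1 X n m K H P j Rx Ry hX hK hR W hW A x y hx hy hxA hyA).trans ?_
  rw [mul_assoc C, mul_assoc C, Finset.mul_sum _ _ (2 * _ * _)]
  refine mul_le_mul_of_nonneg_left (Finset.sum_le_sum fun c _ => ?_) hC.le
  have sx := hSup Δ X n m K H P j Rx Ry hX hK hR K0 W hK0 hW hB x hx c
  have sy := hSup Δ X n m K H P j Rx Ry hX hK hR K0 W hK0 hW hB y hy c
  have e1 := h2 _ _ _ _ _ _ _ (mul_nonneg hD hK0) sx sy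
  have e2 := h2 _ _ _ _ _ _ _ (mul_nonneg hD hK0) sy sx
  have e3 : ⟪pr c (P.G W x), P.G W y⟫_ℝ =
      ∫ z in ball (0 : ℂ) 3, P.G W x (c, z) * P.G W y (c, z) :=
    inner_ct_eq c (by norm_num) _ _
  have e4 : ∫ z in ball (0 : ℂ) 3, P.G W y (c, z) * P.G W x (c, z) =
      ∫ z in ball (0 : ℂ) 3, P.G W x (c, z) * P.G W y (c, z) := by
    simp only [mul_comm]
  have e5 : 0 ≤ ∫ z in ball (0 : ℂ) 3, P.G W x (c, z) * P.G W y (c, z) :=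
    integral_nonneg_of_ae ((TFluxA_nn sx).mp ((TFluxA_nn sy).mono fun z a b => mul_nonneg b a))
  have e6 := mul_le_mul_of_nonneg_right
    (mul_le_mul_of_nonneg_left (TFluxA_sqrt hD hK0) hC2.le) e5
  rw [e4] at e2
  rw [e3]
  linarith

end Pool.Agent.MP_4f0ed6_gt.U

end

section

set_option autoImplicit false
set_option linter.dupNamespace false

open UpperHalfPlane MeasureTheory Set Metric Filter Topology
open scoped MatrixGroups ContDiff InnerProductSpace ENNReal Classical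

namespace Pool.Agent.MP_4f0ed6_gt.U

/-- the gain of the random potential over `N` shells, iterated over groups of shells -/
noncomputable def Cst.th2 (k : Cst) (K : ℝ) (M N : ℕ) : ℝ :=
  (1 / 2) ^ (N / ⌈2 * ((M : ℝ) + 1) * (1 + k.Cf * √(1 + K))⌉₊)

def StRUSb : Prop := ∀ k : Cst, All k fun n _ _ _ _ _ P =>
  ∀ (K : ℝ) (W : LI n), 0 ≤ K → P.Co W → Bd W K → ∀ (M N : ℕ) (c : Fin n) (x y : L2 n),
    0 ≤ x → 0 ≤ y → On {c} x → On {c' | c' ∉ bl P.adj (2 * N) c} y →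
    ∑ ξ : Fin n → Fin (M + 1), ⟪x, P.G (W + WZ (k.cb (K + 1)) (Zx ξ)) y⟫_ℝ ≤
      (Fintype.card (Fin n → Fin (M + 1)) : ℝ) * (k.th2 (K + 1) M N * ⟪x, P.G W y⟫_ℝ)

def StSIb : Prop := ∀ k : Cst, All k fun n _ _ _ _ _ P =>
  ∀ (κ : ℝ) (Z0 : Finset (Fin n)) (R N M ℓ : ℕ) (l : List Bool) (c : Fin n), P.Good k Z0 R →
  2 * (l.length * ℓ + 4 * N) + 3 ≤ R → k.κ0 + 1 ≤ κ → c ∈ Z0ᶜ →
  ∃ g : L2 n, (∀ Z, DR (P.bz k κ Z0 (2 * N) Z).B (k.CR (κ + 2)) c g) ∧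
    ∑ ξ : Fin n → Fin (M + 1), sumS l.length (fun σ => if Sh (P.rel Z0 ℓ) c σ then
      ⟪g, (P.bz k κ Z0 (2 * N) (Zx ξ)).XS l σ c ((P.bz k κ Z0 (2 * N) (Zx ξ)).B g)⟫_ℝ else 0) ≤
    (Fintype.card (Fin n → Fin (M + 1)) : ℝ) *
      ((1 - ((k.Δ : ℝ) ^ (2 * N))⁻¹) ^ l.count true + k.th2 (κ + 2) M N)

def StAvb : Prop := ∀ (k : Cst) (κ : ℝ), k.κ0 + 1 ≤ κ / 2 →
  (2 * k.Δ : ℝ) ^ 2 ≤ 1 + κ / (2 * k.Cf * √(1 + κ)) → ∃ k0 : ℕ, ∀ M N j ℓ R : ℕ,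
  2 * ((6 * j + 5) * ℓ + 4 * N) + 3 ≤ R → (2 * (6 * j + 5) + 1) * (2 * (2 * N) + 3) ≤ R →
  All k fun n _ _ _ _ _ P => (Module.finrank ℝ P.Kr : ℝ) ≤
    k0 * ((k.Δ : ℝ) ^ (2 * R + 1) + 1) + n * (k0 / (M + 1) +
    k.CR (κ + 2) ^ 2 * ((1 - ((k.Δ : ℝ) ^ (2 * N))⁻¹) ^ (2 * j + 2) + k.th2 (κ + 2) M N +
      k.tl (2 * N) (6 * j + 5) ℓ))

/-- the choice of the density -/
def StNum1 : Prop := ∀ a : ℝ, 0 < a → ∃ C : ℝ, 0 < C ∧ ∀ N : ℕ, 3 ≤ N → ∃ M : ℕ,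
  1 / ((M : ℝ) + 1) ≤ C * Real.log N / N ∧
  (1 / 2 : ℝ) ^ (N / ⌈2 * ((M : ℝ) + 1) * a⌉₊) ≤ C * Real.log N / N

/-- the choice of the power, of the gap and of the radius -/
def StNum2 : Prop := ∀ k : Cst, 1 ≤ k.Δ → ∀ k0 : ℕ, ∃ C : ℝ, 0 < C ∧ ∀ N : ℕ, 3 ≤ N →
  ∃ j ℓ R : ℕ, 2 * ((6 * j + 5) * ℓ + 4 * N) + 3 ≤ R ∧
    (2 * (6 * j + 5) + 1) * (2 * (2 * N) + 3) ≤ R ∧
    (1 - ((k.Δ : ℝ) ^ (2 * N))⁻¹) ^ (2 * j + 2) ≤ 1 / N ∧ k.tl (2 * N) (6 * j + 5) ℓ ≤ 1 / N ∧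
    k0 * ((k.Δ : ℝ) ^ (2 * R + 1) + 1) ≤ Real.exp (Real.exp (C * N))

def StAbsb : Prop := ∀ k : Cst, ∃ C : ℝ, 0 < C ∧ ∀ N : ℕ, 3 ≤ N →
  All k fun n _ _ _ _ _ P => (Module.finrank ℝ P.Kr : ℝ) ≤
    Real.exp (Real.exp (C * N)) + C * n * (Real.log N / N)

def StNum3 : Prop := ∀ C A : ℝ, 0 < C → 0 < A → ∃ (C' : ℝ) (γ₀ : ℕ), 1 ≤ γ₀ ∧ ∀ γ : ℕ, γ₀ ≤ γ →
  ∃ N : ℕ, 3 ≤ N ∧ Real.exp (Real.exp (C * N)) + C * (A * γ) * (Real.log N / N) ≤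
    C' * γ * Real.log (Real.log (Real.log γ)) / Real.log (Real.log γ)

def StFinb : Prop := ∃ (C : ℝ) (γ₀ : ℕ), ∀ γ : ℕ, γ₀ ≤ γ →
  ∀ (Γ : Subgroup SL(2, ℝ)) (F : Set ℍ), Closed Γ F →
  volume F = ENNReal.ofReal (4 * Real.pi * ((γ : ℝ) - 1)) →
  ∀ (ρ : ℍ → ℝ) (lam : ℝ), Sm ρ → Inv Γ ρ → (∀ z, 0 < ρ z) → 0 < lam →
  (∀ u : ℍ → ℝ, Sm u → Inv Γ u → ∫ z in F, u z * ρ z = 0 →
    lam * ∫ z in F, u z ^ 2 * ρ z ≤ ∫ z in F, en u u z) →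
  ∀ (k : ℕ) (f : Fin k → ℍ → ℝ),
    (∀ i, Sm (f i) ∧ Inv Γ (f i) ∧ ∀ z, lap (f i) z = lam * ρ z * f i z) →
    LinearIndependent ℝ f →
    (k : ℝ) ≤ C * γ * Real.log (Real.log (Real.log γ)) / Real.log (Real.log γ)

end Pool.Agent.MP_4f0ed6_gt.U

end

section

set_option autoImplicit false
set_option linter.dupNamespace false

namespace Pool.Agent.MP_4f0ed6_gt.U

theorem TNum1_pow {N t : ℕ} (hN : 0 < (N : ℝ)) (h0 : 0 ≤ Real.log N)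
    (h : 2 * Real.log N ≤ t + 1) : (1 / 2 : ℝ) ^ t ≤ 2 / N := by
  have h2 := Real.log_two_gt_d9
  have h3 : (N : ℝ) ≤ 2 ^ (t + 1) := by
    rw [← Real.log_le_log_iff hN (by positivity), Real.log_pow]
    push_cast
    nlinarith
  rw [one_div, inv_pow, inv_eq_one_div, div_le_div_iff₀ (by positivity) hN]
  rw [pow_succ] at h3
  linarith

theorem stNum1 : StNum1 := by
  intro a ha
  refine ⟨8 * a + 4, by positivity, fun N hN => ?_⟩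
  have hN' : (3 : ℝ) ≤ N := by exact_mod_cast hN
  have hN0 : (0 : ℝ) < N := by linarith
  have hL : 1 ≤ Real.log N := by
    rw [Real.le_log_iff_exp_le hN0]
    linarith [Real.exp_one_lt_d9]
  obtain ⟨x, hx⟩ : ∃ x : ℝ, x = N / (8 * a * Real.log N) := ⟨_, rfl⟩
  have hx0 : 0 < x := by rw [hx]; positivity
  have hx1 : x * (8 * a * Real.log N) = N := by rw [hx]; field_simp
  refine ⟨⌊x⌋₊, ?_, ?_⟩
  · have h1 := Nat.lt_floor_add_one x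
    rw [div_le_div_iff₀ (by positivity) hN0]
    have h2 : 0 ≤ Real.log N * ((⌊x⌋₊ : ℝ) + 1) := by positivity
    have h3 : 0 < 8 * a * Real.log N := by positivity
    nlinarith [mul_lt_mul_of_pos_right h1 h3]
  · by_cases hc : (8 * a + 4) * Real.log N ≤ N
    · obtain ⟨s, hs⟩ : ∃ s, s = ⌈2 * ((⌊x⌋₊ : ℝ) + 1) * a⌉₊ := ⟨_, rfl⟩
      rw [← hs]
      have s0 : 0 < s := by rw [hs]; exact Nat.ceil_pos.2 (by positivity)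
      have s1 : (s : ℝ) ≤ 2 * (x + 1) * a + 1 := by
        have h1 := Nat.ceil_lt_add_one (a := 2 * ((⌊x⌋₊ : ℝ) + 1) * a) (by positivity)
        have h2 := Nat.floor_le hx0.le
        rw [← hs] at h1
        nlinarith
      have s2 : (N : ℝ) < s * ((N / s : ℕ) + 1) := by exact_mod_cast Nat.lt_mul_div_succ N s0
      have s3 : (s : ℝ) * (2 * Real.log N) ≤ N := by
        have := mul_le_mul_of_nonneg_right s1 (show 0 ≤ 2 * Real.log N by positivity)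
        nlinarith
      have s4 : 2 * Real.log N ≤ (N / s : ℕ) + 1 :=
        (lt_of_mul_lt_mul_left (s3.trans_lt s2) (Nat.cast_nonneg s)).le
      refine (TNum1_pow hN0 (by linarith) s4).trans (div_le_div_of_nonneg_right ?_ hN0.le)
      nlinarith
    · refine (pow_le_one₀ (by norm_num) (by norm_num)).trans ?_
      rw [le_div_iff₀ hN0, one_mul]
      exact (not_le.1 hc).le

end Pool.Agent.MP_4f0ed6_gt.U

end
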